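import Pool.Agent.Lib.F4.BlueA
import Pool.Agent.Lib.F4G.Blue

/-! Project f4h: numerical dimension at most one. Definitions and the main rows. -/

open scoped Classical Topology ContDiff ComplexOrder Matrix
open Set Filter MeasureTheory

set_option linter.unusedVariables false

noncomputable section

namespace Pool.Agent.Lib.F4H

open Pool.Agent.Lib.SV (E)
open Pool.Agent.Lib.HS32 Pool.Agent.Lib.HLK Pool.Agent.Lib.F4 Pool.Agent.Lib.F4G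

variable {n : ℕ} (M : Mf n)

/-- The intersection form. -/
def Qm (H S T : M.Fam (Mat n)) : ℝ := ∫ x, mx M H S T x ∂M.mu H

/-- The square of the canonical class. -/
def k2 (H : M.Fam (Mat n)) : ℝ := Qm M H (-M.ric H) (-M.ric H)

/-- The function `σ` is locally the squared modulus of a holomorphic function times a positive
smooth function. -/
def Dl (σ : M.X → ℝ) : Prop := ∀ x, ∃ e ∈ M.C, x ∈ e.source ∧ ∃ (q : E n → ℂ) (g : E n → ℝ),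
  (∃ᶠ z in 𝓝 (e x), q z ≠ 0) ∧ ∀ᶠ z in 𝓝 (e x), DifferentiableAt ℂ q z ∧ ContDiffAt ℝ ∞ g z ∧
    σ (e.symm z) = Complex.normSq (q z) * Real.exp (g z)

/-- The squared norm `σ` of the section of a divisor and the curvature form `Θ`. -/
structure Dv (σ : M.X → ℝ) (Θ : M.Fam (Mat n)) : Prop where
  sm : M.Sm σ
  dl : Dl M σ
  clo : M.Clo Θ
  eq : M.All fun e z => ∀ (q : E n → ℂ) (g : E n → ℝ), (∃ᶠ w in 𝓝 z, q w ≠ 0) →
    (∀ᶠ w in 𝓝 z, DifferentiableAt ℂ q w ∧ ContDiffAt ℝ ∞ g w ∧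
      σ (e.symm w) = Complex.normSq (q w) * Real.exp (g w)) →
    Θ e z = -hess (fun w => (g w : ℂ)) z

/-- The inequality of Bochner for the norm of `u`. -/
def Bo {ι : Type} [Fintype ι] (H : M.Fam (Mat n)) (u : M.Fam (ι → ℂ)) : Prop :=
  ∃ B : ℝ, 0 ≤ B ∧ ∀ (ε : ℝ) (G : M.Fam (Mat n)), 0 ≤ ε → M.Kae G → M.Le (-G) (M.ric G) →
    M.Le (M.ric G) (ε • H) → ∃ V : M.X → ℝ, M.Sm V ∧ (∀ x, 0 ≤ V x) ∧
      (M.All fun e z => (V (e.symm z) = 0 ↔ u e z = 0) ∧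
        ∃ C : ℝ, ∀ᶠ w in 𝓝 z, V (e.symm w) ≤ C * ‖u e w‖ ^ 2) ∧
      ∀ x, V x ≠ 0 → -(B * (1 + ε * M.tr G H x)) ≤ M.lap G (fun y => Real.log (V y)) x

/-- The rule of division: a section of `a K` with poles bounded by the zeros of `u` extends. -/
def Ru {ι : Type} [Fintype ι] (u : M.Fam (ι → ℂ)) : Prop :=
  ∀ (a : ℤ) (m : ℕ) (s : M.Fam ℂ), 0 < m →
    (M.Ov fun e e' x => u e (e x) ≠ 0 → s e' (e' x) = jd M e e' x ^ a * s e (e x)) →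
    (∀ e ∈ M.C, ∀ i, ∃ g : E n → ℂ, DifferentiableOn ℂ g e.target ∧
      ∀ z ∈ e.target, u e z ≠ 0 → g z = s e z * u e z i ^ m) →
    ∃ t, H0 M a t ∧ M.All fun e z => u e z ≠ 0 → t e z = s e z

/-- The entries of a family of matrices. -/
def un (P : M.Fam (Mat n)) : M.Fam (Fin n × Fin n → ℂ) := fun e z p => P e z p.1 p.2

/-- The hypotheses of the algebraic step. -/
structure Hyp2 : Prop where
  z0 : ∀ a ≠ 0, ∀ s, H0 M a s → Zr M s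
  q0 : ∀ ρ, H1 M 0 ρ → Zr M ρ
  r1 : ∀ u, H1 M 1 u ∨ HT M 1 u → ¬Zr M u → Ru M u
  r2 : ∀ P, HB M 1 P ∨ HB M 2 P → ¬Zr M P → Ru M (un M P)

/-- The flag. -/
structure Flag2 (M : Mf 4) (S P : M.Fam (Mat 4)) (V W α : M.Fam (E 4)) : Prop where
  hyp : Hyp2 M
  hS : H2 M 0 S
  hP : HB M 1 P
  hV : HT M 1 V
  hW : HT M 1 W
  hα : H1 M 1 α
  eP : ∀ e z, P e z = st (S e z)
  eα : ∀ e z, α e z = W e z ᵥ* S e z
  pf0 : M.All fun e z => pf (S e z) = 0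
  kV : M.All fun e z => V e z ᵥ* S e z = 0
  nα : ¬Zr M α
  nVW : ¬Zr M fun e z => wg (V e z) (W e z)

/-- The output of the algebraic step. -/
structure Data2 (M : Mf 4) (S P : M.Fam (Mat 4)) (V W α : M.Fam (E 4)) : Prop
    extends Flag2 M S P V W α where
  aV : M.All fun e z => α e z ⬝ᵥ V e z = 0
  aW : M.All fun e z => α e z ⬝ᵥ W e z = 0
  den : Den M α
  int : M.All fun e z => W3 (α e z) (d1 (α e) z)
  z1 : ∀ a, a ≠ -1 → a ≠ 1 → ∀ ρ, H1 M a ρ → Zr M ρ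
  o1 : ∀ ρ, H1 M 1 ρ → ∃ c : ℂ, M.All fun e z => ρ e z = c • α e z
  zT : ∀ a, a ≠ -1 → a ≠ 0 → a ≠ 1 → ∀ Y, HT M a Y → Zr M Y
  z2 : ∀ a, a ≠ -2 → a ≠ 0 → a ≠ 1 → ∀ T, H2 M a T → Zr M T
  zL : ∀ (m : ℕ) (H : M.Fam (Mat 4)) (Y : M.Fam (Fs 4 → ℂ)), 3 ≤ m → (K3E.lk H m).Sec Y → Hol Y →
    ¬Nz Y

/-! ### Block N -/

/-- The curvature form exists. -/
def St_DVE : Prop := ∀ (n : ℕ) (M : Mf n) (σ : M.X → ℝ), M.Sm σ → Dl M σ → ∃ Θ, Dv M σ Θ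

/-- A divisor is non-negative on the canonical class, and is concentrated on its support. -/
def St_NFD : Prop := ∀ (n : ℕ) (M : Mf n) [M.Cpt] (H Θ : M.Fam (Mat n)) (σ : M.X → ℝ),
  M.Kae H → Dv M σ Θ → (∀ a, ZK47.Out M H 0 a → 0 ≤ Qm M H (-M.ric H) Θ) ∧
  ∀ S, M.Clo S → (∀ x, σ x = 0 → ∀ᶠ y in 𝓝 x, M.ev S y = 0) → Qm M H S Θ = 0

/-- A divisor whose class is proportional to the canonical class. -/
def St_NUMD : Prop := ∀ (n : ℕ) (M : Mf n) [M.Cpt] (H Θ : M.Fam (Mat n)) (σ : M.X → ℝ)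
  (a : ℝ → M.X → ℝ), 0 < n → M.Kae H → ZK47.Out M H 0 a → k2 M H ≤ 0 →
  (∀ ρ, H1 M 0 ρ → Zr M ρ) → Dv M σ Θ → (∃ x, σ x = 0) → Qm M H (-M.ric H) Θ ≤ 0 →
  0 ≤ Qm M H Θ Θ → Plu M

/-- The zero divisor of a tensor is orthogonal to the canonical class. -/
def St_N1 : Prop := ∀ (M : Mf 4) [M.Cpt] (H Θ : M.Fam (Mat 4)) (σ : M.X → ℝ) (a : ℝ → M.X → ℝ)
  (ι : Type) [Fintype ι] (u : M.Fam (ι → ℂ)) (m : ℕ), M.Kae H → ZK47.Out M H 0 a → k2 M H ≤ 0 →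
  Hol u → Den M u → Bo M H u → Dv M σ Θ → 0 < m →
  (M.All fun e z => ∃ C : ℝ, ∀ᶠ w in 𝓝 z, ‖u e w‖ ^ (2 * m) ≤ C * σ (e.symm w)) →
  Qm M H (-M.ric H) Θ ≤ 0

/-- The inequality of Bochner holds for the tensors in use. -/
def St_BO : Prop := ∀ (M : Mf 4) [M.Cpt] (H : M.Fam (Mat 4)), M.Met H →
  (∀ u, H1 M 1 u ∨ HT M 1 u → Bo M H u) ∧ ∀ P, HB M 1 P ∨ HB M 2 P → Bo M H (un M P)

/-- The rule of division. -/
def St_RUL : Prop := ∀ (M : Mf 4) [M.Cpt] (H : M.Fam (Mat 4)) (a : ℝ → M.X → ℝ) (ι : Type)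
  [Fintype ι] (u : M.Fam (ι → ℂ)), M.Kae H → ZK47.Out M H 0 a → k2 M H ≤ 0 →
  (∀ ρ, H1 M 0 ρ → Zr M ρ) → ¬Plu M → Hol u → Den M u → Bo M H u → Ru M u

/-! ### Blocks A, B, C -/

/-- The algebraic step. -/
def St_ALG2 : Prop := ∀ (M : Mf 4) [M.Cpt] (S : M.Fam (Mat 4)) (V W : M.Fam (E 4)), Hyp2 M →
  H2 M 0 S → ¬Zr M S → HT M 1 V → HT M 1 W → Ind M V W → ∃ P V' W' α, Data2 M S P V' W' α

/-- The forms close to the canonical class are small along the kernel of `α`. -/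
def St_S3H : Prop := ∀ (M : Mf 4) [M.Cpt] (H S P : M.Fam (Mat 4)) (V W α : M.Fam (E 4))
  (a : ℝ → M.X → ℝ), M.Kae H → ZK47.Out M H 0 a → Data2 M S P V W α → Sm3 M H α

/-- Developing maps exist. -/
def St_DEV2 : Prop := ∀ (M : Mf 4) [M.Cpt] (H S P : M.Fam (Mat 4)) (V W α : M.Fam (E 4))
  (a : ℝ → M.X → ℝ), M.Kae H → ZK47.Out M H 0 a → Data2 M S P V W α →
  (∀ k, ∃ s φ ψ, Ld M k α s φ ψ) → Nonempty (Dev M α)

/-- The last step. -/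
def St_CH : Prop := ∀ (M : Mf 4) [M.Cpt] (H : M.Fam (Mat 4)) (α : M.Fam (E 4)) (φ ψ : M.Fam ℝ)
  (s : ℝ) (a : ℝ → M.X → ℝ), M.Kae H → ZK47.Out M H 0 a → k2 M H ≤ 0 →
  (∀ ρ, H1 M 0 ρ → Zr M ρ) → H1 M 1 α → Den M α → Sm3 M H α → Dev M α → Ld M 3 α s φ ψ → 0 < s →
  Plu M

/-- The theorem on the manifold layer. -/
def St_NU1 : Prop := ∀ (M : Mf 4) [M.Cpt] (H S : M.Fam (Mat 4)) (V W : M.Fam (E 4)), M.Kae H →
  W86.Nef M H → k2 M H ≤ 0 → (∀ ρ, H1 M 0 ρ → Zr M ρ) → H2 M 0 S → ¬Zr M S → HT M 1 V →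
  HT M 1 W → Ind M V W → Plu M

theorem nu1_of (hO : St_OUZ) (hZ : St_Z0) (hI : St_IDT) (hB : St_BO) (hR : St_RUL)
    (hA : St_ALG2) (h3 : St_S3H) (h4 : St_S4) (hL : St_LD) (hF : St_FLAT) (hV : St_DEV2)
    (hC : St_CH) : St_NU1 := by
  intro M _ H S V W hH hn hk q0 hS nS h1 h2 hi
  by_contra no
  obtain ⟨a, ha⟩ := hO 4 M H hH hn
  obtain ⟨b1, b2⟩ := hB M H hH.toMet
  have hy : Hyp2 M := ⟨hZ 4 _ _ hH.toMet (fun ε hε => (hn ε hε.1).imp fun w hw =>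
      ⟨hw.1, fun e he z hz => by simpa [Mf.gE] using (hw.2 e he z hz).posSemidef⟩)
      (fun m m0 t t1 => by_contra fun c => no ⟨m, m0, t, t1, c⟩), q0,
    fun u hu nu => hR M H a _ u hH ha hk q0 no (hu.elim (·.hol) (·.hol))
      ((hI 4 M 1).1 u hu nu) (b1 u hu),
    fun P hP nP => hR M H a _ _ hH ha hk q0 no
      (fun e he z hz p => hP.elim (·.hol e he z hz p.1 p.2) (·.hol e he z hz p.1 p.2))
      (fun e he z hz => (hP.elim (fun h => (hI 4 M 1).2.1 P (Or.inr h) nP)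
        (fun h => (hI 4 M 2).2.1 P (Or.inr h) nP) e he z hz).mono fun w hw c =>
          hw (Matrix.ext fun i j => congrFun c (i, j))) (b2 P hP)⟩
  obtain ⟨P, V, W, α, hD⟩ := hA M S V W hy hS nS h1 h2 hi
  have s3 := h3 M H S P V W α a hH ha hD
  obtain ⟨F, t, hF'⟩ := h4 4 M H α a hH hD.hα ha s3
  have hl := fun k => hL M H α a F t k hH ha hD.hα hD.nα hF'
  obtain ⟨s, φ, ψ, hs⟩ := hl 3
  rcases hs.s0.eq_or_lt with rfl | s0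
  · exact no (hF 4 M H α φ ψ four_pos hH q0 hs)
  obtain ⟨D⟩ := hV M H S P V W α a hH ha hD hl
  exact no (hC M H α φ ψ s a hH ha hk q0 hD.hα hD.den s3 D hs s0)

end Pool.Agent.Lib.F4H
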