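import Pool.Agent.Lib.F4.AllA
import Pool.Agent.Lib.F4H.Defs

/-! Project f4h: the algebraic step from the rule of division. -/

open scoped Classical Topology ContDiff ComplexOrder Matrix
open Set Filter

set_option linter.unusedVariables false

noncomputable section

namespace Pool.Agent.Lib.F4H

open Pool.Agent.Lib.SV (E)
open Pool.Agent.Lib.HS32 Pool.Agent.Lib.HLK Pool.Agent.Lib.F4

namespace A46

variable {n : ℕ} {M : Mf n}

/-- Division of families of vectors. -/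
theorem gen {σ : Type} [Fintype σ] (a : ℤ) {u w : M.Fam (σ → ℂ)} (hu : Hol u) (hw : Hol w)
    (hr : Ru M u) (hd : Den M u)
    (hp : M.All fun e z => ∀ i j, w e z i * u e z j = w e z j * u e z i)
    (hn : M.Ov fun e e' x => u e' (e' x) = 0 → u e (e x) = 0)
    (hc : M.Ov fun e e' x => ∀ c : ℂ, w e (e x) = c • u e (e x) →
      w e' (e' x) = (jd M e e' x ^ a * c) • u e' (e' x)) :
    ∃ s, H0 M a s ∧ M.All fun e z => w e z = s e z • u e z := by
  have hex : ∀ (e : M.Ch) (z : E n), ∃ c : ℂ, e ∈ M.C → z ∈ e.target → u e z ≠ 0 →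
      w e z = c • u e z := by
    intro e z
    by_cases h : u e z = 0
    · exact ⟨0, fun _ _ c => (c h).elim⟩
    obtain ⟨j, hj⟩ := Function.ne_iff.1 h
    refine ⟨w e z j / u e z j, fun he hz _ => funext fun i => ?_⟩
    have k := hp e he z hz i j
    have hj' : u e z j ≠ 0 := hj
    rw [Pi.smul_apply, smul_eq_mul, div_mul_eq_mul_div, eq_div_iff hj', k]
  choose s hs using hex
  obtain ⟨t, t1, t2⟩ := hr a 1 s one_pos (fun e he e' he' x hx hx' h0 => by
      have h1 : u e' (e' x) ≠ 0 := fun c => h0 (hn e he e' he' x hx hx' c)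
      have k := hc e he e' he' x hx hx' _ (hs e _ he (e.map_source hx) h0)
      rw [hs e' _ he' (e'.map_source hx') h1] at k
      exact smul_left_injective ℂ h1 k)
    fun e he i => ⟨fun z => w e z i, fun z hz =>
      (hw e he z hz i).self_of_nhds.differentiableWithinAt, fun z hz h0 => by
        rw [pow_one]
        exact congrFun (hs e z he hz h0) i⟩
  refine ⟨t, t1, fun e he z hz => funext fun i => ?_⟩
  refine tendsto_nhds_unique_of_frequently_eq (hw e he z hz i).self_of_nhds.continuousAt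
    ((t1.hol e he z hz).self_of_nhds.continuousAt.mul (hu e he z hz i).self_of_nhds.continuousAt)
    (((hd e he z hz).and_eventually (e.open_target.mem_nhds hz)).mono ?_)
  rintro y ⟨y0, y1⟩
  have k := t2 e he y y1 y0
  beta_reduce at k
  simp only [Pi.mul_apply]
  rw [k, hs e y he y1 y0, Pi.smul_apply, smul_eq_mul]

theorem jd0 : M.Ov fun e e' x => jd M e e' x ≠ 0 := fun e he e' he' x hx hx' =>
  ((mTR n M).2.1 e he e' he' x hx hx').2.1

/-- Division of forms and of fields. -/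
theorem div1 (a b : ℤ) {u w : M.Fam (E n)}
    (huw : H1 M b u ∧ H1 M (a + b) w ∨ HT M b u ∧ HT M (a + b) w) (hr : Ru M u) (hd : Den M u)
    (hp : M.All fun e z => wg (w e z) (u e z) = 0) :
    ∃ s, H0 M a s ∧ M.All fun e z => w e z = s e z • u e z := by
  have hp' : M.All fun e z => ∀ i j, w e z i * u e z j = w e z j * u e z i := by
    intro e he z hz i j
    have := congrFun (congrFun (hp e he z hz) i) j
    simp only [wg, Matrix.of_apply, Matrix.zero_apply] at this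
    linear_combination this
  rcases huw with ⟨hu, hw⟩ | ⟨hu, hw⟩
  · refine gen a hu.hol hw.hol hr hd hp' (fun e he e' he' x hx hx' h => ?_)
      fun e he e' he' x hx hx' c hc => ?_
    · rw [hu.cmp e' he' e he x hx' hx, h, Matrix.zero_vecMul, smul_zero]
    · rw [hw.cmp e he e' he' x hx hx', hu.cmp e he e' he' x hx hx', hc, Matrix.smul_vecMul,
        smul_smul, smul_smul, zpow_add₀ (jd0 e he e' he' x hx hx')]
      congr 1
      ring
  · refine gen a hu.hol hw.hol hr hd hp' (fun e he e' he' x hx hx' h => ?_)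
      fun e he e' he' x hx hx' c hc => ?_
    · have k := hu.cmp e he e' he' x hx hx'
      beta_reduce at k
      rw [h, Matrix.mulVec_zero] at k
      exact (smul_eq_zero.1 k.symm).resolve_left (zpow_ne_zero _ (jd0 e he e' he' x hx hx'))
    · have t2 := jd0 e he e' he' x hx hx'
      refine DIV90.canV t2 ?_
      rw [Matrix.mulVec_smul, hw.cmp e he e' he' x hx hx', hu.cmp e he e' he' x hx hx', hc,
        smul_smul, smul_smul, zpow_add₀ t2]
      congr 1
      ring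

/-- Division of bivectors. -/
theorem div2 (a b : ℤ) {u w : M.Fam (Mat n)} (hu : HB M b u) (hw : HB M (a + b) w)
    (hr : Ru M (un M u)) (hd : Den M u)
    (hp : M.All fun e z => ∀ i j k l, w e z i j * u e z k l = w e z k l * u e z i j) :
    ∃ s, H0 M a s ∧ M.All fun e z => w e z = s e z • u e z := by
  have h0 : ∀ e z, un M u e z = 0 ↔ u e z = 0 := fun e z =>
    ⟨fun h => Matrix.ext fun i j => congrFun h (i, j), fun h => funext fun p => by
      simp only [un, h, Matrix.zero_apply, Pi.zero_apply]⟩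
  obtain ⟨s, s1, s2⟩ := gen (w := un M w) a (fun e he z hz p => hu.hol e he z hz p.1 p.2)
    (fun e he z hz p => hw.hol e he z hz p.1 p.2) hr
    (fun e he z hz => (hd e he z hz).mono fun y hy c => hy ((h0 e y).1 c))
    (fun e he z hz p q => hp e he z hz p.1 p.2 q.1 q.2)
    (fun e he e' he' x hx hx' h => by
      have k := hu.cmp e he e' he' x hx hx'
      beta_reduce at k
      rw [(h0 _ _).1 h, Matrix.mul_zero, Matrix.zero_mul] at k
      exact (h0 _ _).2
        ((smul_eq_zero.1 k.symm).resolve_left (zpow_ne_zero _ (jd0 e he e' he' x hx hx'))))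
    fun e he e' he' x hx hx' c hc => by
      have t2 := jd0 e he e' he' x hx hx'
      have hc' : w e (e x) = c • u e (e x) := Matrix.ext fun i j => congrFun hc (i, j)
      have k : w e' (e' x) = (jd M e e' x ^ a * c) • u e' (e' x) := by
        refine DIV90.canM t2 ?_
        rw [Matrix.mul_smul, Matrix.smul_mul, hw.cmp e he e' he' x hx hx',
          hu.cmp e he e' he' x hx hx', hc', smul_smul, smul_smul, zpow_add₀ t2]
        congr 1
        ring
      funext p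
      exact congrFun (congrFun k p.1) p.2
  exact ⟨s, s1, fun e he z hz => Matrix.ext fun i j => congrFun (s2 e he z hz) (i, j)⟩

end A46

namespace A46

variable {M : Mf 4} [M.Cpt] {S P : M.Fam (Mat 4)} {V W α : M.Fam (E 4)}

theorem dv1 (hM : Hyp2 M) (a : ℤ) {u w : M.Fam (E 4)}
    (h : H1 M 1 u ∧ H1 M (a + 1) w ∨ HT M 1 u ∧ HT M (a + 1) w) (nu : ¬Zr M u)
    (hp : M.All fun e z => wg (w e z) (u e z) = 0) :
    ∃ s, H0 M a s ∧ M.All fun e z => w e z = s e z • u e z :=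
  have k : H1 M 1 u ∨ HT M 1 u := h.imp (·.1) (·.1)
  div1 a 1 h (hM.r1 u k nu) ((aIDT 4 M 1).1 u k nu) hp

theorem dv2 (hM : Hyp2 M) (a b : ℤ) (hb : b = 1 ∨ b = 2) {u w : M.Fam (Mat 4)} (hu : HB M b u)
    (hw : HB M (a + b) w) (nu : ¬Zr M u)
    (hp : M.All fun e z => ∀ i j k l, w e z i j * u e z k l = w e z k l * u e z i j) :
    ∃ s, H0 M a s ∧ M.All fun e z => w e z = s e z • u e z :=
  div2 a b hu hw (hM.r2 u (by rcases hb with rfl | rfl; exacts [Or.inl hu, Or.inr hu]) nu)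
    ((aIDT 4 M b).2.1 u (Or.inr hu) nu) hp

theorem flag (hM : Hyp2 M) (hS : H2 M 0 S) (nS : ¬Zr M S) (hV : HT M 1 V) (hW : HT M 1 W)
    (hI : Ind M V W) :
    ∃ V' W', Flag2 M S (fun e z => st (S e z)) V' W' fun e z => W' e z ᵥ* S e z := by
  obtain ⟨hP, hpf⟩ := (aOS M 0 S).1 hS
  have pf0 := hM.z0 _ (by norm_num) _ hpf
  have hc : ∀ {U}, HT M 1 U → H1 M 1 fun e z => U e z ᵥ* S e z := fun h =>
    (aOP 4 M 0 1 0 _ 0 S).2.1 hS h
  have nV : ¬Zr M V := fun h => one_ne_zero (hI 1 0 fun e he z hz => by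
    beta_reduce
    rw [h e he z hz]
    simp).1
  have nVW : ¬Zr M fun e z => wg (V e z) (W e z) := fun h => by
    obtain ⟨s, s1, s2⟩ := dv1 hM 0 (Or.inr ⟨hV, hW⟩) nV fun e he z hz => by
      beta_reduce
      rw [(aPT2.2 4 0 0 _ _).2.1, show wg (V e z) (W e z) = 0 from h e he z hz, neg_zero]
    obtain ⟨c, hc⟩ := (aIDT 4 M 0).2.2 s s1
    exact one_ne_zero (hI (-c) 1 fun e he z hz => by
      beta_reduce
      rw [s2 e he z hz, hc e he z hz]
      simp).2
  have nP : ¬Zr M fun e z => st (S e z) := fun h => nS fun e he z hz =>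
    (Van95.st_iff aPT1 (hS.alt e he z hz)).1 (h e he z hz)
  by_cases h2 : Zr M fun e z => W e z ᵥ* S e z
  · refine ⟨W, V, hM, hS, hP, hW, hV, hc hV, fun _ _ => rfl, fun _ _ => rfl, pf0, h2, fun h1 => ?_,
      fun h => nVW fun e he z hz => ?_⟩
    · obtain ⟨s, s1, s2⟩ := dv2 hM 1 1 (Or.inl rfl) hP ((aOP 4 M 1 1 0 V W 0).2.2.2.1 hV hW) nP
        fun e he z hz => (aPT2.1 _ _ _ (hS.alt e he z hz)).2.1 (h1 e he z hz) (h2 e he z hz)
      exact nVW fun e he z hz => by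
        beta_reduce
        rw [s2 e he z hz, hM.z0 1 one_ne_zero s s1 e he z hz, zero_smul]
    · beta_reduce
      rw [(aPT2.2 4 0 0 _ _).2.1, show wg (W e z) (V e z) = 0 from h e he z hz, neg_zero]
  · have h0 := hM.z0 _ (by norm_num) _ ((aOP 4 M 1 1 _ W 0 0).1 (hc hV) hW)
    obtain ⟨s, s1, s2⟩ := dv1 hM 0 (Or.inl ⟨hc hW, hc hV⟩) h2 fun e he z hz => by
      beta_reduce
      rw [(aPT2.1 _ _ _ (hS.alt e he z hz)).1 (pf0 e he z hz),
        show V e z ᵥ* S e z ⬝ᵥ W e z = 0 from h0 e he z hz, zero_smul]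
    obtain ⟨c, hc'⟩ := (aIDT 4 M 0).2.2 s s1
    refine ⟨fun e z => V e z - c • W e z, W, hM, hS, hP, (aOP 4 M 1 0 0 V W 0).2.2.2.2 hV hW c, hW,
      hc hW, fun _ _ => rfl, fun _ _ => rfl, pf0, fun e he z hz => ?_, h2,
      fun h => nVW fun e he z hz => ?_⟩
    · beta_reduce
      rw [Matrix.sub_vecMul, Matrix.smul_vecMul, s2 e he z hz, hc' e he z hz, sub_self]
    · beta_reduce
      rw [← h e he z hz]
      ext i j
      simp only [wg, Matrix.of_apply, Pi.sub_apply, Pi.smul_apply, smul_eq_mul]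
      ring

theorem tan (F : Flag2 M S P V W α) : (M.All fun e z => α e z ⬝ᵥ V e z = 0 ∧ α e z ⬝ᵥ W e z = 0 ∧
    P e z *ᵥ α e z = 0) ∧ ∀ a, a ≠ 0 → a ≠ 1 → ∀ Y, HT M a Y →
    (M.All fun e z => α e z ⬝ᵥ Y e z = 0) → Zr M Y := by
  have sk := fun e he z hz (u v : E 4) =>
    (aPT2.2 4 (S e z) 0 u v).2.2.2.2.2.2 (F.hS.alt e he z hz)
  refine ⟨fun e he z hz => ⟨?_, ?_, ?_⟩, fun a a0 a1 Y hY h => ?_⟩
  · rw [F.eα, (sk e he z hz _ _).1, F.kV e he z hz, zero_dotProduct, neg_zero]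
  · rw [F.eα, (sk e he z hz _ 0).2.1]
  · rw [F.eα, F.eP, ← Matrix.mulVec_transpose, F.hS.alt e he z hz, Matrix.neg_mulVec,
      Matrix.mulVec_neg, Matrix.mulVec_mulVec, ((aPT1 _).2.2 (F.hS.alt e he z hz)).2.1,
      F.pf0 e he z hz, zero_smul, neg_zero, Matrix.zero_mulVec, neg_zero]
  have a2 : a - 1 ≠ 0 := sub_ne_zero.2 a1
  have nP : ¬Zr M P := fun c => F.nα fun e he z hz => by
    have k := c e he z hz
    beta_reduce at k ⊢
    rw [F.eP] at k
    rw [F.eα, (Van95.st_iff aPT1 (F.hS.alt e he z hz)).1 k, Matrix.vecMul_zero]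
  have nV : ¬Zr M V := fun c => F.nVW fun e he z hz => by
    ext i j
    simp [wg, c e he z hz]
  obtain ⟨s, hs, es⟩ := dv1 (w := fun e z => Y e z ᵥ* S e z) F.hyp (a - 1)
    (Or.inl ⟨F.hα, by
      rw [sub_add_cancel, ← zero_add a]
      exact (aOP 4 M 0 a α Y Y S).2.1 F.hS hY⟩) F.nα fun e he z hz => by
      have k := h e he z hz
      beta_reduce at k ⊢
      rw [F.eα] at k ⊢
      rw [(aPT2.1 _ _ _ (F.hS.alt e he z hz)).1 (F.pf0 e he z hz), (sk e he z hz _ _).1, k,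
        neg_zero, zero_smul]
  obtain ⟨t, ht, et⟩ := dv2 F.hyp a 1 (Or.inl rfl) F.hP ((aOP 4 M a 1 α Y V S).2.2.2.1 hY F.hV) nP
    fun e he z hz => by
      beta_reduce
      rw [F.eP]
      refine (aPT2.1 _ _ _ (F.hS.alt e he z hz)).2.1 ((es e he z hz).trans ?_) (F.kV e he z hz)
      rw [F.hyp.z0 _ a2 _ hs e he z hz, zero_smul]
  obtain ⟨r, hr, er⟩ := dv1 (w := Y) F.hyp (a - 1) (Or.inr ⟨F.hV, by rwa [sub_add_cancel]⟩) nV
    fun e he z hz => (et e he z hz).trans (by rw [F.hyp.z0 _ a0 _ ht e he z hz, zero_smul])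
  exact fun e he z hz => (er e he z hz).trans (by rw [F.hyp.z0 _ a2 _ hr e he z hz, zero_smul])

/-- The twisted forms of degree one are multiples of `α`. -/
theorem one (F : Flag2 M S P V W α) (a : ℤ) (h1 : a ≠ -1) (h0 : a ≠ 0) {ρ : M.Fam (E 4)}
    (hρ : H1 M a ρ) : ∃ s, H0 M (a - 1) s ∧ M.All fun e z => ρ e z = s e z • α e z := by
  obtain ⟨t1, t2⟩ := tan F
  have rW := F.hyp.z0 (a + 1) (by omega) _ ((aOP 4 M a 1 ρ W W S).1 hρ F.hW)
  have pρ := t2 (1 + a) (by omega) (by omega) _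
    ((aOP 4 M 1 a ρ W W P).2.2.1 F.hP hρ) fun e he z hz => by
      beta_reduce
      rw [Matrix.dotProduct_mulVec, ← Matrix.mulVec_transpose, F.hP.alt e he z hz,
        Matrix.neg_mulVec, (t1 e he z hz).2.2, neg_zero, zero_dotProduct]
  exact dv1 F.hyp (a - 1) (Or.inl ⟨F.hα, by rwa [sub_add_cancel]⟩) F.nα fun e he z hz => by
    have a1 := F.hS.alt e he z hz
    have w3 : W3 (ρ e z) (S e z) := (((aPT1 _).2.2 a1).2.2.1 _).1 (by
      rw [← F.eP]
      exact pρ e he z hz)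
    have w4 := ((aPT2.2 4 (S e z) 0 (ρ e z) (W e z)).2.2.2.2.2.2 a1).2.2 w3 (rW e he z hz)
    beta_reduce
    rw [(aPT2.2 4 0 0 (α e z) (ρ e z)).2.1, F.eα, w4, neg_zero]

theorem van (F : Flag2 M S P V W α) : (∀ a, a ≠ -1 → a ≠ 1 → ∀ ρ, H1 M a ρ → Zr M ρ) ∧
    (∀ a, a ≠ -1 → a ≠ 0 → a ≠ 1 → ∀ Y, HT M a Y → Zr M Y) ∧
    ∀ a, a ≠ -2 → a ≠ 0 → a ≠ 1 → ∀ T, H2 M a T → Zr M T := by
  have z1 : ∀ a, a ≠ -1 → a ≠ 1 → ∀ ρ, H1 M a ρ → Zr M ρ := by
    intro a h1 h2 ρ hρ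
    by_cases h0 : a = 0
    · exact F.hyp.q0 ρ (h0 ▸ hρ)
    obtain ⟨s, hs, es⟩ := one F a h1 h0 hρ
    intro e he z hz
    have s0 : s e z = 0 := F.hyp.z0 (a - 1) (by omega) s hs e he z hz
    exact (es e he z hz).trans (by rw [s0, zero_smul])
  refine ⟨z1, fun a h1 h2 h3 Y hY => (tan F).2 a h2 h3 Y hY
    (F.hyp.z0 (1 + a) (by omega) _ ((aOP 4 M 1 a α Y Y S).1 F.hα hY)), fun a h1 h2 h3 T hT => ?_⟩
  have vT := z1 (a + 1) (by omega) (by omega) _ ((aOP 4 M a 1 α V V T).2.1 hT F.hV)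
  have wT := z1 (a + 1) (by omega) (by omega) _ ((aOP 4 M a 1 α W W T).2.1 hT F.hW)
  have hB : HB M (1 + 1) fun e z => wg (V e z) (W e z) :=
    (aOP 4 M 1 1 α V W S).2.2.2.1 F.hV F.hW
  obtain ⟨s, hs, es⟩ := dv2 (w := fun e z => st (T e z)) F.hyp (a - 1) (1 + 1) (Or.inr rfl) hB (by
      rw [show a - 1 + (1 + 1) = a + 1 by ring]
      exact ((aOS M a T).1 hT).1) F.nVW fun e he z hz i j k l => by
      have h := (aPT2.1 (T e z) (V e z) (W e z) (hT.alt e he z hz)).2.1 (vT e he z hz)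
        (wT e he z hz) i j k l
      rw [mul_comm, ← h, mul_comm]
  intro e he z hz
  have s0 : s e z = 0 := F.hyp.z0 (a - 1) (by omega) s hs e he z hz
  exact (Van95.st_iff aPT1 (hT.alt e he z hz)).1 ((es e he z hz).trans (by rw [s0, zero_smul]))

end A46

open A46 in
theorem st_ALG2 : St_ALG2 := by
  intro M _ S V W hM hS nS hV hW hI
  obtain ⟨V', W', F⟩ := flag hM hS nS hV hW hI
  obtain ⟨t1, -⟩ := tan F
  obtain ⟨z1, zT, z2⟩ := van F
  refine ⟨_, V', W', _, F, fun e he z hz => (t1 e he z hz).1, fun e he z hz => (t1 e he z hz).2.1,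
    (aIDT 4 M 1).1 _ (Or.inl F.hα) F.nα, fun e he z hz => ?_, z1, fun ρ hρ => ?_, zT, z2,
    fun m H Y hm y1 y2 ⟨e, he, z, hz, y3⟩ => y3 ?_⟩
  · exact (((aPT1 _).2.2 ((aD1 4 M 1 _ F.hα).2.1 e z)).2.2.1 _).1
      (zT _ (by norm_num) (by norm_num) (by norm_num) _ (aINT M 1 _ F.hα) e he z hz)
  · obtain ⟨s, hs, es⟩ := one F 1 (by norm_num) one_ne_zero hρ
    obtain ⟨c, hc⟩ := (aIDT 4 M 0).2.2 s hs
    exact ⟨c, fun e he z hz => (es e he z hz).trans (by rw [hc e he z hz])⟩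
  · obtain ⟨x0, x1, x2, x3, x4⟩ := aXT 4 M H m Y y1 y2
    have y0 := hM.z0 _ (by omega) _ x0 e he z hz
    have y4 := hM.z0 _ (by omega) _ x4 e he z hz
    have y5 := zT _ (by omega) (by omega) (by omega) _ x1 e he z hz
    have y6 := z1 _ (by omega) (by omega) _ x3 e he z hz
    have y7 := z2 (m - 1) (by omega) (by omega) (by omega) _
      ((aOS M (m - 1) _).2 (by rw [sub_add_cancel]; exact x2)) e he z hz
    have y8 : v2 (Y e z) = 0 := (Van95.st_iff aPT1 (x2.alt e he z hz)).1 y7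
    obtain ⟨-, -, -, -, -, p1, p2, p3⟩ := aXP 4 0 (Y e z)
    funext A
    have hA : A.card ≤ 4 := (Finset.card_le_univ A).trans (by simp)
    rcases (by omega : A.card = 0 ∨ A.card = 1 ∨ A.card = 2 ∨ A.card + 1 = 4 ∨ A.card + 0 = 4)
      with h | h | h | h | h
    · rw [Finset.card_eq_zero.1 h]
      exact y0
    · exact p1 y5 A h
    · exact p2 y8 A h
    · exact p3 1 ((aXP 4 0 _).2.2.2.2.2.1 y6) A h
    · exact p3 0 (fun B hB => by rw [Finset.card_eq_zero.1 hB]; exact y4) A h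

end Pool.Agent.Lib.F4H
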