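import Pool.Agent.Lib.F4H.Defs
import Pool.Agent.Lib.F4G.DevB

/-! Project f4h: the local developing maps exist. -/

noncomputable section

namespace Pool.Agent.Lib.F4H

open Pool.Agent.Lib.HS32 Pool.Agent.Lib.F4 Pool.Agent.Lib.F4G

theorem st_DEV2 : St_DEV2 := by
  intro M _ H S P V W α a hH hO hD hL
  refine DevB.dev ?_
  obtain ⟨s, φ, ψ, h⟩ := hL 3
  obtain ⟨w, hA⟩ := R.aHV 4 M H a 1 (by norm_num) hH hO
  refine topA 4 M H α φ ψ s hH.toMet (ADP.inp h hD.hα hD.den)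
    (hD.z2 _ (by norm_num) (by norm_num) (by norm_num)) fun ξ hξ => ?_
  obtain ⟨r, hr⟩ := R.aSOL 4 M H _ _ ξ hH w (hA (hD.zL 3 H · le_rfl)) (ADP.xi hξ) (ADP.cl hξ)
  refine ⟨r, .of_forall fun x e he e' he' hx hx' => ?_, hr.int, hr.eq⟩
  rw [← ADP.kan3 e e' x ((mTR 4 M).2.1 e he e' he' x hx hx').2.1]
  exact hr.law e he e' he' x hx hx'

end Pool.Agent.Lib.F4H
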