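import Pool.Agent.Lib.VF72.Lim
import Pool.Agent.Lib.SV.B_ZER
import Pool.Agent.Lib.SV.B_SUB

/-! The Hessian of `log (τ + h)` has no mass near the zero set of `τ`, when this set lies in the
zero sets of holomorphic functions that are invariant along the vectors of a basis. -/

open scoped Classical Topology ContDiff ENNReal ComplexOrder Matrix
open Set MeasureTheory Complex Metric Filter

set_option linter.unusedVariables false

noncomputable section

namespace Pool.Agent.Lib.F4H.M45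

open Pool.Agent.Lib.SV (E)
open Pool.Agent.Lib.HS32 Pool.Agent.Lib.VF72

variable {n : ℕ} {ι : Type} {U K : Set (E n)}

/-- The derivative along a real direction. -/
def dr (v : E n) (f : E n → ℂ) (z : E n) : ℂ := fderiv ℝ f z v

theorem dr_off (hU : IsOpen U) (hK : IsCompact K) {χ : E n → ℂ}
    (h0 : ∀ z ∈ U, z ∉ K → χ z = 0) (v : E n) : ∀ z ∈ U, z ∉ K → dr v χ z = 0 := fun z hz h => by
  have e : χ =ᶠ[𝓝 z] fun _ => 0 := by
    filter_upwards [hU.mem_nhds hz, hK.isClosed.isOpen_compl.mem_nhds h] with w h1 h2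
    exact h0 w h1 h2
  rw [dr, e.fderiv_eq, fderiv_fun_const]
  rfl

theorem dr_sm {f : E n → ℂ} {z : E n} (h : ContDiffAt ℝ ∞ f z) (v : E n) :
    ContDiffAt ℝ ∞ (dr v f) z := cd_fderiv h v

theorem ibp1 (hU : IsOpen U) (hK : IsCompact K) (hs : K ⊆ U) {ρ χ f : E n → ℂ} {v : E n}
    (hρ : ∀ z ∈ U, ContDiffAt ℝ ∞ ρ z) (hv : ∀ z ∈ U, dr v ρ z = 0)
    (hχ : ∀ z ∈ U, ContDiffAt ℝ ∞ χ z) (h0 : ∀ z ∈ U, z ∉ K → χ z = 0)
    (hf : ∀ z ∈ U, ContDiffAt ℝ ∞ f z) :
    ∫ z in U, ρ z * χ z * dr v f z = -∫ z in U, ρ z * dr v χ z * f z := by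
  have h1 := (BIBPE.core (f := fun z => ρ z * χ z * f z) hU hK hs
    (fun z hz => ((hρ z hz).mul (hχ z hz)).mul (hf z hz))
    (fun z hz h => by rw [h0 z hz h, mul_zero, zero_mul]) v).2
  have i1 : IntegrableOn (fun z => ρ z * χ z * dr v f z) U := intU hU hK hs
    (fun z hz => (((hρ z hz).mul (hχ z hz)).mul (dr_sm (hf z hz) v)).continuousAt)
    fun z hz h => by rw [h0 z hz h, mul_zero, zero_mul]
  have i2 : IntegrableOn (fun z => ρ z * dr v χ z * f z) U := intU hU hK hs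
    (fun z hz => (((hρ z hz).mul (dr_sm (hχ z hz) v)).mul (hf z hz)).continuousAt)
    fun z hz h => by rw [dr_off hU hK h0 v z hz h, mul_zero, zero_mul]
  rw [eq_neg_iff_add_eq_zero, ← integral_add i1 i2, ← h1]
  refine setIntegral_congr_fun hU.measurableSet fun z hz => ?_
  have e := hv z hz
  have d1 := cd_diff (hρ z hz)
  have d2 := cd_diff (hχ z hz)
  have d3 := cd_diff (hf z hz)
  have e2 : fderiv ℝ (fun z => ρ z * χ z * f z) z v = ρ z * χ z * dr v f z +
      f z * (ρ z * dr v χ z + χ z * dr v ρ z) := by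
    rw [fderiv_fun_mul (d1.fun_mul d2) d3, fderiv_fun_mul d1 d2]
    rfl
  show ρ z * χ z * dr v f z + ρ z * dr v χ z * f z = fderiv ℝ (fun z => ρ z * χ z * f z) z v
  rw [e2, e]
  ring

theorem ibp2 (hU : IsOpen U) (hK : IsCompact K) (hs : K ⊆ U) {ρ χ f : E n → ℂ} {v : E n}
    (hρ : ∀ z ∈ U, ContDiffAt ℝ ∞ ρ z) (hv : ∀ z ∈ U, dr v ρ z = 0)
    (hχ : ∀ z ∈ U, ContDiffAt ℝ ∞ χ z) (h0 : ∀ z ∈ U, z ∉ K → χ z = 0)
    (hf : ∀ z ∈ U, ContDiffAt ℝ ∞ f z) :
    ∫ z in U, ρ z * χ z * dr v (dr v f) z = ∫ z in U, ρ z * dr v (dr v χ) z * f z := by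
  rw [ibp1 hU hK hs hρ hv hχ h0 fun z hz => dr_sm (hf z hz) v,
    ibp1 hU hK hs hρ hv (fun z hz => dr_sm (hχ z hz) v) (dr_off hU hK h0 v) hf, neg_neg]

/-- The Laplacian along a complex direction. -/
def lp (v : E n) (f : E n → ℂ) (z : E n) : ℂ :=
  (dr v (dr v f) z + dr (I • v) (dr (I • v) f) z) / 4

theorem lp_sm {f : E n → ℂ} {z : E n} (h : ContDiffAt ℝ ∞ f z) (v : E n) :
    ContDiffAt ℝ ∞ (lp v f) z :=
  ((dr_sm (dr_sm h v) v).add (dr_sm (dr_sm h _) _)).div_const 4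

theorem lp_eq {u : E n → ℝ} {z : E n} (hu : ContDiffAt ℝ ∞ u z) (v : E n) :
    star v ⬝ᵥ hess (fun w => (u w : ℂ)) z *ᵥ v = lp v (fun w => (u w : ℂ)) z := by
  have h3 : ∀ a : E n, dr a (dr a fun w => (u w : ℂ)) z = (fderiv ℝ (fderiv ℝ u) z a a : ℝ) :=
    fun a => by
    have e : (dr a fun w => (u w : ℂ)) =ᶠ[𝓝 z] fun w => (fderiv ℝ u w a : ℝ) :=
      (cd_ev_diff hu).mono fun w hw => fderiv_ofReal hw a
    rw [dr, e.fderiv_eq, fderiv_ofReal (cd_diff (cd_fderiv hu a)),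
      fderiv_clm_apply (cd_diff (hu.fderiv_right (m := ∞) (by simp))) (differentiableAt_const a)]
    simp
  rw [BPSH.hess_lv hu, lp, h3, h3, HS66.lv]
  push_cast
  rfl

theorem ibp3 (hU : IsOpen U) (hK : IsCompact K) (hs : K ⊆ U) {ρ χ f : E n → ℂ} {v : E n}
    (hρ : ∀ z ∈ U, ContDiffAt ℝ ∞ ρ z) (hv : ∀ y (w : ℂ), ρ (y + w • v) = ρ y)
    (hχ : ∀ z ∈ U, ContDiffAt ℝ ∞ χ z) (h0 : ∀ z ∈ U, z ∉ K → χ z = 0)
    (hf : ∀ z ∈ U, ContDiffAt ℝ ∞ f z) :
    ∫ z in U, ρ z * χ z * lp v f z = ∫ z in U, ρ z * lp v χ z * f z := by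
  have d0 : ∀ w : ℂ, ∀ z ∈ U, dr (w • v) ρ z = 0 := fun w z hz => by
    have h1 : HasLineDerivAt ℝ ρ (fderiv ℝ ρ z (w • v)) z (w • v) :=
      (cd_diff (hρ z hz)).hasFDerivAt.hasLineDerivAt _
    have h2 : HasLineDerivAt ℝ ρ 0 z (w • v) := by
      have e : (fun t : ℝ => ρ (z + t • w • v)) = fun _ => ρ z := funext fun t => by
        rw [← hv z ((t : ℂ) * w), mul_smul, coe_smul]
      rw [HasLineDerivAt, e]
      exact hasDerivAt_const _ _
    exact h1.unique h2
  have d1 : ∀ z ∈ U, dr v ρ z = 0 := fun z hz => by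
    have := d0 1 z hz
    rwa [one_smul] at this
  have i1 : ∀ w : E n, IntegrableOn (fun z => ρ z * χ z * dr w (dr w f) z) U := fun w =>
    intU hU hK hs (fun z hz => (((hρ z hz).mul (hχ z hz)).mul
      (dr_sm (dr_sm (hf z hz) w) w)).continuousAt) fun z hz h => by
        rw [h0 z hz h, mul_zero, zero_mul]
  have i2 : ∀ w : E n, IntegrableOn (fun z => ρ z * dr w (dr w χ) z * f z) U := fun w =>
    intU hU hK hs (fun z hz => (((hρ z hz).mul (dr_sm (dr_sm (hχ z hz) w) w)).mul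
      (hf z hz)).continuousAt) fun z hz h => by
        rw [dr_off hU hK (dr_off hU hK h0 w) w z hz h, mul_zero, zero_mul]
  have e1 : ∀ z, ρ z * χ z * lp v f z =
      (ρ z * χ z * dr v (dr v f) z + ρ z * χ z * dr (I • v) (dr (I • v) f) z) / 4 := fun z => by
    rw [lp]; ring
  have e2 : ∀ z, ρ z * lp v χ z * f z =
      (ρ z * dr v (dr v χ) z * f z + ρ z * dr (I • v) (dr (I • v) χ) z * f z) / 4 := fun z => by
    rw [lp]; ring
  rw [funext e1, funext e2, integral_div, integral_div, integral_add (i1 _) (i1 _),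
    integral_add (i2 _) (i2 _), ibp2 hU hK hs hρ d1 hχ h0 hf, ibp2 hU hK hs hρ (d0 I) hχ h0 hf]

theorem znull {f : E n → ℂ} (hU : IsOpen U) (hf : DifferentiableOn ℂ f U)
    (h0 : ∀ z ∈ U, ∃ᶠ w in 𝓝 z, f w ≠ 0) : ∀ᵐ z, z ∈ U → f z ≠ 0 := by
  have h : volume {z | z ∈ U ∧ f z = 0} = 0 := by
    refine measure_null_of_locally_null _ fun z hz => ?_
    obtain ⟨r, r0, hr⟩ := Metric.isOpen_iff.1 hU z hz.1
    obtain ⟨w, h1, h2⟩ := ((h0 z hz.1).and_eventually (ball_mem_nhds z r0)).exists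
    refine ⟨{w | w ∈ ball z r ∧ f w = 0}, ?_, SV.stZER SV.stSUB n f z r (hf.mono hr) ⟨w, h2, h1⟩⟩
    filter_upwards [mem_nhdsWithin_of_mem_nhds (ball_mem_nhds z r0), self_mem_nhdsWithin]
      with y a b
    exact ⟨a, b.2⟩
  filter_upwards [measure_eq_zero_iff_ae_notMem.1 h] with z hz h1 h2
  exact hz ⟨h1, h2⟩

theorem log_le {t h : ℝ} (ht : 0 < t) (h0 : 0 < h) (h1 : h ≤ 1) :
    |Real.log (t + h)| ≤ |Real.log t| + t := by
  have a1 := Real.log_le_log ht (show t ≤ t + h by linarith)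
  have a2 := Real.log_le_sub_one_of_pos (show 0 < t + h by linarith)
  have a3 := neg_abs_le (Real.log t)
  have a4 := abs_nonneg (Real.log t)
  exact abs_le.2 ⟨by linarith, by linarith⟩

theorem nq_eq {P : Mat n} (hP : P.PosSemidef) (v : E n) :
    star v ⬝ᵥ P *ᵥ v = (nq P v : ℝ) ∧ 0 ≤ nq P v := by
  have h := Complex.nonneg_iff.1 (hP.dotProduct_mulVec_nonneg v)
  exact ⟨Complex.ext rfl h.2.symm, h.1⟩

theorem qf_sm {A : E n → Mat n} {z : E n} (hA : SmM A z) (v : E n) :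
    ContDiffAt ℝ ∞ (fun w => star v ⬝ᵥ A w *ᵥ v) z :=
  ContDiffAt.sum fun i _ => contDiffAt_const.mul
    (contDiffAt_pi.1 (hA.mulVec (V := fun _ => v) contDiffAt_const) i)

theorem core (hU : IsOpen U) {τ : E n → ℝ} (hτ : ∀ z ∈ U, ContDiffAt ℝ ∞ τ z)
    (h0 : ∀ z ∈ U, 0 ≤ τ z)
    (hi : ∀ K, IsCompact K → K ⊆ U → IntegrableOn (fun z => Real.log (τ z)) K)
    {v : E n} {δ : E n → ℂ} (hδ : DifferentiableOn ℂ δ U) (hv : ∀ y (w : ℂ), δ (y + w • v) = δ y)
    (hn : ∀ z ∈ U, ∃ᶠ w in 𝓝 z, δ w ≠ 0) (hz : ∀ z ∈ U, τ z = 0 → δ z = 0)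
    {A : E n → Mat n} (hA : ∀ z ∈ U, SmM A z) {l : Filter ι} {h : ι → ℝ} (hp : ∀ a, 0 < h a)
    (h1 : ∀ a, h a ≤ 1) (hl : Tendsto h l (𝓝 0))
    (hP : ∀ a, ∀ z ∈ U, (A z + hess (fun w => (Real.log (τ w + h a) : ℝ)) z).PosSemidef) :
    Lo (pN l) U fun a z => star v ⬝ᵥ ((h a / (τ z + h a)) •
      (A z + hess (fun w => (Real.log (τ w + h a) : ℝ)) z)) *ᵥ v := by
  refine lo_loc (idN l) fun c hc => ?_
  obtain ⟨r, hr, hs, χ, c1, c2, c3, c4⟩ := bump hU hc
  set K := closedBall c (4 * r) with hKd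
  have hK : IsCompact K := isCompact_closedBall c (4 * r)
  have mK := hK.measurableSet
  have mU := hU.measurableSet
  have c5 : ∀ z ∈ U, z ∉ K → (χ z : ℂ) = 0 := fun z _ k => by rw [c4 z k, ofReal_zero]
  have c6 : Continuous χ := continuous_re.comp c1.continuous
  have pos : ∀ a, ∀ z ∈ U, 0 < τ z + h a := fun a z k => add_pos_of_nonneg_of_pos (h0 z k) (hp a)
  have su : ∀ a, ∀ z ∈ U, ContDiffAt ℝ ∞ (fun w => Real.log (τ w + h a)) z := fun a z k =>
    ((hτ z k).add contDiffAt_const).log (pos a z k).ne'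
  set q : ι → E n → ℝ := fun a z =>
    nq (A z + hess (fun w => (Real.log (τ w + h a) : ℝ)) z) v with hq
  have q0 : ∀ a, ∀ z ∈ U, 0 ≤ q a z := fun a z k => (nq_eq (hP a z k) v).2
  have q1 : ∀ a, ∀ z ∈ U, (q a z : ℂ) =
      star v ⬝ᵥ A z *ᵥ v + lp v (fun w => (Real.log (τ w + h a) : ℝ)) z := fun a z k => by
    rw [← (nq_eq (hP a z k) v).1, Matrix.add_mulVec, dotProduct_add, lp_eq (su a z k)]
  have qc : ∀ a, ∀ z ∈ U, ContinuousAt (q a) z := fun a z k =>
    (cd_re (qf_sm ((hA z k).add (smM_hess (cd_ofReal (su a z k)))) v)).continuousAt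
  set W : E n → ℝ := fun z => ‖χ z * (star v ⬝ᵥ A z *ᵥ v)‖ +
    ‖lp v (fun w => (χ w : ℂ)) z‖ * (|Real.log (τ z)| + τ z) with hW
  have W0 : ∀ z ∈ K, 0 ≤ W z := fun z k =>
    add_nonneg (norm_nonneg _) (mul_nonneg (norm_nonneg _) (add_nonneg (abs_nonneg _) (h0 z (hs k))))
  have co : ∀ {f : E n → ℝ}, (∀ z ∈ U, ContinuousAt f z) → ContinuousOn f K := fun hf z k =>
    (hf z (hs k)).continuousWithinAt
  have iW : IntegrableOn W K :=
    (co fun z k => (c1.contDiffAt.mul (qf_sm (hA z k) v)).continuousAt.norm).integrableOn_compact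
      hK |>.add (IntegrableOn.continuousOn_mul
        (co fun z k => (lp_sm c1.contDiffAt v).continuousAt.norm)
        ((hi K hK hs).abs.add ((co fun z k => (hτ z k).continuousAt).integrableOn_compact hK)) hK)
  have iq : ∀ {ρ : E n → ℝ}, (∀ z ∈ U, ContinuousAt ρ z) → ∀ a,
      IntegrableOn (fun z => ρ z * χ z * q a z) U := fun {ρ} hρ a =>
    ((co (f := fun z => ρ z * χ z * q a z) fun z k => ((hρ z k).mul c6.continuousAt).mul
      (qc a z k)).integrableOn_compact hK).of_forall_sdiff_eq_zero mU fun z k => by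
        rw [c4 z k.2, mul_zero, zero_mul]
  have nδ := znull hU hδ hn
  have key : ∀ ρ : E n → ℝ, (∀ z ∈ U, ContDiffAt ℝ ∞ ρ z) → (∀ y (w : ℂ), ρ (y + w • v) = ρ y) →
      (∀ z, 0 ≤ ρ z) → ∀ a, ∫ z in U, ρ z * χ z * q a z ≤ ∫ z in K, ρ z * W z := by
    intro ρ r1 r2 r3 a
    have s1 : ∀ z ∈ U, ContDiffAt ℝ ∞ (fun w => (ρ w : ℂ)) z := fun z k => cd_ofReal (r1 z k)
    have s2 : ∀ z ∈ U, ContDiffAt ℝ ∞ (fun w => ((Real.log (τ w + h a) : ℝ) : ℂ)) z :=
      fun z k => cd_ofReal (su a z k)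
    have o1 : ∀ z ∈ U, z ∉ K → lp v (fun w => (χ w : ℂ)) z = 0 := fun z k k' => by
      rw [lp, dr_off hU hK (dr_off hU hK c5 _) _ z k k', dr_off hU hK (dr_off hU hK c5 _) _ z k k',
        add_zero, zero_div]
    have i1 : IntegrableOn (fun z => (ρ z : ℂ) * χ z * (star v ⬝ᵥ A z *ᵥ v)) U := intU hU hK hs
      (fun z k => (((s1 z k).mul c1.contDiffAt).mul (qf_sm (hA z k) v)).continuousAt)
      fun z k k' => by rw [c5 z k k', mul_zero, zero_mul]
    have i2 : IntegrableOn (fun z => (ρ z : ℂ) * χ z *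
        lp v (fun w => (Real.log (τ w + h a) : ℝ)) z) U := intU hU hK hs
      (fun z k => (((s1 z k).mul c1.contDiffAt).mul (lp_sm (s2 z k) v)).continuousAt)
      fun z k k' => by rw [c5 z k k', mul_zero, zero_mul]
    have i3 : IntegrableOn (fun z => (ρ z : ℂ) * lp v (fun w => (χ w : ℂ)) z *
        (Real.log (τ z + h a) : ℝ)) U := intU hU hK hs
      (fun z k => (((s1 z k).mul (lp_sm c1.contDiffAt v)).mul (s2 z k)).continuousAt)
      fun z k k' => by rw [o1 z k k', mul_zero, zero_mul]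
    have e1 : ((∫ z in U, ρ z * χ z * q a z : ℝ) : ℂ) =
        ∫ z in K, ((ρ z : ℂ) * χ z * (star v ⬝ᵥ A z *ᵥ v) +
          (ρ z : ℂ) * lp v (fun w => (χ w : ℂ)) z * (Real.log (τ z + h a) : ℝ)) := by
      rw [← setIntegral_eq_of_subset_of_forall_sdiff_eq_zero mU hs fun z k => by
          rw [c5 z k.1 k.2, o1 z k.1 k.2, mul_zero, zero_mul, zero_mul, add_zero],
        integral_add i1 i3, ← ibp3 hU hK hs s1 (fun y w => by rw [r2]) (fun _ _ => c1.contDiffAt)
          c5 s2, ← integral_add i1 i2, ← integral_complex_ofReal]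
      refine setIntegral_congr_fun mU fun z k => ?_
      show ((ρ z * χ z * q a z : ℝ) : ℂ) = _
      rw [ofReal_mul, ofReal_mul, q1 a z k, mul_add]
    refine (le_abs_self _).trans ?_
    rw [← Real.norm_eq_abs, ← norm_real, e1]
    refine norm_integral_le_of_norm_le (IntegrableOn.continuousOn_mul
      (co fun z k => (r1 z k).continuousAt) iW hK) ?_
    filter_upwards [ae_restrict_mem mK, ae_restrict_of_ae nδ] with z k k'
    have t0 : 0 < τ z := (h0 z (hs k)).lt_of_ne' fun e => k' (hs k) (hz z (hs k) e)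
    refine (norm_add_le _ _).trans ?_
    rw [mul_assoc, mul_assoc, norm_mul (ρ z : ℂ), norm_mul (ρ z : ℂ), norm_real,
      Real.norm_of_nonneg (r3 z), ← mul_add, norm_mul (lp v _ z), norm_real, Real.norm_eq_abs]
    exact mul_le_mul_of_nonneg_left (add_le_add le_rfl
      (mul_le_mul_of_nonneg_left (log_le t0 (hp a) (h1 a)) (norm_nonneg _))) (r3 z)
  have sδ : ∀ z ∈ U, ContDiffAt ℝ ∞ (fun w => ‖δ w‖ ^ 2) z := fun z k =>
    ((mHOL n δ z).2.2 ((hU.eventually_mem k).mono fun w hw =>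
      hδ.differentiableAt (hU.mem_nhds hw))).1.norm_sq ℂ
  have rs : ∀ η : ℝ, 0 < η → ∀ z ∈ U, ContDiffAt ℝ ∞ (fun w => η / (η + ‖δ w‖ ^ 2)) z :=
    fun η e z k => contDiffAt_const.div (contDiffAt_const.add (sδ z k)) (by positivity)
  have T1 : Tendsto (fun η : ℝ => ∫ z in K, η / (η + ‖δ z‖ ^ 2) * W z) (𝓝[>] 0)
      (𝓝 (∫ z in K, (0 : ℝ))) := by
    refine tendsto_integral_filter_of_dominated_convergence W ?_ ?_ iW ?_
    · filter_upwards [self_mem_nhdsWithin] with η e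
      exact (IntegrableOn.continuousOn_mul (co fun z k => (rs η e z k).continuousAt) iW hK).1
    · filter_upwards [self_mem_nhdsWithin] with η e
      filter_upwards [ae_restrict_mem mK] with z k
      have e' : 0 < η := e
      rw [Real.norm_of_nonneg (mul_nonneg (by positivity) (W0 z k))]
      exact mul_le_of_le_one_left (W0 z k)
        ((div_le_one (by positivity)).2 (le_add_of_nonneg_right (by positivity)))
    · filter_upwards [ae_restrict_mem mK, ae_restrict_of_ae nδ] with z k k'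
      have e : 0 < ‖δ z‖ ^ 2 := pow_pos (norm_pos_iff.2 (k' (hs k))) 2
      have t : ContinuousAt (fun η : ℝ => η / (η + ‖δ z‖ ^ 2) * W z) 0 :=
        (continuousAt_id.div (continuousAt_id.add continuousAt_const)
          (by simpa using k' (hs k))).mul continuousAt_const
      have t2 := t.tendsto.mono_left (nhdsWithin_le_nhds (s := Ioi 0))
      rwa [zero_div, zero_mul] at t2
  rw [integral_zero] at T1
  have mc : ∀ a, ∀ z ∈ U, ContinuousAt (fun w => h a / (τ w + h a)) z := fun a z k =>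
    continuousAt_const.div ((hτ z k).continuousAt.add continuousAt_const) (pos a z k).ne'
  have m0 : ∀ a, ∀ z ∈ U, 0 ≤ h a / (τ z + h a) := fun a z k => div_nonneg (hp a).le (pos a z k).le
  have n0 : ∀ a, ∀ z ∈ U, 0 ≤ h a / (τ z + h a) * χ z * q a z := fun a z k =>
    mul_nonneg (mul_nonneg (m0 a z k) (c2 z)) (q0 a z k)
  have T2 : Tendsto (fun a => ∫ z in U, h a / (τ z + h a) * χ z * q a z) l (𝓝 0) := by
    refine tendsto_order.2 ⟨fun ε e => .of_forall fun a =>
      e.trans_le (setIntegral_nonneg mU (n0 a)), fun ε e => ?_⟩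
    obtain ⟨η, e1, e2⟩ := ((T1.eventually (gt_mem_nhds (show 0 < ε / 4 by positivity))).and
      self_mem_nhdsWithin).exists
    have e2 : 0 < η := e2
    have kc : IsCompact (K ∩ {z | η ≤ ‖δ z‖ ^ 2}) := hK.of_isClosed_subset
      ((co fun z k => (sδ z k).continuousAt).preimage_isClosed_of_isClosed hK.isClosed
        isClosed_Ici) inter_subset_left
    obtain ⟨m, m1, m2⟩ := kc.exists_forall_le' (f := τ) (a := 0)
      ((co fun z k => (hτ z k).continuousAt).mono inter_subset_left) fun z k =>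
        (h0 z (hs k.1)).lt_of_ne' fun e => by
          have k2 : η ≤ ‖δ z‖ ^ 2 := k.2
          rw [hz z (hs k.1) e, norm_zero, sq, mul_zero] at k2
          exact k2.not_gt e2
    have t := (hl.div_const m).mul_const (∫ z in K, (1 : ℝ) * W z)
    rw [zero_div, zero_mul] at t
    filter_upwards [t.eventually (gt_mem_nhds (half_pos e))] with a ha
    have k1 := key _ (rs η e2) (fun y w => by rw [hv]) (fun z => by positivity) a
    have k2 := key (fun _ => 1) (fun _ _ => contDiffAt_const) (fun _ _ => rfl)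
      (fun _ => zero_le_one) a
    have i1 := iq (fun z k => (rs η e2 z k).continuousAt) a
    have i2 := iq (ρ := fun _ => 1) (fun _ _ => continuousAt_const) a
    have hm : 0 ≤ h a / m := div_nonneg (hp a).le m1.le
    have k3 : ∫ z in U, h a / (τ z + h a) * χ z * q a z ≤
        ∫ z in U, (2 * (η / (η + ‖δ z‖ ^ 2) * χ z * q a z) + h a / m * (1 * χ z * q a z)) := by
      refine setIntegral_mono_on (iq (mc a) a) ((i1.const_mul 2).add (i2.const_mul _)) mU
        fun z k => ?_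
      by_cases kK : z ∈ K
      · have b1 : h a / (τ z + h a) ≤ 2 * (η / (η + ‖δ z‖ ^ 2)) + h a / m := by
          by_cases b : η ≤ ‖δ z‖ ^ 2
          · exact le_add_of_nonneg_of_le (by positivity) (div_le_div_of_nonneg_left (hp a).le m1
              ((m2 z ⟨kK, b⟩).trans (le_add_of_nonneg_right (hp a).le)))
          · refine le_add_of_le_of_nonneg (((div_le_one (pos a z k)).2
              (le_add_of_nonneg_left (h0 z k))).trans ?_) hm
            rw [← mul_div_assoc, one_le_div (by positivity)]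
            linarith [not_le.1 b]
        have b2 := mul_le_mul_of_nonneg_right b1 (mul_nonneg (c2 z) (q0 a z k))
        linarith
      · rw [c4 z kK, mul_zero, mul_zero, mul_zero, zero_mul, mul_zero, mul_zero, add_zero]
    rw [integral_add (i1.const_mul 2) (i2.const_mul _), integral_const_mul,
      integral_const_mul] at k3
    have k4 := mul_le_mul_of_nonneg_left k2 hm
    linarith
  have T3 := ENNReal.tendsto_ofReal T2
  rw [ENNReal.ofReal_zero] at T3
  refine ⟨r, hr, (idN l).mono _ _ T3 fun a => ?_⟩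
  have bU : ball c r ⊆ U := ball_subset_closedBall.trans
    ((closedBall_subset_closedBall (by linarith)).trans hs)
  rw [ofReal_integral_eq_lintegral_ofReal (iq (mc a) a)
    ((ae_restrict_mem mU).mono fun z k => n0 a z k)]
  refine le_trans (setLIntegral_mono' measurableSet_ball fun z k => le_of_eq ?_)
    (lintegral_mono_set bU)
  rw [c3 z (ball_subset_ball (by linarith) k), mul_one, Matrix.smul_mulVec, dotProduct_smul,
    (nq_eq (hP a z (bU k)) v).1, real_smul, ← ofReal_mul, ← ofReal_norm, norm_real,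
    Real.norm_of_nonneg (mul_nonneg (m0 a z (bU k)) (q0 a z (bU k)))]

theorem lo_basis {p : (ι → ℝ≥0∞) → Prop} (hp : Idl p) (b : Module.Basis (Fin n) ℂ (E n))
    {P : ι → E n → Mat n} (hP : ∀ a, ∀ z ∈ U, (P a z).PosSemidef)
    (hc : ∀ a, ∀ z ∈ U, SmM (P a) z) (h : ∀ k, Lo p U fun a z => star (b k) ⬝ᵥ P a z *ᵥ b k)
    {G : E n → Mat n} (hG : ∀ z ∈ U, SmM G z) : Lo p U fun a z => (G z * P a z).trace := by
  have c1 : ∀ k m, Ct U fun a z => star (b k) ⬝ᵥ P a z *ᵥ b m := fun k m a z hz =>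
    (ContDiffAt.sum (𝕜 := ℝ) (n := ∞) fun i _ => contDiffAt_const.mul (contDiffAt_pi.1
      ((hc a z hz).mulVec (V := fun _ => b m) contDiffAt_const) i)).continuousAt
  have h1 : ∀ k m, Lo p U fun a z => star (b k) ⬝ᵥ P a z *ᵥ b m := fun k m =>
    (h k).add hp (h m) (c1 k k) fun a z hz => by
      have e := psd_cs (hP a z hz) (b m) (b k)
      refine (abs_le_of_sq_le_sq' (e.trans ?_) (by positivity)).2
      nlinarith [norm_nonneg (star (b k) ⬝ᵥ P a z *ᵥ b k), norm_nonneg (star (b m) ⬝ᵥ P a z *ᵥ b m)]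
  set c : Fin n → Fin n → ℂ := fun i k => b.repr (Pi.single i 1) k with hcd
  have e1 : ∀ (Q : Mat n) i j,
      Q i j = ∑ k, ∑ m, star (b k) ⬝ᵥ Q *ᵥ b m * (star (c i k) * c j m) := fun Q i j => by
    have e2 : Q i j = star (Pi.single i (1 : ℂ) : E n) ⬝ᵥ Q *ᵥ Pi.single j 1 := by
      rw [← Pi.single_star, star_one, single_one_dotProduct, Matrix.mulVec_single_one]
      rfl
    rw [e2, ← b.sum_repr (Pi.single i 1), ← b.sum_repr (Pi.single j 1), star_sum, sum_dotProduct]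
    refine Finset.sum_congr rfl fun k _ => ?_
    rw [Matrix.mulVec_sum, dotProduct_sum]
    refine Finset.sum_congr rfl fun m _ => ?_
    rw [star_smul, Matrix.mulVec_smul, smul_dotProduct, dotProduct_smul, smul_eq_mul, smul_eq_mul]
    ring
  have h2 : ∀ i j, Lo p U fun a z => P a z i j := fun i j =>
    (Lo.sum hp Finset.univ (fun k => Lo.sum hp Finset.univ
      (fun m => (h1 k m).mul hp (f := fun _ => star (c i k) * c j m) fun _ _ => continuousAt_const)
      fun m a z hz => (c1 k m a z hz).mul continuousAt_const)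
      fun k a z hz => tendsto_finsetSum _ fun m _ => (c1 k m a z hz).mul continuousAt_const).le hp
      fun a z _ => by rw [← e1]
  have c2 : ∀ i j, Ct U fun a z => P a z j i * G z i j := fun i j a z hz =>
    ((hc a z hz j i).mul (hG z hz i j)).continuousAt
  refine (Lo.sum hp Finset.univ (fun i => Lo.sum hp Finset.univ
    (fun j => (h2 j i).mul hp fun z hz => (hG z hz i j).continuousAt) (c2 i))
    fun i a z hz => tendsto_finsetSum _ fun j _ => c2 i j a z hz).le hp fun a z _ => le_of_eq ?_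
  refine congrArg _ (Finset.sum_congr rfl fun i _ => ?_)
  rw [Matrix.diag_apply, Matrix.mul_apply]
  exact Finset.sum_congr rfl fun j _ => mul_comm _ _

variable {M : Mf n} {H : M.Fam (Mat n)} {τ : M.X → ℝ} {C : ℝ}

theorem sm_log (hτ : M.Sm τ) (h0 : ∀ x, 0 ≤ τ x) {h : ℝ} (hp : 0 < h) :
    M.Sm fun x => Real.log (τ x + h) := fun e he z hz =>
  ((hτ e he z hz).add contDiffAt_const).log (add_pos_of_nonneg_of_pos (h0 _) hp).ne'

/-- The logarithm of `τ` is integrable. -/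
theorem log_int [M.Cpt] (hH : M.Met H) (hτ : M.Sm τ) (h0 : ∀ x, 0 ≤ τ x)
    (hP : ∀ h ∈ Ioc (0 : ℝ) 1, M.Le 0 (M.hs (fun x => Real.log (τ x + h)) + C • H)) :
    Integrable (fun x => Real.log (τ x)) (M.mu H) := by
  obtain ⟨-, fin, -, -, ci, -⟩ := mMU n M H hH
  obtain ⟨x₀, hx⟩ := hτ.exists_max
  obtain ⟨D, -, hD, -⟩ := mPSH n M H C hH
  have ct := hτ.continuous
  have mS : MeasurableSet {x | τ x ≠ 0} := (ct.isOpen_preimage _ isOpen_compl_singleton).measurableSet
  have ms : ∀ h, Measurable fun x => Real.log (τ x₀ + h) - Real.log (τ x + h) := fun h =>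
    measurable_const.sub (ct.measurable.add measurable_const).log
  have b1 : ∀ h ∈ Ioc (0 : ℝ) 1,
      ∫⁻ x, ‖Real.log (τ x₀ + h) - Real.log (τ x + h)‖ₑ ∂M.mu H ≤ ENNReal.ofReal D := by
    intro h hh
    have s := sm_log hτ h0 hh.1
    have s2 : M.Sm fun x => Real.log (τ x + h) - Real.log (τ x₀ + h) := s.sub (Mf.sm_const _)
    have le : ∀ x, Real.log (τ x + h) ≤ Real.log (τ x₀ + h) := fun x =>
      Real.log_le_log (add_pos_of_nonneg_of_pos (h0 _) hh.1) (by linarith [hx x])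
    have h3 := hD _ s2 ((hP h hh).congr (fun _ _ _ _ => rfl) fun e he z hz => by
      have := (mLAP n M _ (fun _ => Real.log (τ x₀ + h)) s (Mf.sm_const _)).1
        (Real.log (τ x₀ + h)) e he z hz
      show C • H e z + _ = _ + C • H e z
      rw [this.2.2.1, this.1, sub_zero, add_comm]) (fun x => sub_nonpos.2 (le x)) ⟨x₀, sub_self _⟩
    rw [← ofReal_integral_norm_eq_lintegral_enorm (ci ℝ _ ((Mf.sm_const _).sub s).continuous)]
    refine ENNReal.ofReal_le_ofReal ?_
    have e : (fun x => ‖Real.log (τ x₀ + h) - Real.log (τ x + h)‖) =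
        fun x => -(Real.log (τ x + h) - Real.log (τ x₀ + h)) := funext fun x => by
      rw [Real.norm_of_nonneg (sub_nonneg.2 (le x)), neg_sub]
    rw [e, integral_neg]
    linarith
  have i1 : IntegrableOn (fun x => Real.log (τ x₀ + 0) - Real.log (τ x + 0)) {x | τ x ≠ 0}
      (M.mu H) := by
    refine ⟨(ms 0).aestronglyMeasurable, lt_of_le_of_lt (le_trans (le_of_eq ?_)
      ((lintegral_liminf_le' (μ := (M.mu H).restrict {x | τ x ≠ 0}) (u := 𝓝[>] (0 : ℝ))
        fun h => (ms h).enorm.aemeasurable).trans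
        (liminf_le_of_frequently_le' ?_))) (ENNReal.ofReal_lt_top (r := D))⟩
    · refine lintegral_congr_ae ((ae_restrict_mem mS).mono fun x k => (Tendsto.liminf_eq ?_).symm)
      have k1 : τ x + 0 ≠ 0 := by rwa [add_zero]
      have k2 : τ x₀ + 0 ≠ 0 := by
        rw [add_zero]
        exact (((h0 x).lt_of_ne' k).trans_le (hx x)).ne'
      have t : ContinuousAt (fun h : ℝ => Real.log (τ x₀ + h) - Real.log (τ x + h)) 0 :=
        ((continuousAt_const.add continuousAt_id).log k2).sub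
          ((continuousAt_const.add continuousAt_id).log k1)
      exact (t.enorm.tendsto).mono_left nhdsWithin_le_nhds
    · exact (Eventually.mono (Ioc_mem_nhdsGT zero_lt_one) fun h hh =>
        (setLIntegral_le_lintegral _ _).trans (b1 h hh)).frequently
  have i2 : IntegrableOn (fun x => Real.log (τ x)) {x | τ x ≠ 0} (M.mu H) :=
    ((integrable_const (Real.log (τ x₀ + 0))).sub i1).congr (.of_forall fun x => by
      show Real.log (τ x₀ + 0) - (Real.log (τ x₀ + 0) - Real.log (τ x + 0)) = Real.log (τ x)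
      rw [sub_sub_cancel, add_zero])
  exact i2.integrable_of_forall_notMem_eq_zero fun x k => by
    rw [not_not.1 k, Real.log_zero]

/-- The mass near the zero set tends to zero. -/
theorem mass45 [M.Cpt] (hH : M.Met H) (hτ : M.Sm τ) (h0 : ∀ x, 0 ≤ τ x)
    (hN : ∀ x, ∃ e ∈ M.C, x ∈ e.source ∧ ∃ (b : Module.Basis (Fin n) ℂ (E n)) (V : Set (E n))
      (δ : Fin n → E n → ℂ), IsOpen V ∧ e x ∈ V ∧ V ⊆ e.target ∧ ∀ k,
        DifferentiableOn ℂ (δ k) V ∧ (∀ y (w : ℂ), δ k (y + w • b k) = δ k y) ∧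
        (∀ y ∈ V, ∃ᶠ s in 𝓝 y, δ k s ≠ 0) ∧ ∀ y ∈ V, τ (e.symm y) = 0 → δ k y = 0)
    {B : ℝ → M.Fam (Mat n)} (hB : ∀ h ∈ Ioc (0 : ℝ) 1, M.Form (B h) ∧ M.Le 0 (B h) ∧
      M.Le (B h) (M.hs (fun x => Real.log (τ x + h)) + C • H)) :
    Tendsto (fun h => ∫ x, h / (τ x + h) * M.tr H (B h) x ∂M.mu H) (𝓝[>] 0) (𝓝 0) := by
  obtain ⟨-, -, -, -, ci, cm, -⟩ := mMU n M H hH
  have hP := fun h hh => (hB h hh).2.1.trans (hB h hh).2.2
  have li := log_int hH hτ h0 hP
  set l : Filter (Ioc (0 : ℝ) 1) := comap Subtype.val (𝓝[>] (0 : ℝ)) with hl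
  have tl : Tendsto (fun a : Ioc (0 : ℝ) 1 => (a : ℝ)) l (𝓝 0) :=
    tendsto_comap.mono_right nhdsWithin_le_nhds
  have pos : ∀ a : Ioc (0 : ℝ) 1, ∀ x, 0 < τ x + a := fun a x =>
    add_pos_of_nonneg_of_pos (h0 x) a.2.1
  have sμ : ∀ a : Ioc (0 : ℝ) 1, M.Sm fun x => a / (τ x + a) := fun a =>
    (Mf.sm_const _).div (hτ.add (Mf.sm_const _)) fun x => (pos a x).ne'
  have m0 : ∀ a : Ioc (0 : ℝ) 1, ∀ x, (0 : ℝ) ≤ a / (τ x + a) := fun a x =>
    div_nonneg a.2.1.le (pos a x).le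
  have fP : ∀ a : Ioc (0 : ℝ) 1, M.Form (M.hs (fun x => Real.log (τ x + a)) + C • H) := fun a =>
    ((mHES n M).1 _ (sm_log hτ h0 a.2.1)).toForm.add (hH.toForm.smul C)
  set f : Ioc (0 : ℝ) 1 → M.X → ℝ := fun a x =>
    a / (τ x + a) * M.tr H (M.hs (fun x => Real.log (τ x + a)) + C • H) x with hf
  have key : pN l fun a => ∫⁻ x in univ, ‖f a x‖ₑ ∂M.mu H := by
    refine isCompact_univ.induction_on (p := fun S => pN l fun a => ∫⁻ x in S, ‖f a x‖ₑ ∂M.mu H)
      (by simpa using (idN l).zero)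
      (fun S T e hT => (idN l).mono _ _ hT fun a => lintegral_mono_set e)
      (fun S T hS hT => (idN l).mono _ _ ((idN l).add _ _ hS hT) fun a =>
        lintegral_union_le _ _ _) fun x _ => ?_
    obtain ⟨e, he, hx, b, V, δ, oV, xV, Vt, hδ⟩ := hN x
    obtain ⟨r, r0, hr⟩ := nhds_basis_closedBall.mem_iff.1 (oV.mem_nhds xV)
    have hK := isCompact_closedBall (e x) r
    have psd : ∀ a : Ioc (0 : ℝ) 1, ∀ z ∈ V, (C • H e z +
        hess (fun w => (Real.log (τ (e.symm w) + a) : ℝ)) z).PosSemidef := fun a z k => by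
      have := hP a a.2 e he z (Vt k)
      beta_reduce at this
      rw [Pi.zero_apply, Pi.zero_apply, sub_zero, Pi.add_apply, Pi.add_apply, add_comm] at this
      exact this
    have sA : ∀ z ∈ V, SmM (fun w => C • H e w) z := fun z k => (hH.toForm.smul C).sm e he z (Vt k)
    have L1 := lo_basis (idN l) b (U := V) (P := fun (a : Ioc (0 : ℝ) 1) z =>
      ((a : ℝ) / (τ (e.symm z) + a)) • (C • H e z +
        hess (fun w => (Real.log (τ (e.symm w) + a) : ℝ)) z))
      (fun a z k => Mf.psd_rsmul (psd a z k) (m0 a _))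
      (fun a z k => SmM.rsmul (sμ a e he z (Vt k)) ((sA z k).add
        (smM_hess (cd_ofReal (sm_log hτ h0 a.2.1 e he z (Vt k))))))
      (fun k => core oV (τ := fun z => τ (e.symm z)) (fun z k => hτ e he z (Vt k))
        (fun z _ => h0 _) (fun K hK hs => ?_) (hδ k).1 (hδ k).2.1 (hδ k).2.2.1 (hδ k).2.2.2 sA
        (fun a => a.2.1) (fun a => a.2.2) tl psd) (G := fun z => (H e z)⁻¹)
      fun z k => (hH.sm e he z (Vt k)).inv (hH.det_ne e he z (Vt k))
    · refine ⟨e.symm '' closedBall (e x) r, mem_nhdsWithin_of_mem_nhds ?_, ?_⟩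
      · filter_upwards [e.open_source.mem_nhds hx, (e.continuousAt hx).preimage_mem_nhds
          (closedBall_mem_nhds _ r0)] with y y1 y2
        exact ⟨e y, y2, e.left_inv y1⟩
      · rw [funext fun a => (cm e he _ hK.measurableSet (hr.trans Vt)).2.1 fun x => ‖f a x‖ₑ]
        refine (idN l).dom hK (fun z k => det_cont hH he (Vt (hr k))) (fun a z k => ?_)
          (L1 _ hK hr)
        refine mul_le_mul_right (le_of_eq ?_) _
        rw [hf]
        beta_reduce
        rw [Matrix.mul_smul, Matrix.trace_smul, ← ofReal_norm, ← ofReal_norm, ← norm_real,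
          ofReal_mul, (((mINV n M H hH).2.1 _ (fP a)) e he z (Vt (hr k))).1, Pi.add_apply,
          Pi.add_apply, add_comm (M.hs _ e z), real_smul]
        rfl
    · obtain ⟨D, D1, D2⟩ := lo_of (ι := Unit) idB hH he hK (hs.trans Vt)
        (f := fun _ x => ‖Real.log (τ x)‖ₑ) ⟨_, li.2.ne, fun _ => setLIntegral_le_lintegral _ _⟩
      exact ⟨(ContinuousOn.aemeasurable (fun z k =>
        (hτ e he z (Vt (hs k))).continuousAt.continuousWithinAt)
          hK.measurableSet).log.aestronglyMeasurable, (D2 ()).trans_lt D1.lt_top⟩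
  have t1 : Tendsto (fun a => ∫ x, f a x ∂M.mu H) l (𝓝 0) := by
    have t := (ENNReal.tendsto_toReal ENNReal.zero_ne_top).comp key
    rw [ENNReal.toReal_zero] at t
    refine squeeze_zero_norm (fun a => ?_) t
    rw [Function.comp_apply, Measure.restrict_univ]
    exact norm_integral_le_lintegral_norm _ |>.trans_eq (congrArg _
      (lintegral_congr fun x => ofReal_norm _))
  have t2 : Tendsto (fun a : Ioc (0 : ℝ) 1 => ∫ x, a / (τ x + a) * M.tr H (B a) x ∂M.mu H) l
      (𝓝 0) := squeeze_zero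
    (fun a => integral_nonneg fun x => mul_nonneg (m0 a x) (hH.tr_nonneg (hB a a.2).2.1 x))
    (fun a => integral_mono
      (ci ℝ _ ((sμ a).mul ((mINV n M H hH).1 _ (hB a a.2).1.toTen).2.1).continuous)
      (ci ℝ _ ((sμ a).mul ((mINV n M H hH).1 _ (fP a).toTen).2.1).continuous)
      fun x => mul_le_mul_of_nonneg_left (hH.tr_mono (hB a a.2).2.2 x) (m0 a x)) t1
  exact (tendsto_comap'_iff (i := (Subtype.val : Ioc (0 : ℝ) 1 → ℝ))
    (by rw [Subtype.range_coe]; exact Ioc_mem_nhdsGT zero_lt_one)).1 t2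

end Pool.Agent.Lib.F4H.M45
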