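import Pool.Agent.Lib.F4H.Rul35
import Pool.Agent.Lib.F4H.Mass45

/-! Project f4h: the regularised forms have no mass near a thin set. -/

namespace Pool.Agent.Lib.F4H.M45

theorem st_MASS : N35.St_MASS := by
  intro n M _ H τ σ B C hH hτ _ hσ le hN hB
  refine mass45 hH.toMet hτ (fun x => le_trans ?_ (le x)) hN hB
  obtain ⟨e, he, hx, q, g, -, b⟩ := hσ x
  have h := b.self_of_nhds.2.2
  rw [e.left_inv hx] at h
  rw [h]
  exact mul_nonneg (Complex.normSq_nonneg _) (Real.exp_pos _).le

end Pool.Agent.Lib.F4H.M45
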