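import Pool.Agent.Lib.HS32.MAll

/-! Project f4h: the formula of Green for a convex function of a function that tends to minus
infinity. -/

open scoped Classical Topology ContDiff ComplexOrder Matrix
open Set Filter MeasureTheory

set_option linter.unusedVariables false

noncomputable section

namespace Pool.Agent.Lib.F4H.C58

open Pool.Agent.Lib.SV (E)
open Pool.Agent.Lib.HS32

variable {n : ℕ}

/-- A convex function that is zero on the left. -/
def pr (s : ℝ) : ℝ := ∫ t in (0 : ℝ)..s, Real.smoothTransition t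

theorem pr_has (s : ℝ) : HasDerivAt pr (Real.smoothTransition s) s :=
  (Real.smoothTransition.continuous.integral_hasStrictDerivAt 0 s).hasDerivAt

theorem pr_deriv : deriv pr = Real.smoothTransition := funext fun s => (pr_has s).deriv

theorem pr_sm : ContDiff ℝ ∞ pr := by
  rw [contDiff_infty_iff_deriv, pr_deriv]
  exact ⟨fun s => (pr_has s).differentiableAt, Real.smoothTransition.contDiff⟩

theorem pr_zero {s : ℝ} (hs : s ≤ 0) : pr s = 0 := by
  unfold pr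
  rw [intervalIntegral.integral_congr (g := fun _ => (0 : ℝ)) fun t ht =>
    Real.smoothTransition.zero_of_nonpos (by rw [uIcc_of_ge hs] at ht; exact ht.2)]
  simp

/-- The extension by zero. -/
def ex {X : Type} (V ψ : X → ℝ) (φ : ℝ → ℝ) (m : ℝ) (x : X) : ℝ :=
  if V x = 0 then 0 else φ (ψ x + m)

variable {M : Mf n} {V ψ : M.X → ℝ}

theorem ex_ne (hV : Continuous V) (φ : ℝ → ℝ) (m : ℝ) {x : M.X} (hx : V x ≠ 0) :
    ex V ψ φ m =ᶠ[𝓝 x] fun y => φ (ψ y + m) :=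
  (hV.continuousAt.eventually_ne hx).mono fun y hy => if_neg hy

theorem ex_eq (hV : Continuous V) {φ : ℝ → ℝ} (h0 : ∀ s ≤ 0, φ s = 0) {m : ℝ}
    (hl : ∃ η > 0, ∀ x, V x ≠ 0 → V x < η → ψ x + m ≤ 0) {x : M.X} (hx : V x = 0) :
    ex V ψ φ m =ᶠ[𝓝 x] fun _ => 0 := by
  obtain ⟨η, hη, h⟩ := hl
  filter_upwards [hV.continuousAt.eventually_lt continuousAt_const (show V x < η by rwa [hx])]
    with y hy
  unfold ex
  split_ifs with h1
  · rfl
  · exact h0 _ (h y h1 hy)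

theorem pull {F : Type} {f g : M.X → F} {e : M.Ch} {z : E n} (hz : z ∈ e.target)
    (h : f =ᶠ[𝓝 (e.symm z)] g) : f ∘ e.symm =ᶠ[𝓝 z] g ∘ e.symm :=
  (e.continuousAt_symm hz).tendsto.eventually h

theorem ex_sm (hV : Continuous V) {φ : ℝ → ℝ} (hφ : ContDiff ℝ ∞ φ) (h0 : ∀ s ≤ 0, φ s = 0)
    {m : ℝ} (hl : ∃ η > 0, ∀ x, V x ≠ 0 → V x < η → ψ x + m ≤ 0)
    (hψ : M.All fun e z => V (e.symm z) ≠ 0 → ContDiffAt ℝ ∞ (ψ ∘ e.symm) z) :
    M.Sm (ex V ψ φ m) := fun e he z hz => by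
  by_cases hx : V (e.symm z) = 0
  · exact contDiffAt_const.congr_of_eventuallyEq (pull hz (ex_eq hV h0 hl hx))
  · exact (hφ.contDiffAt.comp z ((hψ e he z hz hx).add contDiffAt_const)).congr_of_eventuallyEq
      (pull hz (ex_ne hV φ m hx))

theorem lap_eq (G : M.Fam (Mat n)) (f : M.X → ℝ) (x : M.X) : M.lap G f x = ((M.ev G x)⁻¹ *
    hess (fun w => ((f ∘ (M.ch x).symm) w : ℂ)) (M.ch x x)).trace.re := rfl

theorem lap_congr (G : M.Fam (Mat n)) {f g : M.X → ℝ} {x : M.X} (h : f =ᶠ[𝓝 x] g) :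
    M.lap G f x = M.lap G g x := by
  have h1 : f =ᶠ[𝓝 ((M.ch x).symm (M.ch x x))] g := by rwa [Mf.ch_symm]
  have h2 : (fun w => ((f ∘ (M.ch x).symm) w : ℂ)) =ᶠ[𝓝 (M.ch x x)]
      fun w => ((g ∘ (M.ch x).symm) w : ℂ) :=
    (pull (Mf.ch_tgt x) h1).mono fun w hw => congrArg _ hw
  rw [lap_eq, lap_eq, hess_congr h2]

theorem lap_zero (G : M.Fam (Mat n)) (x : M.X) : M.lap G (fun _ => 0) x = 0 := by
  rw [lap_eq]
  simp

theorem lap_cvx {G : M.Fam (Mat n)} (hG : M.Met G) {φ : ℝ → ℝ} (hφ : ContDiff ℝ ∞ φ) (m : ℝ)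
    (h2 : ∀ s, 0 ≤ deriv (deriv φ) s) {x : M.X}
    (hψ : ContDiffAt ℝ ∞ (ψ ∘ (M.ch x).symm) (M.ch x x)) :
    deriv φ (ψ x + m) * M.lap G ψ x ≤ M.lap G (fun y => φ (ψ y + m)) x := by
  have hu : ContDiffAt ℝ ∞ (fun w => (ψ ∘ (M.ch x).symm) w + m) (M.ch x x) :=
    hψ.add contDiffAt_const
  have h := BLAP.hess_comp (φ := φ) hu fun w => hφ.contDiffAt
  have h3 : hess (fun w => (((ψ ∘ (M.ch x).symm) w + m : ℝ) : ℂ)) (M.ch x x) =
      hess (fun w => ((ψ ∘ (M.ch x).symm) w : ℂ)) (M.ch x x) := by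
    simp only [Complex.ofReal_add]
    rw [hess_add (cd_ofReal hψ) contDiffAt_const, hess_const, add_zero]
  have h4 := BLAP.tr_dd (M.ev G x)⁻¹ (v := fun w => (ψ ∘ (M.ch x).symm) w + m) hu
  have h5 := (BLAP.q_nonneg (hG.ev_pos x).inv.posSemidef _).trans_eq h4.symm
  rw [lap_eq, lap_eq]
  have h6 : (fun w => (((fun y => φ (ψ y + m)) ∘ (M.ch x).symm) w : ℂ)) =
      fun w => (φ ((ψ ∘ (M.ch x).symm) w + m) : ℂ) := rfl
  rw [h6, h, h3, Matrix.mul_add, Matrix.trace_add, Complex.add_re, ← BLAP.rs, ← BLAP.rs,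
    BLAP.tr_smul, BLAP.tr_smul, Function.comp_apply, Mf.ch_symm]
  exact le_add_of_nonneg_right (mul_nonneg (h2 _) h5)

/-- A function that tends to minus infinity along a null set has a Laplacian with mean at most
zero. -/
theorem cvx0 [M.Cpt] {G : M.Fam (Mat n)} (hG : M.Kae G) {a : M.X → ℝ} (hV : Continuous V)
    (ha : Integrable a (M.mu G))
    (hψ : M.All fun e z => V (e.symm z) ≠ 0 → ContDiffAt ℝ ∞ (ψ ∘ e.symm) z)
    (hl : ∀ x, V x ≠ 0 → a x ≤ M.lap G ψ x)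
    (hm : ∀ m : ℝ, ∃ η > 0, ∀ x, V x ≠ 0 → V x < η → ψ x + m ≤ 0)
    (h0 : M.mu G {x | V x = 0} = 0) : ∫ x, a x ∂M.mu G ≤ 0 := by
  have hs : ∀ m, M.Sm (ex V ψ Real.smoothTransition m) := fun m =>
    ex_sm hV Real.smoothTransition.contDiff (fun s => Real.smoothTransition.zero_of_nonpos)
      (hm m) hψ
  have hb : ∀ m x, ‖ex V ψ Real.smoothTransition m x * a x‖ ≤ ‖a x‖ := fun m x => by
    rw [norm_mul]
    refine mul_le_of_le_one_left (norm_nonneg _) ?_
    unfold ex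
    split_ifs
    · simp
    · rw [Real.norm_of_nonneg (Real.smoothTransition.nonneg _)]
      exact Real.smoothTransition.le_one _
  have hme : ∀ m, AEStronglyMeasurable (fun x => ex V ψ Real.smoothTransition m x * a x)
      (M.mu G) := fun m => (hs m).continuous.aestronglyMeasurable.mul ha.aestronglyMeasurable
  have key : ∀ m : ℕ, ∫ x, ex V ψ Real.smoothTransition m x * a x ∂M.mu G ≤ 0 := fun m => by
    have sp := ex_sm hV pr_sm (fun s => pr_zero) (hm m) hψ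
    rw [← ((mGRN n M).2 G _ _ hG sp sp).1]
    refine integral_mono (ha.norm.mono' (hme m) (Eventually.of_forall (hb m)))
      ((mMU n M G hG.toMet).2.2.2.2.1 ℝ _
        ((mLAP n M _ _ sp sp).2.2 G hG.toMet).1.continuous) fun x => ?_
    by_cases hx : V x = 0
    · rw [lap_congr G (ex_eq hV (fun s => pr_zero) (hm m) hx), lap_zero]
      simp [ex, hx]
    · rw [lap_congr G (ex_ne hV pr m hx)]
      refine le_trans ?_ (lap_cvx hG.toMet pr_sm m (fun s => ?_)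
        (hψ _ (Mf.ch_mem x) _ (Mf.ch_tgt x) (by rwa [Mf.ch_symm])))
      · rw [pr_deriv]
        simp only [ex, if_neg hx]
        exact mul_le_mul_of_nonneg_left (hl x hx) (Real.smoothTransition.nonneg _)
      · rw [pr_deriv]
        exact Real.smoothTransition.monotone.deriv_nonneg
  refine le_of_tendsto' (tendsto_integral_of_dominated_convergence (fun x => ‖a x‖)
    (fun m : ℕ => hme m) ha.norm (fun m => Eventually.of_forall (hb m)) ?_) key
  have : ∀ᵐ x ∂M.mu G, V x ≠ 0 := by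
    rw [ae_iff]
    simpa using h0
  filter_upwards [this] with x hx
  refine tendsto_const_nhds.congr' ?_
  filter_upwards [tendsto_natCast_atTop_atTop.eventually_ge_atTop (1 - ψ x)] with m hm'
  simp only [ex, if_neg hx]
  rw [Real.smoothTransition.one_of_one_le (by linarith), one_mul]

/-- The comparison of two logarithms. -/
theorem cvx1 [M.Cpt] {G : M.Fam (Mat n)} (hG : M.Kae G) {σ t p : M.X → ℝ} {C γ g : ℝ}
    (hV : M.Sm V) (hσ : M.Sm σ) (V0 : ∀ x, 0 ≤ V x) (σ0 : ∀ x, 0 ≤ σ x)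
    (ht : Integrable t (M.mu G)) (hp : Integrable p (M.mu G))
    (h1 : ∀ x, σ x ≠ 0 → M.lap G (fun y => Real.log (σ y)) x ≤ -t x)
    (h2 : ∀ x, V x ≠ 0 → -p x ≤ M.lap G (fun y => Real.log (V y)) x)
    (hC : ∀ x, V x ≤ C * σ x ^ γ) (h0 : M.mu G {x | V x = 0} = 0) (g0 : 0 ≤ g) (hg : g < γ) :
    g * ∫ x, t x ∂M.mu G ≤ ∫ x, p x ∂M.mu G := by
  have γ0 : 0 < γ := g0.trans_lt hg
  have pos : ∀ x, V x ≠ 0 → 0 < V x ∧ 0 < σ x ∧ 0 < C := fun x hx => by
    have a1 := (V0 x).lt_of_ne' hx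
    have a2 := a1.trans_le (hC x)
    have a3 : σ x ≠ 0 := fun h => by
      rw [h, Real.zero_rpow γ0.ne', mul_zero] at a2
      exact lt_irrefl _ a2
    have a4 := (σ0 x).lt_of_ne' a3
    exact ⟨a1, a4, (mul_pos_iff_of_pos_right (Real.rpow_pos_of_pos a4 γ)).1 a2⟩
  have c1 : M.All fun e z => V (e.symm z) ≠ 0 →
      ContDiffAt ℝ ∞ ((fun y => Real.log (V y)) ∘ e.symm) z ∧
      ContDiffAt ℝ ∞ ((fun y => Real.log (σ y)) ∘ e.symm) z := fun e he z hz hx =>
    ⟨(hV e he z hz).log hx, (hσ e he z hz).log (pos _ hx).2.1.ne'⟩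
  have := cvx0 (ψ := fun y => Real.log (V y) - g * Real.log (σ y)) (a := fun x => g * t x - p x)
    hG hV.continuous ((ht.const_mul g).sub hp)
    (fun e he z hz hx => (c1 e he z hz hx).1.sub (contDiffAt_const.mul (c1 e he z hz hx).2))
    (fun x hx => ?_) (fun m => ?_) h0
  · rw [integral_sub (ht.const_mul g) hp, integral_const_mul] at this
    linarith
  · obtain ⟨b1, b2⟩ := c1 _ (Mf.ch_mem x) _ (Mf.ch_tgt x) (by rwa [Mf.ch_symm])
    have b3 : M.lap G (fun y => Real.log (V y) - g * Real.log (σ y)) x =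
        M.lap G (fun y => Real.log (V y)) x - g * M.lap G (fun y => Real.log (σ y)) x := by
      have b4 : (fun w => (((fun y => Real.log (V y) - g * Real.log (σ y)) ∘ (M.ch x).symm) w :
          ℂ)) = fun w => (((fun y => Real.log (V y)) ∘ (M.ch x).symm) w : ℂ) -
            (g : ℂ) * (((fun y => Real.log (σ y)) ∘ (M.ch x).symm) w : ℂ) := by
        funext w
        simp only [Function.comp_apply, Complex.ofReal_sub, Complex.ofReal_mul]
      rw [lap_eq, lap_eq, lap_eq, b4, hess_sub (cd_ofReal b1) (contDiffAt_const.mul (cd_ofReal b2)),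
        hess_const_mul _ (cd_ofReal b2), Matrix.mul_sub, Matrix.trace_sub, Complex.sub_re,
        ← BLAP.rs, BLAP.tr_smul]
    have b5 := mul_le_mul_of_nonneg_left (h1 x (pos x hx).2.1.ne') g0
    have b6 := h2 x hx
    rw [b3]
    linarith
  · refine ⟨Real.exp (-(γ * m + g * Real.log C) / (γ - g)), Real.exp_pos _, fun x hx hlt => ?_⟩
    obtain ⟨a1, a2, a3⟩ := pos x hx
    have d1 := Real.log_le_log a1 (hC x)
    rw [Real.log_mul a3.ne' (Real.rpow_pos_of_pos a2 γ).ne', Real.log_rpow a2] at d1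
    have d2 := (Real.log_lt_iff_lt_exp a1).2 hlt
    rw [lt_div_iff₀ (sub_pos.2 hg)] at d2
    have d3 := mul_le_mul_of_nonneg_left d1 g0
    refine le_of_mul_le_mul_left ?_ γ0
    nlinarith

/-- The same with the extreme exponent. -/
theorem cvx58 [M.Cpt] {G : M.Fam (Mat n)} (hG : M.Kae G) {σ t p : M.X → ℝ} {C γ : ℝ}
    (hV : M.Sm V) (hσ : M.Sm σ) (V0 : ∀ x, 0 ≤ V x) (σ0 : ∀ x, 0 ≤ σ x)
    (ht : Integrable t (M.mu G)) (hp : Integrable p (M.mu G))
    (h1 : ∀ x, σ x ≠ 0 → M.lap G (fun y => Real.log (σ y)) x ≤ -t x)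
    (h2 : ∀ x, V x ≠ 0 → -p x ≤ M.lap G (fun y => Real.log (V y)) x)
    (hC : ∀ x, V x ≤ C * σ x ^ γ) (h0 : M.mu G {x | V x = 0} = 0) (γ0 : 0 < γ) :
    γ * ∫ x, t x ∂M.mu G ≤ ∫ x, p x ∂M.mu G := by
  have c : Tendsto (fun g : ℝ => g * ∫ x, t x ∂M.mu G) (𝓝[<] γ) (𝓝 (γ * ∫ x, t x ∂M.mu G)) :=
    ((continuous_id.mul continuous_const).tendsto γ).mono_left nhdsWithin_le_nhds
  refine le_of_tendsto c ?_
  filter_upwards [Ioo_mem_nhdsLT γ0] with g hg
  exact cvx1 hG hV hσ V0 σ0 ht hp h1 h2 hC h0 hg.1.le hg.2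

end Pool.Agent.Lib.F4H.C58
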