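import Pool.Agent.Lib.F4.BlueS
import Pool.Agent.Lib.F4.D_MXC

/-! Project f4h: volumes of the metrics close to a nef class whose square is zero. -/

open scoped Classical Topology ContDiff ComplexOrder Matrix
open Set MeasureTheory Complex Filter

set_option linter.unusedVariables false

noncomputable section

namespace Pool.Agent.Lib.F4H.V38

open Pool.Agent.Lib.SV (E)
open Pool.Agent.Lib.HS32 Pool.Agent.Lib.HS32.Mf Pool.Agent.Lib.F4

variable {n : ℕ}

theorem simd {H G : Mat n} (hH : H.PosDef) (hG : G.PosDef) : ∃ (P : Mat n) (a : Fin n → ℝ),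
    (∀ i, 0 < a i) ∧ Pᴴ * H * P = 1 ∧ Pᴴ * G * P = Matrix.diagonal fun i => (a i : ℂ) := by
  obtain ⟨W, hW⟩ := psd_factor hH.inv.posSemidef
  have hu : IsUnit H.det := isUnit_iff_ne_zero.2 (pd_det_ne hH)
  have h1 : (H * Wᴴ) * W = 1 := by rw [Matrix.mul_assoc, ← hW, Matrix.mul_nonsing_inv _ hu]
  have h2 : W * H * Wᴴ = 1 := by rw [Matrix.mul_assoc]; exact mul_eq_one_comm.1 h1
  have hinj : Function.Injective (Wᴴ).mulVec := by
    refine Matrix.mulVec_injective_iff_isUnit.2 ?_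
    exact IsUnit.of_mul_eq_one_right _ h2
  have hA : (Wᴴᴴ * G * Wᴴ).PosDef := hG.conjTranspose_mul_mul_same hinj
  rw [Matrix.conjTranspose_conjTranspose] at hA
  set U : Mat n := (hA.isHermitian.eigenvectorUnitary : Mat n) with hU
  have u1 : Uᴴ * U = 1 := hA.isHermitian.eigenvectorUnitary.2.1
  have u2 : Uᴴ * (W * G * Wᴴ) * U =
      Matrix.diagonal (RCLike.ofReal ∘ hA.isHermitian.eigenvalues) :=
    hA.isHermitian.conjStarAlgAut_star_eigenvectorUnitary ▸ (by
      simp [hU, Unitary.conjStarAlgAut_apply, Matrix.star_eq_conjTranspose])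
  refine ⟨Wᴴ * U, hA.isHermitian.eigenvalues, hA.eigenvalues_pos, ?_, ?_⟩
  · rw [Matrix.conjTranspose_mul, Matrix.conjTranspose_conjTranspose]
    calc Uᴴ * W * H * (Wᴴ * U) = Uᴴ * (W * H * Wᴴ) * U := by simp only [Matrix.mul_assoc]
      _ = 1 := by rw [h2, Matrix.mul_one, u1]
  · rw [Matrix.conjTranspose_mul, Matrix.conjTranspose_conjTranspose]
    calc Uᴴ * W * G * (Wᴴ * U) = Uᴴ * (W * G * Wᴴ) * U := by simp only [Matrix.mul_assoc]
      _ = _ := u2

theorem inv_dg {P T : Mat n} {d : Fin n → ℝ} (hd : ∀ i, 0 < d i)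
    (h : Pᴴ * T * P = Matrix.diagonal fun i => (d i : ℂ)) :
    T⁻¹ = P * Matrix.diagonal (fun i => (((d i)⁻¹ : ℝ) : ℂ)) * Pᴴ := by
  have e : Matrix.diagonal (fun i => (((d i)⁻¹ : ℝ) : ℂ)) * (Pᴴ * T * P) = 1 := by
    rw [h, Matrix.diagonal_mul_diagonal, ← Matrix.diagonal_one]
    refine congrArg Matrix.diagonal (funext fun i => ?_)
    rw [← ofReal_mul, inv_mul_cancel₀ (hd i).ne', ofReal_one]
  refine Matrix.inv_eq_left_inv ?_
  have e2 : (Matrix.diagonal (fun i => (((d i)⁻¹ : ℝ) : ℂ)) * Pᴴ * T) * P = 1 := by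
    rw [← e]; simp only [Matrix.mul_assoc]
  have e3 := mul_eq_one_comm.1 e2
  rw [← e3]; simp only [Matrix.mul_assoc]

theorem tr_dg (P S : Mat n) (c : Fin n → ℝ) :
    (P * Matrix.diagonal (fun i => (c i : ℂ)) * Pᴴ * S).trace.re =
      ∑ i, c i * ((Pᴴ * S * P) i i).re := by
  have e : (P * Matrix.diagonal (fun i => (c i : ℂ)) * Pᴴ * S).trace =
      (Matrix.diagonal (fun i => (c i : ℂ)) * (Pᴴ * S * P)).trace := by
    rw [Matrix.mul_assoc, Matrix.mul_assoc, Matrix.trace_mul_comm]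
    simp only [Matrix.mul_assoc]
  rw [e]
  simp only [Matrix.trace, Matrix.diag_apply, Matrix.diagonal_mul, re_sum, re_ofReal_mul]

theorem pw {H G : Mat n} (hH : H.PosDef) (hG : G.PosDef) :
    ∃ (a : Fin n → ℝ) (L : Mat n → Fin n → ℝ), (∀ i, 0 < a i) ∧ (∀ i, L H i = 1) ∧
      (∀ i, L G i = a i) ∧ (∀ S : Mat n, S.PosSemidef → ∀ i, 0 ≤ L S i) ∧ ∀ S : Mat n,
        (H⁻¹ * S).trace.re = ∑ i, L S i ∧ (H⁻¹ * G * H⁻¹ * S).trace.re = ∑ i, a i * L S i ∧
        ∀ s : ℝ, 0 ≤ s → ((G + s • H).det / H.det).re = ∏ i, (a i + s) ∧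
          ((G + s • H)⁻¹ * S).trace.re = ∑ i, (a i + s)⁻¹ * L S i := by
  obtain ⟨P, a, a0, h1, h2⟩ := simd hH hG
  have hi : H⁻¹ = P * Pᴴ := by
    have := inv_dg (P := P) (T := H) (d := fun _ => 1) (fun _ => one_pos) (by simpa using h1)
    simpa using this
  refine ⟨a, fun S i => ((Pᴴ * S * P) i i).re, a0, fun i => by simp [h1], fun i => by simp [h2],
    fun S hS i => (Complex.nonneg_iff.1 (hS.conjTranspose_mul_mul_same P).diag_nonneg).1,
    fun S => ⟨?_, ?_, fun s hs => ?_⟩⟩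
  · have := tr_dg P S fun _ => 1
    simpa [hi] using this
  · rw [← tr_dg P S a, ← h2, hi]
    simp only [Matrix.mul_assoc]
  · have h3 : Pᴴ * (G + s • H) * P = Matrix.diagonal fun i => ((a i + s : ℝ) : ℂ) := by
      rw [Matrix.mul_add, Matrix.add_mul, Matrix.mul_smul, Matrix.smul_mul, h1, h2]
      ext i j
      by_cases hij : i = j
      · subst hij; simp
      · simp [hij]
    have p0 : ∀ i, 0 < a i + s := fun i => by linarith [a0 i]
    refine ⟨?_, by rw [inv_dg p0 h3, tr_dg]⟩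
    have d1 := congrArg Matrix.det h1
    have d3 := congrArg Matrix.det h3
    rw [Matrix.det_mul, Matrix.det_mul, Matrix.det_one] at d1
    rw [Matrix.det_mul, Matrix.det_mul, Matrix.det_diagonal, ← ofReal_prod] at d3
    have e : (G + s • H).det / H.det = ((∏ i, (a i + s) : ℝ) : ℂ) := by
      rw [div_eq_iff (pd_det_ne hH), ← d3]
      linear_combination (-(G + s • H).det) * d1
    rw [e, ofReal_re]

variable {M : Mf n} {H G S T θ : M.Fam (Mat n)}

/-- The density of the trace with respect to `G`. -/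
def fN (M : Mf n) (H G S : M.Fam (Mat n)) (x : M.X) : ℝ := M.dq H G x * M.tr G S x

/-- The mixed form of degree three. -/
def m3 (M : Mf n) (H G S : M.Fam (Mat n)) (x : M.X) : ℝ :=
  fN M H (G + (1 : ℝ) • H) S x - M.tr H S x - mx M H G S x - fN M H G S x

theorem met_add (hH : M.Met H) (hG : M.Met G) {s : ℝ} (hs : 0 ≤ s) : M.Met (G + s • H) :=
  hG.of_le (hG.toForm.add (hH.toForm.smul s)) fun e he z hz => by
    simpa using psd_rsmul (hH.pos e he z hz).posSemidef hs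

theorem m3_add (x : M.X) : m3 M H G (S + T) x = m3 M H G S x + m3 M H G T x := by
  simp only [m3, fN, mx, tr_add, ip_add]; ring

theorem m3_sub (x : M.X) : m3 M H G (S - T) x = m3 M H G S x - m3 M H G T x := by
  simp only [m3, fN, mx, tr_sub, ip_sub]; ring

theorem m3_smul (c : ℝ) (x : M.X) : m3 M H G (c • S) x = c * m3 M H G S x := by
  simp only [m3, fN, mx, tr_smul, ip_smul]; ring

theorem fN_int [M.Cpt] (hH : M.Met H) (hG : M.Met G) (hS : M.Ten S) :
    Integrable (fN M H G S) (M.mu H) :=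
  (mMU n M H hH).2.2.2.2.1 ℝ _ ((((mINV n M H hH).1 G hG.toTen).2.2.2.1.mul
    ((mINV n M G hG).1 S hS).2.1).continuous)

theorem tr_int [M.Cpt] (hH : M.Met H) (hS : M.Ten S) : Integrable (M.tr H S) (M.mu H) :=
  (mMU n M H hH).2.2.2.2.1 ℝ _ ((mINV n M H hH).1 S hS).2.1.continuous

theorem mx_int [M.Cpt] (hH : M.Met H) (hS : M.Ten S) (hT : M.Ten T) :
    Integrable (mx M H S T) (M.mu H) :=
  (mMU n M H hH).2.2.2.2.1 ℝ _ ((((mINV n M H hH).1 S hS).2.1.mul
    ((mINV n M H hH).1 T hT).2.1).sub ((mINV n M H hH).2.2.1 S T hS hT).2.1).continuous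

theorem m3_int [M.Cpt] (hH : M.Met H) (hG : M.Met G) (hS : M.Ten S) :
    Integrable (m3 M H G S) (M.mu H) :=
  (((fN_int hH (met_add hH hG zero_le_one) hS).sub (tr_int hH hS)).sub
    (mx_int hH hG.toTen hS)).sub (fN_int hH hG hS)

theorem fN_eq [M.Cpt] (hH : M.Met H) (hG : M.Met G) :
    ∫ x, fN M H G S x ∂M.mu H = ∫ x, M.tr G S x ∂M.mu G :=
  (((mMU n M H hH).2.2.2.2.2.2 G hG).2.1 _).symm

theorem mx_hs [M.Cpt] {v : M.X → ℝ} (hH : M.Kae H) (hS : M.Clo S) (hv : M.Sm v) :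
    ∫ x, mx M H S (M.hs v) x ∂M.mu H = 0 := LD.st_MXC n M H S v hH hS hv

theorem tr_hs [M.Cpt] {v : M.X → ℝ} (hG : M.Kae G) (hv : M.Sm v) :
    ∫ x, M.tr G (M.hs v) x ∂M.mu G = 0 := ((mGRN n M).2 G v v hG hv hv).1

theorem m3_hs [M.Cpt] {v : M.X → ℝ} (hH : M.Kae H) (hG : M.Kae G) (hv : M.Sm v) :
    ∫ x, m3 M H G (M.hs v) x ∂M.mu H = 0 := by
  have h := hH.toMet
  have g := hG.toMet
  have g1 := met_add h g zero_le_one
  have k1 : M.Kae (G + (1 : ℝ) • H) := ⟨hG.toClo.add (hH.toClo.smul 1), g1.pos⟩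
  have t := ((mHES n M).1 v hv).toTen
  unfold m3
  rw [integral_sub, integral_sub, integral_sub, fN_eq h g1, fN_eq h g, tr_hs k1 hv, tr_hs hG hv,
    tr_hs hH hv, mx_hs hH hG.toClo hv]
  · simp
  · exact fN_int h g1 t
  · exact tr_int h t
  · exact (fN_int h g1 t).sub (tr_int h t)
  · exact mx_int h g.toTen t
  · exact ((fN_int h g1 t).sub (tr_int h t)).sub (mx_int h g.toTen t)
  · exact fN_int h g t

open Polynomial in
/-- The integral of the trace depends only on the class of the metric. -/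
theorem fN_cls [M.Cpt] {G' : M.Fam (Mat n)} {u : M.X → ℝ} (hH : M.Met H) (hG : M.Kae G)
    (hG' : M.Met G') (hu : M.Sm u) (hS : M.Clo S)
    (he : M.All fun e z => G' e z = G e z + M.hs u e z) :
    ∫ x, fN M H G' S x ∂M.mu H = ∫ x, fN M H G S x ∂M.mu H := by
  obtain ⟨i1, i2, -⟩ := mINV n M H hH
  obtain ⟨-, -, -, -, hI, -⟩ := mMU n M H hH
  have hA := (mHES n M).1 u hu
  have cL := BCOH.clo_line hG.toClo hS
  have ev : ∀ t : ℝ, (fun x => ((BCOH.pl (M.ev G' x) (M.ev S x) -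
      BCOH.pl (M.ev G x) (M.ev S x)) * C (M.ev H x).det⁻¹).eval (t : ℂ)) = fun x =>
      ((M.dq H ((fun e z => G e z + (t : ℂ) • S e z) + M.hs u) x -
        M.dq H (fun e z => G e z + (t : ℂ) • S e z) x : ℝ) : ℂ) := fun t => by
    funext x
    have a1 := (AllOn.ch (i2 _ ((cL t).add hA).toForm) x).2.1
    have a2 := (AllOn.ch (i2 _ (cL t).toForm) x).2.1
    rw [ch_symm] at a1 a2
    rw [ofReal_sub, a1, a2, eval_mul, eval_sub, eval_C, BCOH.pl_eval, BCOH.pl_eval]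
    have b : M.ev G' x = M.ev G x + M.ev (M.hs u) x := AllOn.ch he x
    rw [b, add_right_comm, ← sub_div, div_eq_mul_inv]
    rfl
  have it : ∀ T, M.Clo T → Integrable (M.dq H T) (M.mu H) := fun T hT =>
    hI ℝ _ (i1 T hT.toTen).2.2.2.1.continuous
  obtain ⟨m1, m2⟩ := LD.MXC.poly_int (M.mu H) (fun x => (BCOH.pl (M.ev G' x) (M.ev S x) -
      BCOH.pl (M.ev G x) (M.ev S x)) * C (M.ev H x).det⁻¹) n
    (fun x => (natDegree_mul_C_le _ _).trans ((natDegree_sub_le _ _).trans (max_le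
      ((natDegree_det_X_add_C_le _ _).trans (by simp))
      ((natDegree_det_X_add_C_le _ _).trans (by simp)))))
    (fun i => by
      have h := ev (i : ℝ)
      rw [ofReal_natCast] at h
      rw [h]
      exact ((it _ ((cL i).add hA)).sub (it _ (cL i))).ofReal)
    (fun i => by
      have h := ev (i : ℝ)
      rw [ofReal_natCast] at h
      rw [h, integral_complex_ofReal]
      exact ofReal_eq_zero.2 ((integral_sub (it _ ((cL i).add hA)) (it _ (cL i))).trans
        (sub_eq_zero.2 (mCOH n M H _ u hH (cL i) hu))))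
  have c1 : ∀ K, M.Met K → ∀ x, (BCOH.pl (M.ev K x) (M.ev S x)).coeff 1 * (M.ev H x).det⁻¹ =
      (fN M H K S x : ℝ) := fun K hK x => by
    have h1 := BCOH.pl_deriv (M.ev K x) (M.ev S x) 0
    rw [← coeff_zero_eq_eval_zero, coeff_derivative] at h1
    simp only [Nat.cast_zero, zero_add, mul_one, zero_smul, add_zero] at h1
    have a1 := (AllOn.ch (i2 _ hK.toForm) x).2.1
    have a2 := (AllOn.ch ((mINV n M K hK).2.1 _ hS.toForm) x).1
    rw [ch_symm] at a1 a2
    have ea : (M.ev K x).adjugate = (M.ev K x).det • (M.ev K x)⁻¹ := by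
      rw [Matrix.inv_def, Ring.inverse_eq_inv', smul_smul, mul_inv_cancel₀ (hK.ev_det x), one_smul]
    rw [h1, fN, ofReal_mul, a1, a2, ea, Matrix.smul_mul, Matrix.trace_smul, smul_eq_mul,
      div_eq_mul_inv, mul_right_comm]
    rfl
  have e : ∀ x, ((BCOH.pl (M.ev G' x) (M.ev S x) - BCOH.pl (M.ev G x) (M.ev S x)) *
      C (M.ev H x).det⁻¹).coeff 1 = ((fN M H G' S x - fN M H G S x : ℝ) : ℂ) := fun x => by
    rw [coeff_mul_C, coeff_sub, sub_mul, c1 G' hG', c1 G hG.toMet, ofReal_sub]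
  simp only [e] at m2
  rw [integral_complex_ofReal, integral_sub (fN_int hH hG' hS.toTen)
    (fN_int hH hG.toMet hS.toTen)] at m2
  exact sub_eq_zero.1 (ofReal_eq_zero.1 m2)

end Pool.Agent.Lib.F4H.V38

namespace Pool.Agent.Lib.F4H.V38

open Pool.Agent.Lib.HS32 Pool.Agent.Lib.HS32.Mf Pool.Agent.Lib.F4

variable {M : Mf 4} {H G S θ : M.Fam (Mat 4)}

theorem pt (hH : M.Met H) (hG : M.Met G) (x : M.X) :
    (∀ S (s : ℝ), 0 ≤ s → fN M H (G + s • H) S x =
      s ^ 3 * M.tr H S x + s ^ 2 * mx M H G S x + s * m3 M H G S x + fN M H G S x) ∧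
    (∀ S, M.Le 0 S → 0 ≤ m3 M H G S x) ∧ m3 M H G H x = mx M H G G x ∧
    m3 M H G G x = 3 * fN M H G H x := by
  obtain ⟨a, L, a0, lH, lG, lp, h⟩ := pw (hH.ev_pos x) (hG.ev_pos x)
  have f : ∀ (S : M.Fam (Mat 4)) (s : ℝ), 0 ≤ s → fN M H (G + s • H) S x =
      L (M.ev S x) 0 * ((a 1 + s) * (a 2 + s) * (a 3 + s)) +
      L (M.ev S x) 1 * ((a 0 + s) * (a 2 + s) * (a 3 + s)) +
      L (M.ev S x) 2 * ((a 0 + s) * (a 1 + s) * (a 3 + s)) +
      L (M.ev S x) 3 * ((a 0 + s) * (a 1 + s) * (a 2 + s)) := fun S s hs => by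
    obtain ⟨b1, b2⟩ := (h (M.ev S x)).2.2 s hs
    have p0 : ∀ i, a i + s ≠ 0 := fun i => by linarith [a0 i]
    refine (congrArg₂ (· * ·) b1 b2).trans ?_
    have q0 := p0 0
    have q1 := p0 1
    have q2 := p0 2
    have q3 := p0 3
    simp only [Fin.prod_univ_four, Fin.sum_univ_four]
    field_simp
  have f0 : ∀ S : M.Fam (Mat 4), fN M H G S x = fN M H (G + (0 : ℝ) • H) S x := fun S => by
    rw [zero_smul, add_zero]
  have t : ∀ S : M.Fam (Mat 4), M.tr H S x = ∑ i, L (M.ev S x) i := fun S => (h _).1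
  have p : ∀ S : M.Fam (Mat 4), M.ip H G S x = ∑ i, a i * L (M.ev S x) i := fun S => (h _).2.1
  have m : ∀ S : M.Fam (Mat 4), m3 M H G S x =
      L (M.ev S x) 0 * (a 1 * a 2 + a 1 * a 3 + a 2 * a 3) +
      L (M.ev S x) 1 * (a 0 * a 2 + a 0 * a 3 + a 2 * a 3) +
      L (M.ev S x) 2 * (a 0 * a 1 + a 0 * a 3 + a 1 * a 3) +
      L (M.ev S x) 3 * (a 0 * a 1 + a 0 * a 2 + a 1 * a 2) := fun S => by
    rw [m3, f0 S, f S 1 zero_le_one, f S 0 le_rfl, mx, t S, t G, p S]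
    simp only [Fin.sum_univ_four, lG]
    ring
  refine ⟨fun S s hs => ?_, fun S hS => ?_, ?_, ?_⟩
  · rw [m S, f0 S, f S s hs, f S 0 le_rfl, mx, t S, t G, p S]
    simp only [Fin.sum_univ_four, lG]
    ring
  · have l := lp (M.ev S x) (by simpa [ev] using AllOn.ch hS x)
    have l0 := l 0
    have l1 := l 1
    have l2 := l 2
    have l3 := l 3
    have q0 := a0 0
    have q1 := a0 1
    have q2 := a0 2
    have q3 := a0 3
    rw [m S]
    positivity
  · rw [m H, mx, t G, p G]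
    simp only [Fin.sum_univ_four, lG, lH]
    ring
  · rw [m G, f0 H, f H 0 le_rfl]
    simp only [lG, lH]
    ring

theorem m3_mono (hH : M.Met H) (hG : M.Met G) {T : M.Fam (Mat 4)} (h : M.Le S T) (x : M.X) :
    m3 M H G S x ≤ m3 M H G T x := by
  have := (pt hH hG x).2.1 _ (le_iff_sub.1 h)
  rw [m3_sub] at this
  linarith

theorem abs_int [M.Cpt] {f g : M.X → ℝ} {C : ℝ} (hg : Integrable g (M.mu H))
    (h : ∀ x, |f x| ≤ C * g x) : |∫ x, f x ∂M.mu H| ≤ C * ∫ x, g x ∂M.mu H := by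
  rw [← integral_const_mul]
  exact norm_integral_le_of_norm_le (f := f) (hg.const_mul C) (ae_of_all _ h)

/-- The mixed integral of a form in the class `θ + d H`. -/
theorem mx_cls [M.Cpt] {w : M.X → ℝ} (d : ℝ) (hH : M.Kae H) (hθ : M.Clo θ) (hS : M.Clo S)
    (hw : M.Sm w) : ∫ x, mx M H (θ + d • H + M.hs w) S x ∂M.mu H =
      ∫ x, mx M H θ S x ∂M.mu H + 3 * d * ∫ x, M.tr H S x ∂M.mu H := by
  have h := hH.toMet
  have e : ∀ x, mx M H (θ + d • H + M.hs w) S x =
      mx M H θ S x + 3 * d * M.tr H S x + mx M H S (M.hs w) x := fun x => by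
    simp only [mx, ip_comm (T := S), tr_add, ip_add, tr_smul, ip_smul, h.tr_self, h.ip_self]
    push_cast
    ring
  simp only [e]
  rw [integral_add, integral_add, integral_const_mul, mx_hs hH hS hw, add_zero]
  · exact mx_int h hθ.toTen hS.toTen
  · exact (tr_int h hS.toTen).const_mul _
  · exact (mx_int h hθ.toTen hS.toTen).add ((tr_int h hS.toTen).const_mul _)
  · exact mx_int h hS.toTen ((mHES 4 M).1 w hw).toTen

theorem mx_comm {T : M.Fam (Mat 4)} (x : M.X) : mx M H S T x = mx M H T S x := by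
  rw [mx, mx, ip_comm, mul_comm]

theorem tr_cls [M.Cpt] {w : M.X → ℝ} (d : ℝ) (hH : M.Kae H) (hθ : M.Clo θ) (hw : M.Sm w) :
    ∫ x, M.tr H (θ + d • H + M.hs w) x ∂M.mu H =
      ∫ x, M.tr H θ x ∂M.mu H + 4 * d * (M.mu H).real univ := by
  have h := hH.toMet
  have fin : IsFiniteMeasure (M.mu H) := (mMU 4 M H h).2.1
  have e : ∀ x, M.tr H (θ + d • H + M.hs w) x = M.tr H θ x + 4 * d + M.tr H (M.hs w) x :=
    fun x => by
      simp only [tr_add, tr_smul, h.tr_self]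
      push_cast
      ring
  simp only [e]
  rw [integral_add, integral_add, tr_hs hH hw, add_zero, integral_const, smul_eq_mul, mul_comm]
  · exact tr_int h hθ.toTen
  · exact integrable_const _
  · exact (tr_int h hθ.toTen).add (integrable_const _)
  · exact tr_int h ((mHES 4 M).1 w hw).toTen

/-- The terms of degree three and four are small. -/
theorem small [M.Cpt] {w : M.X → ℝ} {d C C' : ℝ} (hH : M.Kae H) (hθ : M.Clo θ) (hS : M.Clo S)
    (hw : M.Sm w) (hG : M.Met (θ + d • H + M.hs w)) (c0 : 0 ≤ C) (s1 : M.Le S (C • H))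
    (s2 : M.Le (-(C • H)) S) (t1 : M.Le θ (C' • H)) :
    |∫ x, m3 M H (θ + d • H + M.hs w) S x ∂M.mu H| ≤
      C * ∫ x, mx M H (θ + d • H + M.hs w) (θ + d • H + M.hs w) x ∂M.mu H ∧
    |∫ x, fN M H (θ + d • H + M.hs w) S x ∂M.mu H| ≤ C * ((C' + d) / 3 *
      ∫ x, mx M H (θ + d • H + M.hs w) (θ + d • H + M.hs w) x ∂M.mu H) := by
  have h := hH.toMet
  have cw := (mHES 4 M).1 w hw
  have kG : M.Kae (θ + d • H + M.hs w) := ⟨(hθ.add (hH.toClo.smul d)).add cw, hG.pos⟩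
  obtain ⟨G, eG⟩ : ∃ G, G = θ + d • H + M.hs w := ⟨_, rfl⟩
  rw [← eG] at hG kG ⊢
  have iG := mx_int h hG.toTen hG.toTen
  refine ⟨abs_int iG fun x => ?_, (abs_int (fN_int h hG h.toTen) fun x => ?_).trans
    (mul_le_mul_of_nonneg_left ?_ c0)⟩
  · have a1 := m3_mono h hG s1 x
    have a2 := m3_mono h hG s2 x
    rw [← neg_smul] at a2
    rw [m3_smul, (pt h hG x).2.2.1] at a1 a2
    exact abs_le.2 ⟨by linarith, a1⟩
  · have a1 := hG.tr_mono s1 x
    have a2 := hG.tr_mono s2 x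
    rw [tr_neg] at a2
    rw [tr_smul] at a1 a2
    have q := ((mINV 4 M H h).2.2.2.2.2.2.2 G hG).1 x
    rw [fN, fN, abs_mul, abs_of_pos q, mul_left_comm]
    exact mul_le_mul_of_nonneg_left (abs_le.2 ⟨by linarith, a1⟩) q.le
  · have e : ∀ x, fN M H G H x =
        (1 / 3) * (m3 M H G (θ + d • H) x + m3 M H G (M.hs w) x) := fun x => by
      rw [← m3_add, ← eG, (pt h hG x).2.2.2]
      ring
    have i1 := m3_int h hG (hθ.add (hH.toClo.smul d)).toTen
    simp only [e]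
    rw [integral_const_mul, integral_add i1 (m3_int h hG cw.toTen), m3_hs hH kG hw, add_zero]
    have : ∫ x, m3 M H G (θ + d • H) x ∂M.mu H ≤ (C' + d) * ∫ x, mx M H G G x ∂M.mu H := by
      rw [← integral_const_mul]
      refine integral_mono i1 (iG.const_mul _) fun x => ?_
      have a1 := m3_mono h hG t1 x
      rw [m3_smul] at a1
      beta_reduce
      rw [m3_add, m3_smul, ← (pt h hG x).2.2.1]
      linarith
    linarith

end Pool.Agent.Lib.F4H.V38

namespace Pool.Agent.Lib.F4H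

open Pool.Agent.Lib.HS32 Pool.Agent.Lib.HS32.Mf Pool.Agent.Lib.F4 V38

/-- The integral of the trace of a closed form for a metric in the class `θ + e H`. -/
theorem vol38 (M : Mf 4) [M.Cpt] (H θ : M.Fam (Mat 4)) (hH : M.Kae H) (hθ : M.Clo θ)
    (nef : ∀ d : ℝ, 0 < d → ∃ w, M.Sm w ∧ M.Le 0 (θ + d • H + M.hs w))
    (k2 : ∫ x, mx M H θ θ x ∂M.mu H ≤ 0) (e : ℝ) (u : M.X → ℝ) (e0 : 0 < e) (hu : M.Sm u)
    (hG : M.Met (θ + e • H + M.hs u)) (S : M.Fam (Mat 4)) (hS : M.Clo S) :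
    ∫ x, M.tr (θ + e • H + M.hs u) S x ∂M.mu (θ + e • H + M.hs u) =
      e ^ 3 * ∫ x, M.tr H S x ∂M.mu H + e ^ 2 * ∫ x, mx M H θ S x ∂M.mu H := by
  have h := hH.toMet
  obtain ⟨C, c0, s1, s2⟩ := (mBD 4 M H h).1 S hS.toForm
  obtain ⟨C', c1, t1, -⟩ := (mBD 4 M H h).1 θ hθ.toForm
  rw [← fN_eq h hG]
  set I := ∫ x, fN M H (θ + e • H + M.hs u) S x ∂M.mu H
  set t := ∫ x, M.tr H S x ∂M.mu H with ht
  set q := ∫ x, mx M H θ S x ∂M.mu H with hq
  set k := ∫ x, M.tr H θ x ∂M.mu H with hk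
  set v := (M.mu H).real univ with hv
  have key : ∀ d ∈ Ioo (0 : ℝ) e, |I - ((e - d) ^ 3 * t + (e - d) ^ 2 * (q + 3 * d * t))| ≤
      (e * C + C * ((C' + d) / 3)) * (6 * d * k + 12 * d ^ 2 * v) := fun d ⟨d0, d1⟩ => by
    obtain ⟨w, hw, hl⟩ := nef (d / 2) (half_pos d0)
    have cw := (mHES 4 M).1 w hw
    have cG : M.Clo (θ + d • H + M.hs w) := (hθ.add (hH.toClo.smul d)).add cw
    have gd : M.Met (θ + d • H + M.hs w) :=
      (h.smul (half_pos d0)).of_le cG.toForm fun a ha z hz => by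
        have e1 : (θ + d • H + M.hs w) a z - ((d / 2) • H) a z =
            (θ + (d / 2) • H + M.hs w) a z - (0 : M.Fam (Mat 4)) a z := by
          simp only [Pi.add_apply, Pi.smul_apply, Pi.zero_apply]
          module
        beta_reduce
        rw [e1]
        exact hl a ha z hz
    have s0 : 0 ≤ e - d := by linarith
    have g2 := met_add h gd s0
    have k2' : M.Kae (θ + d • H + M.hs w + (e - d) • H) := ⟨cG.add (hH.toClo.smul _), g2.pos⟩
    have e1 : I = ∫ x, fN M H (θ + d • H + M.hs w + (e - d) • H) S x ∂M.mu H :=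
      fN_cls h k2' hG (hu.sub hw) hS fun a ha z hz => by
        beta_reduce
        rw [((mLAP 4 M u w hu hw).1 0 a ha z hz).2.2.1]
        simp only [Pi.add_apply, Pi.smul_apply]
        module
    obtain ⟨b1, b2⟩ := small hH hθ hS hw gd c0.le s1 s2 t1
    have η : ∫ x, mx M H (θ + d • H + M.hs w) (θ + d • H + M.hs w) x ∂M.mu H ≤
        6 * d * k + 12 * d ^ 2 * v := by
      rw [mx_cls d hH hθ cG hw, tr_cls d hH hθ hw]
      simp only [mx_comm (S := θ) (T := θ + d • H + M.hs w)]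
      rw [mx_cls d hH hθ hθ hw]
      nlinarith
    have j1 := (tr_int h hS.toTen).const_mul ((e - d) ^ 3)
    have j2 := (mx_int h gd.toTen hS.toTen).const_mul ((e - d) ^ 2)
    have j3 := (m3_int h gd hS.toTen).const_mul (e - d)
    simp only [fun x => (pt h gd x).1 S (e - d) s0] at e1
    rw [integral_add (by exact (j1.add j2).add j3) (fN_int h gd hS.toTen),
      integral_add (by exact j1.add j2) j3, integral_add j1 j2, integral_const_mul,
      integral_const_mul, integral_const_mul, mx_cls d hH hθ hS hw] at e1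
    rw [e1, add_assoc, add_sub_cancel_left]
    refine (abs_add_le _ _).trans ?_
    rw [abs_mul, abs_of_nonneg s0, add_mul]
    refine add_le_add ?_ (b2.trans ?_)
    · rw [mul_assoc]
      exact mul_le_mul (by linarith) (b1.trans (mul_le_mul_of_nonneg_left η c0.le))
        (abs_nonneg _) e0.le
    · rw [mul_assoc]
      exact mul_le_mul_of_nonneg_left (mul_le_mul_of_nonneg_left η (by positivity)) c0.le
  have l1 : Tendsto (fun d : ℝ => |I - ((e - d) ^ 3 * t + (e - d) ^ 2 * (q + 3 * d * t))|)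
      (𝓝[>] 0) (𝓝 |I - ((e - 0) ^ 3 * t + (e - 0) ^ 2 * (q + 3 * 0 * t))|) :=
    (Continuous.tendsto (by fun_prop) 0).mono_left nhdsWithin_le_nhds
  have l2 : Tendsto (fun d : ℝ => (e * C + C * ((C' + d) / 3)) * (6 * d * k + 12 * d ^ 2 * v))
      (𝓝[>] 0) (𝓝 ((e * C + C * ((C' + 0) / 3)) * (6 * 0 * k + 12 * 0 ^ 2 * v))) :=
    (Continuous.tendsto (by fun_prop) 0).mono_left nhdsWithin_le_nhds
  have l3 := le_of_tendsto_of_tendsto l1 l2 (by
    filter_upwards [Ioo_mem_nhdsGT e0] with d hd using key d hd)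
  simp only [sub_zero, mul_zero, zero_mul, add_zero, ne_eq, OfNat.ofNat_ne_zero,
    not_false_eq_true, zero_pow, abs_nonpos_iff] at l3
  exact sub_eq_zero.1 l3

/-- The volume and the integral of the trace of the reference metric. -/
theorem vol38b (M : Mf 4) [M.Cpt] (H θ : M.Fam (Mat 4)) (hH : M.Kae H) (hθ : M.Clo θ)
    (nef : ∀ d : ℝ, 0 < d → ∃ w, M.Sm w ∧ M.Le 0 (θ + d • H + M.hs w))
    (k2 : ∫ x, mx M H θ θ x ∂M.mu H ≤ 0) (e : ℝ) (u : M.X → ℝ) (e0 : 0 < e) (hu : M.Sm u)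
    (hG : M.Met (θ + e • H + M.hs u)) :
    (M.mu (θ + e • H + M.hs u)).real univ ≤
      e ^ 3 * ∫ x, M.tr H θ x ∂M.mu H + e ^ 4 * (M.mu H).real univ ∧
    ∫ x, M.tr (θ + e • H + M.hs u) H x ∂M.mu (θ + e • H + M.hs u) =
      3 * e ^ 2 * ∫ x, M.tr H θ x ∂M.mu H + 4 * e ^ 3 * (M.mu H).real univ := by
  have h := hH.toMet
  have cG : M.Clo (θ + e • H + M.hs u) := (hθ.add (hH.toClo.smul e)).add ((mHES 4 M).1 u hu)
  have a := vol38 M H θ hH hθ nef k2 e u e0 hu hG _ cG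
  have b := vol38 M H θ hH hθ nef k2 e u e0 hu hG H hH.toClo
  simp only [hG.tr_self, mx_comm (S := θ) (T := θ + e • H + M.hs u)] at a
  rw [tr_cls e hH hθ hu, mx_cls e hH hθ hθ hu, integral_const, smul_eq_mul] at a
  have m : ∀ x, mx M H θ H x = 3 * M.tr H θ x := fun x => by
    rw [mx, h.tr_self, h.ip_self]
    push_cast
    ring
  simp only [h.tr_self, m] at b
  rw [integral_const, integral_const_mul, smul_eq_mul] at b
  push_cast at a b
  refine ⟨?_, by linarith⟩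
  nlinarith [mul_nonneg (sq_nonneg e) (neg_nonneg.2 k2)]

end Pool.Agent.Lib.F4H
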