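import Pool.Agent.Lib.F4H.Defs
import Pool.Agent.Lib.F4H.Cvx58
import Pool.Agent.Lib.F4H.Vol38
import Pool.Agent.Lib.KP21.E21
import Pool.Agent.Lib.ZE.N_AUB
import Pool.Agent.Lib.SV.B_ZER
import Pool.Agent.Lib.SV.B_SUB

/-! Project f4h: the step (N1) from the volume formula and the theorem of Aubin and Yau. -/

open scoped Classical Topology ContDiff ComplexOrder Matrix
open Set Filter MeasureTheory Metric

noncomputable section

namespace Pool.Agent.Lib.F4H.N75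

open Pool.Agent.Lib.SV (E)
open Pool.Agent.Lib.HS32 Pool.Agent.Lib.HLK Pool.Agent.Lib.F4 Pool.Agent.Lib.F4G

variable {n : ℕ} {M : Mf n} {G H Θ : M.Fam (Mat n)} {σ : M.X → ℝ}

/-- The metrics of Aubin and Yau, with both bounds for the Ricci form. -/
theorem ay2 (hA : HS.St_AUBIN) [M.Cpt] {ε : ℝ} {φ : M.X → ℝ} (hn : 0 < n) (hH : M.Met H)
    (hε : 0 ≤ ε) (hφ : M.Sm φ) (hK : M.Kae (-M.ric H + ε • H + M.hs φ)) :
    ∃ u, M.Sm u ∧ M.Kae (-M.ric H + ε • H + M.hs u) ∧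
      M.Le (-(-M.ric H + ε • H + M.hs u)) (M.ric (-M.ric H + ε • H + M.hs u)) ∧
      M.Le (M.ric (-M.ric H + ε • H + M.hs u)) (ε • H) := by
  obtain ⟨u, hu, hk, hd⟩ := ZE.nAUB hA n M H (-M.ric H + ε • H) φ (fun _ => 0) hn hH hφ hK
    (Mf.sm_const 0)
  have r := ((mHES n M).2.2.2.2.2.2.2.2.2 _ H hk.toMet hH).2
  simp only [hd, Real.log_exp, add_zero] at r
  refine ⟨u, hu, hk, fun e he z hz => ?_, fun e he z hz => ?_⟩
  · have q : M.ric (-M.ric H + ε • H + M.hs u) e z - (-(-M.ric H + ε • H + M.hs u)) e z =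
        ε • H e z := by
      rw [r e he z hz]
      simp only [Pi.add_apply, Pi.neg_apply, Pi.smul_apply]
      abel
    beta_reduce
    rw [q]
    exact Mf.psd_rsmul (hH.pos e he z hz).posSemidef hε
  · have q : (ε • H) e z - M.ric (-M.ric H + ε • H + M.hs u) e z =
        (-M.ric H + ε • H + M.hs u) e z := by
      rw [r e he z hz]
      simp only [Pi.add_apply, Pi.neg_apply, Pi.smul_apply]
      abel
    beta_reduce
    rw [q]
    exact (hk.pos e he z hz).posSemidef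

theorem dl_nonneg (h : Dl M σ) (x : M.X) : 0 ≤ σ x := by
  obtain ⟨e, -, hx, q, g, -, h2⟩ := h x
  have := h2.self_of_nhds.2.2
  rw [e.left_inv hx] at this
  rw [this]
  exact mul_nonneg (Complex.normSq_nonneg _) (Real.exp_pos _).le

/-- Off the zeros the curvature form is minus the Hessian of the logarithm. -/
theorem dv_hs (h : Dv M σ Θ) : M.All fun e z => σ (e.symm z) ≠ 0 →
    Θ e z = -M.hs (fun y => Real.log (σ y)) e z := fun e he z hz h0 =>
  h.eq e he z hz (fun _ => 1) (fun w => Real.log (σ (e.symm w)))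
    (Eventually.frequently (Eventually.of_forall fun _ => one_ne_zero)) (by
      filter_upwards [e.open_target.eventually_mem hz,
        (h.sm e he z hz).continuousAt.eventually_ne h0] with w h1 h2
      refine ⟨differentiableAt_const _, (h.sm e he w h1).log h2, ?_⟩
      rw [Real.exp_log (lt_of_le_of_ne (dl_nonneg h.dl _) h2.symm), map_one, one_mul])

theorem dv_lap (h : Dv M σ Θ) (G : M.Fam (Mat n)) {x : M.X} (hx : σ x ≠ 0) :
    M.lap G (fun y => Real.log (σ y)) x = -M.tr G Θ x := by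
  have := dv_hs h _ (Mf.ch_mem x) _ (Mf.ch_tgt x) (by rw [Mf.ch_symm]; exact hx)
  simp only [Mf.lap, Mf.tr, Mf.ev, this, Matrix.mul_neg, Matrix.trace_neg, Complex.neg_re, neg_neg]

/-- The zero set of a holomorphic family is null. -/
theorem nul [M.Cpt] (hG : M.Met G) {ι : Type} {u : M.Fam (ι → ℂ)} (hu : Hol u) (hd : Den M u)
    {Z : Set M.X} (hZ : MeasurableSet Z) (h : M.All fun e z => e.symm z ∈ Z → u e z = 0) :
    M.mu G Z = 0 := by
  have := (mCOV n M).1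
  refine measure_null_of_locally_null _ fun x _ => ?_
  obtain ⟨e, he, hx⟩ := M.cov x
  have hz := e.map_source hx
  obtain ⟨r, r0, hr⟩ := Metric.isOpen_iff.1 e.open_target _ hz
  obtain ⟨w, w1, w2⟩ := ((hd e he _ hz).and_eventually (ball_mem_nhds _ r0)).exists
  obtain ⟨i, hi⟩ := Function.ne_iff.1 w1
  obtain ⟨-, k, -⟩ := (mMU n M G hG).2.2.2.2.2.1 e he _ measurableSet_ball hr
  refine ⟨Z ∩ e.symm '' ball (e x) r, inter_mem_nhdsWithin _ ?_, ?_⟩
  · have := e.symm.image_mem_nhds hz (ball_mem_nhds _ r0)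
    rwa [e.left_inv hx] at this
  rw [← Measure.restrict_apply hZ, ← lintegral_indicator_one hZ, k]
  refine lintegral_eq_zero_of_ae_eq_zero ((ae_restrict_iff' measurableSet_ball).2 ?_)
  refine measure_mono_null (fun y hy => ?_) (SV.stZER SV.stSUB n (fun w => u e w i) _ r
    (fun y hy => (hu e he y (hr hy) i).self_of_nhds.differentiableWithinAt) ⟨w, w2, hi⟩)
  obtain ⟨a, b⟩ := Classical.not_imp.1 hy
  exact ⟨a, congrFun (h e he y (hr a) (by_contra fun c => b (by simp [indicator_of_notMem c]))) i⟩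

/-- A local bound is a global bound. -/
theorem glob [M.Cpt] {f g : M.X → ℝ} (hg : ∀ x, 0 ≤ g x)
    (h : ∀ x, ∃ C : ℝ, ∀ᶠ y in 𝓝 x, f y ≤ C * g y) : ∃ C : ℝ, 0 < C ∧ ∀ x, f x ≤ C * g x := by
  choose C hC using h
  obtain ⟨t, ht⟩ := CompactSpace.elim_nhds_subcover (fun x => {y | f y ≤ C x * g y}) hC
  refine ⟨1 + ∑ x ∈ t, |C x|, by positivity, fun y => ?_⟩
  obtain ⟨x, hx, hy⟩ := mem_iUnion₂.1 (ht.symm ▸ mem_univ y : y ∈ ⋃ x ∈ t, {y | f y ≤ C x * g y})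
  refine le_trans hy (mul_le_mul_of_nonneg_right ?_ (hg y))
  linarith [le_abs_self (C x), Finset.single_le_sum (f := fun x => |C x|)
    (fun _ _ => abs_nonneg _) hx]

theorem ev_src {e : M.Ch} {x : M.X} (hx : x ∈ e.source) {p : M.X → Prop}
    (h : ∀ᶠ w in 𝓝 (e x), p (e.symm w)) : ∀ᶠ y in 𝓝 x, p y := by
  filter_upwards [(e.continuousAt hx).eventually h, e.open_source.mem_nhds hx] with y h1 h2
  rwa [e.left_inv h2] at h1

/-- The inequality for one metric. -/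
theorem one [M.Cpt] (hG : M.Kae G) {ι : Type} [Fintype ι] {u : M.Fam (ι → ℂ)} {m : ℕ}
    (hu : Hol u) (hd : Den M u) (hσ : Dv M σ Θ) (hm : 0 < m)
    (hb : M.All fun e z => ∃ C : ℝ, ∀ᶠ w in 𝓝 z, ‖u e w‖ ^ (2 * m) ≤ C * σ (e.symm w))
    {V p : M.X → ℝ} (hV : M.Sm V) (V0 : ∀ x, 0 ≤ V x)
    (hz : M.All fun e z => (V (e.symm z) = 0 ↔ u e z = 0) ∧
      ∃ C : ℝ, ∀ᶠ w in 𝓝 z, V (e.symm w) ≤ C * ‖u e w‖ ^ 2) (hp : Continuous p)
    (hl : ∀ x, V x ≠ 0 → -p x ≤ M.lap G (fun y => Real.log (V y)) x) :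
    (m : ℝ)⁻¹ * ∫ x, M.tr G Θ x ∂M.mu G ≤ ∫ x, p x ∂M.mu G := by
  have I := (mMU n M G hG.toMet).2.2.2.2.1 ℝ
  have s0 := dl_nonneg hσ.dl
  obtain ⟨C, C0, hC⟩ := glob (f := fun x => V x ^ m) s0 fun x => by
    obtain ⟨a, ha⟩ := hb _ (Mf.ch_mem x) _ (Mf.ch_tgt x)
    obtain ⟨-, b, hb⟩ := hz _ (Mf.ch_mem x) _ (Mf.ch_tgt x)
    refine ⟨|b| ^ m * a, ev_src (p := fun y => V y ^ m ≤ |b| ^ m * a * σ y) (Mf.mem_ch x) ?_⟩
    filter_upwards [ha, hb] with w h1 h2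
    have h3 := pow_le_pow_left₀ (V0 _) (h2.trans
      (mul_le_mul_of_nonneg_right (le_abs_self b) (sq_nonneg _))) m
    rw [mul_pow, ← pow_mul] at h3
    rw [mul_assoc]
    exact h3.trans (mul_le_mul_of_nonneg_left h1 (by positivity))
  refine C58.cvx58 hG hV hσ.sm V0 s0 (C := C ^ (m : ℝ)⁻¹)
    (I _ ((mINV n M G hG.toMet).1 Θ hσ.clo.toTen).2.1.continuous) (I p hp)
    (fun x hx => (dv_lap hσ G hx).le) hl (fun x => ?_)
    (nul hG.toMet hu hd (isClosed_eq hV.continuous continuous_const).measurableSet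
      fun e he z hz' h => (hz e he z hz').1.1 h) (by positivity)
  rw [← Real.mul_rpow C0.le (s0 x), ← Real.pow_rpow_inv_natCast (V0 x) hm.ne']
  exact Real.rpow_le_rpow (pow_nonneg (V0 x) m) (hC x) (by positivity)

/-- The hypothesis of the volume formula. -/
theorem nef {a : ℝ → M.X → ℝ} (hH : M.Met H) (ho : ZK47.Out M H 0 a) (d : ℝ) (hd : 0 < d) :
    ∃ w, M.Sm w ∧ M.Le 0 (-M.ric H + d • H + M.hs w) := by
  have m : min d 1 ∈ Ioc (0 : ℝ) 1 := ⟨lt_min hd one_pos, min_le_right _ _⟩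
  refine ⟨_, ho.sm _ m, (ho.kae _ m).toMet.nonneg.trans ?_⟩
  rw [zero_sub]
  exact ((Mf.Le.refl _).add (hH.le_smul (min_le_left _ _))).add (Mf.Le.refl _)

theorem n1_of (hA : HS.St_AUBIN) : St_N1 := by
  intro M _ H Θ σ a ι _ u m hH ho hk hu hd hB hσ hm hb
  obtain ⟨B, B0, hB⟩ := hB
  have cr : M.Clo (-M.ric H) := ((mHES 4 M).2.2.2.2.2.2.2.2.1 H hH.toMet).neg
  set t := ∫ x, M.tr H Θ x ∂M.mu H
  set k := ∫ x, M.tr H (-M.ric H) x ∂M.mu H
  set c := (M.mu H).real univ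
  have key : ∀ ε ∈ Ioc (0 : ℝ) 1, (m : ℝ)⁻¹ * (ε * t + Qm M H (-M.ric H) Θ) ≤
      ε * (B * (4 * k + 5 * (ε * c))) := fun ε hε => by
    obtain ⟨v, hv, hG, l1, l2⟩ := ay2 hA four_pos hH.toMet hε.1.le (ho.sm ε hε) (by
      have := ho.kae ε hε
      rwa [zero_sub] at this)
    have w1 := vol38 M H _ hH cr (nef hH.toMet ho) hk ε v hε.1 hv hG.toMet Θ hσ.clo
    obtain ⟨w2, w3⟩ := vol38b M H _ hH cr (nef hH.toMet ho) hk ε v hε.1 hv hG.toMet
    obtain ⟨V, hV, V0, hz, hl⟩ := hB ε _ hε.1.le hG l1 l2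
    generalize -M.ric H + ε • H + M.hs v = G at *
    have := (mMU 4 M G hG.toMet).2.1
    have s2 := ((mINV 4 M G hG.toMet).1 H hH.toClo.toTen).2.1.continuous
    have o := one hG hu hd hσ hm hb hV V0 hz (p := fun x => B * (1 + ε * M.tr G H x))
      (continuous_const.mul (continuous_const.add (continuous_const.mul s2))) hl
    rw [integral_const_mul, integral_add (integrable_const _)
      (((mMU 4 M G hG.toMet).2.2.2.2.1 ℝ _ s2).const_mul ε), integral_const_mul, w1, w3,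
      integral_const, smul_eq_mul, mul_one] at o
    refine le_of_mul_le_mul_left ?_ (pow_pos hε.1 2)
    have q := mul_le_mul_of_nonneg_left w2 B0
    rw [Qm]
    nlinarith
  have lim : Tendsto (fun ε : ℝ => ε * (B * (4 * k + 5 * (ε * c))) -
      (m : ℝ)⁻¹ * (ε * t + Qm M H (-M.ric H) Θ)) (𝓝[>] 0) (𝓝 (0 * (B * (4 * k + 5 * (0 * c))) -
        (m : ℝ)⁻¹ * (0 * t + Qm M H (-M.ric H) Θ))) :=
    (Continuous.tendsto (by fun_prop) 0).mono_left nhdsWithin_le_nhds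
  have := ge_of_tendsto lim (b := 0) (by
    filter_upwards [Ioc_mem_nhdsGT (zero_lt_one' ℝ)] with ε hε using sub_nonneg.2 (key ε hε))
  have m0 : (0 : ℝ) < (m : ℝ)⁻¹ := by positivity
  by_contra hc
  nlinarith [mul_pos m0 (not_le.1 hc)]

theorem st_N1 : St_N1 := n1_of HS21.st_AUBIN

end Pool.Agent.Lib.F4H.N75
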