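import Pool.Agent.Lib.F4.A_LOC
import Pool.Agent.Lib.F4.G72d
import Pool.Agent.Lib.HS32.MAll

/-! Project f4h: the local quotient, and the curvature form of a divisor. -/

open scoped Classical Topology ContDiff ComplexOrder Matrix
open Set Filter Metric Complex

set_option linter.unusedVariables false

noncomputable section

namespace Pool.Agent.Lib.F4H.Q13

open Pool.Agent.Lib.SV (E)
open Pool.Agent.Lib.HS32 Pool.Agent.Lib.F4

variable {n : ℕ}

/-- The local quotient without common factor. -/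
theorem loc {κ : Type} [Fintype κ] {O : Set (E n)} {x : E n} {u h : E n → κ → ℂ} {s : E n → ℂ}
    {m : ℕ} (hO : IsOpen O) (hx : x ∈ O) (hu : DifferentiableOn ℂ u O)
    (hh : DifferentiableOn ℂ h O) (hn : ∃ᶠ y in 𝓝 x, u y ≠ 0)
    (hs : ∀ y ∈ O, u y ≠ 0 → ∀ i, h y i = s y * u y i ^ m) :
    ∃ (V : Set (E n)) (t : E n → Fin 2 → ℂ) (k : E n → κ → ℂ), IsOpen V ∧ x ∈ V ∧ V ⊆ O ∧
      Convex ℝ V ∧ DifferentiableOn ℂ t V ∧ DifferentiableOn ℂ k V ∧ Rm V {y | t y = 0} ∧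
      (∀ y ∈ V, ∀ i, u y i ^ m = t y 1 * k y i) ∧
      ∀ y ∈ V, u y ≠ 0 → t y 1 ≠ 0 ∧ t y 0 = s y * t y 1 := by
  obtain ⟨i₀, hi⟩ : ∃ i, ∃ᶠ y in 𝓝 x, u y i ≠ 0 := by
    by_contra hc
    simp only [not_exists, not_frequently, not_not] at hc
    exact (not_eventually.2 hn) ((eventually_all.2 hc).mono fun y hy => funext hy)
  obtain ⟨r, r0, hr⟩ := Metric.isOpen_iff.1 hO x hx
  have du : ∀ i, DifferentiableOn ℂ (fun y => u y i) O := differentiableOn_pi.1 hu
  have dh : ∀ i, DifferentiableOn ℂ (fun y => h y i) O := differentiableOn_pi.1 hh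
  have fr : ∀ y ∈ ball x r, ∃ᶠ w in 𝓝 y, u w i₀ ≠ 0 := fun y hy hc =>
    hi ((isOpen_ball.eventually_mem (mem_ball_self r0)).mono fun w hw k => k
      (SV.H85.eq_zero_of_convex isOpen_ball (convex_ball _ _) ((du i₀).mono hr) hy
        (hc.mono fun a ha => not_not.1 ha) hw))
  have dw : ∀ i, DifferentiableOn ℂ (fun y => ![h y i, u y i ^ m]) O := fun i =>
    differentiableOn_pi.2 fun a => by
      fin_cases a
      · exact dh i
      · exact (du i).pow m
  obtain ⟨V₀, f, t, v1, v2, v3, v4, v5, v6, v7⟩ := G72.lg isOpen_ball (mem_ball_self r0)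
    ((dw i₀).mono hr) (hi.mono fun y hy k => pow_ne_zero m hy (congrFun k 1))
  obtain ⟨ρ, ρ0, hρ⟩ := Metric.isOpen_iff.1 v1 x v2
  have VO : ball x ρ ⊆ O := hρ.trans (v3.trans hr)
  have rm : Rm (ball x ρ) {y | t y = 0} := fun U g hU hUO hg => v7 U g hU (hUO.trans hρ) hg
  have dt : ∀ a, DifferentiableOn ℂ (fun y => t y a) (ball x ρ) :=
    differentiableOn_pi.1 (v5.mono hρ)
  have key : ∀ y ∈ ball x ρ, u y i₀ ≠ 0 → t y 1 ≠ 0 ∧ t y 0 = s y * t y 1 := fun y hy k => by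
    have e0 : h y i₀ = f y * t y 0 := congrFun (v6 y (hρ hy)) 0
    have e1 : u y i₀ ^ m = f y * t y 1 := congrFun (v6 y (hρ hy)) 1
    have e2 := hs y (VO hy) (fun c => k (congrFun c i₀)) i₀
    have n1 := pow_ne_zero m k
    rw [e1] at n1
    refine ⟨right_ne_zero_of_mul n1, mul_left_cancel₀ (left_ne_zero_of_mul n1) ?_⟩
    rw [← e0, e2, e1]
    ring
  have fr' : ∀ y ∈ ball x ρ, ∃ᶠ w in 𝓝 y, u w i₀ ≠ 0 ∧ w ∈ ball x ρ := fun y hy =>
    (fr y (v3 (hρ hy))).and_eventually (isOpen_ball.mem_nhds hy)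
  have c : ∀ {g : E n → ℂ}, DifferentiableOn ℂ g (ball x ρ) → ∀ y ∈ ball x ρ, ContinuousAt g y :=
    fun hg y hy => hg.continuousOn.continuousAt (isOpen_ball.mem_nhds hy)
  have pr : ∀ i, ∀ y ∈ ball x ρ, h y i * t y 1 = u y i ^ m * t y 0 := fun i y hy =>
    G72.eq_fr ((c ((dh i).mono VO) y hy).mul (c (dt 1) y hy))
      (((c ((du i).mono VO) y hy).pow m).mul (c (dt 0) y hy)) ((fr' y hy).mono fun w hw => by
        have := hs w (VO hw.2) (fun c => hw.1 (congrFun c i₀)) i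
        simp only [Pi.mul_apply, Pi.pow_apply]
        rw [this, (key w hw.2 hw.1).2]
        ring)
  have ex : ∀ i, ∃ b : E n → ℂ, DifferentiableOn ℂ b (ball x ρ) ∧
      ∀ z ∈ ball x ρ, ![h z i, u z i ^ m] = b z • t z := fun i =>
    st_LOC n (Fin 2) _ _ t _ isOpen_ball Subset.rfl rm (v5.mono hρ) ((dw i).mono VO)
      (fun z hz => (fr' z hz).mono fun w hw k => (key w hw.2 hw.1).1 (congrFun k 1))
      fun z hz a b => by
        fin_cases a <;> fin_cases b
        · rfl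
        · exact pr i z hz
        · exact (pr i z hz).symm
        · rfl
  choose b b1 b2 using ex
  have e1 : ∀ y ∈ ball x ρ, ∀ i, u y i ^ m = t y 1 * b i y := fun y hy i =>
    (congrFun (b2 i y hy) 1).trans (mul_comm _ _)
  refine ⟨ball x ρ, t, fun y i => b i y, isOpen_ball, mem_ball_self ρ0, VO, convex_ball _ _,
    v5.mono hρ, differentiableOn_pi.2 b1, rm, e1, fun y hy k => ?_⟩
  obtain ⟨i, hi⟩ := Function.ne_iff.1 k
  have n1 : u y i ^ m ≠ 0 := pow_ne_zero m hi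
  refine ⟨fun c => n1 (by rw [e1 y hy i, c, zero_mul]), mul_left_cancel₀ n1 ?_⟩
  rw [← pr i y hy, hs y (VO hy) k i]
  ring

/-- Local data: `f` is the square of `q` times the exponential of `g` near `z`. -/
def Ld (f : E n → ℝ) (q : E n → ℂ) (g : E n → ℝ) (z : E n) : Prop :=
  ∀ᶠ w in 𝓝 z, DifferentiableAt ℂ q w ∧ ContDiffAt ℝ ∞ g w ∧ f w = normSq (q w) * Real.exp (g w)

theorem Ld.ev {f g : E n → ℝ} {q : E n → ℂ} {z : E n} (h : Ld f q g z) : ∀ᶠ w in 𝓝 z, Ld f q g w :=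
  h.eventually_nhds

/-- The Hessian of `g` depends only on `f`. -/
theorem Ld.uniq {f g g' : E n → ℝ} {q q' : E n → ℂ} {z : E n} (h : Ld f q g z) (h' : Ld f q' g' z)
    (hn : ∃ᶠ w in 𝓝 z, f w ≠ 0) : hess (fun w => (g w : ℂ)) z = hess (fun w => (g' w : ℂ)) z := by
  have one : ∀ {g : E n → ℝ} {q : E n → ℂ} {w : E n}, Ld f q g w → f w ≠ 0 →
      hess (fun y => (Real.log (f y) : ℂ)) w = hess (fun y => (g y : ℂ)) w := fun {g q w} k k0 => by
    have q0 : q w ≠ 0 := fun c => k0 (by rw [k.self_of_nhds.2.2, c]; simp)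
    obtain ⟨a1, a2, -⟩ := ((mHOL n q w).2.2 (k.mono fun y hy => hy.1)).2.2.2 q0
    have e : (fun y => (Real.log (f y) : ℂ)) =ᶠ[𝓝 w]
        fun y => ((Real.log (normSq (q y)) : ℝ) : ℂ) + (g y : ℂ) := by
      filter_upwards [k, k.self_of_nhds.1.continuousAt.eventually_ne q0] with y y1 y2
      rw [y1.2.2, Real.log_mul (by simpa using y2) (Real.exp_ne_zero _), Real.log_exp,
        Complex.ofReal_add]
    rw [hess_congr e, hess_add (cd_ofReal a1) (cd_ofReal k.self_of_nhds.2.1), a2, zero_add]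
  ext i j
  refine G72.eq_fr (f := fun w => hess (fun y => (g y : ℂ)) w i j)
    (g := fun w => hess (fun y => (g' y : ℂ)) w i j)
    (smM_hess (cd_ofReal h.self_of_nhds.2.1) i j).continuousAt
    (smM_hess (cd_ofReal h'.self_of_nhds.2.1) i j).continuousAt
    ((hn.and_eventually (h.ev.and h'.ev)).mono fun w hw => ?_)
  rw [← one hw.2.1 hw.1, one hw.2.2 hw.1]

variable {M : Mf n}

/-- Change of chart. -/
theorem Ld.tr {f : M.X → ℝ} {g : E n → ℝ} {q : E n → ℂ} {e e' : M.Ch} {x : M.X} (he : e ∈ M.C)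
    (he' : e' ∈ M.C) (hx : x ∈ e.source) (hx' : x ∈ e'.source)
    (h : Ld (fun w => f (e.symm w)) q g (e x)) :
    Ld (fun w => f (e'.symm w)) (q ∘ e ∘ e'.symm) (g ∘ e ∘ e'.symm) (e' x) := by
  obtain ⟨t1, -, -, t4, -⟩ := (mTR n M).2.1 e he e' he' x hx hx'
  have e1 : (e ∘ e'.symm) (e' x) = e x := by simp only [Function.comp_apply, e'.left_inv hx']
  have c := t1.self_of_nhds.continuousAt
  rw [ContinuousAt, e1] at c
  filter_upwards [c.eventually h, t1.eventually_nhds, t4] with w w1 w2 w4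
  refine ⟨w1.1.comp w w2.self_of_nhds, w1.2.1.comp w (mCHN n _ _ w2).1, ?_⟩
  rw [← w4.2.2.2.2.1]
  exact w1.2.2

/-- The curvature form of a divisor. -/
theorem the {f : M.X → ℝ} (hn : ∀ x, ∃ᶠ y in 𝓝 x, f y ≠ 0)
    (hl : ∀ x, ∃ e ∈ M.C, x ∈ e.source ∧ ∃ q g, Ld (fun w => f (e.symm w)) q g (e x)) :
    ∃ T, M.Clo T ∧ M.All fun e z => (∃ q g, Ld (fun w => f (e.symm w)) q g z) ∧
      ∀ q g, Ld (fun w => f (e.symm w)) q g z → T e z = -hess (fun w => (g w : ℂ)) z := by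
  have al : ∀ (e : M.Ch) (z : E n), ∃ (q : E n → ℂ) (g : E n → ℝ), e ∈ M.C → z ∈ e.target →
      Ld (fun w => f (e.symm w)) q g z := fun e z => by
    by_cases c : e ∈ M.C ∧ z ∈ e.target
    · obtain ⟨e₀, h₀, k₀, q, g, l⟩ := hl (e.symm z)
      have := l.tr h₀ c.1 k₀ (e.map_target c.2)
      rw [e.right_inv c.2] at this
      exact ⟨_, _, fun _ _ => this⟩
    · exact ⟨0, 0, fun a b => (c ⟨a, b⟩).elim⟩
  choose q g hq using al
  have fr : M.All fun e z => ∃ᶠ w in 𝓝 z, f (e.symm w) ≠ 0 := fun e he z hz => by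
    have := hn (e.symm z)
    rwa [← e.symm.map_nhds_eq hz, frequently_map] at this
  have un : M.All fun e z => ∀ q' g', Ld (fun w => f (e.symm w)) q' g' z →
      -hess (fun w => (g e z w : ℂ)) z = -hess (fun w => (g' w : ℂ)) z := fun e he z hz q' g' l =>
    congrArg Neg.neg ((hq e z he hz).uniq l (fr e he z hz))
  have ev : M.All fun e z => (fun w => -hess (fun y => (g e w y : ℂ)) w) =ᶠ[𝓝 z]
      fun w => -hess (fun y => (g e z y : ℂ)) w := fun e he z hz => by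
    filter_upwards [(hq e z he hz).ev, e.open_target.mem_nhds hz] with w w1 w2
    exact un e he w w2 _ _ w1
  have sm : M.All fun e z => ContDiffAt ℝ ∞ (fun y => (g e z y : ℂ)) z := fun e he z hz =>
    cd_ofReal (hq e z he hz).self_of_nhds.2.1
  refine ⟨fun e z => -hess (fun w => (g e z w : ℂ)) z, ⟨⟨⟨fun e he z hz =>
    (smM_hess (sm e he z hz)).neg.congr (ev e he z hz), fun e he e' he' x hx hx' => ?_⟩,
    fun e he z hz => (hess_herm (hq e z he hz).self_of_nhds.2.1).neg⟩, fun e he z hz => ?_⟩,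
    fun e he z hz => ⟨⟨_, _, hq e z he hz⟩, un e he z hz⟩⟩
  · obtain ⟨t1, -⟩ := (mTR n M).2.1 e he e' he' x hx hx'
    have e1 : (e ∘ e'.symm) (e' x) = e x := by simp only [Function.comp_apply, e'.left_inv hx']
    have k := (mCHN n _ _ t1).2.2.2.2.2.2.2.2.2.2.2 (fun y => (g e (e x) y : ℂ))
      (by rw [e1]; exact sm e he _ (e.map_source hx))
    rw [un e' he' _ (e'.map_source hx') _ _ ((hq e _ he (e.map_source hx)).tr he he' hx hx'),
      Matrix.mul_neg, Matrix.neg_mul]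
    rw [e1] at k
    exact congrArg Neg.neg k
  · refine ClM.congr (fun i j k => ?_) (ev e he z hz)
    rw [dM_neg, dM_neg, Matrix.neg_apply, Matrix.neg_apply, clM_hess (sm e he z hz) i j k]

end Pool.Agent.Lib.F4H.Q13
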