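import Pool.Agent.Lib.F4H.Defs
import Pool.Agent.Lib.F4H.Pq13a

/-! Project f4h, row DVE: the curvature form of a divisor exists. -/

open scoped Topology
open Filter

namespace Pool.Agent.Lib.F4H

open Pool.Agent.Lib.HS32

/-- The function does not vanish on an open set. -/
theorem Dl.fr {n : ℕ} {M : Mf n} {σ : M.X → ℝ} (h : Dl M σ) (x : M.X) : ∃ᶠ y in 𝓝 x, σ y ≠ 0 := by
  obtain ⟨e, he, hx, q, g, h1, h2⟩ := h x
  have k : ∃ᶠ z in 𝓝 (e x), σ (e.symm z) ≠ 0 := (h1.and_eventually h2).mono fun z hz => by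
    rw [hz.2.2.2]
    exact mul_ne_zero (by simpa using hz.1) (Real.exp_ne_zero _)
  rw [← e.map_nhds_eq hx, frequently_map] at k
  refine (k.and_eventually (e.open_source.mem_nhds hx)).mono fun y hy => ?_
  rw [← e.left_inv hy.2]
  exact hy.1

theorem st_DVE : St_DVE := fun n M σ hs hd => by
  obtain ⟨T, t1, t2⟩ := Q13.the hd.fr fun x => by
    obtain ⟨e, he, hx, q, g, -, h2⟩ := hd x
    exact ⟨e, he, hx, q, g, h2⟩
  exact ⟨T, hs, hd, t1, fun e he z hz q g _ l => (t2 e he z hz).2 q g l⟩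

end Pool.Agent.Lib.F4H
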