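import Pool.Agent.Lib.F4H.Hix69
import Pool.Agent.Lib.KT.B_NEG

/-! Project f4h: the curvature form of a divisor. -/

open scoped Classical Topology ContDiff ComplexOrder Matrix
open Set MeasureTheory Filter Metric

noncomputable section

namespace Pool.Agent.Lib.F4H.H69

open Pool.Agent.Lib.SV (E)
open Pool.Agent.Lib.HS32 Pool.Agent.Lib.F4

variable {n : ℕ}

theorem hess_log {u : E n → ℝ} {z : E n} (hu : ContDiffAt ℝ ∞ u z) (h0 : u z ≠ 0) :
    hess (fun w => (Real.log (u w) : ℂ)) z = (u z)⁻¹ • hess (fun w => (u w : ℂ)) z -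
      ((u z) ^ 2)⁻¹ • dd (fun w => (u w : ℂ)) (fun w => (u w : ℂ)) z := by
  ext i j
  have c := cd_ofReal hu
  have h1 : (u z : ℂ) ≠ 0 := by exact_mod_cast h0
  have e : dz j (fun w => (Real.log (u w) : ℂ)) =ᶠ[𝓝 z]
      fun w => (u w : ℂ)⁻¹ * dz j (fun w => (u w : ℂ)) w := by
    filter_upwards [hu.continuousAt.eventually_ne h0,
      (hu.of_le (m := 1) (by exact_mod_cast le_top)).eventually (by simp)] with w hw hd
    rw [dz_comp_real (Real.hasDerivAt_log hw) (hd.differentiableAt one_ne_zero)]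
    simp
  rw [hess_apply, dzb_congr e, dzb_mul ((cd_diff c).fun_inv h1) (cd_diff (cd_dz c j)),
    dzb_inv (cd_diff c) h1]
  simp only [Matrix.sub_apply, Matrix.smul_apply, hess_apply, dd_apply, Complex.real_smul]
  push_cast
  ring

/-- The local form gives the equation. -/
theorem hess_loc {s g : E n → ℝ} {q : E n → ℂ} {z : E n} (hq : HolN q z)
    (hg : ContDiffAt ℝ ∞ g z) (e : ∀ᶠ w in 𝓝 z, s w = Complex.normSq (q w) * Real.exp (g w))
    (h0 : s z ≠ 0) : hess (fun w => (Real.log (s w) : ℂ)) z = hess (fun w => (g w : ℂ)) z := by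
  have q0 : q z ≠ 0 := fun h => h0 (by rw [e.self_of_nhds, h]; simp)
  obtain ⟨cq, -, -, hl⟩ := (mHOL n q z).2.2 hq
  obtain ⟨c1, c2, -⟩ := hl q0
  have e2 : (fun w => (Real.log (s w) : ℂ)) =ᶠ[𝓝 z]
      fun w => (Real.log (Complex.normSq (q w)) : ℂ) + (g w : ℂ) := by
    filter_upwards [e, cq.continuousAt.eventually_ne q0] with w hw h1
    rw [hw, Real.log_mul (by simpa using h1) (Real.exp_pos _).ne', Real.log_exp]
    simp
  rw [hess_congr e2, hess_add (cd_ofReal c1) (cd_ofReal hg), c2, zero_add]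

variable {M : Mf n} {H S T : M.Fam (Mat n)} {σ : M.X → ℝ}

theorem hs_log (hσ : M.Sm σ) : M.All fun e z => σ (e.symm z) ≠ 0 →
    M.hs (fun x => Real.log (σ x)) e z =
      (σ (e.symm z))⁻¹ • M.hs σ e z - ((σ (e.symm z)) ^ 2)⁻¹ • M.ds σ σ e z :=
  fun e he z hz h => hess_log (hσ e he z hz) h

theorem at_zero (hσ : M.Sm σ) (h0 : ∀ x, 0 ≤ σ x) (hH : M.Met H) :
    M.All fun e z => σ (e.symm z) = 0 → (M.hs σ e z).PosSemidef ∧ M.ds σ σ e z = 0 := by
  intro e he z hz h
  have m : IsLocalMin σ (e.symm z) := Eventually.of_forall fun y => by rw [h]; exact h0 y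
  have p := ((((mLAP n M σ σ hσ hσ).2.2 H hH).2.2.1 (e.symm z) 0).2.2.2.2.2.2.2.2.2 m).2.2 e he
    (e.map_target hz)
  rw [e.right_inv hz] at p
  refine ⟨p, ?_⟩
  have m2 : IsLocalMin (σ ∘ e.symm) z := Eventually.of_forall fun y => by
    simp only [Function.comp, h]
    exact h0 _
  have d := (hσ e he z hz).differentiableAt (by simp)
  ext i j
  have : dz j (M.lc σ e) z = 0 := by
    have f := fun v => fderiv_ofReal d v
    rw [m2.fderiv_eq_zero] at f
    have f2 : ∀ v, fderiv ℝ (M.lc σ e) z v = 0 := fun v => (f v).trans (by simp)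
    simp [dz, f2]
  simp [Mf.ds, this]

/-- The regularised form is bounded below. -/
theorem thd (hH : M.Met H) (hσ : M.Sm σ) (h0 : ∀ x, 0 ≤ σ x)
    (hl : M.All fun e z => σ (e.symm z) ≠ 0 → T e z + M.hs (fun x => Real.log (σ x)) e z = 0)
    {d : ℝ} (hd : 0 < d) : M.Le (LD.fs M (fun x => d / (σ x + d)) T)
      (T + M.hs fun x => Real.log (σ x + d)) := by
  intro e he z hz
  have sd : M.Sm fun x => σ x + d := hσ.add (Mf.sm_const d)
  have p : 0 < σ (e.symm z) + d := by have := h0 (e.symm z); positivity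
  have e1 := hs_log sd e he z hz p.ne'
  have e2 : M.hs (fun x => σ x + d) e z = M.hs σ e z := by
    have := (mLAP n M σ (fun _ => d) hσ (Mf.sm_const d)).1 d e he z hz
    rw [this.2.1, this.1, add_zero]
  have e3 : M.ds (fun x => σ x + d) (fun x => σ x + d) e z = M.ds σ σ e z := by
    have c := cd_diff (hσ.lc e he z hz)
    have a : M.lc (fun x => σ x + d) e = fun w => M.lc σ e w + d := by
      funext w
      simp [Mf.lc]
    ext i j
    simp only [Mf.ds, dd_apply, a]
    rw [dzb_add c (differentiableAt_const _), dz_add c (differentiableAt_const _), dz_const,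
      dzb_const, add_zero, add_zero]
  simp only [Pi.add_apply, LD.fs]
  rw [e1, e2, e3]
  by_cases h : σ (e.symm z) = 0
  · obtain ⟨a, b⟩ := at_zero hσ h0 hH e he z hz h
    rw [b, h, zero_add, div_self hd.ne', one_smul, smul_zero, sub_zero, add_sub_cancel_left]
    exact Mf.psd_rsmul a (by positivity)
  · have s : 0 < σ (e.symm z) := (h0 _).lt_of_ne' h
    have a := hl e he z hz h
    rw [hs_log hσ e he z hz h] at a
    have b := ((mHES n M).2.2.1 σ hσ).2 e he z hz
    simp only [Pi.zero_apply, sub_zero] at b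
    have c := Mf.psd_rsmul b (c := d / (σ (e.symm z) * (σ (e.symm z) + d) ^ 2)) (by positivity)
    rw [eq_neg_of_add_eq_zero_left a]
    refine (congrArg Matrix.PosSemidef ?_).mp c
    match_scalars <;> field_simp <;> ring

variable [M.Cpt]

theorem pol (hH : M.Met H) (hT : M.Form T) (hσ : M.Sm σ) (h0 : ∀ x, 0 ≤ σ x)
    (hl : M.All fun e z => σ (e.symm z) ≠ 0 → T e z + M.hs (fun x => Real.log (σ x)) e z = 0) :
    ∃ C : ℝ, 0 < C ∧ ∀ d : ℝ, 0 < d → M.Le 0 (C • H + M.hs fun x => Real.log (σ x + d)) ∧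
      M.Le 0 (C • H + (T + M.hs fun x => Real.log (σ x + d))) := by
  obtain ⟨C, C0, u, l⟩ := (mBD n M H hH).1 T hT
  refine ⟨C, C0, fun d hd => ⟨fun e he z hz => ?_, fun e he z hz => ?_⟩⟩
  all_goals
    have s := h0 (e.symm z)
    have a := thd hH hσ h0 hl hd e he z hz
    have b := (hH.pos e he z hz).posSemidef
    have p : 0 < σ (e.symm z) + d := by positivity
  · have c := (a.add (Mf.psd_rsmul (u e he z hz) (c := σ (e.symm z) / (σ (e.symm z) + d))
      (by positivity))).add (Mf.psd_rsmul b (c := C * d / (σ (e.symm z) + d)) (by positivity))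
    refine (congrArg Matrix.PosSemidef ?_).mp c
    simp only [Pi.add_apply, Pi.smul_apply, Pi.zero_apply, LD.fs]
    match_scalars <;> field_simp <;> ring
  · have c := (a.add (Mf.psd_rsmul (l e he z hz) (c := d / (σ (e.symm z) + d))
      (by positivity))).add (Mf.psd_rsmul b (c := C * σ (e.symm z) / (σ (e.symm z) + d))
        (by positivity))
    refine (congrArg Matrix.PosSemidef ?_).mp c
    simp only [Pi.add_apply, Pi.smul_apply, Pi.zero_apply, Pi.neg_apply, LD.fs]
    match_scalars <;> field_simp <;> ring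

/-- The zero set is null. -/
theorem null (hH : M.Met H) (hT : M.Form T) (hσ : M.Sm σ) (h0 : ∀ x, 0 ≤ σ x)
    (hl : M.All fun e z => σ (e.symm z) ≠ 0 → T e z + M.hs (fun x => Real.log (σ x)) e z = 0)
    (nz : ∃ x, σ x ≠ 0) : M.mu H {x | σ x = 0} = 0 := by
  obtain ⟨x, hx⟩ := nz
  obtain ⟨C, -, hC⟩ := pol hH hT hσ h0 hl
  obtain ⟨ε, ε0, hε⟩ := KT.NEG.pol hH ⟨hσ, h0, C, fun d hd => (hC d hd.1).1⟩ hx
  have := (ae_lt_top (hσ.continuous.measurable.ennreal_ofReal.pow_const _) hε).mono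
    (q := fun y => σ y ≠ 0) fun y hy h => by
      rw [h, ENNReal.ofReal_zero, ENNReal.zero_rpow_of_neg (neg_neg_of_pos ε0)] at hy
      exact lt_irrefl _ hy
  simpa only [ae_iff, not_not] using this

theorem mu_lim (hH : M.Met H) (hσ : Continuous σ) (h0 : ∀ x, 0 ≤ σ x)
    (hz : M.mu H {x | σ x = 0} = 0) {f : M.X → ℝ} (hf : Continuous f) :
    Tendsto (fun d : ℝ => ∫ x, d / (σ x + d) * f x ∂M.mu H) (𝓝[>] 0) (𝓝 0) := by
  have hi := (mMU n M H hH).2.2.2.2.1 ℝ
  have := tendsto_integral_filter_of_dominated_convergence (μ := M.mu H) (l := 𝓝[>] (0 : ℝ))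
    (F := fun d x => d / (σ x + d) * f x) (f := fun _ => (0 : ℝ)) (fun x => ‖f x‖)
    (Eventually.of_forall fun d => ((measurable_const.div (hσ.measurable.add_const d)).mul
      hf.measurable).aestronglyMeasurable)
    (by
      filter_upwards [self_mem_nhdsWithin] with d (hd : 0 < d)
      refine Eventually.of_forall fun x => ?_
      have := h0 x
      rw [norm_mul, Real.norm_of_nonneg (by positivity)]
      exact mul_le_of_le_one_left (norm_nonneg _) ((div_le_one (by positivity)).2 (by linarith)))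
    (hi _ hf.norm)
    (by
      have : ∀ᵐ x ∂M.mu H, σ x ≠ 0 := by simpa only [ae_iff, not_not] using hz
      filter_upwards [this] with x hx
      have c : ContinuousAt (fun d : ℝ => d / (σ x + d) * f x) 0 :=
        (continuousAt_id.div (by fun_prop) (by simpa using hx)).mul continuousAt_const
      simpa using c.tendsto.mono_left nhdsWithin_le_nhds)
  simpa using this

/-- A nef class is non-negative on a divisor. -/
theorem q_nef (hH : M.Kae H) (hS : M.Clo S) (hT : M.Clo T) (hσ : M.Sm σ) (h0 : ∀ x, 0 ≤ σ x)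
    (hl : M.All fun e z => σ (e.symm z) ≠ 0 → T e z + M.hs (fun x => Real.log (σ x)) e z = 0)
    (nz : ∃ x, σ x ≠ 0)
    (hN : ∀ ε ∈ Ioc (0 : ℝ) 1, ∃ u, M.Sm u ∧ M.Le 0 (S + ε • H + M.hs u)) :
    0 ≤ ∫ x, mx M H S T x ∂M.mu H := by
  have hm := hH.toMet
  refine LD.NF88.lim (b := ∫ x, mx M H T H x ∂M.mu H) (c := 0) fun ε hε => ?_
  obtain ⟨u, su, hu⟩ := hN ε hε
  have c1 := hS.add (hH.toClo.smul ε)
  have c2 := c1.add ((mHES n M).1 u su)
  have k : 0 ≤ ∫ x, mx M H (S + ε • H) T x ∂M.mu H := by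
    refine le_of_tendsto (mu_lim hm hσ.continuous h0 (null hm hT.toForm hσ h0 hl nz)
      (mx_sm hm c2.toTen hT.toTen).continuous) ?_
    filter_upwards [self_mem_nhdsWithin] with d (hd : 0 < d)
    have p : ∀ x, σ x + d ≠ 0 := fun x => by have := h0 x; positivity
    have sd := (hσ.add (Mf.sm_const d)).log p
    have sm : M.Sm fun x => d / (σ x + d) := (Mf.sm_const d).div (hσ.add (Mf.sm_const d)) p
    have c3 := hT.add ((mHES n M).1 _ sd)
    rw [← q_cls hH c1 hT su sd]
    refine integral_mono ((mMU n M H hm).2.2.2.2.1 ℝ _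
      (sm.mul (mx_sm hm c2.toTen hT.toTen)).continuous) (mx_int hm c2.toTen c3.toTen) fun x => ?_
    have := mx_nonneg hm hu (T := T + M.hs (fun x => Real.log (σ x + d)) -
      LD.fs M (fun x => d / (σ x + d)) T) (fun e he z hz => by
        simpa using thd hm hσ h0 hl hd e he z hz) x
    rw [mx_sub, mx_fs _ hm] at this
    exact sub_nonneg.1 this
  rw [q_comm, q_add hm hT.toTen hS.toTen (hm.toTen.smul ε), q_smul, q_comm] at k
  linarith

/-- A divisor has positive degree. -/
theorem tr_pos (hn : 0 < n) (hH : M.Kae H) (hT : M.Ten T) (hσ : M.Sm σ) (h0 : ∀ x, 0 ≤ σ x)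
    (hl : M.All fun e z => σ (e.symm z) ≠ 0 → T e z + M.hs (fun x => Real.log (σ x)) e z = 0)
    (nz : ∃ x, σ x ≠ 0) (zr : ∃ x, σ x = 0) : 0 < ∫ x, M.tr H T x ∂M.mu H := by
  by_contra hc
  have hm := hH.toMet
  obtain ⟨-, hf, -, vol, hi, -⟩ := mMU n M H hm
  have st := ((mINV n M H hm).1 T hT).2.1
  obtain ⟨v, c, sv, hv⟩ := KP.st_POI KP.st_HARM KP.st_CPT n M H _ hn hH st
  have z : ∫ x, M.lap H v x ∂M.mu H = 0 := tr_hs hH sv
  simp only [hv] at z
  rw [integral_sub (integrable_const _) (hi ℝ _ st.continuous), integral_const, smul_eq_mul] at z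
  have c0 : c ≤ 0 := by
    by_contra h
    have := mul_pos vol (not_le.1 h)
    linarith
  have sw : M.Sm fun x => σ x * Real.exp (-v x) := hσ.mul sv.neg.exp
  have w0 : ∀ x, 0 ≤ σ x * Real.exp (-v x) := fun x => mul_nonneg (h0 x) (Real.exp_pos _).le
  obtain ⟨k, hk⟩ := KP.st_HARM n M H _ hH sw fun x => by
    have he := Mf.ch_mem x
    have hz := Mf.ch_tgt x
    have hx := Mf.ch_symm x
    by_cases h : σ x = 0
    · exact ((((mLAP n M _ _ sw sw).2.2 H hm).2.2.1 x 0).2.2.2.2.2.2.2.2.2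
        (Eventually.of_forall fun y => by simpa only [h, zero_mul] using w0 y)).1
    · have p : 0 < σ x * Real.exp (-v x) := mul_pos ((h0 x).lt_of_ne' h) (Real.exp_pos _)
      have a := hs_log sw _ he _ hz (by rw [hx]; exact p.ne')
      have b := hl _ he _ hz (by rw [hx]; exact h)
      have cs := hσ _ he _ hz
      have ne : (σ ∘ (M.ch x).symm) (M.ch x x) ≠ 0 := by rw [Function.comp, hx]; exact h
      have d : M.hs (fun x => Real.log (σ x * Real.exp (-v x))) (M.ch x) (M.ch x x) =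
          M.hs (fun x => Real.log (σ x)) (M.ch x) (M.ch x x) - M.hs v (M.ch x) (M.ch x x) := by
        refine (hess_congr ?_).trans (hess_sub (cd_ofReal (cs.log ne)) (sv.lc _ he _ hz))
        filter_upwards [cs.continuousAt.eventually_ne ne] with w hw
        simp only [Mf.lc, Function.comp] at hw ⊢
        rw [Real.log_mul hw (Real.exp_pos _).ne', Real.log_exp]
        simp [sub_eq_add_neg]
      rw [hx, d, eq_neg_of_add_eq_zero_right b] at a
      have t := congrArg (fun A => ((M.ev H x)⁻¹ * A).trace.re) a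
      have g : 0 ≤ M.gr H (fun x => σ x * Real.exp (-v x)) (fun x => σ x * Real.exp (-v x)) x :=
        (((mLAP n M _ _ sw sw).2.2 H hm).2.2.1 x 0).2.2.2.2.2.2.1
      have l := hv x
      simp only [Mf.lap, Mf.gr, Mf.tr, Mf.ev] at g l ⊢
      simp only [Matrix.mul_sub, Matrix.mul_neg, Matrix.mul_smul, Matrix.trace_sub,
        Matrix.trace_neg, Matrix.trace_smul, Complex.sub_re, Complex.neg_re, Complex.real_smul,
        Complex.re_ofReal_mul, Mf.ev] at t
      have g2 := mul_nonneg (inv_nonneg.2 (sq_nonneg (σ x * Real.exp (-v x)))) g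
      exact (mul_nonneg_iff_of_pos_left (inv_pos.2 p)).1 (by linarith)
  obtain ⟨x, hx⟩ := nz
  obtain ⟨y, hy⟩ := zr
  have := (hk x).trans (hk y).symm
  rw [hy, zero_mul] at this
  exact mul_ne_zero hx (Real.exp_pos _).ne' this

end Pool.Agent.Lib.F4H.H69
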