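import Pool.Agent.Lib.F4H.Rul35
import Pool.Agent.Lib.F4H.Qth69
import Pool.Agent.Lib.F4H.N_DVE

/-! Project f4h: the regularised current of a divisor. -/

open scoped Classical Topology ContDiff ComplexOrder Matrix
open Set MeasureTheory Filter Metric

noncomputable section

namespace Pool.Agent.Lib.F4H.N35

open Pool.Agent.Lib.SV (E)
open Pool.Agent.Lib.HS32 Pool.Agent.Lib.F4

variable {n : ℕ} {M : Mf n} {Θ : M.Fam (Mat n)} {σ : M.X → ℝ}

theorem dv_log (h : Dv M σ Θ) : M.All fun e z => σ (e.symm z) ≠ 0 →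
    Θ e z + M.hs (fun x => Real.log (σ x)) e z = 0 := fun e he z hz h0 => by
  obtain ⟨e₀, h₀, k₀, q, g, -, l⟩ := h.dl (e.symm z)
  have t := Q13.Ld.tr (f := σ) h₀ he k₀ (e.map_target hz) l
  rw [e.right_inv hz] at t
  have q0 : (q ∘ e₀ ∘ e.symm) z ≠ 0 := fun c =>
    h0 (t.self_of_nhds.2.2.trans (by rw [c]; simp))
  rw [h.eq e he z hz _ _ (t.self_of_nhds.1.continuousAt.eventually_ne q0).frequently t,
    ← H69.hess_loc (t.mono fun w hw => hw.1) t.self_of_nhds.2.1 (t.mono fun w hw => hw.2.2) h0]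
  exact neg_add_cancel _

theorem st_QD : St_QD := fun n M _ H Θ σ hH h => by
  obtain ⟨x⟩ : Nonempty M.X := inferInstance
  exact ⟨H69.null hH h.clo.toForm h.sm (dv_nonneg h) (dv_log h) (h.dl.fr x).exists,
    fun d hd => H69.thd hH h.sm (dv_nonneg h) (dv_log h) hd⟩

end Pool.Agent.Lib.F4H.N35
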