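import Pool.Agent.Lib.F4H.Numd51
import Pool.Agent.Lib.F4H.Qd35

/-! Project f4h: the row on numerically proportional divisors. -/

noncomputable section

namespace Pool.Agent.Lib.F4H

theorem st_NUMD : St_NUMD := M51.numd_of (KP.st_POI KP.st_HARM KP.st_CPT) N35.st_QD

end Pool.Agent.Lib.F4H
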