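import Pool.Agent.Lib.F4.G72e
import Pool.Agent.Lib.F4H.Pq13a

/-! Project f4h: the local quotients differ by units. -/

open scoped Classical Topology ContDiff ComplexOrder Matrix
open Set Filter Metric Complex

set_option linter.unusedVariables false
set_option linter.unusedSectionVars false

noncomputable section

namespace Pool.Agent.Lib.F4H.Q13

open Pool.Agent.Lib.SV (E)
open Pool.Agent.Lib.HS32 Pool.Agent.Lib.HLK Pool.Agent.Lib.F4

variable {n : ℕ} {M : Mf n} {ι : Type} [Fintype ι] {u : M.Fam (ι → ℂ)} {s : M.Fam ℂ} {a : ℤ}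
  {m : ℕ} {e e' : M.Ch} {x : M.X} {V V' : Set (E n)} {t t' : E n → Fin 2 → ℂ} {k k' : E n → ι → ℂ}

theorem frX (hd : Den M u) (he : e ∈ M.C) (hx : x ∈ e.source) : ∃ᶠ y in 𝓝 x, u e (e y) ≠ 0 := by
  have := hd.at he hx
  rwa [← e.map_nhds_eq hx, frequently_map] at this

theorem fr2 (hu : Hol u) (hd : Den M u) (he : e ∈ M.C) (he' : e' ∈ M.C) (hx : x ∈ e.source)
    (hx' : x ∈ e'.source) : ∃ᶠ y in 𝓝 x, u e (e y) ≠ 0 ∧ u e' (e' y) ≠ 0 := by
  refine frequently_frequently_nhds.1 (((frX hd he hx).and_eventually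
    ((e.open_source.eventually_mem hx).and (e'.open_source.eventually_mem hx'))).mono
      fun y hy => ?_)
  have c : ContinuousAt (fun w => u e (e w)) y := (continuousAt_pi.2 fun i =>
    (hu.at he hy.2.1 i).self_of_nhds.continuousAt).comp (e.continuousAt hy.2.1)
  exact ((frX hd he' hy.2.2).and_eventually (c.eventually_ne hy.1)).mono fun w hw => ⟨hw.2, hw.1⟩

/-- The local quotient in a chart. -/
structure Lq (u : M.Fam (ι → ℂ)) (s : M.Fam ℂ) (m : ℕ) (e : M.Ch) (V : Set (E n))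
    (t : E n → Fin 2 → ℂ) (k : E n → ι → ℂ) : Prop where
  he : e ∈ M.C
  op : IsOpen V
  sub : V ⊆ e.target
  cv : Convex ℝ V
  dt : DifferentiableOn ℂ t V
  dk : DifferentiableOn ℂ k V
  rm : Rm V {y | t y = 0}
  uk : ∀ y ∈ V, ∀ i, u e y i ^ m = t y 1 * k y i
  ts : ∀ y ∈ V, u e y ≠ 0 → t y 1 ≠ 0 ∧ t y 0 = s e y * t y 1

/-- The open set of the manifold. -/
def Om (e : M.Ch) (V : Set (E n)) : Set M.X := e.source ∩ e ⁻¹' V

theorem Lq.om (L : Lq u s m e V t k) : IsOpen (Om e V) := e.isOpen_inter_preimage L.op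

theorem Lq.mem (L : Lq u s m e V t k) {y : E n} (hy : y ∈ V) : e.symm y ∈ Om e V :=
  ⟨e.map_target (L.sub hy), by rw [mem_preimage, e.right_inv (L.sub hy)]; exact hy⟩

theorem Lq.da (L : Lq u s m e V t k) {y : E n} (hy : y ∈ V) (c : Fin 2) :
    DifferentiableAt ℂ (fun w => t w c) y :=
  differentiableAt_pi.1 (L.dt.differentiableAt (L.op.mem_nhds hy)) c

theorem Lq.ca (L : Lq u s m e V t k) (hx : x ∈ Om e V) (c : Fin 2) :
    ContinuousAt (fun y => t (e y) c) x :=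
  (L.da hx.2 c).continuousAt.comp (f := e) (e.continuousAt hx.1)

theorem rel0 (hu : Hol u) (hd : Den M u)
    (law : M.Ov fun e e' x => u e (e x) ≠ 0 → s e' (e' x) = jd M e e' x ^ a * s e (e x))
    (L : Lq u s m e V t k) (L' : Lq u s m e' V' t' k') : ∃ b : E n → ℂ,
    ∀ x ∈ Om e V ∩ Om e' V', HolN b (e x) ∧ t' (e' x) 1 = b (e x) * t (e x) 1 ∧
      jd M e' e x ^ a * t' (e' x) 0 = b (e x) * t (e x) 0 := by
  have oo := L.om.inter L'.om
  have o := e.isOpen_inter_preimage_symm oo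
  have sb : e.target ∩ e.symm ⁻¹' (Om e V ∩ Om e' V') ⊆ V := fun z hz => by
    have := hz.2.1.2
    rwa [mem_preimage, e.right_inv hz.1] at this
  have pr : ∀ x ∈ Om e V ∩ Om e' V', jd M e' e x ^ a * t' (e' x) 0 * t (e x) 1 =
      t' (e' x) 1 * t (e x) 0 := fun x hx =>
    G72.eq_fr (((G72.cj L'.he L.he hx.2.1 hx.1.1 a).mul (L'.ca hx.2 0)).mul (L.ca hx.1 1))
      ((L'.ca hx.2 1).mul (L.ca hx.1 0))
      (((fr2 hu hd L.he L'.he hx.1.1 hx.2.1).and_eventually (oo.mem_nhds hx)).mono fun y hy => by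
        have h1 := (L.ts _ hy.2.1.2 hy.1.1).2
        have h2 := (L'.ts _ hy.2.2.2 hy.1.2).2
        have h3 := law e' L'.he e L.he y hy.2.2.1 hy.2.1.1 hy.1.2
        simp only [Pi.mul_apply]
        rw [h1, h2, h3]
        ring)
  have dc : ∀ c, ∀ z ∈ e.target ∩ e.symm ⁻¹' (Om e V ∩ Om e' V'),
      DifferentiableAt ℂ (fun y => t' (e' (e.symm y)) c) z := fun c z hz => by
    have := G72.ho_of L'.he L.he hz.2.2.1 hz.2.1.1 (L'.da hz.2.2.2 c)
    rwa [e.right_inv hz.1] at this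
  have dj : ∀ z ∈ e.target ∩ e.symm ⁻¹' (Om e V ∩ Om e' V'),
      DifferentiableAt ℂ (fun y => jd M e' e (e.symm y) ^ a) z := fun z hz => by
    obtain ⟨t1, t2, -, t4, -⟩ := (mTR n M).2.1 e' L'.he e L.he _ hz.2.2.1 hz.2.1.1
    rw [e.right_inv hz.1] at t1 t4
    refine DifferentiableAt.zpow (((mCHN n _ _ t1).2.2.2.2.1.self_of_nhds).congr_of_eventuallyEq
      (t4.mono fun w hw => ?_)) (Or.inl t2)
    exact congrArg Matrix.det hw.2.2.2.2.2.2
  obtain ⟨b, b1, b2⟩ := st_LOC n (Fin 2) V _ t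
    (fun y => ![jd M e' e (e.symm y) ^ a * t' (e' (e.symm y)) 0, t' (e' (e.symm y)) 1]) o sb L.rm
    (L.dt.mono sb) (differentiableOn_pi.2 fun c z hz => by
      fin_cases c
      · exact ((dj z hz).mul (dc 0 z hz)).differentiableWithinAt
      · exact (dc 1 z hz).differentiableWithinAt)
    (fun z hz => ((hd e L.he z hz.1).and_eventually (L.op.mem_nhds (sb hz))).mono fun w hw c =>
      (L.ts w hw.2 hw.1).1 (congrFun c 1))
    fun z hz c d => by
      have := pr _ hz.2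
      rw [e.right_inv hz.1] at this
      fin_cases c <;> fin_cases d
      · rfl
      · exact this
      · exact this.symm
      · rfl
  refine ⟨b, fun x hx => ?_⟩
  have mm : e x ∈ e.target ∩ e.symm ⁻¹' (Om e V ∩ Om e' V') :=
    ⟨e.map_source hx.1.1, by rw [mem_preimage, e.left_inv hx.1.1]; exact hx⟩
  have h := b2 _ mm
  rw [e.left_inv hx.1.1] at h
  exact ⟨(o.eventually_mem mm).mono fun w hw => b1.differentiableAt (o.mem_nhds hw),
    congrFun h 1, congrFun h 0⟩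

/-- Two local quotients differ by a unit. -/
theorem rel (hu : Hol u) (hd : Den M u)
    (law : M.Ov fun e e' x => u e (e x) ≠ 0 → s e' (e' x) = jd M e e' x ^ a * s e (e x))
    (L : Lq u s m e V t k) (L' : Lq u s m e' V' t' k') : ∃ b : E n → ℂ,
    ∀ x ∈ Om e V ∩ Om e' V', HolN b (e x) ∧ b (e x) ≠ 0 ∧ t' (e' x) 1 = b (e x) * t (e x) 1 ∧
      jd M e' e x ^ a * t' (e' x) 0 = b (e x) * t (e x) 0 := by
  obtain ⟨b, hb⟩ := rel0 hu hd law L L'
  obtain ⟨c, hc⟩ := rel0 hu hd law L' L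
  refine ⟨b, fun x hx => ⟨(hb x hx).1, left_ne_zero_of_mul_eq_one (b := c (e' x)) ?_, (hb x hx).2⟩⟩
  refine G72.eq_fr (f := fun y => b (e y) * c (e' y)) (g := fun _ => 1)
    (((hb x hx).1.self_of_nhds.continuousAt.comp (e.continuousAt hx.1.1)).mul
      ((hc x ⟨hx.2, hx.1⟩).1.self_of_nhds.continuousAt.comp (e'.continuousAt hx.2.1)))
    continuousAt_const (((frX hd L.he hx.1.1).and_eventually
      ((L.om.inter L'.om).mem_nhds hx)).mono fun y hy => ?_)
  refine mul_right_cancel₀ (L.ts _ hy.2.1.2 hy.1).1 ?_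
  have h1 := (hb y hy.2).2.1
  have h2 := (hc y ⟨hy.2.2, hy.2.1⟩).2.1
  linear_combination -h2 - c (e' y) * h1

theorem cut_mem (Cv : M.Cov) (c : Fin Cv.r) (h : Cv.χ c x ≠ 0) :
    x ∈ (Cv.e c).symm '' closedBall (Cv.c c) (4 * Cv.ρ c) :=
  ⟨_, ball_subset_closedBall (ball_subset_ball (by linarith [Cv.pos c]) (Cv.supp c x h).2),
    (Cv.e c).left_inv (Cv.supp c x h).1⟩

/-- The product with a cut-off function is smooth. -/
theorem cut [M.Cpt] (Cv : M.Cov) (c : Fin Cv.r) (he : e ∈ M.C) {z : E n} (hz : z ∈ e.target)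
    {f : E n → ℝ}
    (hf : e.symm z ∈ (Cv.e c).symm '' closedBall (Cv.c c) (4 * Cv.ρ c) → ContDiffAt ℝ ∞ f z) :
    ContDiffAt ℝ ∞ (fun w => Cv.χ c (e.symm w) ^ 2 * f w) z := by
  by_cases h : e.symm z ∈ (Cv.e c).symm '' closedBall (Cv.c c) (4 * Cv.ρ c)
  · exact ((Cv.sm c e he z hz).pow 2).mul (hf h)
  have cl := ((isCompact_closedBall (Cv.c c) (4 * Cv.ρ c)).image_of_continuousOn
    ((Cv.e c).continuousOn_symm.mono (Cv.sub c))).isClosed
  refine (contDiffAt_const (c := (0 : ℝ))).congr_of_eventuallyEq ?_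
  filter_upwards [(e.continuousAt_symm hz).eventually (cl.isOpen_compl.mem_nhds h)] with w hw
  rw [by_contra fun k => hw (cut_mem Cv c k), zero_pow two_ne_zero, zero_mul]

theorem cd_nsq {q : E n → ℂ} {z : E n} (h : HolN q z) :
    ContDiffAt ℝ ∞ (fun w => normSq (q w)) z := by
  simp only [Complex.normSq_eq_norm_sq]
  exact ((mHOL n q z).2.2 h).1.norm_sq ℂ

theorem Ld.sm {f g : E n → ℝ} {q : E n → ℂ} {z : E n} (h : Ld f q g z) : ContDiffAt ℝ ∞ f z :=
  ((cd_nsq (h.mono fun w hw => hw.1)).mul h.self_of_nhds.2.1.exp).congr_of_eventuallyEq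
    (h.mono fun w hw => hw.2.2)

theorem Ld.zero {f g : E n → ℝ} {q : E n → ℂ} {z : E n} (h : Ld f q g z) : f z = 0 ↔ q z = 0 := by
  rw [h.self_of_nhds.2.2, mul_eq_zero, normSq_eq_zero, or_iff_left (Real.exp_ne_zero _)]

end Pool.Agent.Lib.F4H.Q13
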