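import Pool.Agent.Lib.F4H.N_DVE
import Pool.Agent.Lib.F4H.Pq13b

/-! Project f4h: the divisors of poles and of zeros of a meromorphic section. -/

open scoped Classical Topology ContDiff ComplexOrder Matrix
open Set Filter Metric Complex

set_option linter.unusedVariables false
set_option linter.unusedSectionVars false

noncomputable section

namespace Pool.Agent.Lib.F4H.Q13

open Pool.Agent.Lib.SV (E)
open Pool.Agent.Lib.HS32 Pool.Agent.Lib.HLK Pool.Agent.Lib.F4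

variable {n : ℕ} {M : Mf n} {ι : Type} [Fintype ι] {u : M.Fam (ι → ℂ)} {s : M.Fam ℂ} {a : ℤ}
  {m : ℕ} {H : M.Fam (Mat n)}

/-- The two squared norms. -/
theorem glob [M.Cpt] (hH : M.Met H) (hu : Hol u) (hd : Den M u)
    (law : M.Ov fun e e' x => u e (e x) ≠ 0 → s e' (e' x) = jd M e e' x ^ a * s e (e x))
    (pol : ∀ e ∈ M.C, ∀ i, ∃ g : E n → ℂ, DifferentiableOn ℂ g e.target ∧
      ∀ z ∈ e.target, u e z ≠ 0 → g z = s e z * u e z i ^ m) :
    ∃ σ π : M.X → ℝ, M.All fun e z => ∃ V t k, ∃ g : E n → ℝ, Lq u s m e V t k ∧ z ∈ V ∧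
      ∀ y ∈ V, Ld (fun w => σ (e.symm w)) (fun w => t w 1) g y ∧
        Ld (fun w => π (e.symm w)) (fun w => t w 0) (fun w => g w - a * ph M H e w) y := by
  have ex : ∀ i : {p : M.Ch × E n // p.1 ∈ M.C ∧ p.2 ∈ p.1.target},
      ∃ V t k, Lq u s m i.1.1 V t k ∧ i.1.2 ∈ V := fun i => by
    choose h h1 h2 using pol _ i.2.1
    obtain ⟨V, t, k, v1, v2, v3, v4, v5, v6, v7, v8, v9⟩ := loc (h := fun y c => h c y)
      (s := s i.1.1) (m := m) i.1.1.open_target i.2.2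
      (fun z hz => (differentiableAt_pi.2 fun c =>
        (hu _ i.2.1 z hz c).self_of_nhds).differentiableWithinAt)
      (differentiableOn_pi.2 h1) (hd _ i.2.1 _ i.2.2) fun y hy k c => h2 c y hy k
    exact ⟨V, t, k, ⟨i.2.1, v1, v3, v4, v5, v6, v7, v8, v9⟩, v2⟩
  choose V t k L mem using ex
  choose b hb using fun i j => rel hu hd law (L i) (L j)
  obtain ⟨Cv, hC⟩ := (mCOV n M).2.1 M.C
    (fun x => Om (M.ch x) (V ⟨(M.ch x, M.ch x x), Mf.ch_mem x, Mf.ch_tgt x⟩)) Mf.sub_all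
    fun x => (L ⟨(M.ch x, M.ch x x), Mf.ch_mem x, Mf.ch_tgt x⟩).om.mem_nhds ⟨Mf.mem_ch x, mem _⟩
  have exj : ∀ c, ∃ j : {p : M.Ch × E n // p.1 ∈ M.C ∧ p.2 ∈ p.1.target},
      (Cv.e c).symm '' closedBall (Cv.c c) (4 * Cv.ρ c) ⊆ Om j.1.1 (V j) := fun c => by
    obtain ⟨-, x, hx⟩ := hC c
    exact ⟨⟨(M.ch x, M.ch x x), Mf.ch_mem x, Mf.ch_tgt x⟩, hx⟩
  choose j hj using exj
  have wt : M.Wt 1 (ph M H) := (mINV n M H hH).2.2.2.2.2.2.1
  refine ⟨fun x => ∑ c, Cv.χ c x ^ 2 * normSq (t (j c) ((j c).1.1 x) 1),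
    fun x => ∑ c, Cv.χ c x ^ 2 * (normSq (t (j c) ((j c).1.1 x) 0) *
      Real.exp (-(a * ph M H (j c).1.1 ((j c).1.1 x)))), fun e he z hz => ?_⟩
  set i : {p : M.Ch × E n // p.1 ∈ M.C ∧ p.2 ∈ p.1.target} := ⟨(e, z), he, hz⟩ with hi
  have Li : Lq u s m e (V i) (t i) (k i) := L i
  set G : E n → ℝ := fun y => ∑ c, Cv.χ c (e.symm y) ^ 2 * normSq (b i (j c) y) with hG
  have hb' : ∀ y ∈ V i, ∀ c, e.symm y ∈ (Cv.e c).symm '' closedBall (Cv.c c) (4 * Cv.ρ c) →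
      HolN (b i (j c)) y ∧ b i (j c) y ≠ 0 ∧
      t (j c) ((j c).1.1 (e.symm y)) 1 = b i (j c) y * t i y 1 ∧
      jd M (j c).1.1 e (e.symm y) ^ a * t (j c) ((j c).1.1 (e.symm y)) 0 =
        b i (j c) y * t i y 0 := fun y hy c hc => by
    have := hb i (j c) _ ⟨Li.mem hy, hj c hc⟩
    rwa [show i.1.1 (e.symm y) = y from e.right_inv (Li.sub hy)] at this
  have G0 : ∀ y ∈ V i, 0 < G y := fun y hy => by
    obtain ⟨c, -, -, h⟩ := Cv.cov (e.symm y)
    exact Finset.sum_pos' (fun d _ => mul_nonneg (sq_nonneg _) (normSq_nonneg _))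
      ⟨c, Finset.mem_univ c, mul_pos (pow_pos h 2)
        (normSq_pos.2 (hb' y hy c (cut_mem Cv c h.ne')).2.1)⟩
  have Gs : ∀ y ∈ V i, ContDiffAt ℝ ∞ (fun w => Real.log (G w)) y := fun y hy =>
    (ContDiffAt.sum fun c _ => cut Cv c he (Li.sub hy) fun hc => cd_nsq (hb' y hy c hc).1).log
      (G0 y hy).ne'
  refine ⟨V i, t i, k i, fun w => Real.log (G w), Li, mem i, fun y hy => ⟨?_, ?_⟩⟩
  · filter_upwards [Li.op.mem_nhds hy] with w hw
    refine ⟨Li.da hw 1, Gs w hw, ?_⟩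
    rw [Real.exp_log (G0 w hw), hG, Finset.mul_sum]
    refine Finset.sum_congr rfl fun c _ => ?_
    by_cases h : Cv.χ c (e.symm w) = 0
    · simp [h]
    · rw [(hb' w hw c (cut_mem Cv c h)).2.2.1, map_mul]
      ring
  · filter_upwards [Li.op.mem_nhds hy] with w hw
    refine ⟨Li.da hw 0, (Gs w hw).sub (contDiffAt_const.mul (wt.sm e he w (Li.sub hw))), ?_⟩
    rw [Real.exp_sub, Real.exp_log (G0 w hw), hG, Finset.sum_div, Finset.mul_sum]
    refine Finset.sum_congr rfl fun c _ => ?_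
    by_cases h : Cv.χ c (e.symm w) = 0
    · simp [h]
    have hc := cut_mem Cv c h
    have h1 := congrArg normSq (hb' w hw c hc).2.2.2
    have h2 := wt.cmp _ (j c).2.1 e he _ (hj c hc).1 (e.map_target (Li.sub hw))
    have h3 : 0 < normSq (jd M (j c).1.1 e (e.symm w)) := normSq_pos.2
      ((mTR n M).2.1 _ (j c).2.1 e he _ (hj c hc).1 (e.map_target (Li.sub hw))).2.1
    beta_reduce at h2
    rw [e.right_inv (Li.sub hw), one_mul] at h2
    rw [map_mul, map_mul, map_zpow₀] at h1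
    rw [h2, mul_add, Real.exp_add, mul_comm (a : ℝ) (Real.log _), ← Real.rpow_def_of_pos h3,
      Real.rpow_intCast, Real.exp_neg]
    have h4 := (zpow_pos h3 a).ne'
    field_simp
    linear_combination h1

/-- Without poles the section extends. -/
theorem ext (hu : Hol u) (hd : Den M u)
    (law : M.Ov fun e e' x => u e (e x) ≠ 0 → s e' (e' x) = jd M e e' x ^ a * s e (e x))
    (hl : M.All fun e z => ∃ G : E n → ℂ,
      ∀ᶠ y in 𝓝 z, DifferentiableAt ℂ G y ∧ (u e y ≠ 0 → G y = s e y)) :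
    ∃ t, H0 M a t ∧ M.All fun e z => u e z ≠ 0 → t e z = s e z := by
  have ex : ∀ e : M.Ch, ∃ g : E n → ℂ, e ∈ M.C → DifferentiableOn ℂ g e.target ∧
      EqOn g (s e) (e.target \ {z | u e z = 0}) := fun e => by
    by_cases he : e ∈ M.C
    · obtain ⟨g, hg⟩ := G72.glue (Z := {z | u e z = 0}) e.open_target (hd e he) (hl e he)
      exact ⟨g, fun _ => hg⟩
    · exact ⟨0, fun h => (he h).elim⟩
  choose g hg using ex
  have c : ∀ e ∈ M.C, ∀ x ∈ e.source, ContinuousAt (fun y => g e (e y)) x := fun e he x hx =>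
    ((hg e he).1.continuousOn.continuousAt (e.open_target.mem_nhds (e.map_source hx))).comp
      (e.continuousAt hx)
  refine ⟨g, ⟨fun e he z hz => (e.open_target.eventually_mem hz).mono fun w hw =>
    (hg e he).1.differentiableAt (e.open_target.mem_nhds hw), fun e he e' he' x hx hx' => ?_⟩,
    fun e he z hz h => (hg e he).2 ⟨hz, h⟩⟩
  refine G72.eq_fr (f := fun y => g e' (e' y)) (g := fun y => jd M e e' y ^ a * g e (e y))
    (c e' he' x hx') ((G72.cj he he' hx hx' a).mul (c e he x hx))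
    (((fr2 hu hd he he' hx hx').and_eventually ((e.open_source.eventually_mem hx).and
      (e'.open_source.eventually_mem hx'))).mono fun y hy => ?_)
  rw [(hg e he).2 ⟨e.map_source hy.2.1, hy.1.1⟩, (hg e' he').2 ⟨e'.map_source hy.2.2, hy.1.2⟩]
  exact law e he e' he' y hy.2.1 hy.2.2 hy.1.1

/-- The section extends, or it has a divisor of poles and a divisor of zeros. -/
theorem pq (M : Mf n) [M.Cpt] {H : M.Fam (Mat n)} {u : M.Fam (ι → ℂ)} {s : M.Fam ℂ}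
    (hH : M.Met H) (hu : Hol u) (hd : Den M u)
    (law : M.Ov fun e e' x => u e (e x) ≠ 0 → s e' (e' x) = jd M e e' x ^ a * s e (e x))
    (pol : ∀ e ∈ M.C, ∀ i, ∃ g : E n → ℂ, DifferentiableOn ℂ g e.target ∧
      ∀ z ∈ e.target, u e z ≠ 0 → g z = s e z * u e z i ^ m) :
    (∃ t, H0 M a t ∧ M.All fun e z => u e z ≠ 0 → t e z = s e z) ∨
    ∃ (σ π : M.X → ℝ) (Θ : M.Fam (Mat n)), Dv M σ Θ ∧ Dv M π (Θ + (a : ℝ) • (-M.ric H)) ∧
      (∃ x, σ x = 0) ∧
      (M.All fun e z => ∃ C : ℝ, ∀ᶠ w in 𝓝 z, ‖u e w‖ ^ (2 * m) ≤ C * σ (e.symm w)) ∧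
      M.All fun e z => ∃ (V : Set (E n)) (t : E n → Fin 2 → ℂ), IsOpen V ∧ z ∈ V ∧
        V ⊆ e.target ∧ DifferentiableOn ℂ t V ∧ G72.Rm V {y | t y = 0} ∧
        (∃ᶠ y in 𝓝 z, t y ≠ 0) ∧
        ∀ y ∈ V, (σ (e.symm y) = 0 ∧ π (e.symm y) = 0 ↔ t y = 0) := by
  obtain ⟨σ, π, h⟩ := glob hH hu hd law pol
  have wt : M.Wt 1 (ph M H) := (mINV n M H hH).2.2.2.2.2.2.1
  by_cases h0 : ∃ x, σ x = 0
  swap
  · refine Or.inl (ext hu hd law fun e he z hz => ?_)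
    obtain ⟨V, t, k, g, L, zV, l⟩ := h e he z hz
    refine ⟨fun y => t y 0 * (t y 1)⁻¹, (L.op.eventually_mem zV).mono fun y hy => ?_⟩
    have n1 : t y 1 ≠ 0 := fun c => h0 ⟨_, (l y hy).1.zero.2 c⟩
    refine ⟨(L.da hy 0).fun_mul ((L.da hy 1).fun_inv n1), fun c => ?_⟩
    beta_reduce
    rw [(L.ts y hy c).2, mul_inv_cancel_right₀ n1]
  have cl : IsClopen {x | ∀ᶠ y in 𝓝 x, π y = 0} := by
    refine ⟨isClosed_iff_frequently.2 fun x hx => ?_, isOpen_setOfPred_eventually_nhds⟩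
    obtain ⟨V, t, k, g, L, zV, l⟩ := h _ (Mf.ch_mem x) _ (Mf.ch_tgt x)
    have xm : x ∈ Om (M.ch x) V := ⟨Mf.mem_ch x, zV⟩
    obtain ⟨y, y1, y2⟩ := (hx.and_eventually (L.om.mem_nhds xm)).exists
    have ct := (M.ch x).continuousAt_symm ((M.ch x).map_source y2.1)
    rw [ContinuousAt, (M.ch x).left_inv y2.1] at ct
    have z0 : (fun w => t w 0) =ᶠ[𝓝 (M.ch x y)] 0 := by
      filter_upwards [ct.eventually y1, L.op.mem_nhds y2.2] with w w1 w2
      exact (l w w2).2.zero.1 w1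
    filter_upwards [L.om.mem_nhds xm] with w hw
    have := (l _ hw.2).2.zero.2 (SV.H85.eq_zero_of_convex L.op L.cv
      (differentiableOn_pi.1 L.dt 0) y2.2 z0 hw.2)
    rwa [(M.ch x).left_inv hw.1] at this
  rcases isClopen_iff.1 cl with c | c
  swap
  · refine Or.inl (ext hu hd law fun e he z hz => ?_)
    obtain ⟨V, t, k, g, L, zV, l⟩ := h e he z hz
    refine ⟨fun _ => 0, (L.op.eventually_mem zV).mono fun y hy =>
      ⟨differentiableAt_const _, fun k => ?_⟩⟩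
    have p0 : π (e.symm y) = 0 := (eq_univ_iff_forall.1 c (e.symm y)).self_of_nhds
    have := (L.ts y hy k).2
    rw [(l y hy).2.zero.1 p0] at this
    exact ((mul_eq_zero.1 this.symm).resolve_right (L.ts y hy k).1).symm
  have fp : M.All fun e z => ∃ᶠ w in 𝓝 z, π (e.symm w) ≠ 0 := fun e he z hz => by
    have : ∃ᶠ y in 𝓝 (e.symm z), π y ≠ 0 :=
      not_eventually.1 (eq_empty_iff_forall_notMem.1 c (e.symm z))
    rwa [← e.symm.map_nhds_eq hz, frequently_map] at this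
  have f1 : ∀ {e V t k z}, Lq u s m e V t k → z ∈ V → ∃ᶠ w in 𝓝 z, t w 1 ≠ 0 :=
    fun {e V t k z} L zV => ((hd e L.he z (L.sub zV)).and_eventually (L.op.mem_nhds zV)).mono
      fun w hw => (L.ts w hw.2 hw.1).1
  obtain ⟨Θ, hΘ⟩ := st_DVE n M σ (fun e he z hz => by
    obtain ⟨V, t, k, g, L, zV, l⟩ := h e he z hz
    exact (l z zV).1.sm) fun x => by
    obtain ⟨V, t, k, g, L, zV, l⟩ := h _ (Mf.ch_mem x) _ (Mf.ch_tgt x)
    exact ⟨_, Mf.ch_mem x, Mf.mem_ch x, _, _, f1 L zV, (l _ zV).1⟩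
  refine Or.inr ⟨σ, π, Θ, hΘ, ⟨fun e he z hz => ?_, fun x => ?_,
    hΘ.clo.add (((mHES n M).2.2.2.2.2.2.2.2.1 H hH).neg.smul a), fun e he z hz q g _ lq => ?_⟩, h0,
    fun e he z hz => ?_, fun e he z hz => ?_⟩
  · obtain ⟨V, t, k, g, L, zV, l⟩ := h e he z hz
    exact (l z zV).2.sm
  · obtain ⟨V, t, k, g, L, zV, l⟩ := h _ (Mf.ch_mem x) _ (Mf.ch_tgt x)
    exact ⟨_, Mf.ch_mem x, Mf.mem_ch x, _, _, ((fp.ch x).and_eventually (L.op.mem_nhds zV)).mono
      fun w hw k => hw.1 ((l w hw.2).2.zero.2 k), (l _ zV).2⟩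
  · obtain ⟨V, t, k, g', L, zV, l⟩ := h e he z hz
    have s1 := cd_ofReal (l z zV).1.self_of_nhds.2.1
    have s2 := cd_ofReal (wt.sm e he z hz)
    rw [Ld.uniq lq (l z zV).2 (fp e he z hz), Pi.add_apply, Pi.add_apply,
      hΘ.eq e he z hz _ _ (f1 L zV) (l z zV).1]
    simp only [Complex.ofReal_sub, Complex.ofReal_mul]
    rw [hess_sub s1 (contDiffAt_const.mul s2), hess_const_mul _ s2, neg_sub, add_comm,
      sub_eq_add_neg]
    congr 1
    ext i j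
    simp only [Pi.smul_apply, Pi.neg_apply, Mf.ric, neg_neg, Matrix.smul_apply, real_smul,
      smul_eq_mul]
    rfl
  · obtain ⟨V, t, k, g, L, zV, l⟩ := h e he z hz
    obtain ⟨w₀, hw₀⟩ := (hd e he z hz).exists
    have : Nonempty ι := (Function.ne_iff.1 hw₀).nonempty
    have ck : ContinuousAt (fun w => ‖k w‖ ^ 2 * Real.exp (-g w)) z :=
      ((L.dk.continuousOn.continuousAt (L.op.mem_nhds zV)).norm.pow 2).mul
        (l z zV).1.self_of_nhds.2.1.continuousAt.neg.rexp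
    refine ⟨‖k z‖ ^ 2 * Real.exp (-g z) + 1, ((ck.eventually_lt_const (lt_add_one _)).and
      (L.op.eventually_mem zV)).mono fun w hw => ?_⟩
    obtain ⟨i, hi⟩ := (IsGreatest.pi_norm (u e w)).1
    have e1 : ‖u e w‖ ^ m = ‖t w 1‖ * ‖k w i‖ := by
      rw [← hi, ← norm_pow, L.uk w hw.2 i, norm_mul]
    have e2 : Real.exp (-g w) * Real.exp (g w) = 1 := by rw [← Real.exp_add]; simp
    have e0 : σ (e.symm w) = normSq (t w 1) * Real.exp (g w) := (l w hw.2).1.self_of_nhds.2.2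
    rw [e0, pow_mul', e1, Complex.normSq_eq_norm_sq]
    refine le_trans ?_ (mul_le_mul_of_nonneg_right hw.1.le (by positivity))
    have e3 : ‖k w i‖ ^ 2 ≤ ‖k w‖ ^ 2 := pow_le_pow_left₀ (norm_nonneg _) (norm_le_pi_norm _ i) 2
    calc _ = ‖k w i‖ ^ 2 * ‖t w 1‖ ^ 2 := by ring
      _ ≤ ‖k w‖ ^ 2 * ‖t w 1‖ ^ 2 := mul_le_mul_of_nonneg_right e3 (by positivity)
      _ = _ := by linear_combination -(‖k w‖ ^ 2 * ‖t w 1‖ ^ 2) * e2
  · obtain ⟨V, t, k, g, L, zV, l⟩ := h e he z hz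
    refine ⟨V, t, L.op, zV, L.sub, L.dt, L.rm, (f1 L zV).mono fun w hw c => hw (congrFun c 1),
      fun y hy => ?_⟩
    rw [(l y hy).1.zero, (l y hy).2.zero]
    refine ⟨fun c => funext fun d => ?_, fun c => ⟨congrFun c 1, congrFun c 0⟩⟩
    fin_cases d
    · exact c.2
    · exact c.1

end Pool.Agent.Lib.F4H.Q13
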