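import Pool.Agent.Lib.F4H.Qd35
import Pool.Agent.Lib.F4H.N_NUMD
import Pool.Agent.Lib.F4H.Pq13
import Pool.Agent.Lib.F4H.B_MASS
import Pool.Agent.Lib.F4H.B_N1

/-! Project f4h: the rule of division. -/

open scoped Classical Topology ContDiff ComplexOrder Matrix
open Set MeasureTheory Filter Metric

noncomputable section

namespace Pool.Agent.Lib.F4H

namespace N35

open Pool.Agent.Lib.SV (E)
open Pool.Agent.Lib.HS32 Pool.Agent.Lib.F4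

theorem cz_of {n : ℕ} {M : Mf n} {σ π : M.X → ℝ}
    (h : M.All fun e z => ∃ (V : Set (E n)) (t : E n → Fin 2 → ℂ), IsOpen V ∧ z ∈ V ∧
      V ⊆ e.target ∧ DifferentiableOn ℂ t V ∧ G72.Rm V {y | t y = 0} ∧
      (∃ᶠ y in 𝓝 z, t y ≠ 0) ∧ ∀ y ∈ V, (σ (e.symm y) = 0 ∧ π (e.symm y) = 0 ↔ t y = 0)) :
    Cz M σ π := fun x => by
  obtain ⟨V, t, v1, v2, v3, v4, v5, v6, v7⟩ := Mf.AllOn.ch h x
  have k : ∀ y, (t y 0, t y 1) = 0 ↔ t y = 0 := fun y => by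
    simp only [Prod.mk_eq_zero, funext_iff, Fin.forall_fin_two, Pi.zero_apply]
  refine ⟨_, Mf.ch_mem x, Mf.mem_ch x, V, fun y => (t y 0, t y 1), v1, v2, v3,
    (differentiableOn_pi.1 v4 0).prodMk (differentiableOn_pi.1 v4 1), ?_,
    v6.mono fun y hy c => hy ((k y).1 c), fun y hy a b => (k y).2 ((v7 y hy).1 ⟨a, b⟩)⟩
  simpa only [k] using v5

theorem st_PQ : St_PQ := fun _ M _ _ _ _ _ _ _ _ hH hu hd _ _ law pol =>
  (Q13.pq M hH hu hd law pol).imp_right fun ⟨σ, π, Θ, a1, a2, a3, a4, a5⟩ =>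
    ⟨σ, π, Θ, a1, a2, a3, a4, cz_of a5⟩

end N35

theorem st_RUL : St_RUL :=
  N35.rul_of HS21.st_AUBIN N35.st_QD M45.st_MASS N35.st_PQ N75.st_N1 st_NUMD

end Pool.Agent.Lib.F4H
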