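import Pool.Agent.Lib.KT.B_KIT
import Pool.Agent.Lib.F4.A_OS
import Pool.Agent.Lib.F4.A_PT1
import Pool.Agent.Lib.F4H.Defs

/-! Project f4h: the inequality of Bochner for the logarithm of the norm of a twisted tensor. -/

open scoped Classical Topology ContDiff ComplexOrder Matrix
open Set Complex Metric Filter

set_option linter.unusedVariables false

noncomputable section

namespace Pool.Agent.Lib.F4H

namespace B90

open Pool.Agent.Lib.SV (E)
open Pool.Agent.Lib.HS32 Pool.Agent.Lib.HS32.Mf Pool.Agent.Lib.HLK Pool.Agent.Lib.F4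
open Pool.Agent.Lib.RAA Pool.Agent.Lib.RAA.A4
open Pool.Agent.Lib.DM (uv trm)

variable {n : ℕ}

/-- The norm of `u` for every Kaehler metric with `Ric >= -G` has a logarithm with Laplacian at
least `-B`. -/
def Bc (M : Mf n) {F : Type} [NormedAddCommGroup F] (B : ℝ) (u : M.Fam F) : Prop :=
  ∀ G, M.Kae G → M.Le (-G) (M.ric G) → ∃ V : M.X → ℝ, M.Sm V ∧ (∀ x, 0 ≤ V x) ∧
    (M.All fun e z => V (e.symm z) = 0 ↔ u e z = 0) ∧
    (∀ x, V x ≠ 0 → -B ≤ M.lap G (fun y => Real.log (V y)) x) ∧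
    M.All fun e z => ∃ C > (0 : ℝ), ∀ᶠ w in 𝓝 z,
      V (e.symm w) ≤ C * ‖u e w‖ ^ 2 ∧ ‖u e w‖ ^ 2 ≤ C * V (e.symm w)

variable {M : Mf n}

theorem Bc.mono {F : Type} [NormedAddCommGroup F] {B B' : ℝ} {u : M.Fam F} (h : Bc M B u)
    (hB : B ≤ B') : Bc M B' u := fun G hG hr => by
  obtain ⟨V, a, b, c, d, f⟩ := h G hG hr
  exact ⟨V, a, b, c, fun x hx => (neg_le_neg hB).trans (d x hx), f⟩

theorem Bc.of_norm {F F' : Type} [NormedAddCommGroup F] [NormedAddCommGroup F'] {B : ℝ}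
    {u : M.Fam F} {v : M.Fam F'} (h : Bc M B u) (e1 : M.All fun e z => ‖u e z‖ = ‖v e z‖) :
    Bc M B v := fun G hG hr => by
  obtain ⟨V, a, b, c, d, f⟩ := h G hG hr
  refine ⟨V, a, b, fun e he z hz => ?_, d, fun e he z hz => ?_⟩
  · have := e1 e he z hz
    beta_reduce at this ⊢
    refine (c e he z hz).trans ?_
    rw [← norm_eq_zero, this, norm_eq_zero]
  · obtain ⟨C, C0, k⟩ := f e he z hz
    exact ⟨C, C0, (k.and (e1.ev he hz)).mono fun w hw => hw.2 ▸ hw.1⟩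

theorem glue {F : Type} [NormedAddCommGroup F] {B : ℝ} {u : M.Fam F}
    (h : ∀ G, M.Kae G → M.Le (-G) (M.ric G) → ∃ Φ : M.Fam ℝ, M.Inv Φ ∧ M.All fun e z =>
      ContDiffAt ℝ ∞ (Φ e) z ∧ 0 ≤ Φ e z ∧ (Φ e z = 0 ↔ u e z = 0) ∧
      (u e z ≠ 0 → -B ≤ trm (G e z) (hl (Φ e) z)) ∧
      ∃ C > (0 : ℝ), ∀ᶠ w in 𝓝 z, Φ e w ≤ C * ‖u e w‖ ^ 2 ∧ ‖u e w‖ ^ 2 ≤ C * Φ e w) :
    Bc M B u := fun G hG hr => by
  obtain ⟨Φ, i, k⟩ := h G hG hr
  refine ⟨M.ev Φ, i.sm fun e he z hz => (k e he z hz).1, fun x => (k.ch x).2.1,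
    fun e he z hz => ?_, fun x hx => ?_, fun e he z hz => ?_⟩
  · beta_reduce
    rw [i.rep e he z hz]
    exact (k e he z hz).2.2.1
  · have e1 : M.lc (fun y => Real.log (M.ev Φ y)) (M.ch x) =ᶠ[𝓝 (M.ch x x)]
        fun w => ((Real.log (Φ (M.ch x) w) : ℝ) : ℂ) :=
      (AllOn.ev i.rep (ch_mem x) (ch_tgt x)).mono fun w hw => by
        simp only [Mf.lc]
        rw [hw]
    have := (k.ch x).2.2.2.1 fun c => hx ((k.ch x).2.2.1.2 c)
    rwa [hl, ← hess_congr e1] at this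
  · obtain ⟨C, C0, a⟩ := (k e he z hz).2.2.2.2
    refine ⟨C, C0, (a.and (AllOn.ev i.rep he hz)).mono fun w hw => ?_⟩
    have := hw.2
    beta_reduce at this ⊢
    rw [this]
    exact hw.1

theorem bd (N B : ℕ) {A T : E n → Mat n} {z : E n} (cA : SmM A z) (pA : (A z).PosDef)
    (cT : SmM T z) (pT : (T z).PosDef) : ∃ C > (0 : ℝ), ∀ᶠ w in 𝓝 z, ∀ v : (Fin N → Fin n) → ℂ,
      hq (kp N (A w)) v / (T w).det.re ^ B ≤ C * ‖v‖ ^ 2 ∧
        ‖v‖ ^ 2 ≤ C * (hq (kp N (A w)) v / (T w).det.re ^ B) :=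
  KT.KIT.quad (y := z) (q := fun w (v : (Fin N → Fin n) → ℂ) => hq (kp N (A w)) v / (T w).det.re ^ B)
    (fun v => ((KT.KIT.cq N).continuousAt.comp (((KT.KIT.cM cA).comp_of_eq continuousAt_fst
      rfl).prodMk continuousAt_snd)).div (((KT.KIT.cdet cT).comp_of_eq continuousAt_fst
        rfl).pow B) (pow_pos (pd_det_re pT) B).ne')
    (fun w r v => by
      rw [← Complex.coe_smul, DM.NRM.hq_smul, normSq_ofReal, mul_div_assoc, sq])
    fun v hv => div_pos ((((st_KQ N (Fin n) (Fin n) (Fin n)).2.2.2.2.1 _).2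
      fun _ => pA).re_dotProduct_pos hv) (pow_pos (pd_det_re pT) B)

theorem ric_psd {G : M.Fam (Mat n)} (hr : M.Le (-G) (M.ric G)) :
    M.All fun e z => (G e z - hess (ld (G e)) z).PosSemidef := fun e he z hz => by
  have := hr e he z hz
  simp only [Mf.ric, Pi.neg_apply, sub_neg_eq_add] at this
  rwa [neg_add_eq_sub] at this

/-- Contravariant tensors. -/
theorem con (N B : ℕ) (hB : N ≤ B) {s : M.Fam ((Fin N → Fin n) → ℂ)} (hs : Hol s)
    (law : M.Ov fun e e' x =>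
      (M.J e e' x).det ^ B • s e (e x) = kp N (M.J e e' x) *ᵥ s e' (e' x)) :
    Bc M (B * n) s := by
  refine glue fun G hG hr => ⟨fun e => uv N B (G e) (s e), fun e he e' he' x hx hx' =>
    DM.NRM.uv_eq _ _ _ _ _ _ _ _ _ ((mTR n M).2.1 e he e' he' x hx hx').2.1
      (hG.cmp e he e' he' x hx hx') (law e he e' he' x hx hx'), fun e he z hz => ?_⟩
  have h : HolN (s e) z :=
    (eventually_all.2 (hs e he z hz)).mono fun _ h => differentiableAt_pi.2 h
  obtain ⟨a, b, c, d⟩ := (DM.dCRV n N B).1 (G e) (s e) z ((hG.sm.ev he hz).and (hG.pos.ev he hz)) h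
  obtain ⟨C, C0, k⟩ := bd N B (hG.sm e he z hz) (hG.pos e he z hz) (hG.sm e he z hz)
    (hG.pos e he z hz)
  exact ⟨a, b, c, d hB (hG.cl.ev he hz) (ric_psd hr e he z hz), C, C0, k.mono fun w hw => hw _⟩

/-- The squared norm of a covariant tensor with values in a power of the canonical bundle. -/
def uc (N B : ℕ) (T : E n → Mat n) (s : E n → (Fin N → Fin n) → ℂ) (z : E n) : ℝ :=
  A4.un N T s z / (T z).det.re ^ B

theorem uc_eq (N B : ℕ) (T T' : E n → Mat n) (s s' : E n → (Fin N → Fin n) → ℂ)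
    (z z' : E n) (J : Mat n) (hJ : J.det ≠ 0) (hT : T' z' = Jᴴ * T z * J)
    (hs : s' z' = J.det ^ B • kp N Jᵀ *ᵥ s z) : uc N B T' s' z' = uc N B T s z := by
  have u1 : IsUnit (Jᵀ).det := by rw [Matrix.det_transpose]; exact hJ.isUnit
  have u2 : IsUnit ((Jᵀ)ᴴ).det := by rw [Matrix.det_conjTranspose]; exact u1.star
  have e : dm T z = (Jᵀ)ᴴ * dm T' z' * Jᵀ := by
    have e0 : (Jᴴ)ᵀ = (Jᵀ)ᴴ := rfl
    rw [dm, dm, hT, Matrix.transpose_mul, Matrix.transpose_mul, Matrix.mul_inv_rev,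
      Matrix.mul_inv_rev, e0, Matrix.mul_assoc, Matrix.mul_assoc, Matrix.nonsing_inv_mul _ u1,
      Matrix.mul_one, ← Matrix.mul_assoc, Matrix.mul_nonsing_inv _ u2, Matrix.one_mul]
  unfold uc A4.un
  rw [e, DM.NRM.kp_conj, DM.NRM.hq_conj, hs, DM.NRM.hq_smul, hT, DM.NRM.det_conj, mul_pow, map_pow]
  have h : normSq J.det ^ B ≠ 0 := pow_ne_zero _ (by simpa using hJ)
  rw [mul_div_mul_left _ _ h]

theorem uc_tr {N : ℕ} (B : ℕ) {T : E n → Mat n} {z : E n} {s : E n → (Fin N → Fin n) → ℂ}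
    (h : Ok T z) (hc : ∀ᶠ w in 𝓝 z, ClM T w) (hs : HolN s z) (hz : s z ≠ 0)
    (hr : (T z - hess (ld T) z).PosSemidef) :
    -((N : ℝ) + B * n) ≤ trm (T z) (hl (uc N B T s) z) := by
  have p0 := h.pos
  obtain ⟨a, b, c, d⟩ := A4.main.1 n N T s z h
  have u := a fun K => ((mHOL n _ z).2.2 (hol_cd hs K)).1
  have p : 0 < A4.un N T s z := b.lt_of_ne' fun k => hz (c.1 k)
  have c0 := (mCOF n T z h.1).2.2.2.2.2 h.2
  have e : (fun w => ((Real.log (uc N B T s w) : ℝ) : ℂ)) =ᶠ[𝓝 z]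
      fun w => ((Real.log (A4.un N T s w) : ℝ) : ℂ) - ((B : ℝ) : ℂ) * ld T w := by
    filter_upwards [h.2, u.continuousAt.eventually_ne p.ne'] with w h1 h2
    rw [uc, Real.log_div h2 (pow_ne_zero B (pd_det_re h1).ne'), Real.log_pow, ld, ofReal_sub,
      ofReal_mul]
  have sp : hl (uc N B T s) z = hl (A4.un N T s) z - (B : ℝ) • hess (ld T) z := by
    rw [hl, hess_congr e, hess_sub (cd_ofReal (u.log p.ne')) (contDiffAt_const.mul c0.1),
      hess_const_mul _ c0.1, BLAP.rs]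
    rfl
  have t0 := HS76.tr_nonneg p0 hr
  rw [Matrix.mul_sub, Matrix.nonsing_inv_mul _ (pd_det_ne p0).isUnit, Matrix.trace_sub,
    sub_re, Matrix.trace_one, Fintype.card_fin, natCast_re] at t0
  have t1 := d hc hs hz hr
  have e7 : (T z).adjugate = (T z).det.re • (T z)⁻¹ := by
    rw [BLAP.rs, herm_det p0.1, Matrix.inv_def, smul_smul, Ring.mul_inverse_cancel _
      (pd_det_ne p0).isUnit, one_smul]
  rw [tp, e7, Matrix.smul_mul, Matrix.trace_smul, real_smul, re_ofReal_mul] at t1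
  have t2 : -(N : ℝ) ≤ ((T z)⁻¹ * hl (A4.un N T s) z).trace.re :=
    le_of_mul_le_mul_left (by linarith) (pd_det_re p0)
  rw [sp, trm, Matrix.mul_sub, Matrix.trace_sub, sub_re, Matrix.mul_smul, Matrix.trace_smul,
    real_smul, re_ofReal_mul]
  nlinarith [mul_nonneg (Nat.cast_nonneg B : (0 : ℝ) ≤ B) t0]

/-- Covariant tensors. -/
theorem cov (N B : ℕ) {s : M.Fam ((Fin N → Fin n) → ℂ)} (hs : Hol s)
    (law : M.Ov fun e e' x =>
      s e' (e' x) = (M.J e e' x).det ^ B • kp N (M.J e e' x)ᵀ *ᵥ s e (e x)) :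
    Bc M (N + B * n) s := by
  refine glue fun G hG hr => ⟨fun e => uc N B (G e) (s e), fun e he e' he' x hx hx' =>
    uc_eq _ _ _ _ _ _ _ _ _ ((mTR n M).2.1 e he e' he' x hx hx').2.1
      (hG.cmp e he e' he' x hx hx') (law e he e' he' x hx hx'), fun e he z hz => ?_⟩
  have h : HolN (s e) z :=
    (eventually_all.2 (hs e he z hz)).mono fun _ h => differentiableAt_pi.2 h
  have k : Ok (G e) z := ⟨hG.sm e he z hz, hG.pos.ev he hz⟩
  obtain ⟨a, b, c, -⟩ := A4.main.1 n N (G e) (s e) z k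
  have d := pow_pos (pd_det_re k.pos) B
  obtain ⟨C, C0, q⟩ := bd N B (dm_ok k).1 (dm_ok k).pos k.1 k.pos
  refine ⟨(a fun K => ((mHOL n _ z).2.2 (hol_cd h K)).1).div ((cd_re k.1.det).pow B) d.ne',
    div_nonneg b d.le, ?_, fun h0 => uc_tr B k (hG.cl.ev he hz) h h0 (ric_psd hr e he z hz),
    C, C0, q.mono fun w hw => hw _⟩
  exact (div_eq_zero_iff.trans (or_iff_left d.ne')).trans c

theorem nrm1 (v : E n) : ‖fun I : Fin 1 → Fin n => v (I 0)‖ = ‖v‖ :=
  le_antisymm ((pi_norm_le_iff_of_nonneg (norm_nonneg _)).2 fun I => norm_le_pi_norm v (I 0))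
    ((pi_norm_le_iff_of_nonneg (norm_nonneg _)).2 fun i =>
      norm_le_pi_norm (fun I : Fin 1 → Fin n => v (I 0)) fun _ => i)

theorem nrm2 (S : Mat n) :
    ‖fun I : Fin 2 → Fin n => S (I 0) (I 1)‖ = ‖fun p : Fin n × Fin n => S p.1 p.2‖ :=
  le_antisymm ((pi_norm_le_iff_of_nonneg (norm_nonneg _)).2 fun I =>
      norm_le_pi_norm (fun p : Fin n × Fin n => S p.1 p.2) (I 0, I 1))
    ((pi_norm_le_iff_of_nonneg (norm_nonneg _)).2 fun p =>
      norm_le_pi_norm (fun I : Fin 2 → Fin n => S (I 0) (I 1)) ![p.1, p.2])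

theorem kp1 (J : Mat n) (v : E n) :
    (kp 1 J *ᵥ fun I : Fin 1 → Fin n => v (I 0)) = fun I => (J *ᵥ v) (I 0) := by
  funext I
  simp only [kp, kq, Matrix.mulVec, dotProduct, Matrix.of_apply, Fin.prod_univ_one]
  exact (Equiv.funUnique (Fin 1) (Fin n)).sum_comp fun j => J (I 0) j * v j

theorem kp2 (J S : Mat n) :
    (kp 2 J *ᵥ fun I : Fin 2 → Fin n => S (I 0) (I 1)) = fun I => (J * S * Jᵀ) (I 0) (I 1) := by
  funext I
  simp only [kp, kq, Matrix.mulVec, dotProduct, Matrix.of_apply, Fin.prod_univ_two,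
    Matrix.mul_apply, Matrix.transpose_apply, Finset.sum_mul]
  rw [Finset.sum_comm, ← Fintype.sum_prod_type']
  refine ((piFinTwoEquiv fun _ => Fin n).sum_comp
    fun p => J (I 0) p.1 * J (I 1) p.2 * S p.1 p.2).trans (Finset.sum_congr rfl fun p _ => ?_)
  ring

/-- Twisted vector fields. -/
theorem bT {a : ℕ} (ha : 1 ≤ a) {V : M.Fam (E n)} (h : HT M a V) : Bc M (a * n) V := by
  refine (con 1 a ha (s := fun e z I => V e z (I 0)) (fun e he z hz I => h.hol e he z hz _)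
    fun e he e' he' x hx hx' => ?_).of_norm fun e he z hz => nrm1 _
  have := h.cmp e he e' he' x hx hx'
  beta_reduce at this ⊢
  rw [kp1, this, zpow_natCast]
  rfl

/-- Twisted forms of degree one. -/
theorem b1 {a : ℕ} {α : M.Fam (E n)} (h : H1 M a α) : Bc M (1 + a * n) α := by
  have := (cov 1 a (s := fun e z I => α e z (I 0)) (fun e he z hz I => h.hol e he z hz _)
    fun e he e' he' x hx hx' => ?_).of_norm (v := α) fun e he z hz => nrm1 _
  · rwa [Nat.cast_one] at this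
  have := h.cmp e he e' he' x hx hx'
  beta_reduce at this ⊢
  rw [kp1, this, zpow_natCast, Matrix.mulVec_transpose]
  rfl

/-- Twisted forms of degree two. -/
theorem b2 {a : ℕ} {S : M.Fam (Mat n)} (h : H2 M a S) :
    Bc M (2 + a * n) fun e z (p : Fin n × Fin n) => S e z p.1 p.2 := by
  have := (cov 2 a (s := fun e z I => S e z (I 0) (I 1)) (fun e he z hz I => h.hol e he z hz _ _)
    fun e he e' he' x hx hx' => ?_).of_norm (v := fun e z (p : Fin n × Fin n) => S e z p.1 p.2)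
      fun e he z hz => nrm2 _
  · rwa [Nat.cast_ofNat] at this
  have := h.cmp e he e' he' x hx hx'
  beta_reduce at this ⊢
  rw [kp2, this, zpow_natCast, Matrix.transpose_transpose]
  rfl

/-- Twisted bivectors of level at least two. -/
theorem bB {a : ℕ} (ha : 2 ≤ a) {P : M.Fam (Mat n)} (h : HB M a P) :
    Bc M (a * n) fun e z (p : Fin n × Fin n) => P e z p.1 p.2 := by
  refine (con 2 a ha (s := fun e z I => P e z (I 0) (I 1))
    (fun e he z hz I => h.hol e he z hz _ _)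
    fun e he e' he' x hx hx' => ?_).of_norm fun e he z hz => nrm2 _
  have := h.cmp e he e' he' x hx hx'
  beta_reduce at this ⊢
  rw [kp2, this, zpow_natCast]
  rfl

theorem st_le {S : Mat 4} (h : Sᵀ = -S) :
    ‖fun p : Fin 4 × Fin 4 => st S p.1 p.2‖ = ‖fun p : Fin 4 × Fin 4 => S p.1 p.2‖ := by
  have a : ∀ T : Mat 4, ‖fun p : Fin 4 × Fin 4 => st T p.1 p.2‖ ≤
      ‖fun p : Fin 4 × Fin 4 => T p.1 p.2‖ := fun T => by
    have k := fun i j => norm_le_pi_norm (fun p : Fin 4 × Fin 4 => T p.1 p.2) (i, j)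
    refine (pi_norm_le_iff_of_nonneg (norm_nonneg _)).2 fun ⟨i, j⟩ => ?_
    fin_cases i <;> fin_cases j <;> simp [st, k]
  have s : ∀ i j, S j i = -S i j := fun i j => congrFun (congrFun h i) j
  have d : ∀ i, S i i = 0 := fun i => by linear_combination (s i i) / 2
  have e : st (st S) = S := by
    ext i j
    fin_cases i <;> fin_cases j <;> simp [st, d, s 0 1, s 0 2, s 0 3, s 1 2, s 1 3, s 2 3]
  exact le_antisymm (a S) (by simpa only [e] using a (st S))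

/-- Twisted bivectors in dimension four. -/
theorem bB4 {M : Mf 4} {a : ℕ} {P : M.Fam (Mat 4)} (h : HB M (a + 1) P) :
    Bc M (2 + a * 4) fun e z (p : Fin 4 × Fin 4) => P e z p.1 p.2 := by
  have := (b2 ((st_OS st_PT1 M a P).2 h)).of_norm
    (v := fun e z (p : Fin 4 × Fin 4) => P e z p.1 p.2) fun e he z hz => st_le (h.alt e he z hz)
  rwa [Nat.cast_ofNat] at this

theorem Bc.bo {ι : Type} [Fintype ι] {B : ℝ} {u : M.Fam (ι → ℂ)} {H : M.Fam (Mat n)}
    (h : Bc M B u) (hB : 0 ≤ B) (hH : M.Met H) : Bo M H u := by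
  refine ⟨B, hB, fun ε G e0 hG hr _ => ?_⟩
  obtain ⟨V, a, b, c, d, f⟩ := h G hG hr
  refine ⟨V, a, b, fun e he z hz => ⟨c e he z hz, ?_⟩, fun x hx => le_trans ?_ (d x hx)⟩
  · obtain ⟨C, -, k⟩ := f e he z hz
    exact ⟨C, k.mono fun w hw => hw.1⟩
  · have t : 0 ≤ M.tr G H x := HS76.tr_nonneg (hG.toMet.ev_pos x) (hH.ev_pos x).posSemidef
    nlinarith [mul_nonneg hB (mul_nonneg e0 t)]

end B90

open B90 in
theorem st_BO : St_BO := fun M _ H hH =>
  ⟨fun u hu => hu.elim (fun h => (b1 (a := 1) h).bo (by positivity) hH)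
    fun h => (bT (a := 1) le_rfl h).bo (by positivity) hH,
  fun P hP => hP.elim (fun h => (bB4 (a := 0) h).bo (by positivity) hH)
    fun h => (bB (a := 2) le_rfl h).bo (by positivity) hH⟩

end Pool.Agent.Lib.F4H
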