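import Pool.Agent.Lib.F4H.BlueC

/-! Project f4h, row ANC: the points that are not anchored form a union of singular fibres. -/

open scoped Classical Topology ContDiff ComplexOrder Matrix MatrixGroups
open Set Filter Metric

set_option linter.unusedVariables false

noncomputable section

namespace Pool.Agent.Lib.F4H

open Pool.Agent.Lib.SV (E)
open Pool.Agent.Lib.HS32 Pool.Agent.Lib.F4 Pool.Agent.Lib.F4G

namespace A91

variable {n : ℕ} {M : Mf n} {α : M.Fam (E n)} (d : Dev M α)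

/-- Anchored, seen from the chart at `a`. -/
def At (a x : M.X) : Prop := ∃ (b : M.X) (g : PG) (D : Set ℂ) (σ : ℂ → E n), IsOpen D ∧
  DifferentiableOn ℂ σ D ∧ (∀ w ∈ D, σ w ∈ dO d b ∧ d.t b (σ w) / d.s b (σ w) = w) ∧
  ∀ᶠ y in 𝓝 x, ∃ w ∈ D, dLC d ((a, 1), y) ((b, g), (d.e b).symm (σ w))

/-- The developing map in the chart. -/
def W (a : M.X) (w : E n) : ℂ := d.t a w / d.s a w

variable {d}

theorem chg {a a' x : M.X} (h : x ∈ d.O a) (h' : x ∈ d.O a') (k : At d a x) : At d a' x := by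
  obtain ⟨b, g, D, σ, k1, k2, k3, k4⟩ := k
  refine ⟨b, dC d a' a x * g, D, σ, k1, k2, k3, ?_⟩
  filter_upwards [k4, (d.opn a).mem_nhds h, (d.opn a').mem_nhds h', dC_lc d h' h] with y ⟨w, w1, w2⟩
    y1 y2 y3
  refine ⟨w, w1, (LC.com 1 y2 y1).trans ?_⟩
  have := LC.left (dC d a' a x) w2
  rw [mul_one] at this
  rwa [one_mul, y3]

theorem opn {a x : M.X} (k : At d a x) : ∀ᶠ y in 𝓝 x, At d a y := by
  obtain ⟨b, g, D, σ, k1, k2, k3, k4⟩ := k
  exact k4.eventually_nhds.mono fun y hy => ⟨b, g, D, σ, k1, k2, k3, hy⟩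

theorem dif (a : M.X) : DifferentiableOn ℂ (W d a) (dO d a) := fun z hz => by
  obtain ⟨⟨h1, h2, h3⟩, -⟩ := dO_hol d hz
  exact (h2.mul (h1.inv h3)).differentiableWithinAt.congr (fun w _ => div_eq_mul_inv _ _)
    (div_eq_mul_inv _ _)

theorem fd {a : M.X} {z : E n} (hz : z ∈ dO d a) (h : α (d.e a) z ≠ 0) :
    fderiv ℂ (W d a) z ≠ 0 := fun c => h (funext fun j => by
  obtain ⟨⟨h1, h2, h3⟩, h4⟩ := dO_hol d hz
  have w := (dif a z hz).differentiableAt ((dO_opn d a).mem_nhds hz)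
  have e : d.t a =ᶠ[𝓝 z] fun y => W d a y * d.s a y :=
    mem_of_superset ((dO_opn d a).mem_nhds hz) fun y hy =>
      (div_mul_cancel₀ _ (dO_hol d hy).1.2.2).symm
  rw [h4, dz_congr e, dz_mul (w.restrictScalars ℝ) (h1.restrictScalars ℝ),
    (mHOL n _ _).2.1 w j, c, e.self_of_nhds]
  simp
  ring)

theorem den (hd : Den M α) {a : M.X} {p : E n} (hp : p ∈ dO d a) :
    ∃ᶠ z in 𝓝 p, fderiv ℂ (W d a) z ≠ 0 :=
  ((hd _ (d.mem a) p hp.1).and_eventually ((dO_opn d a).mem_nhds hp)).mono fun z hz =>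
    fd hz.2 hz.1

theorem lc {a : M.X} {U : Set (E n)} {y z : E n} (hU : U ⊆ dO d a) (h : Jn U (W d a) y z) :
    dLC d ((a, 1), (d.e a).symm y) ((a, 1), (d.e a).symm z) :=
  LC.jn 1 ((dO_jn d hU h).mono (by
    rintro _ ⟨w, hw, rfl⟩
    exact (hU hw).2))

theorem up {a : M.X} {p : E n} (hp : p ∈ dO d a) {P : M.X → Prop}
    (h : ∀ᶠ z in 𝓝 p, P ((d.e a).symm z)) : ∀ᶠ y in 𝓝 ((d.e a).symm p), P y := by
  have s := (d.e a).map_target hp.1
  have c := (d.e a).continuousAt s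
  rw [ContinuousAt, (d.e a).right_inv hp.1] at c
  filter_upwards [c.eventually h, (d.e a).open_source.mem_nhds s] with y y1 y2
  rwa [(d.e a).left_inv y2] at y1

theorem reg (hR : St_REG) {a : M.X} {z : E n} (hz : z ∈ dO d a) (h : fderiv ℂ (W d a) z ≠ 0) :
    At d a ((d.e a).symm z) := by
  obtain ⟨D, σ, k1, k2, k3, k4⟩ := hR n _ _ z (dO_opn d a) hz (dif a) h
  exact ⟨a, 1, D, σ, k1, k2, k3, up hz (k4.mono fun y hy => ⟨_, hy.1, lc Subset.rfl hy.2⟩)⟩

theorem spr (hS : St_SH) (hd : Den M α) {a : M.X} {p : E n} (hp : p ∈ dO d a) :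
    ∀ᶠ y in 𝓝 p, W d a y = W d a p → At d a ((d.e a).symm y) → At d a ((d.e a).symm p) := by
  obtain ⟨U, δ, L, u1, u2, u3, -, -, -, -, -, -, -, -, u4⟩ :=
    hS n _ _ p univ (dO_opn d a) hp (dif a) (den hd hp) univ_mem
  have u5 : U ⊆ dO d a := fun z hz => (u3 hz).2
  filter_upwards [u1.mem_nhds u2] with y y1 y2 ⟨b, g, D, σ, k1, k2, k3, k4⟩
  refine ⟨b, g, D, σ, k1, k2, k3, up hp ?_⟩
  filter_upwards [u4 y y1 y2 _ (((d.e a).continuousAt_symm (u5 y1).1).eventually k4)]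
    with x ⟨z, ⟨w, w1, w2⟩, z2⟩
  exact ⟨w, w1, (lc u5 z2).trans w2⟩

theorem jn (hS : St_SH) (hd : Den M α) {a : M.X} {y z : E n} (h : Jn (dO d a) (W d a) y z) :
    At d a ((d.e a).symm y) → At d a ((d.e a).symm z) := by
  refine h.ind (fun x x' => At d a ((d.e a).symm x) → At d a ((d.e a).symm x')) (fun x hx _ => ?_)
    fun _ _ _ h1 h2 => h2 ∘ h1
  have : ∀ᶠ x' in 𝓝 x, At d a ((d.e a).symm x) → At d a ((d.e a).symm x') :=
    eventually_imp_distrib_left.2 fun k => ((d.e a).continuousAt_symm hx.1).eventually (opn k)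
  filter_upwards [this, spr hS hd hx] with x' h1 h2 _ h3
  exact ⟨h1, h2 h3⟩

end A91

open A91 in
theorem st_ANC (hS : St_SH) (hR : St_REG) : St_ANC := by
  intro n M α d hd
  refine ⟨isOpen_iff_mem_nhds.2 fun x hx => ?_, fun a x hx h => ?_, fun x hx => ?_⟩
  · filter_upwards [opn (show At d x x from hx), (d.opn x).mem_nhds (d.self x)] with y y1 y2
    exact chg y2 (d.self y) y1
  · have := reg hR (dO_mem d hx) (fd (dO_mem d hx) h)
    rw [(d.e a).left_inv (d.sub a hx)] at this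
    exact chg hx (d.self x) this
  have hp := dO_mem d (d.self x)
  have sx := d.sub x (d.self x)
  have w0 : W d x (d.e x x) = 0 := by rw [W, (d.base x).2, zero_div]
  obtain ⟨U, δ, L, u1, u2, u3, -, -, -, l1, -, -, l2, l3, -⟩ :=
    hS n _ _ _ univ (dO_opn d x) hp (dif x) (den hd hp) univ_mem
  have c := (d.e x).continuousAt sx
  filter_upwards [c.eventually (u1.mem_nhds u2), c.eventually (spr hS hd hp),
    (d.opn x).mem_nhds (d.self x)] with y y1 y2 y3
  rw [(d.e x).left_inv (d.sub x y3), (d.e x).left_inv sx, w0] at y2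
  refine ⟨fun h => by_contra fun t => h ?_, fun t h => hx (y2 (by rw [W, t, zero_div])
    (chg (d.self y) y3 h))⟩
  obtain ⟨z, z1, z2⟩ := l3 _ y1
  have z3 : z ≠ d.e x x := fun e => div_ne_zero t (dO_hol d (dO_mem d y3)).1.2.2
    (z2.eq.symm.trans (e ▸ w0))
  have := jn hS hd (z2.symm.mono fun w hw => (u3 hw).2) (reg hR (l1 z1).2 (l2 z z1 z3).2)
  rw [(d.e x).left_inv (d.sub x y3)] at this
  exact chg y3 (d.self y) this

end Pool.Agent.Lib.F4H
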