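import Pool.Agent.Lib.F4.Defs

/-! Project f4h: points joined along a fibre, local structure of the fibres. Statement. -/

open scoped Topology
open Set Filter Metric

noncomputable section

namespace Pool.Agent.Lib.F4H

open Pool.Agent.Lib.SV (E)

/-- The points `y` and `z` are joined in `U` along a fibre of `W`. -/
def Jn {X : Type} [TopologicalSpace X] (U : Set X) (W : X → ℂ) (y z : X) : Prop :=
  ∃ C, IsPreconnected C ∧ C ⊆ U ∧ y ∈ C ∧ z ∈ C ∧ ∀ x ∈ C, W x = W y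

/-- Every point of a box is joined to the axis `L`, which is regular off the centre, and the points
near the centre are joined to every neighbourhood of a point of the central fibre. -/
def St_SH : Prop := ∀ (n : ℕ) (O : Set (E n)) (W : E n → ℂ) (p : E n) (N : Set (E n)),
  IsOpen O → p ∈ O → DifferentiableOn ℂ W O → (∃ᶠ z in 𝓝 p, fderiv ℂ W z ≠ 0) → N ∈ 𝓝 p →
  ∃ (U : Set (E n)) (d : ℝ) (L : Set (E n)), IsOpen U ∧ p ∈ U ∧ U ⊆ N ∩ O ∧ 0 < d ∧
    MapsTo W U (ball (W p) d) ∧ IsCompact L ∧ L ⊆ N ∩ O ∧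
    (∀ z ∈ L, W z ∈ ball (W p) d → z ∈ U) ∧ (∀ w ∈ ball (W p) d, ∃ z ∈ L, W z = w) ∧
    (∀ z ∈ L, z ≠ p → W z ≠ W p ∧ fderiv ℂ W z ≠ 0) ∧ (∀ y ∈ U, ∃ z ∈ L, Jn U W y z) ∧
    ∀ y₀ ∈ U, W y₀ = W p → ∀ N₀ ∈ 𝓝 y₀, ∀ᶠ y in 𝓝 p, ∃ z ∈ N₀, Jn U W y z

namespace Jn

variable {X : Type} [TopologicalSpace X] {U : Set X} {W : X → ℂ} {x y z : X}

theorem eq (h : Jn U W y z) : W z = W y := by
  obtain ⟨C, -, -, -, a, b⟩ := h
  exact b z a

theorem left (h : Jn U W y z) : y ∈ U := by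
  obtain ⟨C, -, a, b, -⟩ := h
  exact a b

theorem right (h : Jn U W y z) : z ∈ U := by
  obtain ⟨C, -, a, -, b, -⟩ := h
  exact a b

theorem refl (h : y ∈ U) : Jn U W y y :=
  ⟨{y}, isPreconnected_singleton, singleton_subset_iff.2 h, rfl, rfl, fun _ e => by rw [e]⟩

theorem symm (h : Jn U W y z) : Jn U W z y := by
  obtain ⟨C, a, b, c, d, e⟩ := h
  exact ⟨C, a, b, d, c, fun x hx => (e x hx).trans (e z d).symm⟩

theorem trans (h : Jn U W x y) (k : Jn U W y z) : Jn U W x z := by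
  obtain ⟨C, a, b, c, d, e⟩ := h
  obtain ⟨D, a', b', c', d', e'⟩ := k
  exact ⟨C ∪ D, a.union y d c' a', union_subset b b', Or.inl c, Or.inr d',
    fun w hw => hw.elim (e w) fun hw => (e' w hw).trans (e y d)⟩

theorem mono {U' : Set X} (h : Jn U W y z) (hU : U ⊆ U') : Jn U' W y z := by
  obtain ⟨C, a, b, c⟩ := h
  exact ⟨C, a, b.trans hU, c⟩

theorem map {Y : Type} [TopologicalSpace Y] {f : X → Y} {V : Set Y} {G : Y → ℂ}
    (h : Jn U W y z) (hf : Continuous f) (hV : ∀ x ∈ U, W x = W y → f x ∈ V ∧ G (f x) = G (f y)) :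
    Jn V G (f y) (f z) := by
  obtain ⟨C, a, b, c, d, e⟩ := h
  refine ⟨f '' C, a.image f hf.continuousOn, ?_, mem_image_of_mem f c, mem_image_of_mem f d, ?_⟩
  · rintro _ ⟨x, hx, rfl⟩
    exact (hV x (b hx) (e x hx)).1
  · rintro _ ⟨x, hx, rfl⟩
    exact (hV x (b hx) (e x hx)).2

end Jn

end Pool.Agent.Lib.F4H
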