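import Pool.Agent.Lib.F4G.Atl98
import Pool.Agent.Lib.F4H.Sh0

/-! F4H: the atlas relation when the fibres are connected through chains of balls. -/

namespace Pool.Agent.Lib.F4H

open Set Filter Topology Metric Relation
open Pool.Agent.Lib.F4G

section Atl
variable {X I Γ : Type} [TopologicalSpace X] [Group Γ]
variable {O U : I → Set X} {W : I → X → ℂ} {c : I → I → X → Γ}

theorem refL98 [CompactSpace X] [T2Space X] [Finite I] (hU : ∀ i, IsOpen (U i))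
    (hUO : ∀ i, U i ⊆ O i) (hcov : ∀ x, ∃ i, x ∈ U i)
    (hct : ∀ i x, x ∈ U i → ContinuousAt (W i) x)
    (hop : ∀ i x, x ∈ U i → ∀ N ∈ 𝓝 x, W i '' N ∈ 𝓝 (W i x))
    (hlc : ∀ i j x, x ∈ O i → x ∈ O j → ∀ᶠ y in 𝓝 x, c i j y = c i j x)
    (hco : ∀ i j k x, x ∈ O i → x ∈ O j → x ∈ O k → c i j x * c j k x = c i k x)
    (hdet : ∀ i j x y, x ∈ O i → x ∈ O j → y ∈ O i → y ∈ O j → W i x = W i y →
      c i j x = c i j y → W j x = W j y)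
    (S : (I × Γ) × X → (I × Γ) × X → Prop)
    (hS : ∀ u v, S u v → (u.2 = v.2 ∧ u.2 ∈ O u.1.1 ∧ u.2 ∈ O v.1.1 ∧
      v.1.2 = u.1.2 * c u.1.1 v.1.1 u.2) ∨ (u.1 = v.1 ∧ Jn (O u.1.1) (W u.1.1) u.2 v.2))
    (hcon : ∀ i g x y, x ∈ U i → y ∈ U i → W i x = W i y →
      ReflTransGen S ((i, g), x) ((i, g), y))
    (R : ℝ) (hK : ∀ i, ∃ K, IsCompact K ∧ K ⊆ U i ∧ ∀ z : ℂ, ‖z‖ ≤ R → ∃ x ∈ K, W i x = z) :
    ∃ ρ : ℝ, 0 < ρ ∧ ∀ a b : (I × Γ) × ℂ, TransGen (Com98 U W c) a b → ‖a.2‖ ≤ R → ‖b.2‖ ≤ R →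
      TransGen (fun a b : (I × Γ) × ℂ => Com98 U W c a b ∧
        ∀ z : ℂ, ‖z - a.2‖ < ρ → ∃ y, Com98 U W c (a.1, z) (b.1, y)) a b := by
  obtain ⟨V, hV, hVo, hVc⟩ := exists_iUnion_eq_closure_subset hU (fun x => toFinite _)
    (eq_univ_of_forall fun x => mem_iUnion.2 (hcov x))
  choose K0 k1 k2 k3 using hK
  obtain ⟨K, hK, hKU, hVK, hsK⟩ : ∃ K : I → Set X, (∀ i, IsCompact (K i)) ∧ (∀ i, K i ⊆ U i) ∧
      (∀ i, V i ⊆ K i) ∧ ∀ i (z : ℂ), ‖z‖ ≤ R → ∃ x ∈ K i, W i x = z :=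
    ⟨fun i => closure (V i) ∪ K0 i, fun i => isClosed_closure.isCompact.union (k1 i),
      fun i => union_subset (hVc i) (k2 i), fun i => subset_closure.trans subset_union_left,
      fun i z hz => (k3 i z hz).imp fun x hx => ⟨Or.inr hx.1, hx.2⟩⟩
  have hKO : ∀ i, K i ⊆ O i := fun i => (hKU i).trans (hUO i)
  have hρ : ∀ q : I × I, ∃ ρ : ℝ, 0 < ρ ∧ ∀ x ∈ K q.1 ∩ K q.2, ∀ z : ℂ, ‖z - W q.1 x‖ < ρ →
      ∃ y, y ∈ U q.1 ∧ y ∈ U q.2 ∧ W q.1 y = z ∧ c q.1 q.2 y = c q.1 q.2 x := fun q =>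
    unif98 hU hct hop (fun i j x hi hj => hlc i j x (hUO i hi) (hUO j hj)) q.1 q.2 _
      ((hK q.1).inter (hK q.2)) (inter_subset_left.trans (hKU _))
      (inter_subset_right.trans (hKU _))
  choose r hr0 hr using hρ
  obtain ⟨ρ, hρ0, hρ⟩ : ∃ ρ : ℝ, 0 < ρ ∧ ∀ q, ρ ≤ r q := by
    have h1 : ∀ᶠ ρ in 𝓝[>] (0 : ℝ), ∀ q, ρ ≤ r q := by
      rw [eventually_all]
      intro q
      exact mem_nhdsWithin_of_mem_nhds (Iic_mem_nhds (hr0 q))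
    obtain ⟨ρ, h2, h3⟩ := (h1.and self_mem_nhdsWithin).exists
    exact ⟨ρ, h3, h2⟩
  refine ⟨ρ, hρ0, ?_⟩
  set E : (I × Γ) × ℂ → (I × Γ) × ℂ → Prop := fun a b => Com98 U W c a b ∧
        ∀ z : ℂ, ‖z - a.2‖ < ρ → ∃ y, Com98 U W c (a.1, z) (b.1, y) with hE
  have hVx : ∀ x, ∃ j, x ∈ V j := fun x => mem_iUnion.1 (hV ▸ mem_univ x)
  have A : ∀ i g j k x, x ∈ O i → x ∈ K j → x ∈ K k →
      E ((j, g * c i j x), W j x) ((k, g * c i k x), W k x) := by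
    intro i g j k x hi hj hk
    have e : g * c i k x = g * c i j x * c j k x := by
      rw [mul_assoc, hco i j k x hi (hKO j hj) (hKO k hk)]
    refine ⟨⟨x, hKU j hj, hKU k hk, rfl, rfl, e⟩, fun z hz => ?_⟩
    obtain ⟨y, h1, h2, h3, h4⟩ := hr (j, k) x ⟨hj, hk⟩ z (hz.trans_le (hρ _))
    refine ⟨W k y, y, h1, h2, h3, rfl, ?_⟩
    show g * c i k x = g * c i j x * c j k y
    rw [e]
    exact congrArg _ h4.symm
  have B : ∀ i g x y, Jn (O i) (W i) x y → ∀ j k, x ∈ K j → y ∈ K k →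
      TransGen E ((j, g * c i j x), W j x) ((k, g * c i k y), W k y) := by
    rintro i g x0 y0 ⟨C, hC, hCO, hx, hy, hW⟩
    refine hC.induction₂' (fun x y => ∀ j k, x ∈ K j →
      y ∈ K k → TransGen E ((j, g * c i j x), W j x) ((k, g * c i k y), W k y)) ?_ ?_ hx hy
    · intro x hx
      obtain ⟨l, hl⟩ := hVx x
      have hlO : x ∈ O l := hKO l (hVK l hl)
      filter_upwards [self_mem_nhdsWithin, mem_nhdsWithin_of_mem_nhds ((hVo l).mem_nhds hl),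
        mem_nhdsWithin_of_mem_nhds (hlc i l x (hCO hx) hlO)] with y hy h1 h2
      have h3 : W l y = W l x := hdet i l y x (hCO hy) (hKO l (hVK l h1)) (hCO hx) hlO
        ((hW y hy).trans (hW x hx).symm) h2
      constructor
      · intro j k hj hk
        have k1 := A i g j l x (hCO hx) hj (hVK l hl)
        have k2 := A i g l k y (hCO hy) (hVK l h1) hk
        rw [h2, h3] at k2
        exact (TransGen.single k1).tail k2
      · intro j k hj hk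
        have k1 := A i g j l y (hCO hy) hj (hVK l h1)
        have k2 := A i g l k x (hCO hx) (hVK l hl) hk
        rw [h2, h3] at k1
        exact (TransGen.single k1).tail k2
    · intro x y u _ _ _ h1 h2 j k hj hk
      obtain ⟨l, hl⟩ := hVx y
      exact (h1 j l hj (hVK l hl)).trans (h2 l k (hVK l hl) hk)
  have B2 : ∀ u v, ReflTransGen S u v → u.2 ∈ O u.1.1 → ∀ j k, u.2 ∈ K j → v.2 ∈ K k →
      TransGen E ((j, u.1.2 * c u.1.1 j u.2), W j u.2) ((k, v.1.2 * c v.1.1 k v.2), W k v.2) := by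
    intro u v h hu
    induction h with
    | refl => exact fun j k hj hk => TransGen.single (A _ _ j k _ hu hj hk)
    | @tail v w _ h ih =>
      intro j k hj hk
      rcases hS _ _ h with ⟨h1, h2, h3, h4⟩ | ⟨h1, h2⟩
      · rw [← h1] at hk ⊢
        rw [h4, mul_assoc, hco _ _ _ _ h2 h3 (hKO k hk)]
        exact ih j k hj hk
      · obtain ⟨l, hl⟩ := hVx v.2
        rw [← h1]
        exact (ih j l hj (hVK l hl)).trans (B _ _ _ _ h2 l k (hVK l hl) hk)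
  have C1 : ∀ a b, Com98 U W c a b → ∀ x y, x ∈ U a.1.1 ∧ W a.1.1 x = a.2 →
      y ∈ U b.1.1 ∧ W b.1.1 y = b.2 → ∀ j k, x ∈ K j → y ∈ K k →
      TransGen E ((j, a.1.2 * c a.1.1 j x), W j x) ((k, b.1.2 * c b.1.1 k y), W k y) := by
    rintro a b ⟨u, hi, hj, h1, h2, h3⟩ x y hx hy j k hxj hyk
    obtain ⟨l, hl⟩ := hVx u
    have k1 := B2 _ _ (hcon a.1.1 a.1.2 x u hx.1 hi (hx.2.trans h1.symm)) (hUO _ hx.1) j l hxj
      (hVK l hl)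
    have k2 := B2 _ _ (hcon b.1.1 b.1.2 u y hj hy.1 (h2.trans hy.2.symm)) (hUO _ hj) l k
      (hVK l hl) hyk
    have e : b.1.2 * c b.1.1 l u = a.1.2 * c a.1.1 l u := by
      rw [h3, mul_assoc, hco _ _ _ u (hUO _ hi) (hUO _ hj) (hKO l (hVK l hl))]
    simp only [e] at k2
    exact k1.trans k2
  have C : ∀ a b, TransGen (Com98 U W c) a b → ∀ x y, x ∈ U a.1.1 ∧ W a.1.1 x = a.2 →
      y ∈ U b.1.1 ∧ W b.1.1 y = b.2 → ∀ j k, x ∈ K j → y ∈ K k →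
      TransGen E ((j, a.1.2 * c a.1.1 j x), W j x) ((k, b.1.2 * c b.1.1 k y), W k y) := by
    intro a b h
    induction h with
    | single h => exact C1 _ _ h
    | @tail b d _ h ih =>
      intro x y hx hy j k hj hk
      obtain ⟨u, hi, -, h1, -⟩ := id h
      obtain ⟨l, hl⟩ := hVx u
      exact (ih x u hx ⟨hi, h1⟩ j l hj (hVK l hl)).trans
        (C1 _ _ h u y ⟨hi, h1⟩ hy l k (hVK l hl) hk)
  intro a b h ha hb
  obtain ⟨x, a1, a2⟩ := hsK a.1.1 a.2 ha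
  obtain ⟨y, b1, b2⟩ := hsK b.1.1 b.2 hb
  have k := C a b h _ _ ⟨hKU _ a1, a2⟩ ⟨hKU _ b1, b2⟩ _ _ a1 b1
  rw [one98 hco (hKO _ a1), one98 hco (hKO _ b1), mul_one, mul_one, a2, b2] at k
  exact k

theorem atlL98 [CompactSpace X] [T2Space X] [Finite I] (hU : ∀ i, IsOpen (U i))
    (hUO : ∀ i, U i ⊆ O i) (hcov : ∀ x, ∃ i, x ∈ U i ∧ ‖W i x‖ ≤ 1 / 2)
    (hct : ∀ i x, x ∈ U i → ContinuousAt (W i) x)
    (hop : ∀ i x, x ∈ U i → ∀ N ∈ 𝓝 x, W i '' N ∈ 𝓝 (W i x))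
    (hlc : ∀ i j x, x ∈ O i → x ∈ O j → ∀ᶠ y in 𝓝 x, c i j y = c i j x)
    (hco : ∀ i j k x, x ∈ O i → x ∈ O j → x ∈ O k → c i j x * c j k x = c i k x)
    (hball : ∀ i x, x ∈ U i → ‖W i x‖ < 1)
    (S : (I × Γ) × X → (I × Γ) × X → Prop)
    (hS : ∀ u v, S u v → (u.2 = v.2 ∧ u.2 ∈ O u.1.1 ∧ u.2 ∈ O v.1.1 ∧
      v.1.2 = u.1.2 * c u.1.1 v.1.1 u.2) ∨ (u.1 = v.1 ∧ Jn (O u.1.1) (W u.1.1) u.2 v.2))
    (hcon : ∀ i g x y, x ∈ U i → y ∈ U i → W i x = W i y →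
      ReflTransGen S ((i, g), x) ((i, g), y))
    (hsur : ∀ i (z : ℂ), ‖z‖ < 1 → ∃ x ∈ U i, W i x = z)
    (hK : ∀ i, ∃ K, IsCompact K ∧ K ⊆ U i ∧ ∀ z : ℂ, ‖z‖ ≤ 3 / 4 → ∃ x ∈ K, W i x = z)
    (F : I → ℂ → ℝ) (m : Γ → Matrix (Fin 2) (Fin 2) ℂ) (hm1 : ∀ g, (m g).det = 1)
    (hm : ∀ g h, m (g * h) = m g * m h ∨ m (g * h) = -(m g * m h))
    (hmo : ∀ i j x, x ∈ O i → x ∈ O j → m (c j i x) 0 0 + m (c j i x) 0 1 * W i x ≠ 0 ∧
      W j x = (m (c j i x) 1 0 + m (c j i x) 1 1 * W i x) /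
        (m (c j i x) 0 0 + m (c j i x) 0 1 * W i x))
    (hiso : ∀ i j x, x ∈ U i → x ∈ U j →
      F j (W j x) = F i (W i x) - 4 * Real.log ‖m (c j i x) 0 0 + m (c j i x) 0 1 * W i x‖)
    (k B : ℝ) (hk : 0 < k) (hcv : ∀ i, My.Cv k (F i)) (hB : ∀ i z, ‖z‖ < 1 → |F i z| ≤ B) :
    ∃ r : ℝ, My.Atl (fun v : I × Γ => v.1) F
      (fun v z w y => TransGen (Com98 U W c) (v, z) (w, y)) k B r := by
  have hcU : ∀ i j k x, x ∈ U i → x ∈ U j → x ∈ U k → c i j x * c j k x = c i k x :=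
    fun i j k x h1 h2 h3 => hco i j k x (hUO i h1) (hUO j h2) (hUO k h3)
  have hinv : ∀ i j x, x ∈ O i → x ∈ O j → c j i x = (c i j x)⁻¹ := fun i j x hi hj =>
    eq_inv_of_mul_eq_one_left (by rw [hco j i j x hj hi hj, one98 hco hj])
  have hdet : ∀ i j x y, x ∈ O i → x ∈ O j → y ∈ O i → y ∈ O j → W i x = W i y →
      c i j x = c i j y → W j x = W j y := by
    intro i j x y h1 h2 h3 h4 h5 h6
    rw [(hmo i j x h1 h2).2, (hmo i j y h3 h4).2, hinv i j x h1 h2, hinv i j y h3 h4, h5, h6]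
  obtain ⟨ρ, hρ, href⟩ := refL98 hU hUO (fun x => (hcov x).imp fun _ h => h.1) hct hop hlc hco
    hdet S hS hcon (3 / 4) hK
  have rf : ∀ (v : I × Γ) z, ‖z‖ < 1 → TransGen (Com98 U W c) (v, z) (v, z) := by
    intro v z hz
    obtain ⟨x, h1, h2⟩ := hsur v.1 z hz
    refine TransGen.single ⟨x, h1, h1, h2, h2, ?_⟩
    show v.2 = v.2 * c v.1 v.1 x
    rw [one98 hcU h1, mul_one]
  have iso : ∀ (v : I × Γ) z (w : I × Γ) y, TransGen (Com98 U W c) (v, z) (w, y) →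
      m (w.2⁻¹ * v.2) 0 1 * z + m (w.2⁻¹ * v.2) 0 0 ≠ 0 ∧
      y = (m (w.2⁻¹ * v.2) 1 1 * z + m (w.2⁻¹ * v.2) 1 0) /
        (m (w.2⁻¹ * v.2) 0 1 * z + m (w.2⁻¹ * v.2) 0 0) ∧ ‖z‖ < 1 ∧ ‖y‖ < 1 ∧
      F w.1 y = F v.1 z - 4 * Real.log ‖m (w.2⁻¹ * v.2) 0 1 * z + m (w.2⁻¹ * v.2) 0 0‖ := by
    intro v z w y h
    obtain ⟨h1, h2, h3, h4, h5⟩ := iso98 hcU hball F m hm (fun i j x hi hj =>
      ⟨(hmo i j x (hUO i hi) (hUO j hj)).1, (hmo i j x (hUO i hi) (hUO j hj)).2,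
        hiso i j x hi hj⟩) h
    rw [add_comm (m (w.2⁻¹ * v.2) 0 1 * z), add_comm (m (w.2⁻¹ * v.2) 1 1 * z)]
    exact ⟨h3, h4, h1, h2, h5⟩
  have det : ∀ v w : I × Γ, m (w.2⁻¹ * v.2) 1 1 * m (w.2⁻¹ * v.2) 0 0 -
      m (w.2⁻¹ * v.2) 1 0 * m (w.2⁻¹ * v.2) 0 1 = 1 := by
    intro v w
    have h := hm1 (w.2⁻¹ * v.2)
    rw [Matrix.det_fin_two] at h
    linear_combination h
  obtain ⟨r, hr, hext⟩ := ext37 (fun v : I × Γ => v.1) F (fun v w => m (w.2⁻¹ * v.2) 1 1)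
    (fun v w => m (w.2⁻¹ * v.2) 1 0) (fun v w => m (w.2⁻¹ * v.2) 0 1)
    (fun v w => m (w.2⁻¹ * v.2) 0 0) (fun v z w y => TransGen (Com98 U W c) (v, z) (w, y))
    (fun v z w y => Com98 U W c (v, z) (w, y) ∧
      ∀ x : ℂ, ‖x - z‖ < ρ → ∃ u, Com98 U W c (v, x) (w, u)) B ρ hρ det
    (fun _ _ _ _ _ _ h1 h2 => h1.trans h2) rf iso hB
    (fun _ _ _ _ h => TransGen.single h.1)
    (fun v z w y h x hx => by
      obtain ⟨u, hu⟩ := h.2 x hx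
      have h1 := TransGen.single (r := Com98 U W c) hu
      rw [← (iso v x w u h1).2.1]
      exact h1)
    (fun v z w y h hz hy => (href (v, z) (w, y) h hz hy).to_reflTransGen)
  refine ⟨r, hk, hr, hcv, hB, rf, fun _ _ _ _ h => symm98 hcU h,
    fun _ _ _ _ _ _ h1 h2 => h1.trans h2, ?_, ?_⟩
  · intro v z hz
    obtain ⟨x, h1, h2⟩ := hsur v.1 z (hz.trans_lt (by norm_num))
    obtain ⟨j, h3, h4⟩ := hcov x
    exact ⟨(j, v.2 * c v.1 j x), W j x, h4, TransGen.single ⟨x, h1, h3, h2, rfl, rfl⟩⟩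
  · intro v z w y h hz hy
    refine ⟨_, _, _, _, det v w, (iso v z w y h).2.1.symm, fun x hx => ?_⟩
    have h1 := hext v z w y h hz hy x hx
    obtain ⟨k1, -, -, k4, k5⟩ := iso _ _ _ _ h1
    exact ⟨k1, k4, h1, k5⟩

end Atl

end Pool.Agent.Lib.F4H
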