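import Pool.Agent.Lib.F4H.Sh0

/-! Project f4h: chains along the fibres of a family of first integrals. -/

open scoped Topology
open Set Filter Relation

noncomputable section

namespace Pool.Agent.Lib.F4H

variable {X I G : Type} [TopologicalSpace X] [Group G]

/-- One step: a common point of two members, or two points joined along a fibre. -/
def Sp (O : I → Set X) (W : I → X → ℂ) (c : I → I → X → G) (u v : (I × G) × X) : Prop :=
  (u.2 = v.2 ∧ u.2 ∈ O u.1.1 ∧ u.2 ∈ O v.1.1 ∧ v.1.2 = u.1.2 * c u.1.1 v.1.1 u.2) ∨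
    (u.1 = v.1 ∧ Jn (O u.1.1) (W u.1.1) u.2 v.2)

/-- Chains of steps. -/
def LC (O : I → Set X) (W : I → X → ℂ) (c : I → I → X → G) (u v : (I × G) × X) : Prop :=
  ReflTransGen (Sp O W c) u v

/-- The cocycle condition. -/
def Cocy (O : I → Set X) (c : I → I → X → G) : Prop :=
  ∀ i j k x, x ∈ O i → x ∈ O j → x ∈ O k → c i j x * c j k x = c i k x

variable {O : I → Set X} {W : I → X → ℂ} {c : I → I → X → G} {u v w : (I × G) × X}

omit [TopologicalSpace X] in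
theorem Cocy.one (h : Cocy O c) {i : I} {x : X} (hx : x ∈ O i) : c i i x = 1 :=
  mul_left_cancel (a := c i i x) (by rw [h i i i x hx hx hx, mul_one])

theorem Sp.symm (hc : Cocy O c) (h : Sp O W c u v) : Sp O W c v u := by
  rcases h with ⟨e, h1, h2, h3⟩ | ⟨e, h⟩
  · refine Or.inl ⟨e.symm, e ▸ h2, e ▸ h1, ?_⟩
    rw [h3, ← e, mul_assoc, hc _ _ _ _ h1 h2 h1, hc.one h1, mul_one]
  · exact Or.inr ⟨e.symm, e ▸ h.symm⟩

theorem Sp.mem (h : Sp O W c u v) : u.2 ∈ O u.1.1 ∧ v.2 ∈ O v.1.1 := by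
  rcases h with ⟨e, h1, h2, -⟩ | ⟨e, h⟩
  · exact ⟨h1, e ▸ h2⟩
  · exact ⟨h.left, e ▸ h.right⟩

theorem Sp.left (f : G) (h : Sp O W c u v) :
    Sp O W c ((u.1.1, f * u.1.2), u.2) ((v.1.1, f * v.1.2), v.2) := by
  rcases h with ⟨e, h1, h2, h3⟩ | ⟨e, h⟩
  · exact Or.inl ⟨e, h1, h2, by simp only [h3, mul_assoc]⟩
  · exact Or.inr ⟨by rw [e], h⟩

namespace LC

theorem refl : LC O W c u u := ReflTransGen.refl

theorem trans (h : LC O W c u v) (k : LC O W c v w) : LC O W c u w := ReflTransGen.trans h k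

theorem symm (hc : Cocy O c) (h : LC O W c u v) : LC O W c v u := by
  induction h with
  | refl => exact ReflTransGen.refl
  | tail _ h ih => exact ReflTransGen.head (h.symm hc) ih

theorem left (f : G) (h : LC O W c u v) :
    LC O W c ((u.1.1, f * u.1.2), u.2) ((v.1.1, f * v.1.2), v.2) := by
  induction h with
  | refl => exact ReflTransGen.refl
  | tail _ h ih => exact ReflTransGen.tail ih (h.left f)

theorem mem (h : LC O W c u v) (hu : u.2 ∈ O u.1.1) : v.2 ∈ O v.1.1 := by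
  induction h with
  | refl => exact hu
  | tail _ h _ => exact h.mem.2

theorem com {i j : I} {x : X} (g : G) (hi : x ∈ O i) (hj : x ∈ O j) :
    LC O W c ((i, g), x) ((j, g * c i j x), x) :=
  ReflTransGen.single (Or.inl ⟨rfl, hi, hj, rfl⟩)

theorem jn {i : I} {x y : X} (g : G) (h : Jn (O i) (W i) x y) :
    LC O W c ((i, g), x) ((i, g), y) :=
  ReflTransGen.single (Or.inr ⟨rfl, h⟩)

theorem sub (S : Subgroup G) (hS : ∀ i j x, x ∈ O i → x ∈ O j → c i j x ∈ S)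
    (h : LC O W c u v) : u.1.2⁻¹ * v.1.2 ∈ S := by
  induction h with
  | refl => simp
  | tail _ h ih =>
    rcases h with ⟨-, h1, h2, h3⟩ | ⟨e, -⟩
    · rw [h3, ← mul_assoc]
      exact mul_mem ih (hS _ _ _ h1 h2)
    · exact e ▸ ih

end LC

theorem Jn.mapOn {Y : Type} [TopologicalSpace Y] {U : Set X} {A : X → ℂ} {y z : X} {f : X → Y}
    {V : Set Y} {B : Y → ℂ} (h : Jn U A y z) (hf : ContinuousOn f U)
    (hV : ∀ x ∈ U, f x ∈ V ∧ B (f x) = A x) : Jn V B (f y) (f z) := by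
  obtain ⟨C, a, b, c, d, e⟩ := h
  refine ⟨f '' C, a.image f (hf.mono b), ?_, mem_image_of_mem f c, mem_image_of_mem f d, ?_⟩
  · rintro _ ⟨x, hx, rfl⟩
    exact (hV x (b hx)).1
  · rintro _ ⟨x, hx, rfl⟩
    rw [(hV x (b hx)).2, (hV y (b c)).2, e x hx]

/-- A relation that holds locally along the fibres holds for joined points. -/
theorem Jn.ind {U : Set X} {A : X → ℂ} {y z : X} (h : Jn U A y z) (P : X → X → Prop)
    (loc : ∀ x ∈ U, A x = A y → ∀ᶠ x' in 𝓝 x, x' ∈ U → A x' = A x → P x x' ∧ P x' x)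
    (tr : ∀ a b d, P a b → P b d → P a d) : P y z := by
  obtain ⟨C, a, b, c, d, e⟩ := h
  refine a.induction₂' P (fun x hx => ?_) (fun p q r _ _ _ => tr p q r) c d
  filter_upwards [self_mem_nhdsWithin, nhdsWithin_le_nhds (loc x (b hx) (e x hx))] with x' h1 h2
  exact h2 (b h1) ((e x' h1).trans (e x hx).symm)

/-- Chains pass to a refinement. -/
theorem LC.trf {J : Type} {O' : J → Set X} {W' : J → X → ℂ} {c' : J → J → X → G} (ι : J → I)
    (A : J → G) (hc : Cocy O c) (cov : ∀ x, ∃ j, x ∈ O' j) (sub : ∀ j, O' j ⊆ O (ι j))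
    (e : ∀ i j x, c' i j x = A i * c (ι i) (ι j) x * (A j)⁻¹)
    (loc : ∀ a j x, x ∈ O a → x ∈ O' j → ∀ᶠ y in 𝓝 x, y ∈ O a → W a y = W a x →
      c a (ι j) y = c a (ι j) x ∧ Jn (O' j) (W' j) x y)
    (h : LC O W c u v) (hu : u.2 ∈ O u.1.1) : ∀ i j, u.2 ∈ O' i → v.2 ∈ O' j →
    LC O' W' c' ((i, u.1.2 * c u.1.1 (ι i) u.2 * (A i)⁻¹), u.2)
      ((j, v.1.2 * c v.1.1 (ι j) v.2 * (A j)⁻¹), v.2) := by
  have b : ∀ a g x i j, x ∈ O a → x ∈ O' i → x ∈ O' j →
      LC O' W' c' ((i, g * c a (ι i) x * (A i)⁻¹), x) ((j, g * c a (ι j) x * (A j)⁻¹), x) := by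
    intro a g x i j h0 h1 h2
    have k := LC.com (O := O') (W := W') (c := c') (g * c a (ι i) x * (A i)⁻¹) h1 h2
    have q : g * c a (ι i) x * (A i)⁻¹ * c' i j x = g * c a (ι j) x * (A j)⁻¹ := by
      rw [e, ← hc _ _ _ _ h0 (sub i h1) (sub j h2)]
      group
    rwa [q] at k
  induction h with
  | refl => exact fun i j => b _ _ _ i j hu
  | @tail v w _ h ih =>
    intro i j hi hj
    obtain ⟨l, hl⟩ := cov v.2
    refine (ih i l hi hl).trans ?_
    rcases h with ⟨e1, h1, h2, h3⟩ | ⟨e1, h⟩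
    · rw [h3, ← e1, mul_assoc v.1.2 (c _ w.1.1 _), hc _ _ _ _ h1 h2 (sub j (e1 ▸ hj))]
      exact b _ _ _ l j h1 hl (e1 ▸ hj)
    · rw [← e1]
      refine (h.ind (fun x y => ∀ i j, x ∈ O' i → y ∈ O' j →
        LC O' W' c' ((i, v.1.2 * c v.1.1 (ι i) x * (A i)⁻¹), x)
          ((j, v.1.2 * c v.1.1 (ι j) y * (A j)⁻¹), y)) (fun x hx _ => ?_) ?_) l j hl hj
      · obtain ⟨m, hm⟩ := cov x
        filter_upwards [loc _ m x hx hm] with y hy y1 y2
        obtain ⟨k1, k2⟩ := hy y1 y2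
        refine ⟨fun i j hi hj => (b _ _ _ i m hx hi hm).trans (LC.trans ?_
          (b _ _ _ m j y1 k2.right hj)), fun i j hi hj => (b _ _ _ i m y1 hi k2.right).trans
            (LC.trans ?_ (b _ _ _ m j hx hm hj))⟩
        · rw [k1]
          exact LC.jn _ k2
        · rw [k1]
          exact LC.jn _ k2.symm
      · intro p q r h1 h2 i j hi hj
        obtain ⟨m, hm⟩ := cov q
        exact (h1 i m hi hm).trans (h2 m j hm hj)

end Pool.Agent.Lib.F4H
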