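import Pool.Agent.Lib.F4G.Box
import Pool.Agent.Lib.F4G.Dev
import Pool.Agent.Lib.F4H.Lc66

/-! Project f4h: families of boxes whose fibres are connected by chains, anchored points. -/

open scoped Topology Matrix MatrixGroups
open Set Filter Metric

noncomputable section

namespace Pool.Agent.Lib.F4H

open Pool.Agent.Lib.SV (E)
open Pool.Agent.Lib.HS32 Pool.Agent.Lib.F4 Pool.Agent.Lib.F4G

/-- A finite family of boxes `U a` in balls of charts, with first integrals `t a / s a` of `α`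
onto the unit disc; points of a box with the same value are joined by a chain in the balls. -/
structure Box2 {n : ℕ} (M : Mf n) (α : M.Fam (E n)) (k B : ℝ) where
  I : Type
  fin : Fintype I
  e : I → M.Ch
  p : I → E n
  R : I → ℝ
  U : I → Set (E n)
  s : I → E n → ℂ
  t : I → E n → ℂ
  T : Set ℂ
  F : I → ℂ → ℝ
  c : I → I → M.X → PG
  S : Finset PG
  hk : 0 < k
  mem : ∀ a, e a ∈ M.C
  sub : ∀ a, closedBall (p a) (R a) ⊆ (e a).target
  opn : ∀ a, IsOpen (U a)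
  uq : ∀ a, U a ⊆ ball (p a) (R a)
  hol : ∀ a, ∀ z ∈ closedBall (p a) (R a), DifferentiableAt ℂ (s a) z ∧
    DifferentiableAt ℂ (t a) z ∧ s a z ≠ 0
  wr : ∀ a, ∀ z ∈ closedBall (p a) (R a), ∀ j,
    α (e a) z j = s a z * dz j (t a) z - t a z * dz j (s a) z
  tr : ∀ a b x, In (e a) (ball (p a) (R a)) x → In (e b) (ball (p b) (R b)) x →
    ∃ h : ℂ, h ^ 2 = jd M (e a) (e b) x ∧
      h • ![s a (e a x), t a (e a x)] = (lf (c a b x)).1 *ᵥ ![s b (e b x), t b (e b x)]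
  lc : ∀ a b x, In (e a) (ball (p a) (R a)) x → In (e b) (ball (p b) (R b)) x →
    c a b x ∈ S ∧ (∀ᶠ y in 𝓝 x, c a b y = c a b x) ∧
      ∀ d, In (e d) (ball (p d) (R d)) x → c a b x * c b d x = c a d x
  lt : ∀ a, ∀ z ∈ U a, ‖t a z / s a z‖ < 1
  cov : ∀ x, ∃ a, In (e a) (U a) x ∧ ‖t a (e a x) / s a (e a x)‖ ≤ 1 / 2
  op : ∀ a, ∀ z ∈ ball (p a) (R a), ∀ N ∈ 𝓝 z,
    (fun w => t a w / s a w) '' N ∈ 𝓝 (t a z / s a z)
  sur : ∀ a (w : ℂ), ‖w‖ < 1 → ∃ z ∈ U a, t a z / s a z = w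
  cpt : ∀ a, ∃ K, IsCompact K ∧ K ⊆ U a ∧ ∀ w : ℂ, ‖w‖ ≤ 7 / 8 → ∃ z ∈ K, t a z / s a z = w
  cnt : T.Countable
  con : ∀ a g x y, In (e a) (U a) x → In (e a) (U a) y →
    t a (e a x) / s a (e a x) = t a (e a y) / s a (e a y) →
    LC (fun a => {x | In (e a) (ball (p a) (R a)) x}) (fun a x => t a (e a x) / s a (e a x)) c
      ((a, g), x) ((a, g), y)
  reg : ∀ a, ∀ z ∈ ball (p a) (R a), t a z / s a z ∉ T → α (e a) z ≠ 0
  cv : ∀ a, My.Cv k (F a)
  bd : ∀ a z, ‖z‖ < 1 → |F a z| ≤ B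
  iso : ∀ a b x, In (e a) (U a) x → In (e b) (U b) x →
    F b (t b (e b x) / s b (e b x)) = F a (t a (e a x) / s a (e a x)) - 4 * Real.log
      ‖(lf (c b a x)).1 0 0 + (lf (c b a x)).1 0 1 * (t a (e a x) / s a (e a x))‖

namespace Box2

variable {n : ℕ} {M : Mf n} {α : M.Fam (E n)} {k B : ℝ} (b : Box2 M α k B)

/-- The first integral in the chart. -/
def W (a : b.I) (z : E n) : ℂ := b.t a z / b.s a z

/-- The ball of the chart, as a subset of the manifold. -/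
def O (a : b.I) : Set M.X := {x | In (b.e a) (ball (b.p a) (b.R a)) x}

/-- The chains in the balls. -/
def L (u v : (b.I × PG) × M.X) : Prop := LC b.O (fun a x => b.W a (b.e a x)) b.c u v

/-- Two points of discs that come from the same point of the manifold. -/
def El (u v : (b.I × PG) × ℂ) : Prop := ∃ x, In (b.e u.1.1) (b.U u.1.1) x ∧
  In (b.e v.1.1) (b.U v.1.1) x ∧ u.2 = b.W u.1.1 (b.e u.1.1 x) ∧
  v.2 = b.W v.1.1 (b.e v.1.1 x) ∧ v.1.2 = u.1.2 * b.c u.1.1 v.1.1 x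

/-- The identification of points of discs. -/
def J (v : b.I × PG) (z : ℂ) (w : b.I × PG) (y : ℂ) : Prop :=
  Relation.TransGen b.El (v, z) (w, y)

/-- The monodromy of the vertices connected to the vertex `(a, 1)`. -/
def Gam (a : b.I) : Set PG := {g | Relation.EqvGen (My.Lk b.J) (a, 1) (a, g)}

/-- Compatible functions on the sheets with a bound for the gradient. -/
def Cmp (G : M.Fam (Mat n)) (κ : ℝ) (f : b.I × PG → M.X → ℝ) : Prop := ∀ a g, ∀ x ∈ b.O a,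
  (∀ d, x ∈ b.O d → f (d, g * b.c a d x) x = f (a, g) x) ∧
  ContDiffAt ℝ 1 (f (a, g) ∘ (b.e a).symm) (b.e a x) ∧
  ∀ ξ, fderiv ℝ (f (a, g) ∘ (b.e a).symm) (b.e a x) ξ ^ 2 ≤ κ * nq (G (b.e a) (b.e a x)) ξ

/-- The Möbius map between the values of two vertices. -/
def Mo (v v' : b.I × PG) (w : ℂ) : ℂ :=
  ((lf (v'.2⁻¹ * v.2)).1 1 0 + (lf (v'.2⁻¹ * v.2)).1 1 1 * w) /
    ((lf (v'.2⁻¹ * v.2)).1 0 0 + (lf (v'.2⁻¹ * v.2)).1 0 1 * w)

theorem coc : Cocy b.O b.c := fun i j l x hi hj hl => (b.lc i j x hi hj).2.2 l hl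

theorem conL {a : b.I} (g : PG) {x y : M.X} (hx : In (b.e a) (b.U a) x)
    (hy : In (b.e a) (b.U a) y) (h : b.W a (b.e a x) = b.W a (b.e a y)) :
    b.L ((a, g), x) ((a, g), y) := b.con a g x y hx hy h

end Box2

variable {n : ℕ} {M : Mf n} {α : M.Fam (E n)} (d : Dev M α)

/-- The developing map of the chart at `a`. -/
def dWx (a x : M.X) : ℂ := d.t a (d.e a x) / d.s a (d.e a x)

/-- The cocycle of Möbius maps. -/
def dC (a b x : M.X) : PG := QuotientGroup.mk (d.c a b x)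

/-- The chains for the developing maps. -/
def dLC (u v : (M.X × PG) × M.X) : Prop := LC d.O (dWx d) (dC d) u v

/-- The domain of the developing map, in the chart. -/
def dO (a : M.X) : Set (E n) := (d.e a).target ∩ (d.e a).symm ⁻¹' d.O a

/-- The points near `x` are chained to a holomorphic section. -/
def Anc (x : M.X) : Prop := ∃ (b : M.X) (g : PG) (D : Set ℂ) (σ : ℂ → E n), IsOpen D ∧
  DifferentiableOn ℂ σ D ∧ (∀ w ∈ D, σ w ∈ dO d b ∧ d.t b (σ w) / d.s b (σ w) = w) ∧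
  ∀ᶠ y in 𝓝 x, ∃ w ∈ D, dLC d ((x, 1), y) ((b, g), (d.e b).symm (σ w))

/-- The invariant density of the chart at `a`. -/
def dF (φ : M.Fam ℝ) (a : M.X) (z : E n) : ℝ :=
  φ (d.e a) z - Real.log (Complex.normSq (d.s a z ^ 2))

/-- The box at the point `x`. -/
structure Loc2 (φ : M.Fam ℝ) (x : M.X) (l : ℂˣ) (R : ℝ) (D : Set (E n)) (F : ℂ → ℝ) (κ : ℝ) :
    Prop where
  cl : closedBall (d.e x x) R ⊆ dO d x
  opn : IsOpen D
  mem : d.e x x ∈ D
  sub : D ⊆ ball (d.e x x) R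
  rng : ∀ z ∈ D, ‖d.t x z / l / (l * d.s x z)‖ < 1
  sur : ∀ w : ℂ, ‖w‖ < 1 → ∃ z ∈ D, d.t x z / l / (l * d.s x z) = w
  cpt : ∃ K, IsCompact K ∧ K ⊆ D ∧
    ∀ w : ℂ, ‖w‖ ≤ 7 / 8 → ∃ z ∈ K, d.t x z / l / (l * d.s x z) = w
  con : ∀ y y', In (d.e x) D y → In (d.e x) D y' → dWx d x y = dWx d x y' →
    dLC d ((x, 1), y) ((x, 1), y')
  sF : ContinuousOn F (closedBall 0 1)
  k0 : 0 < κ
  cv : My.Cv κ F
  eF : ∀ z ∈ D, F (d.t x z / l / (l * d.s x z)) =
    φ (d.e x) z - Real.log (Complex.normSq ((l * d.s x z) ^ 2))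

theorem pm_mk {A B : SL(2, ℂ)} (h : A = B ∨ A = -B) :
    (QuotientGroup.mk A : PG) = QuotientGroup.mk B := by
  rcases h with rfl | rfl
  · rfl
  · exact QuotientGroup.eq.2 (by
      rw [inv_neg, neg_mul, inv_mul_cancel]
      exact Subgroup.mem_center_iff.2 fun g => by rw [mul_neg, neg_mul, mul_one, one_mul])

theorem dC_coc : Cocy d.O (dC d) := fun i j l x hi hj hl => by
  rw [dC, dC, dC, ← QuotientGroup.mk_mul]
  exact pm_mk (d.co i j l x hi hj hl)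

theorem dC_lc {a b x : M.X} (ha : x ∈ d.O a) (hb : x ∈ d.O b) :
    ∀ᶠ y in 𝓝 x, dC d a b y = dC d a b x := (d.lc a b x ha hb).mono fun _ => pm_mk

theorem dO_opn (a : M.X) : IsOpen (dO d a) := (d.e a).isOpen_inter_preimage_symm (d.opn a)

theorem dO_mem {a x : M.X} (h : x ∈ d.O a) : d.e a x ∈ dO d a :=
  ⟨(d.e a).map_source (d.sub a h), by rwa [mem_preimage, (d.e a).left_inv (d.sub a h)]⟩

theorem dO_hol {a : M.X} {z : E n} (h : z ∈ dO d a) : (DifferentiableAt ℂ (d.s a) z ∧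
    DifferentiableAt ℂ (d.t a) z ∧ d.s a z ≠ 0) ∧
    ∀ j, α (d.e a) z j = d.s a z * dz j (d.t a) z - d.t a z * dz j (d.s a) z := by
  have h1 := d.hol a _ h.2
  have h2 := d.wr a _ h.2
  rw [(d.e a).right_inv h.1] at h1 h2
  exact ⟨h1, h2⟩

/-- Joined points of the chart are joined points of the manifold. -/
theorem dO_jn {a : M.X} {N : Set (E n)} {y z : E n} (hN : N ⊆ dO d a)
    (h : Jn N (fun w => d.t a w / d.s a w) y z) :
    Jn ((d.e a).symm '' N) (dWx d a) ((d.e a).symm y) ((d.e a).symm z) :=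
  h.mapOn ((d.e a).continuousOn_symm.mono fun _ hw => (hN hw).1) fun w hw =>
    ⟨mem_image_of_mem _ hw, by rw [dWx, (d.e a).right_inv (hN hw).1]⟩

end Pool.Agent.Lib.F4H
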