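import Pool.Agent.Lib.F4G.BoxAtl98
import Pool.Agent.Lib.F4H.Atl2
import Pool.Agent.Lib.F4H.Box2

/-! F4H: a family of boxes with chained fibres is an atlas of discs. -/

open scoped Topology Matrix MatrixGroups
open Set Filter Metric Relation

noncomputable section

namespace Pool.Agent.Lib.F4H.Box2

open Pool.Agent.Lib.SV (E)
open Pool.Agent.Lib.HS32 Pool.Agent.Lib.F4 Pool.Agent.Lib.F4G

variable {n : ℕ} {M : Mf n} {α : M.Fam (E n)} {k B : ℝ} (b : Box2 M α k B)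

theorem el98 :
    b.El = Com98 (fun a => {x | In (b.e a) (b.U a) x}) (fun a x => b.W a (b.e a x)) b.c := by
  funext u v
  refine propext (exists_congr fun x => ?_)
  exact ⟨fun h => ⟨h.1, h.2.1, h.2.2.1.symm, h.2.2.2.1.symm, h.2.2.2.2⟩,
    fun h => ⟨h.1, h.2.1, h.2.2.1.symm, h.2.2.2.1.symm, h.2.2.2.2⟩⟩

theorem inO98 {a : b.I} {x : M.X} (h : In (b.e a) (b.U a) x) : x ∈ b.O a := ⟨h.1, b.uq a h.2⟩

theorem mob98 (a d : b.I) (x : M.X) (ha : x ∈ b.O a) (hd : x ∈ b.O d) :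
    (lf (b.c d a x)).1 0 0 + (lf (b.c d a x)).1 0 1 * b.W a (b.e a x) ≠ 0 ∧
      b.W d (b.e d x) = ((lf (b.c d a x)).1 1 0 + (lf (b.c d a x)).1 1 1 * b.W a (b.e a x)) /
        ((lf (b.c d a x)).1 0 0 + (lf (b.c d a x)).1 0 1 * b.W a (b.e a x)) := by
  obtain ⟨h, -, e⟩ := b.tr d a x hd ha
  have sa := (b.hol a _ (ball_subset_closedBall ha.2)).2.2
  have sd := (b.hol d _ (ball_subset_closedBall hd.2)).2.2
  have e0 := congrFun e 0
  have e1 := congrFun e 1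
  simp only [Pi.smul_apply, smul_eq_mul, Matrix.mulVec, dotProduct, Fin.sum_univ_two,
    Matrix.cons_val_zero, Matrix.cons_val_one] at e0 e1
  have det := (lf (b.c d a x)).2
  rw [Matrix.det_fin_two] at det
  have h0 : h ≠ 0 := by
    rintro rfl
    apply sa
    linear_combination (-(b.s a (b.e a x))) * det - (lf (b.c d a x)).1 1 1 * e0 +
      (lf (b.c d a x)).1 0 1 * e1
  have ta : b.t a (b.e a x) = b.W a (b.e a x) * b.s a (b.e a x) := by
    unfold W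
    rw [div_mul_cancel₀ _ sa]
  have td : b.t d (b.e d x) = b.W d (b.e d x) * b.s d (b.e d x) := by
    unfold W
    rw [div_mul_cancel₀ _ sd]
  rw [ta] at e0 e1
  rw [td] at e1
  have k0 : (lf (b.c d a x)).1 0 0 + (lf (b.c d a x)).1 0 1 * b.W a (b.e a x) ≠ 0 := by
    intro q
    refine mul_ne_zero h0 sd ?_
    linear_combination e0 + b.s a (b.e a x) * q
  refine ⟨k0, ?_⟩
  rw [eq_div_iff k0]
  refine mul_right_cancel₀ sa ?_
  linear_combination e1 - b.W d (b.e d x) * e0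

theorem opnU98 (a : b.I) : IsOpen {x | In (b.e a) (b.U a) x} :=
  (b.e a).isOpen_inter_preimage (b.opn a)

theorem opnO98 (a : b.I) : IsOpen (b.O a) := (b.e a).isOpen_inter_preimage isOpen_ball

theorem ct98 (a : b.I) (x : M.X) (h : x ∈ b.O a) :
    ContinuousAt (fun x => b.W a (b.e a x)) x := by
  obtain ⟨h1, h2, h3⟩ := b.hol a _ (ball_subset_closedBall h.2)
  have h4 : ContinuousAt (b.W a) (b.e a x) := h2.continuousAt.div h1.continuousAt h3
  exact h4.comp ((b.e a).continuousAt h.1)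

theorem op98 (a : b.I) (x : M.X) (h : x ∈ b.O a) (N : Set M.X) (hN : N ∈ 𝓝 x) :
    (fun x => b.W a (b.e a x)) '' N ∈ 𝓝 (b.W a (b.e a x)) := by
  have h1 := b.op a _ h.2 _ ((b.e a).image_mem_nhds h.1 hN)
  rw [image_image] at h1
  exact h1

theorem tgt98 {a : b.I} {z : E n} (h : z ∈ b.U a) : z ∈ (b.e a).target :=
  b.sub a (ball_subset_closedBall (b.uq a h))

theorem in98 {a : b.I} {z : E n} (h : z ∈ b.U a) : In (b.e a) (b.U a) ((b.e a).symm z) ∧
    b.W a (b.e a ((b.e a).symm z)) = b.t a z / b.s a z := by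
  have h4 := (b.e a).right_inv (b.tgt98 h)
  refine ⟨⟨(b.e a).map_target (b.tgt98 h), ?_⟩, ?_⟩
  · rwa [h4]
  · rw [h4, W]

theorem sur98 (a : b.I) (w : ℂ) (hw : ‖w‖ < 1) :
    ∃ x, In (b.e a) (b.U a) x ∧ b.W a (b.e a x) = w := by
  obtain ⟨z, h1, h2⟩ := b.sur a w hw
  exact ⟨_, (b.in98 h1).1, (b.in98 h1).2.trans h2⟩

theorem co98 (i j l : b.I) (x : M.X) (hi : In (b.e i) (b.U i) x) (hj : In (b.e j) (b.U j) x)
    (hl : In (b.e l) (b.U l) x) : b.c i j x * b.c j l x = b.c i l x :=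
  b.coc i j l x (b.inO98 hi) (b.inO98 hj) (b.inO98 hl)

theorem tr98 (i j : b.I) (x : M.X) (hi : In (b.e i) (b.U i) x) (hj : In (b.e j) (b.U j) x) :
    (lf (b.c j i x)).1 0 0 + (lf (b.c j i x)).1 0 1 * b.W i (b.e i x) ≠ 0 ∧
      b.W j (b.e j x) = ((lf (b.c j i x)).1 1 0 + (lf (b.c j i x)).1 1 1 * b.W i (b.e i x)) /
        ((lf (b.c j i x)).1 0 0 + (lf (b.c j i x)).1 0 1 * b.W i (b.e i x)) ∧
      b.F j (b.W j (b.e j x)) = b.F i (b.W i (b.e i x)) -
        4 * Real.log ‖(lf (b.c j i x)).1 0 0 + (lf (b.c j i x)).1 0 1 * b.W i (b.e i x)‖ :=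
  ⟨(b.mob98 i j x (b.inO98 hi) (b.inO98 hj)).1, (b.mob98 i j x (b.inO98 hi) (b.inO98 hj)).2,
    b.iso i j x hi hj⟩

theorem symm98 {v w : b.I × PG} {z y : ℂ} (h : b.J v z w y) : b.J w y v z := by
  unfold J at h ⊢
  rw [b.el98] at h ⊢
  exact F4G.symm98 b.co98 h

/-- The identification is invariant under left translations. -/
theorem left98 (f : PG) {v w : b.I × PG} {z y : ℂ} (h : b.J v z w y) :
    b.J (v.1, f * v.2) z (w.1, f * w.2) y := by
  unfold J at h ⊢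
  rw [b.el98] at h ⊢
  exact F4G.left98 f h

/-- The identification is given by an isometric Möbius map which depends on the vertices only. -/
theorem iso98 {v w : b.I × PG} {z y : ℂ} (h : b.J v z w y) :
    ‖z‖ < 1 ∧ ‖y‖ < 1 ∧ (lf (w.2⁻¹ * v.2)).1 0 0 + (lf (w.2⁻¹ * v.2)).1 0 1 * z ≠ 0 ∧
      y = b.Mo v w z ∧ b.F w.1 y = b.F v.1 z -
        4 * Real.log ‖(lf (w.2⁻¹ * v.2)).1 0 0 + (lf (w.2⁻¹ * v.2)).1 0 1 * z‖ := by
  unfold J at h
  rw [b.el98] at h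
  exact F4G.iso98 b.co98 (fun a x hx => b.lt a _ hx.2) b.F (fun g => (lf g).1) lf_mul98 b.tr98 h

/-- Identified values come from chained points. -/
theorem chain98 {v w : b.I × PG} {x y : M.X} (hx : In (b.e v.1) (b.U v.1) x)
    (hy : In (b.e w.1) (b.U w.1) y) (h : b.J v (b.W v.1 (b.e v.1 x)) w (b.W w.1 (b.e w.1 y))) :
    b.L (v, x) (w, y) := by
  have e : ∀ u v : (b.I × PG) × ℂ, b.El u v → ∀ x y, In (b.e u.1.1) (b.U u.1.1) x →
      In (b.e v.1.1) (b.U v.1.1) y → u.2 = b.W u.1.1 (b.e u.1.1 x) →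
      v.2 = b.W v.1.1 (b.e v.1.1 y) → b.L (u.1, x) (v.1, y) := by
    rintro ⟨⟨i, g⟩, z⟩ ⟨⟨j, g'⟩, z'⟩ ⟨q, h1, h2, h3, h4, h5⟩ x y hx hy k1 k2
    obtain rfl : g' = g * b.c i j q := h5
    exact LC.trans (b.conL g hx h1 (k1.symm.trans h3)) (LC.trans
      (LC.com g (b.inO98 h1) (b.inO98 h2)) (b.conL _ h2 hy (h4.symm.trans k2)))
  have t : ∀ u v : (b.I × PG) × ℂ, TransGen b.El u v → ∀ x y, In (b.e u.1.1) (b.U u.1.1) x →
      In (b.e v.1.1) (b.U v.1.1) y → u.2 = b.W u.1.1 (b.e u.1.1 x) →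
      v.2 = b.W v.1.1 (b.e v.1.1 y) → b.L (u.1, x) (v.1, y) := by
    intro u v h
    induction h with
    | single h => exact e _ _ h
    | tail _ h ih =>
      intro x y hx hy k1 k2
      obtain ⟨q, h1, -, h3, -⟩ := id h
      exact LC.trans (ih x q hx h1 k1 h3) (e _ _ h q y h1 hy h3 k2)
  exact t _ _ h x y hx hy rfl rfl

theorem atl98 [M.Cpt] : ∃ r : ℝ, My.Atl (fun v : b.I × PG => v.1) b.F b.J k B r := by
  have := b.fin
  have h := atlL98 (O := b.O) (W := fun a x => b.W a (b.e a x)) (c := b.c) b.opnU98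
    (fun a x hx => b.inO98 hx) b.cov (fun a x hx => b.ct98 a x (b.inO98 hx))
    (fun a x hx => b.op98 a x (b.inO98 hx)) (fun i j x hi hj => (b.lc i j x hi hj).2.1) b.coc
    (fun a x hx => b.lt a _ hx.2) (Sp b.O (fun a x => b.W a (b.e a x)) b.c) (fun _ _ h => h)
    (fun a g x y hx hy h => b.conL g hx hy h) b.sur98
    (fun a => by
      obtain ⟨K, k1, k2, k3⟩ := b.cpt a
      refine ⟨(b.e a).symm '' K, k1.image_of_continuousOn
        ((b.e a).continuousOn_symm.mono fun z hz => b.tgt98 (k2 hz)), ?_, fun w hw => ?_⟩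
      · rintro _ ⟨z, hz, rfl⟩
        exact (b.in98 (k2 hz)).1
      · obtain ⟨z, h1, h2⟩ := k3 w (hw.trans (by norm_num))
        exact ⟨_, mem_image_of_mem _ h1, (b.in98 (k2 h1)).2.trans h2⟩)
    b.F (fun g => (lf g).1) (fun g => (lf g).2) lf_mul98 b.mob98 b.iso k B b.hk b.cv b.bd
  rw [← b.el98] at h
  exact h

end Pool.Agent.Lib.F4H.Box2
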