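import Pool.Agent.Lib.F4H.BlueC
import Pool.Agent.Lib.F4H.BoxAtl2

/-! Project f4h: the discs of a family of boxes form an atlas. -/

namespace Pool.Agent.Lib.F4H

theorem st_ATL2 : St_ATL2 := fun _ _ _ _ _ _ b => b.atl98

end Pool.Agent.Lib.F4H
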