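import Pool.Agent.Lib.F4H.Sh0
import Pool.Agent.Lib.F4G.BoxB

/-! Project f4h: the weight is constant along the connected pieces of all fibres. -/

open scoped Classical Topology ContDiff Matrix
open Set Filter Complex Metric

noncomputable section

namespace Pool.Agent.Lib.F4H.P72

open Pool.Agent.Lib.SV (E)
open Pool.Agent.Lib.HS32 Pool.Agent.Lib.F4 Pool.Agent.Lib.F4G

variable {n : ℕ} {O : Set (E n)} {W : E n → ℂ} {p : E n}

/-- Values off a countable set are frequent. -/
theorem frq (hO : IsOpen O) (hW : DifferentiableOn ℂ W O) (hp : p ∈ O)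
    (den : ∃ᶠ w in 𝓝 p, fderiv ℂ W w ≠ 0) {T : Set ℂ} (hT : T.Countable) :
    ∃ᶠ y in 𝓝 p, W y ∉ T := fun h => by
  obtain ⟨t, ht, u, hu, rfl⟩ := (hT.dense_compl ℝ).inter_nhds_nonempty (B72.opn
    ((hO.eventually_mem hp).mono fun w hw => hW.differentiableAt (hO.mem_nhds hw)) den _ h)
  exact hu ht

/-- The fibres are locally connected. -/
theorem lj (hS : St_SH) (hO : IsOpen O) (hW : DifferentiableOn ℂ W O) (hp : p ∈ O)
    (den : ∃ᶠ w in 𝓝 p, fderiv ℂ W w ≠ 0) {N : Set (E n)} (hN : N ∈ 𝓝 p) :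
    ∀ᶠ y in 𝓝 p, W y = W p → Jn N W y p := by
  obtain ⟨U, d, L, u1, u2, u3, -, -, -, -, -, -, l1, l2, -⟩ := hS n O W p N hO hp hW den hN
  filter_upwards [u1.mem_nhds u2] with y hy e
  obtain ⟨z, z1, z2⟩ := l2 y hy
  have : z = p := by_contra fun c => (l1 z z1 c).1 (z2.eq.trans e)
  exact this ▸ z2.mono fun w hw => (u3 hw).1

/-- A function whose differential is proportional to that of `W` is constant along fibres. -/
theorem hc (hS : St_SH) {h : E n → ℝ} (hO : IsOpen O) (hW : DifferentiableOn ℂ W O)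
    (den : ∀ z ∈ O, ∃ᶠ w in 𝓝 z, fderiv ℂ W w ≠ 0)
    (hh : ∀ z ∈ O, DifferentiableAt ℝ h z ∧ ∀ i j, dw h z i * dz j W z = dz i W z * dw h z j)
    {y z : E n} (J : Jn O W y z) : h y = h z := by
  have key : ∀ {y z : E n}, Jn O W y z →
      (∀ x ∈ O, W x = W y → ∀ᶠ u in 𝓝 x, W u = W x → h u = h x) → h y = h z := by
    rintro y z ⟨C, c1, c2, c3, c4, c5⟩ H
    refine c1.induction₂ (fun a b => h a = h b) (fun x hx => ?_)
      (fun a b d _ _ _ p q => p.trans q) (fun a b _ _ p => p.symm) c3 c4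
    filter_upwards [nhdsWithin_le_nhds (H x (c2 hx) (c5 x hx)), self_mem_nhdsWithin] with u a b
    exact (a ((c5 u b).trans (c5 x hx).symm)).symm
  refine key J fun p hp _ => ?_
  obtain ⟨U, d, L, u1, u2, u3, -, -, -, -, -, -, -, -, l3⟩ :=
    hS n O W p O hO hp hW (den p hp) (hO.mem_nhds hp)
  filter_upwards [u1.mem_nhds u2] with y hy e
  refine eq_of_forall_dist_le fun ε e0 => ?_
  obtain ⟨u, u4, ⟨v, v1, v2⟩, u5⟩ := ((frq hO hW hp (den p hp) (crit90 _ W O hO hW)).and_eventually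
    ((l3 y hy e _ ((hh y (u3 hy).2).1.continuousAt (ball_mem_nhds _ (half_pos e0)))).and
      ((hh p hp).1.continuousAt (ball_mem_nhds _ (half_pos e0))))).exists
  have e1 : h u = h v := key (v2.mono fun w hw => (u3 hw).2) fun x hx ex => F83.loc
    ((hO.eventually_mem hx).mono fun w hw => hW.differentiableAt (hO.mem_nhds hw))
    (fun c => u4 ⟨x, ⟨hx, c⟩, ex⟩) ((hO.eventually_mem hx).mono hh)
  have a : dist (h v) (h y) < ε / 2 := v1
  have b : dist (h u) (h p) < ε / 2 := u5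
  rw [e1] at b
  linarith [dist_triangle_left (h y) (h p) (h v)]

/-- The weight has a differential proportional to that of `W`. -/
theorem wd {y : E n → ℂ} {al : E n → E n} {ph : E n → ℝ} {z : E n} (hW : HolN W z) (hy : HolN y z)
    (y0 : y z ≠ 0) (ha : ∀ᶠ w in 𝓝 z, ∀ k, al w k = y w * dz k W w)
    (hp : DifferentiableAt ℝ ph z) (pw : d1 al z = wg (dw ph z) (al z)) :
    DifferentiableAt ℝ (fun w => ph w - Real.log (normSq (y w))) z ∧ ∀ i j,
      dw (fun w => ph w - Real.log (normSq (y w))) z i * dz j W z =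
        dz i W z * dw (fun w => ph w - Real.log (normSq (y w))) z j := by
  have ly := ((mHOL n y z).2.2 hy).2.2.2 y0
  refine ⟨hp.sub (cd_diff ly.1), fun i j => ?_⟩
  obtain ⟨w1, w2, -⟩ := (mHOL n W z).2.2 hW
  have e1 : ∀ k, dw (fun w => ph w - Real.log (normSq (y w))) z k =
      dw ph z k - dz k y z / y z := fun k => by
    rw [← ly.2.2 k, dw, dw, ← dz_sub (f := fun w => (ph w : ℂ))
      (ofRealCLM.differentiableAt.comp z hp :) (cd_diff (cd_ofReal ly.1))]
    simp only [ofReal_sub]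
  have e2 : ∀ i j, dz i (fun w => al w j) z = dz i y z * dz j W z + y z * dz i (dz j W) z :=
    fun i j => by
      rw [← dz_mul (hy.self_of_nhds.restrictScalars ℝ) (cd_diff (cd_dz w1 j))]
      exact dz_congr (ha.mono fun w hw => hw j)
  have e3 := congrFun (congrFun pw i) j
  simp only [d1, wg, Matrix.of_apply, e2, ha.self_of_nhds, dz_dz w1 i j] at e3
  rw [e1, e1]
  field_simp
  linear_combination -e3

end Pool.Agent.Lib.F4H.P72
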