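import Pool.Agent.Lib.F4H.Sh2
import Pool.Agent.Lib.RA.T_AN

/-! Project f4h: local structure of the fibres. Proof. -/

open scoped Topology ContDiff
open Set Filter Metric

set_option linter.unusedVariables false

noncomputable section

namespace Pool.Agent.Lib.F4H

open Pool.Agent.Lib.SV (E)
open Pool.Agent.Lib.F4G.Con

namespace Sh

variable {V : Type} [NormedAddCommGroup V] [NormedSpace ℂ V] {g : V × ℂ → ℂ} {r p d R : ℝ}

/-- The open box. -/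
def Bx (g : V × ℂ → ℂ) (r p d : ℝ) : Set (V × ℂ) := {q | ‖q.1‖ < r ∧ ‖q.2‖ < p ∧ ‖g q‖ < d}

theorem nrm {a : V} (h : R * ‖a‖ < r) {t : ℂ} (ht : ‖t‖ ≤ R) : ‖t • a‖ < r := by
  rw [norm_smul]
  exact (mul_le_mul_of_nonneg_right ht (norm_nonneg a)).trans_lt h

theorem anS {a : V} {w : ℂ × ℂ} (h : AnalyticAt ℂ g (w.1 • a, w.2)) :
    AnalyticAt ℂ (fun w : ℂ × ℂ => g (w.1 • a, w.2)) w :=
  h.comp_of_eq (f := fun w : ℂ × ℂ => ((w.1 • a, w.2) : V × ℂ))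
    ((analyticAt_fst.smul analyticAt_const).prod analyticAt_snd) rfl

theorem opB (hA : ∀ z y, ‖z‖ < r → ‖y‖ ≤ p → AnalyticAt ℂ g (z, y)) : IsOpen (Bx g r p d) :=
  isOpen_iff_mem_nhds.2 fun q hq =>
    (continuousAt_fst.norm.eventually_lt continuousAt_const hq.1).and
      ((continuousAt_snd.norm.eventually_lt continuousAt_const hq.2.1).and
        ((hA q.1 q.2 hq.1 hq.2.1.le).continuousAt.norm.eventually_lt continuousAt_const hq.2.2))

theorem jm (hb : ∀ z y, ‖z‖ < r → ‖y‖ = p → d ≤ ‖g (z, y)‖) {a : V} (h : R * ‖a‖ < r)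
    {x z : ℂ × ℂ} (hx : ‖g (x.1 • a, x.2)‖ < d)
    (k : Jn (K R p) (fun w : ℂ × ℂ => g (w.1 • a, w.2)) x z) :
    Jn (Bx g r p d) g (x.1 • a, x.2) (z.1 • a, z.2) :=
  k.map (f := fun w : ℂ × ℂ => ((w.1 • a, w.2) : V × ℂ)) (by fun_prop) fun u hu e =>
    ⟨⟨nrm h (mK.1 hu).1, ltp (G := fun w : ℂ × ℂ => g (w.1 • a, w.2))
      (fun w hw => hb _ _ (nrm h (mK.1 hw).1)) hu (lt_of_eq_of_lt (congrArg norm e) hx),
      lt_of_eq_of_lt (congrArg norm e) hx⟩, e⟩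

theorem toax (hp : 0 < p) (hA : ∀ z y, ‖z‖ < r → ‖y‖ ≤ p → AnalyticAt ℂ g (z, y))
    (hb : ∀ z y, ‖z‖ < r → ‖y‖ = p → d ≤ ‖g (z, y)‖) {q : V × ℂ} (hq : q ∈ Bx g r p d) :
    ∃ y, Jn (Bx g r p d) g q (0, y) := by
  have h : 1 * ‖q.1‖ < r := by simpa using hq.1
  have e : ‖g ((1 : ℂ) • q.1, q.2)‖ < d := by simpa using hq.2.2
  obtain ⟨y, hy⟩ := ax (G := fun w : ℂ × ℂ => g (w.1 • q.1, w.2)) (R := 1) (w := (1, q.2)) hp
    (fun w hw => anS (hA _ _ (nrm h (mK.1 hw).1) (mK.1 hw).2))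
    (fun w hw => hb _ _ (nrm h (mK.1 hw).1)) (mK.2 ⟨by simp, hq.2.1.le⟩) e
  exact ⟨y, by simpa using jm hb h (x := (1, q.2)) e hy⟩

theorem near (hr : 0 < r) (hp : 0 < p) (hd : 0 < d)
    (hA : ∀ z y, ‖z‖ < r → ‖y‖ ≤ p → AnalyticAt ℂ g (z, y))
    (hb : ∀ z y, ‖z‖ < r → ‖y‖ = p → d ≤ ‖g (z, y)‖) (h00 : g (0, 0) = 0)
    (h0 : ∀ y, ‖y‖ ≤ p → g (0, y) = 0 → y = 0) {q : V × ℂ} (hq : q ∈ Bx g r p d) (q0 : g q = 0)
    {N : Set (V × ℂ)} (hN : N ∈ 𝓝 q) : ∀ᶠ w in 𝓝 0, ∃ z ∈ N, Jn (Bx g r p d) g w z := by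
  obtain ⟨T, t0, t1⟩ := polar (g := fun w : ℂ × ℂ => g (w.1 • q.1, w.2))
    (O := {w | ‖w.1 • q.1‖ < r ∧ ‖w.2‖ ≤ p}) (fun w hw => anS (hA _ _ hw.1 hw.2))
    fun w hw e e' => nz (z := w.1 • q.1) hp (fun y => hA _ y hw.1) (fun y => hb _ y hw.1) hw.2
      (lt_of_eq_of_lt (congrArg norm e) (by simpa using hd))
      (e'.mono fun y hy => Eq.trans hy (Eq.symm e))
  have a0 : ∀ᶠ R in 𝓝 (1 : ℝ), R * ‖q.1‖ < r :=
    (continuousAt_id.mul continuousAt_const).eventually_lt continuousAt_const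
      (by simpa using hq.1)
  obtain ⟨R0, a1, a2⟩ := ((a0.filter_mono (nhdsWithin_le_nhds (s := Ioi 1))).and
    self_mem_nhdsWithin).exists
  obtain ⟨R, a3, h, a4⟩ := ((t0.image norm).dense_compl ℝ).exists_mem_open
    (U := {R : ℝ | R * ‖q.1‖ < r} ∩ Ioi 1) ((isOpen_lt (by fun_prop) continuous_const).inter
      isOpen_Ioi) ⟨R0, a1, a2⟩
  have c1 : ContinuousAt (fun w : ℂ × ℂ => ((w.1 • q.1, w.2) : V × ℂ)) (1, q.2) := by fun_prop
  have b1 := sl2 (G := fun w : ℂ × ℂ => g (w.1 • q.1, w.2)) (R := R) (q := (1, q.2)) hp hd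
    (fun w hw => anS (hA _ _ (nrm h (mK.1 hw).1) (mK.1 hw).2))
    (fun w hw => hb _ _ (nrm h (mK.1 hw).1)) (by simpa using h00)
    (fun y hy e => h0 y hy (by simpa using e))
    (fun w hw e e' => t1 w ⟨nrm h (mK.1 hw).1, (mK.1 hw).2⟩ e' fun k => a3 ⟨_, k, e⟩)
    (mK.2 ⟨by simpa using le_of_lt a4, hq.2.1.le⟩) (by simpa using q0)
    (c1.preimage_mem_nhds (t := N) (by simpa using hN))
  have z0 : ‖(0 : V)‖ < r := by simpa using hr
  have b2 := cmp (G := fun y : ℂ => g (0, y)) (c := 0) (isCompact_closedBall (0 : ℂ) p)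
    (fun y hy => (sl_an (hA 0 y z0 (mem_closedBall_zero_iff.1 hy))).continuousAt) isOpen_interior
    fun y hy e => by
      rw [h0 y (mem_closedBall_zero_iff.1 hy) e]
      exact mem_interior_iff_mem_nhds.2 b1
  have b3 : Tendsto g (𝓝 0) (𝓝 0) :=
    (hA 0 0 z0 (by simpa using hp.le)).continuousAt.tendsto.mono_right (by rw [h00])
  have b4 : (0 : V × ℂ) ∈ Bx g r p d :=
    ⟨z0, by simpa using hp, lt_of_eq_of_lt (congrArg norm h00) (by simpa using hd)⟩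
  filter_upwards [b3.eventually b2, (opB hA).mem_nhds b4] with w w1 w2
  obtain ⟨y, hy⟩ := toax hp hA hb w2
  obtain ⟨z, z1, z2⟩ := interior_subset (w1 y (mem_closedBall_zero_iff.2 hy.right.2.1.le) hy.eq)
  exact ⟨_, z1, hy.trans (by
    simpa using jm hb h (x := (0, y)) (by simpa using hy.right.2.2) z2)⟩

theorem sh0 {O : Set (V × ℂ)} (hO : O ∈ 𝓝 0) (hg : AnalyticOnNhd ℂ g O) (h0 : g 0 = 0)
    (h1 : ¬∀ᶠ y in 𝓝 0, g (0, y) = 0) : ∃ r p d : ℝ, 0 < r ∧ 0 < p ∧ 0 < d ∧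
      (∀ z y, ‖z‖ < r → ‖y‖ ≤ p → (z, y) ∈ O) ∧ (∀ z y, ‖z‖ < r → ‖y‖ = p → d ≤ ‖g (z, y)‖) ∧
      (∀ y, ‖y‖ ≤ p → y ≠ 0 → g (0, y) ≠ 0 ∧ dy g (0, y) ≠ 0) ∧
      ∀ c, ‖c‖ < d → ∃ y, ‖y‖ ≤ p ∧ g (0, y) = c := by
  have a1 : ∀ᶠ y in 𝓝[≠] (0 : ℂ), g (0, y) ≠ 0 :=
    (sl_an (hg 0 (mem_of_mem_nhds hO))).eventually_eq_zero_or_eventually_ne_zero.resolve_left h1
  have a2 : ContinuousAt (fun y : ℂ => (((0 : V), y) : V × ℂ)) 0 := by fun_prop
  have a0 : ∀ᶠ y in 𝓝[≠] (0 : ℂ), dy g (0, y) ≠ 0 :=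
    (sl_an (dy_an (hg 0 (mem_of_mem_nhds hO)))).eventually_eq_zero_or_eventually_ne_zero
      |>.resolve_left fun e => by
      obtain ⟨t, ht, b⟩ := Metric.eventually_nhds_iff_ball.1 (e.and (a2.eventually hO))
      refine h1 (mem_of_superset (ball_mem_nhds 0 ht) fun y hy => ?_)
      exact (isOpen_ball.is_const_of_deriv_eq_zero (f := fun y => g (0, y))
        (convex_ball (0 : ℂ) t).isPreconnected (fun x hx => (sl_der (hg (0, x)
          (b x hx).2)).differentiableAt.differentiableWithinAt) (fun x hx =>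
          (sl_der (hg (0, x) (b x hx).2)).deriv.trans (b x hx).1) hy (mem_ball_self ht)).trans h0
  obtain ⟨p, hp, a8⟩ := Metric.nhds_basis_closedBall.eventually_iff.1
    (((eventually_nhdsWithin_iff.1 a1).and (a2.eventually (eventually_mem_nhds_iff.2 hO))).and
      (eventually_nhdsWithin_iff.1 a0))
  have a3 := fun {y} hy => (a8 (x := y) hy).1
  obtain ⟨d, hd, a4⟩ := (isCompact_sphere (0 : ℂ) p).exists_forall_le'
    (f := fun y => ‖g (0, y)‖) (a := 0) (fun y hy => (sl_an (hg (0, y) (mem_of_mem_nhds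
      (a3 (sphere_subset_closedBall hy)).2))).continuousAt.norm.continuousWithinAt)
    fun y hy => norm_pos_iff.2 ((a3 (sphere_subset_closedBall hy)).1 fun e => by
      have e' : y = 0 := e
      rw [e', mem_sphere, dist_self] at hy
      exact hp.ne hy)
  have a5 : ∀ᶠ z in 𝓝 (0 : V), ∀ y ∈ closedBall (0 : ℂ) p, (z, y) ∈ O :=
    (isCompact_closedBall 0 p).eventually_forall_of_forall_eventually fun y hy => (a3 hy).2
  have a6 : ∀ᶠ z in 𝓝 (0 : V), ∀ y ∈ sphere (0 : ℂ) p, d / 2 < ‖g (z, y)‖ :=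
    (isCompact_sphere 0 p).eventually_forall_of_forall_eventually fun y hy =>
      continuousAt_const.eventually_lt (hg (0, y) (mem_of_mem_nhds
        (a3 (sphere_subset_closedBall hy)).2)).continuousAt.norm (by linarith [a4 y hy])
  obtain ⟨r, hr, a7⟩ := Metric.eventually_nhds_iff_ball.1 (a5.and a6)
  have b1 := vp (q := (0 : V × ℂ)) (hg 0 (mem_of_mem_nhds hO)) (by rw [h0]; exact h1)
    (closedBall_mem_nhds (0 : ℂ) hp)
  rw [h0] at b1
  obtain ⟨e, he, b2⟩ := Metric.eventually_nhds_iff_ball.1 b1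
  refine ⟨r, p, min (d / 2) e, hr, hp, lt_min (half_pos hd) he, fun z y e1 e2 =>
    (a7 z (mem_ball_zero_iff.2 e1)).1 y (mem_closedBall_zero_iff.2 e2), fun z y e1 e2 =>
    (min_le_left _ _).trans
      ((a7 z (mem_ball_zero_iff.2 e1)).2 y (mem_sphere_zero_iff_norm.2 e2)).le, fun y e1 e2 =>
    ⟨(a3 (mem_closedBall_zero_iff.2 e1)).1 e2, (a8 (mem_closedBall_zero_iff.2 e1)).2 e2⟩,
    fun c hc => ?_⟩
  obtain ⟨y, y1, y2⟩ := b2 c (mem_ball_zero_iff.2 (lt_min_iff.1 hc).2)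
  exact ⟨y, mem_closedBall_zero_iff.1 y1, y2⟩

end Sh

theorem st_SH : St_SH := by
  intro n O W p N hO hp hW hD hN
  have aW := RA.ANB.analyticOnNhd hO hW
  obtain ⟨R, hR0, hB⟩ := Metric.mem_nhds_iff.1 (inter_mem hN (hO.mem_nhds hp))
  have aB : AnalyticOnNhd ℂ W (ball p R) := aW.mono fun z hz => (hB hz).2
  obtain ⟨z0, z1, z2⟩ := (hD.and_eventually (ball_mem_nhds p hR0)).exists
  obtain ⟨x1, b1, b2⟩ : ∃ x ∈ ball p R, W x ≠ W p := by
    by_contra e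
    refine z1 ((EventuallyEq.fderiv_eq (f₁ := W) (f := fun _ => W p) ?_).trans (by simp))
    filter_upwards [isOpen_ball.mem_nhds z2] with x hx
    by_contra e'
    exact e ⟨x, hx, e'⟩
  obtain ⟨l, hl⟩ := SeparatingDual.exists_eq_one (R := ℂ) (x := x1 - p)
    (sub_ne_zero.2 fun e => b2 (by rw [e]))
  let V := LinearMap.ker (l : E n →ₗ[ℂ] ℂ)
  let Φ : (V × ℂ) ≃L[ℂ] E n := ContinuousLinearEquiv.equivOfInverse
    (V.subtypeL.coprod (ContinuousLinearMap.toSpanSingleton ℂ (x1 - p)))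
    ((((ContinuousLinearMap.id ℂ (E n)) - (ContinuousLinearMap.toSpanSingleton ℂ (x1 - p)).comp
      l).codRestrict V fun x => by simp [V, hl, -map_sub, map_sub l x]).prod l)
    (fun q => by
      have := q.1.2
      simp only [V, LinearMap.mem_ker, ContinuousLinearMap.coe_coe] at this
      ext <;> simp [hl, this, -map_sub]) fun x => by simp
  have hΦ : ∀ y : ℂ, Φ (0, y) = y • (x1 - p) := fun y => by simp [Φ]
  have aΦ : ∀ q, AnalyticAt ℂ (fun q => p + Φ q) q := fun q =>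
    analyticAt_const.add (Φ.analyticAt q)
  have cΦ : Continuous fun q => p + Φ q := by fun_prop
  have cΨ : Continuous fun x => Φ.symm (x - p) := by fun_prop
  have aG : AnalyticOnNhd ℂ (fun q => W (p + Φ q) - W p) ((fun q => p + Φ q) ⁻¹' ball p R) :=
    fun q hq => ((aB _ hq).comp_of_eq (aΦ q) rfl).sub analyticAt_const
  obtain ⟨r, ρ, d, hr, hρ, hd, c1, c2, c3, c4⟩ := Sh.sh0 (g := fun q => W (p + Φ q) - W p)
    ((isOpen_ball.preimage cΦ).mem_nhds (by simpa using hR0)) aG (by simp) (fun h => by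
      have d1 : Convex ℝ {y : ℂ | p + Φ (0, y) ∈ ball p R} := by
        simp only [hΦ, add_mem_ball_iff_norm, ← mem_ball_zero_iff]
        exact (convex_ball 0 R).linear_preimage
          ((LinearMap.toSpanSingleton ℂ (E n) (x1 - p)).restrictScalars ℝ)
      have d2 := AnalyticOnNhd.eqOn_zero_of_preconnected_of_eventuallyEq_zero
        (f := fun y => W (p + Φ (0, y)) - W p) (U := {y : ℂ | p + Φ (0, y) ∈ ball p R})
        (fun y hy => sl_an (q := (0, y)) (aG _ hy))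
        d1.isPreconnected (z₀ := 0) (by simpa [hΦ] using hR0) h
        (show 1 ∈ _ by simpa [hΦ] using mem_ball_iff_norm.1 b1)
      exact b2 (by simpa [hΦ, sub_eq_zero] using d2))
  set g : V × ℂ → ℂ := fun q => W (p + Φ q) - W p with hg
  have hA : ∀ z y, ‖z‖ < r → ‖y‖ ≤ ρ → AnalyticAt ℂ g (z, y) := fun z y e1 e2 =>
    aG _ (c1 z y e1 e2)
  have e1 : ∀ x, p + Φ (Φ.symm (x - p)) = x := fun x => by simp
  have e2 : ∀ q, Φ.symm (p + Φ q - p) = q := fun q => by simp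
  have e3 : ∀ x, g (Φ.symm (x - p)) = W x - W p := fun x => by simp only [hg, e1]
  have e4 : ‖(0 : V)‖ < r := by simpa using hr
  have e5 : p + Φ (0, 0) = p := by simp [hΦ]
  have e6 : g (0, 0) = 0 := by simp only [hg, e5, sub_self]
  have e7 : Φ.symm (p - p) = 0 := by simp
  have tr : ∀ q z, Jn (Sh.Bx g r ρ d) g q z →
      Jn ((fun x => Φ.symm (x - p)) ⁻¹' Sh.Bx g r ρ d) W (p + Φ q) (p + Φ z) := fun q z h =>
    h.map cΦ fun u hu e => ⟨by rw [mem_preimage, e2]; exact hu, sub_left_injective e⟩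
  refine ⟨(fun x => Φ.symm (x - p)) ⁻¹' Sh.Bx g r ρ d, d,
    (fun y : ℂ => p + Φ (0, y)) '' closedBall 0 ρ, (Sh.opB hA).preimage cΨ, ?_, fun x hx => ?_, hd,
    fun x hx => mem_ball_iff_norm.2 (e3 x ▸ hx.2.2),
    (isCompact_closedBall _ _).image (by fun_prop), ?_, ?_, fun w hw => ?_, ?_, fun x hx => ?_,
    fun x hx h N0 h0 => ?_⟩
  · rw [mem_preimage, e7]
    exact ⟨e4, by simpa using hρ, lt_of_eq_of_lt (congrArg norm e6) (by simpa using hd)⟩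
  · exact hB (e1 x ▸ c1 _ _ hx.1 hx.2.1.le)
  · rintro _ ⟨y, hy, rfl⟩
    exact hB (c1 0 y e4 (mem_closedBall_zero_iff.1 hy))
  · rintro _ ⟨y, hy, rfl⟩ h
    have k : ‖g (0, y)‖ < d := mem_ball_iff_norm.1 h
    rw [mem_preimage, e2]
    exact ⟨e4, lt_of_le_of_ne (mem_closedBall_zero_iff.1 hy) fun e => (c2 0 y e4 e).not_gt k, k⟩
  · obtain ⟨y, y1, y2⟩ := c4 _ (mem_ball_iff_norm.1 hw)
    exact ⟨_, ⟨y, mem_closedBall_zero_iff.2 y1, rfl⟩, sub_left_injective y2⟩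
  · rintro _ ⟨y, hy, rfl⟩ h
    have y1 := mem_closedBall_zero_iff.1 hy
    obtain ⟨k1, k2⟩ := c3 y y1 fun e => h (by rw [e]; exact e5)
    refine ⟨sub_ne_zero.1 k1, fun e => k2 ?_⟩
    have k3 := ((aB _ (c1 0 y e4 y1)).differentiableAt.hasFDerivAt.comp (0, y)
      (Φ.hasFDerivAt.const_add p)).sub_const (W p)
    have k4 : fderiv ℂ g (0, y) = _ := k3.fderiv
    rw [dy, k4, e]
    rfl
  · obtain ⟨y, hy⟩ := Sh.toax hρ hA c2 hx
    exact ⟨_, ⟨y, mem_closedBall_zero_iff.2 hy.right.2.1.le, rfl⟩, e1 x ▸ tr _ _ hy⟩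
  · have k := Sh.near hr hρ hd hA c2 e6 (fun y hy e => by_contra fun e' => (c3 y hy e').1 e) hx
      (by rw [e3, h, sub_self]) (cΦ.continuousAt.preimage_mem_nhds (t := N0) (by rwa [e1]))
    filter_upwards [(cΨ.tendsto' p 0 e7).eventually k] with y ⟨z, k1, k2⟩
    exact ⟨_, k1, e1 y ▸ tr _ _ k2⟩

end Pool.Agent.Lib.F4H
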