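import Pool.Agent.Lib.F4H.BlueC
import Pool.Agent.Lib.F4H.Hc72
import Pool.Agent.Lib.F4H.Sh3

/-! Project f4h: the boxes exist. -/

open scoped Topology Matrix MatrixGroups
open Set Filter Metric

set_option linter.unusedVariables false

noncomputable section

namespace Pool.Agent.Lib.F4H

open Pool.Agent.Lib.SV (E)
open Pool.Agent.Lib.HS32 Pool.Agent.Lib.F4 Pool.Agent.Lib.F4G Pool.Agent.Lib.F4G.B72

theorem st_BX2 : St_BX2 := by
  intro n M _ α φ ψ a d den hL hl
  choose l R D F κ H using hl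
  set O : M.X → Set (E n) := dO d with hO
  have hol := fun x z (hz : z ∈ O x) => (dO_hol d hz).1
  have wr := fun x z (hz : z ∈ O x) => (dO_hol d hz).2
  have oO : ∀ x, IsOpen (O x) := dO_opn d
  have sf : ∀ x, x ∈ (d.e x).source := fun x => d.sub x (d.self x)
  set s : M.X → E n → ℂ := fun x z => l x * d.s x z with hs
  set t : M.X → E n → ℂ := fun x z => d.t x z / l x with ht
  have hol' : ∀ x, ∀ z ∈ O x, DifferentiableAt ℂ (s x) z ∧ DifferentiableAt ℂ (t x) z ∧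
      s x z ≠ 0 := fun x z hz => ⟨(hol x z hz).1.const_mul _,
    ddiv (hol x z hz).2.1 (differentiableAt_const _) (l x).ne_zero,
    mul_ne_zero (l x).ne_zero (hol x z hz).2.2⟩
  have wr2 : ∀ x, ∀ z ∈ O x, ∀ k, α (d.e x) z k = s x z ^ 2 * dz k (fun w => t x w / s x w) z :=
    fun x z hz k => (wr x z hz k).trans
      (wr_sc (l x) (hol x z hz).1 (hol x z hz).2.1 (hol x z hz).2.2 k)
  have dW : ∀ x, ∀ z ∈ O x, DifferentiableAt ℂ (fun w => t x w / s x w) z := fun x z hz =>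
    ddiv (hol' x z hz).2.1 (hol' x z hz).1 (hol' x z hz).2.2
  have iW : ∀ x, ∀ z ∈ O x, fderiv ℂ (fun w => t x w / s x w) z = 0 ↔ α (d.e x) z = 0 :=
    fun x z hz => fd_iff (dW x z hz) (pow_ne_zero 2 (hol' x z hz).2.2) (wr2 x z hz)
  have DO : ∀ x, D x ⊆ O x := fun x z hz => (H x).cl (ball_subset_closedBall ((H x).sub hz))
  have iO : ∀ x y, In (d.e x) (closedBall (d.e x x) (R x)) y → y ∈ d.O x := fun x y h => by
    have := ((H x).cl h.2).2
    rwa [mem_preimage, (d.e x).left_inv h.1] at this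
  have iB : ∀ x y, In (d.e x) (ball (d.e x x) (R x)) y → y ∈ d.O x := fun x y h =>
    iO x y ⟨h.1, ball_subset_closedBall h.2⟩
  obtain ⟨I, hI⟩ := CompactSpace.elim_nhds_subcover
    (fun x => {y | In (d.e x) (D x) y ∧ ‖t x (d.e x y) / s x (d.e x y)‖ ≤ 1 / 2}) fun x => by
      have c := (d.e x).continuousAt (sf x)
      refine inter_mem (inter_mem ((d.e x).open_source.mem_nhds (sf x))
        (c ((H x).opn.mem_nhds (H x).mem)))
        (((dW x _ (DO x (H x).mem)).continuousAt.comp c).norm.eventually_le_const ?_)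
      simp [ht, (d.base x).2]
  set c : M.X → M.X → M.X → SL(2, ℂ) := fun x y z => dg (l x) * d.c x y z * (dg (l y))⁻¹ with hc
  have tr : ∀ x y z, z ∈ d.O x → z ∈ d.O y → ∃ h : ℂ, h ^ 2 = jd M (d.e x) (d.e y) z ∧
      h • ![s x (d.e x z), t x (d.e x z)] =
        (lf (QuotientGroup.mk (c x y z))).1 *ᵥ ![s y (d.e y z), t y (d.e y z)] :=
    fun x y z h1 h2 => by
      obtain ⟨h, e1, e2⟩ := d.tr x y z h1 h2
      exact tr_lf ⟨e1, tr_dg e2⟩
  have lc : ∀ x y z, z ∈ d.O x → z ∈ d.O y → ∀ᶠ u in 𝓝 z, c x y u = c x y z ∨ c x y u = -c x y z :=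
    fun x y z h1 h2 => (d.lc x y z h1 h2).mono fun u hu =>
      hu.imp (fun e => by simp only [hc, e]) fun e => by simp only [hc, e, mul_neg, neg_mul]
  have pm : ∀ {A B : SL(2, ℂ)}, A = B ∨ A = -B →
      (QuotientGroup.mk A : PG) = QuotientGroup.mk B := fun h =>
    h.elim (fun e => by rw [e]) fun e => by rw [e, neg_mk]
  have cK : ∀ x, IsCompact ((d.e x).symm '' closedBall (d.e x x) (R x)) := fun x =>
    (isCompact_closedBall _ _).image_of_continuousOn
      ((d.e x).continuousOn_symm.mono fun z hz => ((H x).cl hz).1)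
  have fin : (⋃ x : I, ⋃ y : I, (QuotientGroup.mk : SL(2, ℂ) → PG) '' (c x y ''
      ((d.e x).symm '' closedBall (d.e x x) (R x) ∩
        (d.e y).symm '' closedBall (d.e y y) (R y)))).Finite :=
    finite_iUnion fun x => finite_iUnion fun y => (finv ((cK x).inter (cK y)) _ (by
      rintro z ⟨⟨u, u1, u2⟩, v, v1, v2⟩
      exact lc _ _ z (u2 ▸ ((H x).cl u1).2) (v2 ▸ ((H y).cl v1).2))).image _
  obtain ⟨k, k1, k0⟩ := ((eventually_all.2 fun x : I => Ioc_mem_nhdsGT (H x).k0).and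
    self_mem_nhdsWithin).exists
  have bd : ∀ x : I, ∃ B, ∀ z ∈ closedBall (0 : ℂ) 1, ‖F x z‖ ≤ B := fun x =>
    (isCompact_closedBall _ _).exists_bound_of_continuousOn (H x).sF
  choose B hB using bd
  obtain ⟨B0, hB0⟩ := Finite.exists_le B
  have BO : ∀ x, ball (d.e x x) (R x) ⊆ O x := fun x z hz => (H x).cl (ball_subset_closedBall hz)
  have fW : ∀ x, ∀ z ∈ O x, ∃ᶠ w in 𝓝 z, fderiv ℂ (fun w => t x w / s x w) w ≠ 0 := fun x z hz =>
    ((den _ (d.mem x) z hz.1).and_eventually ((oO x).eventually_mem hz)).mono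
      fun w hw => mt (iW x w hw.2).1 hw.1
  have eW : ∀ x y, t x (d.e x y) / s x (d.e x y) = dWx d x y / (l x * l x) := fun x y => by
    simp only [ht, hs, dWx, div_div]
    congr 1
    ring
  have cov : ∀ y, ∃ x : I, In (d.e x) (D x) y ∧ ‖t x (d.e x y) / s x (d.e x y)‖ ≤ 1 / 2 :=
    fun y => by
      obtain ⟨x, hx, h⟩ := mem_iUnion₂.1 (hI.ge (mem_univ y))
      exact ⟨⟨x, hx⟩, h⟩
  have val : ∀ x y z u, z ∈ d.O x → z ∈ d.O y → u ∈ d.O x → u ∈ d.O y →
      dC d y x u = dC d y x z → dWx d x u = dWx d x z → dWx d y u = dWx d y z :=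
    fun x y z u z1 z2 u1 u2 e1 e2 => by
      have k : ∀ v, v ∈ d.O x → v ∈ d.O y → dWx d y v =
          ((lf (dC d y x v)).1 1 0 + (lf (dC d y x v)).1 1 1 * dWx d x v) /
            ((lf (dC d y x v)).1 0 0 + (lf (dC d y x v)).1 0 1 * dWx d x v) := fun v v1 v2 => by
        obtain ⟨h, e0⟩ := d.tr y x v v2 v1
        obtain ⟨h, e3, e4⟩ := tr_lf e0
        exact (mob e4 (fun c => ((mTR n M).2.1 _ (d.mem y) _ (d.mem x) v (d.sub y v2)
          (d.sub x v1)).2.1 (by rw [← jd, ← e3, c, zero_pow two_ne_zero]))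
          (d.hol y v v2).2.2 (d.hol x v v1).2.2).2.2
      rw [k u u1 u2, k z z1 z2, e1, e2]
  refine ⟨k, B0, ⟨⟨I, inferInstance, fun x => d.e x, fun x => d.e x x, fun x => R x, fun x => D x,
    fun x => s x, fun x => t x, ⋃ x : I, (fun w => t x w / s x w) ''
      {z | z ∈ O x ∧ fderiv ℂ (fun w => t x w / s x w) z = 0}, fun x => F x,
    fun x y z => QuotientGroup.mk (c x y z), fin.toFinset, k0, fun x => d.mem x,
    fun x z hz => ((H x).cl hz).1, fun x => (H x).opn, fun x => (H x).sub,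
    fun x z hz => hol' x z ((H x).cl hz), fun x z hz j => ?_,
    fun x y z h1 h2 => tr _ _ z (iB _ _ h1) (iB _ _ h2), fun x y z h1 h2 => ⟨?_,
      (lc _ _ z (iB _ _ h1) (iB _ _ h2)).mono fun u => pm, fun u h3 => ?_⟩,
    fun x => (H x).rng, fun y => ?_, fun x z hz => opn
      (((oO x).eventually_mem (BO x hz)).mono (dW x)) (fW x z (BO x hz)),
    fun x => (H x).sur, fun x => (H x).cpt, countable_iUnion fun x => crit90 _ _ _ (oO x)
      fun z hz => (dW x z hz).differentiableWithinAt, fun x g y y' h1 h2 e => ?_,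
    fun x z hz hw h0 => hw (mem_iUnion.2 ⟨x, z, ⟨BO x hz, (iW x z (BO x hz)).2 h0⟩, rfl⟩),
    fun x => ⟨(H x).cv.1, fun z hz => le_trans ?_ ((H x).cv.2 z hz)⟩,
    fun x z hz => (hB x z (mem_closedBall_zero_iff.2 hz.le)).trans (hB0 x),
    fun x y z h1 h2 => ?_⟩⟩⟩
  · have h := hol' x z ((H x).cl hz)
    rw [wr2 x z ((H x).cl hz), dz_div h.1 h.2.1 h.2.2]
  · exact fin.mem_toFinset.2 (mem_iUnion₂.2 ⟨x, y, _, ⟨z, ⟨⟨_, ball_subset_closedBall h1.2,
      (d.e x).left_inv h1.1⟩, _, ball_subset_closedBall h2.2, (d.e y).left_inv h2.1⟩, rfl⟩, rfl⟩)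
  · rw [← QuotientGroup.mk_mul]
    have e : c x y z * c y u z = dg (l x) * (d.c x y z * d.c y u z) * (dg (l u))⁻¹ := by
      simp only [hc, mul_assoc, inv_mul_cancel_left]
    exact pm ((d.co _ _ _ z (iB _ _ h1) (iB _ _ h2) (iB _ _ h3)).imp (fun h => by rw [e, h])
      fun h => by rw [e, h, mul_neg, neg_mul])
  · exact cov y
  · have l0 := mul_ne_zero (l x).ne_zero (l x).ne_zero
    have y1 := iB _ _ ⟨h1.1, (H x).sub h1.2⟩
    have y2 := iB _ _ ⟨h2.1, (H x).sub h2.2⟩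
    have k := LC.trf (O' := fun i : I => {z | In (d.e i) (ball (d.e i i) (R i)) z})
      (W' := fun i z => t i (d.e i z) / s i (d.e i z))
      (c' := fun i j z => QuotientGroup.mk (c i j z)) (fun i : I => (i : M.X))
      (fun i => QuotientGroup.mk (dg (l i))) (dC_coc d)
      (fun z => (cov z).imp fun i hi => ⟨hi.1.1, (H i).sub hi.1.2⟩) (fun i z hz => iB _ _ hz)
      (fun i j z => rfl) (fun b j z z1 z2 => ?_)
      (((H x).con y y' h1 h2 (by rwa [eW, eW, div_left_inj' l0] at e)).left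
        (g * QuotientGroup.mk (dg (l x)))) y1 x x ⟨h1.1, (H x).sub h1.2⟩ ⟨h2.1, (H x).sub h2.2⟩
    · simpa only [mul_one, (dC_coc d).one y1, (dC_coc d).one y2, mul_inv_cancel_right] using k
    · have z3 := iB _ _ z2
      filter_upwards [dC_lc d z1 z3, dC_lc d z3 z1, (d.opn j).mem_nhds z3,
        ((d.e j).continuousAt z2.1).eventually (P72.lj st_SH (oO j)
          (fun w hw => (dW j w hw).differentiableWithinAt) (BO j z2.2) (fW j _ (BO j z2.2))
          (isOpen_ball.mem_nhds z2.2))] with u u1 u2 u3 u4 u5 u6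
      refine ⟨u1, ?_⟩
      have := (u4 (by rw [eW, eW, val b j z u z1 z3 u5 u3 u2 u6])).symm.mapOn
        (V := {z | In (d.e j) (ball (d.e j j) (R j)) z})
        (B := fun z => t j (d.e j z) / s j (d.e j z))
        ((d.e j).continuousOn_symm.mono fun w hw => (BO j hw).1) fun w hw => by
          simp only [mem_ofPred_eq, In, (d.e j).right_inv (BO j hw).1]
          exact ⟨⟨(d.e j).map_target (BO j hw).1, hw⟩, trivial⟩
      rwa [(d.e j).left_inv z2.1, (d.e j).left_inv (d.sub _ u3)] at this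
  · have := (k1 x).2
    gcongr
  · obtain ⟨h, e1, e2⟩ := tr y x z (iB _ _ ⟨h2.1, (H y).sub h2.2⟩) (iB _ _ ⟨h1.1, (H x).sub h1.2⟩)
    have h0 : h ≠ 0 := fun c => ((mTR n M).2.1 _ (d.mem y) _ (d.mem x) z h2.1 h1.1).2.1
      (by rw [← jd, ← e1, c, zero_pow two_ne_zero])
    have y0 := (hol' y _ (DO y h2.2)).2.2
    have x0 := (hol' x _ (DO x h1.2)).2.2
    obtain ⟨m1, m2, -⟩ := mob e2 h0 y0 x0
    exact ((H y).eF _ h2.2).trans ((lg m1 h0 y0 x0 m2
      (e1 ▸ hL.wφ.cmp _ (d.mem y) _ (d.mem x) z h2.1 h1.1)).trans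
        (congrArg (· - _) ((H x).eF _ h1.2).symm))

end Pool.Agent.Lib.F4H
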