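import Pool.Agent.Lib.F4.G72a

/-! A power of a function that vanishes on the zeros of `l` is bounded by `l`. -/

open scoped Topology
open Set Filter Metric Asymptotics

noncomputable section

namespace Pool.Agent.Lib.F4H.L23

theorem loc {ψ α : ℂ → ℂ} {t : ℂ} {d : ℕ} (hψ : AnalyticAt ℂ ψ t) (hα : AnalyticAt ℂ α t)
    (ho : ¬((d + 1 : ℕ) : ℕ∞) ≤ analyticOrderAt ψ t) (hz : ψ t = 0 → α t = 0) :
    ∃ C, ∀ᶠ y in 𝓝 t, ψ y ≠ 0 → ‖α y ^ d / ψ y‖ ≤ C := by
  have n1 : analyticOrderAt ψ t ≠ ⊤ := fun h => ho (h ▸ le_top)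
  obtain ⟨m, hm⟩ := ENat.ne_top_iff_exists.1 n1
  have md : m ≤ d := by
    rw [← hm, Nat.cast_le] at ho
    omega
  obtain ⟨g, g1, g2, g3⟩ := (hψ.analyticOrderAt_eq_natCast).1 hm.symm
  have : ∃ k : ℂ → ℂ, ContinuousAt k t ∧ ∀ᶠ y in 𝓝 t, α y ^ d = k y * (y - t) ^ m := by
    rcases m.eq_zero_or_pos with rfl | m0
    · exact ⟨fun y => α y ^ d, hα.continuousAt.pow _, .of_forall fun y => by simp⟩
    · have a0 : α t = 0 := hz (by rw [g3.self_of_nhds]; simp [m0.ne'])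
      obtain ⟨e, rfl⟩ := Nat.exists_eq_add_of_le md
      refine ⟨fun y => dslope α t y ^ (m + e) * (y - t) ^ e,
        ((continuousAt_dslope_same.2 hα.differentiableAt).pow _).mul (by fun_prop),
        .of_forall fun y => ?_⟩
      have := sub_smul_dslope α t y
      rw [a0, sub_zero, smul_eq_mul] at this
      rw [← this, mul_pow, pow_add (y - t)]
      ring
  obtain ⟨k, k1, k2⟩ := this
  have c : ContinuousAt (fun y => ‖k y / g y‖) t := (k1.div g1.continuousAt g2).norm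
  refine ⟨‖k t / g t‖ + 1, ?_⟩
  filter_upwards [c.eventually (gt_mem_nhds (lt_add_one _)), k2, g3] with y y1 y2 y3 y4
  rw [y3, smul_eq_mul] at y4
  rw [y2, y3, smul_eq_mul, mul_comm (k y), mul_div_mul_left _ _ (left_ne_zero_of_mul y4)]
  exact y1.le

theorem one {ψ α : ℂ → ℂ} {r M A δ : ℝ} {d : ℕ} (hr : 0 < r) (d0 : 0 < d)
    (hψ : DifferentiableOn ℂ ψ (ball 0 (8 * r))) (hα : DifferentiableOn ℂ α (ball 0 (8 * r)))
    (hM : ∀ t ∈ ball (0 : ℂ) (8 * r), ‖ψ t‖ ≤ M) (hA : ∀ t ∈ ball (0 : ℂ) (8 * r), ‖α t‖ ≤ A)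
    (hδ : ∀ t : ℂ, ‖t‖ = r → δ ≤ ‖ψ t‖) (δ0 : 0 < δ) (hd : M * (1 / 2) ^ (d + 1) < δ)
    (hz : ∀ t ∈ ball (0 : ℂ) (8 * r), ψ t = 0 → α t = 0) : ‖α 0‖ ^ d ≤ A ^ d / δ * ‖ψ 0‖ := by
  have sb : ball (0 : ℂ) (2 * r) ⊆ ball 0 (8 * r) := ball_subset_ball (by linarith)
  have aψ := hψ.analyticOnNhd isOpen_ball
  have aα := hα.analyticOnNhd isOpen_ball
  have nr : ‖(r : ℂ)‖ = r := by simp [hr.le]
  have ho : ∀ t ∈ ball (0 : ℂ) (2 * r), ¬((d + 1 : ℕ) : ℕ∞) ≤ analyticOrderAt ψ t := by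
    intro t ht h
    obtain ⟨g, g1, g2⟩ := (natCast_le_analyticOrderAt (aψ t (sb ht))).1 h
    have t0 : ψ t = 0 := by rw [g2.self_of_nhds]; simp
    rw [mem_ball_zero_iff] at ht
    have s2 : ball t (6 * r) ⊆ ball 0 (8 * r) := ball_subset_ball' (by rw [dist_zero_right]; linarith)
    have dr : dist (r : ℂ) t ≤ 3 * r := by
      rw [dist_eq_norm]
      linarith [norm_sub_le (r : ℂ) t]
    have o : (fun w => ψ w - ψ t) =o[𝓝 t] fun w => ‖w - t‖ ^ d := by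
      have e : (fun w => (w - t) * g w) =o[𝓝 t] fun _ => (1 : ℝ) := by
        rw [isLittleO_one_iff]
        have : ContinuousAt (fun w => (w - t) * g w) t :=
          (continuousAt_id.sub continuousAt_const).mul g1.continuousAt
        simpa [ContinuousAt] using this
      have f : (fun w => (w - t) ^ d) =O[𝓝 t] fun w => ‖w - t‖ ^ d :=
        .of_bound 1 (.of_forall fun w => by simp)
      refine (f.mul_isLittleO e).congr' ?_ (.of_forall fun w => mul_one _)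
      filter_upwards [g2] with w hw
      rw [hw, t0, smul_eq_mul]
      ring
    have := Complex.dist_le_mul_div_pow_of_mapsTo_ball_of_isLittleO (R₂ := M) (z := (r : ℂ))
      (hψ.mono s2) (fun w hw => by rw [t0, mem_closedBall_zero_iff]; exact hM w (s2 hw)) o
      (mem_ball.2 (by linarith))
    rw [t0, dist_zero_right] at this
    have M0 : 0 ≤ M := (norm_nonneg _).trans (hM 0 (mem_ball_self (by linarith)))
    have : M * (dist (r : ℂ) t / (6 * r)) ^ (d + 1) ≤ M * (1 / 2) ^ (d + 1) := by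
      refine mul_le_mul_of_nonneg_left (pow_le_pow_left₀ (by positivity) ?_ _) M0
      rw [div_le_iff₀ (by linarith)]
      linarith
    linarith [hδ r nr]
  obtain ⟨g, g1, g2⟩ := F4.G72.rie (f := fun y => α y ^ d / ψ y) (j := ψ) isOpen_ball (hψ.mono sb)
    (fun t ht => not_eventually.1 fun h => ho t ht
      ((analyticOrderAt_eq_top.2 (by simpa using h)).symm ▸ le_top))
    (((hα.mono fun w hw => sb hw.1).pow _).div (hψ.mono fun w hw => sb hw.1) fun w hw => hw.2)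
    fun t ht => loc (aψ t (sb ht)) (aα t (sb ht)) (ho t ht) (hz t (sb ht))
  have A0 : 0 ≤ A := (norm_nonneg _).trans (hA 0 (mem_ball_self (by linarith)))
  by_cases h0 : ψ 0 = 0
  · rw [hz 0 (mem_ball_self (by linarith)) h0, h0]
    simp [d0.ne']
  have b : ‖g 0‖ ≤ A ^ d / δ := by
    refine Complex.norm_le_of_forall_mem_frontier_norm_le (U := ball 0 r) isBounded_ball
      (g1.diffContOnCl_ball (closedBall_subset_ball (by linarith))) (fun w hw => ?_)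
      (subset_closure (mem_ball_self hr))
    rw [frontier_ball _ hr.ne', mem_sphere_zero_iff_norm] at hw
    have w2 : w ∈ ball (0 : ℂ) (2 * r) := by rw [mem_ball_zero_iff]; linarith
    rw [g2 w w2 (norm_pos_iff.1 (δ0.trans_le (hδ w hw))), norm_div, norm_pow]
    gcongr
    · exact hA w (sb w2)
    · exact hδ w hw
  rwa [g2 0 (mem_ball_self (by linarith)) h0, norm_div, norm_pow,
    div_le_iff₀ (norm_pos_iff.2 h0)] at b

variable {F : Type} [NormedAddCommGroup F] [NormedSpace ℂ F]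

/-- The inequality for a finite family of functions. -/
theorem loj {ι : Type} [Fintype ι] {l : F → ℂ} {a : F → ι → ℂ} {x : F}
    (hl : ∀ᶠ z in 𝓝 x, DifferentiableAt ℂ l z) (ha : ∀ᶠ z in 𝓝 x, DifferentiableAt ℂ a z)
    (h0 : ∃ᶠ z in 𝓝 x, l z ≠ 0) (hz : ∀ᶠ z in 𝓝 x, l z = 0 → a z = 0) :
    ∃ d : ℕ, 0 < d ∧ ∃ C : ℝ, 0 ≤ C ∧ ∀ᶠ z in 𝓝 x, ‖a z‖ ^ d ≤ C * ‖l z‖ := by
  have b1 := hl.self_of_nhds.continuousAt.norm.eventually (gt_mem_nhds (lt_add_one _))
  have b2 := ha.self_of_nhds.continuousAt.norm.eventually (gt_mem_nhds (lt_add_one _))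
  obtain ⟨R, R0, hR⟩ := Metric.eventually_nhds_iff_ball.1 (hl.and (ha.and (hz.and (b1.and b2))))
  obtain ⟨z0, l0, hz0⟩ := (h0.and_eventually (ball_mem_nhds x R0)).exists
  set ξ := z0 - x with hξ
  have ln : ∀ z : F, Differentiable ℂ fun t : ℂ => z + t • ξ := fun z => by fun_prop
  have an : AnalyticOnNhd ℂ (fun t : ℂ => l (x + t • ξ)) ((fun t : ℂ => x + t • ξ) ⁻¹' ball x R) :=
    DifferentiableOn.analyticOnNhd (fun t ht =>
      ((hR _ ht).1.comp t (ln x t)).differentiableWithinAt) (isOpen_ball.preimage (ln x).continuous)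
  have cv : Convex ℝ ((fun t : ℂ => x + t • ξ) ⁻¹' ball x R) := fun s hs t ht p q hp hq hpq => by
    have := convex_ball x R hs ht hp hq hpq
    have e : p • (x + s • ξ) + q • (x + t • ξ) = x + (p • s + q • t) • ξ := by
      rw [smul_add, smul_add, add_add_add_comm, ← add_smul, hpq, one_smul, add_smul, smul_assoc,
        smul_assoc]
    rwa [e] at this
  have m0 : (0 : ℂ) ∈ (fun t : ℂ => x + t • ξ) ⁻¹' ball x R := by simpa using R0
  have iso : ∀ᶠ t : ℂ in 𝓝[≠] 0, l (x + t • ξ) ≠ 0 :=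
    (an 0 m0).eventually_eq_zero_or_eventually_ne_zero.resolve_left fun h => l0 (by
      simpa [hξ] using an.eqOn_zero_of_preconnected_of_eventuallyEq_zero cv.isPreconnected m0 h
        (x := 1) (by simpa [hξ] using hz0))
  have sm : ∀ᶠ p : F × ℂ in 𝓝 (x, 0), p.1 + p.2 • ξ ∈ ball x R :=
    (show ContinuousAt (fun p : F × ℂ => p.1 + p.2 • ξ) (x, 0) by fun_prop).eventually
      (isOpen_ball.mem_nhds (by simpa using R0))
  rw [nhds_prod_eq] at sm
  obtain ⟨P, hP, Q, hQ, hPQ⟩ := eventually_prod_iff.1 sm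
  obtain ⟨ρ, ρ0, hρ⟩ := Metric.eventually_nhds_iff_ball.1
    (hQ.and (eventually_nhdsWithin_iff.1 iso))
  have r0 : 0 < ρ / 8 := by positivity
  have e8 : 8 * (ρ / 8) = ρ := by ring
  have sp : ∀ t ∈ sphere (0 : ℂ) (ρ / 8), t ∈ ball (0 : ℂ) ρ := fun t ht =>
    sphere_subset_ball (by linarith) ht
  have cx : ∀ t ∈ ball (0 : ℂ) ρ, ContinuousAt (fun p : F × ℂ => ‖l (p.1 + p.2 • ξ)‖) (x, t) :=
    fun t ht => (ContinuousAt.comp (f := fun p : F × ℂ => p.1 + p.2 • ξ)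
      (hR _ (hPQ hP.self_of_nhds (hρ t ht).1)).1.continuousAt (by fun_prop)).norm
  obtain ⟨t0, ht0, hmin⟩ := (isCompact_sphere (0 : ℂ) (ρ / 8)).exists_isMinOn
    (NormedSpace.sphere_nonempty.2 r0.le) (f := fun t => ‖l (x + t • ξ)‖) fun t ht =>
      ((cx t (sp t ht)).comp (f := fun t : ℂ => (x, t)) (by fun_prop)).continuousWithinAt
  have δ0 : 0 < ‖l (x + t0 • ξ)‖ := norm_pos_iff.2 ((hρ t0 (sp t0 ht0)).2 fun h => by
    rw [mem_singleton_iff.1 h] at ht0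
    simp at ht0
    linarith)
  have tb : ∀ᶠ z in 𝓝 x, ∀ t ∈ sphere (0 : ℂ) (ρ / 8), ‖l (x + t0 • ξ)‖ / 2 < ‖l (z + t • ξ)‖ :=
    (isCompact_sphere _ _).eventually_forall_of_forall_eventually fun t ht =>
      (cx t (sp t ht)).eventually (lt_mem_nhds ((half_lt_self δ0).trans_le (hmin ht)))
  obtain ⟨d, hd⟩ := exists_pow_lt_of_lt_one
    (div_pos (half_pos δ0) (show 0 < ‖l x‖ + 1 by positivity)) (show (1 / 2 : ℝ) < 1 by norm_num)
  have hd' : (‖l x‖ + 1) * (1 / 2) ^ (d + 1 + 1) < ‖l (x + t0 • ξ)‖ / 2 := by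
    rw [lt_div_iff₀ (by positivity)] at hd
    have : 0 < (1 / 2 : ℝ) ^ d * (‖l x‖ + 1) := by positivity
    rw [pow_succ, pow_succ]
    linarith
  refine ⟨d + 1, d.succ_pos, (‖a x‖ + 1) ^ (d + 1) / (‖l (x + t0 • ξ)‖ / 2), by positivity, ?_⟩
  filter_upwards [hP, tb] with z z1 z2
  have k : ∀ t ∈ ball (0 : ℂ) (8 * (ρ / 8)), _ := fun t ht => hR _ (hPQ z1 (hρ t (e8 ▸ ht)).1)
  have : ∀ i, ‖a z i‖ ^ (d + 1) ≤
      (‖a x‖ + 1) ^ (d + 1) / (‖l (x + t0 • ξ)‖ / 2) * ‖l z‖ := fun i => by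
    simpa using one (ψ := fun t => l (z + t • ξ)) (α := fun t => a (z + t • ξ) i) r0 d.succ_pos
      (fun t ht => ((k t ht).1.comp t (ln z t)).differentiableWithinAt)
      (fun t ht => (differentiableAt_pi.1 ((k t ht).2.1.comp t (ln z t)) i).differentiableWithinAt)
      (fun t ht => (k t ht).2.2.2.1.le)
      (fun t ht => (norm_le_pi_norm _ i).trans (k t ht).2.2.2.2.le)
      (fun t ht => (z2 t (mem_sphere_zero_iff_norm.2 ht)).le) (half_pos δ0) hd'
      fun t ht h => congrFun ((k t ht).2.2.1 h) i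
  rcases isEmpty_or_nonempty ι with h | h
  · rw [Subsingleton.elim (a z) 0, norm_zero, zero_pow d.succ_ne_zero]
    positivity
  · obtain ⟨i, hi⟩ := Finite.exists_max fun i => ‖a z i‖
    exact (pow_le_pow_left₀ (norm_nonneg _) ((pi_norm_le_iff_of_nonneg (norm_nonneg _)).2 hi)
      _).trans (this i)

/-- The inequality for one function. -/
theorem loj1 {l a : F → ℂ} {x : F} (hl : ∀ᶠ z in 𝓝 x, DifferentiableAt ℂ l z)
    (ha : ∀ᶠ z in 𝓝 x, DifferentiableAt ℂ a z) (h0 : ∃ᶠ z in 𝓝 x, l z ≠ 0)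
    (hz : ∀ᶠ z in 𝓝 x, l z = 0 → a z = 0) :
    ∃ d : ℕ, 0 < d ∧ ∃ C : ℝ, 0 ≤ C ∧ ∀ᶠ z in 𝓝 x, ‖a z‖ ^ d ≤ C * ‖l z‖ := by
  simpa using loj (ι := Unit) (a := fun z _ => a z) hl
    (ha.mono fun z h => differentiableAt_pi.2 fun _ => h) h0
    (hz.mono fun z h h' => funext fun _ => h h')

end Pool.Agent.Lib.F4H.L23
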