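import Pool.Agent.Lib.F4H.B_N1
import Pool.Agent.Lib.F4H.Hc72
import Pool.Agent.Lib.F4H.Loj23

/-! Project f4h: a compact union of components of fibres is a divisor in a multiple of the
canonical class. -/

open scoped Classical Topology ContDiff ComplexOrder Matrix
open Set Filter MeasureTheory Metric Complex

noncomputable section

namespace Pool.Agent.Lib.F4H.N75

open Pool.Agent.Lib.SV (E)
open Pool.Agent.Lib.HS32 Pool.Agent.Lib.HLK Pool.Agent.Lib.F4 Pool.Agent.Lib.F4G

variable {n : ℕ} {M : Mf n} {α : M.Fam (E n)} (D : Dev M α) {φ ψ : M.Fam ℝ} {a b x y : M.X}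

/-- The domain of a developing map, in its chart. -/
def oc (a : M.X) : Set (E n) := (D.e a).target ∩ (D.e a).symm ⁻¹' D.O a

theorem oc_open : IsOpen (oc D a) := (D.e a).isOpen_inter_preimage_symm (D.opn a)

theorem oc_mem (hx : x ∈ D.O a) : D.e a x ∈ oc D a :=
  ⟨(D.e a).map_source (D.sub a hx), by rwa [mem_preimage, (D.e a).left_inv (D.sub a hx)]⟩

theorem oc_hol {z : E n} (hz : z ∈ oc D a) :
    DifferentiableAt ℂ (D.s a) z ∧ DifferentiableAt ℂ (D.t a) z ∧ D.s a z ≠ 0 := by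
  have := D.hol a _ hz.2
  rwa [(D.e a).right_inv hz.1] at this

theorem oc_wr {z : E n} (hz : z ∈ oc D a) (k : Fin n) :
    α (D.e a) z k = D.s a z ^ 2 * dz k (fun w => D.t a w / D.s a w) z := by
  have := D.wr a _ hz.2 k
  rw [(D.e a).right_inv hz.1] at this
  rw [this, B72.dz_div (oc_hol D hz).1 (oc_hol D hz).2.1 (oc_hol D hz).2.2]

theorem oc_dW {z : E n} (hz : z ∈ oc D a) : DifferentiableAt ℂ (fun w => D.t a w / D.s a w) z :=
  B72.ddiv (oc_hol D hz).2.1 (oc_hol D hz).1 (oc_hol D hz).2.2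

theorem oc_den (hd : Den M α) {z : E n} (hz : z ∈ oc D a) :
    ∃ᶠ w in 𝓝 z, fderiv ℂ (fun w => D.t a w / D.s a w) w ≠ 0 :=
  ((hd _ (D.mem a) z hz.1).and_eventually ((oc_open D).eventually_mem hz)).mono fun _ hw =>
    mt (B72.fd_iff (oc_dW D hw.2) (pow_ne_zero 2 (oc_hol D hw.2).2.2) (oc_wr D hw.2)).1 hw.1

theorem oc_t (hd : Den M α) {z : E n} (hz : z ∈ oc D a) : ∃ᶠ w in 𝓝 z, D.t a w ≠ 0 := fun h => by
  refine oc_den D hd hz (h.eventually_nhds.mono fun w hw => not_not.2 ?_)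
  have e : (fun w => D.t a w / D.s a w) =ᶠ[𝓝 w] fun _ => 0 :=
    hw.mono fun u hu => by simp only [not_not.1 hu, zero_div]
  rw [e.fderiv_eq, fderiv_const_apply]

/-- The determinant of the values of the developing map at two points. -/
def dt (a x y : M.X) : ℂ := D.s a (D.e a x) * D.t a (D.e a y) - D.t a (D.e a x) * D.s a (D.e a y)

/-- The norm of the determinant. -/
def rr (φ ψ : M.Fam ℝ) (a x y : M.X) : ℝ :=
  Real.exp (-φ (D.e a) (D.e a x)) * normSq (dt D a x y ^ 2) * Real.exp (-ψ (D.e a) (D.e a y))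

theorem rr_inv
    (hφ : M.Ov fun e e' x => φ e' (e' x) = φ e (e x) + Real.log (normSq (jd M e e' x)))
    (hψ : M.Ov fun e e' x => ψ e' (e' x) = ψ e (e x) + Real.log (normSq (jd M e e' x)))
    (ha : y ∈ D.O a) (hb : y ∈ D.O b) : rr D φ ψ b y =ᶠ[𝓝 y] rr D φ ψ a y := by
  filter_upwards [(D.opn a).eventually_mem ha, (D.opn b).eventually_mem hb, D.lc a b y ha hb]
    with z za zb hc
  obtain ⟨h, h1, h2⟩ := D.tr a b y ha hb
  obtain ⟨k, k1, k2⟩ := D.tr a b z za zb
  have d := (D.c a b y).2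
  rw [Matrix.det_fin_two] at d
  have p0 := congrFun h2 0
  have p1 := congrFun h2 1
  have q0 := congrFun k2 0
  have q1 := congrFun k2 1
  have e : dt D b y z ^ 2 = jd M (D.e a) (D.e b) y * jd M (D.e a) (D.e b) z * dt D a y z ^ 2 := by
    have e1 : (h * k * dt D a y z) ^ 2 = dt D b y z ^ 2 := by
      rw [sq_eq_sq_iff_eq_or_eq_neg]
      rcases hc with hc | hc <;> rw [hc] at q0 q1 <;>
        simp [Matrix.mulVec, dotProduct, Fin.sum_univ_two] at p0 p1 q0 q1
      · left
        simp only [dt]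
        linear_combination (k * D.t a (D.e a z)) * p0 - (k * D.s a (D.e a z)) * p1 +
          ((D.c a b y).1 0 0 * D.s b (D.e b y) + (D.c a b y).1 0 1 * D.t b (D.e b y)) * q1 -
          ((D.c a b y).1 1 0 * D.s b (D.e b y) + (D.c a b y).1 1 1 * D.t b (D.e b y)) * q0 +
          (D.s b (D.e b y) * D.t b (D.e b z) - D.t b (D.e b y) * D.s b (D.e b z)) * d
      · right
        simp only [dt]
        linear_combination (k * D.t a (D.e a z)) * p0 - (k * D.s a (D.e a z)) * p1 +
          ((D.c a b y).1 0 0 * D.s b (D.e b y) + (D.c a b y).1 0 1 * D.t b (D.e b y)) * q1 -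
          ((D.c a b y).1 1 0 * D.s b (D.e b y) + (D.c a b y).1 1 1 * D.t b (D.e b y)) * q0 -
          (D.s b (D.e b y) * D.t b (D.e b z) - D.t b (D.e b y) * D.s b (D.e b z)) * d
    rw [← e1, ← h1, ← k1]
    ring
  have j : ∀ u, u ∈ D.O a → u ∈ D.O b → 0 < normSq (jd M (D.e a) (D.e b) u) := fun u u1 u2 =>
    normSq_pos.2 ((mTR n M).2.1 _ (D.mem a) _ (D.mem b) u (D.sub a u1) (D.sub b u2)).2.1
  have j1 := j y ha hb
  have j2 := j z za zb
  rw [rr, rr, e, hφ _ (D.mem a) _ (D.mem b) y (D.sub a ha) (D.sub b hb),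
    hψ _ (D.mem a) _ (D.mem b) z (D.sub a za) (D.sub b zb), map_mul, map_mul, neg_add, neg_add,
    Real.exp_add, Real.exp_add, Real.exp_neg (Real.log _), Real.exp_neg (Real.log _),
    Real.exp_log j1, Real.exp_log j2]
  field_simp

theorem rr_self : rr D φ ψ x x y = normSq (D.t x (D.e x y) ^ 2) *
    Real.exp (-φ (D.e x) (D.e x x) - ψ (D.e x) (D.e x y)) := by
  rw [rr, dt, (D.base x).1, (D.base x).2, sub_eq_add_neg (-_), Real.exp_add]
  simp only [one_mul, zero_mul, sub_zero]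
  ring

/-- The first factor is constant along the fibre. -/
theorem rr_fib (hS : St_SH) (hd : Den M α) (hφ : Wk M 3 φ) (hp : Pw M φ α) :
    ∀ᶠ y in 𝓝 x, D.t x (D.e x y) = 0 → rr D φ ψ x y = rr D φ ψ x x := by
  have o := oc_open D (a := x)
  have m := oc_mem D (D.self x)
  have dW : DifferentiableOn ℂ (fun w => D.t x w / D.s x w) (oc D x) := fun z hz =>
    (oc_dW D hz).differentiableWithinAt
  filter_upwards [((D.e x).continuousAt (D.sub x (D.self x))).eventually
    (P72.lj hS o dW m (oc_den D hd m) (o.mem_nhds m)), (D.opn x).eventually_mem (D.self x)]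
    with y h1 h2 h3
  have e := P72.hc hS (h := fun w => φ (D.e x) w - Real.log (normSq (D.s x w ^ 2))) o dW
    (fun z hz => oc_den D hd hz) (fun z hz => P72.wd (y := fun w => D.s x w ^ 2)
      ((o.eventually_mem hz).mono fun w hw => oc_dW D hw)
      ((o.eventually_mem hz).mono fun w hw => (oc_hol D hw).1.pow 2)
      (pow_ne_zero 2 (oc_hol D hz).2.2) ((o.eventually_mem hz).mono fun w hw => oc_wr D hw)
      ((hφ.sm _ (D.mem x) z hz.1).differentiableAt (by norm_num)) (hp _ (D.mem x) z hz.1))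
    (h1 (by simp only [h3, (D.base x).2, zero_div]))
  have p : 0 < normSq (D.s x (D.e x y) ^ 2) :=
    normSq_pos.2 (pow_ne_zero 2 (oc_hol D (oc_mem D h2)).2.2)
  simp only [(D.base x).1, one_pow, map_one, Real.log_one, sub_zero] at e
  funext z
  rw [rr, rr, dt, dt, h3, (D.base x).1, (D.base x).2, ← e, neg_sub, Real.exp_sub, Real.exp_log p,
    Real.exp_neg]
  simp only [zero_mul, sub_zero, one_mul, mul_pow, map_mul]
  ring

end Pool.Agent.Lib.F4H.N75
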