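import Pool.Agent.Lib.F4H.N_DVE

/-! Project f4h: germs of functions that agree along a closed set come from a global function. -/

open scoped Classical Topology ContDiff ComplexOrder Matrix
open Set MeasureTheory Filter Metric

noncomputable section

namespace Pool.Agent.Lib.F4H.S83

open Pool.Agent.Lib.SV (E)
open Pool.Agent.Lib.HS32 Pool.Agent.Lib.F4

variable {n : ℕ} {M : Mf n} [M.Cpt] {F : Set M.X} {r : M.X → M.X → ℝ}

/-- SGL. -/
theorem sgl (hF : IsClosed F) (h : ∀ x ∈ F, ∀ᶠ y in 𝓝 x,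
    (∃ e ∈ M.C, y ∈ e.source ∧ ContDiffAt ℝ ∞ (r x ∘ e.symm) (e y)) ∧ 0 ≤ r x y ∧
      (y ∉ F → r x y ≠ 0) ∧ (y ∈ F → r x =ᶠ[𝓝 y] r y)) :
    ∃ σ : M.X → ℝ, M.Sm σ ∧ (∀ x ∈ F, σ =ᶠ[𝓝 x] r x) ∧ ∀ y, y ∉ F → 0 < σ y := by
  obtain ⟨R, hR⟩ : ∃ R : M.X → M.X → ℝ, ∀ x, ∀ᶠ y in 𝓝 x,
      (∃ e ∈ M.C, y ∈ e.source ∧ ContDiffAt ℝ ∞ (R x ∘ e.symm) (e y)) ∧ 0 ≤ R x y ∧
        (y ∉ F → R x y ≠ 0) ∧ (y ∈ F → R x =ᶠ[𝓝 y] r y) := by
    refine ⟨fun x => if x ∈ F then r x else fun _ => 1, fun x => ?_⟩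
    by_cases hx : x ∈ F
    · simpa only [if_pos hx] using h x hx
    · simp only [if_neg hx]
      filter_upwards [hF.isOpen_compl.mem_nhds hx] with y hy
      exact ⟨⟨_, Mf.ch_mem y, Mf.mem_ch y, contDiffAt_const⟩, zero_le_one, fun _ => one_ne_zero,
        fun c => absurd c hy⟩
  obtain ⟨V, hV⟩ := (mCOV n M).2.1 M.C _ Mf.sub_all hR
  choose p hp using fun a => (hV a).2
  have inn : ∀ a y, y ∈ (V.e a).symm '' closedBall (V.c a) (2 * V.ρ a) → _ := fun a y hy =>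
    hp a (image_mono (closedBall_subset_closedBall (by linarith [V.pos a])) hy)
  have mem : ∀ a y, V.χ a y ≠ 0 → y ∈ (V.e a).symm '' closedBall (V.c a) (2 * V.ρ a) :=
    fun a y hy => ⟨_, ball_subset_closedBall (V.supp a y hy).2, (V.e a).left_inv (V.supp a y hy).1⟩
  have out : ∀ a y, y ∉ (V.e a).symm '' closedBall (V.c a) (2 * V.ρ a) →
      ∀ᶠ w in 𝓝 y, V.χ a w = 0 := fun a y hy => by
    have hK : IsCompact ((V.e a).symm '' closedBall (V.c a) (2 * V.ρ a)) :=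
      (isCompact_closedBall _ _).image_of_continuousOn ((V.e a).continuousOn_symm.mono
        ((closedBall_subset_closedBall (by linarith [V.pos a])).trans (V.sub a)))
    filter_upwards [hK.isClosed.isOpen_compl.mem_nhds hy] with w hw
    exact by_contra fun c => hw (mem a w c)
  refine ⟨fun y => ∑ a, V.χ a y ^ 2 * R (p a) y, Mf.Sm.sum fun a _ => ?_, fun x hx => ?_,
    fun y hy => ?_⟩
  · refine ((mTR n M).2.2.2.1 ℝ _).2.2 fun y => ?_
    by_cases c : y ∈ (V.e a).symm '' closedBall (V.c a) (2 * V.ρ a)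
    · obtain ⟨e, he, hy, hs⟩ := (inn a y c).1
      exact ⟨e, he, hy, (((V.sm a).pow 2) e he _ (e.map_source hy)).mul hs⟩
    · refine ⟨_, Mf.ch_mem y, Mf.mem_ch y, (contDiffAt_const (c := (0 : ℝ))).congr_of_eventuallyEq ?_⟩
      filter_upwards [((M.ch y).tendsto_symm (Mf.mem_ch y)).eventually (out a y c)] with w hw
      simp [hw]
  · have e1 : ∀ a, ∀ᶠ y in 𝓝 x, V.χ a y ^ 2 * R (p a) y = V.χ a y ^ 2 * r x y := fun a => by
      by_cases c : x ∈ (V.e a).symm '' closedBall (V.c a) (2 * V.ρ a)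
      · filter_upwards [(inn a x c).2.2.2 hx] with y hy
        rw [hy]
      · filter_upwards [out a x c] with y hy
        simp [hy]
    filter_upwards [eventually_all.2 e1] with y hy
    simp only [hy, ← Finset.sum_mul, V.sum, one_mul]
  · obtain ⟨a, -, -, ha⟩ := V.cov y
    refine Finset.sum_pos' (fun b _ => ?_) ⟨a, Finset.mem_univ a, ?_⟩
    · by_cases c : V.χ b y = 0
      · simp [c]
      · exact mul_nonneg (sq_nonneg _) (inn b y (mem b y c)).2.1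
    · have k := inn a y (mem a y ha.ne')
      exact mul_pos (pow_pos ha 2) (lt_of_le_of_ne k.2.1 (k.2.2.1 hy).symm)

/-- The divisor that is given by germs along a closed set. -/
theorem dvl (hF : IsClosed F) (e : M.X → M.Ch) (q : M.X → E n → ℂ) (g : M.X → E n → ℝ)
    (h1 : ∀ x ∈ F, e x ∈ M.C ∧ x ∈ (e x).source ∧ (∃ᶠ z in 𝓝 (e x x), q x z ≠ 0) ∧
      ∀ᶠ z in 𝓝 (e x x), DifferentiableAt ℂ (q x) z ∧ ContDiffAt ℝ ∞ (g x) z ∧
        r x ((e x).symm z) = Complex.normSq (q x z) * Real.exp (g x z))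
    (h2 : ∀ x ∈ F, ∀ᶠ y in 𝓝 x, (r x y = 0 ↔ y ∈ F) ∧ (y ∈ F → r x =ᶠ[𝓝 y] r y)) :
    ∃ σ Θ, Dv M σ Θ ∧ (∀ y, σ y = 0 ↔ y ∈ F) ∧ ∀ x ∈ F, σ =ᶠ[𝓝 x] r x ∧
      ∀ᶠ z in 𝓝 (e x x), Θ (e x) z = -hess (fun w => (g x w : ℂ)) z := by
  obtain ⟨σ, s1, s2, s3⟩ := sgl (r := r) hF fun x hx => by
    obtain ⟨a1, a2, -, a4⟩ := h1 x hx
    filter_upwards [h2 x hx, ((e x).continuousAt a2).eventually a4.eventually_nhds,
      (e x).open_source.mem_nhds a2] with y b1 b2 b3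
    have b4 := b2.self_of_nhds.2.2
    rw [(e x).left_inv b3] at b4
    refine ⟨⟨_, a1, b3, ContDiffAt.congr_of_eventuallyEq ?_ (b2.mono fun w hw => hw.2.2)⟩, ?_,
      fun c => mt b1.1.1 c, b1.2⟩
    · have cq : ContDiffAt ℝ ∞ (q x) (e x y) :=
        ((mHOL n _ _).2.2 (b2.mono fun w hw => hw.1)).1
      have ci : ContDiffAt ℝ ∞ (fun w => (q x w).im) (e x y) :=
        Complex.imCLM.contDiff.contDiffAt.comp _ cq
      simp only [Complex.normSq_apply]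
      exact (((cd_re cq).mul (cd_re cq)).add (ci.mul ci)).mul
        b2.self_of_nhds.2.1.exp
    · rw [b4]
      exact mul_nonneg (Complex.normSq_nonneg _) (Real.exp_pos _).le
  have loc : ∀ x ∈ F, ∀ᶠ z in 𝓝 (e x x), DifferentiableAt ℂ (q x) z ∧ ContDiffAt ℝ ∞ (g x) z ∧
      σ ((e x).symm z) = Complex.normSq (q x z) * Real.exp (g x z) := fun x hx => by
    obtain ⟨-, a2, -, a4⟩ := h1 x hx
    filter_upwards [a4, ((e x).tendsto_symm a2).eventually (s2 x hx)] with z b1 b2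
    exact ⟨b1.1, b1.2.1, b2.trans b1.2.2⟩
  have dl : Dl M σ := fun x => by
    by_cases hx : x ∈ F
    · exact ⟨_, (h1 x hx).1, (h1 x hx).2.1, _, _, (h1 x hx).2.2.1, loc x hx⟩
    · refine ⟨_, Mf.ch_mem x, Mf.mem_ch x, fun _ => 1, fun w => Real.log (σ ((M.ch x).symm w)),
        Frequently.of_forall fun _ => one_ne_zero, ?_⟩
      filter_upwards [((M.ch x).tendsto_symm (Mf.mem_ch x)).eventually
        (hF.isOpen_compl.mem_nhds hx), (M.ch x).open_target.mem_nhds (Mf.ch_tgt x)] with w b1 b2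
      refine ⟨differentiableAt_const _, (s1 _ (Mf.ch_mem x) w b2).log (s3 _ b1).ne', ?_⟩
      rw [Real.exp_log (s3 _ b1)]
      simp
  obtain ⟨Θ, hΘ⟩ := st_DVE n M σ s1 dl
  refine ⟨σ, Θ, hΘ, fun y => ⟨fun c => by_contra fun d => (s3 y d).ne' c, fun c => ?_⟩,
    fun x hx => ⟨s2 x hx, ?_⟩⟩
  · rw [(s2 y c).self_of_nhds]
    exact (h2 y c).self_of_nhds.1.2 c
  · obtain ⟨a1, a2, -, -⟩ := h1 x hx
    filter_upwards [(loc x hx).eventually_nhds, (e x).open_target.mem_nhds ((e x).map_source a2)]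
      with z b1 b2
    refine hΘ.eq _ a1 z b2 _ _ (fun c => ?_) b1
    have t := (e x).continuousAt ((e x).map_target b2)
    rw [ContinuousAt, (e x).right_inv b2] at t
    refine dl.fr ((e x).symm z) ?_
    filter_upwards [t.eventually (c.and b1), (e x).open_source.mem_nhds ((e x).map_target b2)]
      with y d1 d2
    have d3 := d1.2.2.2
    rw [(e x).left_inv d2, not_not.1 d1.1] at d3
    simpa using d3

end Pool.Agent.Lib.F4H.S83
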