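import Pool.Agent.Lib.F4H.BlueC
import Pool.Agent.Lib.F4H.Rr75
import Pool.Agent.Lib.F4H.Sgl83
import Pool.Agent.Lib.F4H.Sh3

/-! Project f4h, block C: the divisor of a closed union of fibres. -/

open scoped Classical Topology ContDiff ComplexOrder Matrix
open Set Filter Complex

noncomputable section

namespace Pool.Agent.Lib.F4H

open Pool.Agent.Lib.SV (E)
open Pool.Agent.Lib.HS32 Pool.Agent.Lib.HLK Pool.Agent.Lib.F4 Pool.Agent.Lib.F4G N75

/-- DIV2. -/
theorem st_DIV2 : St_DIV2 := by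
  intro n M _ H α φ ψ s d F hm den hL hF hx
  have w : M.Wt 1 (ph M H) := (mINV n M H hm).2.2.2.2.2.2.1
  have wc : M.Ov fun e e' x =>
      ph M H e' (e' x) = ph M H e (e x) + Real.log (normSq (jd M e e' x)) := by
    intro e he e' he' x h1 h2
    have := w.cmp e he e' he' x h1 h2
    beta_reduce at this ⊢
    rw [this, one_mul]
  have p0 : ∀ x y, 0 ≤ rr d φ (ph M H) x x y := fun x y => by
    rw [rr_self]
    exact mul_nonneg (normSq_nonneg _) (Real.exp_pos _).le
  have z0 : ∀ x y, rr d φ (ph M H) x x y = 0 ↔ d.t x (d.e x y) = 0 := fun x y => by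
    rw [rr_self, mul_eq_zero, or_iff_left (Real.exp_pos _).ne', normSq_eq_zero,
      pow_eq_zero_iff two_ne_zero]
  obtain ⟨σ, s1, s2, s3⟩ := S83.sgl (r := fun x => rr d φ (ph M H) x x) hF fun x h => by
    filter_upwards [hx x h, (d.opn x).eventually_mem (d.self x),
      rr_fib d (ψ := ph M H) (x := x) st_SH den hL.wφ hL.pφ] with y y1 y2 y3
    refine ⟨⟨_, d.mem x, d.sub x y2, ?_⟩, p0 x y, fun c e => c (y1.2 ((z0 x y).1 e)), fun c => ?_⟩
    · have m := (oc_open d).eventually_mem (oc_mem d y2)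
      have cq : ContDiffAt ℝ ∞ (fun z => d.t x z ^ 2) (d.e x y) :=
        ((mHOL n _ _).2.2 (m.mono fun z hz => (oc_hol d hz).2.1.pow 2)).1
      have ci : ContDiffAt ℝ ∞ (fun z => (d.t x z ^ 2).im) (d.e x y) :=
        Complex.imCLM.contDiff.contDiffAt.comp _ cq
      have cp : ContDiffAt ℝ ∞ (ph M H (d.e x)) (d.e x y) :=
        w.sm _ (d.mem x) _ (oc_mem d y2).1
      refine ((((cd_re cq).mul (cd_re cq)).add (ci.mul ci)).mul ((contDiffAt_const
        (c := -φ (d.e x) (d.e x x))).sub cp).exp).congr_of_eventuallyEq (m.mono fun z hz => ?_)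
      rw [Function.comp_apply, rr_self, (d.e x).right_inv hz.1, normSq_apply]
    · rw [← y3 (y1.1 c)]
      exact (rr_inv d hL.wφ.cmp wc y2 (d.self y)).symm
  have z1 : ∀ x ∈ F, σ x = 0 := fun x h =>
    (s2 x h).self_of_nhds.trans ((z0 x x).2 (d.base x).2)
  refine ⟨σ, s1, fun x => ?_, fun x => ⟨fun c => by_contra fun e => (s3 x e).ne' c, z1 x⟩,
    fun x h => ⟨-φ (d.e x) (d.e x x), (s2 x h).mono fun y hy => hy.trans (rr_self d)⟩⟩
  by_cases h : x ∈ F
  · exact (z1 x h).ge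
  · exact (s3 x h).le

end Pool.Agent.Lib.F4H
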