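import Pool.Agent.Lib.F4H.BlueC
import Pool.Agent.Lib.F4H.N_DVE
import Pool.Agent.Lib.F4G.BoxA

/-! Project f4h, row FN1: the curvature form of the divisor is the canonical form near the
support. -/

open scoped Classical Topology ContDiff ComplexOrder Matrix
open Set Filter Metric Complex

noncomputable section

namespace Pool.Agent.Lib.F4H

open Pool.Agent.Lib.SV (E)
open Pool.Agent.Lib.HS32 Pool.Agent.Lib.F4 Pool.Agent.Lib.F4G

namespace FN75

variable {n : ℕ} {M : Mf n} {α : M.Fam (E n)} (d : Dev M α) {H : M.Fam (Mat n)} {σ : M.X → ℝ}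

/-- The second coordinate of a developing map is nowhere locally zero. -/
theorem frq (hd : Den M α) {a : M.X} {z : E n} (hz : z ∈ dO d a) : ∃ᶠ w in 𝓝 z, d.t a w ≠ 0 :=
  fun h => hd _ (d.mem a) z hz.1 (by
    filter_upwards [h.eventually_nhds, (dO_opn d a).eventually_mem hz] with w h1 h2
    have e : d.t a =ᶠ[𝓝 w] fun _ => 0 := h1.mono fun _ hu => not_not.1 hu
    refine not_not.2 (funext fun j => ?_)
    rw [(dO_hol d h2).2 j, dz_congr e, e.self_of_nhds]
    simp [dz])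

/-- The local form in the chart of the developing map. -/
theorem loc (hH : M.Met H) (hd : Den M α) {x : M.X} (h : Shp d H σ x) : ∃ κ : ℝ,
    ∀ᶠ z in 𝓝 (d.e x x), z ∈ (d.e x).target ∧ (∃ᶠ w in 𝓝 z, d.t x w ^ 2 ≠ 0) ∧
      ∀ᶠ w in 𝓝 z, DifferentiableAt ℂ (fun u => d.t x u ^ 2) w ∧
        ContDiffAt ℝ ∞ (fun u => κ - ph M H (d.e x) u) w ∧
        σ ((d.e x).symm w) = normSq (d.t x w ^ 2) * Real.exp (κ - ph M H (d.e x) w) := by
  obtain ⟨κ, h⟩ := h
  have m := dO_mem d (d.self x)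
  have o := (dO_opn d x).eventually_mem m
  have h2 : ∀ᶠ w in 𝓝 (d.e x x), σ ((d.e x).symm w) = normSq (d.t x (d.e x ((d.e x).symm w)) ^ 2) *
      Real.exp (κ - ph M H (d.e x) (d.e x ((d.e x).symm w))) :=
    ((d.e x).continuousAt_symm m.1).eventually (p := fun y => σ y =
      normSq (d.t x (d.e x y) ^ 2) * Real.exp (κ - ph M H (d.e x) (d.e x y))) (by
        rw [(d.e x).left_inv (d.sub x (d.self x))]; exact h)
  refine ⟨κ, ?_⟩
  filter_upwards [o, (o.and h2).eventually_nhds] with z z1 z2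
  refine ⟨z1.1, (frq d hd z1).mono fun w hw => pow_ne_zero 2 hw, z2.mono fun w hw => ?_⟩
  have e := hw.2
  rw [(d.e x).right_inv hw.1.1] at e
  exact ⟨(dO_hol d hw.1).1.2.1.pow 2, contDiffAt_const.sub
    ((mINV n M H hH).2.2.2.2.2.2.1.sm _ (d.mem x) w hw.1.1), e⟩

end FN75

theorem st_FN1 : St_FN1 := by
  intro n M H α d σ hH hd hs s0 h
  have dl : Dl M σ := fun x => by
    by_cases hx : σ x = 0
    · obtain ⟨κ, hκ⟩ := FN75.loc d hH hd (h x hx)
      exact ⟨_, d.mem x, d.sub x (d.self x), _, _, hκ.self_of_nhds.2⟩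
    · refine ⟨_, Mf.ch_mem x, Mf.mem_ch x, fun _ => 1, fun w => Real.log (σ ((M.ch x).symm w)),
        Eventually.frequently (Eventually.of_forall fun _ => one_ne_zero), ?_⟩
      filter_upwards [(M.ch x).open_target.eventually_mem (Mf.ch_tgt x),
        (hs _ (Mf.ch_mem x) _ (Mf.ch_tgt x)).continuousAt.eventually_ne (y := 0) (by
          rw [Function.comp_apply, Mf.ch_symm]; exact hx)] with w h1 h2
      refine ⟨differentiableAt_const _, (hs _ (Mf.ch_mem x) w h1).log h2, ?_⟩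
      rw [Real.exp_log (lt_of_le_of_ne (s0 _) (Ne.symm h2)), map_one, one_mul]
  obtain ⟨Θ, hΘ⟩ := st_DVE n M σ hs dl
  refine ⟨Θ, hΘ, fun x hx => ?_⟩
  obtain ⟨κ, hκ⟩ := FN75.loc d hH hd (h x hx)
  have t : M.Ten (Θ + M.ric H) := hΘ.clo.toTen.add ((mHES n M).2.2.2.2.2.2.2.2.1 H hH).toTen
  filter_upwards [((d.e x).continuousAt (d.sub x (d.self x))).eventually hκ,
    (d.e x).open_source.mem_nhds (d.sub x (d.self x))] with y y1 y2
  have e := hΘ.eq _ (d.mem x) _ y1.1 _ _ y1.2.1 y1.2.2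
  have c : ContDiffAt ℝ ∞ (ld (H (d.e x))) (d.e x y) :=
    cd_ofReal ((mINV n M H hH).2.2.2.2.2.2.1.sm _ (d.mem x) _ y1.1)
  have e2 : (fun w => ((κ - ph M H (d.e x) w : ℝ) : ℂ)) = fun w => (κ : ℂ) - ld (H (d.e x)) w :=
    funext fun w => by rw [ofReal_sub]; rfl
  rw [e2, hess_sub contDiffAt_const c, BLAP.hess_const] at e
  have z : (Θ + M.ric H) (d.e x) (d.e x y) = 0 := by
    simp only [Pi.add_apply, e, Mf.ric, zero_sub, neg_neg, add_neg_cancel]
  rw [Mf.ev, t.cmp _ (d.mem x) _ (Mf.ch_mem y) y y2 (Mf.mem_ch y), z, Matrix.mul_zero,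
    Matrix.zero_mul]

end Pool.Agent.Lib.F4H
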