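import Pool.Agent.Lib.F4.BlueS
import Pool.Agent.Lib.F4.D_CH2
import Pool.Agent.Lib.F4.D_MXC
import Pool.Agent.Lib.F4.D_NF2
import Pool.Agent.Lib.F4.D_PSD
import Pool.Agent.Lib.KP.B_HARM
import Pool.Agent.Lib.KP.R_CPT
import Pool.Agent.Lib.KP.R_POI

/-! Project f4h: the equality case of the index theorem of Hodge. -/

open scoped Classical Topology ContDiff ComplexOrder Matrix
open Set MeasureTheory Filter Metric

noncomputable section

namespace Pool.Agent.Lib.F4H.H69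

open Pool.Agent.Lib.SV (E)
open Pool.Agent.Lib.HS32 Pool.Agent.Lib.F4

variable {n : ℕ} {M : Mf n} {H S T U : M.Fam (Mat n)}

theorem mx_comm (x : M.X) : mx M H S T x = mx M H T S x := by
  simp only [mx]
  rw [Mf.ip_comm, mul_comm]

theorem mx_add (x : M.X) : mx M H S (T + U) x = mx M H S T x + mx M H S U x := by
  simp only [mx]
  rw [Mf.ip_add, Mf.tr_add]
  ring

theorem mx_sub (x : M.X) : mx M H S (T - U) x = mx M H S T x - mx M H S U x := by
  simp only [mx]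
  rw [Mf.ip_sub, Mf.tr_sub]
  ring

theorem mx_smul (c : ℝ) (x : M.X) : mx M H S (c • T) x = c * mx M H S T x :=
  LD.NF88.mq_smul S T c x

theorem mx_fs (f : M.X → ℝ) (hH : M.Met H) (x : M.X) :
    mx M H S (LD.fs M f T) x = f x * mx M H S T x := by
  obtain ⟨a, b, -⟩ := (LD.st_PSD n M H hH x).2.2 f T S
  simp only [mx]
  rw [a, b]
  ring

theorem mx_congr {S' T' : M.Fam (Mat n)} (a : M.All fun e z => S e z = S' e z)
    (b : M.All fun e z => T e z = T' e z) (x : M.X) : mx M H S T x = mx M H S' T' x := by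
  simp only [mx]
  rw [Mf.tr_congr (fun _ _ _ _ => rfl) a, Mf.tr_congr (fun _ _ _ _ => rfl) b,
    Mf.ip_congr (fun _ _ _ _ => rfl) a b]

theorem mx_nonneg (hH : M.Met H) (a : M.Le 0 S) (b : M.Le 0 T) (x : M.X) : 0 ≤ mx M H S T x :=
  sub_nonneg.2 ((LD.st_PSD n M H hH x).1 _ _ a b)

theorem mx_sm (hH : M.Met H) (hS : M.Ten S) (hT : M.Ten T) : M.Sm (mx M H S T) :=
  (((mINV n M H hH).1 S hS).2.1.mul ((mINV n M H hH).1 T hT).2.1).sub
    ((mINV n M H hH).2.2.1 S T hS hT).2.1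

variable [M.Cpt]

theorem mx_int (hH : M.Met H) (hS : M.Ten S) (hT : M.Ten T) :
    Integrable (mx M H S T) (M.mu H) := LD.NF88.imq hH hS hT

theorem q_comm : ∫ x, mx M H S T x ∂M.mu H = ∫ x, mx M H T S x ∂M.mu H := by
  simp only [mx_comm (S := S)]

theorem q_add (hH : M.Met H) (hS : M.Ten S) (hT : M.Ten T) (hU : M.Ten U) :
    ∫ x, mx M H S (T + U) x ∂M.mu H =
      ∫ x, mx M H S T x ∂M.mu H + ∫ x, mx M H S U x ∂M.mu H := by
  simp only [mx_add]
  exact integral_add (mx_int hH hS hT) (mx_int hH hS hU)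

theorem q_sub (hH : M.Met H) (hS : M.Ten S) (hT : M.Ten T) (hU : M.Ten U) :
    ∫ x, mx M H S (T - U) x ∂M.mu H =
      ∫ x, mx M H S T x ∂M.mu H - ∫ x, mx M H S U x ∂M.mu H := by
  simp only [mx_sub]
  exact integral_sub (mx_int hH hS hT) (mx_int hH hS hU)

theorem q_smul (c : ℝ) :
    ∫ x, mx M H S (c • T) x ∂M.mu H = c * ∫ x, mx M H S T x ∂M.mu H := by
  simp only [mx_smul]
  exact integral_const_mul _ _

theorem q_hs (hH : M.Kae H) (hS : M.Clo S) {v : M.X → ℝ} (hv : M.Sm v) :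
    ∫ x, mx M H S (M.hs v) x ∂M.mu H = 0 := LD.st_MXC n M H S v hH hS hv

/-- The mixed integral depends only on the classes. -/
theorem q_cls (hH : M.Kae H) (hS : M.Clo S) (hT : M.Clo T) {u v : M.X → ℝ} (hu : M.Sm u)
    (hv : M.Sm v) : ∫ x, mx M H (S + M.hs u) (T + M.hs v) x ∂M.mu H =
      ∫ x, mx M H S T x ∂M.mu H := by
  have cu := (mHES n M).1 u hu
  have cv := (mHES n M).1 v hv
  rw [q_add hH.toMet (hS.add cu).toTen hT.toTen cv.toTen, q_hs hH (hS.add cu) hv, q_comm,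
    q_add hH.toMet hT.toTen hS.toTen cu.toTen, q_hs hH hT hu, q_comm]
  ring

theorem tr_hs (hH : M.Kae H) {v : M.X → ℝ} (hv : M.Sm v) :
    ∫ x, M.tr H (M.hs v) x ∂M.mu H = 0 := ((mGRN n M).2 H v v hH hv hv).1

theorem ip_zero (hH : M.Met H) (hS : M.Form S) (h : ∀ x, M.ip H S S x = 0) :
    M.All fun e z => S e z = 0 := fun e he z hz => by
  obtain ⟨C, -, -, -, hC⟩ := LD.st_CH2 n M H hH e he z 0 (by simpa using hz)
  ext l k
  have := (hC z (by simp)).1 S hS l k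
  rw [h, mul_zero] at this
  simpa using pow_eq_zero_iff (two_ne_zero) |>.1 (le_antisymm this (by positivity))

/-- The equation of Poisson. -/
theorem poi (hn : 0 < n) (hH : M.Kae H) {a : M.X → ℝ} (ha : M.Sm a)
    (h0 : ∫ x, a x ∂M.mu H = 0) : ∃ v, M.Sm v ∧ ∀ x, M.lap H v x = -a x := by
  obtain ⟨-, hf, -, vol, hi, -⟩ := mMU n M H hH.toMet
  obtain ⟨v, c, sv, hv⟩ := KP.st_POI KP.st_HARM KP.st_CPT n M H a hn hH ha
  have z : ∫ x, M.lap H v x ∂M.mu H = 0 := tr_hs hH sv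
  simp only [hv] at z
  rw [integral_sub (integrable_const _) (hi ℝ _ ha.continuous), h0, integral_const] at z
  have c0 : c = 0 := by
    simp only [smul_eq_mul, sub_zero] at z
    exact (mul_eq_zero.1 z).resolve_left vol.ne'
  exact ⟨v, sv, fun x => by rw [hv, c0, zero_sub]⟩

/-- A primitive class of non-negative square is zero. -/
theorem hix (hn : 0 < n) (hH : M.Kae H) (hS : M.Clo S) (h1 : ∫ x, M.tr H S x ∂M.mu H = 0)
    (h2 : 0 ≤ ∫ x, mx M H S S x ∂M.mu H) :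
    ∃ v, M.Sm v ∧ M.All fun e z => S e z + M.hs v e z = 0 := by
  have hm := hH.toMet
  obtain ⟨-, hf, hop, -, hi, -⟩ := mMU n M H hm
  obtain ⟨v, sv, hv⟩ := poi hn hH ((mINV n M H hm).1 S hS.toTen).2.1 h1
  have cE := hS.add ((mHES n M).1 v sv)
  have t0 : ∀ x, M.tr H (S + M.hs v) x = 0 := fun x => by
    have := hv x
    simp only [Mf.lap] at this
    rw [Mf.tr_add, this, add_neg_cancel]
  rw [← q_cls hH hS hS sv sv] at h2
  simp only [mx, t0, mul_zero, zero_sub, integral_neg] at h2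
  have p := fun x => ((LD.st_PSD n M H hm x).2.1 _ cE.toForm).1
  have ct := ((mINV n M H hm).2.2.1 _ _ cE.toTen cE.toTen).2.1.continuous
  have z := (integral_eq_zero_iff_of_nonneg p (hi ℝ _ ct)).1
    (le_antisymm (by linarith) (integral_nonneg p))
  have z' := (ct.ae_eq_iff_eq _ continuous_zero).1 z
  exact ⟨v, sv, ip_zero hm cE.toForm fun x => congrFun z' x⟩

/-- Two classes. -/
theorem hi2 (hn : 0 < n) (hH : M.Kae H) (hS : M.Clo S) (hT : M.Clo T) {c : ℝ}
    (h1 : ∫ x, M.tr H T x ∂M.mu H = c * ∫ x, M.tr H S x ∂M.mu H)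
    (hSS : 0 ≤ ∫ x, mx M H S S x ∂M.mu H) (hST : c * ∫ x, mx M H S T x ∂M.mu H ≤ 0)
    (hTT : 0 ≤ ∫ x, mx M H T T x ∂M.mu H) :
    ∃ v, M.Sm v ∧ M.All fun e z => T e z + M.hs v e z = c • S e z := by
  have hm := hH.toMet
  have cE := hT.sub (hS.smul c)
  obtain ⟨v, sv, hv⟩ := hix hn hH cE (by
      simp only [Mf.tr_sub, Mf.tr_smul]
      rw [integral_sub (LD.NF88.itr hm hT.toTen) ((LD.NF88.itr hm hS.toTen).const_mul c),
        integral_const_mul, h1, sub_self]) (by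
      rw [q_sub hm cE.toTen hT.toTen (hS.smul c).toTen, q_smul, q_comm,
        q_sub hm hT.toTen hT.toTen (hS.smul c).toTen, q_smul, q_comm (T := S),
        q_comm (S := T - c • S), q_sub hm hS.toTen hT.toTen (hS.smul c).toTen, q_smul]
      nlinarith [mul_nonneg (sq_nonneg c) hSS])
  refine ⟨v, sv, fun e he z hz => ?_⟩
  have := hv e he z hz
  simp only [Pi.sub_apply, Pi.smul_apply] at this
  beta_reduce
  rw [← sub_eq_zero, ← this]
  abel

end Pool.Agent.Lib.F4H.H69
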