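import Pool.Agent.Lib.F4H.BlueC
import Pool.Agent.Lib.F4H.Hix69

/-! Project f4h: the case of a point that is not anchored. -/

open scoped Classical Topology
open Set Filter

noncomputable section

namespace Pool.Agent.Lib.F4H

open Pool.Agent.Lib.HS32 Pool.Agent.Lib.F4 Pool.Agent.Lib.F4G

theorem st_FNE (hF : St_NFD) (h1 : St_N1) (hB : St_BO) (hN : St_NUMD) : St_FNE := by
  intro M _ H Θ α σ a m hH ha hk q0 hα den hσ h0 hz m0 hm
  have cR : M.Clo (M.ric H) := (mHES 4 M).2.2.2.2.2.2.2.2.1 H hH.toMet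
  obtain ⟨k1, k2⟩ := hF 4 M H Θ σ hH hσ
  have e1 := k2 _ (hσ.clo.add cR) hz
  have e2 := k1 a ha
  refine hN 4 M H Θ σ a four_pos hH ha hk q0 hσ h0 (h1 M H Θ σ a _ α m hH ha hk hα.hol den
    ((hB M H hH.toMet).1 α (Or.inl hα)) hσ m0 hm) ?_
  have e3 := H69.q_add hH.toMet hσ.clo.toTen (hσ.clo.add cR).toTen cR.neg.toTen
  rw [add_neg_cancel_right, H69.q_comm (T := Θ + _), H69.q_comm (T := -_)] at e3
  unfold Qm at e1 e2 ⊢
  linarith

end Pool.Agent.Lib.F4H
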