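import Pool.Agent.Lib.F4H.BlueC

/-! Project f4h: the monodromy group. -/

open scoped Classical Topology Matrix MatrixGroups
open Set Filter Metric

set_option linter.unusedVariables false

noncomputable section

namespace Pool.Agent.Lib.F4H

open Pool.Agent.Lib.SV (E)
open Pool.Agent.Lib.HS32 Pool.Agent.Lib.F4 Pool.Agent.Lib.F4G

namespace Gam85

variable {n : ℕ} {M : Mf n} {α : M.Fam (E n)} {k B : ℝ} (b : Box2 M α k B)

theorem el_left (γ : PG) {u v : (b.I × PG) × ℂ} (h : b.El u v) :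
    b.El ((u.1.1, γ * u.1.2), u.2) ((v.1.1, γ * v.1.2), v.2) := by
  obtain ⟨x, h1, h2, h3, h4, h5⟩ := h
  exact ⟨x, h1, h2, h3, h4, by simp only [h5, mul_assoc]⟩

theorem tg_left (γ : PG) {u v : (b.I × PG) × ℂ} (h : Relation.TransGen b.El u v) :
    Relation.TransGen b.El ((u.1.1, γ * u.1.2), u.2) ((v.1.1, γ * v.1.2), v.2) := by
  induction h with
  | single h => exact .single (el_left b γ h)
  | tail _ h ih => exact ih.tail (el_left b γ h)

theorem lk_left (γ : PG) {v w : b.I × PG} (h : My.Lk b.J v w) :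
    My.Lk b.J (v.1, γ * v.2) (w.1, γ * w.2) := by
  obtain ⟨z, y, h1, h2, h3⟩ := h
  exact ⟨z, y, h1, h2, tg_left b γ h3⟩

theorem eq_left (γ : PG) {v w : b.I × PG} (h : Relation.EqvGen (My.Lk b.J) v w) :
    Relation.EqvGen (My.Lk b.J) (v.1, γ * v.2) (w.1, γ * w.2) := by
  induction h with
  | rel _ _ h => exact .rel _ _ (lk_left b γ h)
  | refl _ => exact .refl _
  | symm _ _ _ ih => exact .symm _ _ ih
  | trans _ _ _ _ _ i1 i2 => exact .trans _ _ _ i1 i2

theorem in_ball {a : b.I} {x : M.X} (h : In (b.e a) (b.U a) x) :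
    In (b.e a) (ball (b.p a) (b.R a)) x := ⟨h.1, b.uq a h.2⟩

theorem tg_mem {u v : (b.I × PG) × ℂ} (h : Relation.TransGen b.El u v) :
    u.1.2⁻¹ * v.1.2 ∈ Subgroup.closure (b.S : Set PG) := by
  have e : ∀ {u v : (b.I × PG) × ℂ}, b.El u v →
      u.1.2⁻¹ * v.1.2 ∈ Subgroup.closure (b.S : Set PG) := fun {u v} h => by
    obtain ⟨x, h1, h2, -, -, h5⟩ := h
    rw [h5, inv_mul_cancel_left]
    exact Subgroup.subset_closure (b.lc _ _ x (in_ball b h1) (in_ball b h2)).1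
  induction h with
  | single h => exact e h
  | tail _ h ih => simpa only [mul_assoc, mul_inv_cancel_left] using mul_mem ih (e h)

theorem eq_mem {v w : b.I × PG} (h : Relation.EqvGen (My.Lk b.J) v w) :
    v.2⁻¹ * w.2 ∈ Subgroup.closure (b.S : Set PG) := by
  induction h with
  | rel _ _ h =>
    obtain ⟨z, y, -, -, h3⟩ := h
    exact tg_mem b h3
  | refl _ => simp
  | symm _ _ _ ih => simpa only [mul_inv_rev, inv_inv] using inv_mem ih
  | trans _ _ _ _ _ i1 i2 => simpa only [mul_assoc, mul_inv_cancel_left] using mul_mem i1 i2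

/-- The inner part of a box. -/
def V (i : b.I) : Set M.X := {x | In (b.e i) (b.U i) x ∧ ‖b.W i (b.e i x)‖ < 3 / 4}

theorem v_open (i : b.I) : IsOpen (V b i) := by
  refine isOpen_iff_mem_nhds.2 fun x hx => ?_
  have c : ContinuousAt (b.e i) x := (b.e i).continuousAt hx.1.1
  obtain ⟨h1, h2, h3⟩ := b.hol i _ (ball_subset_closedBall (b.uq i hx.1.2))
  have w : ContinuousAt (fun y => ‖b.W i (b.e i y)‖) x :=
    (ContinuousAt.comp (f := b.e i) (h2.continuousAt.div h1.continuousAt h3) c).norm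
  filter_upwards [(b.e i).open_source.mem_nhds hx.1.1, c ((b.opn i).mem_nhds hx.1.2),
    w.eventually (gt_mem_nhds hx.2)] with y a1 a2 a3
  exact ⟨⟨a1, a2⟩, a3⟩

theorem v_ne (i : b.I) : (V b i).Nonempty := by
  obtain ⟨z, h1, h2⟩ := b.sur i 0 (by norm_num)
  have t : z ∈ (b.e i).target := b.sub i (ball_subset_closedBall (b.uq i h1))
  refine ⟨(b.e i).symm z, ⟨(b.e i).map_target t, ?_⟩, ?_⟩
  · rwa [(b.e i).right_inv t]
  · rw [(b.e i).right_inv t, Box2.W, h2]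
    norm_num

theorem lk_of {i j : b.I} {x : M.X} (hi : x ∈ V b i) (hj : x ∈ V b j) (g : PG) :
    My.Lk b.J (i, g) (j, g * b.c i j x) :=
  ⟨_, _, hi.2.le, hj.2.le, .single ⟨x, hi.1, hj.1, rfl, rfl, rfl⟩⟩

theorem v_cov (x : M.X) : ∃ i, x ∈ V b i := by
  obtain ⟨i, h1, h2⟩ := b.cov x
  exact ⟨i, h1, lt_of_le_of_lt h2 (by norm_num)⟩

theorem reach [M.Cpt] (a i : b.I) : ∃ g, Relation.EqvGen (My.Lk b.J) (a, 1) (i, g) := by
  set R : b.I → Prop := fun i => ∃ g, Relation.EqvGen (My.Lk b.J) (a, 1) (i, g) with hR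
  have st : ∀ i j x, x ∈ V b i → x ∈ V b j → R i → R j := fun i j x hi hj ⟨g, hg⟩ =>
    ⟨_, .trans _ _ _ hg (.rel _ _ (lk_of b hi hj g))⟩
  have o : IsOpen {x | ∃ j, R j ∧ x ∈ V b j} := isOpen_iff_mem_nhds.2 fun x ⟨j, r, hj⟩ =>
    mem_of_superset ((v_open b j).mem_nhds hj) fun y hy => ⟨j, r, hy⟩
  have c : IsClosed {x | ∃ j, R j ∧ x ∈ V b j} := by
    refine isOpen_compl_iff.1 (isOpen_iff_mem_nhds.2 fun x hx => ?_)
    obtain ⟨j, hj⟩ := v_cov b x
    exact mem_of_superset ((v_open b j).mem_nhds hj) fun y hy ⟨l, r, hl⟩ =>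
      hx ⟨j, st l j y hl hy r, hj⟩
  have u := IsClopen.eq_univ ⟨c, o⟩
    ((v_ne b a).mono fun x hx => ⟨a, ⟨1, .refl _⟩, hx⟩)
  obtain ⟨x, hx⟩ := v_ne b i
  obtain ⟨j, r, hj⟩ : x ∈ {x | ∃ j, R j ∧ x ∈ V b j} := u ▸ mem_univ x
  exact st j i x hj hx r

end Gam85

open Gam85 in
theorem st_GAM2 : St_GAM2 := by
  intro n M _ α k B b a
  choose g hg using reach b a
  refine ⟨⟨⟨⟨⟨b.Gam a, fun {x y} hx hy => ?_⟩, .refl _⟩, fun {x} hx => ?_⟩, rfl,
    fun x hx => ?_⟩, V b, g, fun i => ⟨v_open b i, fun x hx => in_ball b hx.1⟩, v_cov b,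
    fun i j x hi hj => ?_⟩
  · have := eq_left b x hy
    rw [mul_one] at this
    exact .trans _ _ _ hx this
  · have := eq_left b x⁻¹ hx
    rw [mul_one, inv_mul_cancel] at this
    exact .symm _ _ this
  · simpa using eq_mem b hx
  · have := eq_left b (g i * b.c i j x * (g j)⁻¹) (hg j)
    rw [mul_one, inv_mul_cancel_right] at this
    exact .trans _ _ _ (.trans _ _ _ (hg i) (.rel _ _ (lk_of b hi hj _))) (.symm _ _ this)

end Pool.Agent.Lib.F4H
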