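import Pool.Agent.Lib.F4H.BlueC
import Pool.Agent.Lib.F4G.BoxB

/-! Project f4h, block C: the invariant of a chain. -/

open scoped Classical Topology Matrix MatrixGroups
open Set Filter

set_option linter.unusedVariables false

noncomputable section

namespace Pool.Agent.Lib.F4H

open Pool.Agent.Lib.SV (E)
open Pool.Agent.Lib.HS32 Pool.Agent.Lib.F4 Pool.Agent.Lib.F4G

namespace I17

theorem lsq {a b : ℂ} (ha : a ≠ 0) (hb : b ≠ 0) : Real.log (Complex.normSq ((a * b) ^ 2)) =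
    Real.log (Complex.normSq (a ^ 2)) + Real.log (Complex.normSq (b ^ 2)) := by
  rw [mul_pow, map_mul, Real.log_mul (by simpa using ha) (by simpa using hb)]

theorem lf_mul (g : PG) (A : SL(2, ℂ)) : ∃ r : ℂ, r ^ 2 = 1 ∧
    (lf (g * QuotientGroup.mk A)).1 = r • ((lf g).1 * A.1) := by
  obtain ⟨r, r1, r2⟩ := B72.lf_mk (lf g * A)
  refine ⟨r, r1, ?_⟩
  have e : (QuotientGroup.mk (lf g) : PG) = g := Quotient.out_eq g
  rwa [QuotientGroup.mk_mul, e, Matrix.SpecialLinearGroup.coe_mul] at r2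

end I17

theorem st_INV2 (hP : St_PHI) : St_INV2 := by
  intro n M α φ ψ s d den hL u v h hu
  induction h with
  | refl => exact ⟨1, one_ne_zero, by rw [one_smul], by simp⟩
  | @tail v w _ h ih =>
    obtain ⟨ν, n0, n1, n2⟩ := ih
    suffices k : ∃ μ : ℂ, μ ≠ 0 ∧
        (lf v.1.2).1 *ᵥ ![d.s v.1.1 (d.e v.1.1 v.2), d.t v.1.1 (d.e v.1.1 v.2)] =
          μ • ((lf w.1.2).1 *ᵥ ![d.s w.1.1 (d.e w.1.1 w.2), d.t w.1.1 (d.e w.1.1 w.2)]) ∧
        φ (d.e v.1.1) (d.e v.1.1 v.2) =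
          φ (d.e w.1.1) (d.e w.1.1 w.2) + Real.log (Complex.normSq (μ ^ 2)) by
      obtain ⟨μ, m0, m1, m2⟩ := k
      exact ⟨ν * μ, mul_ne_zero n0 m0, by rw [n1, m1, mul_smul],
        by rw [n2, m2, I17.lsq n0 m0]; ring⟩
    rcases h with ⟨e1, h1, h2, h3⟩ | ⟨e1, h⟩
    · obtain ⟨j, j1, j2⟩ := d.tr _ _ _ h1 h2
      obtain ⟨r, r1, r2⟩ := I17.lf_mul v.1.2 (d.c v.1.1 w.1.1 v.2)
      have j0 : j ≠ 0 := fun c => ((mTR n M).2.1 _ (d.mem _) _ (d.mem _) _ (d.sub _ h1)
        (d.sub _ h2)).2.1 (by rw [← jd, ← j1, c, zero_pow two_ne_zero])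
      have r0 : r ≠ 0 := fun c => by simp [c] at r1
      have q0 := mul_ne_zero r0 j0
      have c1 := hL.wφ.cmp _ (d.mem _) _ (d.mem _) _ (d.sub _ h1) (d.sub _ h2)
      refine ⟨(r * j)⁻¹, inv_ne_zero q0, ?_, ?_⟩
      · rw [h3, dC, r2, ← e1, Matrix.smul_mulVec, ← Matrix.mulVec_mulVec, ← j2,
          Matrix.mulVec_smul, smul_smul, smul_smul, mul_assoc, inv_mul_cancel₀ q0, one_smul]
      · rw [← e1, c1, ← j1, inv_pow, mul_pow, r1, one_mul, map_inv₀, Real.log_inv]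
        ring
    · rw [← e1]
      have x0 := (d.hol _ _ h.left).2.2
      have y0 := (d.hol _ _ h.right).2.2
      have e2 : d.t v.1.1 (d.e v.1.1 w.2) / d.s v.1.1 (d.e v.1.1 w.2) =
        d.t v.1.1 (d.e v.1.1 v.2) / d.s v.1.1 (d.e v.1.1 v.2) := h.eq
      have e3 : dF d φ v.1.1 (d.e v.1.1 v.2) = dF d φ v.1.1 (d.e v.1.1 w.2) :=
        h.ind (fun x y => dF d φ v.1.1 (d.e v.1.1 x) = dF d φ v.1.1 (d.e v.1.1 y))
          (fun x hx _ => by
            filter_upwards [((d.e v.1.1).continuousAt (d.sub _ hx)).eventually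
              (hP n M α φ ψ s d den hL _ _ (dO_mem d hx))] with y hy _ e
            exact ⟨(hy e).symm, hy e⟩) fun _ _ _ => Eq.trans
      have q0 := div_ne_zero x0 y0
      refine ⟨_, q0, ?_, ?_⟩
      · rw [← Matrix.mulVec_smul]
        refine congrArg _ (funext fun i => ?_)
        rw [div_eq_div_iff y0 x0] at e2
        fin_cases i
        · simp [y0]
        · simp only [Fin.mk_one, Matrix.cons_val_one, Matrix.cons_val_fin_one, Pi.smul_apply,
            smul_eq_mul]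
          field_simp
          linear_combination -e2
      · have e4 := I17.lsq q0 y0
        rw [div_mul_cancel₀ _ y0] at e4
        simp only [dF] at e3
        linarith

end Pool.Agent.Lib.F4H
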