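import Pool.Agent.Lib.F4H.BlueC
import Pool.Agent.Lib.F4G.BoxB

/-! Project f4h, row LOC2: the box at an anchored point. -/

open scoped Classical Topology ContDiff ComplexOrder Matrix MatrixGroups
open Set Filter Complex Metric

set_option linter.unusedVariables false

noncomputable section

namespace Pool.Agent.Lib.F4H

open Pool.Agent.Lib.SV (E)
open Pool.Agent.Lib.HS32 Pool.Agent.Lib.F4 Pool.Agent.Lib.F4G

namespace L49

open F83 in
/-- The curvature of the density along a section. -/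
theorem cur {n : ℕ} (U : Set (E n)) (B : Set ℂ) (W y : E n → ℂ)
    (al : E n → E n) (ph ps : E n → ℝ) (sg : ℂ → E n) (s : ℝ) (hU : IsOpen U) (hB : IsOpen B)
    (hW : DifferentiableOn ℂ W U) (hy : DifferentiableOn ℂ y U) (y0 : ∀ z ∈ U, y z ≠ 0)
    (ha : ∀ z ∈ U, ∀ k, al z k = y z * dz k W z) (hp : ∀ z ∈ U, ContDiffAt ℝ 2 ph z)
    (hh : ∀ z ∈ U, hess (fun w => (ph w : ℂ)) z = ((s * Real.exp (-ps z) : ℝ) : ℂ) • oo (al z))
    (hs : DifferentiableOn ℂ sg B) (sw : ∀ w ∈ B, sg w ∈ U ∧ W (sg w) = w) :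
    ∃ F : ℂ → ℝ, ContDiffOn ℝ 2 F B ∧ (∀ w, F w = ph (sg w) - Real.log (normSq (y (sg w)))) ∧
      ∀ w ∈ B, ∀ c, c ≤ s * Real.exp (ph (sg w) - ps (sg w)) → 4 * c * Real.exp (-F w) ≤
        fderiv ℝ (fderiv ℝ F) w 1 1 + fderiv ℝ (fderiv ℝ F) w I I := by
  have hol : ∀ {f : E n → ℂ}, DifferentiableOn ℂ f U → ∀ z ∈ U, HolN f z := fun hf z hz =>
    (hU.eventually_mem hz).mono fun w hw => hf.differentiableAt (hU.mem_nhds hw)
  set l : E n → ℝ := fun z => Real.log (normSq (y z)) with hl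
  set h : E n → ℝ := fun z => ph z - l z with hh'
  have ly := fun z hz => ((mHOL n y z).2.2 (hol hy z hz)).2.2.2 (y0 z hz)
  have ch : ∀ z ∈ U, ContDiffAt ℝ 2 h z := fun z hz => (hp z hz).sub (cd_le (ly z hz).1 2)
  have cs : ∀ w ∈ B, ContDiffAt ℂ 2 sg w := fun w hw =>
    (hs.analyticAt (hB.mem_nhds hw)).contDiffAt
  refine ⟨h ∘ sg, fun w hw => ((ch _ (sw w hw).1).comp w
    ((cs w hw).restrict_scalars ℝ)).contDiffWithinAt, fun w => rfl, fun w hw c hc => ?_⟩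
  · obtain ⟨hz, e⟩ := sw w hw
    have d := (cs w hw).differentiableAt (by simp)
    set ξ := fderiv ℂ sg w 1 with hξ
    have e1 : fderiv ℂ sg w I = I • ξ := by rw [hξ, ← map_smul, smul_eq_mul, mul_one]
    have e2 : fderiv ℂ (fderiv ℂ sg) w I I = -fderiv ℂ (fderiv ℂ sg) w 1 1 := by
      have : (I : ℂ) = I • (1 : ℂ) := by simp
      rw [this, map_smul, map_smul, ContinuousLinearMap.smul_apply, smul_smul, I_mul_I,
        neg_one_smul]
    have e3 : fderiv ℂ W (sg w) ξ = 1 := by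
      have a := ((hol hW _ hz).self_of_nhds.hasFDerivAt.comp w d.hasFDerivAt).unique
        ((hasFDerivAt_id w).congr_of_eventuallyEq
          ((hB.eventually_mem hw).mono fun t ht => (sw t ht).2))
      exact congrArg (fun D : ℂ →L[ℂ] ℂ => D 1) a
    have e4 : al (sg w) ⬝ᵥ ξ = y (sg w) := by
      rw [fd_sum (hol hW _ hz).self_of_nhds] at e3
      simp only [dotProduct, ha _ hz, mul_assoc, ← Finset.mul_sum, e3, mul_one]
    have q1 := lev (hp _ hz) ξ
    have q2 := lev (cd_le (ly _ hz).1 2) ξ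
    have q3 : fderiv ℝ (fderiv ℝ h) (sg w) =
        fderiv ℝ (fderiv ℝ ph) (sg w) - fderiv ℝ (fderiv ℝ l) (sg w) := by
      have a : fderiv ℝ h =ᶠ[𝓝 (sg w)] fun u => fderiv ℝ ph u - fderiv ℝ l u :=
        (hU.eventually_mem hz).mono fun u hu =>
          fderiv_fun_sub ((hp u hu).differentiableAt (by simp)) (cd_diff (ly u hu).1)
      rw [a.fderiv_eq]
      exact fderiv_fun_sub
        (((hp _ hz).fderiv_right (m := 1) (by norm_num)).differentiableAt (by simp))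
        (cd_diff ((ly _ hz).1.fderiv_right (m := ∞) (by simp)))
    rw [(ly _ hz).2.1, Matrix.zero_mulVec, dotProduct_zero] at q2
    have q4 : star ξ ⬝ᵥ oo (al (sg w)) *ᵥ ξ = (normSq (y (sg w)) : ℂ) := by
      rw [oo, Matrix.vecMulVec_mulVec, e4, op_smul_eq_smul, dotProduct_smul,
        Matrix.star_dotProduct_star, e4, normSq_eq_conj_mul_self, smul_eq_mul,
        mul_comm]
      rfl
    rw [hh _ hz, Matrix.smul_mulVec, dotProduct_smul, q4, smul_eq_mul] at q1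
    have q5 := ofReal_injective ((ofReal_mul _ _).trans q1)
    have q6 := ofReal_injective (ofReal_zero.trans q2)
    have n0 := normSq_pos.2 (y0 _ hz)
    have q7 : Real.exp (ph (sg w) - ps (sg w)) * Real.exp (-(h ∘ sg) w) =
        Real.exp (-ps (sg w)) * normSq (y (sg w)) := by
      rw [← Real.exp_add, ← Real.exp_log n0, ← Real.exp_add]
      simp only [Function.comp_apply, hh', hl, Real.exp_log n0]
      ring_nf
    have q8 := mul_le_mul_of_nonneg_right hc (Real.exp_pos (-(h ∘ sg) w)).le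
    rw [d2c (cs w hw) (ch _ hz), d2c (cs w hw) (ch _ hz), e1, e2, map_neg, q3, ← hξ]
    simp only [ContinuousLinearMap.sub_apply]
    rw [mul_assoc s, q7, ← mul_assoc s] at q8
    linarith

theorem alg {G A : SL(2, ℂ)} {x y u v ν : ℂ}
    (e : G.1 *ᵥ ![x, y] = ν • (A.1 *ᵥ ![u, v])) :
    x = ν * ((G⁻¹ * A).1 0 0 * u + (G⁻¹ * A).1 0 1 * v) ∧
      y = ν * ((G⁻¹ * A).1 1 0 * u + (G⁻¹ * A).1 1 1 * v) := by
  have k : ![x, y] = ν • ((G⁻¹ * A).1 *ᵥ ![u, v]) := by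
    rw [Matrix.SpecialLinearGroup.coe_mul, ← Matrix.mulVec_mulVec, ← Matrix.mulVec_smul, ← e,
      Matrix.mulVec_mulVec, ← Matrix.SpecialLinearGroup.coe_mul, inv_mul_cancel,
      Matrix.SpecialLinearGroup.coe_one, Matrix.one_mulVec]
  generalize (G⁻¹ * A).1 = C at k
  exact ⟨by simpa [Matrix.mulVec, dotProduct, Fin.sum_univ_two, mul_add] using congrFun k 0,
    by simpa [Matrix.mulVec, dotProduct, Fin.sum_univ_two, mul_add] using congrFun k 1⟩

theorem inv {a b c d x y u v ν : ℂ} (h : a * d - b * c = 1) (e1 : x = ν * (a * u + b * v))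
    (e2 : y = ν * (c * u + d * v)) (x0 : x ≠ 0) (u0 : u ≠ 0) (n0 : ν ≠ 0) :
    d - b * (y / x) ≠ 0 ∧ (a * (y / x) - c) / (d - b * (y / x)) = v / u := by
  have k1 : (d - b * (y / x)) * x = ν * u := by
    rw [sub_mul, mul_assoc, div_mul_cancel₀ _ x0, e1, e2]
    linear_combination ν * u * h
  have k2 : (a * (y / x) - c) * x = ν * v := by
    rw [sub_mul, mul_assoc, div_mul_cancel₀ _ x0, e1, e2]
    linear_combination ν * v * h
  have k0 : d - b * (y / x) ≠ 0 := fun z => mul_ne_zero n0 u0 (by rw [← k1, z, zero_mul])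
  refine ⟨k0, ?_⟩
  rw [← mul_div_mul_right _ _ x0, k1, k2, mul_div_mul_left _ _ n0]

theorem wr2 {n : ℕ} {s t : E n → ℂ} {z : E n} {a b c d : ℂ} (h : a * d - b * c = 1)
    (hs : DifferentiableAt ℂ s z) (ht : DifferentiableAt ℂ t z) (k : Fin n) :
    s z * dz k t z - t z * dz k s z =
      (a * s z + b * t z) * dz k (fun w => c * s w + d * t w) z -
        (c * s z + d * t z) * dz k (fun w => a * s w + b * t w) z := by
  rw [M7.dz_fd hs.hasFDerivAt, M7.dz_fd ht.hasFDerivAt,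
    M7.dz_fd ((hs.hasFDerivAt.const_mul c).fun_add (ht.hasFDerivAt.const_mul d)),
    M7.dz_fd ((hs.hasFDerivAt.const_mul a).fun_add (ht.hasFDerivAt.const_mul b))]
  simp only [ContinuousLinearMap.add_apply, ContinuousLinearMap.smul_apply, smul_eq_mul]
  linear_combination (t z * fderiv ℂ s z (Pi.single k 1) - s z * fderiv ℂ t z (Pi.single k 1)) * h

end L49

open L49 B72 in
theorem st_LOC2 (hI : St_INV2) : St_LOC2 := by
  rintro n M α φ ψ s d den hL s0 x ⟨b, g, D₀, σ, oD, dσ, sσ, ev⟩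
  set A : SL(2, ℂ) := (lf 1)⁻¹ * lf g with hA
  have dt : A.1 0 0 * A.1 1 1 - A.1 0 1 * A.1 1 0 = 1 := by
    rw [← Matrix.det_fin_two]
    exact A.2
  set s₂ : E n → ℂ := fun z => A.1 0 0 * d.s b z + A.1 0 1 * d.t b z with hs₂
  set t₂ : E n → ℂ := fun z => A.1 1 0 * d.s b z + A.1 1 1 * d.t b z with ht₂
  set mo : ℂ → ℂ := fun w => (A.1 0 0 * w - A.1 1 0) / (A.1 1 1 - A.1 0 1 * w) with hmo
  set W : E n → ℂ := fun z => d.t x z / d.s x z with hW
  have sf : x ∈ (d.e x).source := d.sub x (d.self x)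
  have hp : d.e x x ∈ dO d x := dO_mem d (d.self x)
  have P : ∀ᶠ z in 𝓝 (d.e x x), z ∈ dO d x ∧ A.1 1 1 - A.1 0 1 * W z ≠ 0 ∧ mo (W z) ∈ D₀ ∧
      dLC d ((x, 1), (d.e x).symm z) ((b, g), (d.e b).symm (σ (mo (W z)))) ∧ ∃ ν : ℂ, ν ≠ 0 ∧
      d.s x z = ν * s₂ (σ (mo (W z))) ∧ d.t x z = ν * t₂ (σ (mo (W z))) ∧
      φ (d.e x) z = φ (d.e b) (σ (mo (W z))) + Real.log (normSq (ν ^ 2)) := by
    have c := (d.e x).continuousAt_symm hp.1
    rw [ContinuousAt, (d.e x).left_inv sf] at c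
    filter_upwards [(dO_opn d x).mem_nhds hp, c.eventually ev] with z hz ⟨w, hw, k⟩
    obtain ⟨ν, n0, e1, e2⟩ := hI n M α φ ψ s d den hL _ _ k hz.2
    simp only [(d.e x).right_inv hz.1, (d.e b).right_inv (sσ w hw).1.1] at e1 e2
    obtain ⟨a1, a2⟩ := alg e1
    obtain ⟨i1, i2⟩ := inv dt a1 a2 (dO_hol d hz).1.2.2 (dO_hol d (sσ w hw).1).1.2.2 n0
    have i3 : mo (W z) = w := i2.trans (sσ w hw).2
    rw [i3]
    exact ⟨hz, i1, hw, k, ν, n0, a1, a2, e2⟩
  obtain ⟨R, R0, hR⟩ := nhds_basis_closedBall.mem_iff.1 P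
  have dW : ∀ z ∈ dO d x, DifferentiableAt ℂ W z := fun z hz =>
    ddiv (dO_hol d hz).1.2.1 (dO_hol d hz).1.1 (dO_hol d hz).1.2.2
  have W0 : W (d.e x x) = 0 := by simp [hW, (d.base x).2]
  have op := opn (((dO_opn d x).eventually_mem hp).mono dW)
    (((den _ (d.mem x) _ hp.1).and_eventually ((dO_opn d x).mem_nhds hp)).mono fun z hz =>
      mt (fd_iff (dW z hz.2) (pow_ne_zero 2 (dO_hol d hz.2).1.2.2) fun k =>
        ((dO_hol d hz.2).2 k).trans (dz_div (dO_hol d hz.2).1.1 (dO_hol d hz.2).1.2.1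
          (dO_hol d hz.2).1.2.2 k)).1 hz.1) _ (ball_mem_nhds _ (half_pos R0))
  rw [W0] at op
  obtain ⟨δ, d0, hδ⟩ := Metric.mem_nhds_iff.1 op
  have r0 : (0 : ℝ) < √(δ / 2) := Real.sqrt_pos.2 (half_pos d0)
  set l : ℂˣ := Units.mk0 ((√(δ / 2) : ℝ) : ℂ) (Complex.ofReal_ne_zero.2 r0.ne') with hl
  have ll : (l : ℂ) * l = ((δ / 2 : ℝ) : ℂ) := by
    rw [hl, Units.val_mk0, ← Complex.ofReal_mul, Real.mul_self_sqrt (half_pos d0).le]
  have l0 : ((δ / 2 : ℝ) : ℂ) ≠ 0 := Complex.ofReal_ne_zero.2 (half_pos d0).ne'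
  have sc : ∀ u v : ℂ, v / l / (l * u) = v / u / ((δ / 2 : ℝ) : ℂ) := fun u v => by
    simp only [← ll, div_div]
    congr 1
    ring
  have hb : ball (d.e x x) (R / 2) ⊆ closedBall (d.e x x) R :=
    ball_subset_closedBall.trans (closedBall_subset_closedBall (half_le_self R0.le))
  have pre : ∀ w ∈ ball (0 : ℂ) 2, ∃ z ∈ ball (d.e x x) (R / 2), W z = ((δ / 2 : ℝ) : ℂ) * w :=
    fun w hw => hδ (by
      rw [mem_ball_zero_iff] at hw ⊢
      rw [norm_mul, Complex.norm_real, Real.norm_of_nonneg (half_pos d0).le]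
      nlinarith)
  have eW : ∀ z w, W z = ((δ / 2 : ℝ) : ℂ) * w ↔ d.t x z / l / (l * d.s x z) = w := fun z w => by
    rw [sc, div_eq_iff l0, mul_comm]
  set τ : ℂ → E n := fun w => σ (mo (((δ / 2 : ℝ) : ℂ) * w)) with hτ
  set U : Set (E n) := {z | z ∈ dO d b ∧ s₂ z ≠ 0} with hU
  have d1 : ∀ z ∈ dO d b, DifferentiableAt ℂ s₂ z ∧ DifferentiableAt ℂ t₂ z := fun z hz =>
    ⟨((dO_hol d hz).1.1.const_mul _).fun_add ((dO_hol d hz).1.2.1.const_mul _),
      ((dO_hol d hz).1.1.const_mul _).fun_add ((dO_hol d hz).1.2.1.const_mul _)⟩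
  have oU : IsOpen U := isOpen_iff_mem_nhds.2 fun z hz =>
    inter_mem ((dO_opn d b).mem_nhds hz.1) ((d1 z hz.1).1.continuousAt.eventually_ne hz.2)
  have dτ : DifferentiableOn ℂ τ (ball 0 2) := fun w hw => by
    obtain ⟨z, hz, e⟩ := pre w hw
    obtain ⟨-, p1, p2, -⟩ := hR (hb hz)
    rw [e] at p1 p2
    have m : DifferentiableAt ℂ (fun w : ℂ => mo (((δ / 2 : ℝ) : ℂ) * w)) w :=
      (((differentiableAt_id.const_mul _).const_mul _).sub_const _).div
        (((differentiableAt_id.const_mul _).const_mul _).const_sub _) p1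
    exact ((dσ.differentiableAt (oD.mem_nhds p2)).comp w m).differentiableWithinAt
  have sτ : ∀ w ∈ ball (0 : ℂ) 2, τ w ∈ U ∧ t₂ (τ w) / l / (l * s₂ (τ w)) = w := fun w hw => by
    obtain ⟨z, hz, e⟩ := pre w hw
    obtain ⟨p0, -, p2, -, ν, n0, p3, p4, -⟩ := hR (hb hz)
    have e' := (eW z w).1 e
    have z0 := (dO_hol d p0).1.2.2
    rw [e] at p2 p3 p4
    refine ⟨⟨(sσ _ p2).1, fun c => z0 (by rw [p3]; exact mul_eq_zero_of_right _ c)⟩, ?_⟩
    rw [sc, p3, p4, mul_div_mul_left _ _ n0, ← sc] at e'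
    exact e'
  obtain ⟨F, f1, f2, f3⟩ := cur U (ball 0 2) (fun z => t₂ z / l / (l * s₂ z))
    (fun z => ((l : ℂ) * s₂ z) ^ 2) (α (d.e b)) (φ (d.e b)) (ψ (d.e b)) τ s oU isOpen_ball
    (fun z hz => (ddiv (ddiv (d1 z hz.1).2 (differentiableAt_const _) l.ne_zero)
      ((d1 z hz.1).1.const_mul _) (mul_ne_zero l.ne_zero hz.2)).differentiableWithinAt)
    (fun z hz => (((d1 z hz.1).1.const_mul _).fun_pow 2).differentiableWithinAt)
    (fun z hz => pow_ne_zero 2 (mul_ne_zero l.ne_zero hz.2))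
    (fun z hz k => ((dO_hol d hz.1).2 k).trans
      ((wr2 dt (dO_hol d hz.1).1.1 (dO_hol d hz.1).1.2.1 k).trans
        (wr_sc l (d1 z hz.1).1 (d1 z hz.1).2 hz.2 k)))
    (fun z hz => (hL.wφ.sm _ (d.mem b) z hz.1.1).of_le (by norm_num))
    (fun z hz => hL.hφ _ (d.mem b) z hz.1.1) dτ sτ
  have b12 : closedBall (0 : ℂ) 1 ⊆ ball 0 2 := closedBall_subset_ball one_lt_two
  obtain ⟨κ, k0, hκ⟩ := (isCompact_closedBall (0 : ℂ) 1).exists_forall_le'
    (f := fun w => s * Real.exp (φ (d.e b) (τ w) - ψ (d.e b) (τ w))) (a := 0) (fun w hw =>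
      (continuousAt_const.mul (Real.continuous_exp.continuousAt.comp (ContinuousAt.comp
        (g := fun z => φ (d.e b) z - ψ (d.e b) z)
        ((hL.wφ.sm _ (d.mem b) _ (sτ w (b12 hw)).1.1.1).continuousAt.sub
          (hL.wψ.sm _ (d.mem b) _ (sτ w (b12 hw)).1.1.1).continuousAt)
        (dτ.differentiableAt (isOpen_ball.mem_nhds (b12 hw))).continuousAt))).continuousWithinAt)
    fun z _ => by positivity
  have cW : ContinuousOn (fun z => d.t x z / l / (l * d.s x z)) (closedBall (d.e x x) R) :=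
    fun z hz => (((dW z (hR hz).1).continuousAt.div_const _).continuousWithinAt).congr
      (fun y _ => sc _ _) (sc _ _)
  refine ⟨l, R, ball (d.e x x) R ∩ (fun z => d.t x z / l / (l * d.s x z)) ⁻¹' ball 0 1, F, κ,
    fun z hz => (hR hz).1, (cW.mono ball_subset_closedBall).isOpen_inter_preimage isOpen_ball
      isOpen_ball, ⟨mem_ball_self R0, by simp [(d.base x).2]⟩, fun z hz => hz.1,
    fun z hz => mem_ball_zero_iff.1 hz.2, fun w hw => ?_,
    ⟨closedBall (d.e x x) (R / 2) ∩ (fun z => d.t x z / l / (l * d.s x z)) ⁻¹' closedBall 0 (7 / 8),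
      (isCompact_closedBall _ _).of_isClosed_subset ((cW.mono (closedBall_subset_closedBall
        (half_le_self R0.le))).preimage_isClosed_of_isClosed isClosed_closedBall isClosed_closedBall)
        inter_subset_left, fun z hz => ⟨closedBall_subset_ball (half_lt_self R0) hz.1,
          closedBall_subset_ball (by norm_num) hz.2⟩, fun w hw => ?_⟩, fun y y' h1 h2 e => ?_,
    f1.continuousOn.mono b12, k0, ⟨f1.mono (ball_subset_closedBall.trans b12), fun w hw =>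
      f3 w (b12 (ball_subset_closedBall hw)) κ (hκ w (ball_subset_closedBall hw))⟩, fun z hz => ?_⟩
  · obtain ⟨z, hz, e⟩ := pre w (mem_ball_zero_iff.2 (by linarith))
    refine ⟨z, ⟨ball_subset_ball (half_le_self R0.le) hz, ?_⟩, (eW z w).1 e⟩
    rw [mem_preimage, (eW z w).1 e]
    exact mem_ball_zero_iff.2 hw
  · obtain ⟨z, hz, e⟩ := pre w (mem_ball_zero_iff.2 (by linarith))
    refine ⟨z, ⟨ball_subset_closedBall hz, ?_⟩, (eW z w).1 e⟩
    rw [mem_preimage, (eW z w).1 e]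
    exact mem_closedBall_zero_iff.2 hw
  · have k1 := (hR (ball_subset_closedBall h1.2.1)).2.2.2.1
    have k2 := (hR (ball_subset_closedBall h2.2.1)).2.2.2.1
    rw [(d.e x).left_inv h1.1, show W (d.e x y) = W (d.e x y') from e] at k1
    rw [(d.e x).left_inv h2.1] at k2
    exact LC.trans k1 (LC.symm (dC_coc d) k2)
  · obtain ⟨p0, -, -, -, ν, n0, p3, -, p5⟩ := hR (ball_subset_closedBall hz.1)
    have z0 := (dO_hol d p0).1.2.2
    have e : τ (d.t x z / l / (l * d.s x z)) = σ (mo (W z)) := by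
      rw [hτ]
      beta_reduce
      rw [← (eW z _).2 rfl]
    have u0 : s₂ (σ (mo (W z))) ≠ 0 := fun c => z0 (by rw [p3]; exact mul_eq_zero_of_right _ c)
    rw [f2, e, p5, p3, show ((l : ℂ) * (ν * s₂ (σ (mo (W z))))) ^ 2 =
      ν ^ 2 * (l * s₂ (σ (mo (W z)))) ^ 2 by ring, map_mul,
      Real.log_mul (normSq_pos.2 (pow_ne_zero 2 n0)).ne'
        (normSq_pos.2 (pow_ne_zero 2 (mul_ne_zero l.ne_zero u0))).ne']
    ring

end Pool.Agent.Lib.F4H
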