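import Pool.Agent.Lib.F4H.BlueM
import Pool.Agent.Lib.F4G.Ext37
import Pool.Agent.Lib.F4G.M_MCV

/-! Project f4h, row MLK2: the links of the atlas of discs are links on discs of a fixed size. -/

open scoped Topology NNReal
open Set Filter Metric

namespace Pool.Agent.Lib.F4H

open Pool.Agent.Lib.SV (E)
open Pool.Agent.Lib.F4G

namespace Mlk65

theorem reach {V : Type} {R : V → V → Prop} (h : ∀ v, {u | R v u}.Countable) (v : V) :
    {u | Relation.ReflTransGen R v u}.Countable := by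
  let A : ℕ → Set V := fun k => Nat.rec {v} (fun _ B => ⋃ u ∈ B, {w | R u w}) k
  have hA : ∀ k, (A k).Countable := fun k => by
    induction k with
    | zero => exact countable_singleton v
    | succ k ih => exact ih.biUnion fun u _ => h u
  refine (countable_iUnion hA).mono fun u hu => ?_
  induction hu with
  | refl => exact mem_iUnion.2 ⟨0, rfl⟩
  | tail _ q ih =>
    obtain ⟨k, hk⟩ := mem_iUnion.1 ih
    exact mem_iUnion.2 ⟨k + 1, mem_iUnion₂.2 ⟨_, hk, q⟩⟩

variable {n : ℕ} {V : Type} {O : V → Set (E n)} {W : V → E n → ℂ}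
  {Com : V → E n → V → E n → Prop} {T : Set ℂ} {Mo : V → V → ℂ → ℂ}

theorem val (G : Geo2 O W Com T Mo) {p q : V × E n}
    (h : Relation.ReflTransGen (Stp O W Com) p q) :
    (∀ u, Mo p.1 u (W p.1 p.2) = Mo q.1 u (W q.1 q.2)) ∧
      Relation.ReflTransGen (fun v u => ∃ x x', Com v x u x') p.1 q.1 := by
  induction h with
  | refl => exact ⟨fun _ => rfl, .refl⟩
  | @tail s t _ h ih =>
    obtain c | ⟨e, C, -, -, -, c4, c5⟩ := h
    · exact ⟨fun u => (ih.1 u).trans (G.coc _ _ _ _ c u), ih.2.tail ⟨_, _, c⟩⟩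
    · rw [e, c5 _ c4]
      exact ih

theorem good (G : Geo2 O W Com T Mo) (hT : T.Countable)
    (nb : ∀ v, {u | ∃ x x', Com v x u x'}.Countable) (v : V) : ∃ S : Set ℂ, S.Countable ∧
    ∀ x, W v x ∉ S → ∀ q, Relation.ReflTransGen (Stp O W Com) (v, x) q →
      Relation.ReflTransGen (StG O W Com T) (v, x) q := by
  refine ⟨⋃ u ∈ {u | Relation.ReflTransGen (fun v u => ∃ x x', Com v x u x') v u}, Mo u v '' T,
    (reach nb v).biUnion fun u _ => hT.image _, fun x hx q h => ?_⟩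
  induction h with
  | refl => exact .refl
  | @tail s t h1 h ih =>
    refine ih.tail ⟨h, fun c => hx (mem_iUnion₂.2 ⟨s.1, (val G h1).2, _, c, ?_⟩)⟩
    rw [← (val G h1).1 v, G.rf]

end Mlk65

open Mlk65 in
theorem st_MLK2 : St_MLK2 := by
  intro n V I p F J k B r U O W Com T Mo hA hG hT nb sur hJ
  have hB := Real.exp_pos B
  refine ⟨min r (min (1 / 8) (1 / (8 * Real.exp B))), ⟨Real.exp B, hB.le⟩ ^ 2,
    lt_min hA.hr (lt_min (by norm_num) (by positivity)), ?_⟩
  rintro v v' ⟨z, y, hz, hy, hj⟩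
  obtain ⟨a, b, c, d, det, e0, hx⟩ := hA.ext v z v' y hj hz hy
  set ρ := min r (min (1 / 8) (1 / (8 * Real.exp B))) with hρ
  have r1 : ρ ≤ r := min_le_left _ _
  have r2 : ρ ≤ 1 / 8 := (min_le_right _ _).trans (min_le_left _ _)
  have r3 : ρ ≤ 1 / (8 * Real.exp B) := (min_le_right _ _).trans (min_le_right _ _)
  have n1 : ∀ x, ‖x - z‖ < ρ → ‖x‖ < 7 / 8 := fun x h => by
    have := norm_add_le (x - z) z
    rw [sub_add_cancel] at this
    linarith
  have k1 : ∀ x, ‖x - z‖ < ρ → c * x + d ≠ 0 ∧ Real.exp (-(B / 2)) ≤ ‖c * x + d‖ ∧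
      ‖c * x + d‖ ^ 2 ≤ Real.exp B ∧ Mo v v' x = (a * x + b) / (c * x + d) ∧
      J v x v' (Mo v v' x) := fun x h => by
    obtain ⟨h1, h2, h3, h4⟩ := hx x (h.trans_le r1)
    have b1 := hA.bd (p v') _ h2
    have b2 := hA.bd (p v) x (by linarith [n1 x h])
    have e : Mo v v' x = (a * x + b) / (c * x + d) := by
      obtain ⟨s, s1, rfl⟩ := sur v x (by linarith [n1 x h])
      obtain ⟨t, t1, t2⟩ := sur v' _ h2
      rw [(val hG (hJ v v' s s1 t t1 (t2 ▸ h3))).1 v', hG.rf, t2]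
    refine ⟨h1, inv_le37 h1 h4 b1 b2, ?_, e, e ▸ h3⟩
    have q : 0 < ‖c * x + d‖ := norm_pos_iff.2 h1
    rw [← Real.exp_log q, ← Real.exp_nat_mul, Real.exp_le_exp]
    have := abs_le.1 b1
    have := abs_le.1 b2
    push_cast
    linarith
  have hρ0 : 0 < ρ := lt_min hA.hr (lt_min (by norm_num) (by positivity))
  have kz := k1 z (by simpa using hρ0)
  refine ⟨z, fun x h => mem_closedBall_zero_iff.2 (n1 x (mem_ball_iff_norm.1 h)).le,
    fun x h => ?_, fun χ _ => ?_, ?_⟩
  · have h' := mem_ball_iff_norm.1 h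
    obtain ⟨h1, h2, -, h4, -⟩ := k1 x h'
    have h5 : ‖Mo v v' x - y‖ ≤ 1 / 8 := by
      rw [h4, ← e0, moeb_sub37 det h1 kz.1, norm_div, norm_mul,
        div_le_iff₀ (mul_pos (norm_pos_iff.2 h1) (norm_pos_iff.2 kz.1))]
      have h6 : Real.exp (-(B / 2)) * Real.exp (-(B / 2)) ≤ ‖c * x + d‖ * ‖c * z + d‖ :=
        mul_le_mul h2 kz.2.1 (Real.exp_pos _).le (norm_nonneg _)
      have h7 : Real.exp (-(B / 2)) * Real.exp (-(B / 2)) = (Real.exp B)⁻¹ := by
        rw [← Real.exp_add, ← Real.exp_neg]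
        congr 1
        ring
      have h8 : 1 / (8 * Real.exp B) = 1 / 8 * (Real.exp B)⁻¹ := by field_simp
      linarith
    have := norm_add_le (Mo v v' x - y) y
    rw [sub_add_cancel] at this
    exact mem_closedBall_zero_iff.2 (by linarith)
  · refine st_MCV (ball z ρ) (Mo v v') (fun w => 1 / (c * w + d) ^ 2) ⟨Real.exp B, hB.le⟩
      measurableSet_ball (fun x h x' h' e => ?_) (fun w h => ⟨?_, ?_⟩) χ
    · obtain ⟨h1, -, -, h4, -⟩ := k1 x (mem_ball_iff_norm.1 h)
      obtain ⟨h2, -, -, h5, -⟩ := k1 x' (mem_ball_iff_norm.1 h')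
      rw [h4, h5, div_eq_div_iff h1 h2] at e
      linear_combination e - (x - x') * det
    · have h1 := (k1 w (mem_ball_iff_norm.1 h)).1
      have h2 : HasDerivAt (fun x => (a * x + b) / (c * x + d))
          ((a * (c * w + d) - (a * w + b) * c) / (c * w + d) ^ 2) w := by
        have t1 : HasDerivAt (fun x => a * x + b) a w := by
          simpa using ((hasDerivAt_id w).const_mul a).add_const b
        have t2 : HasDerivAt (fun x => c * x + d) c w := by
          simpa using ((hasDerivAt_id w).const_mul c).add_const d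
        exact t1.div t2 h1
      have h3 : a * (c * w + d) - (a * w + b) * c = 1 := by linear_combination det
      rw [h3] at h2
      refine h2.congr_of_eventuallyEq ?_
      filter_upwards [isOpen_ball.mem_nhds h] with x hx'
      exact (k1 x (mem_ball_iff_norm.1 hx')).2.2.2.1
    · obtain ⟨h1, -, h3, -⟩ := k1 w (mem_ball_iff_norm.1 h)
      have q : 0 < ‖c * w + d‖ ^ 2 := pow_pos (norm_pos_iff.2 h1) 2
      change 1 ≤ Real.exp B * _
      rw [norm_div, norm_one, norm_pow, mul_one_div, le_div_iff₀ q, one_mul]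
      exact h3
  · obtain ⟨S, hS, h⟩ := good hG hT nb v
    exact ⟨S, hS, fun x h1 h2 x' h3 h4 => h x h2.2 _ (hJ v v' x h1 x' h3
      (h4 ▸ (k1 _ (mem_ball_iff_norm.1 h2.1)).2.2.2.2))⟩

end Pool.Agent.Lib.F4H
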