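import Pool.Agent.Lib.F4H.AllM
import Pool.Agent.Lib.F4H.M_MLK
import Pool.Agent.Lib.F4H.Sh0
import Pool.Agent.Lib.F4G.M_MGO

/-! Project f4h: the cost of a link for a finite family of balls with developing pairs. -/

open scoped Topology Matrix MatrixGroups
open Set Filter Metric

noncomputable section

namespace Pool.Agent.Lib.F4H

open Pool.Agent.Lib.SV (E)
open Pool.Agent.Lib.HS32 Pool.Agent.Lib.F4 Pool.Agent.Lib.F4G

namespace Mgo65

/-- Balls of charts with developing pairs of `α`, regular off `T`. -/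
structure Raw {n : ℕ} {M : Mf n} (α : M.Fam (E n)) {I : Type} (e : I → M.Ch) (p : I → E n)
    (R : I → ℝ) (s t : I → E n → ℂ) (c : I → I → M.X → PG) (S : Set PG) (T : Set ℂ) : Prop where
  mem : ∀ a, e a ∈ M.C
  sub : ∀ a, closedBall (p a) (R a) ⊆ (e a).target
  hol : ∀ a, ∀ z ∈ closedBall (p a) (R a), DifferentiableAt ℂ (s a) z ∧
    DifferentiableAt ℂ (t a) z ∧ s a z ≠ 0
  wr : ∀ a, ∀ z ∈ closedBall (p a) (R a), ∀ j,
    α (e a) z j = s a z * dz j (t a) z - t a z * dz j (s a) z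
  tr : ∀ a b x, In (e a) (ball (p a) (R a)) x → In (e b) (ball (p b) (R b)) x →
    ∃ h : ℂ, h ^ 2 = jd M (e a) (e b) x ∧
      h • ![s a (e a x), t a (e a x)] = (lf (c a b x)).1 *ᵥ ![s b (e b x), t b (e b x)]
  lc : ∀ a b x, In (e a) (ball (p a) (R a)) x → In (e b) (ball (p b) (R b)) x →
    c a b x ∈ S ∧ ∀ᶠ y in 𝓝 x, c a b y = c a b x
  reg : ∀ a, ∀ z ∈ ball (p a) (R a), t a z / s a z ∉ T → α (e a) z ≠ 0

variable {n : ℕ} {M : Mf n} {α : M.Fam (E n)} {I : Type} {e : I → M.Ch} {p : I → E n}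
  {R : I → ℝ} {s t : I → E n → ℂ} {c : I → I → M.X → PG} {S : Set PG} {T : Set ℂ}

variable (e p R c) in
/-- Common points of the balls, in coordinates. -/
def Cm (v : I × PG) (x : E n) (v' : I × PG) (x' : E n) : Prop :=
  ∃ y, In (e v.1) (ball (p v.1) (R v.1)) y ∧ In (e v'.1) (ball (p v'.1) (R v'.1)) y ∧
    e v.1 y = x ∧ e v'.1 y = x' ∧ v'.2 = v.2 * c v.1 v'.1 y

/-- The Möbius map between the discs of two vertices. -/
def Mb (v v' : I × PG) (w : ℂ) : ℂ :=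
  ((lf (v'.2⁻¹ * v.2)).1 1 0 + (lf (v'.2⁻¹ * v.2)).1 1 1 * w) /
    ((lf (v'.2⁻¹ * v.2)).1 0 0 + (lf (v'.2⁻¹ * v.2)).1 0 1 * w)

theorem dW (h : Raw α e p R s t c S T) {i : I} {z : E n} (hz : z ∈ ball (p i) (R i)) :
    DifferentiableAt ℂ (fun y => t i y / s i y) z ∧
      ∀ j, α (e i) z j = s i z ^ 2 * dz j (fun y => t i y / s i y) z := by
  obtain ⟨h1, h2, h3⟩ := h.hol i z (ball_subset_closedBall hz)
  have d := h2.hasFDerivAt.fun_mul ((hasDerivAt_inv h3).comp_hasFDerivAt z h1.hasFDerivAt)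
  have q : (fun y => t i y / s i y) = fun y => t i y * ((fun y : ℂ => y⁻¹) ∘ s i) y :=
    funext fun y => div_eq_mul_inv _ _
  rw [← q] at d
  refine ⟨d.differentiableAt, fun j => ?_⟩
  rw [h.wr i z (ball_subset_closedBall hz), M7.dz_fd d, M7.dz_fd h1.hasFDerivAt,
    M7.dz_fd h2.hasFDerivAt]
  simp
  field_simp
  ring

theorem alg {A B C : Matrix (Fin 2) (Fin 2) ℂ} {r s t s' t' : ℂ} (h : B = A * C ∨ B = -(A * C))
    (r0 : r ≠ 0) (s0 : s ≠ 0) (s1 : s' ≠ 0) (q : r • ![s, t] = C *ᵥ ![s', t']) :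
    (A 1 0 + A 1 1 * (t / s)) / (A 0 0 + A 0 1 * (t / s)) =
      (B 1 0 + B 1 1 * (t' / s')) / (B 0 0 + B 0 1 * (t' / s')) := by
  have q0 := congrFun q 0
  have q1 := congrFun q 1
  simp only [Pi.smul_apply, smul_eq_mul, Matrix.mulVec, dotProduct, Fin.sum_univ_two,
    Matrix.cons_val_zero, Matrix.cons_val_one] at q0 q1
  have k : ∀ i, (A * C) i 0 + (A * C) i 1 * (t' / s') =
      (r * s / s') * (A i 0 + A i 1 * (t / s)) := fun i => by
    simp only [Matrix.mul_apply, Fin.sum_univ_two]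
    field_simp
    linear_combination (-A i 0) * q0 - A i 1 * q1
  have l : r * s / s' ≠ 0 := div_ne_zero (mul_ne_zero r0 s0) s1
  rcases h with rfl | rfl
  · rw [k, k, mul_div_mul_left _ _ l]
  · simp only [Matrix.neg_apply, neg_mul, ← neg_add, neg_div_neg_eq]
    rw [k, k, mul_div_mul_left _ _ l]

theorem geo (h : Raw α e p R s t c S T) : Geo2 (fun v : I × PG => ball (p v.1) (R v.1))
    (fun v y => t v.1 y / s v.1 y) (Cm e p R c) T Mb := by
  refine ⟨fun v => isOpen_ball, fun v z hz => (dW h hz).1.differentiableWithinAt, ?_,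
    fun v x hx hw h0 => h.reg _ x hx hw ?_, fun v v' => ?_, fun v w => ?_, ?_⟩
  · rintro v _ v' _ ⟨y, y1, y2, rfl, rfl, y3⟩
    obtain ⟨h1, -, -, h2, -⟩ := (mTR n M).2.1 _ (h.mem v'.1) _ (h.mem v.1) y y2.1 y1.1
    obtain ⟨g1, -, -, g2, -⟩ := (mTR n M).2.1 _ (h.mem v.1) _ (h.mem v'.1) y y1.1 y2.1
    have t0 : (e v'.1 ∘ (e v.1).symm) (e v.1 y) = e v'.1 y := by
      simp [(e v.1).left_inv y1.1]
    have t1 : (e v.1 ∘ (e v'.1).symm) (e v'.1 y) = e v.1 y := by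
      simp [(e v'.1).left_inv y2.1]
    have d1 := ((SV.H85.contDiffAt_nat h1 1).restrict_scalars ℝ).hasStrictFDerivAt
      (by simp)
    have d2 := (g1.self_of_nhds.restrictScalars ℝ).hasFDerivAt
    have i1 := ((HasFDerivAt.comp _ (t0 ▸ d2) d1.hasFDerivAt).congr_of_eventuallyEq (f₁ := id) (by
      filter_upwards [h2] with w hw
      simp only [Function.comp_apply, id, hw.2.2.2.2.1, hw.2.2.2.2.2.1])).unique
      (hasFDerivAt_id _)
    have i2 := ((HasFDerivAt.comp _ (t1 ▸ d1.hasFDerivAt) d2).congr_of_eventuallyEq (f₁ := id) (by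
      filter_upwards [g2] with w hw
      simp only [Function.comp_apply, id, hw.2.2.2.2.1, hw.2.2.2.2.2.1])).unique
      (hasFDerivAt_id _)
    rw [t0] at i1
    rw [t1] at i2
    refine ⟨y1.2, y2.2, e v'.1 ∘ (e v.1).symm, .equivOfInverse' _ _ i2 i1, d1, t0, ?_⟩
    have ts : Tendsto (e v.1).symm (𝓝 (e v.1 y)) (𝓝 y) := (e v.1).tendsto_symm y1.1
    filter_upwards [h2, isOpen_ball.mem_nhds y1.2, d1.continuousAt.eventually
      (isOpen_ball.eventually_mem (t0 ▸ y2.2)), ts.eventually (h.lc _ _ y y1 y2).2]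
      with w k1 k2 k3 k4
    exact ⟨_, ⟨k1.2.2.1, by rwa [k1.2.2.2.2.2.1]⟩, ⟨k1.2.1, k3⟩, k1.2.2.2.2.2.1, rfl,
      by rw [k4, y3]⟩
  · funext j
    rw [(dW h hx).2 j, M7.dz_fd (dW h hx).1.hasFDerivAt, h0]
    simp
  · unfold Mb
    fun_prop
  · rw [Mb, inv_mul_cancel]
    rcases G62.lf_mk 1 with q | q <;> rw [QuotientGroup.mk_one] at q <;> rw [q] <;> simp
  · rintro v _ v' _ ⟨y, y1, y2, rfl, rfl, y3⟩ u
    obtain ⟨r, r1, r2⟩ := h.tr _ _ y y1 y2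
    have r0 : r ≠ 0 := fun q => ((mTR n M).2.1 _ (h.mem _) _ (h.mem _) y y1.1 y2.1).2.1
      (by rw [q] at r1; exact r1.symm.trans (by simp))
    refine alg ?_ r0 (h.hol _ _ (ball_subset_closedBall y1.2)).2.2
      (h.hol _ _ (ball_subset_closedBall y2.2)).2.2 r2
    rw [y3, ← mul_assoc]
    exact G62.lf_mul _ _

end Mgo65

open Mgo65 in
/-- The cost of a link. -/
theorem mean65 {n : ℕ} {M : Mf n} [M.Cpt] {H : M.Fam (Mat n)} {α : M.Fam (E n)} {I : Type}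
    [Finite I] {e : I → M.Ch} {p : I → E n} {R : I → ℝ} {s t : I → E n → ℂ}
    {c : I → I → M.X → PG} {S : Set PG} {T : Set ℂ} (h : Raw α e p R s t c S T)
    (hS : S.Countable) (hT : T.Countable) {U : I → Set (E n)} (opn : ∀ a, IsOpen (U a))
    (uq : ∀ a, U a ⊆ ball (p a) (R a))
    (sur : ∀ a w, ‖w‖ < 1 → ∃ z ∈ U a, t a z / s a z = w)
    (Q : (I × PG) × M.X → (I × PG) × M.X → Prop)
    (hQ : ∀ u v, Q u v → (u.2 = v.2 ∧ In (e u.1.1) (ball (p u.1.1) (R u.1.1)) u.2 ∧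
      In (e v.1.1) (ball (p v.1.1) (R v.1.1)) u.2 ∧ v.1.2 = u.1.2 * c u.1.1 v.1.1 u.2) ∨
      (u.1 = v.1 ∧ Jn {x | In (e u.1.1) (ball (p u.1.1) (R u.1.1)) x}
        (fun x => t u.1.1 (e u.1.1 x) / s u.1.1 (e u.1.1 x)) u.2 v.2))
    (con : ∀ a g x y, In (e a) (U a) x → In (e a) (U a) y →
      t a (e a x) / s a (e a x) = t a (e a y) / s a (e a y) →
      Relation.ReflTransGen Q ((a, g), x) ((a, g), y))
    {El : (I × PG) × ℂ → (I × PG) × ℂ → Prop}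
    (hE : ∀ u v, El u v → ∃ x, In (e u.1.1) (U u.1.1) x ∧ In (e v.1.1) (U v.1.1) x ∧
      u.2 = t u.1.1 (e u.1.1 x) / s u.1.1 (e u.1.1 x) ∧
      v.2 = t v.1.1 (e v.1.1 x) / s v.1.1 (e v.1.1 x) ∧ v.1.2 = u.1.2 * c u.1.1 v.1.1 x)
    {F : I → ℂ → ℝ} {k B r : ℝ} (κ : ℝ) (hH : M.Kae H) (hα : H1 M 1 α) (h3 : Sm3 M H α)
    (atl : My.Atl Prod.fst F (fun v z w y => Relation.TransGen El (v, z) (w, y)) k B r) :
    ∃ (C : ℝ) (q : ℝ → (M.X → ℝ) → I → M.X),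
      (∀ ε u i, In (e i) (ball (p i) (R i)) (q ε u i)) ∧
      ∀ v w, My.Lk (fun v z w y => Relation.TransGen El (v, z) (w, y)) v w →
        ∃ δ : ℝ, 0 < δ ∧ ∀ (ε : ℝ) (u : M.X → ℝ) (f : I × PG → M.X → ℝ),
        0 ≤ ε → ε ≤ δ → M.Sm u → M.Le 0 (tE M H ε u) →
        (∀ a g x, In (e a) (ball (p a) (R a)) x →
          (∀ d, In (e d) (ball (p d) (R d)) x → f (d, g * c a d x) x = f (a, g) x) ∧
          ContDiffAt ℝ 1 (f (a, g) ∘ (e a).symm) (e a x) ∧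
          ∀ ξ, fderiv ℝ (f (a, g) ∘ (e a).symm) (e a x) ξ ^ 2 ≤
            κ * nq (tE M H ε u (e a) (e a x)) ξ) →
        |f v (q ε u v.1) - f w (q ε u w.1)| ≤ C := by
  have G := geo h
  have tg : ∀ i, ∀ z ∈ ball (p i) (R i), z ∈ (e i).target := fun i z hz =>
    h.sub i (ball_subset_closedBall hz)
  have mem : ∀ i (D : Set (E n)), D ⊆ ball (p i) (R i) → ∀ z ∈ D, In (e i) D ((e i).symm z) :=
    fun i D hD z hz => ⟨(e i).map_target (tg i z (hD hz)),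
      by rwa [(e i).right_inv (tg i z (hD hz))]⟩
  have ch : ∀ u v, Relation.ReflTransGen Q u v → Relation.ReflTransGen
      (Stp (fun v : I × PG => ball (p v.1) (R v.1)) (fun v y => t v.1 y / s v.1 y) (Cm e p R c))
      (u.1, e u.1.1 u.2) (v.1, e v.1.1 v.2) := fun u v huv => by
    induction huv with
    | refl => exact .refl
    | @tail a b _ hab ih =>
      refine ih.tail ?_
      obtain ⟨q1, q2, q3, q4⟩ | ⟨q1, C, c1, c2, c3, c4, c5⟩ := hQ a b hab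
      · exact Or.inl ⟨a.2, q2, q3, rfl, by rw [q1], q4⟩
      · refine Or.inr ⟨q1.symm, e a.1.1 '' C, c1.image _
          ((e a.1.1).continuousOn.mono fun x hx => (c2 hx).1), ?_, mem_image_of_mem _ c3,
          q1 ▸ mem_image_of_mem _ c4, ?_⟩
        · rintro _ ⟨x, hx, rfl⟩
          exact (c2 hx).2
        · rintro _ ⟨x, hx, rfl⟩
          exact c5 x hx
  have cn : ∀ (v : I × PG) x y, In (e v.1) (U v.1) x → In (e v.1) (U v.1) y →
      t v.1 (e v.1 x) / s v.1 (e v.1 x) = t v.1 (e v.1 y) / s v.1 (e v.1 y) → Relation.ReflTransGen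
      (Stp (fun v : I × PG => ball (p v.1) (R v.1)) (fun v y => t v.1 y / s v.1 y) (Cm e p R c))
      (v, e v.1 x) (v, e v.1 y) := fun v x y h1 h2 h3 => ch _ _ (con v.1 v.2 x y h1 h2 h3)
  have jj : ∀ u v, Relation.TransGen El u v → ∀ x y, In (e u.1.1) (U u.1.1) x →
      In (e v.1.1) (U v.1.1) y → u.2 = t u.1.1 (e u.1.1 x) / s u.1.1 (e u.1.1 x) →
      v.2 = t v.1.1 (e v.1.1 y) / s v.1.1 (e v.1.1 y) → Relation.ReflTransGen
      (Stp (fun v : I × PG => ball (p v.1) (R v.1)) (fun v y => t v.1 y / s v.1 y) (Cm e p R c))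
      (u.1, e u.1.1 x) (v.1, e v.1.1 y) := fun u v huv x y hx hy ex ey => by
    induction huv generalizing y with
    | @single b hb =>
      obtain ⟨z, z1, z2, z3, z4, z5⟩ := hE _ _ hb
      exact ((cn _ x z hx z1 (ex.symm.trans z3)).tail (Or.inl ⟨z, ⟨z1.1, uq _ z1.2⟩,
        ⟨z2.1, uq _ z2.2⟩, rfl, rfl, z5⟩)).trans (cn _ z y z2 hy (z4.symm.trans ey))
    | @tail a b _ hb ih =>
      obtain ⟨z, z1, z2, z3, z4, z5⟩ := hE _ _ hb
      exact ((ih z z1 z3).tail (Or.inl ⟨z, ⟨z1.1, uq _ z1.2⟩,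
        ⟨z2.1, uq _ z2.2⟩, rfl, rfl, z5⟩)).trans (cn _ z y z2 hy (z4.symm.trans ey))
  obtain ⟨r', L, hr, hl⟩ := st_MLK2 n _ I _ F _ k B r (fun v : I × PG => U v.1) _ _ _ T _ atl G hT
    (fun v => ((countable_univ (α := I)).prod (hS.image (v.2 * ·))).mono (by
      rintro u ⟨_, _, y, y1, y2, -, -, y3⟩
      exact ⟨mem_univ _, _, (h.lc _ _ y y1 y2).1, y3.symm⟩))
    (fun v w hw => sur v.1 w hw) (fun v v' x hx x' hx' hj => by
      have := jj _ _ hj _ _ (mem _ _ (uq _) x hx) (mem _ _ (uq _) x' hx')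
      simp only [(e _).right_inv (tg _ x (uq _ hx)), (e _).right_inv (tg _ x' (uq _ hx'))] at this
      exact this trivial trivial)
  have hR : ∀ i, 0 < R i := fun i => by
    obtain ⟨z, hz, -⟩ := sur i 0 (by simp)
    exact nonempty_ball.1 ⟨_, uq i hz⟩
  obtain ⟨C1, q, hq, hh⟩ := aMEA2 n M H α I (I × PG) Prod.fst e p R U (fun i y => t i y / s i y)
    κ (7 / 8) r' L (Cm e p R c) T Mb hH hα h3 hr hT (fun i => ⟨h.mem i, hR i, h.sub i, uq i, opn i,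
      fun z hz => (dW h hz).1.differentiableWithinAt, fun y hy =>
        ⟨_, pow_ne_zero 2 (h.hol i y (ball_subset_closedBall hy)).2.2, (dW h hy).2⟩,
      fun w hw => by
        obtain ⟨z, z1, rfl⟩ := sur i w ((mem_closedBall_zero_iff.1 hw.1).trans_lt (by norm_num))
        exact ⟨z, z1, rfl, G.reg (i, 1) z (uq i z1) hw.2⟩⟩) G
  refine ⟨C1, fun ε u i => (e i).symm (q ε u i), fun ε u i => mem i _ subset_rfl _ (hq ε u i),
    fun v w lk => ?_⟩
  obtain ⟨z, hz⟩ := hl v w lk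
  obtain ⟨δ, hδ, hd⟩ := hh v w z hz
  refine ⟨δ, hδ, fun ε u f h0 h1 hu hT hf => ?_⟩
  refine hd ε u (fun a => f a ∘ (e a.1).symm) h0 h1 hu hT (fun a y hy => ?_) ?_
  · obtain ⟨-, k2, k3⟩ := hf a.1 a.2 _ (mem a.1 _ subset_rfl y hy)
    rw [(e a.1).right_inv (tg a.1 y hy)] at k2 k3
    exact ⟨k2.differentiableAt one_ne_zero, k3⟩
  · rintro a _ a' _ ⟨y, y1, y2, rfl, rfl, y3⟩
    have k1 := (hf a.1 a.2 y y1).1 a'.1 y2
    rw [← y3] at k1
    simp only [Function.comp_apply, (e a.1).left_inv y1.1, (e a'.1).left_inv y2.1]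
    exact k1.symm

end Pool.Agent.Lib.F4H
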