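import Pool.Agent.Lib.F4H.BlueC
import Pool.Agent.Lib.F4H.M_MGO

/-! Project f4h, row MEAN2: the cost of a link for a family of boxes. -/

namespace Pool.Agent.Lib.F4H

open Pool.Agent.Lib.F4G

theorem st_MEAN2 : St_MEAN2 := by
  intro n M _ H α k B r κ b hH hα h3 atl
  have := b.fin
  exact mean65 (S := (b.S : Set PG)) ⟨b.mem, b.sub, b.hol, b.wr, b.tr, fun a d x h1 h2 =>
    ⟨(b.lc a d x h1 h2).1, (b.lc a d x h1 h2).2.1⟩, b.reg⟩ b.S.countable_toSet b.cnt b.opn b.uq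
    b.sur _ (fun _ _ h => h) b.con (El := b.El) (fun _ _ h => h) κ hH hα h3 atl

end Pool.Agent.Lib.F4H
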