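import Pool.Agent.Lib.F4H.BlueC
import Pool.Agent.Lib.F4G.G_ORB

/-! Project f4h, row ORB2: a finite orbit gives a pluricanonical form. -/

open scoped Classical Topology ContDiff Matrix MatrixGroups
open scoped LinearAlgebra.Projectivization
open Set Filter Metric

set_option linter.unusedVariables false

noncomputable section

namespace Pool.Agent.Lib.F4H

open Pool.Agent.Lib.SV (E)
open Pool.Agent.Lib.HS32 Pool.Agent.Lib.F4 Pool.Agent.Lib.F4G

theorem st_ORB2 (hP : KP.St_POI) : St_ORB2 := by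
  intro n M _ H α k B b Γ U g v hn hK hq hα hU hc hg hf
  have lm : ∀ γ : PG, (QuotientGroup.mk (lf γ) : PG) = γ := fun γ => Quotient.out_eq γ
  refine elemKR93 hP M H hn hK hq b.e b.mem U (fun i => ⟨(hU i).1, fun x hx => ((hU i).2 hx).1⟩) hc
    b.s b.t (fun i j x => lf (b.c i j x))
    (fun i x hx => b.hol i _ (ball_subset_closedBall ((hU i).2 hx).2))
    (fun i x hx => denR93 hα (b.mem i) ((b.e i).map_source ((hU i).2 hx).1)
      ((isOpen_ball.eventually_mem ((hU i).2 hx).2).mono fun w hw =>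
        ⟨b.hol i w (ball_subset_closedBall hw), b.wr i w (ball_subset_closedBall hw)⟩))
    (fun i j x h1 h2 => b.tr i j x ((hU i).2 h1) ((hU j).2 h2))
    (fun i j x h1 h2 => (b.lc i j x ((hU i).2 h1) ((hU j).2 h2)).2.1.mono fun y hy =>
      Or.inl (congrArg lf hy))
    (Γ.comap (QuotientGroup.mk' _)) (fun i => lf (g i)) (fun i j x h1 h2 => Or.inl ?_) v.rep
    v.rep_nonzero ((hf.image Projectivization.submodule).subset ?_)
  · rw [Subgroup.mem_comap, map_mul, map_mul, map_inv]
    simp only [QuotientGroup.mk'_apply, lm]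
    exact hg i j x h1 h2
  · rintro _ ⟨γ, hγ, rfl⟩
    refine ⟨_, ⟨QuotientGroup.mk γ, hγ, rfl⟩, ?_⟩
    beta_reduce
    rw [Matrix.ProjectiveSpecialLinearGroup.smul_proj_mk]
    conv_lhs => rw [← v.mk_rep]
    rfl

end Pool.Agent.Lib.F4H
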