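import Pool.Agent.Lib.F4H.BlueC
import Pool.Agent.Lib.F4H.Hc72

/-! Project f4h, row PHI: the density is locally constant on every fibre. -/

open scoped Classical Topology ContDiff Matrix
open Set Filter Complex

set_option linter.unusedVariables false

noncomputable section

namespace Pool.Agent.Lib.F4H

open Pool.Agent.Lib.SV (E)
open Pool.Agent.Lib.HS32 Pool.Agent.Lib.F4 Pool.Agent.Lib.F4G

namespace PHI

variable {n : ℕ} {M : Mf n} {α : M.Fam (E n)} (d : Dev M α) (a : M.X)

theorem opn : IsOpen (dO d a) := (d.e a).isOpen_inter_preimage_symm (d.opn a)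

theorem hol {z : E n} (hz : z ∈ dO d a) : DifferentiableAt ℂ (d.s a) z ∧
    DifferentiableAt ℂ (d.t a) z ∧ d.s a z ≠ 0 := by
  have := d.hol a _ hz.2
  rwa [(d.e a).right_inv hz.1] at this

theorem dif : DifferentiableOn ℂ (fun w => d.t a w / d.s a w) (dO d a) := fun _ hz =>
  (B72.ddiv (hol d a hz).2.1 (hol d a hz).1 (hol d a hz).2.2).differentiableWithinAt

theorem wr {z : E n} (hz : z ∈ dO d a) (k : Fin n) :
    α (d.e a) z k = d.s a z ^ 2 * dz k (fun w => d.t a w / d.s a w) z := by
  have := d.wr a _ hz.2 k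
  rw [(d.e a).right_inv hz.1] at this
  exact this.trans (B72.dz_div (hol d a hz).1 (hol d a hz).2.1 (hol d a hz).2.2 k)

theorem den (h : Den M α) {z : E n} (hz : z ∈ dO d a) :
    ∃ᶠ w in 𝓝 z, fderiv ℂ (fun w => d.t a w / d.s a w) w ≠ 0 :=
  ((h _ (d.mem a) z hz.1).and_eventually ((opn d a).eventually_mem hz)).mono fun w hw c =>
    hw.1 ((B72.fd_iff ((dif d a).differentiableAt ((opn d a).mem_nhds hw.2))
      (pow_ne_zero 2 (hol d a hw.2).2.2) (wr d a hw.2)).1 c)

/-- The density is constant along the connected pieces of the fibres. -/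
theorem jn (hS : St_SH) {φ ψ : M.Fam ℝ} {s : ℝ} (h : Den M α) (hL : Ld M 3 α s φ ψ) {y z : E n}
    (J : Jn (dO d a) (fun w => d.t a w / d.s a w) y z) : dF d φ a y = dF d φ a z := by
  refine P72.hc hS (opn d a) (dif d a) (fun _ => den d a h) (fun u hu => ?_) J
  have ev := (opn d a).eventually_mem hu
  exact P72.wd (y := fun w => d.s a w ^ 2) (al := α (d.e a))
    (ev.mono fun w hw => (dif d a).differentiableAt ((opn d a).mem_nhds hw))
    (ev.mono fun w hw => (hol d a hw).1.pow 2) (pow_ne_zero 2 (hol d a hu).2.2)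
    (ev.mono fun w hw => wr d a hw)
    ((hL.wφ.sm _ (d.mem a) u hu.1).differentiableAt (by simp)) (hL.pφ _ (d.mem a) u hu.1)

end PHI

open PHI in
theorem st_PHI (hS : St_SH) : St_PHI := fun n M α φ ψ s d h hL a z hz =>
  (P72.lj hS (opn d a) (dif d a) hz (den d a h hz) ((opn d a).mem_nhds hz)).mono
    fun w hw e => jn d a hS h hL (hw e)

end Pool.Agent.Lib.F4H
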