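import Pool.Agent.Lib.F4H.BlueC
import Pool.Agent.Lib.RA.T_AN

/-! Project f4h: fibres near a regular point. -/

open scoped Topology ContDiff
open Set Filter Metric

noncomputable section

namespace Pool.Agent.Lib.F4H

open Pool.Agent.Lib.SV (E)

theorem st_REG : St_REG := by
  intro n O W x hO hx hW h0
  obtain ⟨u, hu⟩ : ∃ u, fderiv ℂ W x u ≠ 0 := by
    by_contra h
    exact h0 (ContinuousLinearMap.ext fun u => not_not.1 fun k => h ⟨u, k⟩)
  set L := fderiv ℂ W x with hL
  set v : E n := (L u)⁻¹ • u
  have Lv : L v = 1 := by simp only [v, map_smul, smul_eq_mul, inv_mul_cancel₀ hu]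
  have cW : ContDiffAt ℂ 1 W x := (RA.ANB.analyticAt ((hO.eventually_mem hx).mono fun y hy =>
    hW.differentiableAt (hO.mem_nhds hy))).contDiffAt
  set Φ : E n → E n := fun y => y + (W y - W x - L (y - x)) • v with hΦ
  have cΦ : ContDiffAt ℂ 1 Φ x := contDiffAt_id.add (((cW.sub contDiffAt_const).sub
    (L.contDiff.contDiffAt.comp x (contDiffAt_id.sub contDiffAt_const))).smul contDiffAt_const)
  have dΦ : HasFDerivAt Φ (ContinuousLinearEquiv.refl ℂ (E n) : E n →L[ℂ] E n) x := by
    have a := (((hW.differentiableAt (hO.mem_nhds hx)).hasFDerivAt.sub_const (W x)).sub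
      (L.hasFDerivAt.comp x ((hasFDerivAt_id x).sub_const x))).smul_const v
    have b := (hasFDerivAt_id x).add a
    refine b.congr_fderiv ?_
    ext1 y
    simp [← hL]
  have px : Φ x = x := by simp [hΦ]
  have key : ∀ y, W y = W x + L (Φ y - x) := fun y => by
    have : Φ y - x = (y - x) + (W y - W x - L (y - x)) • v := by simp only [hΦ]; abel
    rw [this, map_add, map_smul, Lv]
    simp
  set e := cΦ.toOpenPartialHomeomorph Φ dΦ one_ne_zero
  have xs : x ∈ e.source := cΦ.mem_toOpenPartialHomeomorph_source dΦ one_ne_zero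
  have ee : (e : E n → E n) = Φ := rfl
  have xt : x ∈ e.target := by
    have := e.map_source xs
    rwa [ee, px] at this
  have sx : e.symm x = x := by
    have := e.left_inv xs
    rwa [ee, px] at this
  have ci : ContDiffAt ℂ 1 e.symm x := by
    have := cΦ.to_localInverse dΦ one_ne_zero
    rwa [px] at this
  have ev : ∀ᶠ z in 𝓝 x, z ∈ e.target ∧ DifferentiableAt ℂ e.symm z ∧ e.symm z ∈ O := by
    refine (e.open_target.eventually_mem xt).and (Eventually.and ?_ ?_)
    · exact (ci.eventually (by simp)).mono fun z hz => hz.differentiableAt one_ne_zero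
    · exact ci.continuousAt.eventually (by rw [sx]; exact hO.eventually_mem hx)
  obtain ⟨r, r0, hr⟩ := Metric.eventually_nhds_iff_ball.1 ev
  have val : ∀ z ∈ ball x r, W (e.symm z) = W x + L (z - x) := fun z hz => by
    rw [key, ← ee, e.right_inv (hr z hz).1]
  have ct : Continuous fun w : ℂ => x + (w - W x) • v := by fun_prop
  refine ⟨(fun w : ℂ => x + (w - W x) • v) ⁻¹' ball x r, fun w => e.symm (x + (w - W x) • v),
    isOpen_ball.preimage ct, fun w hw => ?_, fun w hw => ⟨(hr _ hw).2.2, ?_⟩, ?_⟩
  · exact ((hr _ hw).2.1.comp w (by fun_prop)).differentiableWithinAt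
  · rw [val _ hw, add_sub_cancel_left, map_smul, Lv]
    simp
  · have e1 : ∀ᶠ y in 𝓝 x, Φ y ∈ ball x r :=
      cΦ.continuousAt.eventually (by rw [px]; exact isOpen_ball.eventually_mem (mem_ball_self r0))
    have e2 : ∀ᶠ y in 𝓝 x, x + (W y - W x) • v ∈ ball x r :=
      (ct.continuousAt.comp cW.continuousAt).eventually
        (isOpen_ball.eventually_mem (by simpa using r0))
    filter_upwards [e1, e2, e.open_source.eventually_mem xs] with y y1 y2 y3
    have sb : segment ℝ (Φ y) (x + (W y - W x) • v) ⊆ ball x r :=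
      (convex_ball x r).segment_subset y1 y2
    refine ⟨y2, e.symm '' segment ℝ (Φ y) (x + (W y - W x) • v),
      (convex_segment _ _).isPreconnected.image _
        (e.continuousOn_symm.mono fun z hz => (hr z (sb hz)).1), ?_,
      ⟨Φ y, left_mem_segment _ _ _, e.left_inv y3⟩, ⟨_, right_mem_segment _ _ _, rfl⟩, ?_⟩
    · rintro _ ⟨z, hz, rfl⟩
      exact (hr z (sb hz)).2.2
    · rintro _ ⟨z, hz, rfl⟩
      rw [val z (sb hz)]
      obtain ⟨a, b, -, -, ab, rfl⟩ := hz
      have k : L (Φ y - x) = W y - W x := by rw [key y]; ring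
      have q : a • Φ y + b • (x + (W y - W x) • v) - x =
          (a : ℂ) • (Φ y - x) + (b : ℂ) • (W y - W x) • v := by
        have : x = a • x + b • x := by rw [← add_smul, ab, one_smul]
        simp only [Complex.coe_smul, smul_sub, smul_add]
        linear_combination (exp := 1) -this
      have ab' : (a : ℂ) + b = 1 := by exact_mod_cast ab
      rw [q, map_add, map_smul, map_smul, map_smul, k, Lv]
      simp only [smul_eq_mul]
      linear_combination (W y - W x) * ab'

end Pool.Agent.Lib.F4H
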