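import Pool.Agent.Lib.F4H.Hix69

/-! Project f4h: a closed form that vanishes near the zero set of a divisor is orthogonal to the
class of the divisor. -/

open scoped Classical Topology ContDiff ComplexOrder Matrix
open Set MeasureTheory Filter Metric

noncomputable section

namespace Pool.Agent.Lib.F4H.Q83

open Pool.Agent.Lib.SV (E)
open Pool.Agent.Lib.HS32 Pool.Agent.Lib.F4

variable {n : ℕ} {M : Mf n} [M.Cpt] {H S T : M.Fam (Mat n)} {σ : M.X → ℝ}

/-- A smooth function that agrees with the logarithm outside of a given neighbourhood of the zero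
set. -/
theorem cut (hs : M.Sm σ) (h0 : ∀ x, 0 ≤ σ x) {N : Set M.X} (hN : IsOpen N)
    (hZ : ∀ x, σ x = 0 → x ∈ N) : ∃ v : M.X → ℝ, M.Sm v ∧
      ∀ x, x ∉ N → v =ᶠ[𝓝 x] fun y => Real.log (σ y) := by
  obtain ⟨d, hd, hb⟩ : ∃ d : ℝ, 0 < d ∧ ∀ x, x ∉ N → d < σ x := by
    rcases (Nᶜ).eq_empty_or_nonempty with h | h
    · exact ⟨1, one_pos, fun x hx => absurd (show x ∈ Nᶜ from hx) (by rw [h]; exact id)⟩
    · obtain ⟨x, hx, hm⟩ := hN.isClosed_compl.isCompact.exists_isMinOn h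
        hs.continuous.continuousOn
      have hp : 0 < σ x := lt_of_le_of_ne (h0 x) fun e => hx (hZ x e.symm)
      exact ⟨σ x / 2, half_pos hp, fun y hy => (half_lt_self hp).trans_le (hm hy)⟩
  have hp : ∀ x, σ x + expNegInvGlue (d - σ x) ≠ 0 := fun x => by
    rcases (h0 x).eq_or_lt with e | e
    · have := expNegInvGlue.pos_of_pos (show 0 < d - σ x by linarith)
      linarith
    · have := expNegInvGlue.nonneg (d - σ x)
      linarith
  refine ⟨fun x => Real.log (σ x + expNegInvGlue (d - σ x)),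
    (hs.add (((Mf.sm_const d).sub hs).comp fun _ => expNegInvGlue.contDiff.contDiffAt)).log hp,
    fun x hx => ?_⟩
  filter_upwards [continuousAt_const.eventually_lt hs.continuous.continuousAt (hb x hx)] with y hy
  rw [expNegInvGlue.zero_of_nonpos (by linarith), add_zero]

omit [M.Cpt] in
theorem hs_ev {u v : M.X → ℝ} {x : M.X} (h : u =ᶠ[𝓝 x] v) {e : M.Ch} (hx : x ∈ e.source) :
    M.hs u e (e x) = M.hs v e (e x) := by
  refine hess_congr ?_
  have h1 : Tendsto e.symm (𝓝 (e x)) (𝓝 x) := e.tendsto_symm hx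
  filter_upwards [h1.eventually h] with z hz
  simp only [Mf.lc, hz]

/-- QLC. -/
theorem qlc (hH : M.Kae H) (hS : M.Clo S) (hT : M.Ten T) (hs : M.Sm σ) (h0 : ∀ x, 0 ≤ σ x)
    (hσ : M.All fun e z => σ (e.symm z) ≠ 0 →
      T e z + M.hs (fun y => Real.log (σ y)) e z = 0)
    {N : Set M.X} (hN : IsOpen N) (hZ : ∀ x, σ x = 0 → x ∈ N)
    (hz : M.All fun e z => e.symm z ∈ N → S e z = 0) :
    ∫ x, mx M H S T x ∂M.mu H = 0 := by
  obtain ⟨v, hv, hE⟩ := cut hs h0 hN hZ
  have h1 := H69.q_add hH.toMet hS.toTen hT ((mHES n M).1 v hv).toTen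
  rw [H69.q_hs hH hS hv, add_zero] at h1
  rw [← h1]
  have h2 : ∀ x, mx M H S (T + M.hs v) x = 0 := fun x => by
    have hl : (M.ch x).symm (M.ch x x) = x := (M.ch x).left_inv (Mf.mem_ch x)
    by_cases hx : x ∈ N
    · have : M.ev S x = 0 := hz _ (Mf.ch_mem x) _ (Mf.ch_tgt x) (by rw [hl]; exact hx)
      simp [mx, Mf.tr, Mf.ip, this]
    · have h3 := hσ _ (Mf.ch_mem x) _ (Mf.ch_tgt x) (by rw [hl]; exact fun e => hx (hZ x e))
      have : M.ev (T + M.hs v) x = 0 := by
        rw [← hs_ev (hE x hx) (Mf.mem_ch x)] at h3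
        exact h3
      simp [mx, Mf.tr, Mf.ip, this]
  simp [h2]

end Pool.Agent.Lib.F4H.Q83
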