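import Pool.Agent.Lib.F4H.Defs
import Pool.Agent.Lib.F4H.Qlc83
import Pool.Agent.Lib.F4.T_TH
import Pool.Agent.Lib.SV.B_SUB
import Pool.Agent.Lib.SV.B_ZER

/-! Project f4h: the class of a divisor against a nef class, and against a form that vanishes near
the support. -/

open scoped Classical Topology ContDiff ComplexOrder Matrix
open Set MeasureTheory Filter Metric

noncomputable section

namespace Pool.Agent.Lib.F4H

open Pool.Agent.Lib.SV (E)
open Pool.Agent.Lib.HS32 Pool.Agent.Lib.F4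

namespace N83

variable {n : ℕ} {M : Mf n} {H S Θ : M.Fam (Mat n)} {σ : M.X → ℝ}

theorem nonneg (h : Dl M σ) (x : M.X) : 0 ≤ σ x := by
  obtain ⟨e, -, hx, q, g, -, h1⟩ := h x
  have h2 := h1.self_of_nhds.2.2
  rw [e.left_inv hx] at h2
  rw [h2]
  exact mul_nonneg (Complex.normSq_nonneg _) (Real.exp_pos _).le

/-- Off the support the form is minus the Hessian of the logarithm. -/
theorem eq_log (h : Dv M σ Θ) : M.All fun e z => σ (e.symm z) ≠ 0 →
    Θ e z + M.hs (fun y => Real.log (σ y)) e z = 0 := fun e he z hz h0 => by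
  have h1 : ∀ᶠ w in 𝓝 z, σ (e.symm w) ≠ 0 := (h.sm e he z hz).continuousAt.eventually_ne h0
  have h2 := h.eq e he z hz (fun _ => 1) (fun w => Real.log (σ (e.symm w)))
    (Frequently.of_forall fun _ => one_ne_zero) (by
      filter_upwards [h1, e.open_target.mem_nhds hz] with w hw hw'
      refine ⟨differentiableAt_const _, (h.sm e he w hw').log hw, ?_⟩
      rw [Real.exp_log (lt_of_le_of_ne (nonneg h.dl _) hw.symm)]
      simp)
  rw [h2]
  exact neg_add_cancel _

variable [M.Cpt]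

/-- The support is null. -/
theorem null (hH : M.Met H) (hs : M.Sm σ) (h : Dl M σ) : M.mu H {x | σ x = 0} = 0 := by
  refine (isClosed_eq hs.continuous continuous_const).isCompact.measure_zero_of_nhdsWithin
    fun x _ => ?_
  obtain ⟨e, he, hx, q, g, h0, h1⟩ := h x
  obtain ⟨r, hr, hb⟩ := Metric.eventually_nhds_iff_ball.1 h1
  obtain ⟨w, hw0, hw⟩ := (h0.and_eventually (ball_mem_nhds (e x) hr)).exists
  have hz := SV.stZER SV.stSUB n q (e x) r
    (fun z hz => (hb z hz).1.differentiableWithinAt) ⟨w, hw, hw0⟩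
  have ha := T6.TTH.ae_mu (mMU n M H hH).1 he
    (p := fun z => ¬(z ∈ ball (e x) r ∧ q z = 0)) (by rw [ae_iff]; simpa using hz)
  refine ⟨{y | σ y = 0} ∩ (e.source ∩ e ⁻¹' ball (e x) r), inter_mem_nhdsWithin _
    (inter_mem (e.open_source.mem_nhds hx) (e.continuousAt hx (ball_mem_nhds _ hr))), ?_⟩
  refine measure_mono_null (fun y hy => ?_) (ae_iff.1 ha)
  have h2 := (hb _ hy.2.2).2.2
  rw [e.left_inv hy.2.1, show σ y = 0 from hy.1] at h2
  have h3 : q (e y) = 0 := Complex.normSq_eq_zero.1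
    ((mul_eq_zero.1 h2.symm).resolve_right (Real.exp_pos _).ne')
  exact fun c => c hy.2.1 ⟨hy.2.2, h3⟩

theorem dphi {d : ℝ} (hd : 0 < d) (t : ℝ) :
    deriv (fun s => Real.log (Real.exp s + d)) t = Real.exp t / (Real.exp t + d) :=
  (((Real.hasDerivAt_exp t).add_const d).log (by positivity)).deriv

theorem ddphi {d : ℝ} (hd : 0 < d) (t : ℝ) :
    0 ≤ deriv (deriv fun s => Real.log (Real.exp s + d)) t := by
  rw [funext (dphi hd), ((Real.hasDerivAt_exp t).fun_div ((Real.hasDerivAt_exp t).add_const d)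
    (by positivity)).deriv]
  refine div_nonneg ?_ (by positivity)
  nlinarith [Real.exp_pos t]

/-- The regularised form is bounded below. -/
theorem low (hH : M.Met H) (h : Dv M σ Θ) (hS : M.Le 0 S) {d : ℝ} (hd : 0 < d) {x : M.X}
    (hx : σ x ≠ 0) : d / (σ x + d) * mx M H S Θ x ≤
      mx M H S (Θ + M.hs fun y => Real.log (σ y + d)) x := by
  have h0 := nonneg h.dl
  have hp : 0 < σ x := lt_of_le_of_ne (h0 x) hx.symm
  obtain ⟨v, hv, hE⟩ := Q83.cut h.sm h0 (N := {x}ᶜ) isOpen_compl_singleton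
    fun y hy c => hx (by rw [← mem_singleton_iff.1 c]; exact hy)
  have e1 := hE x (by simp)
  have hl : (M.ch x).symm (M.ch x x) = x := (M.ch x).left_inv (Mf.mem_ch x)
  have e2 : (fun y => Real.log (σ y + d)) =ᶠ[𝓝 x] fun y => Real.log (Real.exp (v y) + d) := by
    filter_upwards [e1, h.sm.continuous.continuousAt.eventually_ne hx] with y h1 h2
    rw [h1, Real.exp_log (lt_of_le_of_ne (h0 y) h2.symm)]
  have e3 := (((mLAP n M v v hv hv).2.1 (fun s => Real.log (Real.exp s + d)) fun y =>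
    (Real.contDiff_exp.contDiffAt.add contDiffAt_const).log (by positivity)).2 _ (Mf.ch_mem x) _
      (Mf.ch_tgt x)).1
  have e4 := eq_log h _ (Mf.ch_mem x) _ (Mf.ch_tgt x) (by rw [hl]; exact hx)
  rw [← Q83.hs_ev e1 (Mf.mem_ch x)] at e4
  have e5 : Real.exp (v x) = σ x := by rw [e1.self_of_nhds, Real.exp_log hp]
  rw [hl, dphi hd, e5, ← Q83.hs_ev e2 (Mf.mem_ch x), eq_neg_of_add_eq_zero_right e4] at e3
  have e6 : M.ev (Θ + M.hs fun y => Real.log (σ y + d)) x = M.ev ((d / (σ x + d)) • Θ +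
      deriv (deriv fun s => Real.log (Real.exp s + d)) (v x) • M.ds v v) x := by
    have e7 : d / (σ x + d) = 1 - σ x / (σ x + d) := by field_simp; ring
    simp only [Mf.ev, Pi.add_apply, Pi.smul_apply, Pi.sub_apply, e3, e7, sub_smul, one_smul,
      smul_neg]
    abel
  have e8 : mx M H S (Θ + M.hs fun y => Real.log (σ y + d)) x = mx M H S ((d / (σ x + d)) • Θ +
      deriv (deriv fun s => Real.log (Real.exp s + d)) (v x) • M.ds v v) x := by
    simp only [mx, Mf.tr, Mf.ip, e6]
  rw [e8, H69.mx_add, H69.mx_smul, H69.mx_smul]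
  have := mul_nonneg (ddphi hd (v x)) (H69.mx_nonneg hH hS ((mHES n M).2.2.1 v hv).2 x)
  linarith

/-- A divisor is non-negative on a closed non-negative form. -/
theorem pos (hH : M.Kae H) (h : Dv M σ Θ) (cS : M.Clo S) (hS : M.Le 0 S) : 0 ≤ Qm M H S Θ := by
  have h0 := nonneg h.dl
  have hm := hH.toMet
  have ae : ∀ᵐ x ∂M.mu H, σ x ≠ 0 := by
    rw [ae_iff]
    simpa using null hm h.sm h.dl
  have iS := H69.mx_int hm cS.toTen h.clo.toTen
  have b1 : ∀ d : ℝ, 0 < d → ∀ x, ‖d / (σ x + d) * mx M H S Θ x‖ ≤ ‖mx M H S Θ x‖ :=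
    fun d hd x => by
      have hp : 0 < σ x + d := by linarith [h0 x]
      rw [norm_mul, Real.norm_of_nonneg (div_nonneg hd.le hp.le)]
      exact mul_le_of_le_one_left (norm_nonneg _) ((div_le_one hp).2 (by linarith [h0 x]))
  have m1 : ∀ d : ℝ, 0 < d → Continuous fun x => d / (σ x + d) * mx M H S Θ x := fun d hd =>
    (continuous_const.div (h.sm.continuous.add continuous_const)
      fun x => (add_pos_of_nonneg_of_pos (h0 x) hd).ne').mul (H69.mx_sm hm cS.toTen h.clo.toTen).continuous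
  have t : Tendsto (fun d : ℝ => ∫ x, d / (σ x + d) * mx M H S Θ x ∂M.mu H) (𝓝[>] 0)
      (𝓝 (∫ x, 0 / (σ x + 0) * mx M H S Θ x ∂M.mu H)) := by
    refine tendsto_integral_filter_of_dominated_convergence _
      (eventually_mem_nhdsWithin.mono fun d hd => (m1 d hd).aestronglyMeasurable)
      (eventually_mem_nhdsWithin.mono fun d hd => Eventually.of_forall (b1 d hd)) iS.norm
      (ae.mono fun x hx => Tendsto.mono_left ?_ nhdsWithin_le_nhds)
    exact ((continuousAt_id.div (continuousAt_const.add continuousAt_id)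
      (by simpa using hx)).mul continuousAt_const).tendsto
  simp only [zero_div, zero_mul, integral_zero] at t
  refine le_of_tendsto t (eventually_mem_nhdsWithin.mono fun d hd => ?_)
  have sv : M.Sm fun y => Real.log (σ y + d) :=
    (h.sm.add (Mf.sm_const d)).log fun y => by linarith [h0 y, mem_Ioi.1 hd]
  have cv := (mHES n M).1 _ sv
  have e1 := H69.q_add hm cS.toTen h.clo.toTen cv.toTen
  rw [H69.q_hs hH cS sv, add_zero] at e1
  rw [Qm, ← e1]
  exact integral_mono_ae ((mMU n M H hm).2.2.2.2.1 _ _ (m1 d hd))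
    (H69.mx_int hm cS.toTen (h.clo.add cv).toTen) (ae.mono fun x hx => low hm h hS hd hx)

end N83

theorem st_NFD : St_NFD := by
  intro n M _ H Θ σ hH h
  have hm := hH.toMet
  refine ⟨fun a ho => ?_, fun S cS hz => ?_⟩
  · have cθ : M.Clo (-M.ric H) := ((mHES n M).2.2.2.2.2.2.2.2.1 H hm).neg
    refine LD.NF88.lim (b := Qm M H H Θ) (c := 0) fun ε hε => ?_
    have key : M.Le 0 (-M.ric H + ε • H + M.hs (a ε)) := by
      have h1 := (ho.kae ε hε).toMet.nonneg
      rwa [zero_sub] at h1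
    have cv := (mHES n M).1 _ (ho.sm ε hε)
    have cH : M.Clo (ε • H) := hH.toClo.smul ε
    have h1 := N83.pos hH h ((cθ.add cH).add cv) key
    rw [Qm, H69.q_comm, H69.q_add hm h.clo.toTen (cθ.add cH).toTen cv.toTen,
      H69.q_hs hH h.clo (ho.sm ε hε), H69.q_add hm h.clo.toTen cθ.toTen cH.toTen, H69.q_smul,
      H69.q_comm, H69.q_comm (T := H)] at h1
    simp only [Qm]
    linarith
  · refine Q83.qlc hH cS h.clo.toTen h.sm (N83.nonneg h.dl) (N83.eq_log h)
      (N := {x | ∀ᶠ y in 𝓝 x, M.ev S y = 0}) isOpen_setOf_eventually_nhds hz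
      fun e he z hz' c => ?_
    have h1 := cS.cmp _ (Mf.ch_mem (e.symm z)) e he _ (Mf.mem_ch _) (e.map_target hz')
    have h2 : S (M.ch (e.symm z)) (M.ch (e.symm z) (e.symm z)) = 0 := c.self_of_nhds
    simp only [e.right_inv hz', h2] at h1
    simpa using h1

end Pool.Agent.Lib.F4H
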