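import Pool.Agent.Lib.F4G.All
import Pool.Agent.Lib.F4H.Alg
import Pool.Agent.Lib.F4H.B_DEV2
import Pool.Agent.Lib.F4H.B_RUL
import Pool.Agent.Lib.F4H.Bo90
import Pool.Agent.Lib.F4H.Nfd83
import Pool.Agent.Lib.F4H.Sh3
import Pool.Agent.Lib.F4H.C_ANC
import Pool.Agent.Lib.F4H.C_ATL
import Pool.Agent.Lib.F4H.C_BX2
import Pool.Agent.Lib.F4H.C_DIV
import Pool.Agent.Lib.F4H.C_FIN
import Pool.Agent.Lib.F4H.C_FN1
import Pool.Agent.Lib.F4H.C_FN2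
import Pool.Agent.Lib.F4H.C_FNE
import Pool.Agent.Lib.F4H.C_GAM
import Pool.Agent.Lib.F4H.C_INV
import Pool.Agent.Lib.F4H.C_LOC
import Pool.Agent.Lib.F4H.C_MEAN2
import Pool.Agent.Lib.F4H.C_ORB2
import Pool.Agent.Lib.F4H.C_PHI
import Pool.Agent.Lib.F4H.C_REG

/-! Project f4h: the assembly. -/

namespace Pool.Agent.Lib.F4H

open Pool.Agent.Lib.F4 Pool.Agent.Lib.F4G

theorem aCH : St_CH :=
  ch_of (st_ANC st_SH st_REG) st_DIV2 st_FN1 st_FN2 (st_FNE st_NFD N75.st_N1 st_BO st_NUMD)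
    (st_LOC2 (st_INV2 (st_PHI st_SH))) st_BX2 st_GAM2
    (st_ORB2 (KP.st_POI KP.st_HARM KP.st_CPT))
    (st_FIN2 st_ATL2 My.myers st_GRD st_MEAN2 st_QUO st_AY)

theorem nu1_of3 (h : St_S3H) : St_NU1 :=
  nu1_of (st_OUZ ZK.zkMain2) aZ0 aIDT st_BO st_RUL st_ALG2 h aS4 LD.aLD
    (st_FLAT (KP.st_POI KP.st_HARM KP.st_CPT)) st_DEV2 aCH

end Pool.Agent.Lib.F4H
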