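import Pool.Agent.Lib.F4H.BlueM
import Pool.Agent.Lib.F4G.M_MCO

/-! Project f4h, row MCO2: the cost of a link, in coordinates. -/

open scoped Classical Topology ENNReal NNReal
open Set Filter MeasureTheory Metric

set_option linter.unusedVariables false

noncomputable section

namespace Pool.Agent.Lib.F4H

open Pool.Agent.Lib.SV (E)
open Pool.Agent.Lib.F4G Pool.Agent.Lib.F4G.Mco65

namespace Mc65

/-- A compact set off a countable set, of almost full area. -/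
theorem big {B T : Set ℂ} (hB : MeasurableSet B) (h1 : volume B ≠ ⊤) (hT : T.Countable)
    {η : ℝ≥0∞} (hη : η ≠ 0) : ∃ K ⊆ B \ T, IsCompact K ∧ volume (B \ K) ≤ η := by
  have z : volume T = 0 := hT.measure_zero _
  obtain ⟨K, k1, k2, k3⟩ := (hB.diff hT.measurableSet).exists_isCompact_sdiff_lt
    (μ := volume) (by rwa [measure_sdiff_null z]) hη
  refine ⟨K, k1, k2, le_trans ?_ k3.le⟩
  rw [← measure_sdiff_null (s := B \ K) z]
  exact measure_mono fun w hw => ⟨⟨hw.1.1, hw.2⟩, hw.1.2⟩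

/-- Half of the disc lies over the compact set on both sides. -/
theorem half {P B K : Set ℂ} {μ : ℂ → ℂ} {L : ℝ≥0} {η : ℝ≥0∞} (hP : MeasurableSet P)
    (hB : MeasurableSet B) (hK : MeasurableSet K) (hμ : Measurable μ) (h1 : volume P ≠ ⊤)
    (src : P ⊆ B) (tgt : MapsTo μ P B)
    (cv : ∀ χ : ℂ → ℝ≥0∞, Measurable χ → ∫⁻ w in P, χ (μ w) ≤ L * ∫⁻ w, χ w)
    (hη : volume (B \ K) ≤ η) (h2 : 2 * ((1 + L) * η) ≤ volume P) :
    volume P ≤ 2 * volume (P ∩ K ∩ μ ⁻¹' K) := by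
  have a1 : volume (P ∩ μ ⁻¹' (B \ K)) ≤ L * η := by
    have := cv ((B \ K).indicator 1) (measurable_one.indicator (hB.diff hK))
    rw [lintegral_indicator_one (hB.diff hK)] at this
    refine le_trans ?_ (this.trans (mul_le_mul_right hη _))
    rw [inter_comm, ← Measure.restrict_apply (hμ (hB.diff hK)),
      ← lintegral_indicator_one (hμ (hB.diff hK))]
    exact le_of_eq (lintegral_congr fun w => rfl)
  have a2 : volume P ≤ volume (P ∩ K ∩ μ ⁻¹' K) + (1 + L) * η :=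
    calc volume P ≤ volume ((P ∩ K ∩ μ ⁻¹' K) ∪ ((B \ K) ∪ (P ∩ μ ⁻¹' (B \ K)))) :=
          measure_mono fun w hw => by
            by_cases c1 : w ∈ K
            · by_cases c2 : μ w ∈ K
              · exact Or.inl ⟨⟨hw, c1⟩, c2⟩
              · exact Or.inr (Or.inr ⟨hw, tgt hw, c2⟩)
            · exact Or.inr (Or.inl ⟨src hw, c1⟩)
      _ ≤ volume (P ∩ K ∩ μ ⁻¹' K) + (η + L * η) := (measure_union_le _ _).trans
          (add_le_add_right ((measure_union_le _ _).trans (add_le_add hη a1)) _)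
      _ = _ := by ring
  have a3 : volume P + volume P ≤ 2 * volume (P ∩ K ∩ μ ⁻¹' K) + volume P :=
    calc volume P + volume P = 2 * volume P := (two_mul _).symm
      _ ≤ 2 * (volume (P ∩ K ∩ μ ⁻¹' K) + (1 + L) * η) := mul_le_mul_right a2 _
      _ = 2 * volume (P ∩ K ∩ μ ⁻¹' K) + 2 * ((1 + L) * η) := mul_add _ _ _
      _ ≤ _ := add_le_add_right h2 _
  exact (ENNReal.add_le_add_iff_right h1).1 a3

end Mc65

open Mc65 in
theorem st_MCO2 (hT : St_MTU2) (hX : St_MEX) (hG : St_MGE2) (hH : St_MHA) : St_MCO2 := by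
  intro n ι V κ _ bx U O W ρ r L C0 Com T Mo l f m hr cnt hb geo hcom hcont hlea hful
  have ex : ∀ i x, ∃ N : Set (E n), x ∈ O i → fderiv ℂ (W i) x ≠ 0 → N ∈ 𝓝 x ∧ ∀ v, bx v = i →
      ∃ a : κ → ℂ → ℝ, (∀ k, Measurable (a k)) ∧
        Tendsto (fun k => ∫⁻ y in N, ‖f k v y - a k (W i y)‖ₑ) l (𝓝 0) := by
    intro i x
    by_cases h : x ∈ O i ∧ fderiv ℂ (W i) x ≠ 0
    · obtain ⟨N, h1, h2⟩ := hX n κ V l f _ (W i) x
        ((hb i).2.2.2.1.eventually_differentiableAt ((hb i).2.2.1.mem_nhds h.1))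
        h.2 (hlea i x h.1 h.2)
      exact ⟨N, fun _ _ => ⟨h1, h2⟩⟩
    · exact ⟨univ, fun h1 h2 => (h ⟨h1, h2⟩).elim⟩
  choose N hN using ex
  have hb0 : volume (ball (0 : ℂ) r) ≠ 0 := (measure_ball_pos _ _ hr).ne'
  have hb1 : volume (ball (0 : ℂ) r) ≠ ⊤ := measure_ball_lt_top.ne
  have hL : (2 * (1 + L) : ℝ≥0∞) ≠ ⊤ := ENNReal.mul_ne_top (by simp) (by simp)
  obtain ⟨Q, Q1, Q2, Q3⟩ := big (B := closedBall 0 ρ) measurableSet_closedBall
    measure_closedBall_lt_top.ne cnt (η := volume (ball (0 : ℂ) r) / (2 * (1 + L)))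
    (ENNReal.div_ne_zero.2 ⟨hb0, hL⟩)
  choose s D C hcov hs using fun i => hT n (U i) (W i) Q (N i) (hb i).1
    ((hb i).2.2.2.1.mono (hb i).2.1) Q2 (fun w hw => (hb i).2.2.2.2 w (Q1 hw))
    fun x h1 h2 => (hN i x ((hb i).2.1 h1) h2).1
  obtain ⟨C', hC'⟩ := Finite.exists_le C
  obtain ⟨c, hc⟩ := Finite.exists_le fun i => (s i).card
  set Y : ℝ≥0∞ := C' * (1 + C0) with hY
  set Z : ℝ≥0∞ := 2 * ((c * c : ℕ) * (2 * (Y + 1 + L * Y))) with hZ
  have hYt : Y ≠ ⊤ := ENNReal.mul_ne_top ENNReal.coe_ne_top (by simp)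
  have hZt : Z ≠ ⊤ := ENNReal.mul_ne_top (by simp) (ENNReal.mul_ne_top (ENNReal.natCast_ne_top _)
    (ENNReal.mul_ne_top (by simp) (ENNReal.add_ne_top.2 ⟨ENNReal.add_ne_top.2 ⟨hYt, by simp⟩,
      ENNReal.mul_ne_top ENNReal.coe_ne_top hYt⟩)))
  refine ⟨(Z / volume (ball (0 : ℂ) r)).toReal, fun v v' z lk => ?_⟩
  have eb : volume (ball z r) = volume (ball (0 : ℂ) r) := Measure.addHaar_ball_center volume z r
  have hf := half measurableSet_ball measurableSet_closedBall Q2.measurableSet (geo.mea v v')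
    measure_ball_lt_top.ne lk.src lk.tgt lk.cv Q3 (by
      rw [eb, ← mul_assoc]
      exact ENNReal.mul_div_le)
  have ne : (ball z r ∩ Q ∩ Mo v v' ⁻¹' Q).Nonempty := nonempty_of_measure_ne_zero
    (μ := volume) fun h => hb0 (by rw [h, mul_zero, eb] at hf; exact le_zero_iff.1 hf)
  obtain ⟨x, hx, x', hx', hp⟩ := pig (s (bx v)) (s (bx v')) _
    (fun x x' => ball z r ∩ Q ∩ D (bx v) x ∩ Mo v v' ⁻¹' D (bx v') x') c (hc _) (hc _) ne
    fun w hw => by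
      obtain ⟨x, hx, h1⟩ := mem_iUnion₂.1 (hcov (bx v) hw.1.2)
      obtain ⟨x', hx', h2⟩ := mem_iUnion₂.1 (hcov (bx v') hw.2)
      exact ⟨x, hx, x', hx', ⟨hw.1, h1⟩, h2⟩
  obtain ⟨p1, p2, p3, p4, p5⟩ := hs (bx v) x hx
  obtain ⟨q1, q2, q3, q4, q5⟩ := hs (bx v') x' hx'
  obtain ⟨a, ha, ta⟩ := (hN (bx v) x ((hb _).2.1 p1) p2).2 v rfl
  obtain ⟨a', ha', ta'⟩ := (hN (bx v') x' ((hb _).2.1 q1) q2).2 v' rfl
  obtain ⟨S, hS, hch⟩ := lk.chn
  obtain ⟨K, hK, k1, k2, tk⟩ := hH κ l (fun k w => ‖a k w - a' k (Mo v v' w)‖ₑ)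
    (ball z r ∩ Q ∩ D (bx v) x ∩ Mo v v' ⁻¹' D (bx v') x') S
    (((measurableSet_ball.inter Q2.measurableSet).inter p3.measurableSet).inter
      (geo.mea v v' q3.measurableSet))
    ((measure_mono fun w hw => hw.1.1.1).trans_lt measure_ball_lt_top).ne
    hS fun w hw => by
      obtain ⟨y, hy, rfl⟩ := p4 hw.1.1.2
      obtain ⟨y', hy', ey'⟩ := q4 hw.1.2
      exact hG n κ V l f _ _ Com T Mo geo hcom hcont
        (fun u y h1 h2 => ⟨N (bx u) y, (hN _ y h1 h2).1, (hN _ y h1 h2).2 u rfl⟩) v v' y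
        ((hb _).2.1 hy.1) y' _ (mem_interior_iff_mem_nhds.1 hy.2) _
        (mem_interior_iff_mem_nhds.1 hy'.2) a a' ha ha' ta ta' (Q1 hw.1.1.1.2).2
        (hch y hy.1 ⟨hw.1.1.1.1, hw.2⟩ y' hy'.1 ey')
  have one : Iic (1 : ℝ≥0∞) ∈ 𝓝 (0 : ℝ≥0∞) := Iic_mem_nhds zero_lt_one
  filter_upwards [ta one, ta' one, tk one] with k e1 e2 e3
  have t1 := (tube (hb _).1 ((hcont k v).mono (hb _).2.1) (ha k) p5 e1 (hful k v)).trans
    (mul_le_mul_left (ENNReal.coe_le_coe.2 (hC' _)) _)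
  have t2 := (tube (hb _).1 ((hcont k v').mono (hb _).2.1) (ha' k) q5 e2 (hful k v')).trans
    (mul_le_mul_left (ENNReal.coe_le_coe.2 (hC' _)) _)
  have t3 := fin hK q3.measurableSet (ha k) (ha' k) (geo.mea v v')
    (fun w hw => (k1 hw).1.1.1) (fun w hw => (k1 hw).1.2) (fun w hw => (k1 hw).2) lk.cv t1 e3 t2
  have t4 : ‖m k v - m k v'‖ₑ * volume (ball (0 : ℂ) r) ≤ Z := by
    rw [← eb]
    calc ‖m k v - m k v'‖ₑ * volume (ball z r)
        ≤ ‖m k v - m k v'‖ₑ * (2 * ((c * c : ℕ) * (2 * volume K))) :=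
          mul_le_mul_right (hf.trans (mul_le_mul_right (hp.trans (mul_le_mul_right k2 _)) _)) _
      _ = 2 * ((c * c : ℕ) * (2 * (‖m k v - m k v'‖ₑ * volume K))) := by ring
      _ ≤ Z := mul_le_mul_right (mul_le_mul_right (mul_le_mul_right t3 _) _) _
  have t5 : ‖m k v - m k v'‖ₑ ≤ Z / volume (ball (0 : ℂ) r) :=
    (ENNReal.le_div_iff_mul_le (Or.inl hb0) (Or.inr hZt)).2 t4
  have t6 := ENNReal.toReal_mono (ENNReal.div_ne_top hZt hb0) t5
  rwa [toReal_enorm, Real.norm_eq_abs] at t6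

end Pool.Agent.Lib.F4H
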