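import Pool.Agent.Lib.F4H.BlueM
import Pool.Agent.Lib.F4G.M_MEA

/-! Project f4h, row MEA2: the cost of a link, from the version in coordinates. -/

open scoped Classical Topology ENNReal NNReal ContDiff ComplexOrder Matrix
open Set Filter MeasureTheory Metric

set_option linter.unusedVariables false

noncomputable section

namespace Pool.Agent.Lib.F4H

open Pool.Agent.Lib.SV (E)
open Pool.Agent.Lib.HS32 Pool.Agent.Lib.F4
open Pool.Agent.Lib.F4G Pool.Agent.Lib.F4G.Mea46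

theorem st_MEA2 (hFU : St_MFU) (hLE : St_MLE) (hPT : St_MPT) (hCO : St_MCO2) : St_MEA2 := by
  intro n M _ H α ι V _ bx e c R U W b ρ r L Com T Mo hH hα hS hr cnt hb hG
  have := Fintype.ofFinite ι
  choose A hA using fun i => hFU n M H hH (e i) (hb i).1 _ (isCompact_closedBall (c i) (R i))
    (hb i).2.2.1
  choose B hB using fun i => hPT n (c i) (R i) (hb i).2.1
  have hsub : ∀ i, ball (c i) (R i) ⊆ (e i).target := fun i =>
    ball_subset_closedBall.trans (hb i).2.2.1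
  obtain ⟨β, hβ⟩ : ∃ β : ℝ≥0, β = (Real.sqrt b).toNNReal := ⟨_, rfl⟩
  have hp : ∀ (ε : ℝ) (u : M.X → ℝ) (i : ι), ∃ p ∈ ball (c i) (R i), 0 ≤ ε → ε ≤ 1 → M.Sm u →
      M.Le 0 (tE M H ε u) → ∀ f, Adm b (tE M H ε u (e i)) (ball (c i) (R i)) f →
        ∫⁻ y in ball (c i) (R i), ‖f y - f p‖ₑ ≤ ((∑ j, B j * (β * A j) : ℝ≥0) : ℝ≥0∞) := by
    intro ε u i
    by_cases hk : 0 ≤ ε ∧ ε ≤ 1 ∧ M.Sm u ∧ M.Le 0 (tE M H ε u)
    · obtain ⟨h, h1, h2, h3⟩ := hA i ε u hk.1 hk.2.1 hk.2.2.1 hk.2.2.2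
      obtain ⟨p, hp, hp2⟩ := hB i (fun y => β * h y) (h1.const_mul _)
      refine ⟨p, hp, fun _ _ _ hle f hf => (hp2 f fun y hy => ⟨(hf y hy).1, fun ξ => ?_⟩).trans ?_⟩
      · rw [hβ]
        exact adm_le (psd hle (hb i).1 (hsub i hy)) ((hf y hy).2 ξ)
          (h3 y (ball_subset_closedBall hy) ξ)
      · rw [lintegral_const_mul _ h1]
        calc (B i : ℝ≥0∞) * (β * ∫⁻ y in ball (c i) (R i), h y) ≤ B i * (β * A i) := by
              gcongr
              exact (lintegral_mono_set ball_subset_closedBall).trans h2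
          _ = ((B i * (β * A i) : ℝ≥0) : ℝ≥0∞) := by push_cast; rfl
          _ ≤ _ := ENNReal.coe_le_coe.2 (Finset.single_le_sum
              (f := fun j => B j * (β * A j)) (fun j _ => zero_le) (Finset.mem_univ i))
    · exact ⟨c i, mem_ball_self (hb i).2.1, fun a1 a2 a3 a4 => absurd ⟨a1, a2, a3, a4⟩ hk⟩
  choose p hp1 hp2 using hp
  let κ : Type := {k : ℝ × (M.X → ℝ) × (V → E n → ℝ) // 0 ≤ k.1 ∧ k.1 ≤ 1 ∧ M.Sm k.2.1 ∧
    M.Le 0 (tE M H k.1 k.2.1) ∧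
    (∀ a, Adm b (tE M H k.1 k.2.1 (e (bx a))) (ball (c (bx a)) (R (bx a))) (k.2.2 a)) ∧
    ∀ a x a' x', Com a x a' x' → k.2.2 a x = k.2.2 a' x'}
  obtain ⟨C1, hC⟩ := hCO n ι V κ bx U (fun i => ball (c i) (R i)) W ρ r L (∑ j, B j * (β * A j))
    Com T Mo
    (comap (fun k : κ => k.1.1) (𝓝 0)) (fun k => k.1.2.2)
    (fun k v => k.1.2.2 v (p k.1.1 k.1.2.1 (bx v))) hr cnt (fun i => ⟨(hb i).2.2.2.2.1,
      (hb i).2.2.2.1, isOpen_ball, (hb i).2.2.2.2.2.1, (hb i).2.2.2.2.2.2.2⟩) hG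
    (fun k => k.2.2.2.2.2.2)
    (fun k v y hy => (k.2.2.2.2.2.1 v y hy).1.continuousAt.continuousWithinAt)
    (fun i x hx hW => by
      obtain ⟨he, -, -, -, -, hD, hs, -⟩ := hb i
      have hd : ∀ y ∈ ball (c i) (R i), DifferentiableAt ℂ (W i) y := fun y hy =>
        hD.differentiableAt (isOpen_ball.mem_nhds hy)
      have hx0 : α (e i) x ≠ 0 := fun h0 => by
        obtain ⟨s, hs0, hs1⟩ := hs x hx
        refine hW (ContinuousLinearMap.ext fun ξ => ?_)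
        rw [fd_sum (hd x hx)]
        refine Finset.sum_eq_zero fun j _ => ?_
        have := hs1 j
        rw [h0] at this
        rw [(mul_eq_zero.1 this.symm).resolve_left hs0, zero_mul]
      have hc : ContinuousAt (α (e i)) x := continuousAt_pi.2 fun j =>
        (hα.hol (e i) he x (hsub i hx) j).self_of_nhds.continuousAt
      obtain ⟨K, hKx, hKs, hK⟩ := local_compact_nhds
        (inter_mem (isOpen_ball.mem_nhds hx) (hc.eventually_ne hx0))
      have hKt : K ⊆ (e i).target := fun y hy => hsub i (hKs hy).1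
      obtain ⟨g, g1, g2, g3⟩ := small (fun k : κ => k.1.1) K
        (fun k y ξ => len (tE M H k.1.1 k.1.2.1 (e i) y) ξ) (fun y ξ => α (e i) y ⬝ᵥ ξ = 0)
        (fun k => by
          obtain ⟨h, h1, -, h3⟩ := hA i k.1.1 k.1.2.1 k.2.1 k.2.2.1 k.2.2.2.1 k.2.2.2.2.1
          exact ⟨h, h1, fun y hy ξ _ => h3 y (ball_subset_closedBall (hKs hy).1) ξ⟩)
        (fun η hη => by
          obtain ⟨δ, hδ, h⟩ := hLE n M H α hH hα hS (e i) he K hK hKt (fun y hy => (hKs hy).2) η hη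
          exact ⟨δ, hδ, fun k hk => h k.1.1 k.1.2.1 k.2.1 hk k.2.2.2.1 k.2.2.2.2.1⟩)
      refine ⟨K, hKx, fun k y => β * g k y, fun k => (g1 k).const_mul _, ?_,
        fun k a ha y hy => ?_⟩
      · have := ENNReal.Tendsto.const_mul (a := (β : ℝ≥0∞)) g2 (Or.inr ENNReal.coe_ne_top)
        rw [mul_zero] at this
        exact this.congr fun k => (lintegral_const_mul _ (g1 k)).symm
      · have ha' : bx a = i := ha
        have hf := k.2.2.2.2.2.1 a
        rw [ha'] at hf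
        refine ⟨(hf y (hKs hy).1).1, fun ξ hξ => ?_⟩
        rw [hβ]
        refine adm_le (psd k.2.2.2.2.1 he (hKt hy)) ((hf y (hKs hy).1).2 ξ) (g3 k y hy ξ ?_)
        obtain ⟨s, -, hs1⟩ := hs y (hKs hy).1
        rw [fd_sum (hd y (hKs hy).1)] at hξ
        unfold dotProduct
        simp only [hs1, mul_assoc]
        rw [← Finset.mul_sum, hξ, mul_zero])
    (fun k v => (lintegral_mono_set (hb _).2.2.2.1).trans
      (hp2 _ _ _ k.2.1 k.2.2.1 k.2.2.2.1 k.2.2.2.2.1 _ (k.2.2.2.2.2.1 v)))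
  refine ⟨C1, p, hp1, fun v v' z hl => ?_⟩
  obtain ⟨s, hs, hs2⟩ := mem_comap.1 (hC v v' z hl)
  obtain ⟨δ, hδ, hδ2⟩ := Metric.mem_nhds_iff.1 hs
  refine ⟨min (δ / 2) 1, lt_min (half_pos hδ) one_pos, fun ε u f h0 h1 hu hle hf hc => ?_⟩
  refine @hs2 ⟨(ε, u, f), h0, h1.trans (min_le_right _ _), hu, hle, hf, hc⟩ (hδ2 ?_)
  rw [mem_ball_zero_iff, Real.norm_of_nonneg h0]
  exact (h1.trans (min_le_left _ _)).trans_lt (half_lt_self hδ)

end Pool.Agent.Lib.F4H
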