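import Pool.Agent.Lib.F4H.M_MGE
import Pool.Agent.Lib.F4H.M_MCO
import Pool.Agent.Lib.F4H.M_MEA
import Pool.Agent.Lib.F4G.AllM

/-! Project f4h: the cost of a link, without hypotheses. -/

namespace Pool.Agent.Lib.F4H

open Pool.Agent.Lib.F4G

theorem aMEA2 : St_MEA2 :=
  st_MEA2 st_MFU st_MLE st_MPT (st_MCO2 st_MTU2 st_MEX st_MGE2 st_MHA)

end Pool.Agent.Lib.F4H
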