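import Pool.Agent.Lib.NU4.Wdg98
import Pool.Agent.Lib.F4.A_XP

/-! Project f4h: the curvature term of a multivector of degree `n - 1`. -/

open scoped Classical Topology ContDiff ComplexOrder Matrix
open Set Filter

noncomputable section

namespace Pool.Agent.Lib.F4H.T27

open Pool.Agent.Lib.SV (E)
open Pool.Agent.Lib.HS32 Pool.Agent.Lib.HLK Pool.Agent.Lib.F4 Pool.Agent.Lib.NU4.W98
open Pool.Agent.Lib.F4.Clo (U1 vac)

variable {n : ℕ}

theorem s_dot (x y : Fs n → ℂ) : star (K3E.star n *ᵥ x) ⬝ᵥ K3E.star n *ᵥ y = star x ⬝ᵥ y := by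
  rw [dotProduct, dotProduct, ← Equiv.sum_comp (compl_involutive (α := Fs n)).toPerm]
  refine Finset.sum_congr rfl fun A _ => ?_
  show star ((K3E.star n *ᵥ x) Aᶜ) * (K3E.star n *ᵥ y) Aᶜ = star (x A) * y A
  rw [XP.star_vec, XP.star_vec, star_mul', star_pow, star_neg, star_one, mul_mul_mul_comm,
    ← mul_pow]
  simp

theorem s_s (x : Fs 4 → ℂ) : K3E.star 4 *ᵥ K3E.star 4 *ᵥ x = x := by
  funext A
  have h := XP.star_vec (K3E.star 4 *ᵥ x) Aᶜ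
  rw [compl_compl] at h
  have s : ∑ b : Fin 4, (b : ℕ) = 2 * 3 := by decide
  rw [h, XP.star_vec, ← mul_assoc, ← pow_add, Finset.sum_compl_add_sum, s, pow_mul, neg_one_sq,
    one_pow, one_mul]

theorem la_s {H : Mat n} (hH : H.det ≠ 0) (y : Fs n → ℂ) :
    La H *ᵥ K3E.star n *ᵥ y = H.det • K3E.star n *ᵥ La H⁻¹ᵀ *ᵥ y := by
  have h := K3E.bSTAR st_FK1 (st_FK2 st_FK1) n H
  have e : La Hᵀ * La H⁻¹ᵀ = 1 := by
    rw [← ((aFK2 n).2 Hᵀ).2.2.1, ← Matrix.transpose_mul, Matrix.nonsing_inv_mul _ hH.isUnit,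
      Matrix.transpose_one, (aFK2 n).1]
  rw [K3E.STAR.la_tr] at h
  rw [← Matrix.smul_mulVec, ← h, Matrix.mulVec_mulVec, Matrix.mulVec_mulVec, Matrix.mul_assoc _ _
    (La H⁻¹ᵀ), e, Matrix.mul_one]

theorem cr_eq (k : Fin n) : cr k = cv (Pi.single k 1) := by
  simp [cv, Pi.single_apply]

theorem two (G : Mat n) (a b r : E n) :
    star (cv a *ᵥ cv r *ᵥ vac n) ⬝ᵥ La G *ᵥ cv b *ᵥ cv r *ᵥ vac n =
      (star a ⬝ᵥ G *ᵥ b) * (star r ⬝ᵥ G *ᵥ r) - (star a ⬝ᵥ G *ᵥ r) * (star r ⬝ᵥ G *ᵥ b) := by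
  have l : ∀ (v : E n) (Y : Fs n → ℂ), La G *ᵥ cv v *ᵥ Y = cv (G *ᵥ v) *ᵥ La G *ᵥ Y := fun v Y => by
    rw [Matrix.mulVec_mulVec, la_cv, Matrix.mulVec_mulVec]
  rw [l, l, Clo.la_vac, Matrix.star_mulVec, ← Matrix.dotProduct_mulVec, Matrix.star_mulVec,
    ← Matrix.dotProduct_mulVec, cv_ct, cv_ct]
  simp only [av_cv, av_vac, Matrix.mulVec_zero, sub_zero, Matrix.mulVec_sub, Matrix.mulVec_smul,
    dotProduct_sub, dotProduct_smul, smul_eq_mul]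
  simp

/-- The curvature term of the dual of a covector. -/
theorem tri {H : Mat n} (hH : H.det ≠ 0) (T : Mat n) (r : E n) :
    ∑ k, ∑ l, T l k * (star (an l *ᵥ K3E.star n *ᵥ U1 n *ᵥ r) ⬝ᵥ
      La H *ᵥ an k *ᵥ K3E.star n *ᵥ U1 n *ᵥ r) = H.det * mq H T r := by
  have a : ∀ (k : Fin n) (Y : Fs n → ℂ), an k *ᵥ K3E.star n *ᵥ Y = K3E.star n *ᵥ cr k *ᵥ Y :=
    fun k Y => by rw [Matrix.mulVec_mulVec, ← K3E.STAR.star_cr, Matrix.mulVec_mulVec]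
  have b : ∀ k l, star (an l *ᵥ K3E.star n *ᵥ U1 n *ᵥ r) ⬝ᵥ
      La H *ᵥ an k *ᵥ K3E.star n *ᵥ U1 n *ᵥ r = H.det * (H⁻¹ k l * (H⁻¹ *ᵥ star r ⬝ᵥ r) -
        (r ᵥ* H⁻¹) l * (H⁻¹ *ᵥ star r) k) := fun k l => by
    rw [a, a, la_s hH, dotProduct_smul, s_dot, u1_cv, cr_eq, cr_eq, two, smul_eq_mul,
      Matrix.dotProduct_mulVec (star r), Matrix.dotProduct_mulVec (star r),
      Matrix.vecMul_transpose, Matrix.mulVec_transpose _ r]
    simp
  have c : (H⁻¹ * T * H⁻¹) *ᵥ star r ⬝ᵥ r =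
      ∑ k, ∑ l, T l k * ((r ᵥ* H⁻¹) l * (H⁻¹ *ᵥ star r) k) := by
    rw [dotProduct_comm, ← Matrix.mulVec_mulVec, ← Matrix.mulVec_mulVec, Matrix.dotProduct_mulVec,
      Finset.sum_comm, dotProduct]
    refine Finset.sum_congr rfl fun l _ => ?_
    rw [Matrix.mulVec, dotProduct, Finset.mul_sum]
    exact Finset.sum_congr rfl fun k _ => by ring
  have d : (H⁻¹ * T).trace = ∑ k, ∑ l, T l k * H⁻¹ k l := by
    simp only [Matrix.trace, Matrix.diag, Matrix.mul_apply, mul_comm]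
  rw [mq, Matrix.mul_vecMulVec, Matrix.mul_vecMulVec, Matrix.trace_vecMulVec,
    Matrix.trace_vecMulVec, c, d, Finset.sum_mul, ← Finset.sum_sub_distrib, Finset.mul_sum]
  refine Finset.sum_congr rfl fun k _ => ?_
  rw [Finset.sum_mul, ← Finset.sum_sub_distrib, Finset.mul_sum]
  exact Finset.sum_congr rfl fun l _ => by rw [b]; ring

/-- A multivector of degree three is the dual of a covector. -/
theorem eq3 {t : Fs 4 → ℂ} (h : ∀ A : Fs 4, A.card ≠ 3 → t A = 0) :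
    t = K3E.star 4 *ᵥ U1 4 *ᵥ v1 (K3E.star 4 *ᵥ t) := by
  rw [u1_v1, s_s]
  intro A hA
  have e := XP.star_vec t Aᶜ
  rw [compl_compl] at e
  rw [e, h, mul_zero]
  rw [Finset.card_compl, Fintype.card_fin]
  have := (Finset.card_le_univ A).trans_eq (Fintype.card_fin 4)
  omega

theorem mq_smul (H T : Mat n) (c : ℂ) (r : E n) :
    mq H T (c • r) = ((‖c‖ ^ 2 : ℝ) : ℂ) * mq H T r := by
  have : star c * c = ((‖c‖ ^ 2 : ℝ) : ℂ) := by
    rw [Complex.star_def, mul_comm, Complex.mul_conj, Complex.normSq_eq_norm_sq]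
  simp only [mq, star_smul, Matrix.smul_vecMulVec, Matrix.vecMulVec_smul, smul_smul,
    Matrix.mul_smul, Matrix.trace_smul, smul_eq_mul, ← this]
  ring

end Pool.Agent.Lib.F4H.T27
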