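import Pool.Agent.Lib.F4H.Defs
import Pool.Agent.Lib.F4H.Tri27
import Pool.Agent.Lib.NU4.B_MAIN
import Pool.Agent.Lib.NU4.B_EXC
import Pool.Agent.Lib.F4.AllS
import Pool.Agent.Lib.F4.A_XT

/-! Project f4h, block B: the forms close to the canonical class are small along the kernel of the
twisted form. -/

open scoped Classical Topology ContDiff ComplexOrder Matrix
open Set Filter MeasureTheory

set_option linter.unusedVariables false

noncomputable section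

namespace Pool.Agent.Lib.F4H

open Pool.Agent.Lib.SV (E)
open Pool.Agent.Lib.HS32 Pool.Agent.Lib.HLK Pool.Agent.Lib.F4
open Pool.Agent.Lib.NU4 hiding k2
open Pool.Agent.Lib.K3E (kan wk lk)

namespace B27

variable {n : ℕ} {M : Mf n} {H : M.Fam (Mat n)} {a : ℝ → M.X → ℝ}

theorem nef (hH : M.Met H) (hO : ZK47.Out M H 0 a) : W86.Nef M H := fun ε hε => by
  have m : min ε 1 ∈ Ioc (0 : ℝ) 1 := ⟨lt_min hε one_pos, min_le_right _ _⟩
  refine ⟨a (min ε 1), hO.sm _ m, fun e he z hz => ?_⟩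
  have e1 : M.gE H ε (a (min ε 1)) =
      (0 - M.ric H + min ε 1 • H + M.hs (a (min ε 1))) + (ε - min ε 1) • H := by
    rw [Mf.gE, sub_smul]
    abel
  beta_reduce
  rw [e1]
  exact ((hO.kae _ m).pos e he z hz).add_posSemidef
    (Mf.psd_rsmul (hH.pos e he z hz).posSemidef (sub_nonneg.2 (min_le_left _ _)))

theorem nos (h : ∀ a ≠ 0, ∀ s, H0 M a s → Zr M s) : NoS M := fun m m0 t ht =>
  h m (by exact_mod_cast m0.ne') t ⟨fun e he z hz => Mf.AllOn.ev ht.hol he hz,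
    fun e he e' he' x hx hx' => by
      have := ht.cmp e he e' he' x hx hx'
      beta_reduce at this ⊢
      rw [this, zpow_natCast, mul_comm]⟩

/-- The part of degree one is zero. -/
theorem one (hFK : St_FK) (hKIT : St_KIT) (hH : M.Met H) {m : ℕ} (zT : ∀ Y, HT M m Y → Zr M Y)
    {U : M.Fam (Fs n → ℂ)} (hU : HM M m U) : Zr M (prt M 1 U) := fun e he z hz => by
  have d : Dg 1 (prt M 1 U e z) := fun A hA => if_neg hA
  have k : (fun k => prt M 1 U e z {k}) = 0 := by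
    simpa only [prt, Finset.card_singleton, if_true] using
      zT _ ((hKIT n M H m U hH).2.2.2.2.1 hU).2.1 e he z hz
  beta_reduce
  rw [(hFK n 0 0 0 0 0 (prt M 1 U e z)).2.2.2.2.2.2.2.2.2.2.2.2.2.2.2.2.2.1 d, k]
  simp [crv]

/-- A projective structure exists. -/
theorem pq [M.Cpt] (hFK : St_FK) (hKIT : St_KIT) (hXS : St_XS) (hHLX : St_HLX) (hQEX : St_QEX)
    (cx : Cx M H a) (no : NoS M) (zT : ∀ Y, HT M (2 : ℕ) Y → Zr M Y) {V : M.Fam (E n)}
    (hV : HT M 1 V) : ∃ q, Pq M H V q := by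
  obtain ⟨-, -, x1, x2, x3⟩ := hXS n M H V cx.kae hV
  rcases hHLX n M H a 2 _ cx le_rfl x1 x3 with h | ⟨U, u1, -, u3⟩
  · exact hQEX n M H V cx.n0 cx.kae no hV h
  refine (u3 ?_).elim
  have z : ∀ x, M.ev (prt M 1 U) x = 0 := fun x => (one hFK hKIT cx.kae.toMet zT u1).ch x
  simp only [Bun.ip, lw, (hKIT n M H 2 U cx.kae.toMet).2.2.2.2.2.2.2 _ _ 1 _ x2]
  simp only [Bun.pp, z, star_zero, zero_dotProduct, integral_zero]
  exact tendsto_const_nhds

/-- From a multivector of degree three to the form. -/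
theorem sm3 {M : Mf 4} {H : M.Fam (Mat 4)} {α : M.Fam (E 4)} {t : M.Fam (Fs 4 → ℂ)} {c : ℂ}
    (hKIT : St_KIT) (hH : M.Met H) (hα : H1 M 1 α) (hd : DgM M 3 t) (nz : Nz t)
    (hs : Sml M H 2 t) (hc : M.All fun e z => v1 (K3E.star 4 *ᵥ t e z) = c • α e z) :
    Sm3 M H α := by
  have c0 : c ≠ 0 := by
    rintro rfl
    obtain ⟨e, he, z, hz, k⟩ := nz
    exact k (by rw [T27.eq3 (hd e he z hz), hc e he z hz]; simp)
  have cp : 0 < ‖c‖ ^ 2 := pow_pos (norm_pos_iff.2 c0) 2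
  obtain ⟨C, C0, hC⟩ := hs
  refine ⟨C / ‖c‖ ^ 2, by positivity, fun ε u h1 h2 h3 => ?_⟩
  have fo : M.Form (om M H ε u) := (((mHES 4 M).2.2.2.2.2.2.2.2.1 H hH).toForm.neg.add
    (hH.toForm.smul ε)).add ((mHES 4 M).1 u h2).toForm
  have pt : ∀ x, cu (om M H ε u) (lk H 2) t x = ‖c‖ ^ 2 * mx M H (om M H ε u) (aa M H α) x := by
    intro x
    obtain ⟨p, q⟩ := Complex.pos_iff.1 (hH.ev_pos x).det_pos
    have e1 : M.ev t x = K3E.star 4 *ᵥ Clo.U1 4 *ᵥ c • M.ev α x :=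
      (T27.eq3 (hd.ch x)).trans (congrArg (fun r => K3E.star 4 *ᵥ Clo.U1 4 *ᵥ r) (hc.ch x))
    rw [(((aS2K 4 M H hH).2.2.2.2.2.1 α hα).2.2 _).1 x fo,
      ((hKIT 4 M H 2 t hH).2.2.2.2.2.1 x).2, cg, e1, T27.tri (hH.ev_pos x).det_pos.ne',
      T27.mq_smul, Complex.mul_re, ← q, Complex.re_ofReal_mul]
    field_simp
    ring
  have := hC ε u h1 h2 h3
  simp only [pt] at this
  rw [integral_const_mul] at this
  rw [div_mul_eq_mul_div, le_div_iff₀' cp]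
  exact this

end B27

open B27 R1 in
theorem st_S3H (hFK : St_FK) (hKIT : St_KIT) (hB2 : St_B2) (hINF : NU4.St_INF) (hSG : St_SG)
    (hEV : St_EV) (hIX : St_IX0) (hHLP : St_HLP) (hHLX : St_HLX) (hNMU : St_NMU) (hSMV : St_SMV)
    (hXS : St_XS) (hQEX : St_QEX) (hRC : St_RC) (hT3 : St_T3) (hWR : St_WR) : St_S3H := by
  intro M _ H S P V W α a hH hO hD
  have met := hH.toMet
  have cx : Cx M H a := ⟨four_pos, hH, nef met hO, hO⟩
  have no : NoS M := nos hD.hyp.z0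
  have zT : ∀ Y, HT M (2 : ℕ) Y → Zr M Y := hD.zT _ (by norm_num) (by norm_num) (by norm_num)
  have w1 : ∀ U, HT M 1 U → V1 M U := fun U hU =>
    ⟨hU, no 1 one_pos _ (z0_sec (m := 1) ((st_DVC 4 M).1 U hU))⟩
  have key : ∀ U U', HT M 1 U → HT M 1 U' → ¬Zr M (wd M U (vec M U')) →
      Sml M H 1 (vec M U) := fun U U' h h' k => by
    obtain ⟨q, hq⟩ := pq hFK hKIT hXS hHLX hQEX cx no zT h
    obtain ⟨m, g, g1, g2, g3, g4, g5⟩ := hWR M H U U' met no (w1 U h) (w1 U' h') (nz k)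
    obtain ⟨N, s, β, κ, s1, s2, s3, s4, s5⟩ := hRC 4 M H U m g q met (w1 U h) g1 g2 g3 g4 g5
      hq (hINF 4 M H a cx no).2.1
    obtain ⟨b1, b3, b4⟩ := hB2 4 M H N met
    exact hSMV 4 M H a U cx (w1 U h) (Or.inr (hT3 4 M H U _ _ s β q κ hH (w1 U h) b1 b3
      ((b4 s).1 s1).1 ((b4 s).1 s1).2 s2 hq s3 s4 s5))
  have k1 : ¬Zr M (wd M V (vec M W)) := fun c => hD.nVW fun e he z hz =>
    (hFK 4 (V e z) (W e z) 0 0 0 0).2.2.2.2.2.2.2.2.2.2.2.2.2.2.2.1.1 (c e he z hz)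
  obtain ⟨-, l2, l3, -⟩ := hKIT 4 M H 1 (vec M W) met
  obtain ⟨u1, u2, -⟩ := l2 W hD.hW
  have d2 : DgM M 2 (wd M V (vec M W)) := fun e he z hz =>
    ((hFK 4 (V e z) 0 0 0 0 (vec M W e z)).2.2.2.2.2.2.2.2.2.2.2.2.2.2.2.2.2.2.2.2 1
      (u2 e he z hz)).1
  obtain ⟨U, hU, nU, pU, sU⟩ := X29.flip hSG hEV hIX hINF hHLP cx no le_rfl (Or.inl rfl)
    ((l3 1 V hD.hV).1 u1) (nz k1) (by simpa using X29.pa_of d2)
    ((hNMU 4 M H a 1 1 _ cx u1 (key W V hD.hW hD.hV fun c => k1 (swp hFK c))).2.1 V hD.hV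
      (key V W hD.hV hD.hW k1))
  have d3 : DgM M 3 U := fun e he z hz A c => by
    by_cases c1 : A.card = 1
    · simpa only [prt, if_pos c1, Pi.zero_apply] using
        congrFun (one hFK hKIT met zT hU e he z hz) A
    · refine X29.pa_zero pU he hz ?_
      have := (Finset.card_le_univ A).trans_eq (Fintype.card_fin 4)
      have k : A.card = 0 ∨ A.card = 2 ∨ A.card = 4 := by omega
      rcases k with k | k | k <;> rw [k] <;> norm_num
  obtain ⟨y1, y2⟩ := (hKIT 4 M H 2 U met).1.1 hU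
  obtain ⟨c, hc⟩ := hD.o1 _ (by simpa using (st_XT st_XP 4 M H 2 U y1 y2).2.2.2.1)
  exact sm3 hKIT met hD.hα d3 nU sU hc

end Pool.Agent.Lib.F4H
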