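import Pool.Agent.Lib.F4H.Defs
import Pool.Agent.Lib.F4H.Box2

/-! Project f4h, block C: the last step. Blueprint. -/

open scoped Classical Topology ContDiff ComplexOrder Matrix MatrixGroups
open scoped LinearAlgebra.Projectivization
open Set Filter Metric

set_option linter.unusedVariables false

noncomputable section

namespace Pool.Agent.Lib.F4H

open Pool.Agent.Lib.SV (E)
open Pool.Agent.Lib.HS32 Pool.Agent.Lib.F4 Pool.Agent.Lib.F4G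

/-! ### Local statements -/

/-- Near a regular point every point is joined to a section. -/
def St_REG : Prop := ∀ (n : ℕ) (O : Set (E n)) (W : E n → ℂ) (x : E n), IsOpen O → x ∈ O →
  DifferentiableOn ℂ W O → fderiv ℂ W x ≠ 0 → ∃ (D : Set ℂ) (σ : ℂ → E n), IsOpen D ∧
    DifferentiableOn ℂ σ D ∧ (∀ w ∈ D, σ w ∈ O ∧ W (σ w) = w) ∧
    ∀ᶠ y in 𝓝 x, W y ∈ D ∧ Jn O W y (σ (W y))

/-- The density is locally constant on every fibre. -/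
def St_PHI : Prop := ∀ (n : ℕ) (M : Mf n) (α φ ψ : _) (s : ℝ) (d : Dev M α), Den M α →
  Ld M 3 α s φ ψ → ∀ a, ∀ z ∈ dO d a, ∀ᶠ w in 𝓝 z,
    d.t a w / d.s a w = d.t a z / d.s a z → dF d φ a w = dF d φ a z

/-- The invariant of a chain. -/
def St_INV2 : Prop := ∀ (n : ℕ) (M : Mf n) (α φ ψ : _) (s : ℝ) (d : Dev M α), Den M α →
  Ld M 3 α s φ ψ → ∀ u v, dLC d u v → u.2 ∈ d.O u.1.1 → ∃ ν : ℂ, ν ≠ 0 ∧
    (lf u.1.2).1 *ᵥ ![d.s u.1.1 (d.e u.1.1 u.2), d.t u.1.1 (d.e u.1.1 u.2)] =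
      ν • ((lf v.1.2).1 *ᵥ ![d.s v.1.1 (d.e v.1.1 v.2), d.t v.1.1 (d.e v.1.1 v.2)]) ∧
    φ (d.e u.1.1) (d.e u.1.1 u.2) =
      φ (d.e v.1.1) (d.e v.1.1 v.2) + Real.log (Complex.normSq (ν ^ 2))

/-- The points that are not anchored form a union of singular fibres. -/
def St_ANC : Prop := ∀ (n : ℕ) (M : Mf n) (α : M.Fam (E n)) (d : Dev M α), Den M α →
  IsOpen {x | Anc d x} ∧ (∀ a, ∀ x ∈ d.O a, α (d.e a) (d.e a x) ≠ 0 → Anc d x) ∧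
  ∀ x, ¬Anc d x → ∀ᶠ y in 𝓝 x, (¬Anc d y ↔ d.t x (d.e x y) = 0)

/-! ### Some point is not anchored -/

/-- Gluing of germs along a closed set. -/
def St_GLU2 : Prop := ∀ (n : ℕ) (M : Mf n) [M.Cpt] (F : Set M.X) (r : M.X → M.X → ℝ), IsClosed F →
  (∀ x ∈ F, ∀ᶠ y in 𝓝 x, 0 ≤ r x y ∧ (r x y = 0 ↔ y ∈ F) ∧
    (∃ e ∈ M.C, y ∈ e.source ∧ ContDiffAt ℝ ∞ (r x ∘ e.symm) (e y)) ∧
    (y ∈ F → r y =ᶠ[𝓝 y] r x)) →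
  ∃ σ : M.X → ℝ, M.Sm σ ∧ (∀ x, 0 ≤ σ x) ∧ (∀ x, σ x = 0 ↔ x ∈ F) ∧ ∀ x ∈ F, σ =ᶠ[𝓝 x] r x

/-- The shape of `σ` near `x`. -/
def Shp {n : ℕ} {M : Mf n} {α : M.Fam (E n)} (d : Dev M α) (H : M.Fam (Mat n)) (σ : M.X → ℝ)
    (x : M.X) : Prop := ∃ κ : ℝ, ∀ᶠ y in 𝓝 x, σ y =
  Complex.normSq (d.t x (d.e x y) ^ 2) * Real.exp (κ - ph M H (d.e x) (d.e x y))

/-- The divisor of a closed union of fibres. -/
def St_DIV2 : Prop := ∀ (n : ℕ) (M : Mf n) [M.Cpt] (H : M.Fam (Mat n)) (α φ ψ : _) (s : ℝ)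
  (d : Dev M α) (F : Set M.X), M.Met H → Den M α → Ld M 3 α s φ ψ → IsClosed F →
  (∀ x ∈ F, ∀ᶠ y in 𝓝 x, (y ∈ F ↔ d.t x (d.e x y) = 0)) →
  ∃ σ : M.X → ℝ, M.Sm σ ∧ (∀ x, 0 ≤ σ x) ∧ (∀ x, σ x = 0 ↔ x ∈ F) ∧ ∀ x ∈ F, Shp d H σ x

/-- Its curvature form is the canonical form near the support. -/
def St_FN1 : Prop := ∀ (n : ℕ) (M : Mf n) (H : M.Fam (Mat n)) (α : M.Fam (E n)) (d : Dev M α)
  (σ : M.X → ℝ), M.Met H → Den M α → M.Sm σ → (∀ x, 0 ≤ σ x) → (∀ x, σ x = 0 → Shp d H σ x) →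
  ∃ Θ, Dv M σ Θ ∧ ∀ x, σ x = 0 → ∀ᶠ y in 𝓝 x, M.ev (Θ + M.ric H) y = 0

/-- A power of `α` vanishes on the divisor. -/
def St_FN2 : Prop := ∀ (n : ℕ) (M : Mf n) [M.Cpt] (H : M.Fam (Mat n)) (α : M.Fam (E n))
  (d : Dev M α) (σ : M.X → ℝ), M.Met H → H1 M 1 α → Den M α → M.Sm σ → (∀ x, 0 ≤ σ x) →
  (∀ x, σ x = 0 → Shp d H σ x ∧
    ∀ᶠ y in 𝓝 x, d.t x (d.e x y) = 0 → α (d.e x) (d.e x y) = 0) →
  ∃ m : ℕ, 0 < m ∧ M.All fun e z => ∃ C : ℝ, ∀ᶠ w in 𝓝 z, ‖α e w‖ ^ (2 * m) ≤ C * σ (e.symm w)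

/-! ### All points are anchored -/

/-- The box at an anchored point. -/
def St_LOC2 : Prop := ∀ (n : ℕ) (M : Mf n) (α φ ψ : _) (s : ℝ) (d : Dev M α), Den M α →
  Ld M 3 α s φ ψ → 0 < s → ∀ x, Anc d x → ∃ l R D F κ, Loc2 d φ x l R D F κ

/-- Boxes exist. -/
def St_BX2 : Prop := ∀ (n : ℕ) (M : Mf n) [M.Cpt] (α φ ψ : _) (s : ℝ) (d : Dev M α), Den M α →
  Ld M 3 α s φ ψ → (∀ x, ∃ l R D F κ, Loc2 d φ x l R D F κ) → ∃ k B, Nonempty (Box2 M α k B)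

/-- The discs form an atlas. -/
def St_ATL2 : Prop := ∀ (n : ℕ) (M : Mf n) [M.Cpt] (α : M.Fam (E n)) (k B : ℝ)
  (b : Box2 M α k B), ∃ r, My.Atl Prod.fst b.F b.J k B r

/-- The monodromy group. -/
def St_GAM2 : Prop := ∀ (n : ℕ) (M : Mf n) [M.Cpt] (α : M.Fam (E n)) (k B : ℝ) (b : Box2 M α k B)
  (a : b.I), (∃ Γ : Subgroup PG, (Γ : Set PG) = b.Gam a ∧ Γ ≤ Subgroup.closure (b.S : Set PG)) ∧
  ∃ (U : b.I → Set M.X) (g : b.I → PG), (∀ i, IsOpen (U i) ∧ U i ⊆ b.O i) ∧ (∀ x, ∃ i, x ∈ U i) ∧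
    ∀ i j x, x ∈ U i → x ∈ U j → g i * b.c i j x * (g j)⁻¹ ∈ b.Gam a

/-- A finite orbit gives a pluricanonical form. -/
def St_ORB2 : Prop := ∀ (n : ℕ) (M : Mf n) [M.Cpt] (H : M.Fam (Mat n)) (α : M.Fam (E n))
  (k B : ℝ) (b : Box2 M α k B) (Γ : Subgroup PG) (U : b.I → Set M.X) (g : b.I → PG)
  (v : ℙ ℂ (Fin 2 → ℂ)), 0 < n → M.Kae H → (∀ ρ, H1 M 0 ρ → Zr M ρ) → Den M α →
  (∀ i, IsOpen (U i) ∧ U i ⊆ b.O i) → (∀ x, ∃ i, x ∈ U i) →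
  (∀ i j x, x ∈ U i → x ∈ U j → g i * b.c i j x * (g j)⁻¹ ∈ Γ) →
  ((fun γ : PG => γ • v) '' Γ).Finite → Plu M

/-- The values along a chain. -/
def St_VAL : Prop := ∀ (n : ℕ) (M : Mf n) (α : M.Fam (E n)) (k B : ℝ) (b : Box2 M α k B),
  (∀ u v, b.L u v → (lf (v.1.2⁻¹ * u.1.2)).1 0 0 +
      (lf (v.1.2⁻¹ * u.1.2)).1 0 1 * b.W u.1.1 (b.e u.1.1 u.2) ≠ 0 ∧
    b.W v.1.1 (b.e v.1.1 v.2) = b.Mo u.1 v.1 (b.W u.1.1 (b.e u.1.1 u.2))) ∧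
  (∀ v z w y, b.J v z w y → ∀ x x', In (b.e v.1) (b.U v.1) x → In (b.e w.1) (b.U w.1) x' →
    b.W v.1 (b.e v.1 x) = z → b.W w.1 (b.e w.1 x') = y → b.L (v, x) (w, x')) ∧
  ∀ v : b.I × PG, ∃ S : Set ℂ, S.Countable ∧ ∀ x u, b.L (v, x) u → b.W v.1 (b.e v.1 x) ∉ S →
    b.W u.1.1 (b.e u.1.1 u.2) ∉ b.T

/-- The cost of a link. -/
def St_MEAN2 : Prop := ∀ (n : ℕ) (M : Mf n) [M.Cpt] (H : M.Fam (Mat n)) (α : M.Fam (E n))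
  (k B r κ : ℝ) (b : Box2 M α k B), M.Kae H → H1 M 1 α → Sm3 M H α →
  My.Atl Prod.fst b.F b.J k B r →
  ∃ (C : ℝ) (p : ℝ → (M.X → ℝ) → b.I → M.X), (∀ ε u i, p ε u i ∈ b.O i) ∧
    ∀ v w, My.Lk b.J v w → ∃ δ : ℝ, 0 < δ ∧ ∀ (ε : ℝ) (u : M.X → ℝ) (f : b.I × PG → M.X → ℝ),
      0 ≤ ε → ε ≤ δ → M.Sm u → M.Le 0 (tE M H ε u) → b.Cmp (tE M H ε u) κ f →
      |f v (p ε u v.1) - f w (p ε u w.1)| ≤ C

/-- The monodromy has a finite orbit. -/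
def St_FIN2 : Prop := ∀ (n : ℕ) (M : Mf n) [M.Cpt] (H : M.Fam (Mat n)) (α : M.Fam (E n))
  (a : ℝ → M.X → ℝ) (k B : ℝ) (b : Box2 M α k B) (i : b.I) (Γ : Subgroup PG), 0 < n → M.Kae H →
  ZK47.Out M H 0 a → H1 M 1 α → Sm3 M H α → (Γ : Set PG) = b.Gam i →
  Γ ≤ Subgroup.closure (b.S : Set PG) →
  ∃ v : ℙ ℂ (Fin 2 → ℂ), ((fun γ : PG => γ • v) '' Γ).Finite

/-- The case of a point that is not anchored. -/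
def St_FNE : Prop := ∀ (M : Mf 4) [M.Cpt] (H Θ : M.Fam (Mat 4)) (α : M.Fam (E 4)) (σ : M.X → ℝ)
  (a : ℝ → M.X → ℝ) (m : ℕ), M.Kae H → ZK47.Out M H 0 a → k2 M H ≤ 0 →
  (∀ ρ, H1 M 0 ρ → Zr M ρ) → H1 M 1 α → Den M α → Dv M σ Θ → (∃ x, σ x = 0) →
  (∀ x, σ x = 0 → ∀ᶠ y in 𝓝 x, M.ev (Θ + M.ric H) y = 0) → 0 < m →
  (M.All fun e z => ∃ C : ℝ, ∀ᶠ w in 𝓝 z, ‖α e w‖ ^ (2 * m) ≤ C * σ (e.symm w)) → Plu M

theorem ch_of (hA : St_ANC) (hD : St_DIV2) (h1 : St_FN1) (h2 : St_FN2) (hE : St_FNE)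
    (hL : St_LOC2) (hB : St_BX2) (hG : St_GAM2) (hR : St_ORB2) (hN : St_FIN2) : St_CH := by
  intro M _ H α φ ψ s a hH ha hk q0 hα den s3 d hs s0
  obtain ⟨a1, a2, a3⟩ := hA 4 M α d den
  by_cases c : ∀ x, Anc d x
  · obtain ⟨k, B, ⟨b⟩⟩ := hB 4 M α φ ψ s d den hs fun x => hL 4 M α φ ψ s d den hs s0 x (c x)
    obtain ⟨x⟩ : Nonempty M.X := inferInstance
    obtain ⟨i, -⟩ := b.cov x
    obtain ⟨⟨Γ, g1, g2⟩, U, g, u1, u2, u3⟩ := hG 4 M α k B b i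
    obtain ⟨v, hv⟩ := hN 4 M H α a k B b i Γ four_pos hH ha hα s3 g1 g2
    exact hR 4 M H α k B b Γ U g v four_pos hH q0 den u1 u2
      (fun i j x hi hj => by rw [← SetLike.mem_coe, g1]; exact u3 i j x hi hj) hv
  obtain ⟨σ, t1, t2, t3, t4⟩ := hD 4 M H α φ ψ s d {x | Anc d x}ᶜ hH.toMet den hs
    a1.isClosed_compl a3
  obtain ⟨Θ, v1, v2⟩ := h1 4 M H α d σ hH.toMet den t1 t2 fun x hx => t4 x ((t3 x).1 hx)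
  obtain ⟨m, m0, hm⟩ := h2 4 M H α d σ hH.toMet hα den t1 t2 fun x hx =>
    ⟨t4 x ((t3 x).1 hx), by
      filter_upwards [a3 x ((t3 x).1 hx), (d.opn x).mem_nhds (d.self x)] with y y1 y2 y3
      exact by_contra fun e => y1.2 y3 (a2 x y y2 e)⟩
  exact hE M H Θ α σ a m hH ha hk q0 hα den v1 ((not_forall.1 c).imp fun x hx => (t3 x).2 hx)
    v2 m0 hm

end Pool.Agent.Lib.F4H
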