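import Pool.Agent.Lib.F4G.BlueM
import Pool.Agent.Lib.F4G.MyAtl

/-! Project f4h: the cost of a link when the fibres are joined through chains. Blueprint. -/

open scoped Classical Topology ENNReal NNReal ContDiff ComplexOrder Matrix
open Set Filter MeasureTheory Metric

set_option linter.unusedVariables false

noncomputable section

namespace Pool.Agent.Lib.F4H

open Pool.Agent.Lib.SV (E)
open Pool.Agent.Lib.HS32 Pool.Agent.Lib.F4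
open Pool.Agent.Lib.F4G (tE Lea Adm)

variable {n : ℕ}

/-- One step between points of the sheets: a common point, or a connected piece of a fibre. -/
def Stp {V : Type} (O : V → Set (E n)) (W : V → E n → ℂ) (Com : V → E n → V → E n → Prop)
    (a b : V × E n) : Prop :=
  Com a.1 a.2 b.1 b.2 ∨ (b.1 = a.1 ∧ ∃ C : Set (E n), IsPreconnected C ∧ C ⊆ O a.1 ∧ a.2 ∈ C ∧
    b.2 ∈ C ∧ ∀ x ∈ C, W a.1 x = W a.1 a.2)

/-- A step that starts at a value off `T`. -/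
def StG {V : Type} (O : V → Set (E n)) (W : V → E n → ℂ) (Com : V → E n → V → E n → Prop)
    (T : Set ℂ) (a b : V × E n) : Prop := Stp O W Com a b ∧ W a.1 a.2 ∉ T

/-- Sheets, common points, bad values and the maps between the values. -/
structure Geo2 {V : Type} (O : V → Set (E n)) (W : V → E n → ℂ)
    (Com : V → E n → V → E n → Prop) (T : Set ℂ) (Mo : V → V → ℂ → ℂ) : Prop where
  opn : ∀ v, IsOpen (O v)
  hol : ∀ v, DifferentiableOn ℂ (W v) (O v)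
  com : ∀ v x v' x', Com v x v' x' → x ∈ O v ∧ x' ∈ O v' ∧
    ∃ (τ : E n → E n) (τ' : E n ≃L[ℝ] E n), HasStrictFDerivAt τ (τ' : E n →L[ℝ] E n) x ∧
      τ x = x' ∧ ∀ᶠ y in 𝓝 x, Com v y v' (τ y)
  reg : ∀ v, ∀ x ∈ O v, W v x ∉ T → fderiv ℂ (W v) x ≠ 0
  mea : ∀ v v', Measurable (Mo v v')
  rf : ∀ v w, Mo v v w = w
  coc : ∀ v x v' x', Com v x v' x' → ∀ u, Mo v u (W v x) = Mo v' u (W v' x')

/-- A link between two vertices. -/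
structure Lnk2 {V : Type} (U O : V → Set (E n)) (W : V → E n → ℂ)
    (Com : V → E n → V → E n → Prop) (T : Set ℂ) (Mo : V → V → ℂ → ℂ) (ρ r : ℝ) (L : ℝ≥0)
    (v v' : V) (z : ℂ) : Prop where
  src : ball z r ⊆ closedBall 0 ρ
  tgt : MapsTo (Mo v v') (ball z r) (closedBall 0 ρ)
  cv : ∀ χ : ℂ → ℝ≥0∞, Measurable χ → ∫⁻ w in ball z r, χ (Mo v v' w) ≤ L * ∫⁻ w, χ w
  chn : ∃ S : Set ℂ, S.Countable ∧ ∀ x ∈ U v, W v x ∈ ball z r \ S → ∀ x' ∈ U v',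
    W v' x' = Mo v v' (W v x) → Relation.ReflTransGen (StG O W Com T) (v, x) (v', x')

/-- Finitely many tubes over a compact set. -/
def St_MTU2 : Prop := ∀ (n : ℕ) (U : Set (E n)) (W : E n → ℂ) (K : Set ℂ) (N : E n → Set (E n)),
  IsOpen U → DifferentiableOn ℂ W U → IsCompact K →
  (∀ w ∈ K, ∃ x ∈ U, W x = w ∧ fderiv ℂ W x ≠ 0) →
  (∀ x ∈ U, fderiv ℂ W x ≠ 0 → N x ∈ 𝓝 x) →
  ∃ (s : Finset (E n)) (D : E n → Set ℂ) (C : ℝ≥0), (K ⊆ ⋃ x ∈ s, D x) ∧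
    ∀ x ∈ s, x ∈ U ∧ fderiv ℂ W x ≠ 0 ∧ IsOpen (D x) ∧ D x ⊆ W '' (U ∩ interior (N x)) ∧
      ∀ χ : ℂ → ℝ≥0∞, Measurable χ → ∫⁻ w in D x, χ w ≤ C * ∫⁻ y in U ∩ N x, χ (W y)

/-- Propagation along a chain of good steps. -/
def St_MGE2 : Prop := ∀ (n : ℕ) (κ V : Type) (l : Filter κ) (f : κ → V → E n → ℝ)
  (O : V → Set (E n)) (W : V → E n → ℂ) (Com : V → E n → V → E n → Prop) (T : Set ℂ)
  (Mo : V → V → ℂ → ℂ), Geo2 O W Com T Mo →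
  (∀ k v x v' x', Com v x v' x' → f k v x = f k v' x') → (∀ k v, ContinuousOn (f k v) (O v)) →
  (∀ v, ∀ x ∈ O v, fderiv ℂ (W v) x ≠ 0 → ∃ N ∈ 𝓝 x, ∃ a : κ → ℂ → ℝ, (∀ k, Measurable (a k)) ∧
    Tendsto (fun k => ∫⁻ y in N, ‖f k v y - a k (W v y)‖ₑ) l (𝓝 0)) →
  ∀ v v', ∀ x ∈ O v, ∀ x' : E n, ∀ N ∈ 𝓝 x, ∀ N' ∈ 𝓝 x', ∀ a a' : κ → ℂ → ℝ,
    (∀ k, Measurable (a k)) → (∀ k, Measurable (a' k)) →
    Tendsto (fun k => ∫⁻ y in N, ‖f k v y - a k (W v y)‖ₑ) l (𝓝 0) →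
    Tendsto (fun k => ∫⁻ y in N', ‖f k v' y - a' k (W v' y)‖ₑ) l (𝓝 0) →
    W v x ∉ T → Relation.ReflTransGen (StG O W Com T) (v, x) (v', x') →
    ∃ D ∈ 𝓝 (W v x), Tendsto (fun k => ∫⁻ w in D, ‖a k w - a' k (Mo v v' w)‖ₑ) l (𝓝 0)

/-- The cost of a link, in coordinates. -/
def St_MCO2 : Prop := ∀ (n : ℕ) (ι V κ : Type) [Finite ι] (bx : V → ι) (U O : ι → Set (E n))
  (W : ι → E n → ℂ) (ρ r : ℝ) (L C0 : ℝ≥0) (Com : V → E n → V → E n → Prop) (T : Set ℂ)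
  (Mo : V → V → ℂ → ℂ) (l : Filter κ) (f : κ → V → E n → ℝ) (m : κ → V → ℝ), 0 < r →
  T.Countable → (∀ i, IsOpen (U i) ∧ U i ⊆ O i ∧ IsOpen (O i) ∧ DifferentiableOn ℂ (W i) (O i) ∧
    ∀ w ∈ closedBall (0 : ℂ) ρ \ T, ∃ x ∈ U i, W i x = w ∧ fderiv ℂ (W i) x ≠ 0) →
  Geo2 (fun v => O (bx v)) (fun v => W (bx v)) Com T Mo →
  (∀ k v x v' x', Com v x v' x' → f k v x = f k v' x') →
  (∀ k v, ContinuousOn (f k v) (O (bx v))) →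
  (∀ i, ∀ x ∈ O i, fderiv ℂ (W i) x ≠ 0 → Lea l f {v | bx v = i} (W i) x) →
  (∀ k v, ∫⁻ y in U (bx v), ‖f k v y - m k v‖ₑ ≤ C0) →
  ∃ C1 : ℝ, ∀ v v' z, Lnk2 (fun v => U (bx v)) (fun v => O (bx v)) (fun v => W (bx v)) Com T Mo
    ρ r L v v' z → ∀ᶠ k in l, |m k v - m k v'| ≤ C1

/-- The cost of a link. -/
def St_MEA2 : Prop := ∀ (n : ℕ) (M : Mf n) [M.Cpt] (H : M.Fam (Mat n)) (α : M.Fam (E n))
  (ι V : Type) [Finite ι] (bx : V → ι) (e : ι → M.Ch) (c : ι → E n) (R : ι → ℝ)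
  (U : ι → Set (E n)) (W : ι → E n → ℂ) (b ρ r : ℝ) (L : ℝ≥0)
  (Com : V → E n → V → E n → Prop) (T : Set ℂ) (Mo : V → V → ℂ → ℂ),
  M.Kae H → H1 M 1 α → Sm3 M H α → 0 < r → T.Countable →
  (∀ i, e i ∈ M.C ∧ 0 < R i ∧ closedBall (c i) (R i) ⊆ (e i).target ∧ U i ⊆ ball (c i) (R i) ∧
    IsOpen (U i) ∧ DifferentiableOn ℂ (W i) (ball (c i) (R i)) ∧
    (∀ y ∈ ball (c i) (R i), ∃ s : ℂ, s ≠ 0 ∧ ∀ k, α (e i) y k = s * dz k (W i) y) ∧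
    ∀ w ∈ closedBall (0 : ℂ) ρ \ T, ∃ x ∈ U i, W i x = w ∧ fderiv ℂ (W i) x ≠ 0) →
  Geo2 (fun v => ball (c (bx v)) (R (bx v))) (fun v => W (bx v)) Com T Mo →
  ∃ (C1 : ℝ) (p : ℝ → (M.X → ℝ) → ι → E n), (∀ ε u i, p ε u i ∈ ball (c i) (R i)) ∧
    ∀ v v' z, Lnk2 (fun v => U (bx v)) (fun v => ball (c (bx v)) (R (bx v))) (fun v => W (bx v))
      Com T Mo ρ r L v v' z →
      ∃ δ : ℝ, 0 < δ ∧ ∀ (ε : ℝ) (u : M.X → ℝ) (f : V → E n → ℝ), 0 ≤ ε → ε ≤ δ → M.Sm u →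
        M.Le 0 (tE M H ε u) →
        (∀ a, Adm b (tE M H ε u (e (bx a))) (ball (c (bx a)) (R (bx a))) (f a)) →
        (∀ a x a' x', Com a x a' x' → f a x = f a' x') →
        |f v (p ε u (bx v)) - f v' (p ε u (bx v'))| ≤ C1

/-- The links of the atlas are links on discs of a fixed size. -/
def St_MLK2 : Prop := ∀ (n : ℕ) (V I : Type) (p : V → I) (F : I → ℂ → ℝ)
  (J : V → ℂ → V → ℂ → Prop) (k B r : ℝ) (U O : V → Set (E n)) (W : V → E n → ℂ)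
  (Com : V → E n → V → E n → Prop) (T : Set ℂ) (Mo : V → V → ℂ → ℂ),
  F4G.My.Atl p F J k B r → Geo2 O W Com T Mo → T.Countable →
  (∀ v, {u | ∃ x x', Com v x u x'}.Countable) →
  (∀ v w, ‖w‖ < 1 → ∃ x ∈ U v, W v x = w) →
  (∀ v v', ∀ x ∈ U v, ∀ x' ∈ U v', J v (W v x) v' (W v' x') →
    Relation.ReflTransGen (Stp O W Com) (v, x) (v', x')) →
  ∃ (r' : ℝ) (L : ℝ≥0), 0 < r' ∧ ∀ v v', F4G.My.Lk J v v' →
    ∃ z, Lnk2 U O W Com T Mo (7 / 8) r' L v v' z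

end Pool.Agent.Lib.F4H
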