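import Pool.Agent.Lib.F4H.Hc72

/-! Project f4h: the box at an anchored point. -/

open scoped Classical Topology ContDiff ComplexOrder Matrix MatrixGroups
open Set Filter Complex Metric

set_option linter.unusedVariables false

noncomputable section

namespace Pool.Agent.Lib.F4H.P72

open Pool.Agent.Lib.SV (E)
open Pool.Agent.Lib.HS32 Pool.Agent.Lib.F4 Pool.Agent.Lib.F4G Pool.Agent.Lib.F4G.F83
open Pool.Agent.Lib.F4G.B72

variable {n : ℕ}

/-- The weight along a section. -/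
theorem fun72 {U : Set (E n)} {B : Set ℂ} {W y : E n → ℂ} {al : E n → E n} {ph ps : E n → ℝ}
    {sg : ℂ → E n} {s : ℝ} (hU : IsOpen U) (hB : IsOpen B)
    (hW : DifferentiableOn ℂ W U) (hy : DifferentiableOn ℂ y U) (y0 : ∀ z ∈ U, y z ≠ 0)
    (ha : ∀ z ∈ U, ∀ k, al z k = y z * dz k W z) (hp : ∀ z ∈ U, ContDiffAt ℝ 2 ph z)
    (hh : ∀ z ∈ U, hess (fun w => (ph w : ℂ)) z = ((s * Real.exp (-ps z) : ℝ) : ℂ) • oo (al z))
    (hs : DifferentiableOn ℂ sg B) (sw : ∀ w ∈ B, sg w ∈ U ∧ W (sg w) = w) :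
    ContDiffOn ℝ 2 ((fun z => ph z - Real.log (normSq (y z))) ∘ sg) B ∧ ∀ w ∈ B, ∀ c,
      c ≤ s * Real.exp (ph (sg w) - ps (sg w)) →
      4 * c * Real.exp (-((fun z => ph z - Real.log (normSq (y z))) ∘ sg) w) ≤
        fderiv ℝ (fderiv ℝ ((fun z => ph z - Real.log (normSq (y z))) ∘ sg)) w 1 1 +
          fderiv ℝ (fderiv ℝ ((fun z => ph z - Real.log (normSq (y z))) ∘ sg)) w I I := by
  have hol : ∀ {f : E n → ℂ}, DifferentiableOn ℂ f U → ∀ z ∈ U, HolN f z := fun hf z hz =>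
    (hU.eventually_mem hz).mono fun w hw => hf.differentiableAt (hU.mem_nhds hw)
  set l : E n → ℝ := fun z => Real.log (normSq (y z)) with hl
  set h : E n → ℝ := fun z => ph z - l z with hh'
  have ly := fun z hz => ((mHOL n y z).2.2 (hol hy z hz)).2.2.2 (y0 z hz)
  have ch : ∀ z ∈ U, ContDiffAt ℝ 2 h z := fun z hz => (hp z hz).sub (cd_le (ly z hz).1 2)
  have cs : ∀ w ∈ B, ContDiffAt ℂ 2 sg w := fun w hw =>
    (hs.analyticAt (hB.mem_nhds hw)).contDiffAt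
  refine ⟨fun w hw => ((ch _ (sw w hw).1).comp w ((cs w hw).restrict_scalars ℝ)).contDiffWithinAt,
    fun w hw c hc => ?_⟩
  · obtain ⟨hz, e⟩ := sw w hw
    have d := (cs w hw).differentiableAt (by simp)
    set ξ := fderiv ℂ sg w 1 with hξ
    have e1 : fderiv ℂ sg w I = I • ξ := by rw [hξ, ← map_smul, smul_eq_mul, mul_one]
    have e2 : fderiv ℂ (fderiv ℂ sg) w I I = -fderiv ℂ (fderiv ℂ sg) w 1 1 := by
      have : (I : ℂ) = I • (1 : ℂ) := by simp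
      rw [this, map_smul, map_smul, ContinuousLinearMap.smul_apply, smul_smul, I_mul_I,
        neg_one_smul]
    have e3 : fderiv ℂ W (sg w) ξ = 1 := by
      have a := ((hol hW _ hz).self_of_nhds.hasFDerivAt.comp w d.hasFDerivAt).unique
        ((hasFDerivAt_id w).congr_of_eventuallyEq
          ((hB.eventually_mem hw).mono fun t ht => (sw t ht).2))
      exact congrArg (fun D : ℂ →L[ℂ] ℂ => D 1) a
    have e4 : al (sg w) ⬝ᵥ ξ = y (sg w) := by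
      rw [fd_sum (hol hW _ hz).self_of_nhds] at e3
      simp only [dotProduct, ha _ hz, mul_assoc, ← Finset.mul_sum, e3, mul_one]
    have q1 := lev (hp _ hz) ξ
    have q2 := lev (cd_le (ly _ hz).1 2) ξ
    have q3 : fderiv ℝ (fderiv ℝ h) (sg w) =
        fderiv ℝ (fderiv ℝ ph) (sg w) - fderiv ℝ (fderiv ℝ l) (sg w) := by
      have a : fderiv ℝ h =ᶠ[𝓝 (sg w)] fun u => fderiv ℝ ph u - fderiv ℝ l u :=
        (hU.eventually_mem hz).mono fun u hu =>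
          fderiv_fun_sub ((hp u hu).differentiableAt (by simp)) (cd_diff (ly u hu).1)
      rw [a.fderiv_eq]
      exact fderiv_fun_sub
        (((hp _ hz).fderiv_right (m := 1) (by norm_num)).differentiableAt (by simp))
        (cd_diff ((ly _ hz).1.fderiv_right (m := ∞) (by simp)))
    rw [(ly _ hz).2.1, Matrix.zero_mulVec, dotProduct_zero] at q2
    have q4 : star ξ ⬝ᵥ oo (al (sg w)) *ᵥ ξ = (normSq (y (sg w)) : ℂ) := by
      rw [oo, Matrix.vecMulVec_mulVec, e4, op_smul_eq_smul, dotProduct_smul,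
        Matrix.star_dotProduct_star, e4, normSq_eq_conj_mul_self, smul_eq_mul,
        mul_comm]
      rfl
    rw [hh _ hz, Matrix.smul_mulVec, dotProduct_smul, q4, smul_eq_mul] at q1
    have q5 := ofReal_injective ((ofReal_mul _ _).trans q1)
    have q6 := ofReal_injective (ofReal_zero.trans q2)
    have n0 := normSq_pos.2 (y0 _ hz)
    have q7 : Real.exp (ph (sg w) - ps (sg w)) * Real.exp (-(h ∘ sg) w) =
        Real.exp (-ps (sg w)) * normSq (y (sg w)) := by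
      rw [← Real.exp_add, ← Real.exp_log n0, ← Real.exp_add]
      simp only [Function.comp_apply, hh', hl, Real.exp_log n0]
      ring_nf
    have q8 := mul_le_mul_of_nonneg_right hc (Real.exp_pos (-(h ∘ sg) w)).le
    rw [d2c (cs w hw) (ch _ hz), d2c (cs w hw) (ch _ hz), e1, e2, map_neg, q3, ← hξ]
    simp only [ContinuousLinearMap.sub_apply]
    rw [mul_assoc s, q7, ← mul_assoc s] at q8
    linarith


/-- The Wronskian is invariant. -/
theorem wr_mul {s t : E n → ℂ} {z : E n} (A : SL(2, ℂ)) (hs : DifferentiableAt ℂ s z)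
    (ht : DifferentiableAt ℂ t z) (k : Fin n) : s z * dz k t z - t z * dz k s z =
      (A.1 0 0 * s z + A.1 0 1 * t z) * dz k (fun w => A.1 1 0 * s w + A.1 1 1 * t w) z -
        (A.1 1 0 * s z + A.1 1 1 * t z) * dz k (fun w => A.1 0 0 * s w + A.1 0 1 * t w) z := by
  have d := A.2
  rw [Matrix.det_fin_two] at d
  rw [M7.dz_fd hs.hasFDerivAt, M7.dz_fd ht.hasFDerivAt,
    M7.dz_fd ((hs.hasFDerivAt.const_mul _).fun_add (ht.hasFDerivAt.const_mul _)),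
    M7.dz_fd ((hs.hasFDerivAt.const_mul _).fun_add (ht.hasFDerivAt.const_mul _))]
  simp only [ContinuousLinearMap.add_apply, ContinuousLinearMap.smul_apply, smul_eq_mul]
  linear_combination (t z * fderiv ℂ s z (Pi.single k 1) - s z * fderiv ℂ t z (Pi.single k 1)) * d

/-- The vectors `u`, `v` and the weights `p`, `q` define the same point of the line and the same
norm. -/
def Sa (u : Fin 2 → ℂ) (p : ℝ) (v : Fin 2 → ℂ) (q : ℝ) : Prop :=
  ∃ c : ℂ, c ≠ 0 ∧ v = c • u ∧ q = p + Real.log (normSq (c ^ 2))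

theorem Sa.refl (u : Fin 2 → ℂ) (p : ℝ) : Sa u p u p := ⟨1, one_ne_zero, by simp, by simp⟩

theorem Sa.trans {u v w : Fin 2 → ℂ} {p q r : ℝ} (h : Sa u p v q) (k : Sa v q w r) :
    Sa u p w r := by
  obtain ⟨c, c0, rfl, rfl⟩ := h
  obtain ⟨d, d0, rfl, rfl⟩ := k
  refine ⟨d * c, mul_ne_zero d0 c0, smul_smul _ _ _, ?_⟩
  rw [mul_pow, map_mul, Real.log_mul (by simpa using d0) (by simpa using c0)]
  ring

theorem Sa.mul {u v : Fin 2 → ℂ} {p q : ℝ} (h : Sa u p v q) (A : Matrix (Fin 2) (Fin 2) ℂ) :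
    Sa (A *ᵥ u) p (A *ᵥ v) q := by
  obtain ⟨c, c0, rfl, e⟩ := h
  exact ⟨c, c0, Matrix.mulVec_smul _ _ _, e⟩

theorem Sa.val {x y u v : ℂ} {p q : ℝ} {A : SL(2, ℂ)} (h : Sa ![x, y] p (A.1 *ᵥ ![u, v]) q)
    (x0 : x ≠ 0) (u0 : u ≠ 0) : (A⁻¹).1 0 0 + (A⁻¹).1 0 1 * (y / x) ≠ 0 ∧
      v / u = ((A⁻¹).1 1 0 + (A⁻¹).1 1 1 * (y / x)) / ((A⁻¹).1 0 0 + (A⁻¹).1 0 1 * (y / x)) := by
  obtain ⟨c, c0, e, -⟩ := h
  refine (mob (h := c⁻¹) ?_ (inv_ne_zero c0) u0 x0).2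
  rw [inv_smul_eq_iff₀ c0, ← Matrix.mulVec_smul, ← e, Matrix.mulVec_mulVec,
    ← Matrix.SpecialLinearGroup.coe_mul, inv_mul_cancel, Matrix.SpecialLinearGroup.coe_one,
    Matrix.one_mulVec]

/-- The box at the point `p`. -/
structure Lo2 (O N : Set (E n)) (p : E n) (s W : E n → ℂ) (ph : E n → ℝ) (R : ℝ) (D L : Set (E n))
    (F : ℂ → ℝ) (κ : ℝ) : Prop where
  cl : closedBall p R ⊆ O
  opn : IsOpen D
  mem : p ∈ D
  sub : D ⊆ ball p R
  sN : D ⊆ N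
  rng : MapsTo W D (ball 0 1)
  cL : IsCompact L
  LO : L ⊆ O
  LD : ∀ z ∈ L, W z ∈ ball (0 : ℂ) 1 → z ∈ D
  sur : ∀ w ∈ ball (0 : ℂ) 1, ∃ z ∈ L, W z = w
  sF : ContinuousOn F (ball 0 2)
  k0 : 0 < κ
  cv : My.Cv κ F
  eF : ∀ z ∈ D, F (W z) = ph z - Real.log (Complex.normSq (s z ^ 2))

theorem lo2 (hS : St_SH) {O O' N : Set (E n)} {p : E n} {s t s' t' : E n → ℂ} {al : E n → E n}
    {ph ph' ps : E n → ℝ} {a : ℝ} {D : Set ℂ} {σ : ℂ → E n} {A : SL(2, ℂ)} (a0 : 0 < a)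
    (hO : IsOpen O) (hp : p ∈ O) (hN : N ∈ 𝓝 p)
    (hol : ∀ z ∈ O, DifferentiableAt ℂ s z ∧ DifferentiableAt ℂ t z ∧ s z ≠ 0) (t0 : t p = 0)
    (den : ∃ᶠ w in 𝓝 p, fderiv ℂ (fun w => t w / s w) w ≠ 0) (hO' : IsOpen O')
    (hol' : ∀ z ∈ O', DifferentiableAt ℂ s' z ∧ DifferentiableAt ℂ t' z ∧ s' z ≠ 0)
    (wr : ∀ z ∈ O', ∀ k, al z k = s' z * dz k t' z - t' z * dz k s' z)
    (h1 : ∀ z ∈ O', ContDiffAt ℝ 2 ph' z) (h2 : ∀ z ∈ O', ContinuousAt ps z)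
    (h4 : ∀ z ∈ O', hess (fun w => (ph' w : ℂ)) z = ((a * Real.exp (-ps z) : ℝ) : ℂ) • oo (al z))
    (dσ : DifferentiableOn ℂ σ D) (sσ : ∀ w ∈ D, σ w ∈ O' ∧ t' (σ w) / s' (σ w) = w)
    (an : ∀ y ∈ N ∩ O, ∃ w ∈ D,
      Sa ![s y, t y] (ph y) (A.1 *ᵥ ![s' (σ w), t' (σ w)]) (ph' (σ w))) :
    ∃ (l : ℂˣ) (R : ℝ) (U L : Set (E n)) (F : ℂ → ℝ) (κ : ℝ),
      Lo2 O N p (fun z => l * s z) (fun z => t z / l / (l * s z)) ph R U L F κ := by
  obtain ⟨R, R0, hR⟩ := nhds_basis_closedBall.mem_iff.1 (hO.mem_nhds hp)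
  have dW : ∀ z ∈ O, DifferentiableAt ℂ (fun w => t w / s w) z := fun z hz =>
    ddiv (hol z hz).2.1 (hol z hz).1 (hol z hz).2.2
  obtain ⟨U, d, L, u1, u2, u3, d0, u4, l1, l2, l3, l4, -⟩ := hS n O (fun w => t w / s w) p
    (ball p R ∩ N) hO hp (fun z hz => (dW z hz).differentiableWithinAt) den
    (inter_mem (ball_mem_nhds p R0) hN)
  simp only [t0, zero_div] at u4 l3 l4
  have uO : U ⊆ O := fun z hz => (u3 hz).2
  have r0 : (0 : ℝ) < √(d / 2) := Real.sqrt_pos.2 (half_pos d0)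
  set l : ℂˣ := Units.mk0 ((√(d / 2) : ℝ) : ℂ) (Complex.ofReal_ne_zero.2 r0.ne') with hl
  have ll : (l : ℂ) * l = ((d / 2 : ℝ) : ℂ) := by
    rw [hl, Units.val_mk0, ← Complex.ofReal_mul, Real.mul_self_sqrt (half_pos d0).le]
  have l0 : ((d / 2 : ℝ) : ℂ) ≠ 0 := Complex.ofReal_ne_zero.2 (half_pos d0).ne'
  have nl : ‖((d / 2 : ℝ) : ℂ)‖ = d / 2 := by
    rw [Complex.norm_real, Real.norm_of_nonneg (half_pos d0).le]
  set W : E n → ℂ := fun z => t z / l / (l * s z) with hW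
  have eW : ∀ z, W z = t z / s z / ((d / 2 : ℝ) : ℂ) := fun z => by
    simp only [hW, ← ll, div_div]
    congr 1
    ring
  have mp : ∀ z, W z ∈ ball (0 : ℂ) 2 → t z / s z ∈ ball (0 : ℂ) d := fun z hz => by
    rw [mem_ball_zero_iff] at hz ⊢
    rw [eW, norm_div, nl, div_lt_iff₀ (half_pos d0)] at hz
    linarith
  have sc : ∀ w ∈ ball (0 : ℂ) 2, ∃ z ∈ L, W z = w := fun w hw => by
    obtain ⟨z, z1, z2⟩ := l4 (((d / 2 : ℝ) : ℂ) * w) (by
      rw [mem_ball_zero_iff] at hw ⊢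
      rw [norm_mul, nl]
      nlinarith)
    exact ⟨z, z1, by rw [eW, z2, mul_div_cancel_left₀ _ l0]⟩
  set A' : SL(2, ℂ) := dg l * A with hA
  set m : ℂ → ℂ := fun w => ((A'⁻¹).1 1 0 + (A'⁻¹).1 1 1 * w) / ((A'⁻¹).1 0 0 + (A'⁻¹).1 0 1 * w)
    with hm
  set S : E n → ℂ := fun z => A'.1 0 0 * s' z + A'.1 0 1 * t' z with hS'
  set T : E n → ℂ := fun z => A'.1 1 0 * s' z + A'.1 1 1 * t' z with hT
  have key : ∀ y ∈ N ∩ O, (A'⁻¹).1 0 0 + (A'⁻¹).1 0 1 * W y ≠ 0 ∧ m (W y) ∈ D ∧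
      S (σ (m (W y))) ≠ 0 ∧ T (σ (m (W y))) / S (σ (m (W y))) = W y ∧
      ph' (σ (m (W y))) - Real.log (normSq (S (σ (m (W y))) ^ 2)) =
        ph y - Real.log (normSq ((l * s y) ^ 2)) := fun y hy => by
    obtain ⟨w, w1, w2⟩ := an y hy
    have y0 := mul_ne_zero l.ne_zero (hol y hy.2).2.2
    have k := w2.mul (dg l).1
    rw [dg_mul, Matrix.mulVec_mulVec, ← Matrix.SpecialLinearGroup.coe_mul] at k
    obtain ⟨k1, k2⟩ := k.val y0 (hol' _ (sσ w w1).1).2.2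
    have e : m (W y) = w := k2.symm.trans (sσ w w1).2
    obtain ⟨c, c0, e1, e2⟩ := k
    have e3 : S (σ w) = c * (l * s y) := by
      simpa [hS', hA, Matrix.mulVec, dotProduct, Fin.sum_univ_two] using congrFun e1 0
    have e4 : T (σ w) = c * (t y / l) := by
      simpa [hT, hA, Matrix.mulVec, dotProduct, Fin.sum_univ_two] using congrFun e1 1
    rw [e, e3, e4, e2, mul_div_mul_left _ _ c0, mul_pow c, map_mul,
      Real.log_mul (by simpa using c0) (by simpa using y0)]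
    exact ⟨k1, w1, mul_ne_zero c0 y0, rfl, by ring⟩
  have key' : ∀ w ∈ ball (0 : ℂ) 2, (A'⁻¹).1 0 0 + (A'⁻¹).1 0 1 * w ≠ 0 ∧ m w ∈ D ∧
      S (σ (m w)) ≠ 0 ∧ T (σ (m w)) / S (σ (m w)) = w := fun w hw => by
    obtain ⟨z, z1, rfl⟩ := sc w hw
    have := key z ⟨(l2 z1).1.2, (l2 z1).2⟩
    exact ⟨this.1, this.2.1, this.2.2.1, this.2.2.2.1⟩
  have dS : ∀ z ∈ O', DifferentiableAt ℂ S z := fun z hz =>
    ((hol' z hz).1.const_mul _).fun_add ((hol' z hz).2.1.const_mul _)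
  have dT : ∀ z ∈ O', DifferentiableAt ℂ T z := fun z hz =>
    ((hol' z hz).1.const_mul _).fun_add ((hol' z hz).2.1.const_mul _)
  have dτ : DifferentiableOn ℂ (fun w => σ (m w)) (ball 0 2) := dσ.comp
    (DifferentiableOn.div (by fun_prop) (by fun_prop) fun w hw => (key' w hw).1)
    fun w hw => (key' w hw).2.1
  have mτ : ∀ w ∈ ball (0 : ℂ) 2, σ (m w) ∈ O' := fun w hw => (sσ _ (key' w hw).2.1).1
  obtain ⟨f1, f3⟩ := fun72 (U := O' ∩ S ⁻¹' {0}ᶜ) (W := fun z => T z / S z) (y := fun z => S z ^ 2)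
    (ContinuousOn.isOpen_inter_preimage (fun z hz => (dS z hz).continuousAt.continuousWithinAt) hO'
      isOpen_compl_singleton) isOpen_ball
    (fun z hz => (ddiv (dT z hz.1) (dS z hz.1) hz.2).differentiableWithinAt)
    (fun z hz => ((dS z hz.1).fun_pow 2).differentiableWithinAt) (fun z hz => pow_ne_zero 2 hz.2)
    (fun z hz k => (wr z hz.1 k).trans ((wr_mul A' (hol' z hz.1).1 (hol' z hz.1).2.1 k).trans
      (dz_div (dS z hz.1) (dT z hz.1) hz.2 k))) (fun z hz => h1 z hz.1) (fun z hz => h4 z hz.1) dτ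
    fun w hw => ⟨⟨mτ w hw, (key' w hw).2.2.1⟩, (key' w hw).2.2.2⟩
  have b12 : closedBall (0 : ℂ) 1 ⊆ ball 0 2 := closedBall_subset_ball one_lt_two
  obtain ⟨κ, k0, hκ⟩ := (isCompact_closedBall (0 : ℂ) 1).exists_forall_le'
    (f := fun w => a * Real.exp (ph' (σ (m w)) - ps (σ (m w)))) (a := 0) (fun w hw =>
      continuousWithinAt_const.mul (Real.continuous_exp.continuousAt.comp_continuousWithinAt
        (((h1 _ (mτ w (b12 hw))).continuousAt.sub (h2 _ (mτ w (b12 hw)))).comp_continuousWithinAt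
          (f := fun w => σ (m w)) ((dτ.continuousOn w (b12 hw)).mono b12))))
    fun z _ => by positivity
  have b13 : ball (0 : ℂ) 1 ⊆ ball 0 2 := ball_subset_ball one_le_two
  exact ⟨l, R, U ∩ W ⁻¹' ball 0 1, L, _, κ, hR, ContinuousOn.isOpen_inter_preimage (fun z hz =>
      ((ddiv (dW z (uO hz)) (differentiableAt_const _) l0).continuousAt.continuousWithinAt).congr
        (fun y _ => eW y) (eW z)) u1 isOpen_ball, ⟨u2, by simp [hW, t0]⟩,
    fun z hz => (u3 hz.1).1.1, fun z hz => (u3 hz.1).1.2, fun z hz => hz.2, l1,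
    fun z hz => (l2 hz).2, fun z hz h => ⟨l3 z hz (mp z (b13 h)), h⟩, fun w hw => sc w (b13 hw),
    f1.continuousOn, k0,
    ⟨f1.mono b13, fun w hw => f3 w (b13 hw) κ (hκ w (ball_subset_closedBall hw))⟩,
    fun z hz => (key z ⟨(u3 hz.1).1.2, uO hz.1⟩).2.2.2.2⟩

end Pool.Agent.Lib.F4H.P72
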