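import Pool.Agent.Lib.F4H.BlueC
import Pool.Agent.Lib.F4H.Loj23
import Pool.Agent.Lib.HS32.MAll

/-! Project f4h, block C: a power of the form vanishes on the divisor. -/

open scoped Classical Topology ContDiff ComplexOrder Matrix
open Set Filter Metric Asymptotics

set_option linter.unusedVariables false

noncomputable section

namespace Pool.Agent.Lib.F4H

open Pool.Agent.Lib.SV (E)
open Pool.Agent.Lib.HS32 Pool.Agent.Lib.F4 Pool.Agent.Lib.F4G

namespace F53

variable {n : ℕ} {M : Mf n} {α : M.Fam (E n)} {σ : M.X → ℝ} {e e' : M.Ch} {x : M.X}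

theorem chg (h : H1 M 1 α) (he : e ∈ M.C) (he' : e' ∈ M.C) (hx : x ∈ e.source)
    (hx' : x ∈ e'.source) : (fun y => α e' (e' y)) =O[𝓝 x] fun y => α e (e y) := by
  have jc : ContinuousAt (fun y => M.J e e' y) x :=
    ContinuousAt.comp (f := e') (mCHN n _ _ ((mTR n M).2.1 e he e' he' x hx hx').1).2.1.continuousAt
      (e'.continuousAt hx')
  have dc : ContinuousAt (fun y => (M.J e e' y).det) x :=
    (continuous_id.matrix_det).continuousAt.comp jc
  refine isBigO_pi.2 fun j => (IsBigO.sum (s := Finset.univ) fun i _ =>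
    (((dc.mul (continuousAt_pi.1 (continuousAt_pi.1 jc i) j)).isBigO_one ℝ).mul
      (isBigO_pi.1 (isBigO_refl (fun y => α e (e y)) (𝓝 x)) i).norm_right)).congr' ?_ ?_
      |>.of_norm_right
  · filter_upwards [e.open_source.mem_nhds hx, e'.open_source.mem_nhds hx'] with y h1 h2
    rw [h.cmp e he e' he' y h1 h2]
    simp only [zpow_one, Pi.smul_apply, Matrix.vecMul, dotProduct, smul_eq_mul, Finset.mul_sum,
      Pi.mul_apply, Finset.sum_apply]
    exact Finset.sum_congr rfl fun i _ => by ring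
  · exact Eventually.of_forall fun y => one_mul _

theorem cont (h : H1 M 1 α) (he : e ∈ M.C) (hx : x ∈ e.source) :
    ContinuousAt (fun y => ‖α e (e y)‖) x :=
  (ContinuousAt.comp (f := e) (continuousAt_pi.2 fun i =>
    (h.hol e he _ (e.map_source hx) i).self_of_nhds.continuousAt) (e.continuousAt hx)).norm

variable (α σ) in
/-- The estimate near a point. -/
def Q (m : ℕ) (x : M.X) : Prop :=
  ∃ e ∈ M.C, x ∈ e.source ∧ (fun y => ‖α e (e y)‖ ^ m) =O[𝓝 x] σ

theorem Q.mono (h : H1 M 1 α) {m k : ℕ} (hq : Q α σ m x) (hk : m ≤ k) : Q α σ k x := by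
  obtain ⟨e, he, hx, hq⟩ := hq
  refine ⟨e, he, hx, (((((cont h he hx).pow (k - m)).isBigO_one ℝ).mul hq).congr
    (fun y => ?_) fun y => one_mul _)⟩
  rw [Pi.pow_apply, ← pow_add, Nat.sub_add_cancel hk]

theorem Q.opn (m : ℕ) : IsOpen {x | Q α σ m x} := by
  refine isOpen_iff_mem_nhds.2 ?_
  rintro x ⟨e, he, hx, hq⟩
  obtain ⟨C, hC⟩ := isBigO_iff.1 hq
  filter_upwards [e.open_source.mem_nhds hx, hC.eventually_nhds] with y h1 h2
  exact ⟨e, he, h1, isBigO_iff.2 ⟨C, h2⟩⟩

end F53

open F53

theorem st_FN2 : St_FN2 := by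
  intro n M _ H α d σ hH h1 den sσ σ0 hz
  have loc : ∀ x, ∃ m, Q α σ m x := fun x => by
    by_cases h : σ x = 0
    · obtain ⟨⟨κ, hs⟩, hv⟩ := hz x h
      have he := d.mem x
      have hx := d.sub x (d.self x)
      have ht := (d.e x).map_source hx
      have hO := (dO_opn d x).eventually_mem (dO_mem d (d.self x))
      have t1 := (d.e x).continuousAt hx
      have t2 : Tendsto (d.e x).symm (𝓝 (d.e x x)) (𝓝 x) := (d.e x).tendsto_symm hx
      obtain ⟨k, -, C, -, hC⟩ := L23.loj (l := d.t x) (a := α (d.e x)) (x := d.e x x)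
        (hO.mono fun z hz => (dO_hol d hz).1.2.1)
        ((eventually_all.2 (h1.hol _ he _ ht)).mono fun z hz => differentiableAt_pi.2 hz)
        (fun c => den _ he _ ht (by
          filter_upwards [hO, c.eventually_nhds] with z z1 z2 z3
          have z4 : d.t x =ᶠ[𝓝 z] fun _ => 0 := z2.mono fun w hw => not_not.1 hw
          refine z3 (funext fun j => ?_)
          rw [(dO_hol d z1).2 j, dz_congr z4, z4.eq_of_nhds, dz_const]
          simp))
        (by
          filter_upwards [t2.eventually hv, (d.e x).eventually_right_inverse' hx] with z z1 z2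
          rwa [z2] at z1)
      have b1 : (fun y => ‖α (d.e x) (d.e x y)‖ ^ k) =O[𝓝 x] fun y => ‖d.t x (d.e x y)‖ :=
        isBigO_iff.2 ⟨C, (t1.eventually hC).mono fun y hy => by
          rwa [norm_norm, norm_pow, norm_norm]⟩
      have pc : ContinuousAt (fun y => Real.exp (ph M H (d.e x) (d.e x y) - κ)) x :=
        Real.continuous_exp.continuousAt.comp ((ContinuousAt.comp (f := d.e x)
          ((mINV n M H hH).2.2.2.2.2.2.1.sm _ he _ ht).continuousAt t1).sub continuousAt_const)
      have b2 : (fun y => ‖d.t x (d.e x y)‖ ^ 4) =O[𝓝 x] σ :=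
        ((pc.isBigO_one ℝ).mul (isBigO_refl σ (𝓝 x))).congr' (hs.mono fun y hy => by
          beta_reduce
          rw [hy, mul_left_comm, ← Real.exp_add, sub_add_sub_cancel, sub_self, Real.exp_zero,
            mul_one, Complex.normSq_eq_norm_sq, norm_pow, ← pow_mul])
          (Eventually.of_forall fun y => one_mul _)
      exact ⟨k * 4, _, he, hx, ((b1.pow 4).congr_left fun y => (pow_mul _ _ _).symm).trans b2⟩
    · refine ⟨0, _, Mf.ch_mem x, Mf.mem_ch x, ?_⟩
      have c := (((sσ.continuous.continuousAt (x := x)).inv₀ h).isBigO_one ℝ).mul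
        (isBigO_refl σ (𝓝 x))
      refine c.congr' ?_ (Eventually.of_forall fun y => one_mul _)
      filter_upwards [sσ.continuous.continuousAt.eventually_ne h] with y hy
      rw [Pi.inv_apply, inv_mul_cancel₀ hy, pow_zero]
  obtain ⟨m, hm⟩ := isCompact_univ.elim_directed_cover (fun m => {x | Q α σ m x}) Q.opn
    (fun x _ => mem_iUnion.2 (loc x))
    (Monotone.directed_le fun m k hk x hx => Q.mono h1 hx hk)
  refine ⟨m + 1, m.succ_pos, fun e he z hz => ?_⟩
  obtain ⟨e', he', hx', hq⟩ := Q.mono h1 (hm (mem_univ (e.symm z))) (show m ≤ 2 * (m + 1) by omega)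
  obtain ⟨C, hC⟩ := isBigO_iff.1
    (((chg h1 he' he hx' (e.map_target hz)).norm_norm.pow (2 * (m + 1))).trans hq)
  refine ⟨C, ?_⟩
  filter_upwards [(e.continuousAt_symm hz).eventually hC, e.eventually_right_inverse hz] with w w1 w2
  rwa [w2, norm_pow, norm_norm, Real.norm_of_nonneg (σ0 _)] at w1

end Pool.Agent.Lib.F4H
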