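import Pool.Agent.Lib.F4H.BlueC
import Pool.Agent.Lib.F4H.Sgl83

/-! Project f4h, row GLU2: gluing of germs along a closed set. -/

namespace Pool.Agent.Lib.F4H

theorem st_GLU2 : St_GLU2 := by
  intro n M _ F r hF h
  obtain ⟨σ, s1, s2, s3⟩ := S83.sgl (r := r) hF fun x hx => (h x hx).mono fun y hy =>
    ⟨hy.2.2.1, hy.1, fun c => mt hy.2.1.1 c, fun c => (hy.2.2.2 c).symm⟩
  have z : ∀ x ∈ F, σ x = 0 := fun x hx =>
    (s2 x hx).self_of_nhds.trans ((h x hx).self_of_nhds.2.1.2 hx)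
  refine ⟨σ, s1, fun x => ?_, fun x => ⟨fun c => by_contra fun d => (s3 x d).ne' c, z x⟩, s2⟩
  by_cases c : x ∈ F
  · exact (z x c).ge
  · exact (s3 x c).le

end Pool.Agent.Lib.F4H
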