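import Pool.Agent.Lib.F4H.BlueC
import Pool.Agent.Lib.F4H.BoxAtl2

/-! Project f4h: the values along a chain. -/

open scoped Matrix MatrixGroups
open Set

noncomputable section

namespace Pool.Agent.Lib.F4H

open Pool.Agent.Lib.SV (E)
open Pool.Agent.Lib.HS32 Pool.Agent.Lib.F4 Pool.Agent.Lib.F4G

namespace Val98

theorem cnt {G : Type} [Group G] (S : Finset G) :
    (Subgroup.closure (S : Set G) : Set G).Countable := by
  rw [FreeGroup.closure_eq_range]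
  have : Countable (FreeGroup (S : Set G)) := Quot.mk_surjective.countable
  exact countable_range _

theorem one (w : ℂ) : (lf 1).1 0 0 + (lf 1).1 0 1 * w ≠ 0 ∧
    w = ((lf 1).1 1 0 + (lf 1).1 1 1 * w) / ((lf 1).1 0 0 + (lf 1).1 0 1 * w) := by
  rcases pg98 (lf 1) 1 (QuotientGroup.out_eq' _) with h | h <;> simp [h]

theorem inj (A : SL(2, ℂ)) :
    InjOn (fun w : ℂ => (A.1 1 0 + A.1 1 1 * w) / (A.1 0 0 + A.1 0 1 * w))
      {w | A.1 0 0 + A.1 0 1 * w ≠ 0} := fun x hx y hy h => by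
  have d := A.2
  rw [Matrix.det_fin_two] at d
  have e := (div_eq_div_iff hx hy).1 h
  linear_combination e - (x - y) * d

end Val98

open Val98

theorem st_VAL : St_VAL := by
  intro n M α k B b
  have h1 : ∀ u v, b.L u v → (lf (v.1.2⁻¹ * u.1.2)).1 0 0 +
      (lf (v.1.2⁻¹ * u.1.2)).1 0 1 * b.W u.1.1 (b.e u.1.1 u.2) ≠ 0 ∧
      b.W v.1.1 (b.e v.1.1 v.2) = b.Mo u.1 v.1 (b.W u.1.1 (b.e u.1.1 u.2)) := by
    intro u v h
    unfold Box2.Mo
    induction h with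
    | refl =>
      rw [inv_mul_cancel]
      exact one _
    | @tail v w _ h ih =>
      rcases h with ⟨e, k1, k2, k3⟩ | ⟨e, k1⟩
      · obtain ⟨m1, m2⟩ := b.mob98 _ _ _ k1 k2
        have q : w.1.2⁻¹ * u.1.2 = b.c w.1.1 v.1.1 v.2 * (v.1.2⁻¹ * u.1.2) := by
          rw [inv_mul_eq_iff_eq_mul, k3, ← mul_assoc, mul_assoc v.1.2, b.coc _ _ _ _ k1 k2 k1,
            b.coc.one k1, mul_one, mul_inv_cancel_left]
        have := comp98 _ _ _ (lf_mul98 (b.c w.1.1 v.1.1 v.2) (v.1.2⁻¹ * u.1.2)) _ _ _ 0 _ _ ih.1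
          ih.2 rfl m1 m2 rfl
        rw [q, ← e]
        exact ⟨this.1, this.2.1⟩
      · rw [← e, show b.W v.1.1 (b.e v.1.1 w.2) = b.W v.1.1 (b.e v.1.1 v.2) from k1.eq]
        exact ih
  refine ⟨h1, fun v z w y h x x' hx hx' e e' => b.chain98 hx hx' (e ▸ e' ▸ h), fun v => ?_⟩
  refine ⟨⋃ g ∈ (Subgroup.closure (b.S : Set PG) : Set PG),
    {w | (lf g).1 0 0 + (lf g).1 0 1 * w ≠ 0} ∩ (fun w : ℂ => ((lf g).1 1 0 + (lf g).1 1 1 * w) /
      ((lf g).1 0 0 + (lf g).1 0 1 * w)) ⁻¹' b.T, (cnt b.S).biUnion fun g _ => ?_,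
    fun x u h hx hT => hx ?_⟩
  · exact MapsTo.countable_of_injOn ((mapsTo_preimage _ _).mono_left inter_subset_right)
      ((inj (lf g)).mono inter_subset_left) b.cnt
  · obtain ⟨k1, k2⟩ := h1 _ _ h
    have s := LC.sub (Subgroup.closure (b.S : Set PG))
      (fun i j x hi hj => Subgroup.subset_closure (b.lc i j x hi hj).1) h
    refine mem_biUnion (x := u.1.2⁻¹ * v.2) ?_ ⟨k1, ?_⟩
    · simpa only [mul_inv_rev, inv_inv, SetLike.mem_coe] using inv_mem s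
    · rw [k2] at hT
      exact hT

end Pool.Agent.Lib.F4H
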