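import Pool.Agent.Lib.NU4.Kv53b
import Pool.Agent.Lib.NU4.Blue
import Pool.Agent.Lib.F4.A_XP
import Pool.Agent.Lib.F4.A_XT

/-! Project f4h: the curvature term of a multivector of degree `n - 1` at level two. -/

open scoped Classical Topology ContDiff ComplexOrder Matrix
open Set MeasureTheory Complex Filter

noncomputable section

namespace Pool.Agent.Lib.F4H.C71

open Pool.Agent.Lib.SV (E)
open Pool.Agent.Lib.HS32 Pool.Agent.Lib.HLK Pool.Agent.Lib.F4 Pool.Agent.Lib.NU4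
open Pool.Agent.Lib.NU4.K53
open Pool.Agent.Lib.K3E (kan wk lk)

variable {n : ℕ}

theorem am_eq (G : Mx (Fs n)) {q : ℕ} (hq : q + 1 = n) {W : Fs n → ℂ} (hW : Dg q W) :
    am G W = G Finset.univ Finset.univ •
      Matrix.vecMulVec (star (v1 (K3E.star n *ᵥ W))) (v1 (K3E.star n *ᵥ W)) := by
  have e : ∀ (m : Fin n) (A : Fs n), A ≠ Finset.univ → (cr m *ᵥ W) A = 0 := fun m A hA =>
    Finset.sum_eq_zero (s := Finset.univ) (f := fun B => cr m A B * W B) fun B _ => by
      rw [FK1.cr_apply]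
      split_ifs with h
      · rw [hW B fun c => hA (Finset.eq_univ_of_card A ?_), mul_zero]
        rw [h.2, Finset.card_insert_of_notMem h.1, c, hq, Fintype.card_fin]
      · exact zero_mul _
  have r : ∀ m, v1 (K3E.star n *ᵥ W) m =
      (-1) ^ (∑ b : Fin n, (b : ℕ)) * (cr m *ᵥ W) Finset.univ := fun m => by
    rw [v1, Matrix.mulVec_mulVec, ← K3E.STAR.star_cr, ← Matrix.mulVec_mulVec,
      ← Finset.compl_univ, XP.star_vec]
  have s : ((-1 : ℂ) ^ (∑ b : Fin n, (b : ℕ))) * (-1) ^ (∑ b : Fin n, (b : ℕ)) = 1 := by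
    rw [← mul_pow]
    simp
  ext j m
  rw [am_apply, dotProduct, Finset.sum_eq_single Finset.univ, Matrix.mulVec, dotProduct,
    Finset.sum_eq_single Finset.univ]
  · simp only [Matrix.smul_apply, Matrix.vecMulVec_apply, Pi.star_apply, smul_eq_mul, r, star_mul',
      star_pow, star_neg, star_one]
    linear_combination (-(G Finset.univ Finset.univ * star ((cr j *ᵥ W) Finset.univ) *
      (cr m *ᵥ W) Finset.univ)) * s
  · exact fun B _ h => by rw [e m B h, mul_zero]
  · simp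
  · exact fun B _ h => by rw [Pi.star_apply, e j B h, star_zero, zero_mul]
  · simp

variable {M : Mf n} {H : M.Fam (Mat n)} {t : M.Fam (Fs n → ℂ)} {q : ℕ}

theorem cu_aa (hm : M.Met H) (hq : q + 1 = n) (hd : DgM M q t) (T : M.Fam (Mat n)) (x : M.X) :
    cu T (lk H 2) t x = mx M H T (aa M H fun e z => v1 (K3E.star n *ᵥ t e z)) x := by
  have hp := hm.ev_pos x
  have d0 := Mf.pd_det_re hp
  have dg : Dg q (M.ev t x) := hd.ch x
  have dr : ((M.ev H x).det.re : ℂ) = (M.ev H x).det :=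
    Complex.ext rfl (Complex.pos_iff.1 hp.det_pos).2
  have ea : am (((Real.exp (-M.ev (wk H 2) x) : ℝ) : ℂ) • La (M.ev H x)) (M.ev t x) =
      M.ev (aa M H fun e z => v1 (K3E.star n *ᵥ t e z)) x := by
    rw [am_eq _ hq dg, Matrix.smul_apply, K3E.STAR.la_univ, if_pos rfl]
    refine congrArg (· • _) ?_
    change ((Real.exp (-(((2 : ℕ) : ℝ) * Real.log (M.ev H x).det.re)) : ℝ) : ℂ) * _ =
      (M.ev H x).det⁻¹
    rw [Real.exp_neg, Real.exp_nat_mul, Real.exp_log d0, ← dr, ← ofReal_mul, ← ofReal_inv]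
    refine congrArg _ ?_
    rw [ofReal_re]
    field_simp
  have tr := tr_am hp ((Real.exp (-M.ev (wk H 2) x) : ℝ) : ℂ) hq dg
  have im : (star (M.ev t x) ⬝ᵥ (((Real.exp (-M.ev (wk H 2) x) : ℝ) : ℂ) • La (M.ev H x)) *ᵥ
      M.ev t x).im = 0 := by
    rw [Matrix.smul_mulVec, dotProduct_smul, smul_eq_mul, im_ofReal_mul, ← (Complex.nonneg_iff.1
      ((((aFK2 n).2 _).2.2.2.2.2 hp).posSemidef.dotProduct_mulVec_nonneg _)).2, mul_zero]
  have e := congrArg re (cu_eq hp ((Real.exp (-M.ev (wk H 2) x) : ℝ) : ℂ) (M.ev T x) (M.ev t x))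
  rw [sub_re, mul_re, im, mul_zero, sub_zero, ← tr, ea] at e
  exact e

theorem nz (hq : q + 1 = n) (hd : DgM M q t) (h : Nz t) :
    ¬Zr M fun e z => v1 (K3E.star n *ᵥ t e z) := fun c => by
  obtain ⟨e, he, z, hz, k⟩ := h
  refine k (funext fun A => ?_)
  by_cases a : A.card = q
  · exact (st_XP n 0 (t e z)).2.2.2.2.2.2.2 1 ((st_XP n 0 _).2.2.2.2.2.1 (c e he z hz)) A
      (by rw [a, hq])
  · exact hd e he z hz A a

theorem mx_aa {ρ α : M.Fam (E n)} {c : ℂ} (h : M.All fun e z => ρ e z = c • α e z)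
    (T : M.Fam (Mat n)) (x : M.X) :
    mx M H T (aa M H ρ) x = normSq c * mx M H T (aa M H α) x := by
  have e : M.ev (aa M H ρ) x = (normSq c : ℂ) • M.ev (aa M H α) x := by
    simp only [Mf.ev, aa, h _ (Mf.ch_mem x) _ (Mf.ch_tgt x), star_smul, Matrix.smul_vecMulVec,
      Matrix.vecMulVec_smul, smul_smul, normSq_eq_conj_mul_self, RCLike.star_def]
    refine congrArg (· • _) (by ring)
  simp only [mx, Mf.tr, Mf.ip, e, Matrix.mul_smul, Matrix.trace_smul, smul_eq_mul, re_ofReal_mul]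
  ring

theorem sm3 (hm : M.Met H) (hq : q + 1 = n) (hd : DgM M q t) (h : Nz t) (hS : Sml M H 2 t)
    {α : M.Fam (E n)} {c : ℂ}
    (hc : M.All fun e z => v1 (K3E.star n *ᵥ t e z) = c • α e z) : Sm3 M H α := by
  have c0 : 0 < normSq c := normSq_pos.2 fun k => nz hq hd h fun e he z hz => by
    beta_reduce
    rw [hc e he z hz, k, zero_smul]
  obtain ⟨C, C0, hC⟩ := hS
  refine ⟨C / normSq c, by positivity, fun ε u hε hu hle => ?_⟩
  have := hC ε u hε hu hle
  simp only [cu_aa hm hq hd, mx_aa hc] at this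
  rw [integral_const_mul] at this
  rw [div_mul_eq_mul_div, le_div_iff₀' c0]
  exact this

end Pool.Agent.Lib.F4H.C71
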