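import Pool.Agent.Lib.HS32.MAll
import Pool.Agent.Lib.HS32.MKit
import Pool.Agent.Lib.F4.Defs

/-! Project f4h: an additive holomorphic cocycle for the canonical bundle forces degree zero. -/

open scoped Classical Topology ContDiff ComplexOrder Matrix
open Set MeasureTheory Complex Metric Filter

set_option linter.unusedVariables false

noncomputable section

namespace Pool.Agent.Lib.F4H

open Pool.Agent.Lib.SV (E)
open Pool.Agent.Lib.HS32 Pool.Agent.Lib.F4

namespace I78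

variable {n : ℕ} {M : Mf n}

theorem holN_tr {f : M.X → ℂ} {e e' : M.Ch} (he : e ∈ M.C) (he' : e' ∈ M.C) {x : M.X}
    (hx : x ∈ e.source) (hx' : x ∈ e'.source) (h : HolN (f ∘ e.symm) (e x)) :
    HolN (f ∘ e'.symm) (e' x) := by
  obtain ⟨t1, -, -, t2, -⟩ := (mTR n M).2.1 e he e' he' x hx hx'
  have t0 : (e ∘ e'.symm) (e' x) = e x := by simp [e'.left_inv hx']
  have c : ContinuousAt (e ∘ e'.symm) (e' x) := t1.self_of_nhds.continuousAt
  rw [← t0] at h
  filter_upwards [t1, t2.eventually_nhds, c.eventually h] with w w1 w2 w3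
  refine (w3.comp w w1).congr_of_eventuallyEq (w2.mono fun y hy => ?_)
  simp only [Function.comp_apply, hy.2.2.2.2.1]

theorem re_tr {H A : Mat n} (hH : H.IsHermitian) : (H⁻¹ * Aᴴ).trace.re = (H⁻¹ * A).trace.re := by
  have : H⁻¹ * Aᴴ = (A * H⁻¹)ᴴ := by rw [Matrix.conjTranspose_mul, hH.inv.eq]
  rw [this, Matrix.trace_conjTranspose, Matrix.trace_mul_comm]
  rfl

/-- Local smooth functions with holomorphic differences. -/
theorem grn [hM : M.Cpt] {H : M.Fam (Mat n)} (hK : M.Kae H) {ι : Type} (O : ι → Set M.X)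
    (hO : ∀ a, IsOpen (O a)) (a : M.X → ι) (ha : ∀ x, x ∈ O (a x)) (h : ι → M.X → ℂ)
    (hs : ∀ b, ∀ x ∈ O b, ∀ f ∈ M.C, x ∈ f.source → ContDiffAt ℝ ∞ (h b ∘ f.symm) (f x))
    (hd : ∀ b d x, x ∈ O b → x ∈ O d → ∀ f ∈ M.C, x ∈ f.source →
      HolN ((fun y => h d y - h b y) ∘ f.symm) (f x)) :
    ∃ u : M.X → ℝ, Integrable u (M.mu H) ∧ ∫ x, u x ∂M.mu H = 0 ∧ ∀ x, ∀ f ∈ M.C, x ∈ f.source →
      u x = ((H f (f x))⁻¹ * hess (h (a x) ∘ f.symm) (f x)).trace.re := by
  have hH := hK.toMet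
  set W : M.Fam (E n) := fun e z => BGRN.fld (H e) (h (a (e.symm z)) ∘ e.symm) (fun _ => 1) z
    with hW
  have l : ∀ e ∈ M.C, ∀ z ∈ e.target,
      W e =ᶠ[𝓝 z] BGRN.fld (H e) (h (a (e.symm z)) ∘ e.symm) fun _ => 1 := fun e he z hz => by
    filter_upwards [(e.continuousAt_symm hz).eventually ((hO _).eventually_mem (ha (e.symm z))),
      e.open_target.eventually_mem hz] with w w1 w2
    have s1 := hs _ _ w1 e he (e.map_target w2)
    have s2 := hs _ _ (ha _) e he (e.map_target w2)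
    have s3 := hd _ _ _ w1 (ha _) e he (e.map_target w2)
    rw [e.right_inv w2] at s1 s2 s3
    have q : ∀ i, dzb i (h (a (e.symm w)) ∘ e.symm) w = dzb i (h (a (e.symm z)) ∘ e.symm) w :=
      fun i => by
        have d := s3.self_of_nhds
        have z0 := ((mHOL n _ w).1 (d.restrictScalars ℝ)).1 d i
        exact sub_eq_zero.1 ((dzb_sub (cd_diff s2) (cd_diff s1)).symm.trans z0)
    simp only [hW, BGRN.fld, q]
  have sm : ∀ e ∈ M.C, ∀ z ∈ e.target, ContDiffAt ℝ ∞ (h (a (e.symm z)) ∘ e.symm) z :=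
    fun e he z hz => by
      have s2 := hs _ _ (ha _) e he (e.map_target hz)
      rwa [e.right_inv hz] at s2
  have hV : M.VDen W := ⟨fun e he z hz => (BGRN.fld_sm mCOF (hH.sm e he z hz) (sm e he z hz)
      contDiffAt_const).congr_of_eventuallyEq (l e he z hz),
    fun e he e' he' x hx hx' => by
      obtain ⟨t1, -, -, hev, -⟩ := (mTR n M).2.1 e he e' he' x hx hx'
      have hψ : (e ∘ e'.symm) (e' x) = e x := by simp [e'.left_inv hx']
      have hch := (mCHN n _ _ t1).2.2.2.2.2.2.2.2.2.1 (h (a x) ∘ e.symm)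
        (by rw [hψ]; exact cd_diff (hs _ _ (ha x) e he hx))
      have heq : (h (a x) ∘ e'.symm) =ᶠ[𝓝 (e' x)] (h (a x) ∘ e.symm) ∘ (e ∘ e'.symm) := by
        filter_upwards [hev] with y hy
        simp only [Function.comp_apply, hy.2.2.2.2.1]
      have hb : (fun i => dzb i (h (a x) ∘ e'.symm) (e' x)) =
          (M.J e e' x)ᴴ *ᵥ fun i => dzb i (h (a x) ∘ e.symm) (e x) := by
        funext i
        rw [dzb_congr heq, (hch i).2, hψ]
        simp only [Matrix.mulVec, dotProduct, Matrix.conjTranspose_apply, Mf.J]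
        exact Finset.sum_congr rfl fun a _ => mul_comm _ _
      simp only [hW, BGRN.fld, e.left_inv hx, e'.left_inv hx', one_smul]
      rw [hb, hH.cmp e he e' he' x hx hx', BGRN.alg]⟩
  obtain ⟨v, s, i⟩ := (mDIV n M H hH).2.1 W hV
  have it := (mMU n M H hH).2.2.2.2.1 ℂ _ s.continuous
  refine ⟨fun x => (M.ev (fun e z => dv (W e) z / (H e z).det) x).re, it.re, ?_,
    fun x f hf hx => ?_⟩
  · have := integral_re it
    rw [i hM] at this
    exact this.trans (map_zero _)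
  · have hz := f.map_source hx
    have q : dv (W f) (f x) = dv (BGRN.fld (H f) (h (a (f.symm (f x))) ∘ f.symm) fun _ => 1) (f x) :=
      Finset.sum_congr rfl fun j _ => dz_congr ((l f hf _ hz).mono fun w hw => congrFun hw j)
    have d0 : dd (h (a x) ∘ f.symm) (fun _ => (1 : ℂ)) (f x) = 0 := by
      ext i j
      simp
    beta_reduce
    rw [v.rep.at hf hx, q, f.left_inv hx, BGRN.fld_dv mCOF (hH.sm f hf _ hz) (hK.cl f hf _ hz)
      (hs _ _ (ha x) f hf hx) contDiffAt_const, d0, zero_add, one_smul, Matrix.inv_def,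
      Ring.inverse_eq_inv', Matrix.smul_mul, Matrix.trace_smul, smul_eq_mul, div_eq_inv_mul]

/-- An additive holomorphic cocycle whose real part is the logarithm of the Jacobian. -/
theorem deg [hM : M.Cpt] {H : M.Fam (Mat n)} (hK : M.Kae H) {ι : Type} (e : ι → M.Ch)
    (he : ∀ a, e a ∈ M.C) (O : ι → Set M.X) (hO : ∀ a, IsOpen (O a) ∧ O a ⊆ (e a).source)
    (hc : ∀ x, ∃ a, x ∈ O a) (L : ι → ι → M.X → ℂ)
    (h1 : ∀ a b x, x ∈ O a → x ∈ O b → HolN (L a b ∘ (e b).symm) (e b x))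
    (h2 : ∀ a b d x, x ∈ O a → x ∈ O b → x ∈ O d → L a b x + L b d x = L a d x)
    (h3 : ∀ a b x, x ∈ O a → x ∈ O b →
      2 * (L a b x).re = Real.log (normSq (jd M (e a) (e b) x))) :
    ∫ x, M.tr H (M.ric H) x ∂M.mu H = 0 := by
  have hH := hK.toMet
  choose a ha using hc
  obtain ⟨V, hV⟩ := (mCOV n M).2.1 M.C (fun x => O (a x)) Mf.sub_all
    fun x => (hO _).1.mem_nhds (ha x)
  choose p hp using fun k => (hV k).2
  have sb : ∀ k, closedBall (V.c k) (2 * V.ρ k) ⊆ closedBall (V.c k) (4 * V.ρ k) := fun k =>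
    closedBall_subset_closedBall (by linarith [V.pos k])
  have mem : ∀ k y, V.χ k y ≠ 0 → y ∈ (V.e k).symm '' closedBall (V.c k) (2 * V.ρ k) :=
    fun k y hy => ⟨_, ball_subset_closedBall (V.supp k y hy).2, (V.e k).left_inv (V.supp k y hy).1⟩
  set h : ι → M.X → ℂ := fun b y => ∑ k, ((V.χ k y ^ 2 : ℝ) : ℂ) * L (a (p k)) b y with hf
  have h1' : ∀ a b x, x ∈ O a → x ∈ O b → ∀ f ∈ M.C, x ∈ f.source →
      HolN (L a b ∘ f.symm) (f x) := fun a b x xa xb f hf hx =>
    holN_tr (he b) hf ((hO b).2 xb) hx (h1 a b x xa xb)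
  have A : ∀ b, ∀ x ∈ O b, ∀ f ∈ M.C, x ∈ f.source → ContDiffAt ℝ ∞ (h b ∘ f.symm) (f x) :=
    fun b x hx f hf xf => by
      refine ContDiffAt.sum (f := fun k => (fun y => ((V.χ k y ^ 2 : ℝ) : ℂ) *
        L (a (p k)) b y) ∘ f.symm) fun k _ => ?_
      by_cases hk : x ∈ O (a (p k))
      · exact (((V.sm k).pow 2).ofReal f hf _ (f.map_source xf)).mul
          ((mHOL n _ _).2.2 (h1' _ _ x hk hx f hf xf)).1
      · have cl := ((isCompact_closedBall (V.c k) (2 * V.ρ k)).image_of_continuousOn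
          ((V.e k).continuousOn_symm.mono ((sb k).trans (V.sub k)))).isClosed
        refine (contDiffAt_const (c := (0 : ℂ))).congr_of_eventuallyEq ?_
        filter_upwards [(f.continuousAt_symm (f.map_source xf)).eventually
          (cl.isOpen_compl.eventually_mem (by
            rw [f.left_inv xf]
            exact fun c => hk (hp k (image_mono (sb k) c))))] with y hy
        simp [not_not.1 fun c => hy (mem k _ c)]
  have B : ∀ b d x, x ∈ O b → x ∈ O d → h d x - h b x = L b d x := fun b d x hb hd => by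
    have s1 : ∑ k, ((V.χ k x ^ 2 : ℝ) : ℂ) = 1 := by
      rw [← ofReal_sum, V.sum x, ofReal_one]
    rw [← one_mul (L b d x), ← s1, Finset.sum_mul, ← Finset.sum_sub_distrib]
    refine Finset.sum_congr rfl fun k _ => ?_
    by_cases hk : V.χ k x = 0
    · simp [hk]
    · rw [← h2 _ b d x (hp k (image_mono (sb k) (mem k x hk))) hb hd]
      ring
  obtain ⟨u, u1, u2, u3⟩ := grn hK O (fun b => (hO b).1) a ha h A fun b d x hb hd f hf hx => by
    filter_upwards [h1' b d x hb hd f hf hx, ((f.continuousAt_symm (f.map_source hx)).eventually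
      (((hO b).1.inter (hO d).1).eventually_mem (by
        rw [f.left_inv hx]
        exact ⟨hb, hd⟩))).eventually_nhds] with w w1 w2
    exact w1.congr_of_eventuallyEq (w2.mono fun y hy => B b d _ hy.1 hy.2)
  obtain ⟨i1, -, -, -, -, -, i7, -⟩ := mINV n M H hH
  set ψ : M.X → ℝ := fun x => Real.log (H (e (a x)) (e (a x) x)).det.re - 2 * (h (a x) x).re
    with hψ
  have C : ∀ b, ∀ x ∈ O b, ψ x = Real.log (H (e b) (e b x)).det.re - 2 * (h b x).re :=
    fun b x hx => by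
      have q := i7.cmp _ (he b) _ (he (a x)) x ((hO b).2 hx) ((hO _).2 (ha x))
      have q2 := congrArg re (B b (a x) x hx (ha x))
      have q3 := h3 b (a x) x hx (ha x)
      simp only [hψ, sub_re, jd] at q q2 q3 ⊢
      linarith
  have D : ∀ x, ψ ∘ (e (a x)).symm =ᶠ[𝓝 (e (a x) x)] fun w =>
      Real.log (H (e (a x)) w).det.re - 2 * ((h (a x) ∘ (e (a x)).symm) w).re := fun x => by
    have s1 := (hO _).2 (ha x)
    filter_upwards [((e (a x)).continuousAt_symm ((e (a x)).map_source s1)).eventually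
      ((hO (a x)).1.eventually_mem (by rw [(e (a x)).left_inv s1]; exact ha x)),
      (e (a x)).open_target.eventually_mem ((e (a x)).map_source s1)] with w w1 w2
    rw [Function.comp_apply, C _ _ w1, (e (a x)).right_inv w2]
    rfl
  have sψ : M.Sm ψ := ((mTR n M).2.2.2.1 ℝ ψ).2.2 fun x => by
    have s1 := (hO _).2 (ha x)
    exact ⟨_, he _, s1, ((i7.sm _ (he _) _ ((e (a x)).map_source s1)).sub
      (contDiffAt_const.mul (cd_re (A _ x (ha x) _ (he _) s1)))).congr_of_eventuallyEq (D x)⟩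
  have key : ∀ x, M.tr H (M.ric H) x = -(M.lap H ψ x + 2 * u x) := fun x => by
    have s1 := (hO _).2 (ha x)
    have t1 := (e (a x)).map_source s1
    have s2 := A _ x (ha x) _ (he _) s1
    have s3 := sψ.lc _ (he _) _ t1
    have q : ld (H (e (a x))) =ᶠ[𝓝 (e (a x) x)] fun w => M.lc ψ (e (a x)) w +
        ((h (a x) ∘ (e (a x)).symm) w + star ((h (a x) ∘ (e (a x)).symm) w)) := by
      filter_upwards [D x] with w hw
      have : ψ ((e (a x)).symm w) = _ := hw
      rw [Mf.lc, this, ld, RCLike.star_def, add_conj]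
      push_cast
      ring
    rw [Mf.lap, (i1 _ ((mHES n M).2.2.2.2.2.2.2.2.1 H hH).toTen).1.at (he _) s1,
      (i1 _ ((mHES n M).1 ψ sψ).toTen).1.at (he _) s1, u3 x _ (he _) s1]
    simp only [Mf.ric, Mf.hs]
    rw [hess_congr q, hess_add s3 (s2.add (cd_star s2)), hess_add s2 (cd_star s2), hess_star s2]
    simp only [Matrix.mul_neg, Matrix.mul_add, Matrix.trace_neg, Matrix.trace_add, neg_re, add_re,
      re_tr (hH.herm _ (he _) _ t1)]
    ring
  have il : Integrable (M.lap H ψ) (M.mu H) := (mMU n M H hH).2.2.2.2.1 ℝ _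
    (i1 _ ((mHES n M).1 ψ sψ).toTen).2.1.continuous
  simp only [key]
  rw [integral_neg, integral_add il (u1.const_mul 2), integral_const_mul, u2,
    ((mGRN n M).2 H ψ ψ hK sψ sψ).1]
  simp

theorem lam {c : ℝ} (hc : Irrational c) : ∃ l : ℝ →+ ℝ, l 1 = 0 ∧ l c = 1 := by
  have h : c ∉ Submodule.span ℚ {(1 : ℝ)} := fun h => by
    obtain ⟨q, hq⟩ := Submodule.mem_span_singleton.1 h
    exact hc ⟨q, by simpa using hq⟩
  obtain ⟨f, f1, f2⟩ := Submodule.exists_le_ker_of_notMem h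
  have f3 : f 1 = 0 := f2 (Submodule.mem_span_singleton_self _)
  refine ⟨AddMonoidHom.mk' (fun x => ((f x / f c : ℚ) : ℝ)) fun x y => ?_, ?_, ?_⟩
  · rw [map_add, add_div, Rat.cast_add]
  · simp [f3]
  · simp [f1]

/-- The corrected logarithm. -/
def ph (c : ℝ) (l : ℝ →+ ℝ) (j γ : ℂ) : ℂ :=
  log j + 2 * Real.pi * I * l ((log γ - c * log j) / (2 * Real.pi * I)).re

theorem ph_eq {c : ℝ} {l : ℝ →+ ℝ} (l1 : l 1 = 0) (lc : l c = 1) (s : ℂ) (t : ℝ) :
    ph c l (exp s) (exp (2 * Real.pi * I * t + c * s)) = s + 2 * Real.pi * I * l t := by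
  obtain ⟨k, hk⟩ := exp_eq_exp_iff_exists_int.1 (exp_log (exp_ne_zero s))
  obtain ⟨m, hm⟩ := exp_eq_exp_iff_exists_int.1
    (exp_log (exp_ne_zero (2 * Real.pi * I * t + c * s)))
  have q : (2 * Real.pi * I * t + c * s + m * (2 * Real.pi * I) - c * (s + k * (2 * Real.pi * I))) /
      (2 * Real.pi * I) = ((t + m • (1 : ℝ) - k • c : ℝ) : ℂ) := by
    rw [div_eq_iff two_pi_I_ne_zero]
    simp only [zsmul_eq_mul]
    push_cast
    ring
  rw [ph, hm, hk, q, ofReal_re, map_sub, map_add, map_zsmul, map_zsmul, l1, lc]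
  simp only [zsmul_eq_mul]
  push_cast
  ring

theorem loc {c : ℝ} {j g : E n → ℂ} {z : E n} (hj : HolN j z) (j0 : j z ≠ 0) (hg : HolN g z)
    (h : ∀ᶠ w in 𝓝 z, ‖g w‖ = ‖j w‖ ^ c) : ∃ (s : E n → ℂ) (t : ℝ), HolN s z ∧
      ∀ᶠ w in 𝓝 z, j w = exp (s w) ∧ g w = exp (2 * Real.pi * I * t + c * s w) := by
  have c1 : ∀ᶠ w in 𝓝 z, j w / j z ∈ slitPlane :=
    (hj.self_of_nhds.continuousAt.div_const _).eventually
      (isOpen_slitPlane.mem_nhds (by simp [j0]))
  set s : E n → ℂ := fun w => log (j w / j z) + log (j z) with hs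
  have s1 : HolN s z := by
    filter_upwards [hj, c1] with w w1 w2
    exact (DifferentiableAt.clog (f := fun w => j w / j z) (w1.mul_const _) w2).add_const _
  have s2 : ∀ᶠ w in 𝓝 z, j w = exp (s w) := c1.mono fun w hw => by
    rw [hs, exp_add, exp_log (slitPlane_ne_zero hw), exp_log j0, div_mul_cancel₀ _ j0]
  have n1 : ∀ᶠ w in 𝓝 z, ‖g w * exp (-(c * s w))‖ = 1 := by
    filter_upwards [h, s2] with w w1 w2
    rw [norm_mul, w1, w2, norm_exp, norm_exp, ← Real.exp_mul, ← Real.exp_add]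
    simp [mul_comm]
  have k := eventually_eq_of_isLocalMax_norm (f := fun w => g w * exp (-(c * s w))) (c := z)
    (by
      filter_upwards [hg, s1] with w w1 w2
      exact w1.mul (w2.const_mul _).neg.cexp)
    (n1.mono fun w hw => (hw.trans n1.self_of_nhds.symm).le)
  refine ⟨s, arg (g z * exp (-(c * s z))) / (2 * Real.pi), s1, ?_⟩
  filter_upwards [s2, k] with w w1 w2
  refine ⟨w1, ?_⟩
  have a := norm_mul_exp_arg_mul_I (g z * exp (-(c * s z)))
  rw [n1.self_of_nhds, ofReal_one, one_mul] at a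
  have b : 2 * (Real.pi : ℂ) * I * ((arg (g z * exp (-(c * s z))) / (2 * Real.pi) : ℝ) : ℂ) =
      arg (g z * exp (-(c * s z))) * I := by
    have : (Real.pi : ℂ) ≠ 0 := ofReal_ne_zero.2 Real.pi_ne_zero
    push_cast
    field_simp
  rw [exp_add, b, a, ← w2, mul_assoc, ← exp_add, neg_add_cancel, exp_zero, mul_one]

end I78

open I78 in
/-- An irrational power of the canonical bundle has a unitary model only in degree zero. -/
theorem irr78 {n : ℕ} (M : Mf n) [M.Cpt] (H : M.Fam (Mat n)) (hK : M.Kae H) (c : ℝ)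
    (hc : Irrational c) {ι : Type} (e : ι → M.Ch) (he : ∀ a, e a ∈ M.C) (O : ι → Set M.X)
    (hO : ∀ a, IsOpen (O a) ∧ O a ⊆ (e a).source) (hv : ∀ x, ∃ a, x ∈ O a)
    (g : ι → ι → M.X → ℂ)
    (h1 : ∀ a b x, x ∈ O a → x ∈ O b → DifferentiableAt ℂ (g a b ∘ (e b).symm) (e b x))
    (h2 : ∀ a b d x, x ∈ O a → x ∈ O b → x ∈ O d → g a d x = g a b x * g b d x)
    (h3 : ∀ a b x, x ∈ O a → x ∈ O b → ‖g a b x‖ = ‖jd M (e a) (e b) x‖ ^ c) :
    ∫ x, M.tr H (M.ric H) x ∂M.mu H = 0 := by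
  obtain ⟨l, l1, lc⟩ := lam hc
  have T := (mTR n M).2.1
  have K : ∀ a b x, x ∈ O a → x ∈ O b → ∃ (s : E n → ℂ) (t : ℝ), HolN s (e b x) ∧
      ∀ᶠ w in 𝓝 (e b x), jd M (e a) (e b) ((e b).symm w) = exp (s w) ∧
        g a b ((e b).symm w) = exp (2 * Real.pi * I * t + c * s w) := fun a b x xa xb => by
    have s1 := (hO b).2 xb
    obtain ⟨t1, t0, -, t2, -⟩ := T _ (he a) _ (he b) x ((hO a).2 xa) s1
    have m : ∀ᶠ w in 𝓝 (e b x), (e b).symm w ∈ O a ∩ O b :=
      ((e b).continuousAt_symm ((e b).map_source s1)).eventually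
        (((hO a).1.inter (hO b).1).eventually_mem (by
          rw [(e b).left_inv s1]
          exact ⟨xa, xb⟩))
    refine loc (j := fun w => jd M (e a) (e b) ((e b).symm w)) (g := g a b ∘ (e b).symm) ?_
      (by rwa [(e b).left_inv s1]) ?_ (m.mono fun w hw => h3 a b _ hw.1 hw.2)
    · filter_upwards [(mCHN n _ _ t1).2.2.2.2.1, t2.eventually_nhds] with w w1 w2
      exact w1.congr_of_eventuallyEq (w2.mono fun y hy => congrArg Matrix.det hy.2.2.2.2.2.2)
    · filter_upwards [m, t2] with w w1 w2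
      have := h1 a b _ w1.1 w1.2
      rwa [w2.2.2.2.2.2.1] at this
  have K0 : ∀ a b x, x ∈ O a → x ∈ O b → ∃ (s : ℂ) (t : ℝ), jd M (e a) (e b) x = exp s ∧
      g a b x = exp (2 * Real.pi * I * t + c * s) := fun a b x xa xb => by
    obtain ⟨s, t, -, h⟩ := K a b x xa xb
    have := h.self_of_nhds
    rw [(e b).left_inv ((hO b).2 xb)] at this
    exact ⟨_, t, this⟩
  refine deg hK e he O hO hv (fun a b x => ph c l (jd M (e a) (e b) x) (g a b x))
    (fun a b x xa xb => ?_) (fun a b d x xa xb xd => ?_) fun a b x xa xb => ?_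
  · obtain ⟨s, t, s1, h⟩ := K a b x xa xb
    filter_upwards [s1, h.eventually_nhds] with w w1 w2
    refine (w1.add_const (2 * Real.pi * I * l t)).congr_of_eventuallyEq (w2.mono fun y hy => ?_)
    simp only [Function.comp_apply, hy.1, hy.2, ph_eq l1 lc]
  · obtain ⟨s, t, p1, p2⟩ := K0 a b x xa xb
    obtain ⟨s', t', q1, q2⟩ := K0 b d x xb xd
    have r1 : jd M (e a) (e d) x = exp (s + s') := by
      rw [exp_add, ← p1, ← q1, jd, (T _ (he a) _ (he b) x ((hO a).2 xa) ((hO b).2 xb)).2.2.2.2 _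
        (he d) ((hO d).2 xd), Matrix.det_mul]
    have r2 : g a d x = exp (2 * Real.pi * I * (t + t' : ℝ) + c * (s + s')) := by
      rw [h2 a b d x xa xb xd, p2, q2, ← exp_add]
      congr 1
      push_cast
      ring
    rw [p1, p2, q1, q2, r1, r2, ph_eq l1 lc, ph_eq l1 lc, ph_eq l1 lc, map_add]
    push_cast
    ring
  · obtain ⟨s, t, p1, p2⟩ := K0 a b x xa xb
    rw [p1, p2, ph_eq l1 lc, normSq_eq_norm_sq, norm_exp, Real.log_pow, Real.log_exp]
    simp

end Pool.Agent.Lib.F4H
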