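import Mathlib

open Filter Topology Set Metric

namespace F4H.L83

/-- one variable: if g has order at most d and a vanishes where g does, a ^ (d+1) / g is analytic -/
theorem div_an {a g : ℂ → ℂ} {z : ℂ} {d : ℕ} (ha : AnalyticAt ℂ a z) (hg : AnalyticAt ℂ g z)
    (hd : iteratedDeriv d g z ≠ 0) (h0 : g z = 0 → a z = 0) :
    AnalyticAt ℂ (fun w => a w ^ (d + 1) / g w) z := by
  by_cases hz : g z = 0
  · have hne : analyticOrderAt g z ≠ ⊤ := by
      intro h
      rw [analyticOrderAt_eq_top] at h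
      apply hd
      have h1 : iteratedDeriv d g z = iteratedDeriv d (fun _ : ℂ => (0 : ℂ)) z :=
        Filter.EventuallyEq.iteratedDeriv_eq d h
      rw [h1]
      simp
    obtain ⟨k, hk⟩ := ENat.ne_top_iff_exists.1 hne
    have hkd : k ≤ d := by
      by_contra hlt
      have h1 : ((d + 1 : ℕ) : ℕ∞) ≤ analyticOrderAt g z := by
        rw [← hk]
        exact_mod_cast (by omega : d + 1 ≤ k)
      rw [natCast_le_analyticOrderAt_iff_iteratedDeriv_eq_zero hg] at h1
      exact hd (h1 d (by omega))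
    obtain ⟨g1, hg1, hg0, hge⟩ := (hg.analyticOrderAt_eq_natCast).1 hk.symm
    have ha1 : ((1 : ℕ) : ℕ∞) ≤ analyticOrderAt a z := by
      rw [natCast_le_analyticOrderAt_iff_iteratedDeriv_eq_zero ha]
      intro i hi
      have : i = 0 := by omega
      subst this
      simpa using h0 hz
    obtain ⟨a1, ha1, hae⟩ := (natCast_le_analyticOrderAt ha).1 ha1
    have hF : AnalyticAt ℂ (fun w => (w - z) ^ (d + 1 - k) * a1 w ^ (d + 1) / g1 w) z :=
      (((analyticAt_id.sub analyticAt_const).pow _).mul (ha1.pow _)).div hg1 hg0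
    refine hF.congr ?_
    filter_upwards [hge, hae, hg1.continuousAt.eventually_ne hg0] with w h1 h2 h3
    rw [h1, h2]
    simp only [smul_eq_mul, pow_one]
    by_cases hw : w - z = 0
    · have e1 : d + 1 - k ≠ 0 := by omega
      simp [hw, e1]
    · have e2 : (w - z) ^ (d + 1) = (w - z) ^ (d + 1 - k) * (w - z) ^ k := by
        rw [← pow_add]
        exact congrArg _ (by omega)
      rw [mul_pow, e2]
      field_simp
  · exact (ha.pow _).div hg hz

variable {E : Type*} [NormedAddCommGroup E] [NormedSpace ℂ E]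

/-- iterated derivative along v -/
noncomputable def dI (l : E → ℂ) (v : E) : ℕ → E → ℂ
  | 0 => l
  | n + 1 => fun y => fderiv ℂ (dI l v n) y v

theorem dI_an {l : E → ℂ} (v : E) (n : ℕ) : ∀ y, AnalyticAt ℂ l y → AnalyticAt ℂ (dI l v n) y := by
  induction n with
  | zero => exact fun _ h => h
  | succ n ih =>
    intro y h
    exact ((ContinuousLinearMap.apply ℂ ℂ v).analyticAt _).comp (ih y h).fderiv

theorem line_an (y v : E) (z : ℂ) : AnalyticAt ℂ (fun w : ℂ => y + w • v) z :=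
  analyticAt_const.add (analyticAt_id.smul analyticAt_const)

theorem dI_line {l : E → ℂ} (v y : E) (n : ℕ) : ∀ z : ℂ, AnalyticAt ℂ l (y + z • v) →
    iteratedDeriv n (fun w : ℂ => l (y + w • v)) z = dI l v n (y + z • v) := by
  induction n with
  | zero => intro z _; rfl
  | succ n ih =>
    intro z h
    rw [iteratedDeriv_succ]
    have h1 : ∀ᶠ w in 𝓝 z, AnalyticAt ℂ l (y + w • v) :=
      (line_an y v z).continuousAt.eventually h.eventually_analyticAt
    have h2 : iteratedDeriv n (fun w : ℂ => l (y + w • v)) =ᶠ[𝓝 z]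
        fun w => dI l v n (y + w • v) := h1.mono fun w hw => ih w hw
    rw [h2.deriv_eq]
    have h3 : HasDerivAt (fun w : ℂ => y + w • v) v z := by
      simpa using ((hasDerivAt_id z).smul_const v).const_add y
    exact ((dI_an v n _ h).differentiableAt.hasFDerivAt.comp_hasDerivAt z h3).deriv

/-- a direction along which l is not locally zero -/
theorem dir {l : E → ℂ} {x : E} (hl : AnalyticAt ℂ l x) (h0 : ¬ ∀ᶠ y in 𝓝 x, l y = 0) :
    ∃ v : E, ¬ ∀ᶠ w in 𝓝 (0 : ℂ), l (x + w • v) = 0 := by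
  by_contra hc
  push Not at hc
  apply h0
  obtain ⟨ρ, hρ, hb⟩ := Metric.eventually_nhds_iff_ball.1 hl.eventually_analyticAt
  filter_upwards [ball_mem_nhds x (half_pos hρ)] with y hy
  have hA : AnalyticOnNhd ℂ (fun w : ℂ => l (x + w • (y - x))) (ball 0 2) := by
    intro w hw
    refine AnalyticAt.comp' (hb _ ?_) (line_an x (y - x) w)
    rw [mem_ball, dist_eq_norm] at hy
    rw [mem_ball_zero_iff] at hw
    rw [mem_ball, dist_eq_norm, add_sub_cancel_left, norm_smul]
    nlinarith [norm_nonneg w, norm_nonneg (y - x)]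
  have h1 := hA.eqOn_zero_of_preconnected_of_eventuallyEq_zero (convex_ball (0 : ℂ) 2).isPreconnected
    (mem_ball_self two_pos) (hc (y - x)) (show (1 : ℂ) ∈ ball 0 2 by simp)
  simpa using h1

/-- core: the exponent depends on l only -/
theorem core {l : E → ℂ} {x : E} (hl : AnalyticAt ℂ l x) (h0 : ¬ ∀ᶠ y in 𝓝 x, l y = 0) :
    ∃ d : ℕ, ∀ a : E → ℂ, AnalyticAt ℂ a x → (∀ᶠ y in 𝓝 x, l y = 0 → a y = 0) →
      ∃ C : ℝ, 0 < C ∧ ∀ᶠ y in 𝓝 x, ‖a y‖ ^ (d + 1) ≤ C * ‖l y‖ := by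
  obtain ⟨v, hv⟩ := dir hl h0
  have hx0 : x + (0 : ℂ) • v = x := by simp
  have hg : AnalyticAt ℂ (fun w : ℂ => l (x + w • v)) 0 :=
    AnalyticAt.comp' (by rw [hx0]; exact hl) (line_an x v 0)
  have hne : analyticOrderAt (fun w : ℂ => l (x + w • v)) 0 ≠ ⊤ := fun h =>
    hv (analyticOrderAt_eq_top.1 h)
  obtain ⟨d, hk⟩ := ENat.ne_top_iff_exists.1 hne
  have hd : dI l v d x ≠ 0 := by
    intro h
    have h1 : ((d + 1 : ℕ) : ℕ∞) ≤ analyticOrderAt (fun w : ℂ => l (x + w • v)) 0 := by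
      rw [natCast_le_analyticOrderAt_iff_iteratedDeriv_eq_zero hg]
      intro i hi
      rcases Nat.lt_succ_iff_lt_or_eq.1 hi with h2 | h2
      · exact (natCast_le_analyticOrderAt_iff_iteratedDeriv_eq_zero hg).1 hk.le i h2
      · rw [h2, dI_line v x d 0 (by rw [hx0]; exact hl), hx0, h]
    rw [← hk] at h1
    have : d + 1 ≤ d := by exact_mod_cast h1
    omega
  refine ⟨d, fun a ha hz => ?_⟩
  have hW : ∀ᶠ y in 𝓝 x, AnalyticAt ℂ l y ∧ AnalyticAt ℂ a y ∧ dI l v d y ≠ 0 ∧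
      (l y = 0 → a y = 0) :=
    hl.eventually_analyticAt.and (ha.eventually_analyticAt.and
      (((dI_an v d x hl).continuousAt.eventually_ne hd).and hz))
  obtain ⟨ρ, hρ, hb⟩ := Metric.eventually_nhds_iff_ball.1 hW
  have hiso : ∀ᶠ w in 𝓝[≠] (0 : ℂ), l (x + w • v) ≠ 0 :=
    hg.eventually_eq_zero_or_eventually_ne_zero.resolve_left hv
  obtain ⟨r0, hr0, hr⟩ := Metric.eventually_nhds_iff_ball.1 (eventually_nhdsWithin_iff.1 hiso)
  obtain ⟨r, hrp, hr1, hr2⟩ : ∃ r : ℝ, 0 < r ∧ r < r0 ∧ r * ‖v‖ < ρ / 2 := by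
    have hv1 : 0 < ‖v‖ + 1 := by positivity
    refine ⟨min (r0 / 2) (ρ / 2 / (‖v‖ + 1)), by positivity,
      (min_le_left _ _).trans_lt (half_lt_self hr0), ?_⟩
    calc min (r0 / 2) (ρ / 2 / (‖v‖ + 1)) * ‖v‖ ≤ ρ / 2 / (‖v‖ + 1) * ‖v‖ :=
          mul_le_mul_of_nonneg_right (min_le_right _ _) (norm_nonneg _)
      _ < ρ / 2 / (‖v‖ + 1) * (‖v‖ + 1) := mul_lt_mul_of_pos_left (by linarith) (by positivity)
      _ = ρ / 2 := by field_simp
  have hin : ∀ y ∈ ball x (ρ / 2), ∀ w ∈ closedBall (0 : ℂ) r, y + w • v ∈ ball x ρ := by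
    intro y hy w hw
    rw [mem_ball, dist_eq_norm] at hy ⊢
    rw [mem_closedBall_zero_iff] at hw
    have e : y + w • v - x = (y - x) + w • v := by abel
    rw [e]
    have h1 := norm_add_le (y - x) (w • v)
    rw [norm_smul] at h1
    nlinarith [norm_nonneg v]
  have hF : ∀ y ∈ ball x (ρ / 2), ∀ w ∈ closedBall (0 : ℂ) r,
      AnalyticAt ℂ (fun w : ℂ => a (y + w • v) ^ (d + 1) / l (y + w • v)) w := by
    intro y hy w hw
    obtain ⟨h1, h2, h3, h4⟩ := hb _ (hin y hy w hw)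
    refine div_an (AnalyticAt.comp' h2 (line_an y v w)) (AnalyticAt.comp' h1 (line_an y v w)) ?_ h4
    rw [dI_line v y d w h1]
    exact h3
  have hxb : x ∈ ball x (ρ / 2) := mem_ball_self (half_pos hρ)
  obtain ⟨M, hM⟩ := (isCompact_sphere (0 : ℂ) r).exists_bound_of_continuousOn
    (f := fun w : ℂ => a (x + w • v) ^ (d + 1) / l (x + w • v))
    fun w hw => (hF x hxb w (sphere_subset_closedBall hw)).continuousAt.continuousWithinAt
  have hT : ∀ᶠ y in 𝓝 x, ∀ w ∈ sphere (0 : ℂ) r,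
      ‖a (y + w • v) ^ (d + 1) / l (y + w • v)‖ < |M| + 1 := by
    refine (isCompact_sphere (0 : ℂ) r).eventually_forall_of_forall_eventually fun w hw => ?_
    obtain ⟨h1, h2, -, -⟩ := hb _ (hin x hxb w (sphere_subset_closedBall hw))
    have hw1 : ‖w‖ = r := mem_sphere_zero_iff_norm.1 hw
    have hl0 : l (x + w • v) ≠ 0 := hr w (by rw [mem_ball_zero_iff, hw1]; exact hr1)
      (by intro h; rw [mem_singleton_iff] at h; rw [h, norm_zero] at hw1; linarith)
    have hc : ContinuousAt (fun p : E × ℂ => p.1 + p.2 • v) (x, w) := by fun_prop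
    have hq : ContinuousAt (fun p : E × ℂ => ‖a (p.1 + p.2 • v) ^ (d + 1) / l (p.1 + p.2 • v)‖)
        (x, w) :=
      (((ContinuousAt.comp' (x := (x, w)) h2.continuousAt hc).pow _).div
        (ContinuousAt.comp' (x := (x, w)) h1.continuousAt hc) hl0).norm
    exact hq.eventually_lt continuousAt_const
      ((hM w hw).trans_lt (by linarith [le_abs_self M]))
  refine ⟨|M| + 1, by positivity, ?_⟩
  filter_upwards [hT, ball_mem_nhds x (half_pos hρ), hz] with y h1 hy h3
  have hdc : DiffContOnCl ℂ (fun w : ℂ => a (y + w • v) ^ (d + 1) / l (y + w • v)) (ball 0 r) := by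
    apply DifferentiableOn.diffContOnCl
    rw [closure_ball _ hrp.ne']
    exact fun w hw => (hF y hy w hw).differentiableAt.differentiableWithinAt
  have h4 := Complex.norm_le_of_forall_mem_frontier_norm_le isBounded_ball hdc
    (C := |M| + 1) (fun w hw => by
      rw [frontier_ball _ hrp.ne'] at hw
      exact (h1 w hw).le) (subset_closure (mem_ball_self hrp))
  simp only [zero_smul, add_zero, norm_div, norm_pow] at h4
  by_cases hl0 : l y = 0
  · simp [hl0, h3 hl0]
  · rwa [div_le_iff₀ (norm_pos_iff.2 hl0)] at h4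

/-- LOJ for a finite family -/
theorem loj {ι : Type*} [Finite ι] {l : E → ℂ} {a : ι → E → ℂ} {x : E} (hl : AnalyticAt ℂ l x)
    (ha : ∀ i, AnalyticAt ℂ (a i) x) (h0 : ¬ ∀ᶠ y in 𝓝 x, l y = 0)
    (hz : ∀ᶠ y in 𝓝 x, l y = 0 → ∀ i, a i y = 0) :
    ∃ d : ℕ, 0 < d ∧ ∃ C : ℝ, 0 < C ∧ ∀ᶠ y in 𝓝 x, ∀ i, ‖a i y‖ ^ d ≤ C * ‖l y‖ := by
  obtain ⟨d, hd⟩ := core hl h0
  have hF := Fintype.ofFinite ι
  choose C hC hE using fun i => hd (a i) (ha i) (hz.mono fun y hy h => hy h i)
  have hs : 0 ≤ ∑ i, C i := Finset.sum_nonneg fun i _ => (hC i).le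
  refine ⟨d + 1, Nat.succ_pos d, ∑ i, C i + 1, by linarith, ?_⟩
  filter_upwards [eventually_all.2 hE] with y hy i
  refine (hy i).trans (mul_le_mul_of_nonneg_right ?_ (norm_nonneg _))
  have := Finset.single_le_sum (fun j (_ : j ∈ Finset.univ) => (hC j).le) (Finset.mem_univ i)
  linarith

end F4H.L83
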