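import Pool.Agent.Lib.F4H.BlueM
import Pool.Agent.Lib.F4G.Prop19
import Pool.Agent.Lib.F4G.Flow62
import Pool.Agent.Lib.F4G.M_MTU

/-! Project f4h: propagation along chains of points, and tubes over a compact set. -/

open scoped Classical Topology ENNReal NNReal
open Set Filter MeasureTheory Metric

noncomputable section

namespace Pool.Agent.Lib.F4H

open Pool.Agent.Lib.SV (E)
open Pool.Agent.Lib.F4G Pool.Agent.Lib.F4G.P19

namespace Mge65

variable {n : ℕ} {ι : Type*} {l : Filter ι}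

/-- Along a connected set of regular points of a fibre. -/
theorem piece (hP : St_UP) (hL : St_LO) {U : Set (E n)} (hU : IsOpen U) {f : ι → E n → ℝ}
    {W : E n → ℂ} (hf : ∀ k, ContinuousOn (f k) U) (hW : DifferentiableOn ℂ W U)
    (hE : ∀ x ∈ U, fderiv ℂ W x ≠ 0 → ∃ a, (∀ k, Measurable (a k)) ∧ Cl l f W x a) {w : ℂ}
    {C : Set (E n)} (hc : IsPreconnected C) (cu : C ⊆ U) (cw : ∀ x ∈ C, W x = w)
    (hr : ∀ x ∈ C, fderiv ℂ W x ≠ 0) {b : ι → ℂ → ℝ} (hb : ∀ k, Measurable (b k)) {x : E n}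
    (hx : x ∈ C) (h : Cl l f W x b) : ∀ y ∈ C, Cl l f W y b := by
  intro y hy
  by_contra c
  have key : ∀ z ∈ C, z ∈ closure ({z | Cl l f W z b} ∩ C) → Cl l f W z b := by
    intro z hz hcl
    obtain ⟨a, ha, h1⟩ := hE z (cu hz) (hr z hz)
    obtain ⟨u, hu, h2, h3⟩ := mem_closure_iff_nhds.1 hcl _ h1.ev
    obtain ⟨d, hd, h5⟩ := uniq19 hL hU hf hW (cu h3) (hr u h3) ha hb hu h2
    exact back19 hP hU hf hW (cu hz) (hr z hz) ha hb h1 hd
      (by rwa [(cw z hz).trans (cw u h3).symm])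
  obtain ⟨z, h1, h2, h3⟩ := hc {z | Cl l f W z b} _ (isOpen_iff_mem_nhds.2 fun z hz => Cl.ev hz)
    (isClosed_closure (s := {z | Cl l f W z b} ∩ C)).isOpen_compl
    (fun z hz => or_iff_not_imp_right.2 fun h => key z hz (not_not.1 h)) ⟨x, hx, h⟩
    ⟨y, hy, fun h => c (key y hy h)⟩
  exact h3 (subset_closure ⟨h2, h1⟩)

theorem chain (hP : St_UP) (hL : St_LO) {V : Type} {O : V → Set (E n)} {W : V → E n → ℂ}
    {Com : V → E n → V → E n → Prop} {T : Set ℂ} {Mo : V → V → ℂ → ℂ} (G : Geo2 O W Com T Mo)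
    {f : ι → V → E n → ℝ} (eq : ∀ k v x v' x', Com v x v' x' → f k v x = f k v' x')
    (co : ∀ k v, ContinuousOn (f k v) (O v))
    (ex : ∀ v, ∀ x ∈ O v, fderiv ℂ (W v) x ≠ 0 →
      ∃ a, (∀ k, Measurable (a k)) ∧ Cl l (f · v) (W v) x a) {p q : V × E n}
    (h : Relation.ReflTransGen (StG O W Com T) p q) {a : ι → ℂ → ℝ} (ha : ∀ k, Measurable (a k))
    (hc : Cl l (f · q.1) (W q.1) q.2 a) :
    Cl l (f · p.1) (W p.1) p.2 fun k w => a k (Mo p.1 q.1 w) := by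
  have hm : ∀ v k, Measurable fun w => a k (Mo v q.1 w) := fun v k => (ha k).comp (G.mea _ _)
  induction h using Relation.ReflTransGen.head_induction_on with
  | refl => simpa only [G.rf] using hc
  | @head p r h1 _ ih =>
    obtain ⟨c | ⟨e, C, c1, c2, c3, c4, c5⟩, g⟩ := h1
    · obtain ⟨hx, hz, τ, B, hτ, e, ev⟩ := G.com _ _ _ _ c
      obtain ⟨O', o', t⟩ := ih
      have o2 := (G.opn r.1).mem_nhds hz
      rw [← e] at o' o2
      obtain ⟨N, o, C, hC, hg⟩ := chg volume B.injective hτ (inter_mem o' o2)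
      obtain ⟨O2, s2, o3, h3⟩ := _root_.mem_nhds_iff.1 (inter_mem o ev)
      refine ⟨O2, o3.mem_nhds h3, zero_of hC t fun k => ?_⟩
      refine le_trans ?_ ((hg _ (meas (G.opn _) inter_subset_right (co k _)
        (G.hol _).continuousOn (hm r.1 k))).trans
        (mul_le_mul_right (lintegral_mono_set inter_subset_left) _))
      refine le_trans (setLIntegral_mono' o3.measurableSet fun s hs => ?_)
        (lintegral_mono_set fun s hs => (s2 hs).1)
      beta_reduce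
      rw [eq k _ _ _ _ (s2 hs).2, G.coc _ _ _ _ (s2 hs).2]
    · rw [e] at ih
      exact piece hP hL (G.opn _) (co · _) (G.hol _) (ex _) c1 c2 c5
        (fun x hx => G.reg _ x (c2 hx) (by rwa [c5 x hx])) (hm _) c4 ih _ c3

end Mge65

theorem st_MGE2 : St_MGE2 := by
  intro n κ V l f O W Com T Mo G eq co ex v v' x hx x' N hN N' hN' a a' ha ha' t t' g ch
  have hP : St_UP := fun _ _ _ h1 h2 => pfUp62 h1 h2
  have hL : St_LO := fun _ _ _ h1 h2 => pfLo62 h1 h2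
  obtain ⟨d, d0, h⟩ := uniq19 hL (G.opn v) (co · v) (G.hol v) hx (G.reg v x hx g)
    ha (fun k => (ha' k).comp (G.mea v v')) ⟨N, hN, t⟩
    (Mge65.chain hP hL G eq co (fun u y hy h0 => by
      obtain ⟨Q, o, b, h1, h2⟩ := ex u y hy h0
      exact ⟨b, h1, Q, o, h2⟩) ch ha' ⟨N', hN', t'⟩)
  exact ⟨_, ball_mem_nhds _ d0, h⟩

theorem st_MTU2 : St_MTU2 := by
  intro n U W K N hU hW hK hreg hN
  have key : ∀ x : E n, ∃ (D : Set ℂ) (C : ℝ≥0), x ∈ U → fderiv ℂ W x ≠ 0 →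
      IsOpen D ∧ W x ∈ D ∧ D ⊆ W '' (U ∩ interior (N x)) ∧
        ∀ χ : ℂ → ℝ≥0∞, Measurable χ → ∫⁻ w in D, χ w ≤ C * ∫⁻ y in U ∩ N x, χ (W y) := by
    intro x
    by_cases hx : x ∈ U ∧ fderiv ℂ W x ≠ 0
    · obtain ⟨d, hd, C, hC⟩ := pfLo62 (hW.eventually_differentiableAt (hU.mem_nhds hx.1)) hx.2
        (U ∩ N x) (inter_mem (hU.mem_nhds hx.1) (hN x hx.1 hx.2))
      have him : W '' (U ∩ interior (N x)) ∈ 𝓝 (W x) := mtu_open hU hW hx.1 hx.2
        (inter_mem (hU.mem_nhds hx.1) (interior_mem_nhds.2 (hN x hx.1 hx.2)))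
      exact ⟨ball (W x) d ∩ interior (W '' (U ∩ interior (N x))), C, fun _ _ =>
        ⟨isOpen_ball.inter isOpen_interior, ⟨mem_ball_self hd, mem_interior_iff_mem_nhds.2 him⟩,
          fun w hw => interior_subset hw.2, fun χ hχ =>
            (lintegral_mono_set inter_subset_left).trans (hC χ hχ)⟩⟩
    · exact ⟨∅, 0, fun h1 h2 => absurd ⟨h1, h2⟩ hx⟩
  choose D C hD using key
  choose! p hpU hpW hp0 using hreg
  obtain ⟨t, ht, hcov⟩ := hK.elim_nhds_subcover (fun w => D (p w)) (fun w hw => by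
    obtain ⟨h1, h2, -, -⟩ := hD (p w) (hpU w hw) (hp0 w hw)
    rw [hpW w hw] at h2
    exact h1.mem_nhds h2)
  refine ⟨t.image p, D, (t.image p).sup C, fun w hw => ?_, fun x hx => ?_⟩
  · obtain ⟨u, hu, hwu⟩ := mem_iUnion₂.1 (hcov hw)
    exact mem_iUnion₂.2 ⟨p u, Finset.mem_image_of_mem p hu, hwu⟩
  · obtain ⟨u, hu, rfl⟩ := Finset.mem_image.1 hx
    obtain ⟨h1, -, h3, h4⟩ := hD (p u) (hpU u (ht u hu)) (hp0 u (ht u hu))
    exact ⟨hpU u (ht u hu), hp0 u (ht u hu), h1, h3, fun χ hχ => (h4 χ hχ).trans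
      (mul_le_mul_left (ENNReal.coe_le_coe.2 (Finset.le_sup hx)) _)⟩

end Pool.Agent.Lib.F4H
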