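import Pool.Agent.Lib.F4G.Flat93
import Pool.Agent.Lib.F4H.Defs
import Pool.Agent.Lib.F4H.Irr78
import Pool.Agent.Lib.SV.Hol85

/-! Project f4h: a divisor whose curvature is proportional to the canonical class. -/

open scoped Classical Topology ContDiff Matrix
open Set Filter Metric Complex

set_option linter.unusedVariables false

noncomputable section

namespace Pool.Agent.Lib.F4H.M51

open Pool.Agent.Lib.SV (E)
open Pool.Agent.Lib.HS32 Pool.Agent.Lib.F4 Pool.Agent.Lib.F4.M7 Pool.Agent.Lib.F4G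

variable {n : ℕ}

theorem fd0 {F : E n → ℝ} {z : E n} (h : DifferentiableAt ℝ F z)
    (h0 : ∀ j, dz j (fun w => (F w : ℂ)) z = 0) : HasFDerivAt F (0 : E n →L[ℝ] ℝ) z := by
  have a := Complex.ofRealCLM.hasFDerivAt.comp z h.hasFDerivAt
  have b : fderiv ℝ (fun w => (F w : ℂ)) z = _ := a.fderiv
  have c : ∀ j, fderiv ℝ F z (Pi.single j 1) = 0 ∧ fderiv ℝ F z (Pi.single j I) = 0 := fun j => by
    have := h0 j
    rw [dz, b, div_eq_zero_iff] at this
    have d := this.resolve_right two_ne_zero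
    have d1 := congrArg Complex.re d
    have d2 := congrArg Complex.im d
    simp at d1 d2
    exact ⟨d1, d2⟩
  refine h.hasFDerivAt.congr_fderiv (ContinuousLinearMap.ext fun v => ?_)
  have e : v = ∑ j, ((v j).re • (Pi.single j 1 : E n) + (v j).im • (Pi.single j I : E n)) := by
    funext i
    simp [Finset.sum_apply, Pi.single_apply, Finset.sum_add_distrib]
  rw [e, map_sum]
  simp only [map_add, map_smul, (c _).1, (c _).2, smul_zero, add_zero, Finset.sum_const_zero,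
    zero_apply]

/-- A pluriharmonic function is the logarithm of the squared norm of a holomorphic function. -/
theorem plh {k : E n → ℝ} {x : E n}
    (h : ∀ᶠ z in 𝓝 x, ContDiffAt ℝ 2 k z ∧ hess (fun w => (k w : ℂ)) z = 0) :
    ∃ T : E n → ℂ, ∀ᶠ z in 𝓝 x, DifferentiableAt ℂ T z ∧ normSq (T z) = Real.exp (k z) := by
  obtain ⟨T, hT⟩ := frameK (l := fun j => dz j fun w => (k w : ℂ)) (x := x)
    (h.mono fun z hz => Fl99.fl hz.1 hz.2)
  obtain ⟨r, hr, hb⟩ := Metric.eventually_nhds_iff_ball.1 (hT.eventually_nhds.and h)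
  set F : E n → ℝ := fun w => Real.log (normSq (T w)) - k w with hF
  have a : ∀ z ∈ ball x r, HasFDerivAt F (0 : E n →L[ℝ] ℝ) z := fun z hz => by
    obtain ⟨h1, h2, -⟩ := hb z hz
    have h3 := h1.self_of_nhds
    obtain ⟨l1, -, l2⟩ := ((mHOL n T z).2.2 (h1.mono fun w hw => hw.1.d)).2.2.2 h3.2.ne_zero
    have d1 := l1.differentiableAt (by simp)
    have d2 := h2.differentiableAt (by simp)
    refine fd0 (d1.sub d2) fun j => ?_
    have e : (fun w => (F w : ℂ)) = fun w => ((Real.log (normSq (T w)) : ℝ) : ℂ) - (k w : ℂ) :=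
      funext fun w => by simp only [hF, Complex.ofReal_sub]
    rw [e, dz_sub (cd_diff (cd_ofReal l1)) ((Fl99.cdr h2).differentiableAt (by simp)), l2 j,
      (mHOL n T z).2.1 h3.1.d j, h3.1.e j, mul_div_cancel_left₀ _ h3.2.ne_zero, sub_self]
  have c : ∀ z ∈ ball x r, F z = F x := fun z hz =>
    (convex_ball x r).is_const_of_fderivWithin_eq_zero (𝕜 := ℝ)
      (fun w hw => (a w hw).differentiableAt.differentiableWithinAt)
      (fun w hw => (a w hw).hasFDerivWithinAt.fderivWithin (isOpen_ball.uniqueDiffWithinAt hw))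
      hz (mem_ball_self hr)
  refine ⟨fun w => (Real.exp (-F x / 2) : ℝ) * T w, ?_⟩
  filter_upwards [ball_mem_nhds x hr] with z hz
  have h3 := (hb z hz).1.self_of_nhds
  refine ⟨h3.1.d.const_mul _, ?_⟩
  have p : 0 < normSq (T z) := normSq_pos.2 h3.2.ne_zero
  rw [map_mul, normSq_ofReal, ← Real.exp_add, ← Real.exp_log p, ← Real.exp_add, ← c z hz]
  simp only [hF]
  ring_nf

/-- Two holomorphic functions with the same modulus are proportional. -/
theorem cmod {A B : E n → ℂ} {x : E n}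
    (h : ∀ᶠ z in 𝓝 x, DifferentiableAt ℂ A z ∧ DifferentiableAt ℂ B z ∧ ‖A z‖ = ‖B z‖)
    (h0 : ∃ᶠ z in 𝓝 x, B z ≠ 0) : ∃ l : ℂ, ‖l‖ = 1 ∧ ∀ᶠ z in 𝓝 x, A z = l * B z := by
  obtain ⟨r, hr, hb⟩ := Metric.eventually_nhds_iff_ball.1 h.eventually_nhds
  obtain ⟨y, y0, hy⟩ := (h0.and_eventually (ball_mem_nhds x hr)).exists
  have h1 := hb y hy
  have h2 : ∀ᶠ z in 𝓝 y, B z ≠ 0 := h1.self_of_nhds.2.1.continuousAt.eventually_ne y0
  have h3 : ∀ᶠ z in 𝓝 y, ‖A z / B z‖ = 1 := by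
    filter_upwards [h1, h2] with z z1 z2
    rw [norm_div, z1.2.2, div_self (norm_ne_zero_iff.2 z2)]
  have h4 := Complex.eventually_eq_of_isLocalMax_norm (f := fun z => A z / B z) (c := y)
    (by filter_upwards [h1, h2] with z z1 z2 using z1.1.mul (z1.2.1.inv z2))
    (by filter_upwards [h3] with z z1 using (z1.trans h3.self_of_nhds.symm).le)
  refine ⟨A y / B y, h3.self_of_nhds, ?_⟩
  filter_upwards [ball_mem_nhds x hr] with z hz
  refine sub_eq_zero.1 (SV.H85.eq_zero_of_convex (f := fun z => A z - A y / B y * B z) isOpen_ball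
    (convex_ball x r) (fun w hw => ((hb w hw).self_of_nhds.1.sub
      ((hb w hw).self_of_nhds.2.1.const_mul _)).differentiableWithinAt) hy ?_ hz)
  filter_upwards [h4, h2] with w w1 w2
  rw [← w1, div_mul_cancel₀ _ w2, sub_self, Pi.zero_apply]

variable {M : Mf n}

/-- Local holomorphic functions whose squared norm for the weight `c φ` is the function `w`. -/
structure Lq (φ : M.Fam ℝ) (c : ℝ) (w : M.X → ℝ) (e : M.X → M.Ch) (O : M.X → Set M.X)
    (Q : M.X → E n → ℂ) : Prop where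
  he : ∀ a, e a ∈ M.C
  op : ∀ a, IsOpen (O a) ∧ O a ⊆ (e a).source
  me : ∀ a, a ∈ O a
  hol : ∀ a, ∀ x ∈ O a, DifferentiableAt ℂ (Q a) (e a x) ∧ ∃ᶠ y in 𝓝 x, Q a (e a y) ≠ 0
  nm : ∀ a, ∀ x ∈ O a, normSq (Q a (e a x)) = w x * Real.exp (c * φ (e a) (e a x))

theorem loc {φ : M.Fam ℝ} {Θ : M.Fam (Mat n)} {σ v : M.X → ℝ} {c : ℝ} (hφ : M.Wt 1 φ)
    (hσ : Dv M σ Θ) (hv : M.Sm v) (h : M.All fun e z => Θ e z + M.hs v e z = c • M.hw φ e z) :
    ∃ e O Q, Lq φ c (fun x => σ x * Real.exp (-v x)) e O Q := by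
  have h1 : ∀ a, ∃ e ∈ M.C, ∃ (O : Set M.X) (Q : E n → ℂ), (IsOpen O ∧ O ⊆ e.source) ∧ a ∈ O ∧
      (∀ x ∈ O, DifferentiableAt ℂ Q (e x) ∧ ∃ᶠ y in 𝓝 x, Q (e y) ≠ 0) ∧
      ∀ x ∈ O, normSq (Q (e x)) = σ x * Real.exp (-v x) * Real.exp (c * φ e (e x)) := fun a => by
    obtain ⟨e, he, ha, q, g, q0, hq⟩ := hσ.dl a
    obtain ⟨r, hr, hb⟩ := Metric.eventually_nhds_iff_ball.1
      (hq.eventually_nhds.and (e.open_target.eventually_mem (e.map_source ha)))
    have fq : ∀ z ∈ ball (e a) r, ∃ᶠ w in 𝓝 z, q w ≠ 0 := fun z hz c0 => q0 (by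
      filter_upwards [ball_mem_nhds _ hr] with w hw
      exact not_not.2 (SV.H85.eq_zero_of_convex isOpen_ball (convex_ball _ r)
        (fun y hy => (hb y hy).1.self_of_nhds.1.differentiableWithinAt) hz
        (c0.mono fun y hy => not_not.1 hy) hw))
    obtain ⟨T, hT⟩ := plh (k := fun z => g z - v (e.symm z) + c * φ e z) (x := e a) (by
      filter_upwards [ball_mem_nhds _ hr] with z hz
      obtain ⟨z1, z2⟩ := hb z hz
      have d1 := z1.self_of_nhds.2.1
      have d2 : ContDiffAt ℝ ∞ (fun w => v (e.symm w)) z := hv e he z z2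
      have d3 := hφ.sm e he z z2
      refine ⟨((d1.sub d2).add (contDiffAt_const.mul d3)).of_le (WithTop.coe_le_coe.2 le_top), ?_⟩
      have e1 := h e he z z2
      beta_reduce at e1
      rw [hσ.eq e he z z2 q g (fq z hz) z1] at e1
      have e2 : (fun w => ((g w - v (e.symm w) + c * φ e w : ℝ) : ℂ)) =
          fun w => ((g w : ℂ) - (v (e.symm w) : ℂ)) + (c : ℂ) * (φ e w : ℂ) :=
        funext fun w => by push_cast; rfl
      rw [e2, hess_add ((cd_ofReal d1).sub (cd_ofReal d2)) (contDiffAt_const.mul (cd_ofReal d3)),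
        hess_sub (cd_ofReal d1) (cd_ofReal d2), hess_const_mul _ (cd_ofReal d3)]
      have e3 : (c : ℂ) • hess (fun w => (φ e w : ℂ)) z = c • M.hw φ e z :=
        Complex.coe_smul c _
      rw [e3, ← e1]
      change _ - _ + (_ + hess (fun w => (v (e.symm w) : ℂ)) z) = 0
      abel)
    obtain ⟨U, hU, u1, u2⟩ := _root_.eventually_nhds_iff.1 (hT.and (ball_mem_nhds _ hr))
    have t0 : ∀ z ∈ U, T z ≠ 0 := fun z hz c0 => by
      have := (hU z hz).1.2
      rw [c0, map_zero] at this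
      exact (Real.exp_pos _).ne this
    refine ⟨e, he, e.source ∩ e ⁻¹' U, fun z => q z * T z,
      ⟨e.isOpen_inter_preimage u1, inter_subset_left⟩, ⟨ha, u2⟩, fun x hx => ⟨?_, ?_⟩,
      fun x hx => ?_⟩
    · exact (hb _ (hU _ hx.2).2).1.self_of_nhds.1.mul (hU _ hx.2).1.1
    · have a1 := ((fq _ (hU _ hx.2).2).and_eventually (u1.eventually_mem hx.2)).mono
        fun w hw => mul_ne_zero hw.1 (t0 w hw.2)
      rw [← e.map_nhds_eq hx.1, frequently_map] at a1
      exact a1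
    · have a1 := (hb _ (hU _ hx.2).2).1.self_of_nhds.2.2
      rw [e.left_inv hx.1] at a1
      rw [map_mul, (hU _ hx.2).1.2, a1, e.left_inv hx.1, mul_assoc, mul_assoc, ← Real.exp_add,
        ← Real.exp_add]
      ring_nf
  choose e he O Q h2 h3 h4 h5 using h1
  exact ⟨e, O, Q, he, h2, h3, h4, h5⟩

variable {φ : M.Fam ℝ} {c : ℝ} {w : M.X → ℝ} {e : M.X → M.Ch} {O : M.X → Set M.X}
  {Q : M.X → E n → ℂ}

/-- The comparison on an overlap, read in the second chart. -/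
theorem Lq.ov (h : Lq φ c w e O Q) (hφ : M.Wt 1 φ) {a b x : M.X} (ha : x ∈ O a) (hb : x ∈ O b) :
    (∀ᶠ z in 𝓝 (e b x), DifferentiableAt ℂ (Q b) z ∧
      DifferentiableAt ℂ (fun y => Q a (e a ((e b).symm y))) z ∧
      DifferentiableAt ℂ (fun y => (jm (e a ∘ (e b).symm) y).det) z ∧
      (jm (e a ∘ (e b).symm) z).det ≠ 0 ∧
      ‖Q b z‖ = ‖(jm (e a ∘ (e b).symm) z).det‖ ^ c * ‖Q a (e a ((e b).symm z))‖) ∧
    ∃ᶠ z in 𝓝 (e b x), Q a (e a ((e b).symm z)) ≠ 0 := by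
  have s1 := (h.op b).2 hb
  have m1 : ∀ᶠ y in 𝓝 x, y ∈ O a ∧ y ∈ O b := ((h.op a).1.inter (h.op b).1).mem_nhds ⟨ha, hb⟩
  have m2 := ((e b).continuousAt_symm ((e b).map_source s1)).eventually
    (((e b).left_inv s1).symm ▸ m1)
  refine ⟨?_, ?_⟩
  · filter_upwards [m2, (e b).open_target.eventually_mem ((e b).map_source s1)] with z hz ht
    have sa := (h.op a).2 hz.1
    have sb := (h.op b).2 hz.2
    obtain ⟨h1, h0, -⟩ := (mTR n M).2.1 _ (h.he a) _ (h.he b) _ sa sb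
    have c5 := (mCHN n _ _ h1).2.2.2.2.1
    have k1 := h.nm a _ hz.1
    have k2 := h.nm b _ hz.2
    have k3 := hφ.cmp _ (h.he a) _ (h.he b) _ sa sb
    have k4 := (h.hol b _ hz.2).1
    simp only [Mf.J] at h0 k3
    rw [(e b).right_inv ht] at h1 c5 h0 k2 k3 k4
    refine ⟨k4, DifferentiableAt.comp z (g := Q a) (h.hol a _ hz.1).1 h1.self_of_nhds,
      c5.self_of_nhds, h0, ?_⟩
    have p := norm_pos_iff.2 h0
    refine (pow_left_inj₀ (norm_nonneg _) (by positivity) two_ne_zero).1 ?_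
    rw [mul_pow, ← normSq_eq_norm_sq, ← normSq_eq_norm_sq, k1, k2, k3, normSq_eq_norm_sq,
      Real.log_pow, Real.rpow_def_of_pos p, ← Real.exp_nat_mul, mul_add, Real.exp_add]
    ring_nf
  · rw [← (e b).map_nhds_eq s1, frequently_map]
    exact ((h.hol a x ha).2.and_eventually m1).mono fun y hy => by
      rw [(e b).left_inv ((h.op b).2 hy.2.2)]
      exact hy.1

/-- The rational case. -/
theorem Lq.rat [M.Cpt] (h : Lq φ c w e O Q) (hP : KP.St_POI) (hφ : M.Wt 1 φ) {H : M.Fam (Mat n)}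
    (hn : 0 < n) (hK : M.Kae H) (hq : ∀ ρ, H1 M 0 ρ → Zr M ρ) {p r : ℕ} (hp : 0 < p) (hr : 0 < r)
    (hc : c * r = p) : Plu M := by
  obtain ⟨m, m0, s, s1, s2⟩ := sec93 M (tor93 hP M H hn hK hq) e h.he O h.op
    (fun x => ⟨x, h.me x⟩) (fun a z => Q a z ^ r) p
    (fun a x hx => ⟨(h.hol a x hx).1.fun_pow r,
      (h.hol a x hx).2.mono fun y hy => pow_ne_zero r hy⟩) fun a b x ha hb => by
      obtain ⟨k1, k2⟩ := h.ov hφ ha hb
      obtain ⟨l, l1, l2⟩ := cmod (A := fun z => Q b z ^ r) (x := e b x)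
        (B := fun z => (jm (e a ∘ (e b).symm) z).det ^ p * Q a (e a ((e b).symm z)) ^ r)
        (k1.mono fun z hz => ⟨hz.1.fun_pow r, (hz.2.2.1.fun_pow p).mul (hz.2.1.fun_pow r), by
          rw [norm_mul, norm_pow, norm_pow, norm_pow, hz.2.2.2.2, mul_pow,
            ← Real.rpow_mul_natCast (norm_nonneg _), hc, Real.rpow_natCast]⟩)
        ((k2.and_eventually k1).mono fun z hz =>
          mul_ne_zero (pow_ne_zero p hz.2.2.2.2.1) (pow_ne_zero r hz.1))
      have s1 := (h.op b).2 hb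
      refine ⟨l, fun c0 => by simp [c0] at l1, ?_⟩
      filter_upwards [((e b).continuousAt s1).eventually l2,
        (e b).open_source.eventually_mem s1] with y y1 y2
      rw [y1, (e b).left_inv y2, mul_assoc]
      rfl
  exact ⟨_, Nat.mul_pos hp m0, s, s1, s2⟩

/-- The germ of the transition function. -/
theorem Lq.germ (h : Lq φ c w e O Q) (hφ : M.Wt 1 φ) {a b x : M.X} (ha : x ∈ O a) (hb : x ∈ O b) :
    ∃ γ : E n → ℂ, ∀ᶠ z in 𝓝 (e b x), DifferentiableAt ℂ γ z ∧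
      ‖γ z‖ = ‖(jm (e a ∘ (e b).symm) z).det‖ ^ c ∧ Q b z = γ z * Q a (e a ((e b).symm z)) := by
  obtain ⟨k1, k2⟩ := h.ov hφ ha hb
  set j : E n → ℂ := fun z => (jm (e a ∘ (e b).symm) z).det with hj
  have j0 : j (e b x) ≠ 0 := k1.self_of_nhds.2.2.2.1
  have j1 : ∀ᶠ z in 𝓝 (e b x), j z / j (e b x) ∈ slitPlane :=
    (k1.self_of_nhds.2.2.1.continuousAt.div_const _).eventually
      (isOpen_slitPlane.mem_nhds (by beta_reduce; rw [div_self j0]; exact one_mem_slitPlane))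
  set γ : E n → ℂ := fun z => ((‖j (e b x)‖ ^ c : ℝ) : ℂ) * exp (c * log (j z / j (e b x))) with hγ
  have k3 : ∀ᶠ z in 𝓝 (e b x), DifferentiableAt ℂ γ z ∧ ‖γ z‖ = ‖j z‖ ^ c := by
    filter_upwards [k1, j1] with z hz z1
    refine ⟨((((hz.2.2.1.mul_const _).clog z1).const_mul _).cexp).const_mul _, ?_⟩
    have p0 := norm_pos_iff.2 j0
    have p1 : 0 < ‖j z‖ := norm_pos_iff.2 hz.2.2.2.1
    rw [hγ, norm_mul, norm_real, norm_exp, re_ofReal_mul, log_re, norm_div, mul_comm c,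
      ← Real.rpow_def_of_pos (div_pos p1 p0), Real.norm_of_nonneg (by positivity),
      ← Real.mul_rpow p0.le (div_pos p1 p0).le, mul_div_cancel₀ _ p0.ne']
  obtain ⟨l, l1, l2⟩ := cmod (A := Q b) (x := e b x)
    (B := fun z => γ z * Q a (e a ((e b).symm z)))
    ((k1.and k3).mono fun z hz => ⟨hz.1.1, hz.2.1.mul hz.1.2.1, by
      rw [norm_mul, hz.2.2, hz.1.2.2.2.2]⟩)
    ((k2.and_eventually (k1.and k3)).mono fun z hz => mul_ne_zero (norm_pos_iff.1 (by
      rw [hz.2.2.2]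
      exact Real.rpow_pos_of_pos (norm_pos_iff.2 hz.2.1.2.2.2.1) c)) hz.1)
  refine ⟨fun z => l * γ z, ?_⟩
  filter_upwards [k3, l2] with z z1 z2
  exact ⟨z1.1.const_mul l, by rw [norm_mul, l1, one_mul, z1.2], z2.trans (mul_assoc _ _ _).symm⟩

/-- The cocycle. -/
theorem Lq.coc (h : Lq φ c w e O Q) (hφ : M.Wt 1 φ) : ∃ g : M.X → M.X → M.X → ℂ,
    (∀ a b x, x ∈ O a → x ∈ O b → HolN (g a b ∘ (e b).symm) (e b x) ∧
      ‖g a b x‖ = ‖jd M (e a) (e b) x‖ ^ c ∧ Q b (e b x) = g a b x * Q a (e a x)) ∧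
    ∀ a b d x, x ∈ O a → x ∈ O b → x ∈ O d → g a d x = g a b x * g b d x := by
  have h0 : ∀ a b x, ∃ γ : E n → ℂ, x ∈ O a → x ∈ O b → ∀ᶠ z in 𝓝 (e b x),
      DifferentiableAt ℂ γ z ∧ ‖γ z‖ = ‖(jm (e a ∘ (e b).symm) z).det‖ ^ c ∧
        Q b z = γ z * Q a (e a ((e b).symm z)) := fun a b x => by
    by_cases k : x ∈ O a ∧ x ∈ O b
    · obtain ⟨γ, hγ⟩ := h.germ hφ k.1 k.2
      exact ⟨γ, fun _ _ => hγ⟩
    · exact ⟨0, fun k1 k2 => (k ⟨k1, k2⟩).elim⟩
  choose γ hγ using h0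
  have k1 : ∀ a b x, x ∈ O a → x ∈ O b →
      ∀ᶠ z in 𝓝 (e b x), γ a b ((e b).symm z) (e b ((e b).symm z)) = γ a b x z := by
    intro a b x ha hb
    have s1 := (h.op b).2 hb
    have m1 : ∀ᶠ y in 𝓝 x, y ∈ O a ∧ y ∈ O b := ((h.op a).1.inter (h.op b).1).mem_nhds ⟨ha, hb⟩
    have m2 := ((e b).continuousAt_symm ((e b).map_source s1)).eventually
      (((e b).left_inv s1).symm ▸ m1)
    filter_upwards [m2, (e b).open_target.eventually_mem ((e b).map_source s1),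
      (hγ a b x ha hb).eventually_nhds] with z hz ht z1
    have z2 := hγ a b _ hz.1 hz.2
    have z3 := (h.ov hφ hz.1 hz.2).2
    rw [(e b).right_inv ht] at z2 z3 ⊢
    exact tendsto_nhds_unique_of_frequently_eq z2.self_of_nhds.1.continuousAt
      z1.self_of_nhds.1.continuousAt ((z3.and_eventually (z2.and z1)).mono fun y hy =>
        mul_right_cancel₀ hy.1 (hy.2.1.2.2.symm.trans hy.2.2.2.2))
  have k2 : ∀ a b x, x ∈ O a → x ∈ O b →
      HolN ((fun y => γ a b y (e b y)) ∘ (e b).symm) (e b x) ∧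
      ‖γ a b x (e b x)‖ = ‖jd M (e a) (e b) x‖ ^ c ∧
      Q b (e b x) = γ a b x (e b x) * Q a (e a x) := fun a b x ha hb => by
    have z1 := (hγ a b x ha hb).self_of_nhds
    rw [(e b).left_inv ((h.op b).2 hb)] at z1
    refine ⟨?_, z1.2.1, z1.2.2⟩
    filter_upwards [(k1 a b x ha hb).eventually_nhds, hγ a b x ha hb] with z z2 z3
    exact z3.1.congr_of_eventuallyEq z2
  have k3 : ∀ a b x, x ∈ O a → x ∈ O b → ContinuousAt (fun y => γ a b y (e b y)) x := by
    intro a b x ha hb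
    have s1 := (h.op b).2 hb
    refine ((k2 a b x ha hb).1.self_of_nhds.continuousAt.comp ((e b).continuousAt s1)).congr ?_
    filter_upwards [(e b).open_source.eventually_mem s1] with y hy
    simp only [Function.comp_apply, (e b).left_inv hy]
  refine ⟨fun a b y => γ a b y (e b y), k2, fun a b d x ha hb hd => ?_⟩
  refine tendsto_nhds_unique_of_frequently_eq (k3 a d x ha hd)
    ((k3 a b x ha hb).mul (k3 b d x hb hd)) (((h.hol a x ha).2.and_eventually
      (((h.op a).1.eventually_mem ha).and (((h.op b).1.eventually_mem hb).and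
        ((h.op d).1.eventually_mem hd)))).mono fun y hy => mul_right_cancel₀ hy.1 ?_)
  obtain ⟨-, y1, y2, y3⟩ := hy
  rw [← (k2 a d y y1 y3).2.2, (k2 b d y y2 y3).2.2, (k2 a b y y1 y2).2.2]
  simp only [Pi.mul_apply]
  ring

/-- A divisor whose class is a positive multiple of the canonical class. -/
theorem mid51 [M.Cpt] (hP : KP.St_POI) {H Θ : M.Fam (Mat n)} {σ v : M.X → ℝ} {c : ℝ} (hn : 0 < n)
    (hK : M.Kae H) (hq : ∀ ρ, H1 M 0 ρ → Zr M ρ) (hσ : Dv M σ Θ) (hv : M.Sm v) (hc : 0 < c)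
    (h : M.All fun e z => Θ e z + M.hs v e z = c • (-M.ric H) e z) :
    Plu M ∨ ∫ x, M.tr H (M.ric H) x ∂M.mu H = 0 := by
  have hφ : M.Wt 1 (ph M H) := (mINV n M H hK.toMet).2.2.2.2.2.2.1
  have e1 : M.hw (ph M H) = -M.ric H := by
    funext e z
    exact (neg_neg _).symm
  obtain ⟨e, O, Q, hL⟩ := loc hφ hσ hv (by rw [e1]; exact h)
  by_cases i : Irrational c
  · obtain ⟨g, g1, g2⟩ := hL.coc hφ
    exact Or.inr (irr78 M H hK c i e hL.he O hL.op (fun x => ⟨x, hL.me x⟩) g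
      (fun a b x ha hb => (g1 a b x ha hb).1.self_of_nhds) g2
      fun a b x ha hb => (g1 a b x ha hb).2.1)
  · obtain ⟨t, rfl⟩ := not_not.1 i
    have t0 : 0 < t.num := Rat.num_pos.2 (by exact_mod_cast hc)
    refine Or.inl (hL.rat hP hφ hn hK hq (p := t.num.toNat) (r := t.den) (by omega) t.den_pos ?_)
    have e2 : ((t.num.toNat : ℕ) : ℝ) = (t.num : ℝ) := by
      exact_mod_cast congrArg (Int.cast : ℤ → ℝ) (Int.toNat_of_nonneg t0.le)
    rw [e2]
    exact_mod_cast Rat.mul_den_eq_num t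

end Pool.Agent.Lib.F4H.M51
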