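import Pool.Agent.Lib.F4H.Hix69

/-! Project f4h: the square of a class with a regularised singular metric without divisorial
part is not negative. -/

open scoped Classical Topology ContDiff ComplexOrder Matrix
open Set MeasureTheory Filter Metric

noncomputable section

namespace Pool.Agent.Lib.F4H.N35

open Pool.Agent.Lib.SV (E)
open Pool.Agent.Lib.HS32 Pool.Agent.Lib.F4 Pool.Agent.Lib.F4H.H69

variable {n : ℕ} {M : Mf n} {H S S' : M.Fam (Mat n)} {τ τ' : M.X → ℝ}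

/-- The Hessian of the logarithm of `τ` is at least `-S`, in a regularised form. -/
def Pp (M : Mf n) (τ : M.X → ℝ) (S : M.Fam (Mat n)) : Prop := ∀ h : ℝ, 0 < h → M.All fun e z =>
  (M.hs τ e z + τ (e.symm z) • S e z - (τ (e.symm z) + h)⁻¹ • M.ds τ τ e z).PosSemidef

theorem hs_log (hτ : M.Sm τ) (h0 : ∀ x, 0 ≤ τ x) {h : ℝ} (hh : 0 < h) :
    M.Sm (fun x => Real.log (τ x + h)) ∧ M.All fun e z =>
      M.hs (fun x => Real.log (τ x + h)) e z = (τ (e.symm z) + h)⁻¹ • M.hs τ e z -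
        ((τ (e.symm z) + h)⁻¹ ^ 2) • M.ds τ τ e z := by
  have p : ∀ x, τ x + h ≠ 0 := fun x => (add_pos_of_nonneg_of_pos (h0 x) hh).ne'
  obtain ⟨a, b⟩ := (mLAP n M τ τ hτ hτ).2.1 (fun t => Real.log (t + h)) fun x =>
    (contDiffAt_id.add contDiffAt_const).log (p x)
  refine ⟨a, fun e he z hz => ?_⟩
  have d1 : deriv (fun t => Real.log (t + h)) = fun t => (t + h)⁻¹ := by
    funext t
    rw [deriv_comp_add_const Real.log, Real.deriv_log]
  have d2 : ∀ t, deriv (fun t : ℝ => (t + h)⁻¹) t = -((t + h)⁻¹ ^ 2) := fun t => by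
    rw [deriv_comp_add_const (fun s : ℝ => s⁻¹), deriv_inv, inv_pow]
  beta_reduce
  rw [(b e he z hz).1, d1, d2, neg_smul, sub_eq_add_neg]

theorem key (hτ : M.Sm τ) (h0 : ∀ x, 0 ≤ τ x) {h : ℝ} (hh : 0 < h) : M.All fun e z =>
    (S + M.hs fun x => Real.log (τ x + h)) e z - LD.fs M (fun x => h / (τ x + h)) S e z =
      (τ (e.symm z) + h)⁻¹ •
        (M.hs τ e z + τ (e.symm z) • S e z - (τ (e.symm z) + h)⁻¹ • M.ds τ τ e z) :=
  fun e he z hz => by
  have p : τ (e.symm z) + h ≠ 0 := (add_pos_of_nonneg_of_pos (h0 _) hh).ne'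
  have q : h / (τ (e.symm z) + h) = 1 - (τ (e.symm z) + h)⁻¹ * τ (e.symm z) := by
    field_simp
    ring
  simp only [Pi.add_apply, LD.fs, (hs_log hτ h0 hh).2 e he z hz, q]
  module

theorem pp_iff (hτ : M.Sm τ) (h0 : ∀ x, 0 ≤ τ x) : Pp M τ S ↔ ∀ h : ℝ, 0 < h →
    M.Le (LD.fs M (fun x => h / (τ x + h)) S) (S + M.hs fun x => Real.log (τ x + h)) := by
  refine forall_congr' fun h => forall_congr' fun hh => forall_congr' fun e =>
    forall_congr' fun he => forall_congr' fun z => forall_congr' fun hz => ?_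
  have p : 0 < τ (e.symm z) + h := add_pos_of_nonneg_of_pos (h0 _) hh
  beta_reduce
  rw [key hτ h0 hh e he z hz]
  refine ⟨fun a => Mf.psd_rsmul a (inv_pos.2 p).le, fun a => ?_⟩
  have := Mf.psd_rsmul a p.le
  rwa [smul_smul, mul_inv_cancel₀ p.ne', one_smul] at this

theorem Pp.mono (hP : Pp M τ S) (h0 : ∀ x, 0 ≤ τ x) (hS : M.Le S S') : Pp M τ S' :=
  fun h hh e he z hz => by
  have := (hP h hh e he z hz).add (Mf.psd_rsmul (hS e he z hz) (h0 (e.symm z)))
  beta_reduce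
  rw [show M.hs τ e z + τ (e.symm z) • S' e z - (τ (e.symm z) + h)⁻¹ • M.ds τ τ e z =
    M.hs τ e z + τ (e.symm z) • S e z - (τ (e.symm z) + h)⁻¹ • M.ds τ τ e z +
      τ (e.symm z) • (S' e z - S e z) by module]
  exact this

theorem ds_eq (hτ : M.Sm τ) : M.All fun e z => M.ds τ τ e z =
    Matrix.vecMulVec (star fun j => dz j (M.lc τ e) z) fun j => dz j (M.lc τ e) z :=
  fun e he z hz => by
  ext i j
  have := star_dz_ofReal (j := i) (u := fun w => τ (e.symm w)) (cd_diff (hτ.lc e he z hz))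
  simp only [Mf.ds, dd, Matrix.of_apply, Matrix.vecMulVec_apply, Pi.star_apply]
  exact congrArg (· * dz j (M.lc τ e) z) this.symm

theorem titu {A B : ℝ} (hA : 0 < A) (hB : 0 < B) (d d' : E n) :
    (A⁻¹ • Matrix.vecMulVec (star d) d + B⁻¹ • Matrix.vecMulVec (star d') d' -
      (A + B)⁻¹ • Matrix.vecMulVec (star (d + d')) (d + d')).PosSemidef := by
  have a := Mf.psd_rsmul (Matrix.posSemidef_vecMulVec_star_self ((B : ℂ) • d - (A : ℂ) • d'))
    (c := (A * B * (A + B))⁻¹) (by positivity)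
  have e : A⁻¹ • Matrix.vecMulVec (star d) d + B⁻¹ • Matrix.vecMulVec (star d') d' -
      (A + B)⁻¹ • Matrix.vecMulVec (star (d + d')) (d + d') = (A * B * (A + B))⁻¹ •
      Matrix.vecMulVec (star ((B : ℂ) • d - (A : ℂ) • d')) ((B : ℂ) • d - (A : ℂ) • d') := by
    ext i j
    have a0 : (A : ℂ) ≠ 0 := Complex.ofReal_ne_zero.2 hA.ne'
    have b0 : (B : ℂ) ≠ 0 := Complex.ofReal_ne_zero.2 hB.ne'
    have c0 : (A : ℂ) + B ≠ 0 := by
      rw [← Complex.ofReal_add]
      exact Complex.ofReal_ne_zero.2 (add_pos hA hB).ne'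
    simp only [Matrix.sub_apply, Matrix.add_apply, Matrix.smul_apply, Matrix.vecMulVec_apply,
      Pi.star_apply, Pi.add_apply, Pi.sub_apply, Pi.smul_apply, Complex.real_smul, smul_eq_mul,
      star_add, star_sub, star_mul', Complex.star_def, Complex.conj_ofReal, Complex.ofReal_inv,
      Complex.ofReal_mul, Complex.ofReal_add]
    field_simp
    ring
  rw [e]
  exact a

theorem Pp.add (hP : Pp M τ S) (hP' : Pp M τ' S) (hτ : M.Sm τ) (hτ' : M.Sm τ')
    (h0 : ∀ x, 0 ≤ τ x) (h0' : ∀ x, 0 ≤ τ' x) : Pp M (fun x => τ x + τ' x) S :=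
  fun h hh e he z hz => by
  have h2 := half_pos hh
  have t := titu (add_pos_of_nonneg_of_pos (h0 (e.symm z)) h2)
    (add_pos_of_nonneg_of_pos (h0' (e.symm z)) h2) (fun j => dz j (M.lc τ e) z)
    fun j => dz j (M.lc τ' e) z
  have := ((hP _ h2 e he z hz).add (hP' _ h2 e he z hz)).add t
  have d : (fun j => dz j (M.lc (fun x => τ x + τ' x) e) z) =
      (fun j => dz j (M.lc τ e) z) + fun j => dz j (M.lc τ' e) z := by
    funext j
    rw [Pi.add_apply, ← dz_add (cd_diff (hτ.lc e he z hz)) (cd_diff (hτ'.lc e he z hz))]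
    refine dz_congr (Eventually.of_forall fun w => ?_)
    simp only [Mf.lc, Complex.ofReal_add]
  beta_reduce
  rw [ds_eq (hτ.add hτ') e he z hz, d, (((mLAP n M) _ _ hτ hτ').1 0 e he z hz).2.1]
  rw [ds_eq hτ e he z hz, ds_eq hτ' e he z hz,
    show τ (e.symm z) + h / 2 + (τ' (e.symm z) + h / 2) = τ (e.symm z) + τ' (e.symm z) + h by
      ring] at this
  refine (congrArg Matrix.PosSemidef ?_).mp this
  module

/-- The positive part of the regularised form. -/
def bb (M : Mf n) (τ : M.X → ℝ) (S : M.Fam (Mat n)) (h : ℝ) : M.Fam (Mat n) :=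
  (S + M.hs fun x => Real.log (τ x + h)) - LD.fs M (fun x => h / (τ x + h)) S

theorem sm_mu (hτ : M.Sm τ) (h0 : ∀ x, 0 ≤ τ x) {h : ℝ} (hh : 0 < h) :
    M.Sm fun x => h / (τ x + h) :=
  (Mf.sm_const h).div (hτ.add (Mf.sm_const h)) fun x => (add_pos_of_nonneg_of_pos (h0 x) hh).ne'

theorem bb_form (hS : M.Form S) (hτ : M.Sm τ) (h0 : ∀ x, 0 ≤ τ x) {h : ℝ} (hh : 0 < h) :
    M.Form (bb M τ S h) :=
  (hS.add ((mHES n M).1 _ (hs_log hτ h0 hh).1).toForm).sub (hS.fsmul (sm_mu hτ h0 hh))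

theorem bb_nonneg (hP : Pp M τ S) (hτ : M.Sm τ) (h0 : ∀ x, 0 ≤ τ x) {h : ℝ} (hh : 0 < h) :
    M.Le 0 (bb M τ S h) := Mf.le_iff_sub.1 ((pp_iff hτ h0).1 hP h hh)

theorem bb_le (hH : M.Met H) {C : ℝ} (hC : 0 ≤ C) (hS : M.Le S (C • H)) (h0 : ∀ x, 0 ≤ τ x)
    {h : ℝ} (hh : 0 < h) :
    M.Le (bb M τ S h) ((M.hs fun x => Real.log (τ x + h)) + C • H) := fun e he z hz => by
  have p : 0 < τ (e.symm z) + h := add_pos_of_nonneg_of_pos (h0 _) hh
  have m0 : 0 ≤ h / (τ (e.symm z) + h) := by positivity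
  have m1 : 0 ≤ 1 - h / (τ (e.symm z) + h) :=
    sub_nonneg.2 ((div_le_one p).2 (by linarith [h0 (e.symm z)]))
  have := (Mf.psd_rsmul (hS e he z hz) m1).add
    (Mf.psd_rsmul (hH.pos e he z hz).posSemidef (mul_nonneg m0 hC))
  refine (congrArg Matrix.PosSemidef ?_).mp this
  simp only [bb, LD.fs, Pi.add_apply, Pi.sub_apply, Pi.smul_apply]
  module

theorem sq_nonneg [M.Cpt] (hH : M.Kae H) (hS : M.Clo S) (hτ : M.Sm τ)
    (h0 : ∀ x, 0 ≤ τ x) (hz : M.mu H {x | τ x = 0} = 0) (hP : Pp M τ S)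
    (hM : Tendsto (fun h => ∫ x, h / (τ x + h) * M.tr H (bb M τ S h) x ∂M.mu H) (𝓝[>] 0)
      (𝓝 0)) : 0 ≤ ∫ x, mx M H S S x ∂M.mu H := by
  have hm := hH.toMet
  obtain ⟨-, hf, -, -, hi, -⟩ := mMU n M H hm
  obtain ⟨C, C0, -, hC⟩ := (mBD n M H hm).1 S hS.toForm
  have sS := mx_sm hm hS.toTen hS.toTen
  have lim : Tendsto (fun h : ℝ => ∫ x, (h / (τ x + h)) ^ 2 * mx M H S S x ∂M.mu H) (𝓝[>] 0)
      (𝓝 0) := by
    have := tendsto_integral_filter_of_dominated_convergence (μ := M.mu H) (l := 𝓝[>] (0 : ℝ))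
      (F := fun h x => (h / (τ x + h)) ^ 2 * mx M H S S x) (f := fun _ => (0 : ℝ))
      (fun x => ‖mx M H S S x‖) ?_ ?_ (hi ℝ _ sS.continuous.norm) ?_
    · simpa using this
    · filter_upwards [self_mem_nhdsWithin] with h hh
      exact (((sm_mu hτ h0 hh).pow 2).mul sS).continuous.aestronglyMeasurable
    · filter_upwards [self_mem_nhdsWithin] with h hh
      refine Eventually.of_forall fun x => ?_
      have hh' : 0 < h := hh
      have p : 0 < τ x + h := add_pos_of_nonneg_of_pos (h0 _) hh'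
      rw [norm_mul]
      refine mul_le_of_le_one_left (norm_nonneg _) ?_
      rw [norm_pow, Real.norm_of_nonneg (by positivity)]
      exact pow_le_one₀ (by positivity) ((div_le_one p).2 (by linarith [h0 x]))
    · filter_upwards [compl_mem_ae_iff.2 hz] with x hx
      have c : ContinuousAt (fun h : ℝ => (h / (τ x + h)) ^ 2 * mx M H S S x) 0 :=
        ((continuousAt_id.div (continuousAt_const.add continuousAt_id)
          (by simpa using hx)).pow 2).mul continuousAt_const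
      simpa using c.tendsto.mono_left nhdsWithin_le_nhds
  have l2 := (hM.const_mul (-(2 * C * (n - 1)))).add lim
  rw [mul_zero, add_zero] at l2
  refine le_of_tendsto l2 ?_
  filter_upwards [self_mem_nhdsWithin] with h hh
  have hh' : 0 < h := hh
  have sm := sm_mu hτ h0 hh'
  have fB := bb_form hS.toForm hτ h0 hh'
  have pB := bb_nonneg hP hτ h0 hh'
  have sl := (hs_log hτ h0 hh').1
  have tB := ((mINV n M H hm).1 _ fB.toTen).2.1
  rw [← q_cls hH hS hS sl sl, ← integral_const_mul, ← integral_add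
    ((hi ℝ _ (sm.mul tB).continuous).const_mul _) (hi ℝ _ ((sm.pow 2).mul sS).continuous)]
  have cL := hS.add ((mHES n M).1 _ sl)
  refine integral_mono (((hi ℝ _ (sm.mul tB).continuous).const_mul _).add
    (hi ℝ _ ((sm.pow 2).mul sS).continuous)) (mx_int hm cL.toTen cL.toTen) fun x => ?_
  have e : (S + M.hs fun x => Real.log (τ x + h)) =
      bb M τ S h + LD.fs M (fun x => h / (τ x + h)) S := by rw [bb, sub_add_cancel]
  have a1 := mx_nonneg hm pB pB x
  have a2 := mx_nonneg hm pB (Mf.le_iff_sub.1 hC) x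
  have m0 : 0 ≤ h / (τ x + h) := div_nonneg hh'.le (add_nonneg (h0 x) hh'.le)
  have a3 : mx M H (bb M τ S h) H x = (n - 1) * M.tr H (bb M τ S h) x := by
    rw [mx, hm.ip_self, hm.tr_self]
    ring
  rw [sub_neg_eq_add, mx_add, mx_smul, a3] at a2
  beta_reduce
  rw [e, mx_add, mx_fs _ hm, mx_comm (T := bb M τ S h), mx_add, mx_fs _ hm,
    mx_comm (S := bb M τ S h + _) (T := S), mx_add, mx_fs _ hm,
    mx_comm (S := S) (T := bb M τ S h)]
  nlinarith [mul_nonneg m0 a2]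

end Pool.Agent.Lib.F4H.N35
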