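import Pool.Agent.Lib.F4.G72c

/-! Project f4h: the common zeros of a family without common divisor have thin projections. -/

open scoped Topology Classical
open Set Filter Metric Polynomial

noncomputable section

namespace Pool.Agent.Lib.F4H.P72

open Pool.Agent.Lib.SV Pool.Agent.Lib.F4.G72

variable {F W : Type} [NormedAddCommGroup F] [NormedSpace ℂ F] [NormedAddCommGroup W]
  [NormedSpace ℂ W] [FiniteDimensional ℂ F] [FiniteDimensional ℂ W]

/-- The local common divisor, with a function of the parameter in the ideal of the quotient. -/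
theorem lgq {u : ℂ × F → W} {O : Set (ℂ × F)} {p : ℂ × F} (τ : W →L[ℂ] ℂ) (hO : IsOpen O)
    (hp : p ∈ O) (hu : DifferentiableOn ℂ u O) (hn : ¬(fun w => τ (u (w, p.2))) =ᶠ[𝓝 p.1] 0) :
    ∃ (r ε : ℝ) (f : ℂ × F → ℂ) (t : ℂ × F → W) (δ : F → ℂ), 0 < r ∧ 0 < ε ∧
      ball p.1 r ×ˢ ball p.2 ε ⊆ O ∧ DifferentiableOn ℂ f (ball p.1 r ×ˢ ball p.2 ε) ∧
      DifferentiableOn ℂ t (ball p.1 r ×ˢ ball p.2 ε) ∧
      (∀ y ∈ ball p.1 r ×ˢ ball p.2 ε, u y = f y • t y) ∧ DifferentiableOn ℂ δ (ball p.2 ε) ∧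
      (∀ z ∈ ball p.2 ε, ∃ᶠ s in 𝓝 z, δ s ≠ 0) ∧
      ∀ y ∈ ball p.1 r ×ˢ ball p.2 ε, t y = 0 → δ y.2 = 0 := by
  have dl : ∀ l : W →L[ℂ] ℂ, DifferentiableOn ℂ (fun y => l (u y)) O := fun l =>
    l.differentiable.comp_differentiableOn hu
  obtain ⟨r, c, U, d, α, H⟩ := LJ84.bWP LJ84.bFAC LJ84.bPAR F (fun y => τ (u y)) O p hO hp (dl τ) hn
  obtain ⟨ε, e0, hε⟩ := Metric.isOpen_iff.1 H.opn _ H.mem
  set B := ball p.2 ε with hB
  set D := ball p.1 r ×ˢ B with hD
  have oD : IsOpen D := isOpen_ball.prod isOpen_ball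
  have sub : closedBall p.1 r ×ˢ B ⊆ O := (prod_mono_right hε).trans H.sub
  have DO : D ⊆ O := (prod_mono_left ball_subset_closedBall).trans sub
  have DB : D ⊆ {y | y.2 ∈ B} := fun y hy => hy.2
  have cD : ∀ {f : ℂ × F → ℂ}, DifferentiableOn ℂ f D → ∀ y ∈ D, ContinuousAt f y :=
    fun hf y hy => hf.continuousOn.continuousAt (oD.mem_nhds hy)
  have cB : ∀ {f : F → ℂ}, DifferentiableOn ℂ f B → ∀ y ∈ B, ContinuousAt f y :=
    fun hf y hy => hf.continuousOn.continuousAt (isOpen_ball.mem_nhds hy)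
  set P : F → ℂ[X] := fun z => ∏ b, (X + C (-α z b)) with hP
  have mP : ∀ z, (P z).Monic := fun z => monic_prod_of_monic _ _ fun b _ => monic_X_add_C _
  have nP : ∀ z, (P z).natDegree = d := fun z => by
    rw [hP, natDegree_prod_of_monic _ _ fun b _ => monic_X_add_C _]
    simp only [natDegree_X_add_C, Finset.sum_const, Finset.card_univ, Fintype.card_fin, smul_eq_mul,
      mul_one]
  have eP : ∀ z w, ‖(P z).eval w‖ = ∏ b, ‖w - α z b‖ := fun z w => by
    simp only [hP, eval_prod, eval_add, eval_X, eval_C, norm_prod, sub_eq_add_neg]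
  have rP : ∀ z ∈ B, ∀ w, (P z).eval w = 0 → w ∈ ball p.1 r := fun z hz w h => by
    have := eP z w
    rw [h, norm_zero, eq_comm, Finset.prod_eq_zero_iff] at this
    obtain ⟨b, -, hb⟩ := this
    rw [sub_eq_zero.1 (norm_eq_zero.1 hb)]
    exact (H.root z (hε hz) b).1
  have tP : ∀ z ∈ B, ∀ w, (P z).eval w = 0 → ‖w‖ ≤ ‖p.1‖ + r := fun z hz w h =>
    norm_le_norm_add_const_of_dist_le (mem_ball.1 (rP z hz w h)).le
  have lP : ∀ y ∈ D, c * ‖(P y.2).eval y.1‖ ≤ ‖τ (u y)‖ := fun y hy => by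
    rw [eP]
    exact H.low _ (hε hy.2) _ (ball_subset_closedBall hy.1)
  have zP : ∀ y ∈ D, τ (u y) = 0 → (P y.2).eval y.1 = 0 := fun y hy h => by
    have := lP y hy
    rw [h, norm_zero] at this
    exact norm_le_zero_iff.1 (nonpos_of_mul_nonpos_right this H.c0)
  have hpP : HP B (d + 1) P := by
    refine ⟨fun i => ?_, fun z _ i hi => coeff_eq_zero_of_natDegree_lt (by rw [nP]; exact hi)⟩
    rcases le_or_gt i d with hi | hi
    · refine ((H.hol (fun y => -y.1) (by fun_prop) (d - i)).mono hε).congr fun z _ => ?_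
      rw [hP, Finset.prod_X_add_C_coeff _ _ (by simpa using hi)]
      simp only [LJ84.es, Finset.card_univ, Fintype.card_fin]
    · exact (differentiableOn_const 0).congr fun z _ =>
        coeff_eq_zero_of_natDegree_lt (by rw [nP]; exact hi)
  obtain ⟨v, v1, v2⟩ := rie (f := fun y => (P y.2).eval y.1 * (τ (u y))⁻¹) oD ((dl τ).mono DO)
    (fun y hy => ((fr_ne2 (mP y.2).ne_zero).and_eventually (oD.mem_nhds hy)).mono
      fun t ht h => ht.1 (zP t ht.2 h))
    ((hpP.ev.mono fun y hy => DB hy.1).mul (((dl τ).mono fun y hy => DO hy.1).inv fun y hy => hy.2))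
    fun y hy => ⟨c⁻¹, (oD.eventually_mem hy).mono fun t ht h => by
      rw [norm_mul, norm_inv, mul_inv_le_iff₀ (norm_pos_iff.2 h), le_inv_mul_iff₀ H.c0]
      exact lP t ht⟩
  have iP : In D u P := ⟨fun y => v y • τ, v1.smul_const τ, fun y hy => by
    rw [_root_.smul_apply, smul_eq_mul]
    by_cases h : τ (u y) = 0
    · rw [zP y hy h, h, mul_zero]
    · rw [v2 y hy h, inv_mul_cancel_right₀ h]⟩
  obtain ⟨m, R, r1, r2, ⟨z₁, hz₁, r3⟩, mi⟩ := mn hpP iP ⟨_, mem_ball_self e0, (mP _).ne_zero⟩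
  have fδ : ∀ z ∈ B, ∃ᶠ t in 𝓝 z, (R t).coeff m ≠ 0 := fun z hz => not_eventually.1 fun h =>
    r3 (H85.eq_zero_of_convex isOpen_ball (convex_ball _ _) (r1.1 m) hz h hz₁)
  have mN : ∀ z ∈ B, (R z).coeff m ≠ 0 →
      (C ((R z).coeff m)⁻¹ * R z).Monic ∧ C ((R z).coeff m)⁻¹ * R z ∣ P z := fun z hz h =>
    ⟨monic_of_natDegree_le_of_coeff_eq_one m ((natDegree_C_mul_le _ _).trans (r1.deg hz))
      (by rw [coeff_C_mul, inv_mul_cancel₀ h]),
      (isUnit_C.2 (inv_ne_zero h).isUnit).mul_left_dvd.2 (dv DB r1 r2 mi hz h _ P hpP iP)⟩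
  set K : ℝ := max (‖p.1‖ + r) 1 ^ d * d.choose (d / 2) with hK
  have ec := fun i => rie (f := fun z => ((R z).coeff m)⁻¹ * (R z).coeff i) isOpen_ball (r1.1 m) fδ
    ((((r1.1 m).mono fun y hy => hy.1).inv fun y hy => hy.2).mul ((r1.1 i).mono fun y hy => hy.1))
    fun z hz => ⟨K, (isOpen_ball.eventually_mem hz).mono fun t ht h => by
      rw [← coeff_C_mul]
      exact bd (mN t ht h).1 (mN t ht h).2 (mP t).ne_zero (nP t).le (tP t ht) i⟩
  choose γ γ1 γ2 using ec
  set G : F → ℂ[X] := fun z => ∑ i ∈ Finset.range (m + 1), monomial i (γ i z) with hG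
  have cG : ∀ z i, (G z).coeff i = if i < m + 1 then γ i z else 0 := fun z i => by
    simp only [hG, finsetSum_coeff, coeff_monomial, Finset.sum_ite_eq', Finset.mem_range]
  have hpG : HP B (m + 1) G := ⟨fun i => by
    simp only [cG]
    split_ifs
    exacts [γ1 i, differentiableOn_const _], fun z _ i hi => by rw [cG, if_neg (not_lt.2 hi)]⟩
  have GN : ∀ z ∈ B, (R z).coeff m ≠ 0 → G z = C ((R z).coeff m)⁻¹ * R z := fun z hz h => by
    ext i
    rw [cG, coeff_C_mul]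
    split_ifs with hi
    · exact γ2 i z hz h
    · rw [r1.2 z hz i (not_lt.1 hi), mul_zero]
  have RG : ∀ z ∈ B, C ((R z).coeff m) * G z = R z := fun z hz => by
    ext i
    refine eq_fr (f := fun z => (C ((R z).coeff m) * G z).coeff i)
      (cB ((hpG.cmul (r1.1 m)).1 i) z hz) (cB (r1.1 i) z hz)
      (((fδ z hz).and_eventually (isOpen_ball.mem_nhds hz)).mono fun t ht => ?_)
    simp only [GN t ht.2 ht.1, coeff_C_mul, mul_inv_cancel_left₀ ht.1]
  have G1 : ∀ z ∈ B, G z ≠ 0 := fun z hz h => by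
    have := eq_fr (cB (hpG.1 m) z hz) (continuousAt_const (y := (1 : ℂ)))
      (((fδ z hz).and_eventually (isOpen_ball.mem_nhds hz)).mono fun t ht => by
        rw [GN t ht.2 ht.1, coeff_C_mul, inv_mul_cancel₀ ht.1])
    rw [h, coeff_zero] at this
    exact zero_ne_one this
  have G0 : ∀ z ∈ B, ∀ ζ ∈ sphere p.1 r, (G z).eval ζ ≠ 0 := fun z hz ζ hζ h => by
    have ce : ∀ {l : ℕ} {S : F → ℂ[X]}, HP B l S → ContinuousAt (fun t => ‖(S t).eval ζ‖) z :=
      fun hS => (cB (hS.ev.comp (f := fun t => (ζ, t)) (by fun_prop) fun t ht => ht) z hz).norm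
    have := le_of_tendsto_of_tendsto_of_frequently (ce hpP)
      ((ce hpG).mul_const (∑ i ∈ Finset.range (d + 1), K * ‖ζ‖ ^ i))
      (((fδ z hz).and_eventually (isOpen_ball.mem_nhds hz)).mono fun t ht => by
        obtain ⟨n1, Q, n2⟩ := mN t ht.2 ht.1
        have dQ : Q ∣ P t := Dvd.intro_left _ n2.symm
        rw [GN t ht.2 ht.1, n2, eval_mul, norm_mul, eval_eq_sum_range' (p := Q) (Nat.lt_succ_of_le
          ((natDegree_le_of_dvd dQ (mP t).ne_zero).trans (nP t).le))]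
        refine mul_le_mul_of_nonneg_left ((norm_sum_le _ _).trans
          (Finset.sum_le_sum fun i _ => ?_)) (norm_nonneg _)
        rw [norm_mul, norm_pow]
        exact mul_le_mul_of_nonneg_right (bd (n1.of_mul_monic_left (n2 ▸ mP t)) dQ (mP t).ne_zero
          (nP t).le (tP t ht.2) i) (by positivity))
    simp only [h, norm_zero, zero_mul] at this
    exact (mem_ball.1 (rP z hz ζ (norm_le_zero_iff.1 this))).ne (mem_sphere.1 hζ)
  obtain ⟨a, a1, a2⟩ := r2
  have dG := hpG.ev.mono DB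
  have dδ := (dsnd (r1.1 m)).mono DB
  have RG' : ∀ y ∈ D, (R y.2).coeff m * (G y.2).eval y.1 = a y (u y) := fun y hy => by
    rw [← a2 y hy, ← eval_C_mul, RG _ hy.2]
  have di : ∀ l : W →L[ℂ] ℂ, ∃ q : ℂ × F → ℂ, DifferentiableOn ℂ q D ∧
      ∀ y ∈ D, l (u y) = (G y.2).eval y.1 * q y := fun l => by
    obtain ⟨q, ρ, q1, q2, q3⟩ := wdiv hO isOpen_ball H.r0 sub (dl l) hpG G0
    have := mi _ (q2.cmul (r1.1 m)) ⟨fun y => (R y.2).coeff m • l - q y • a y,
      (dδ.smul_const l).sub (q1.smul a1), fun y hy => by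
        simp only [eval_C_mul, _root_.sub_apply, _root_.smul_apply,
          smul_eq_mul, ← RG' y hy, q3 y hy]
        ring⟩
    refine ⟨q, q1, fun y hy => eq_fr (cD ((dl l).mono DO) y hy) (cD (dG.mul q1) y hy)
      (((fr_snd (fδ _ hy.2)).and_eventually (oD.mem_nhds hy)).mono fun t ht => ?_)⟩
    have k0 := (mul_eq_zero.1 (this _ ht.2.2)).resolve_left (C_ne_zero.2 ht.1)
    rw [q3 t ht.2, k0, eval_zero, add_zero]
    rfl
  set b := Module.finBasis ℂ W with hb
  choose q q1 q2 using fun j => di (b.coord j).toContinuousLinearMap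
  have dt : DifferentiableOn ℂ (fun y => ∑ j, q j y • b j) D :=
    DifferentiableOn.fun_sum fun j _ => (q1 j).smul_const _
  have ut : ∀ y ∈ D, u y = (G y.2).eval y.1 • ∑ j, q j y • b j := fun y hy => by
    rw [Finset.smul_sum, ← b.sum_repr (u y)]
    exact Finset.sum_congr rfl fun j _ => by rw [smul_smul, ← q2 j y hy]; rfl
  refine ⟨r, ε, fun y => (G y.2).eval y.1, fun y => ∑ j, q j y • b j, fun z => (R z).coeff m,
    H.r0, e0, DO, dG, dt, ut, r1.1 m, fδ, fun y hy h0 => ?_⟩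
  have := eq_fr (cD dδ _ hy) (cD (a1.clm_apply dt) _ hy)
    (((fr_ne2 (G1 _ hy.2)).and_eventually (oD.mem_nhds hy)).mono fun t ht =>
      mul_right_cancel₀ ht.1 (by
        rw [RG' t ht.2, ut t ht.2, map_smul, smul_eq_mul, mul_comm]))
  rw [show ∑ j, q j y • b j = 0 from h0, map_zero] at this
  exact this

/-- Product form: a removable zero set has a thin projection. -/
theorem npj1 {u : ℂ × F → W} {O : Set (ℂ × F)} {p : ℂ × F} (τ : W →L[ℂ] ℂ) (hO : IsOpen O)
    (hp : p ∈ O) (hu : DifferentiableOn ℂ u O) (hn : ¬(fun w => τ (u (w, p.2))) =ᶠ[𝓝 p.1] 0)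
    (hR : Rm O {y | u y = 0}) :
    ∃ (r ε : ℝ) (δ : F → ℂ), 0 < r ∧ 0 < ε ∧ ball p.1 r ×ˢ ball p.2 ε ⊆ O ∧
      DifferentiableOn ℂ δ (ball p.2 ε) ∧ (∀ z ∈ ball p.2 ε, ∃ᶠ s in 𝓝 z, δ s ≠ 0) ∧
      ∀ y ∈ ball p.1 r ×ˢ ball p.2 ε, u y = 0 → δ y.2 = 0 := by
  obtain ⟨r, ε, f, t, δ, r0, e0, DO, df, -, ut, dδ, fδ, z0⟩ := lgq τ hO hp hu hn
  refine ⟨r, ε, δ, r0, e0, DO, dδ, fδ, fun y hy h0 => z0 y hy ?_⟩
  set D := ball p.1 r ×ˢ ball p.2 ε with hD
  have oD : IsOpen D := isOpen_ball.prod isOpen_ball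
  have f0 : ∀ s ∈ D, u s ≠ 0 → f s ≠ 0 := fun s hs h e => h (by rw [ut s hs, e, zero_smul])
  obtain ⟨g, g1, g2⟩ := hR D (fun s => (f s)⁻¹) oD DO
    ((df.mono fun s hs => hs.1).inv fun s hs => f0 s hs.1 hs.2)
  have fr : ∃ᶠ s in 𝓝 y, u s ≠ 0 := not_eventually.1 fun h => hn (by
    have c : Continuous fun w : ℂ => (w, p.2) := by fun_prop
    filter_upwards [(c.tendsto p.1).eventually
      (oD.mem_nhds ⟨mem_ball_self r0, mem_ball_self e0⟩)] with w hw
    exact H85.eq_zero_of_convex (f := fun s => τ (u s)) oD ((convex_ball _ _).prod (convex_ball _ _))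
      ((τ.differentiable.comp_differentiableOn hu).mono DO) hy
      (h.mono fun s hs => by simp only [hs, map_zero, Pi.zero_apply]) hw)
  have := eq_fr (f := fun s => f s * g s) (g := fun _ => 1)
    ((df.mul g1).continuousOn.continuousAt (oD.mem_nhds hy)) continuousAt_const
    ((fr.and_eventually (oD.mem_nhds hy)).mono fun s hs => by
      rw [g2 ⟨hs.2, hs.1⟩, mul_inv_cancel₀ (f0 s hs.2 hs.1)])
  rw [ut y hy] at h0
  exact (smul_eq_zero.1 h0).resolve_left (left_ne_zero_of_mul_eq_one this)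

/-- One direction. -/
theorem npj2 {t : F → W} {O : Set F} {x v : F} (τ : W →L[ℂ] ℂ) (hO : IsOpen O) (hx : x ∈ O)
    (ht : DifferentiableOn ℂ t O) (hR : Rm O {y | t y = 0}) (v0 : v ≠ 0)
    (hn : ¬(fun w : ℂ => τ (t (x + w • v))) =ᶠ[𝓝 0] 0) :
    ∃ (V : Set F) (δ : F → ℂ), IsOpen V ∧ x ∈ V ∧ V ⊆ O ∧ DifferentiableOn ℂ δ V ∧
      (∀ y (w : ℂ), δ (y + w • v) = δ y) ∧ (∀ y ∈ V, ∃ᶠ s in 𝓝 y, δ s ≠ 0) ∧
      ∀ y ∈ V, t y = 0 → δ y = 0 := by
  obtain ⟨l, hl⟩ := SeparatingDual.exists_eq_one (R := ℂ) v0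
  set e := ContinuousLinearEquiv.equivOfRightInverse l (ContinuousLinearMap.toSpanSingleton ℂ v)
    (fun w => by simp [hl]) with he
  have e1 : ∀ w : ℂ, e.symm (w, (e x).2) = x + (w - (e x).1) • v := fun w => by
    simp only [he, ContinuousLinearEquiv.equivOfRightInverse_symm_apply,
      ContinuousLinearEquiv.snd_equivOfRightInverse, ContinuousLinearEquiv.fst_equivOfRightInverse,
      ContinuousLinearMap.toSpanSingleton_apply, sub_smul]
    abel
  have e2 : ∀ y (w : ℂ), (e (y + w • v)).2 = (e y).2 := fun y w => Subtype.ext (by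
    show y + w • v - l (y + w • v) • v = y - l y • v
    rw [map_add, map_smul, hl, smul_eq_mul, mul_one, add_smul]
    abel)
  obtain ⟨r, ε, δ, r0, e0, DO, dδ, fδ, z0⟩ := npj1 (u := t ∘ e.symm) (O := e.symm ⁻¹' O)
    (p := e x) τ (hO.preimage e.symm.continuous) (by simpa using hx)
    (ht.comp e.symm.differentiableOn fun _ hy => hy) (fun h => hn (by
      have c : Tendsto (fun w : ℂ => w + (e x).1) (𝓝 0) (𝓝 (e x).1) :=
        Continuous.tendsto' (by fun_prop) _ _ (zero_add _)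
      filter_upwards [c.eventually h] with w hw
      simpa only [Function.comp_apply, e1, add_sub_cancel_right, Pi.zero_apply] using hw)) (hR.comp e.symm)
  refine ⟨e ⁻¹' (ball (e x).1 r ×ˢ ball (e x).2 ε), fun y => δ (e y).2,
    (isOpen_ball.prod isOpen_ball).preimage e.continuous, ⟨mem_ball_self r0, mem_ball_self e0⟩,
    fun y hy => by simpa using DO hy, dδ.comp (by fun_prop) fun y hy => hy.2,
    fun y w => congrArg δ (e2 y w), fun y hy => ?_, fun y hy h => z0 _ hy (by simpa using h)⟩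
  have := fr_snd (y := e y) (fδ _ hy.2)
  rw [← e.map_nhds_eq y, frequently_map] at this
  exact this

/-- NPJ: thin projections along all the vectors of a suitable basis. -/
theorem npj {ι : Type} [Finite ι] (c : Module.Basis ι ℂ F) {t : F → W} {O : Set F} {x : F}
    (hO : IsOpen O) (hx : x ∈ O) (ht : DifferentiableOn ℂ t O) (hR : Rm O {y | t y = 0})
    (hn : ∃ᶠ y in 𝓝 x, t y ≠ 0) :
    ∃ (b : Module.Basis ι ℂ F) (V : Set F) (δ : ι → F → ℂ), IsOpen V ∧ x ∈ V ∧ V ⊆ O ∧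
      ∀ k, DifferentiableOn ℂ (δ k) V ∧ (∀ y (w : ℂ), δ k (y + w • b k) = δ k y) ∧
        (∀ y ∈ V, ∃ᶠ s in 𝓝 y, δ k s ≠ 0) ∧ ∀ y ∈ V, t y = 0 → δ k y = 0 := by
  obtain ⟨r, r0, hr⟩ := Metric.isOpen_iff.1 hO x hx
  set S : Set F := (fun v => x + v) ⁻¹' (ball x r ∩ t ⁻¹' {0}ᶜ) with hS
  have oS : IsOpen S := ((ht.continuousOn.mono hr).isOpen_inter_preimage isOpen_ball
    isOpen_compl_singleton).preimage (by fun_prop)
  obtain ⟨y, y1, y2⟩ := (hn.and_eventually (ball_mem_nhds x r0)).exists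
  have sp : ⊤ ≤ Submodule.span ℂ S := (Submodule.eq_top_of_nonempty_interior' _
    ⟨y - x, interior_mono Submodule.subset_span (by
      rw [oS.interior_eq, hS, mem_preimage, add_sub_cancel]
      exact ⟨y2, y1⟩)⟩).ge
  set b := (Module.Basis.ofSpan sp).reindex ((Module.Basis.ofSpan sp).indexEquiv c) with hb
  have bS : ∀ k, b k ∈ S := fun k => Module.Basis.ofSpan_subset sp (by
    rw [← Module.Basis.range_reindex _ ((Module.Basis.ofSpan sp).indexEquiv c)]
    exact mem_range_self k)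
  have key := fun k => (SeparatingDual.exists_ne_zero (R := ℂ) (bS k).2).elim fun τ hτ =>
    npj2 τ hO hx ht hR (b.ne_zero k) fun h => hτ (by
      have dL : Differentiable ℂ fun w : ℂ => x + w • b k := by fun_prop
      have := H85.eq_zero_of_convex (O := (fun w : ℂ => x + w • b k) ⁻¹' ball x r)
        (isOpen_ball.preimage dL.continuous) (fun s hs s' hs' a a' a0 a1 a2 => by
          have := convex_ball x r hs hs' a0 a1 a2
          rw [mem_preimage, show x + (a • s + a' • s') • b k =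
            a • (x + s • b k) + a' • (x + s' • b k) by
              rw [smul_add, smul_add, add_add_add_comm, ← add_smul, a2, one_smul, add_smul,
                smul_assoc, smul_assoc]]
          exact this)
        ((τ.differentiable.comp_differentiableOn ht).comp dL.differentiableOn fun w hw => hr hw)
        (y := 0) (by simpa using r0) h (z := 1) (by simpa using (bS k).1)
      simpa using this)
  choose V δ v1 v2 v3 v4 v5 v6 v7 using key
  exact ⟨b, O ∩ ⋂ k, V k, δ, hO.inter (isOpen_iInter_of_finite v1), ⟨hx, mem_iInter.2 v2⟩,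
    inter_subset_left, fun k => ⟨(v4 k).mono fun y hy => mem_iInter.1 hy.2 k, v5 k,
      fun y hy => v6 k y (mem_iInter.1 hy.2 k), fun y hy => v7 k y (mem_iInter.1 hy.2 k)⟩⟩

end Pool.Agent.Lib.F4H.P72
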