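import Pool.Agent.Lib.F4H.Defs
import Pool.Agent.Lib.F4H.N35
import Pool.Agent.Lib.F4H.Npj72
import Pool.Agent.Lib.F4G.Aub37

/-! Project f4h: the rule of division, from its pieces. -/

open scoped Classical Topology ContDiff ComplexOrder Matrix
open Set MeasureTheory Filter Metric

set_option linter.unusedVariables false

noncomputable section

namespace Pool.Agent.Lib.F4H.N35

open Pool.Agent.Lib.SV (E)
open Pool.Agent.Lib.HS32 Pool.Agent.Lib.HLK Pool.Agent.Lib.F4 Pool.Agent.Lib.F4G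
open Pool.Agent.Lib.F4H.H69

variable {n : ℕ} {M : Mf n} {H Θ : M.Fam (Mat n)} {σ π : M.X → ℝ}

/-- The common zeros of two functions lie in removable zero sets. -/
def Cz (M : Mf n) (σ π : M.X → ℝ) : Prop := ∀ x, ∃ e ∈ M.C, x ∈ e.source ∧
  ∃ (V : Set (E n)) (t : E n → ℂ × ℂ), IsOpen V ∧ e x ∈ V ∧ V ⊆ e.target ∧
    DifferentiableOn ℂ t V ∧ G72.Rm V {z | t z = 0} ∧ (∃ᶠ z in 𝓝 (e x), t z ≠ 0) ∧
    ∀ z ∈ V, σ (e.symm z) = 0 → π (e.symm z) = 0 → t z = 0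

/-- The zero set has thin projections. -/
def Np (M : Mf n) (τ : M.X → ℝ) : Prop := ∀ x, ∃ e ∈ M.C, x ∈ e.source ∧
  ∃ (b : Module.Basis (Fin n) ℂ (E n)) (V : Set (E n)) (δ : Fin n → E n → ℂ), IsOpen V ∧
    e x ∈ V ∧ V ⊆ e.target ∧ ∀ k, DifferentiableOn ℂ (δ k) V ∧
      (∀ y (w : ℂ), δ k (y + w • b k) = δ k y) ∧ (∀ y ∈ V, ∃ᶠ s in 𝓝 y, δ k s ≠ 0) ∧
      ∀ y ∈ V, τ (e.symm y) = 0 → δ k y = 0

/-- The divisors of zeros and poles. -/
def St_PQ : Prop := ∀ (n : ℕ) (M : Mf n) [M.Cpt] (H : M.Fam (Mat n)) (ι : Type) [Fintype ι]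
  (u : M.Fam (ι → ℂ)) (a : ℤ) (m : ℕ) (s : M.Fam ℂ), M.Met H → Hol u → Den M u →
  (M.Ov fun e e' x => u e (e x) = 0 → u e' (e' x) = 0) → 0 < m →
  (M.Ov fun e e' x => u e (e x) ≠ 0 → s e' (e' x) = jd M e e' x ^ a * s e (e x)) →
  (∀ e ∈ M.C, ∀ i, ∃ g : E n → ℂ, DifferentiableOn ℂ g e.target ∧
    ∀ z ∈ e.target, u e z ≠ 0 → g z = s e z * u e z i ^ m) →
  (∃ t, H0 M a t ∧ M.All fun e z => u e z ≠ 0 → t e z = s e z) ∨
  ∃ σ π Θ, Dv M σ Θ ∧ Dv M π (Θ + (a : ℝ) • -M.ric H) ∧ (∃ x, σ x = 0) ∧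
    (M.All fun e z => ∃ C : ℝ, ∀ᶠ w in 𝓝 z, ‖u e w‖ ^ (2 * m) ≤ C * σ (e.symm w)) ∧ Cz M σ π

/-- The regularised forms have no mass near a thin set. -/
def St_MASS : Prop := ∀ (n : ℕ) (M : Mf n) [M.Cpt] (H : M.Fam (Mat n)) (τ σ : M.X → ℝ)
  (B : ℝ → M.Fam (Mat n)) (C : ℝ), M.Kae H → M.Sm τ → M.Sm σ → Dl M σ → (∀ x, σ x ≤ τ x) →
  Np M τ → (∀ h ∈ Ioc (0 : ℝ) 1, M.Form (B h) ∧ M.Le 0 (B h) ∧
    M.Le (B h) ((M.hs fun x => Real.log (τ x + h)) + C • H)) →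
  Tendsto (fun h => ∫ x, h / (τ x + h) * M.tr H (B h) x ∂M.mu H) (𝓝[>] 0) (𝓝 0)

/-- The regularised current of a divisor. -/
def St_QD : Prop := ∀ (n : ℕ) (M : Mf n) [M.Cpt] (H Θ : M.Fam (Mat n)) (σ : M.X → ℝ), M.Met H →
  Dv M σ Θ → M.mu H {x | σ x = 0} = 0 ∧ ∀ h : ℝ, 0 < h →
    M.Le (LD.fs M (fun x => h / (σ x + h)) Θ) (Θ + M.hs fun x => Real.log (σ x + h))

theorem dv_nonneg (h : Dv M σ Θ) (x : M.X) : 0 ≤ σ x := by
  obtain ⟨e, he, hx, q, g, -, b⟩ := h.dl x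
  have := b.self_of_nhds.2.2
  rw [e.left_inv hx] at this
  rw [this]
  exact mul_nonneg (Complex.normSq_nonneg _) (Real.exp_pos _).le

theorem dv_exp (h : Dv M σ Θ) {w : M.X → ℝ} (hw : M.Sm w) :
    Dv M (fun x => σ x * Real.exp (w x)) (Θ - M.hs w) := by
  refine ⟨h.sm.mul hw.exp, fun x => ?_, h.clo.sub ((mHES n M).1 w hw),
    fun e he z hz q g a b => ?_⟩
  · obtain ⟨e, he, hx, q, g, a, b⟩ := h.dl x
    refine ⟨e, he, hx, q, fun z => g z + w (e.symm z), a, ?_⟩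
    filter_upwards [b, Mf.AllOn.ev hw he (e.map_source hx)] with z b1 b2
    refine ⟨b1.1, b1.2.1.add b2, ?_⟩
    rw [b1.2.2, Real.exp_add, mul_assoc]
  · have := h.eq e he z hz q (fun y => g y - w (e.symm y)) a (by
      filter_upwards [b, Mf.AllOn.ev hw he hz] with y b1 b2
      refine ⟨b1.1, b1.2.1.sub b2, ?_⟩
      rw [Real.exp_sub, ← mul_div_assoc, ← b1.2.2, mul_div_cancel_right₀ _ (Real.exp_pos _).ne'])
    simp only [Complex.ofReal_sub] at this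
    have k := hess_sub (cd_ofReal b.self_of_nhds.2.1) (hw.lc e he z hz)
    simp only [Mf.lc] at k
    rw [Pi.sub_apply, Pi.sub_apply, this, k]
    simp only [Mf.hs]
    abel

theorem Cz.np (h : Cz M σ π) {τ : M.X → ℝ} (hτ : ∀ x, τ x = 0 → σ x = 0 ∧ π x = 0) :
    Np M τ := fun x => by
  obtain ⟨e, he, hx, V, t, v1, v2, v3, v4, v5, v6, v7⟩ := h x
  obtain ⟨b, W, δ, w1, w2, w3, w4⟩ := P72.npj (Pi.basisFun ℂ (Fin n)) v1 v2 v4 v5 v6
  exact ⟨e, he, hx, b, W, δ, w1, w2, w3.trans v3, fun k => ⟨(w4 k).1, (w4 k).2.1, (w4 k).2.2.1,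
    fun y hy c => (w4 k).2.2.2 y hy (v7 y (w3 hy) (hτ _ c).1 (hτ _ c).2)⟩⟩

theorem Cz.symm (h : Cz M σ π) : Cz M π σ := fun x => by
  obtain ⟨e, he, hx, V, t, v1, v2, v3, v4, v5, v6, v7⟩ := h x
  exact ⟨e, he, hx, V, t, v1, v2, v3, v4, v5, v6, fun z hz a b => v7 z hz b a⟩

theorem sq_of [M.Cpt] (hQ : St_QD) (hM : St_MASS) {a : ℝ → M.X → ℝ} {b : ℝ} (hH : M.Kae H)
    (ha : ZK47.Out M H 0 a) (hb : 0 ≤ b) (h1 : Dv M σ Θ) (h2 : Dv M π (Θ - b • -M.ric H))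
    (hc : Cz M σ π) : 0 ≤ Qm M H Θ Θ := by
  have hm := hH.toMet
  have step : ∀ ε ∈ Ioc (0 : ℝ) 1, 0 ≤ Qm M H (Θ + (b * ε) • H) (Θ + (b * ε) • H) := by
    intro ε hε
    have sw : M.Sm fun x => b * a ε x := (ha.sm ε hε).const_mul b
    have d2 := dv_exp h2 sw
    have p1 := dv_nonneg h1
    have p2 := dv_nonneg d2
    have cS := h1.clo.add (hH.toClo.smul (b * ε))
    have s12 := h1.sm.add d2.sm
    have p12 : ∀ x, 0 ≤ σ x + π x * Real.exp (b * a ε x) := fun x => add_nonneg (p1 x) (p2 x)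
    have P1 : Pp M σ (Θ + (b * ε) • H) :=
      ((pp_iff h1.sm p1).2 (hQ n M H _ _ hm h1).2).mono p1 fun e he z hz => by
        simpa using Mf.psd_rsmul (hm.pos e he z hz).posSemidef (mul_nonneg hb hε.1.le)
    have P2 : Pp M (fun x => π x * Real.exp (b * a ε x)) (Θ + (b * ε) • H) :=
      ((pp_iff d2.sm p2).2 (hQ n M H _ _ hm d2).2).mono p2 fun e he z hz => by
        have := Mf.psd_rsmul ((ha.kae ε hε).pos e he z hz).posSemidef hb
        refine (congrArg Matrix.PosSemidef ?_).mp this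
        simp only [Pi.add_apply, Pi.sub_apply, Pi.smul_apply, Pi.neg_apply, Pi.zero_apply,
          (((mLAP n M) _ _ (ha.sm ε hε) (ha.sm ε hε)).1 b e he z hz).2.2.2.1]
        module
    have P := P1.add P2 h1.sm d2.sm p1 p2
    obtain ⟨C, C0, hC, -⟩ := (mBD n M H hm).1 _ cS.toForm
    refine sq_nonneg hH cS s12 p12 (measure_mono_null (fun x hx => ?_) (hQ n M H _ _ hm h1).1) P
      (hM n M H _ σ _ C hH s12 h1.sm h1.dl (fun x => le_add_of_nonneg_right (p2 x))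
        (hc.np fun x hx => ?_) fun h hh => ⟨bb_form cS.toForm s12 p12 hh.1,
          bb_nonneg P s12 p12 hh.1, bb_le hm C0.le hC p12 hh.1⟩)
    · exact ((add_eq_zero_iff_of_nonneg (p1 x) (p2 x)).1 hx).1
    · obtain ⟨c1, c2⟩ := (add_eq_zero_iff_of_nonneg (p1 x) (p2 x)).1 hx
      exact ⟨c1, (mul_eq_zero.1 c2).resolve_right (Real.exp_pos _).ne'⟩
  have t := h1.clo.toTen
  have tH := hm.toTen
  have ex : ∀ c : ℝ, Qm M H (Θ + c • H) (Θ + c • H) =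
      Qm M H Θ Θ + c * (2 * Qm M H Θ H + c * Qm M H H H) := fun c => by
    simp only [Qm]
    rw [q_add hm (t.add (tH.smul c)) t (tH.smul c), q_smul, q_comm (T := Θ), q_comm (T := H),
      q_add hm t t (tH.smul c), q_add hm tH t (tH.smul c), q_smul, q_smul,
      q_comm (S := H) (T := Θ)]
    ring
  have c : ContinuousAt (fun ε : ℝ => Qm M H Θ Θ +
      b * ε * (2 * Qm M H Θ H + b * ε * Qm M H H H)) 0 := by fun_prop
  have l := c.tendsto.mono_left (nhdsWithin_le_nhds (s := Ioi 0))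
  simp only [mul_zero, zero_mul, add_zero] at l
  refine ge_of_tendsto l ?_
  filter_upwards [Ioc_mem_nhdsGT one_pos] with ε hε
  rw [← ex]
  exact step ε hε

theorem ay2 [M.Cpt] (hA : HS.St_AUBIN) {a : ℝ → M.X → ℝ} (hn : 0 < n) (hH : M.Kae H)
    (ha : ZK47.Out M H 0 a) :
    ∃ G, M.Kae G ∧ M.Le (-G) (M.ric G) ∧ M.Le (M.ric G) ((1 : ℝ) • H) := by
  have o : (1 : ℝ) ∈ Ioc (0 : ℝ) 1 := ⟨one_pos, le_rfl⟩
  obtain ⟨u, hu, hk, hd⟩ := ZE.nAUB hA n M H (-M.ric H + (1 : ℝ) • H) (a 1) (fun _ => 0) hn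
    hH.toMet (ha.sm 1 o) (by simpa only [zero_sub] using ha.kae 1 o) (Mf.sm_const 0)
  have r := ((mHES n M).2.2.2.2.2.2.2.2.2 _ H hk.toMet hH.toMet).2
  simp only [hd, Real.log_exp, add_zero] at r
  refine ⟨_, hk, fun e he z hz => ?_, fun e he z hz => ?_⟩
  · refine (congrArg Matrix.PosSemidef ?_).mp (hH.pos e he z hz).posSemidef
    rw [r e he z hz]
    simp only [Pi.add_apply, Pi.neg_apply, one_smul]
    abel
  · refine (congrArg Matrix.PosSemidef ?_).mp (hk.pos e he z hz).posSemidef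
    rw [r e he z hz]
    simp only [Pi.add_apply, Pi.neg_apply, Pi.smul_apply, one_smul]
    abel

theorem rul_of (hA : HS.St_AUBIN) (hQ : St_QD) (hM : St_MASS) (hP : St_PQ) (h1 : St_N1)
    (hN : St_NUMD) : St_RUL := by
  intro M _ H a ι _ u hH ha hk q0 no hu du bo b m s m0 s1 s2
  have hm := hH.toMet
  obtain ⟨G, g1, g2, g3⟩ := ay2 hA four_pos hH ha
  obtain ⟨V, -, -, v, -⟩ := bo.choose_spec.2 1 G zero_le_one g1 g2 g3
  refine (hP 4 M H ι u b m s hm hu du (fun e he e' he' x hx hx' c => ?_) m0 s1 s2).resolve_right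
    fun ⟨σ, π, Θ, d1, d2, z, le, cz⟩ => no ?_
  · have a1 := (v e he _ (e.map_source hx)).1
    have a2 := (v e' he' _ (e'.map_source hx')).1
    rw [e.left_inv hx] at a1
    rw [e'.left_inv hx'] at a2
    exact a2.1 (a1.2 c)
  have n1 := h1 M H Θ σ a ι u m hH ha hk hu du bo d1 m0 le
  refine hN 4 M H Θ σ a four_pos hH ha hk q0 d1 z n1 ?_
  rcases le_total (b : ℝ) 0 with b0 | b0
  · exact sq_of hQ hM hH ha (neg_nonneg.2 b0) d1 (by rwa [neg_smul, sub_neg_eq_add]) cz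
  have k := sq_of hQ hM hH ha b0 d2 (by rwa [add_sub_cancel_right]) cz.symm
  have t := d1.clo.toTen
  have tK := ((mHES 4 M).2.2.2.2.2.2.2.2.1 _ hm).toTen.neg
  simp only [Qm, k2] at k n1 hk ⊢
  rw [q_add hm (t.add (tK.smul b)) t (tK.smul b), q_smul, q_comm (T := Θ),
    q_comm (T := -M.ric H), q_add hm t t (tK.smul b), q_add hm tK t (tK.smul b), q_smul, q_smul,
    q_comm (S := Θ) (T := -M.ric H)] at k
  nlinarith [mul_nonneg b0 (neg_nonneg.2 n1), mul_nonneg (mul_nonneg b0 b0) (neg_nonneg.2 hk)]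

end Pool.Agent.Lib.F4H.N35
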