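import Pool.Agent.Lib.F4H.Mid51
import Pool.Agent.Lib.F4H.Rul35

/-! Project f4h: a divisor whose class is proportional to the canonical class. -/

open scoped Classical Topology ContDiff ComplexOrder Matrix
open Set MeasureTheory Filter Metric

set_option linter.unusedVariables false

noncomputable section

namespace Pool.Agent.Lib.F4H.M51

open Pool.Agent.Lib.SV (E)
open Pool.Agent.Lib.HS32 Pool.Agent.Lib.F4 Pool.Agent.Lib.F4G Pool.Agent.Lib.F4H.H69

variable {n : ℕ} {M : Mf n} {H Θ : M.Fam (Mat n)} {σ : M.X → ℝ}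

/-- A divisor that is not empty has positive degree. -/
theorem deg_pos [M.Cpt] (hQ : N35.St_QD) (hn : 0 < n) (hH : M.Kae H) (hσ : Dv M σ Θ)
    (h0 : ∃ x, σ x = 0) : 0 < ∫ x, M.tr H Θ x ∂M.mu H := by
  by_contra hle
  have hm := hH.toMet
  obtain ⟨-, hf, -, vol, hi, -⟩ := mMU n M H hm
  have sT := ((mINV n M H hm).1 Θ hσ.clo.toTen).2.1
  set k : ℝ := (∫ x, M.tr H Θ x ∂M.mu H) / (M.mu H).real univ with hk
  have k0 : k ≤ 0 := div_nonpos_of_nonpos_of_nonneg (not_lt.1 hle) vol.le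
  obtain ⟨v, sv, hv⟩ := poi (a := fun x => k - M.tr H Θ x) hn hH ((Mf.sm_const k).sub sT) (by
    rw [integral_sub (integrable_const _) (hi ℝ _ sT.continuous), integral_const, smul_eq_mul, hk,
      mul_div_cancel₀ _ vol.ne', sub_self])
  have d := N35.dv_exp hσ sv
  obtain ⟨z0, z1⟩ := hQ n M H _ _ hm d
  have p0 := N35.dv_nonneg d
  obtain ⟨c, hc⟩ := KP.st_HARM n M H _ hH (N35.hs_log d.sm p0 one_pos).1 fun x => by
    have a := hm.tr_mono (z1 1 one_pos) x
    have b := hv x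
    simp only [Mf.lap] at b ⊢
    rw [((LD.st_PSD n M H hm x).2.2 _ _ 0).1, Mf.tr_add, Mf.tr_sub, b] at a
    have p : 0 < σ x * Real.exp (v x) + 1 := add_pos_of_nonneg_of_pos (p0 x) one_pos
    have q : 1 / (σ x * Real.exp (v x) + 1) ≤ 1 := (div_le_one p).2 (by linarith [p0 x])
    nlinarith [mul_nonneg (sub_nonneg.2 q) (neg_nonneg.2 k0)]
  obtain ⟨y, hy⟩ := h0
  have c0 : c = 0 := by rw [← hc y, hy, zero_mul, zero_add, Real.log_one]
  have a : {x | σ x * Real.exp (v x) = 0} = univ := eq_univ_of_forall fun x => by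
    have b := Real.eq_one_of_pos_of_log_eq_zero (add_pos_of_nonneg_of_pos (p0 x) one_pos)
      ((hc x).trans c0)
    exact add_eq_right.1 b
  rw [a] at z0
  simp [Measure.real, z0] at vol

theorem numd_of (hP : KP.St_POI) (hQ : N35.St_QD) : St_NUMD := by
  intro n M _ H Θ σ a hn hH ha _ hq hσ h0 h1 h2
  have hm := hH.toMet
  have cT : M.Clo (-M.ric H) := ((mHES n M).2.2.2.2.2.2.2.2.1 H hm).neg
  obtain ⟨k1, k2⟩ := LD.st_NF2 LD.st_MXC LD.st_PSD n M H a hH ha
  rcases k1.eq_or_lt with k0 | k0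
  · obtain ⟨v, sv, hv⟩ := hix hn hH cT k0.symm k2
    have hφ : M.Wt 1 (ph M H) := (mINV n M H hm).2.2.2.2.2.2.1
    obtain ⟨w1, w2⟩ := (mHES n M).2.2.2.2.2.1 v sv
    obtain ⟨w3, -, w4⟩ := (mHES n M).2.2.2.2.1 1 0 _ _ 0 hφ w1
    refine flat93 hP M H hn hH hq _ ⟨fun e he z hz => (w3.sm e he z hz).of_le
      (WithTop.coe_le_coe.2 le_top), fun e he e' he' x hx hx' => ?_⟩ fun e he z hz => ?_
    · have := w3.cmp e he e' he' x hx hx'
      rwa [add_zero, one_mul] at this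
    · refine ((w4 e he z hz).1.trans ?_).trans (hv e he z hz)
      rw [w2]
      exact congrArg (· + M.hs v e z) (neg_neg _).symm
  · have t0 := deg_pos hQ hn hH hσ h0
    have c0 := div_pos t0 k0
    obtain ⟨v, sv, hv⟩ := hi2 hn hH cT hσ.clo (div_mul_cancel₀ _ k0.ne').symm k2
      (mul_nonpos_of_nonneg_of_nonpos c0.le h1) h2
    refine (mid51 hP hn hH hq hσ sv c0 hv).resolve_right fun c => k0.ne' ?_
    simp only [Mf.tr_neg, integral_neg, c, neg_zero]

end Pool.Agent.Lib.F4H.M51
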