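import Pool.Agent.Lib.F4H.Npj72
import Pool.Agent.Lib.F4G.Con1
import Pool.Agent.Lib.F4G.Crit

/-! Project f4h: circles without polar points at small non-zero levels. -/

open scoped Topology Classical
open Set Filter Metric

noncomputable section

namespace Pool.Agent.Lib.F4H.P72

open Pool.Agent.Lib.SV Pool.Agent.Lib.F4.G72 Pool.Agent.Lib.F4G

/-- The logarithmic derivative has a pole at a zero. -/
theorem pole {g a b : ℂ → ℂ} {y : ℂ} (hg : AnalyticAt ℂ g y) (ha : ContinuousAt a y)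
    (hb : ContinuousAt b y) (h0 : g y = 0) (hn : ¬∀ᶠ x in 𝓝 y, g x = 0)
    (he : ∀ᶠ x in 𝓝 y, deriv g x * a x = g x * b x) : a y = 0 := by
  obtain ⟨m, u, u1, u2, u3⟩ := (hg.exists_eventuallyEq_pow_smul_nonzero_iff).2 hn
  rcases m with _ | m
  · exact (u2 (by simpa [h0] using u3.self_of_nhds.symm)).elim
  have cu := u1.continuousAt
  have cd := u1.deriv.continuousAt
  have := eq_fr (f := fun x => (((m + 1 : ℕ) : ℂ) * u x + (x - y) * deriv u x) * a x)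
    (g := fun x => (x - y) * u x * b x) (x := y) (by fun_prop) (by fun_prop)
    ((((frequently_iff_neBot.2 (inferInstance : (𝓝[≠] y).NeBot)).and_eventually
      (he.and (u3.eventually_nhds.and u1.eventually_analyticAt)))).mono fun x hx => by
      obtain ⟨x0, e1, e2, e3⟩ := hx
      have d : HasDerivAt g _ x := ((((hasDerivAt_id x).sub_const y).fun_pow (m + 1)).fun_mul
        e3.differentiableAt.hasDerivAt).congr_of_eventuallyEq e2
      rw [d.deriv, e2.self_of_nhds] at e1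
      refine mul_left_cancel₀ (pow_ne_zero m (sub_ne_zero.2 x0)) ?_
      simp only [id, Nat.add_sub_cancel, mul_one, smul_eq_mul] at e1
      linear_combination e1)
  simpa [u2, Nat.cast_add_one_ne_zero] using this

/-- Near a zero, the limits of polar points of non-zero level lie over a countable set. -/
theorem pol1 {G : ℂ × ℂ → ℂ} {O : Set (ℂ × ℂ)} {q : ℂ × ℂ} (hO : IsOpen O) (hq : q ∈ O)
    (hA : ∀ y ∈ O, AnalyticAt ℂ G y) (hn : ¬∀ᶠ x in 𝓝 q.2, G (q.1, x) = 0) :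
    ∃ N ∈ 𝓝 q, (Prod.fst '' {y | y ∈ N ∧ G y = 0 ∧ (¬∀ᶠ x in 𝓝 y.2, G (y.1, x) = 0) ∧
      ∃ᶠ s in 𝓝 y, G s ≠ 0 ∧ Con.dy G s = 0}).Countable := by
  obtain ⟨r, ε, f, t, δ, r0, e0, DO, df, dt, ut, dδ, fδ, z0⟩ :=
    lgq (u := fun y : ℂ × ℂ => (G y.swap, Con.dy G y.swap)) (O := Prod.swap ⁻¹' O) (p := q.swap)
      (ContinuousLinearMap.fst ℂ ℂ ℂ) (hO.preimage continuous_swap) hq
      (fun y hy => (((hA _ hy).differentiableAt.prodMk
        (Con.dy_an (hA _ hy)).differentiableAt).comp y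
          (differentiableAt_snd.prodMk differentiableAt_fst)).differentiableWithinAt) hn
  set D := ball q.swap.1 r ×ˢ ball q.swap.2 ε with hD
  have oD : IsOpen D := isOpen_ball.prod isOpen_ball
  obtain ⟨z, z1, z2⟩ := ((fδ _ (mem_ball_self e0)).and_eventually (ball_mem_nhds _ e0)).exists
  refine ⟨Prod.swap ⁻¹' D, (oD.preimage continuous_swap).mem_nhds
    ⟨mem_ball_self r0, mem_ball_self e0⟩, (Con.cz (convex_ball _ _).isPreconnected
      (dδ.analyticOnNhd isOpen_ball) z2 z1).mono ?_⟩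
  rintro _ ⟨y, ⟨y1, y2, y3, y4⟩, rfl⟩
  refine ⟨y1.2, z0 _ y1 ?_⟩
  have ct : ContinuousAt t y.swap := dt.continuousOn.continuousAt (oD.mem_nhds y1)
  have c : ContinuousAt (fun x : ℂ => (x, y.1)) y.2 := by fun_prop
  have ct' : ContinuousAt (fun x : ℂ => t (x, y.1)) y.2 :=
    ContinuousAt.comp (f := fun x => (x, y.1)) ct c
  refine Prod.ext (pole (g := fun x => G (y.1, x)) (a := fun x => (t (x, y.1)).1)
    (b := fun x => (t (x, y.1)).2) (Con.sl_an (hA _ (DO y1))) ct'.fst ct'.snd y2 y3 ?_) ?_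
  · filter_upwards [c.eventually (oD.mem_nhds y1)] with x hx
    have e := ut _ hx
    rw [(Con.sl_der (q := (y.1, x)) (hA _ (DO hx))).deriv,
      show Con.dy G (y.1, x) = _ from congrArg Prod.snd e,
      show G (y.1, x) = _ from congrArg Prod.fst e]
    simp only [Prod.smul_fst, Prod.smul_snd, smul_eq_mul]
    ring
  · refine eq_fr (f := fun s : ℂ × ℂ => (t s.swap).2) (g := fun _ => 0)
      (ct.comp continuous_swap.continuousAt).snd continuousAt_const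
      ((y4.and_eventually (continuous_swap.continuousAt.eventually (oD.mem_nhds y1))).mono
        fun s hs => ?_)
    have e := ut _ hs.2
    have e1 : G s = f s.swap * (t s.swap).1 := congrArg Prod.fst e
    have e2 : Con.dy G s = f s.swap * (t s.swap).2 := congrArg Prod.snd e
    exact (mul_eq_zero.1 (e2 ▸ hs.1.2)).resolve_left fun h => hs.1.1 (by rw [e1, h, zero_mul])

/-- POLAR. -/
theorem polar {G : ℂ × ℂ → ℂ} {R p a b : ℝ}
    (hA : ∀ t y, ‖t‖ < R → ‖y‖ ≤ p → AnalyticAt ℂ G (t, y))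
    (hn : ∀ t y, ‖t‖ < R → ‖y‖ ≤ p → G (t, y) = 0 → ¬∀ᶠ x in 𝓝 y, G (t, x) = 0)
    (hab : a < b) (hb : b ≤ R) :
    ∃ r ∈ Ioo a b, ∃ d > 0, ∀ t y, ‖t‖ = r → ‖y‖ ≤ p → G (t, y) ≠ 0 → ‖G (t, y)‖ < d →
      Con.dy G (t, y) ≠ 0 := by
  set S : Set (ℂ × ℂ) := {y | (‖y.1‖ < R ∧ ‖y.2‖ ≤ p) ∧ G y = 0 ∧
    ∃ᶠ s in 𝓝 y, G s ≠ 0 ∧ Con.dy G s = 0} with hS
  have cS : (Prod.fst '' S).Countable := C90.loc90 Prod.fst S fun q hq => by
    obtain ⟨N, n1, n2⟩ := pol1 (O := {y | AnalyticAt ℂ G y}) (isOpen_analyticAt ℂ G)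
      (hA _ _ hq.1.1 hq.1.2) (fun _ h => h) (hn _ _ hq.1.1 hq.1.2 hq.2.1)
    exact ⟨N, n1, n2.mono (image_mono fun y hy => mem_ofPred_eq ▸
      ⟨hy.2, hy.1.2.1, hn _ _ hy.1.1.1 hy.1.1.2 hy.1.2.1, hy.1.2.2⟩)⟩
  obtain ⟨r, r1, r2⟩ := ((cS.image fun z : ℂ => ‖z‖).dense_compl ℝ).inter_open_nonempty _
    isOpen_Ioo (nonempty_Ioo.2 hab)
  refine ⟨r, r1, ?_⟩
  set K : Set (ℂ × ℂ) := sphere 0 r ×ˢ closedBall 0 p with hK
  have mK : ∀ y ∈ K, ‖y.1‖ < R ∧ ‖y.2‖ ≤ p := fun y hy =>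
    ⟨(mem_sphere_zero_iff_norm.1 hy.1).trans_lt (r1.2.trans_le hb), mem_closedBall_zero_iff.1 hy.2⟩
  obtain ⟨d, d0, hd⟩ := (((isCompact_sphere (0 : ℂ) r).prod
    (isCompact_closedBall (0 : ℂ) p)).inter_right (isClosed_closure
      (s := {s | G s ≠ 0 ∧ Con.dy G s = 0}))).exists_forall_le' (f := fun y => ‖G y‖)
    (fun y hy => (hA _ _ (mK y hy.1).1 (mK y hy.1).2).continuousAt.norm.continuousWithinAt)
    (a := 0) fun y hy => norm_pos_iff.2 fun h => r2 ⟨y.1, ⟨y, ⟨mK y hy.1, h,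
      mem_closure_iff_frequently.1 hy.2⟩, rfl⟩, mem_sphere_zero_iff_norm.1 hy.1.1⟩
  exact ⟨d, d0, fun t y ht hy g0 gd h => (hd (t, y) ⟨⟨mem_sphere_zero_iff_norm.2 ht,
    mem_closedBall_zero_iff.2 hy⟩, subset_closure ⟨g0, h⟩⟩).not_gt gd⟩

end Pool.Agent.Lib.F4H.P72
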