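import Pool.Agent.Lib.F4.G72a
import Pool.Agent.Lib.F4.B_PSI

/-! Project f4h: a solution of a Riccati equation along the kernel of a form has no pole. -/

open scoped Classical Topology ContDiff ComplexOrder Matrix
open Set Filter Metric

noncomputable section

namespace Pool.Agent.Lib.F4H.R27

open Pool.Agent.Lib.SV (E)
open Pool.Agent.Lib.HS32 Pool.Agent.Lib.F4

theorem le_of_pow {x C a A : ℝ} (hC : 0 < C) (ha : 0 < a) (h : ∀ k : ℕ, x ^ k * a ≤ C ^ k * A) :
    x ≤ C := by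
  by_contra hx
  obtain ⟨k, hk⟩ := pow_unbounded_of_one_lt (A / a) ((one_lt_div hC).2 (not_le.1 hx))
  rw [div_pow, div_lt_div_iff₀ ha (pow_pos hC k)] at hk
  nlinarith [h k]

variable {F : Type} [NormedAddCommGroup F] [NormedSpace ℂ F]

/-- A circle which avoids the zero set. -/
theorem circ {U : Set F} (hU : IsOpen U) {a : F → ℂ} (ha : DifferentiableOn ℂ a U) {x : F}
    (hx : x ∈ U) (h0 : ∃ᶠ y in 𝓝 x, a y ≠ 0) : ∃ v : F,
    (∀ t ∈ closedBall (0 : ℂ) 1, x + t • v ∈ U) ∧ ∀ t ∈ sphere (0 : ℂ) 1, a (x + t • v) ≠ 0 := by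
  obtain ⟨R, hR, hb⟩ := Metric.isOpen_iff.1 hU x hx
  obtain ⟨y, hy, hy'⟩ := (h0.and_eventually (ball_mem_nhds x hR)).exists
  have hn : ‖y - x‖ < R := by simpa [dist_eq_norm] using hy'
  have mb : ∀ t ∈ closedBall (0 : ℂ) 1, x + t • (y - x) ∈ U := fun t ht => hb (by
    rw [mem_ball, dist_self_add_left, norm_smul]
    have := mem_closedBall_zero_iff.1 ht
    nlinarith [norm_nonneg (y - x), norm_nonneg t])
  have cL : Differentiable ℂ fun t : ℂ => x + t • (y - x) := by fun_prop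
  have an : AnalyticOnNhd ℂ (fun t : ℂ => a (x + t • (y - x))) (closedBall 0 1) := fun t ht =>
    (ha.comp cL.differentiableOn (s := (fun t : ℂ => x + t • (y - x)) ⁻¹' U) fun _ h => h).analyticAt
      ((hU.preimage cL.continuous).mem_nhds (mb t ht))
  rcases (an 0 (mem_closedBall_self zero_le_one)).eventually_eq_zero_or_eventually_ne_zero with
    h | h
  · have := an.eqOn_zero_of_preconnected_of_eventuallyEq_zero
      (convex_closedBall _ _).isPreconnected (mem_closedBall_self zero_le_one) h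
      (show (1 : ℂ) ∈ _ by simp)
    exact (hy (by simpa using this)).elim
  · obtain ⟨ε, e0, he⟩ := Metric.eventually_nhds_iff_ball.1 (eventually_nhdsWithin_iff.1 h)
    set r : ℝ := min (ε / 2) 1 with hr
    have r0 : 0 < r := lt_min (by positivity) one_pos
    have nr : ∀ t : ℂ, ‖t * (r : ℂ)‖ = ‖t‖ * r := fun t => by
      rw [norm_mul, Complex.norm_real, Real.norm_of_nonneg r0.le]
    refine ⟨(r : ℂ) • (y - x), fun t ht => ?_, fun t ht => ?_⟩
    · rw [smul_smul]
      refine mb _ (mem_closedBall_zero_iff.2 ?_)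
      rw [nr]
      exact mul_le_one₀ (mem_closedBall_zero_iff.1 ht) r0.le (min_le_right _ _)
    · rw [smul_smul]
      have t1 : ‖t‖ = 1 := mem_sphere_zero_iff_norm.1 ht
      refine he _ (mem_ball_zero_iff.2 ?_) ?_
      · rw [nr, t1, one_mul]
        exact (min_le_left _ _).trans_lt (by linarith)
      · refine norm_ne_zero_iff.1 ?_
        rw [nr, t1, one_mul]
        exact r0.ne'

/-- The bound. -/
theorem bnd {U : Set F} (hU : IsOpen U) {a b : F → ℂ} {h : ℕ → F → ℂ}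
    (ha : DifferentiableOn ℂ a U) (hh : ∀ k, DifferentiableOn ℂ (h k) U)
    (he : ∀ k, ∀ y ∈ U, a y ≠ 0 → h k y = b y ^ k * a y) {x : F} (hx : x ∈ U)
    (h0 : ∃ᶠ y in 𝓝 x, a y ≠ 0) : ∃ C, ∀ᶠ y in 𝓝 x, a y ≠ 0 → ‖b y‖ ≤ C := by
  obtain ⟨v, v1, v2⟩ := circ hU ha hx h0
  have ca : ∀ y ∈ U, ContinuousAt a y := fun y hy => ha.continuousOn.continuousAt (hU.mem_nhds hy)
  have cf : ∀ y ∈ U, a y ≠ 0 → ContinuousAt (fun y => ‖h 1 y / a y‖ + ‖a y‖) y := fun y hy k =>
    (((hh 1).continuousOn.continuousAt (hU.mem_nhds hy)).div (ca y hy) k).norm.add (ca y hy).norm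
  have cL : Continuous fun t : ℂ => x + t • v := by fun_prop
  obtain ⟨C, hC⟩ := (isCompact_sphere (0 : ℂ) 1).bddAbove_image
    (f := fun t => ‖h 1 (x + t • v) / a (x + t • v)‖ + ‖a (x + t • v)‖) fun t ht =>
      (ContinuousAt.comp (f := fun t : ℂ => x + t • v)
        (cf _ (v1 t (sphere_subset_closedBall ht)) (v2 t ht)) cL.continuousAt).continuousWithinAt
  have cv : ∀ t : ℂ, Tendsto (fun y : F × ℂ => y.1 + y.2 • v) (𝓝 (x, t)) (𝓝 (x + t • v)) :=
    fun t => Continuous.tendsto (by fun_prop) _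
  have t1 : ∀ᶠ y in 𝓝 x, ∀ t ∈ closedBall (0 : ℂ) 1, y + t • v ∈ U :=
    (isCompact_closedBall _ _).eventually_forall_of_forall_eventually fun t ht =>
      (cv t).eventually (hU.mem_nhds (v1 t ht))
  have t2 : ∀ᶠ y in 𝓝 x, ∀ t ∈ sphere (0 : ℂ) 1, a (y + t • v) ≠ 0 ∧
      ‖h 1 (y + t • v) / a (y + t • v)‖ + ‖a (y + t • v)‖ < |C| + 1 :=
    (isCompact_sphere _ _).eventually_forall_of_forall_eventually fun t ht =>
      (cv t).eventually (p := fun w => a w ≠ 0 ∧ ‖h 1 w / a w‖ + ‖a w‖ < |C| + 1)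
        (((ca _ (v1 t (sphere_subset_closedBall ht))).eventually_ne (v2 t ht)).and
          ((cf _ (v1 t (sphere_subset_closedBall ht)) (v2 t ht)).eventually_lt continuousAt_const
            ((hC ⟨t, ht, rfl⟩).trans_lt (by linarith [le_abs_self C]))))
  refine ⟨|C| + 1, ?_⟩
  filter_upwards [t1, t2, hU.mem_nhds hx] with y y1 y2 y3 y4
  refine le_of_pow (A := |C| + 1) (by positivity) (norm_pos_iff.2 y4) fun k => ?_
  have d : DiffContOnCl ℂ (fun t : ℂ => h k (y + t • v)) (ball 0 1) := by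
    refine DifferentiableOn.diffContOnCl ?_
    rw [closure_ball _ one_ne_zero]
    exact (hh k).comp (by fun_prop) y1
  have := Complex.norm_le_of_forall_mem_frontier_norm_le isBounded_ball d
    (C := (|C| + 1) ^ k * (|C| + 1)) (fun t ht => by
      rw [frontier_ball _ one_ne_zero] at ht
      obtain ⟨k1, k2⟩ := y2 t ht
      have m := y1 t (sphere_subset_closedBall ht)
      rw [he 1 _ m k1, pow_one, mul_div_cancel_right₀ _ k1] at k2
      rw [he k _ m k1, norm_mul, norm_pow]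
      have n1 := norm_nonneg (a (y + t • v))
      have n2 := norm_nonneg (b (y + t • v))
      exact mul_le_mul (pow_le_pow_left₀ n2 (by linarith) k) (by linarith) n1 (by positivity))
    (subset_closure (mem_ball_self one_pos))
  rwa [zero_smul, add_zero, he k y y3 y4, norm_mul, norm_pow] at this

variable [FiniteDimensional ℂ F]

/-- If all the `b ^ k * a` are holomorphic, so is `b`. -/
theorem ext {U : Set F} (hU : IsOpen U) {a b : F → ℂ} {h : ℕ → F → ℂ}
    (ha : DifferentiableOn ℂ a U) (h0 : ∀ x ∈ U, ∃ᶠ y in 𝓝 x, a y ≠ 0)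
    (hh : ∀ k, DifferentiableOn ℂ (h k) U)
    (he : ∀ k, ∀ y ∈ U, a y ≠ 0 → h k y = b y ^ k * a y) :
    ∃ g : F → ℂ, DifferentiableOn ℂ g U ∧ ∀ y ∈ U, a y ≠ 0 → g y = b y := by
  have s : {w | w ∈ U ∧ a w ≠ 0} ⊆ U := fun _ k => k.1
  refine G72.rie hU ha h0 ((((hh 1).mono s).fun_mul ((ha.mono s).fun_inv fun _ k => k.2)).congr
    fun y k => ?_) fun x hx => bnd hU ha hh he hx (h0 x hx)
  rw [he 1 y k.1 k.2, pow_one, mul_inv_cancel_right₀ k.2]

omit [FiniteDimensional ℂ F] in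
/-- One component is nowhere locally zero on a ball. -/
theorem comp {σ : Type} [Fintype σ] {U : Set F} (hU : IsOpen U) {a : F → σ → ℂ}
    (ha : DifferentiableOn ℂ a U) {x : F} (hx : x ∈ U) (h0 : ∃ᶠ y in 𝓝 x, a y ≠ 0) :
    ∃ (i : σ) (R : ℝ), 0 < R ∧ ball x R ⊆ U ∧ ∀ z ∈ ball x R, ∃ᶠ y in 𝓝 z, a y i ≠ 0 := by
  obtain ⟨R, hR, hb⟩ := Metric.isOpen_iff.1 hU x hx
  obtain ⟨y, hy, hy'⟩ := (h0.and_eventually (ball_mem_nhds x hR)).exists
  obtain ⟨i, hi⟩ := Function.ne_iff.1 hy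
  refine ⟨i, R, hR, hb, fun z hz => not_eventually.1 fun k => hi ?_⟩
  exact SV.H85.eq_zero_of_convex (f := fun w => a w i) isOpen_ball (convex_ball x R)
    (differentiableOn_pi.1 (ha.mono hb) i) hz k hy'

/-- The same for a vector. -/
theorem extv {σ : Type} [Fintype σ] {U : Set F} (hU : IsOpen U) {a : F → σ → ℂ} {b : F → ℂ}
    {h : ℕ → F → σ → ℂ} (ha : DifferentiableOn ℂ a U) (h0 : ∀ x ∈ U, ∃ᶠ y in 𝓝 x, a y ≠ 0)
    (hh : ∀ k, DifferentiableOn ℂ (h k) U)
    (he : ∀ k, ∀ y ∈ U, a y ≠ 0 → h k y = b y ^ k • a y) :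
    ∃ g : F → ℂ, DifferentiableOn ℂ g U ∧ ∀ y ∈ U, h 1 y = g y • a y ∧ (a y ≠ 0 → g y = b y) := by
  have key : ∀ x ∈ U, ∃ G : F → ℂ, ∀ᶠ y in 𝓝 x, DifferentiableAt ℂ G y ∧ h 1 y = G y • a y := by
    intro x hx
    obtain ⟨i, R, hR, hb, hi⟩ := comp hU ha hx (h0 x hx)
    have ne : ∀ y, a y i ≠ 0 → a y ≠ 0 := fun y k k' => k (by rw [k']; rfl)
    obtain ⟨G, G1, G2⟩ := ext (b := b) (h := fun k w => h k w i) isOpen_ball
      (differentiableOn_pi.1 (ha.mono hb) i) hi
      (fun k => differentiableOn_pi.1 ((hh k).mono hb) i)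
      fun k y hy hn => congrFun (he k y (hb hy) (ne y hn)) i
    refine ⟨G, ?_⟩
    filter_upwards [ball_mem_nhds x hR] with y hy
    have m := isOpen_ball.mem_nhds hy
    refine ⟨G1.differentiableAt m, tendsto_nhds_unique_of_frequently_eq
      (((hh 1).mono hb).continuousOn.continuousAt m)
      ((G1.continuousOn.continuousAt m).smul ((ha.mono hb).continuousOn.continuousAt m)) ?_⟩
    refine ((hi y hy).and_eventually m).mono fun w hw => ?_
    show h 1 w = G w • a w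
    rw [he 1 w (hb hw.2) (ne w hw.1), G2 w hw.2 hw.1, pow_one]
  obtain ⟨g, g1, g2⟩ := G72.glue (Z := {y | a y = 0}) (h := b) hU h0 fun x hx => by
    obtain ⟨G, hG⟩ := key x hx
    refine ⟨G, ?_⟩
    filter_upwards [hG, hU.mem_nhds hx] with y hy hyU
    refine ⟨hy.1, fun k => smul_left_injective ℂ k ?_⟩
    show G y • a y = b y • a y
    rw [← hy.2, he 1 y hyU k, pow_one]
  refine ⟨g, g1, fun y hy => ⟨?_, fun k => g2 ⟨hy, k⟩⟩⟩
  have m := hU.mem_nhds hy
  refine tendsto_nhds_unique_of_frequently_eq ((hh 1).continuousOn.continuousAt m)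
    ((g1.continuousOn.continuousAt m).smul (ha.continuousOn.continuousAt m)) ?_
  refine ((h0 y hy).and_eventually m).mono fun w hw => ?_
  show h 1 w = g w • a w
  rw [he 1 w hw.2 hw.1, g2 ⟨hw.2, hw.1⟩, pow_one]

variable {n : ℕ}

theorem hon {U : Set (E n)} (hU : IsOpen U) {β : E n → E n} (hβ : DifferentiableOn ℂ β U) {z : E n}
    (hz : z ∈ U) (i : Fin n) : HolN (fun w => β w i) z :=
  psi_hol_on hU (differentiableOn_pi.1 hβ i) hz

/-- The contraction of the exterior derivative is holomorphic. -/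
theorem lie_hol {U : Set (E n)} (hU : IsOpen U) {v β : E n → E n} (hv : DifferentiableOn ℂ v U)
    (hβ : DifferentiableOn ℂ β U) : DifferentiableOn ℂ (fun z => v z ᵥ* d1 β z) U := fun z hz => by
  have hd := fun i j => (((mHOL n _ z).2.2 (hon hU hβ hz j)).2.1 i).self_of_nhds
  refine DifferentiableAt.differentiableWithinAt (differentiableAt_pi.2 fun j => ?_)
  have : (fun w => (v w ᵥ* d1 β w) j) = fun w => ∑ i, v w i *
      (dz i (fun w => β w j) w - dz j (fun w => β w i) w) := rfl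
  rw [this]
  exact DifferentiableAt.fun_sum fun i _ => (hon hU hv hz i).self_of_nhds.mul
    ((hd i j).sub (hd j i))

/-- The exterior derivative of a multiple. -/
theorem d1_smul {g : E n → ℂ} {α β : E n → E n} {z : E n} (hg : DifferentiableAt ℝ g z)
    (hα : ∀ i, DifferentiableAt ℝ (fun w => α w i) z) (e : ∀ᶠ w in 𝓝 z, β w = g w • α w) :
    d1 β z = wg (gd g z) (α z) + g z • d1 α z := by
  have : ∀ i j, dz i (fun w => β w j) z = dz i g z * α z j + g z * dz i (fun w => α w j) z :=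
    fun i j => by
      rw [dz_congr (g := fun w => g w * α w j) (e.mono fun w hw => congrFun hw j), dz_mul hg (hα j)]
  ext i j
  simp only [d1, wg, gd, Matrix.of_apply, Matrix.add_apply, Matrix.smul_apply, smul_eq_mul, this]
  ring

theorem gd_pow {b : E n → ℂ} {z : E n} (hb : DifferentiableAt ℝ b z) (k : ℕ) :
    gd (fun w => b w ^ (k + 1)) z = (((k : ℂ) + 1) * b z ^ k) • gd b z := by
  funext j
  show dz j _ z = _ * dz j b z
  induction k with
  | zero => simp
  | succ k ih =>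
    have : (fun w => b w ^ (k + 1 + 1)) = fun w => b w ^ (k + 1) * b w := by
      funext w
      ring
    rw [this, dz_mul (hb.fun_pow _) hb, ih]
    push_cast
    ring

/-- The set where a holomorphic vector is not zero is open. -/
theorem opn {U : Set (E n)} (hU : IsOpen U) {α : E n → E n} (hα : DifferentiableOn ℂ α U) :
    IsOpen {w | w ∈ U ∧ α w ≠ 0} :=
  hα.continuousOn.isOpen_inter_preimage hU isOpen_compl_singleton

/-- The Riccati equation removes the poles. -/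
theorem ric {U : Set (E n)} (hU : IsOpen U) {v α : E n → E n} {b q : E n → ℂ}
    (hv : DifferentiableOn ℂ v U) (hα : DifferentiableOn ℂ α U)
    (h0 : ∀ x ∈ U, ∃ᶠ y in 𝓝 x, α y ≠ 0) (hav : ∀ z ∈ U, α z ⬝ᵥ v z = 0)
    (hq : DifferentiableOn ℂ q U) (hb : DifferentiableOn ℂ b {w | w ∈ U ∧ α w ≠ 0})
    (h1 : ∀ z ∈ U, α z ≠ 0 → v z ᵥ* d1 α z = b z • α z)
    (h2 : ∀ z ∈ U, α z ≠ 0 → v z ⬝ᵥ gd b z = b z ^ 2 / 2 + q z) :
    ∃ g : E n → ℂ, DifferentiableOn ℂ g U ∧ ∀ z ∈ U, v z ᵥ* d1 α z = g z • α z := by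
  have st : ∀ (k : ℕ) (β : E n → E n), (∀ y ∈ U, α y ≠ 0 → β y = b y ^ (k + 1) • α y) →
      ∀ y ∈ U, α y ≠ 0 → v y ᵥ* d1 β y =
        ((((k : ℂ) + 3) / 2) * b y ^ (k + 2) + ((k : ℂ) + 1) * q y * b y ^ k) • α y := by
    intro k β hβ y hy hn
    have m := (opn hU hα).mem_nhds ⟨hy, hn⟩
    have db := (hb.differentiableAt m).restrictScalars ℝ
    rw [d1_smul (g := fun w => b w ^ (k + 1)) (α := α) (db.pow _)
      (fun i => (hon hU hα hy i).self_of_nhds.restrictScalars ℝ)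
      (mem_of_superset m fun w hw => hβ w hw.1 hw.2), Matrix.vecMul_add, psi_vm _ (hav y hy),
      Matrix.vecMul_smul, h1 y hy hn, gd_pow db, dotProduct_smul, h2 y hy hn, smul_smul,
      ← add_smul, smul_eq_mul]
    congr 1
    ring
  have ex : ∀ k : ℕ, (∃ β : E n → E n, DifferentiableOn ℂ β U ∧
      ∀ y ∈ U, α y ≠ 0 → β y = b y ^ k • α y) ∧ ∃ β : E n → E n, DifferentiableOn ℂ β U ∧
      ∀ y ∈ U, α y ≠ 0 → β y = b y ^ (k + 1) • α y := by
    intro k
    induction k with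
    | zero =>
      exact ⟨⟨α, hα, fun y _ _ => by simp⟩, _, lie_hol hU hv hα, fun y hy hn => by
        rw [h1 y hy hn, zero_add, pow_one]⟩
    | succ k ih =>
      obtain ⟨⟨β, b1, b2⟩, γ, c1, c2⟩ := ih
      refine ⟨⟨γ, c1, c2⟩, fun y => (2 / ((k : ℂ) + 3)) •
        (v y ᵥ* d1 γ y - (((k : ℂ) + 1) * q y) • β y),
        ((lie_hol hU hv c1).fun_sub ((hq.const_mul _).fun_smul b1)).fun_const_smul _,
        fun y hy hn => ?_⟩
      have k3 : (k : ℂ) + 3 ≠ 0 := by exact_mod_cast (by omega : k + 3 ≠ 0)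
      beta_reduce
      rw [st k γ c2 y hy hn, b2 y hy hn, smul_smul, ← sub_smul, smul_smul]
      congr 1
      field_simp
      ring
  choose β b1 b2 using fun k => (ex k).1
  obtain ⟨g, g1, g2⟩ := extv hU hα h0 b1 b2
  refine ⟨g, g1, fun z hz => ?_⟩
  have m := hU.mem_nhds hz
  refine tendsto_nhds_unique_of_frequently_eq
    ((lie_hol hU hv hα).continuousOn.continuousAt m)
    ((g1.continuousOn.continuousAt m).smul (hα.continuousOn.continuousAt m)) ?_
  refine ((h0 z hz).and_eventually m).mono fun w hw => ?_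
  show v w ᵥ* d1 α w = g w • α w
  rw [h1 w hw.2 hw.1, (g2 w hw.2).2 hw.1]

/-- Division off the zero set. -/
theorem quo {U : Set (E n)} (hU : IsOpen U) {α β : E n → E n} (hα : DifferentiableOn ℂ α U)
    (hβ : DifferentiableOn ℂ β U) (h : ∀ z ∈ U, wg (β z) (α z) = 0) :
    ∃ b : E n → ℂ, DifferentiableOn ℂ b {w | w ∈ U ∧ α w ≠ 0} ∧
      ∀ z ∈ U, α z ≠ 0 → β z = b z • α z := by
  have pt : ∀ z ∈ U, ∀ i, α z i ≠ 0 → β z = (β z i / α z i) • α z := fun z hz i hi => by
    funext j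
    have := congrFun (congrFun (h z hz) i) j
    simp only [wg, Matrix.of_apply, Matrix.zero_apply] at this
    show β z j = β z i / α z i * α z j
    field_simp
    linear_combination -this
  have : ∀ z, ∃ c : ℂ, z ∈ U → α z ≠ 0 → β z = c • α z := fun z => by
    by_cases k : α z = 0
    · exact ⟨0, fun _ k' => (k' k).elim⟩
    · obtain ⟨i, hi⟩ := Function.ne_iff.1 k
      exact ⟨_, fun hz _ => pt z hz i hi⟩
  choose b hb using this
  refine ⟨b, fun z hz => DifferentiableAt.differentiableWithinAt ?_, hb⟩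
  obtain ⟨i, hi⟩ := Function.ne_iff.1 hz.2
  have da := (hon hU hα hz.1 i).self_of_nhds
  refine (((hon hU hβ hz.1 i).self_of_nhds).fun_mul (da.fun_inv hi)).congr_of_eventuallyEq ?_
  filter_upwards [hU.mem_nhds hz.1, da.continuousAt.eventually_ne hi] with w w1 w2
  have ne : α w ≠ 0 := fun k => w2 (congrFun k i)
  refine smul_left_injective ℂ ne ?_
  show b w • α w = (β w i * (α w i)⁻¹) • α w
  rw [← hb w w1 ne, ← div_eq_mul_inv, ← pt w w1 i w2]

end Pool.Agent.Lib.F4H.R27
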