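import Pool.Agent.Lib.F4H.Sh0
import Pool.Agent.Lib.F4G.Con2

/-! Project f4h: topological lemmas on fibres, and polar points. -/

open scoped Topology ContDiff Nat
open Set Filter Metric

set_option linter.unusedVariables false

noncomputable section

namespace Pool.Agent.Lib.F4H.Sh

open Pool.Agent.Lib.F4G.Con

/-- A disc minus a countable set is connected. -/
theorem dc {T : Set ℂ} (hT : T.Countable) {r : ℝ} (hr : 0 < r) :
    IsPreconnected (ball (0 : ℂ) r \ T) := by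
  let e := OpenPartialHomeomorph.univBall (E := ℂ) (0 : ℂ) r
  have s : e.source = univ := OpenPartialHomeomorph.univBall_source _ _
  have t : e.target = ball 0 r := OpenPartialHomeomorph.univBall_target _ hr
  have h1 : (e ⁻¹' T).Countable := hT.preimage_of_injOn (e.injOn.mono (s ▸ subset_univ _))
  have h2 := (h1.isConnected_compl_of_one_lt_rank
    (by simp [Complex.rank_real_complex])).isPreconnected.image e
    (e.continuousOn.mono (s ▸ subset_univ _))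
  refine Eq.subst ?_ h2
  ext x
  constructor
  · rintro ⟨y, hy, rfl⟩
    exact ⟨t ▸ e.map_source (s ▸ mem_univ y), hy⟩
  · rintro ⟨a, b⟩
    have c := e.right_inv (t ▸ a : x ∈ e.target)
    exact ⟨e.symm x, fun h => b (c ▸ h), c⟩

/-- Values close to `c` are taken close to the fibre. -/
theorem cmp {X : Type} [TopologicalSpace X] {L O : Set X} {G : X → ℂ} {c : ℂ} (hL : IsCompact L)
    (hG : ∀ w ∈ L, ContinuousAt G w) (hO : IsOpen O) (h : ∀ w ∈ L, G w = c → w ∈ O) :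
    ∀ᶠ a in 𝓝 c, ∀ w ∈ L, G w = a → w ∈ O := by
  refine hL.eventually_forall_of_forall_eventually fun w hw => ?_
  by_cases e : G w = c
  · filter_upwards [continuousAt_snd.eventually (hO.mem_nhds (h w hw e))] with z a _ using a
  · have c1 : ContinuousAt (fun z : ℂ × X => G z.2 - z.1) (c, w) :=
      ((hG w hw).comp_of_eq continuousAt_snd rfl).sub continuousAt_fst
    filter_upwards [c1.eventually_ne (sub_ne_zero.2 e)] with z a b using absurd (sub_eq_zero.2 b) a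

/-- A point of a compact fibre that is not joined to a closed set is separated from it. -/
theorem qc {X : Type} [TopologicalSpace X] [T2Space X] {K D : Set X} {G : X → ℂ} {x : X}
    (hK : IsCompact K) (hG : ∀ w ∈ K, ContinuousAt G w) (hD : IsClosed D) (hx : x ∈ K)
    (h : ¬∃ z ∈ D, Jn K G x z) : ∃ A B, IsOpen A ∧ IsOpen B ∧ Disjoint A B ∧ x ∈ A ∧
      (∀ w ∈ K, G w = G x → w ∈ A ∪ B) ∧ ∀ w ∈ K, w ∈ D → G w = G x → w ∈ B := by
  have cF : IsCompact (K ∩ G ⁻¹' {G x}) := hK.of_isClosed_subset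
    (ContinuousOn.preimage_isClosed_of_isClosed (fun w hw => (hG w hw).continuousWithinAt)
      hK.isClosed isClosed_singleton) inter_subset_left
  set F := K ∩ G ⁻¹' {G x}
  haveI : CompactSpace F := isCompact_iff_compactSpace.1 cF
  let x' : F := ⟨x, hx, rfl⟩
  obtain ⟨u, hu⟩ := (hD.preimage (continuous_subtype_val (p := fun w => w ∈ F))).isCompact
    |>.elim_finite_subfamily_closed (fun s : {s : Set F // IsClopen s ∧ x' ∈ s} => s.1)
    (fun s => s.2.1.isClosed) (by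
      rw [← connectedComponent_eq_iInter_isClopen]
      refine eq_empty_of_forall_notMem fun z hz => h ⟨z, hz.1, _,
        (isPreconnected_connectedComponent (x := x')).image _ continuous_subtype_val.continuousOn,
        ?_, ⟨x', mem_connectedComponent, rfl⟩, ⟨z, hz.2, rfl⟩, ?_⟩
      · rintro _ ⟨w, -, rfl⟩
        exact w.2.1
      · rintro _ ⟨w, -, rfl⟩
        exact w.2.2)
  have hZ : IsClopen (⋂ s ∈ u, s.1) := isClopen_biInter_finset fun s _ => s.2.1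
  set Z := ⋂ s ∈ u, s.1
  obtain ⟨A, B, a, b, c, d, e⟩ := SeparatedNhds.of_isCompact_isCompact_isClosed
    (hZ.isClosed.isCompact.image continuous_subtype_val)
    (hZ.compl.isClosed.isCompact.image continuous_subtype_val)
    (hZ.compl.isClosed.isCompact.image continuous_subtype_val).isClosed
    ((disjoint_image_iff Subtype.val_injective).2 disjoint_compl_right)
  refine ⟨A, B, a, b, e, c ⟨x', mem_iInter₂.2 fun s _ => s.2.2, rfl⟩, fun w k1 k2 => ?_,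
    fun w k1 k2 k3 => d ⟨⟨w, k1, k3⟩, fun k => ?_, rfl⟩⟩
  · by_cases k : (⟨w, k1, k2⟩ : F) ∈ Z
    · exact Or.inl (c ⟨_, k, rfl⟩)
    · exact Or.inr (d ⟨_, k, rfl⟩)
  · exact (hu.subset ⟨k2, k⟩ : False)

variable {V : Type} [NormedAddCommGroup V] [NormedSpace ℂ V]

/-- Roots persist when the value moves. -/
theorem vp {g : V × ℂ → ℂ} {q : V × ℂ} {N : Set ℂ} (hg : AnalyticAt ℂ g q)
    (h1 : ¬∀ᶠ y in 𝓝 q.2, g (q.1, y) = g q) (hN : N ∈ 𝓝 q.2) :
    ∀ᶠ c in 𝓝 (g q), ∃ y ∈ N, g (q.1, y) = c :=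
  (sl_an hg).eventually_constant_or_nhds_le_map_nhds.resolve_left h1 (image_mem_map hN)

theorem surjS {g : V × ℂ → ℂ} {S : Set V} {p d : ℝ} {c : ℂ} {A B : Set (V × ℂ)} (hp : 0 < p)
    (hS : IsPreconnected S) (hA : ∀ z ∈ S, ∀ y, ‖y‖ ≤ p → AnalyticAt ℂ g (z, y))
    (hb : ∀ z ∈ S, ∀ y, ‖y‖ = p → d ≤ ‖g (z, y)‖) (hc : ‖c‖ < d) (oA : IsOpen A)
    (oB : IsOpen B) (hd : Disjoint A B)
    (hF : ∀ z ∈ S, ∀ y, ‖y‖ ≤ p → g (z, y) = c → (z, y) ∈ A ∪ B) {z0 : V} {y0 : ℂ} (a1 : z0 ∈ S)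
    (a2 : ‖y0‖ ≤ p ∧ g (z0, y0) = c ∧ (z0, y0) ∈ A) {z : V} (hz : z ∈ S) :
    ∃ y, ‖y‖ ≤ p ∧ g (z, y) = c ∧ (z, y) ∈ A := by
  have h1 : ∀ z ∈ S, (∃ y, ‖y‖ ≤ p ∧ g (z, y) = c ∧ (z, y) ∈ A) →
      ∀ᶠ w in 𝓝 z, ∃ y, ‖y‖ ≤ p ∧ g (w, y) = c ∧ (w, y) ∈ A := fun z a ⟨y, b1, b2, b3⟩ => by
    have b0 : ‖y‖ < p := lt_of_le_of_ne b1 fun e => by
      have := hb z a y e
      rw [b2] at this
      linarith
    have c1 : {q : V × ℂ | ‖q.2‖ < p} ∩ A ∈ 𝓝 ((z, y) : V × ℂ) :=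
      inter_mem ((isOpen_lt (by fun_prop) continuous_const).mem_nhds b0) (oA.mem_nhds b3)
    filter_upwards [hur (q := (z, y)) (hA z a y b1) (nz hp (hA z a) (hb z a) b1 (b2 ▸ hc)) c1]
      with w ⟨x, e1, e2⟩
    exact ⟨x, le_of_lt e1.1, e2.trans b2, e1.2⟩
  refine interior_subset (s := {z | ∃ y, ‖y‖ ≤ p ∧ g (z, y) = c ∧ (z, y) ∈ A})
    (hS.subset_of_closure_inter_subset isOpen_interior
    ⟨z0, a1, mem_interior_iff_mem_nhds.2 (h1 z0 a1 ⟨y0, a2⟩)⟩ ?_ hz)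
  rintro w ⟨b1, b2⟩
  refine mem_interior_iff_mem_nhds.2 (h1 w b2 ?_)
  by_contra hn
  have b4 : ∀ᶠ x in 𝓝 w, ∀ y ∈ closedBall (0 : ℂ) p, ¬(g (x, y) = c ∧ (x, y) ∈ A) := by
    refine (isCompact_closedBall 0 p).eventually_forall_of_forall_eventually fun y hy => ?_
    have hy' := mem_closedBall_zero_iff.1 hy
    by_cases e : g (w, y) = c
    · have c2 : (w, y) ∈ B := (hF w b2 y hy' e).resolve_left fun e' => hn ⟨y, hy', e, e'⟩
      filter_upwards [oB.mem_nhds c2] with q c3 c4 using hd.notMem_of_mem_left c4.2 c3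
    · filter_upwards [(hA w b2 y hy').continuousAt.eventually_ne e] with q c3 c4 using c3 c4.1
  obtain ⟨x, c0, c3⟩ := ((mem_closure_iff_frequently.1 b1).and_eventually b4).exists
  obtain ⟨y, c1, c2⟩ := interior_subset c0
  exact c3 y (mem_closedBall_zero_iff.2 c1) c2

/-- Near a simple root the fibres are graphs. -/
theorem loc [CompleteSpace V] [NormedSpace ℝ V] {g : V × ℂ → ℂ} {q : V × ℂ} (hg : AnalyticAt ℂ g q)
    (h1 : dy g q ≠ 0) {S : Set V} {M : Set ℂ} (hS : Convex ℝ S) (hM : M ∈ 𝓝 q.2) :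
    ∀ᶠ w in 𝓝 (q, q), w.1.1 ∈ S → w.2.1 ∈ S → g w.1 = g w.2 → Jn (S ×ˢ M) g w.1 w.2 := by
  obtain ⟨γ, a1, a2, a3, a4⟩ := inv hg h1
  obtain ⟨ε, hε, a5⟩ := Metric.eventually_nhds_iff_ball.1 (a1.eventually_analyticAt.and
    (a3.and (a1.continuousAt.eventually (a2.symm ▸ hM : M ∈ 𝓝 (γ (q.1, g q))))))
  have a6 : ∀ᶠ w in 𝓝 q, γ (w.1, g w) = w.2 ∧ w.1 ∈ ball q.1 ε ∧ g w ∈ ball (g q) ε :=
    a4.and ((continuousAt_fst.eventually (ball_mem_nhds _ hε)).and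
      (hg.continuousAt.eventually (ball_mem_nhds _ hε)))
  filter_upwards [continuousAt_fst.eventually a6, continuousAt_snd.eventually a6]
    with w b1 b2 c1 c2 c3
  have b3 : ∀ s ∈ ball q.1 ε ∩ S, (s, g w.1) ∈ ball (q.1, g q) ε := fun s hs => by
    rw [← ball_prod_same]
    exact ⟨hs.1, b1.2.2⟩
  refine ⟨(fun s => (s, γ (s, g w.1))) '' (ball q.1 ε ∩ S),
    ((convex_ball _ _).inter hS).isPreconnected.image _ fun s hs => (continuousAt_id.prodMk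
      ((a5 _ (b3 s hs)).1.continuousAt.comp_of_eq (f := fun s => (s, g w.1)) (by fun_prop)
        rfl)).continuousWithinAt, ?_,
    ⟨w.1.1, ⟨b1.2.1, c1⟩, by simp only [b1.1]⟩, ⟨w.2.1, ⟨b2.2.1, c2⟩, by simp only [c3, b2.1]⟩, ?_⟩
  · rintro _ ⟨s, hs, rfl⟩
    exact ⟨hs.2, (a5 _ (b3 s hs)).2.2⟩
  · rintro _ ⟨s, hs, rfl⟩
    exact (a5 _ (b3 s hs)).2.1

/-- The Taylor estimate along a graph. -/
theorem tay {γ : V → ℂ} {z : V} (hγ : ContinuousAt γ z) (j : ℕ) : ∀ F : V × ℂ → ℂ,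
    AnalyticAt ℂ F (z, γ z) → (∀ i < j, ∀ᶠ s in 𝓝 z, dy^[i] F (s, γ s) = 0) → ∀ ε > 0,
    ∀ᶠ w in 𝓝 (z, γ z), ‖F w - dy^[j] F (z, γ z) / j ! * (w.2 - γ w.1) ^ j‖ ≤
      ε * ‖w.2 - γ w.1‖ ^ j := by
  induction j with
  | zero =>
    intro F hF _ ε hε
    filter_upwards [hF.continuousAt.eventually (closedBall_mem_nhds _ hε)] with w hw
    simpa [dist_eq_norm] using hw
  | succ j ih =>
    intro F hF h ε hε
    obtain ⟨δ, hδ, a1⟩ := Metric.eventually_nhds_iff_ball.1 ((ih (dy F) (dy_an hF)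
      (fun i hi => h (i + 1) (Nat.succ_lt_succ hi)) ε hε).and hF.eventually_analyticAt)
    have c1 : ContinuousAt (fun w : V × ℂ => γ w.1) (z, γ z) := hγ.comp_of_eq continuousAt_fst rfl
    have c2 : ContinuousAt (fun w : V × ℂ => ‖w.2 - γ w.1‖ + ‖γ w.1 - γ z‖) (z, γ z) :=
      (continuousAt_snd.sub c1).norm.add (c1.sub continuousAt_const).norm
    filter_upwards [c2.eventually_lt continuousAt_const (show _ < δ by simpa using hδ),
      continuousAt_fst.eventually (ball_mem_nhds _ hδ),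
      continuousAt_fst.eventually (h 0 j.succ_pos)] with w b1 b2 b3
    have b4 : ∀ y ∈ closedBall (γ w.1) ‖w.2 - γ w.1‖, (w.1, y) ∈ ball (z, γ z) δ := fun y hy => by
      rw [← ball_prod_same]
      refine ⟨b2, mem_ball_iff_norm.2 ?_⟩
      have := norm_sub_le_norm_sub_add_norm_sub y (γ w.1) (γ z)
      have := mem_closedBall_iff_norm.1 hy
      show ‖y - γ z‖ < δ
      linarith
    set a := dy^[j + 1] F (z, γ z) with ha
    have b5 := Convex.norm_image_sub_le_of_norm_hasDerivWithin_le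
      (f := fun y => F (w.1, y) - a / (j + 1)! * (y - γ w.1) ^ (j + 1))
      (f' := fun y => dy F (w.1, y) - a / j ! * (y - γ w.1) ^ j) (C := ε * ‖w.2 - γ w.1‖ ^ j)
      (fun y hy => by
        have d1 := (sl_der (a1 _ (b4 y hy)).2).sub
          ((((hasDerivAt_id y).sub_const (γ w.1)).pow (j + 1)).const_mul (a / (j + 1)!))
        refine (d1.congr_deriv ?_).hasDerivWithinAt
        have d2 : (j ! : ℂ) ≠ 0 := Nat.cast_ne_zero.2 j.factorial_ne_zero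
        have d3 : (j : ℂ) + 1 ≠ 0 := Nat.cast_add_one_ne_zero j
        simp only [Nat.factorial_succ, id, Nat.add_sub_cancel]
        push_cast
        field_simp)
      (fun y hy => (a1 _ (b4 y hy)).1.trans (mul_le_mul_of_nonneg_left
        (pow_le_pow_left₀ (norm_nonneg _) (mem_closedBall_iff_norm.1 hy) j) hε.le))
      (convex_closedBall _ _) (mem_closedBall_self (norm_nonneg _))
      (mem_closedBall_iff_norm.2 le_rfl)
    have b6 : F (w.1, γ w.1) = 0 := b3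
    simpa [b6, pow_succ, mul_assoc] using b5

theorem good {γ : V → ℂ} {z : V} {g : V × ℂ → ℂ} {k : ℕ} (hγ : ContinuousAt γ z)
    (hg : AnalyticAt ℂ g (z, γ z)) (h : ∀ i ≤ k, ∀ᶠ s in 𝓝 z, dy^[i] g (s, γ s) = 0)
    (h1 : dy^[k + 1] g (z, γ z) ≠ 0) : ∀ᶠ w in 𝓝 (z, γ z), dy g w = 0 → g w = 0 := by
  have a1 : 0 < ‖dy^[k + 1] g (z, γ z) / (k ! : ℂ)‖ :=
    norm_pos_iff.2 (div_ne_zero h1 (Nat.cast_ne_zero.2 k.factorial_ne_zero))
  filter_upwards [tay hγ k (dy g) (dy_an hg) (fun i hi => h (i + 1) hi) _ (half_pos a1),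
    continuousAt_fst.eventually (h 0 k.zero_le)] with w b1 b2 b3
  rw [b3, zero_sub, norm_neg, norm_mul, norm_pow] at b1
  have b4 : ‖w.2 - γ w.1‖ ^ k = 0 := by
    have b5 : ‖dy^[k] (dy g) (z, γ z) / (k ! : ℂ)‖ = ‖dy^[k + 1] g (z, γ z) / (k ! : ℂ)‖ := rfl
    have b6 := pow_nonneg (norm_nonneg (w.2 - γ w.1)) k
    rw [b5] at b1
    nlinarith
  have b7 : w = (w.1, γ w.1) := Prod.ext rfl (sub_eq_zero.1 (norm_eq_zero.1 (pow_eq_zero_iff
    (fun e => by simp [e] at b4) |>.1 b4)))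
  rw [b7]
  exact b2

/-- Polar points accumulate at the zero fibre only over a countable set. -/
theorem polar {g : ℂ × ℂ → ℂ} {O : Set (ℂ × ℂ)} (hg : AnalyticOnNhd ℂ g O)
    (h1 : ∀ q ∈ O, g q = 0 → ¬∀ᶠ y in 𝓝 q.2, g (q.1, y) = 0) : ∃ T : Set ℂ, T.Countable ∧
      ∀ q ∈ O, g q = 0 → q.1 ∉ T → ∀ᶠ w in 𝓝 q, dy g w = 0 → g w = 0 := by
  have key : ∀ (k : ℕ) (q : ℂ × ℂ), ∃ (N : Set (ℂ × ℂ)) (T : Set ℂ), T.Countable ∧
      ((q ∈ O ∧ dy^[k] g q = 0 ∧ dy (dy^[k] g) q ≠ 0) → N ∈ 𝓝 q ∧ ∀ w ∈ N,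
        (∀ i ≤ k, dy^[i] g w = 0) → dy^[k + 1] g w ≠ 0 → w.1 ∉ T →
        ∀ᶠ u in 𝓝 w, dy g u = 0 → g u = 0) := by
    intro k q
    by_cases hq : q ∈ O ∧ dy^[k] g q = 0 ∧ dy (dy^[k] g) q ≠ 0
    swap
    · exact ⟨∅, ∅, countable_empty, fun h => absurd h hq⟩
    obtain ⟨γ, a1, a2, -, a4⟩ := imp (it_an (hg q hq.1) k) hq.2.2
    have a5 : ContinuousAt (fun z => ((z, γ z) : ℂ × ℂ)) q.1 :=
      continuousAt_id.prodMk a1.continuousAt
    have a6 : ((q.1, γ q.1) : ℂ × ℂ) = q := by rw [a2]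
    obtain ⟨r, hr, b⟩ := Metric.eventually_nhds_iff_ball.1 (a1.eventually_analyticAt.and
      (a5.eventually (a6.symm ▸ (hg q hq.1).eventually_analyticAt)))
    refine ⟨{w | (dy^[k] g w = dy^[k] g q → γ w.1 = w.2) ∧ w.1 ∈ ball q.1 r},
      ⋃ i, ⋃ _ : ∃ t ∈ ball q.1 r, dy^[i] g (t, γ t) ≠ 0,
        {s | s ∈ ball q.1 r ∧ dy^[i] g (s, γ s) = 0},
      countable_iUnion fun i => countable_iUnion fun ⟨t, t1, t2⟩ => cz
        (convex_ball _ _).isPreconnected (fun s hs => (it_an (b s hs).2 i).comp_of_eq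
          (analyticAt_id.prod (b s hs).1) rfl) t1 t2,
      fun _ => ⟨a4.and (continuousAt_fst.eventually (ball_mem_nhds _ hr)),
        fun w hw c1 c2 c3 => ?_⟩⟩
    have c4 : w = (w.1, γ w.1) := Prod.ext rfl (hw.1 ((c1 k le_rfl).trans hq.2.1.symm)).symm
    rw [c4]
    refine good (k := k) (b _ hw.2).1.continuousAt (b _ hw.2).2 (fun i hi => ?_) (c4 ▸ c2)
    filter_upwards [isOpen_ball.mem_nhds hw.2] with s hs
    by_contra e
    exact c3 (mem_iUnion₂.2 ⟨i, ⟨s, hs, e⟩, hw.2, c4 ▸ c1 i hi⟩)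
  choose N T t0 hs using key
  have h3 : ∀ k : ℕ, ∃ S ⊆ {q | q ∈ O ∧ dy^[k] g q = 0 ∧ dy (dy^[k] g) q ≠ 0}, S.Countable ∧
      {q | q ∈ O ∧ dy^[k] g q = 0 ∧ dy (dy^[k] g) q ≠ 0} ⊆ ⋃ q ∈ S, N k q := fun k =>
    TopologicalSpace.countable_cover_nhdsWithin fun q hq =>
      mem_nhdsWithin_of_mem_nhds (hs k q hq).1
  choose S t1 t2 t3 using h3
  refine ⟨⋃ k, ⋃ q ∈ S k, T k q, countable_iUnion fun k => (t2 k).biUnion fun q _ => t0 k q,
    fun q hq c1 c2 => ?_⟩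
  have c3 : ∃ k, dy^[k + 1] g q ≠ 0 := by
    obtain ⟨k, -, c⟩ := ord (hg q hq) c1 (h1 q hq c1)
    exact ⟨k, by rwa [Function.iterate_succ_apply']⟩
  classical
  have c4 : ∀ i ≤ Nat.find c3, dy^[i] g q = 0 := fun i hi => by
    rcases i with _ | i
    · exact c1
    · exact not_not.1 (Nat.find_min c3 hi)
  have c5 := Nat.find_spec c3
  obtain ⟨w, hw, c6⟩ := mem_iUnion₂.1 (t3 (Nat.find c3) ⟨hq, c4 _ le_rfl, by
    rwa [Function.iterate_succ_apply'] at c5⟩)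
  exact (hs _ w (t1 _ hw)).2 q c6 c4 c5 fun e => c2 (mem_iUnion.2 ⟨_, mem_iUnion₂.2 ⟨w, hw, e⟩⟩)

end Pool.Agent.Lib.F4H.Sh
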