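import Pool.Agent.Lib.F4H.Sh1
import Pool.Agent.Lib.F4G.Crit

/-! Project f4h: the fibres in a slice of dimension two. -/

open scoped Topology ContDiff
open Set Filter Metric

set_option linter.unusedVariables false

noncomputable section

namespace Pool.Agent.Lib.F4H.Sh

open Pool.Agent.Lib.F4G.Con

variable {G : ℂ × ℂ → ℂ} {R p d : ℝ}

/-- The closed box. -/
def K (R p : ℝ) : Set (ℂ × ℂ) := closedBall 0 R ×ˢ closedBall 0 p

theorem mK {w : ℂ × ℂ} : w ∈ K R p ↔ ‖w.1‖ ≤ R ∧ ‖w.2‖ ≤ p := by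
  simp only [K, mem_prod, mem_closedBall_zero_iff]

theorem cK : IsCompact (K R p) := (isCompact_closedBall _ _).prod (isCompact_closedBall _ _)

theorem ltp (hb : ∀ w ∈ K R p, ‖w.2‖ = p → d ≤ ‖G w‖) {w : ℂ × ℂ} (hw : w ∈ K R p)
    (h : ‖G w‖ < d) : ‖w.2‖ < p :=
  lt_of_le_of_ne (mK.1 hw).2 fun e => (hb w hw e).not_gt h

theorem nzK (hp : 0 < p) (hA : ∀ w ∈ K R p, AnalyticAt ℂ G w)
    (hb : ∀ w ∈ K R p, ‖w.2‖ = p → d ≤ ‖G w‖) {w : ℂ × ℂ} (hw : w ∈ K R p) (h : ‖G w‖ < d) :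
    ¬∀ᶠ y in 𝓝 w.2, G (w.1, y) = G w :=
  nz hp (fun y hy => hA _ (mK.2 ⟨(mK.1 hw).1, hy⟩))
    (fun y hy => hb _ (mK.2 ⟨(mK.1 hw).1, hy.le⟩) hy) (mK.1 hw).2 h

/-- Every point is joined to the axis. -/
theorem ax (hp : 0 < p) (hA : ∀ w ∈ K R p, AnalyticAt ℂ G w)
    (hb : ∀ w ∈ K R p, ‖w.2‖ = p → d ≤ ‖G w‖) {w : ℂ × ℂ} (hw : w ∈ K R p) (h : ‖G w‖ < d) :
    ∃ y, Jn (K R p) G w (0, y) := by
  by_contra hn
  obtain ⟨A, B, a, b, c, e, f, k⟩ := qc (D := {u : ℂ × ℂ | u.1 = 0}) cK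
    (fun u hu => (hA u hu).continuousAt) (isClosed_eq continuous_fst continuous_const) hw
    fun ⟨z, z1, z2⟩ => hn ⟨z.2, by rwa [← show z.1 = 0 from z1]⟩
  have h0 : (0 : ℂ) ∈ closedBall (0 : ℂ) R :=
    mem_closedBall_self ((norm_nonneg _).trans (mK.1 hw).1)
  have m : ∀ z ∈ closedBall (0 : ℂ) R, ∀ y : ℂ, ‖y‖ ≤ p → (z, y) ∈ K R p := fun z hz y hy =>
    ⟨hz, mem_closedBall_zero_iff.2 hy⟩
  obtain ⟨y, y1, y2, y3⟩ := surjS hp (convex_closedBall (0 : ℂ) R).isPreconnected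
    (fun z hz y hy => hA _ (m z hz y hy)) (fun z hz y hy => hb _ (m z hz y hy.le) hy) h a b c
    (fun z hz y hy => f _ (m z hz y hy)) hw.1 ⟨(mK.1 hw).2, rfl, e⟩ h0
  exact c.notMem_of_mem_left y3 (k _ (m 0 h0 y y1) rfl y2)

/-- Joined points of a regular fibre stay joined. -/
theorem opn (hp : 0 < p) (hA : ∀ w ∈ K R p, AnalyticAt ℂ G w)
    (hb : ∀ w ∈ K R p, ‖w.2‖ = p → d ≤ ‖G w‖) {x z : ℂ × ℂ} (hx : ‖G x‖ < d)
    (h1 : ∀ w ∈ K R p, G w = G x → fderiv ℂ G w ≠ 0 ∧ (‖w.1‖ = R → dy G w ≠ 0))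
    (h : Jn (K R p) G x z) : ∀ᶠ w in 𝓝 (x, z), w.1 ∈ K R p → w.2 ∈ K R p → G w.1 = G w.2 →
      Jn (K R p) G w.1 w.2 := by
  obtain ⟨C, c1, c2, c3, c4, c5⟩ := h
  have l : ∀ q ∈ C, ∀ᶠ w in 𝓝 (q, q), w.1 ∈ K R p → w.2 ∈ K R p → G w.1 = G w.2 →
      Jn (K R p) G w.1 w.2 := fun q hq => by
    obtain ⟨a1, a2⟩ := h1 q (c2 hq) (c5 q hq)
    by_cases e : dy G q = 0
    · have a3 : ‖q.1‖ < R := lt_of_le_of_ne (mK.1 (c2 hq)).1 fun e' => a2 e' e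
      have a4 : AnalyticAt ℂ (fun w : ℂ × ℂ => G w.swap) q.swap :=
        (hA q (c2 hq)).comp_of_eq (analyticAt_snd.prod analyticAt_fst) rfl
      have a5 : dy (fun w : ℂ × ℂ => G w.swap) q.swap ≠ 0 := fun e' => a1 (by
        have b1 : HasDerivAt (fun y : ℂ => ((y, q.2) : ℂ × ℂ)) (1, 0) q.1 :=
          (hasDerivAt_id _).prodMk (hasDerivAt_const _ _)
        have b2 := (sl_der a4).unique
          ((hA q (c2 hq)).differentiableAt.hasFDerivAt.comp_hasDerivAt q.1 b1)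
        refine ContinuousLinearMap.ext fun v => ?_
        have b3 : v = v.1 • (1, 0) + (0, v.2) := by simp
        rw [b3, map_add, map_smul, fd_last, e, ← b2, e']
        simp)
      have a6 : ContinuousAt (fun w : (ℂ × ℂ) × ℂ × ℂ => (w.1.swap, w.2.swap)) (q, q) := by
        fun_prop
      filter_upwards [a6.eventually (loc a4 a5 (convex_closedBall (0 : ℂ) p)
        (closedBall_mem_nhds_of_mem (mem_ball_zero_iff.2 a3)))] with w hw b1 b2 b3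
      exact (hw b1.2 b2.2 b3).map continuous_swap fun u hu e' => ⟨⟨hu.2, hu.1⟩, e'⟩
    · filter_upwards [loc (hA q (c2 hq)) e (convex_closedBall (0 : ℂ) R)
        (closedBall_mem_nhds_of_mem (mem_ball_zero_iff.2
          (ltp hb (c2 hq) (by rwa [c5 q hq]))))] with w hw b1 b2 b3 using hw b1.1 b2.1 b3
  refine c1.induction₂' (fun x z => ∀ᶠ w in 𝓝 (x, z), w.1 ∈ K R p → w.2 ∈ K R p →
    G w.1 = G w.2 → Jn (K R p) G w.1 w.2) (fun q hq => ?_) (fun q r s hq hr hs a b => ?_) c3 c4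
  · have a := (l q hq).eventually_nhds
    exact mem_nhdsWithin_of_mem_nhds
      (((continuousAt_const.prodMk continuousAt_id).eventually a).and
        ((continuousAt_id.prodMk continuousAt_const).eventually a))
  · rw [nhds_prod_eq, eventually_prod_iff] at a b
    obtain ⟨a1, a2, a3, a4, a5⟩ := a
    obtain ⟨b1, b2, b3, b4, b5⟩ := b
    have e1 : ‖G r‖ < d := by rwa [c5 r hr]
    have e2 : ContinuousAt (fun y : ℂ => ((r.1, y) : ℂ × ℂ)) r.2 := by fun_prop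
    have e3 := vp (hA r (c2 hr)) (nzK hp hA hb (c2 hr) e1) ((e2.eventually (a4.and b2)).and
      (closedBall_mem_nhds_of_mem (mem_ball_zero_iff.2 (ltp hb (c2 hr) e1))))
    rw [c5 r hr, ← c5 q hq] at e3
    filter_upwards [continuousAt_fst.eventually (a2.and
      ((hA q (c2 hq)).continuousAt.eventually e3)), continuousAt_snd.eventually b4]
      with w ⟨f1, y, ⟨⟨f2, f3⟩, f4⟩, f5⟩ f6 f7 f8 f9
    have m : (r.1, y) ∈ K R p := ⟨(c2 hr).1, f4⟩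
    exact (a5 f1 f2 f7 m f5.symm).trans (b5 f3 f6 m f8 (f5.trans f9))

/-- The points of the axis near the centre are joined to a given neighbourhood of a point of the
central fibre. -/
theorem sl2 (hp : 0 < p) (hd : 0 < d) (hA : ∀ w ∈ K R p, AnalyticAt ℂ G w)
    (hb : ∀ w ∈ K R p, ‖w.2‖ = p → d ≤ ‖G w‖) (h00 : G (0, 0) = 0)
    (h0 : ∀ y, ‖y‖ ≤ p → G (0, y) = 0 → y = 0)
    (hP : ∀ q ∈ K R p, ‖q.1‖ = R → G q = 0 → ∀ᶠ w in 𝓝 q, dy G w = 0 → G w = 0) {q : ℂ × ℂ}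
    (hq : q ∈ K R p) (q0 : G q = 0) {N : Set (ℂ × ℂ)} (hN : N ∈ 𝓝 q) :
    ∀ᶠ y in 𝓝 0, ∃ z ∈ N, Jn (K R p) G (0, y) z := by
  have hC : ∀ w ∈ K R p, ContinuousAt G w := fun w hw => (hA w hw).continuousAt
  have hR : 0 ≤ R := (norm_nonneg _).trans (mK.1 hq).1
  have m0 : ∀ y : ℂ, ‖y‖ ≤ p → (0, y) ∈ K R p := fun y hy => mK.2 ⟨by simpa using hR, hy⟩
  have qd : ‖G q‖ < d := by rw [q0]; simpa using hd
  have a1 := cmp (L := K R p ∩ {w | ‖w.1‖ = R}) (O := interior {w | dy G w = 0 → G w = 0})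
    (cK.inter_right (isClosed_eq (by fun_prop) continuous_const)) (fun w hw => hC w hw.1)
    isOpen_interior fun w hw e => mem_interior_iff_mem_nhds.2 (hP w hw.1 hw.2 e)
  have e2 : ContinuousAt (fun y : ℂ => ((q.1, y) : ℂ × ℂ)) q.2 := by fun_prop
  have a2 : ∀ᶠ y in 𝓝[≠] q.2, G (q.1, y) ≠ 0 :=
    (sl_an (hA q hq)).eventually_eq_zero_or_eventually_ne_zero.resolve_left fun e =>
      nzK hp hA hb hq qd (e.mono fun y hy => hy.trans q0.symm)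
  obtain ⟨δ, hδ, a3⟩ := Metric.nhds_basis_closedBall.eventually_iff.1
    ((eventually_nhdsWithin_iff.1 a2).and ((e2.eventually hN).and
      (closedBall_mem_nhds_of_mem (mem_ball_zero_iff.2 (ltp hb hq qd)))))
  set D : Set (ℂ × ℂ) := {q.1} ×ˢ closedBall q.2 δ
  have cD : IsCompact D := isCompact_singleton.prod (isCompact_closedBall _ _)
  have mD : ∀ w ∈ D, w ∈ K R p ∧ w ∈ N ∧ (w.2 ≠ q.2 → G w ≠ 0) := by
    rintro ⟨t, y⟩ ⟨e, hy⟩
    obtain rfl : t = q.1 := e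
    exact ⟨⟨hq.1, (a3 hy).2.2⟩, (a3 hy).2.1, (a3 hy).1⟩
  have a4 := cmp (O := {w : ℂ × ℂ | w.2 ∈ ball q.2 δ}) cD (fun w hw => hC w (mD w hw).1)
    (isOpen_ball.preimage continuous_snd) fun w hw e => by
      have : w.2 = q.2 := by_contra fun e' => (mD w hw).2.2 e' e
      exact this ▸ mem_ball_self hδ
  have e3 : ∀ y : ℂ, ‖y‖ ≤ p → ContinuousAt (fun y : ℂ => G (0, y)) y := fun y hy =>
    (sl_an (hA _ (m0 y hy))).continuousAt
  have e4 : Tendsto (fun y : ℂ => G (0, y)) (𝓝 0) (𝓝 0) :=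
    (e3 0 (by simpa using hp.le)).tendsto.mono_right (by rw [h00])
  obtain ⟨ρ, hρ, a5⟩ := Metric.eventually_nhds_iff_ball.1
    ((e4.eventually (a1.and (a4.and (ball_mem_nhds 0 hd)))).and (ball_mem_nhds 0 hp))
  have a6 : ∀ y ∈ ball (0 : ℂ) ρ, ‖y‖ < p ∧ ‖G (0, y)‖ < d := fun y hy =>
    ⟨mem_ball_zero_iff.1 (a5 y hy).2, mem_ball_zero_iff.1 (a5 y hy).1.2.2⟩
  set A := {y : ℂ | ∃ z ∈ D, Jn (K R p) G (0, y) z}
  have cl : ∀ y ∈ ball (0 : ℂ) ρ, y ∈ closure A → y ∈ A := fun y hy h => by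
    by_contra hn
    obtain ⟨U, W, u1, u2, u3, u4, u5, u6⟩ := qc cK hC cD.isClosed (m0 y (a6 y hy).1.le) hn
    have b1 := (e3 y (a6 y hy).1.le).eventually ((cmp cK hC (u1.union u2) u5).and
      (cmp cD (fun w hw => hC w (mD w hw).1) u2 fun w hw => u6 w (mD w hw).1 hw))
    have b2 : ContinuousAt (fun y : ℂ => ((0, y) : ℂ × ℂ)) y := by fun_prop
    obtain ⟨x, ⟨z, z1, C, c1, c2, c3, c4, c5⟩, ⟨b3, b4⟩, b5⟩ := ((mem_closure_iff_frequently.1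
      h).and_eventually (b1.and (b2.eventually (u1.mem_nhds u4)))).exists
    obtain ⟨v, -, v1, v2⟩ := c1 U W u1 u2 (fun w hw => b3 w (c2 hw) (c5 w hw)) ⟨_, c3, b5⟩
      ⟨z, c4, b4 z z1 (c5 z c4)⟩
    exact u3.notMem_of_mem_left v1 v2
  have t0 := (F4G.crit90 (ℂ × ℂ) G {w | AnalyticAt ℂ G w} (isOpen_analyticAt ℂ G)
    fun w hw => hw.differentiableAt.differentiableWithinAt).insert 0
  set T0 := insert 0 (G '' {x | x ∈ {w | AnalyticAt ℂ G w} ∧ fderiv ℂ G x = 0})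
  have t1 : (⋃ c ∈ T0, {s | s ∈ closedBall (0 : ℂ) p ∧ G (0, s) - c = 0}).Countable :=
    t0.biUnion fun c _ => by
      have b1 : AnalyticOnNhd ℂ (fun s => G (0, s) - c) (closedBall 0 p) := fun s hs =>
        (sl_an (hA _ (m0 s (mem_closedBall_zero_iff.1 hs)))).sub analyticAt_const
      have b2 : ‖(p : ℂ)‖ = p := by simp [hp.le]
      by_cases e : c = 0
      · refine cz (convex_closedBall _ _).isPreconnected b1 (mem_closedBall_zero_iff.2 b2.le) ?_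
        rw [e, sub_zero]
        exact norm_pos_iff.1 (hd.trans_le (hb _ (m0 _ b2.le) b2))
      · refine cz (convex_closedBall _ _).isPreconnected b1 (mem_closedBall_self hp.le) ?_
        rw [h00, zero_sub]
        exact neg_ne_zero.2 e
  set T := ⋃ c ∈ T0, {s | s ∈ closedBall (0 : ℂ) p ∧ G (0, s) - c = 0}
  have mT : ∀ y : ℂ, ‖y‖ ≤ p → (y ∈ T ↔ G (0, y) ∈ T0) := fun y hy =>
    ⟨fun h => by
      obtain ⟨c, c1, -, c2⟩ := mem_iUnion₂.1 h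
      rwa [sub_eq_zero.1 c2], fun h =>
      mem_iUnion₂.2 ⟨_, h, mem_closedBall_zero_iff.2 hy, sub_self _⟩⟩
  have op : ∀ y ∈ ball (0 : ℂ) ρ \ T, y ∈ A → y ∈ interior A := fun y hy ⟨z, z1, z2⟩ => by
    obtain ⟨b1, b2⟩ := a6 y hy.1
    have b3 : G (0, y) ∉ T0 := fun e => hy.2 ((mT y b1.le).2 e)
    have b4 := opn hp hA hb b2 (fun w hw e => ⟨fun e' => b3 (Or.inr ⟨w, ⟨hA w hw, e'⟩, e⟩),
      fun e1 e' => b3 (Or.inl (e.symm.trans
        (interior_subset ((a5 y hy.1).1.1 w ⟨hw, e1⟩ e) e')))⟩) z2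
    rw [nhds_prod_eq, eventually_prod_iff] at b4
    obtain ⟨c1, c2, c3, c4, c5⟩ := b4
    have e5 : ContinuousAt (fun y : ℂ => ((z.1, y) : ℂ × ℂ)) z.2 := by fun_prop
    have b5 := vp (hA z z2.right) (nzK hp hA hb z2.right (by rwa [z2.eq])) ((e5.eventually c4).and
      (closedBall_mem_nhds_of_mem ((a5 y hy.1).1.2.1 z z1 z2.eq)))
    rw [z2.eq] at b5
    have b6 : ContinuousAt (fun y : ℂ => ((0, y) : ℂ × ℂ)) y := by fun_prop
    refine mem_interior_iff_mem_nhds.2 ?_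
    filter_upwards [(e3 y b1.le).eventually b5, b6.eventually c2,
      closedBall_mem_nhds_of_mem (mem_ball_zero_iff.2 b1)] with x ⟨v, ⟨v1, v2⟩, v3⟩ f1 f2
    have m : (z.1, v) ∈ D := ⟨z1.1, v2⟩
    exact ⟨_, m, c5 f1 v1 (m0 x (mem_closedBall_zero_iff.1 f2)) (mD _ m).1 v3.symm⟩
  have ne : ((ball (0 : ℂ) ρ \ T) ∩ interior A).Nonempty := by
    have b1 := vp (hA q hq) (nzK hp hA hb hq qd) (closedBall_mem_nhds q.2 hδ)
    rw [q0] at b1
    have b2 := cmp (G := fun y : ℂ => G (0, y)) (isCompact_closedBall (0 : ℂ) p)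
      (fun y hy => e3 y (mem_closedBall_zero_iff.1 hy)) (isOpen_ball (x := 0) (ε := ρ))
      fun y hy e => by rw [h0 y (mem_closedBall_zero_iff.1 hy) e]; exact mem_ball_self hρ
    obtain ⟨c, c1, ⟨v, v1, v2⟩, c2, c3⟩ := ((mem_closure_iff_frequently.1
      (t0.dense_compl ℂ 0)).and_eventually (b1.and (b2.and (ball_mem_nhds 0 hd)))).exists
    have m : (q.1, v) ∈ D := ⟨rfl, v1⟩
    obtain ⟨y, hy⟩ := ax hp hA hb (mD _ m).1 (v2 ▸ mem_ball_zero_iff.1 c3)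
    have y1 := hy.right.2
    have y2 := hy.eq.trans v2
    have y3 : y ∈ ball (0 : ℂ) ρ \ T := ⟨c2 y y1 y2, fun e =>
      c1 (y2 ▸ (mT y (mem_closedBall_zero_iff.1 y1)).1 e)⟩
    exact ⟨y, y3, op y y3 ⟨_, m, hy.symm⟩⟩
  have al := (dc t1 hρ).subset_of_closure_inter_subset isOpen_interior ne fun y hy =>
    op y hy.2 (cl y hy.2.1 (closure_mono interior_subset hy.1))
  filter_upwards [ball_mem_nhds 0 hρ] with y hy
  obtain ⟨z, z1, z2⟩ := cl y hy (closure_mono (al.trans interior_subset)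
    ((t1.dense_compl ℂ).open_subset_closure_inter isOpen_ball hy))
  exact ⟨z, (mD z z1).2.1, z2⟩

end Pool.Agent.Lib.F4H.Sh
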