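import Mathlib

/-! Points joined to a closed set inside their fibre form a closed set. -/

open Set Filter Topology

namespace Pool.Agent.Lib.F4H.S59

variable {X Y : Type*} [TopologicalSpace X] [T2Space X]

/-- The point `p` is joined to `D` by a preconnected subset of `F`. -/
def Jn (F D : Set X) (p : X) : Prop := ∃ C ⊆ F, IsPreconnected C ∧ p ∈ C ∧ (C ∩ D).Nonempty

/-- A point of a compact set that is not joined to a closed set is separated from it. -/
theorem split {F D : Set X} (hF : IsCompact F) (hD : IsClosed D) {p : X} (hp : p ∈ F)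
    (h : ¬ Jn F D p) : ∃ U V : Set X, IsOpen U ∧ IsOpen V ∧ Disjoint U V ∧ p ∈ U ∧ Disjoint U D ∧
      F ⊆ U ∪ V := by
  have : CompactSpace F := isCompact_iff_compactSpace.1 hF
  set q : F := ⟨p, hp⟩
  have hd : IsCompact ((↑) ⁻¹' D : Set F) := (hD.preimage continuous_subtype_val).isCompact
  have e : ((↑) ⁻¹' D : Set F) ∩ ⋂ s : {s : Set F // IsClopen s ∧ q ∈ s}, s.1 = ∅ := by
    rw [← connectedComponent_eq_iInter_isClopen, eq_empty_iff_forall_notMem]
    rintro y ⟨h1, h2⟩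
    exact h ⟨(↑) '' connectedComponent q, by rintro _ ⟨z, -, rfl⟩; exact z.2,
      isPreconnected_connectedComponent.image _ continuous_subtype_val.continuousOn,
      ⟨q, mem_connectedComponent, rfl⟩, y, ⟨y, h2, rfl⟩, h1⟩
  obtain ⟨t, ht⟩ := hd.elim_finite_subfamily_closed _ (fun s => s.2.1.1) e
  set Z : Set F := ⋂ s ∈ t, s.1
  have zc : IsClopen Z := isClopen_biInter_finset fun s _ => s.2.1
  have qz : q ∈ Z := mem_iInter₂.2 fun s _ => s.2.2
  have c1 : IsCompact ((↑) '' Z : Set X) := zc.1.isCompact.image continuous_subtype_val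
  have c2 : IsCompact ((↑) '' Zᶜ : Set X) := zc.compl.1.isCompact.image continuous_subtype_val
  obtain ⟨U, V, ou, ov, su, sv, dj⟩ := SeparatedNhds.of_isCompact_isCompact c1 c2
    ((disjoint_image_iff Subtype.val_injective).2 disjoint_compl_right)
  have nz : ∀ z ∈ Z, (z : X) ∉ D := fun z hz hd => (eq_empty_iff_forall_notMem.1 ht) z ⟨hd, hz⟩
  refine ⟨U \ D, V, ou.sdiff hD, ov, dj.mono_left sdiff_subset, ⟨su ⟨q, qz, rfl⟩, nz q qz⟩,
    disjoint_sdiff_left, fun y hy => ?_⟩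
  by_cases c : (⟨y, hy⟩ : F) ∈ Z
  · exact Or.inl ⟨su ⟨_, c, rfl⟩, nz _ c⟩
  · exact Or.inr (sv ⟨_, c, rfl⟩)

variable [TopologicalSpace Y] [T2Space Y]

/-- The splitting of a compact fibre persists for the nearby fibres. -/
theorem split_near {K D : Set X} (hK : IsCompact K) (hD : IsClosed D) {f : X → Y}
    (hf : ContinuousOn f K) {p : X} (hp : p ∈ K) (h : ¬ Jn {y ∈ K | f y = f p} D p) :
    ∃ U V : Set X, IsOpen U ∧ IsOpen V ∧ Disjoint U V ∧ p ∈ U ∧ Disjoint U D ∧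
      ∀ᶠ c in 𝓝 (f p), {y ∈ K | f y = c} ⊆ U ∪ V := by
  have hF : IsCompact {y ∈ K | f y = f p} :=
    hK.of_isClosed_subset (hf.preimage_isClosed_of_isClosed hK.isClosed isClosed_singleton)
      fun _ h => h.1
  obtain ⟨U, V, ou, ov, dj, pu, ud, s⟩ := split hF hD ⟨hp, rfl⟩ h
  have c : IsCompact (f '' (K \ (U ∪ V))) :=
    (hK.diff (ou.union ov)).image_of_continuousOn (hf.mono sdiff_subset)
  refine ⟨U, V, ou, ov, dj, pu, ud, ?_⟩
  have n : f p ∉ f '' (K \ (U ∪ V)) := fun ⟨y, hy, e⟩ => hy.2 (s ⟨hy.1, e⟩)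
  filter_upwards [c.isClosed.isOpen_compl.mem_nhds n] with a ha y hy
  by_contra b
  exact ha ⟨y, ⟨hy.1, b⟩, hy.2⟩

/-- The points that are joined to `D` inside their fibre form a closed set. -/
theorem closed_jn {K D : Set X} (hK : IsCompact K) (hD : IsClosed D) {f : X → Y}
    (hf : ContinuousOn f K) : IsClosed {p | Jn {y ∈ K | f y = f p} D p} := by
  have sub : {p | Jn {y ∈ K | f y = f p} D p} ⊆ K := fun p ⟨C, h1, _, h3, _⟩ => (h1 h3).1
  refine isClosed_of_closure_subset fun p hp => ?_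
  have pk : p ∈ K := closure_minimal sub hK.isClosed hp
  by_contra h
  obtain ⟨U, V, ou, ov, dj, pu, ud, ev⟩ := split_near hK hD hf pk h
  have e1 : ∀ᶠ y in 𝓝[{p | Jn {y ∈ K | f y = f p} D p}] p, {z ∈ K | f z = f y} ⊆ U ∪ V :=
    ((hf p pk).mono sub).eventually ev
  have := mem_closure_iff_nhdsWithin_neBot.1 hp
  have e2 : ∀ᶠ y in 𝓝[{p | Jn {y ∈ K | f y = f p} D p}] p, y ∈ U :=
    nhdsWithin_le_nhds (ou.mem_nhds pu)
  obtain ⟨y, h1, h2, C, s, pc, yc, z, zc, zd⟩ :=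
    (e1.and (e2.and eventually_mem_nhdsWithin)).exists
  exact disjoint_left.1 ud (pc.subset_left_of_subset_union ou ov dj (s.trans h1) ⟨y, yc, h2⟩ zc) zd

/-- The same statement without the definition. -/
theorem closed_joined {K D : Set X} (hK : IsCompact K) (hD : IsClosed D) {f : X → Y}
    (hf : ContinuousOn f K) : IsClosed {p | ∃ C ⊆ K, IsPreconnected C ∧ p ∈ C ∧
      (C ∩ D).Nonempty ∧ ∀ y ∈ C, f y = f p} := by
  have e : {p | ∃ C ⊆ K, IsPreconnected C ∧ p ∈ C ∧ (C ∩ D).Nonempty ∧ ∀ y ∈ C, f y = f p} =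
      {p | Jn {y ∈ K | f y = f p} D p} := Set.ext fun p =>
    ⟨fun ⟨C, a, b, c, d, e⟩ => ⟨C, fun y hy => ⟨a hy, e y hy⟩, b, c, d⟩,
      fun ⟨C, a, b, c, d⟩ => ⟨C, fun y hy => (a hy).1, b, c, d, fun y hy => (a hy).2⟩⟩
  rw [e]
  exact closed_jn hK hD hf

end Pool.Agent.Lib.F4H.S59
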