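import Pool.Agent.Lib.F4H.Defs
import Pool.Agent.Lib.F4H.Loj23

/-! Project f4h: a form that vanishes on the support of a divisor is dominated by the divisor. -/

open scoped Classical Topology ContDiff ComplexOrder Matrix
open Set MeasureTheory Filter Metric

noncomputable section

namespace Pool.Agent.Lib.F4H.U83

open Pool.Agent.Lib.SV (E)
open Pool.Agent.Lib.HS32 Pool.Agent.Lib.HLK Pool.Agent.Lib.F4

variable {n : ℕ} {M : Mf n} {a : ℤ} {α : M.Fam (E n)} {σ : M.X → ℝ}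

theorem nrm (v : E n) (A : Mat n) : ‖v ᵥ* A‖ ≤ (∑ i, ∑ j, ‖A i j‖) * ‖v‖ := by
  refine (pi_norm_le_iff_of_nonneg (by positivity)).2 fun j => ?_
  rw [Matrix.vecMul, dotProduct, Finset.sum_mul]
  refine (norm_sum_le _ _).trans (Finset.sum_le_sum fun i _ => ?_)
  rw [norm_mul, mul_comm]
  exact mul_le_mul (Finset.single_le_sum (f := fun j => ‖A i j‖) (fun _ _ => norm_nonneg _)
    (Finset.mem_univ j)) (norm_le_pi_norm v i) (norm_nonneg _) (by positivity)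

/-- Change of chart. -/
theorem chg (hα : H1 M a α) {m : ℕ} {e e' : M.Ch} {x : M.X} (he : e ∈ M.C) (he' : e' ∈ M.C)
    (hx : x ∈ e.source) (hx' : x ∈ e'.source) {C : ℝ}
    (h : ∀ᶠ w in 𝓝 (e x), ‖α e w‖ ^ m ≤ C * σ (e.symm w)) :
    ∃ C' : ℝ, ∀ᶠ w in 𝓝 (e' x), ‖α e' w‖ ^ m ≤ C' * σ (e'.symm w) := by
  obtain ⟨t1, t2, -, t4, -⟩ := (mTR n M).2.1 e he e' he' x hx hx'
  have e1 : (e ∘ e'.symm) (e' x) = e x := by simp only [Function.comp_apply, e'.left_inv hx']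
  have c := t1.self_of_nhds.continuousAt
  rw [ContinuousAt, e1] at c
  obtain ⟨-, s2, -, -, s5, -⟩ := mCHN n _ _ t1
  have cK : ContinuousAt (fun w => ‖(jm (e ∘ e'.symm) w).det ^ a‖ *
      ∑ i, ∑ j, ‖jm (e ∘ e'.symm) w i j‖) (e' x) :=
    (s5.self_of_nhds.continuousAt.zpow₀ a (Or.inl t2)).norm.mul
      (tendsto_finsetSum _ fun i _ => tendsto_finsetSum _ fun j _ => (s2 i j).continuousAt.norm)
  obtain ⟨K, hK⟩ := cK.isBoundedUnder_le
  rw [eventually_map] at hK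
  refine ⟨|K| ^ m * C, ?_⟩
  filter_upwards [c.eventually h, t4, hK] with w w1 w4 w5
  have b := hα.cmp e he e' he' _ w4.2.1 w4.2.2.1
  simp only [jd, w4.2.2.2.2.2.1, w4.2.2.2.2.2.2] at b
  simp only [Function.comp_apply, w4.2.2.2.2.1] at w1
  have b1 : ‖α e' w‖ ≤ |K| * ‖α e (e (e'.symm w))‖ := by
    rw [b, norm_smul]
    refine (mul_le_mul_of_nonneg_left (nrm _ _) (norm_nonneg _)).trans ?_
    rw [← mul_assoc]
    exact mul_le_mul_of_nonneg_right (w5.trans (le_abs_self K)) (norm_nonneg _)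
  calc ‖α e' w‖ ^ m ≤ (|K| * ‖α e (e (e'.symm w))‖) ^ m := pow_le_pow_left₀ (norm_nonneg _) b1 m
    _ ≤ _ := by
      rw [mul_pow, mul_assoc]
      exact mul_le_mul_of_nonneg_left w1 (by positivity)

/-- The local estimate. -/
theorem loc (hα : H1 M a α) (hs : Dl M σ) (hz : ∀ x, σ x = 0 → M.ev α x = 0) (x : M.X) :
    ∃ e ∈ M.C, x ∈ e.source ∧ ∃ d : ℕ, 0 < d ∧ ∀ m, d ≤ m →
      ∃ C : ℝ, ∀ᶠ w in 𝓝 (e x), ‖α e w‖ ^ (2 * m) ≤ C * σ (e.symm w) := by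
  obtain ⟨e, he, hx, q, g, h0, h1⟩ := hs x
  have ht := e.open_target.mem_nhds (e.map_source hx)
  have hd : ∀ᶠ z in 𝓝 (e x), DifferentiableAt ℂ (α e) z := by
    filter_upwards [ht] with z hz'
    exact differentiableAt_pi.2 fun i => (hα.hol e he z hz' i).self_of_nhds
  obtain ⟨d, d0, C, C0, hC⟩ := L23.loj (a := α e) (h1.mono fun z h => h.1) hd h0 (by
    filter_upwards [h1, ht] with z b1 b2 b3
    have b4 := hα.cmp _ (Mf.ch_mem (e.symm z)) e he _ (Mf.mem_ch _) (e.map_target b2)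
    have b5 : α (M.ch (e.symm z)) (M.ch (e.symm z) (e.symm z)) = 0 :=
      hz _ (by rw [b1.2.2, b3]; simp)
    simp only [e.right_inv b2, b5] at b4
    simpa using b4)
  refine ⟨e, he, hx, d, d0, fun m hm => ?_⟩
  obtain ⟨k, rfl⟩ := Nat.exists_eq_add_of_le hm
  have cK : ContinuousAt (fun w => ‖α e w‖ ^ (2 * k) * Real.exp (-g w)) (e x) :=
    (hd.self_of_nhds.continuousAt.norm.pow _).mul h1.self_of_nhds.2.1.continuousAt.neg.rexp
  obtain ⟨K, hK⟩ := cK.isBoundedUnder_le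
  rw [eventually_map] at hK
  refine ⟨C ^ 2 * K, ?_⟩
  filter_upwards [h1, hC, hK] with w b1 b2 b3
  have b4 : ‖α e w‖ ^ (2 * k) ≤ K * Real.exp (g w) := by
    rw [Real.exp_neg, ← div_eq_mul_inv, div_le_iff₀ (Real.exp_pos _)] at b3
    exact b3
  have b5 : (‖α e w‖ ^ d) ^ 2 ≤ (C * ‖q w‖) ^ 2 := pow_le_pow_left₀ (by positivity) b2 2
  rw [b1.2.2, Complex.normSq_eq_norm_sq]
  calc ‖α e w‖ ^ (2 * (d + k)) = (‖α e w‖ ^ d) ^ 2 * ‖α e w‖ ^ (2 * k) := by ring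
    _ ≤ (C * ‖q w‖) ^ 2 * (K * Real.exp (g w)) := mul_le_mul b5 b4 (by positivity) (by positivity)
    _ = _ := by ring

/-- The input of the row N1. -/
theorem uni [M.Cpt] (hα : H1 M a α) (hs : Dl M σ) (hz : ∀ x, σ x = 0 → M.ev α x = 0) :
    ∃ m : ℕ, 0 < m ∧ M.All fun e z =>
      ∃ C : ℝ, ∀ᶠ w in 𝓝 z, ‖α e w‖ ^ (2 * m) ≤ C * σ (e.symm w) := by
  choose e he hx d d0 hd using loc hα hs hz
  have hU : ∀ x, ∀ m, d x ≤ m → ∀ᶠ y in 𝓝 x, y ∈ (e x).source ∧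
      ∃ C : ℝ, ∀ᶠ w in 𝓝 (e x y), ‖α (e x) w‖ ^ (2 * m) ≤ C * σ ((e x).symm w) := fun x m hm => by
    obtain ⟨C, hC⟩ := hd x m hm
    filter_upwards [(e x).open_source.mem_nhds (hx x),
      ((e x).continuousAt (hx x)).eventually hC.eventually_nhds] with y b1 b2
    exact ⟨b1, C, b2⟩
  obtain ⟨t, ht⟩ := isCompact_univ.elim_nhds_subcover' _ fun x _ => hU x (d x) le_rfl
  refine ⟨∑ x ∈ t, d x + 1, Nat.succ_pos _, Mf.allOn_of_source fun e' he' y hy => ?_⟩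
  obtain ⟨x, hxt, b1, C, b2⟩ := mem_iUnion₂.1 (ht (mem_univ y))
  have hm : d x ≤ ∑ x ∈ t, d x + 1 := Nat.le_succ_of_le
    (Finset.single_le_sum (f := fun x : (univ : Set M.X) => d x) (fun _ _ => Nat.zero_le _) hxt)
  obtain ⟨k, hk⟩ := Nat.exists_eq_add_of_le hm
  obtain ⟨C', b3⟩ := chg hα (he x) he' b1 hy b2
  have cK : ContinuousAt (fun w => ‖α e' w‖ ^ (2 * k)) (e' y) :=
    ((differentiableAt_pi.2 fun i => (hα.hol e' he' _ (e'.map_source hy) i).self_of_nhds :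
      DifferentiableAt ℂ (α e') (e' y)).continuousAt.norm.pow _)
  obtain ⟨K, hK⟩ := cK.isBoundedUnder_le
  rw [eventually_map] at hK
  refine ⟨K * C', ?_⟩
  filter_upwards [b3, hK] with w c1 c2
  rw [hk, mul_add, pow_add, mul_comm, mul_assoc]
  exact mul_le_mul c2 c1 (by positivity) ((by positivity : 0 ≤ ‖α e' w‖ ^ (2 * k)).trans c2)

end Pool.Agent.Lib.F4H.U83
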